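import Pool.Agent.H27.Const

/-!
# Pointed torsors

We consider a category `𝒳` over `Alg κ` with a diagram `v : T ⥤ 𝒳` of objects (a virtual point),
and finite (pre-)torsors over `𝒳` with a trivialization over `v`.
-/

open CategoryTheory Limits

namespace Pool.Agent.H27

/-- A finite group scheme `Spec H` over `κ`, as a group valued functor of points. -/
structure FinGrp (κ : Type) [Field κ] where
  H : Alg κ
  grp : ∀ C : Alg κ, Group (H ⟶ C)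
  mul_comp : ∀ {C D : Alg κ} (a b : H ⟶ C) (f : C ⟶ D), (a * b) ≫ f = (a ≫ f) * (b ≫ f)
  finite : Module.Finite κ H

attribute [instance] FinGrp.grp

variable {κ : Type} [Field κ] {𝒳 : BasedCategory.{0, 1} (Alg κ)} {T : Type} [Category.{0} T]

/-- A finite pre-torsor over `𝒳` under a finite group scheme, with a trivialization over the diagram
`v`.  (The group acts simply transitively on the fibres, but the fibres are allowed to be empty;
this is excluded by `PTors.faithfullyFlat` if `𝒳` has an atlas.) -/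
structure PTors (v : T ⥤ 𝒳.obj) where
  G : FinGrp κ
  B : 𝒳.obj ⥤ Alg κ
  s : 𝒳.p ⟶ B
  isPushout : ∀ {a a' : 𝒳.obj} (ψ : a ⟶ a'),
    IsPushout (𝒳.p.map ψ) (s.app a) (s.app a') (B.map ψ)
  act : ∀ {a : 𝒳.obj} {C : Alg κ}, (B.obj a ⟶ C) → (G.H ⟶ C) → (B.obj a ⟶ C)
  act_one : ∀ {a : 𝒳.obj} {C : Alg κ} (b : B.obj a ⟶ C), act b 1 = b
  act_mul : ∀ {a : 𝒳.obj} {C : Alg κ} (b : B.obj a ⟶ C) (g g' : G.H ⟶ C),
    act b (g * g') = act (act b g) g'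
  act_comp : ∀ {a : 𝒳.obj} {C D : Alg κ} (b : B.obj a ⟶ C) (g : G.H ⟶ C) (f : C ⟶ D),
    act b g ≫ f = act (b ≫ f) (g ≫ f)
  map_act : ∀ {a a' : 𝒳.obj} (ψ : a ⟶ a') {C : Alg κ} (b : B.obj a' ⟶ C) (g : G.H ⟶ C),
    B.map ψ ≫ act b g = act (B.map ψ ≫ b) g
  s_act : ∀ {a : 𝒳.obj} {C : Alg κ} (b : B.obj a ⟶ C) (g : G.H ⟶ C),
    s.app a ≫ act b g = s.app a ≫ b
  trans : ∀ {a : 𝒳.obj} {C : Alg κ} (b b' : B.obj a ⟶ C), s.app a ≫ b = s.app a ≫ b' →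
    ∃! g : G.H ⟶ C, act b g = b'
  finite : ∀ a : 𝒳.obj, (s.app a).hom.toRingHom.Finite
  y : ∀ t : T, B.obj (v.obj t) ⟶ 𝒳.p.obj (v.obj t)
  s_y : ∀ t : T, s.app (v.obj t) ≫ y t = 𝟙 _
  y_map : ∀ {t t' : T} (τ : t ⟶ t'), y t ≫ 𝒳.p.map (v.map τ) = B.map (v.map τ) ≫ y t'

variable {v : T ⥤ 𝒳.obj}

/-- A morphism `P ⟶ Q` of pointed pre-torsors: a homomorphism of group schemes and an equivariant
morphism of schemes over `𝒳`, compatible with the points. -/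
@[ext]
structure PHom (P Q : PTors v) where
  h : Q.G.H ⟶ P.G.H
  f : Q.B ⟶ P.B
  h_mul : ∀ {C : Alg κ} (g g' : P.G.H ⟶ C), h ≫ (g * g') = (h ≫ g) * (h ≫ g')
  s_f : ∀ a : 𝒳.obj, Q.s.app a ≫ f.app a = P.s.app a
  f_act : ∀ {a : 𝒳.obj} {C : Alg κ} (b : P.B.obj a ⟶ C) (g : P.G.H ⟶ C),
    f.app a ≫ P.act b g = Q.act (f.app a ≫ b) (h ≫ g)
  f_y : ∀ t : T, f.app (v.obj t) ≫ P.y t = Q.y t

instance : Category (PTors v) where
  Hom := PHom
  id P :=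
    { h := 𝟙 _
      f := 𝟙 _
      h_mul := by simp
      s_f := by simp
      f_act := by simp
      f_y := by simp }
  comp {P Q R} α β :=
    { h := β.h ≫ α.h
      f := β.f ≫ α.f
      h_mul := by
        intro C g g'
        rw [Category.assoc, α.h_mul, β.h_mul, Category.assoc, Category.assoc]
      s_f := by
        intro a
        rw [NatTrans.comp_app, ← Category.assoc, β.s_f, α.s_f]
      f_act := by
        intro a C b g
        rw [NatTrans.comp_app, Category.assoc, α.f_act, β.f_act]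
        simp
      f_y := by
        intro t
        rw [NatTrans.comp_app, Category.assoc, α.f_y, β.f_y] }
  id_comp α := by apply PHom.ext <;> simp
  comp_id α := by apply PHom.ext <;> simp
  assoc α β γ := by apply PHom.ext <;> simp

/-- A pointed torsor is reduced if it has no proper pointed closed subtorsor. -/
def PTors.IsReduced (P : PTors v) : Prop :=
  ∀ (Q : PTors v) (α : PHom Q P), Function.Surjective α.h.hom →
    (∀ a, Function.Surjective (α.f.app a).hom) → Function.Injective α.h.hom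

/-- An affine atlas of `𝒳` with two charts. -/
structure Charts (v : T ⥤ 𝒳.obj) where
  u₀ : 𝒳.obj
  u₁ : 𝒳.obj
  u₀₁ : 𝒳.obj
  j₀ : u₀ ⟶ u₀₁
  j₁ : u₁ ⟶ u₀₁
  coprod : IsCoprod j₀ j₁
  mono₀ : ∀ (a : 𝒳.obj) (f g : u₀ ⟶ a), f = g
  mono₁ : ∀ (a : 𝒳.obj) (f g : u₁ ⟶ a), f = g
  cover : ∀ a : 𝒳.obj, ∃ (a' : Bool → 𝒳.obj) (ζ : ∀ i, a ⟶ a' i) (_ : u₀ ⟶ a' false)
    (_ : u₁ ⟶ a' true), IsFpqcCover (fun i ↦ 𝒳.p.obj (a' i)) (fun i ↦ 𝒳.p.map (ζ i))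
  dom₀ : IsDomain (𝒳.p.obj u₀)
  dom₁ : IsDomain (𝒳.p.obj u₁)
  t₀ : T
  t₁ : T
  w₀ : u₀ ⟶ v.obj t₀
  w₁ : u₁ ⟶ v.obj t₁
  inj₀ : Function.Injective (𝒳.p.map w₀).hom
  inj₁ : Function.Injective (𝒳.p.map w₁).hom
  t₀₁ : T
  τ₀ : t₀ ⟶ t₀₁
  τ₁ : t₁ ⟶ t₀₁
  w₀₁ : u₀₁ ⟶ v.obj t₀₁
  inj₀₁ : Function.Injective (𝒳.p.map w₀₁).hom

end Pool.Agent.H27
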