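import Pool.Agent.H27.VConst2

/-!
# The range condition when the diagram is integrally closed in the field
-/

open CategoryTheory Limits Bicategory
open scoped TensorProduct

namespace Pool.Agent.H27

variable {κ : Type} [Field κ] {T : Type} [Category.{0} T] {Γ : BasedCategory.{0, 1} (Alg κ)}

/-- Coproducts exist in `Γ` and are finite over the tensor product of the bases. -/
def HasFiniteCoprods (Γ : BasedCategory.{0, 1} (Alg κ)) : Prop :=
  ∀ x y : Γ.obj, ∃ (z : Γ.obj) (i : x ⟶ z) (j : y ⟶ z), IsCoprod i j ∧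
    ((isCoprod_tens _ _).desc (Γ.p.map i) (Γ.p.map j)).hom.toRingHom.Finite

lemma HasFiniteCoprods.hasCoprods (h : HasFiniteCoprods Γ) : HasCoprods Γ := by
  intro x y
  obtain ⟨z, i, j, hz, -⟩ := h x y
  exact ⟨z, i, j, hz⟩

lemma isIntegralElem_map {R S S' : Type} [CommRing R] [CommRing S] [CommRing S'] {f : R →+* S}
    {a : S} (h : f.IsIntegralElem a) (g : S →+* S') : (g.comp f).IsIntegralElem (g a) := by
  obtain ⟨p, hp, hpa⟩ := h
  refine ⟨p, hp, ?_⟩
  rw [← Polynomial.hom_eval₂, hpa, map_zero]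

lemma isIntegralElem_of_comp {R R' S : Type} [CommRing R] [CommRing R'] [CommRing S]
    {f : R →+* R'} {g : R' →+* S} {a : S} (h : (g.comp f).IsIntegralElem a) :
    g.IsIntegralElem a := by
  obtain ⟨p, hp, hpa⟩ := h
  refine ⟨p.map f, hp.map f, ?_⟩
  rw [Polynomial.eval₂_map, hpa]

lemma HasFiniteCoprods.finite (h : HasFiniteCoprods Γ) {x y z : Γ.obj} {i : x ⟶ z} {j : y ⟶ z}
    (hz : IsCoprod i j) :
    ((isCoprod_tens _ _).desc (Γ.p.map i) (Γ.p.map j)).hom.toRingHom.Finite := by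
  obtain ⟨z', i', j', hz', hfin⟩ := h x y
  let e : z' ≅ z := hz'.uniq hz
  let e' : Γ.p.obj z' ≅ Γ.p.obj z := Γ.p.mapIso e
  have h₁ : (isCoprod_tens _ _).desc (Γ.p.map i) (Γ.p.map j) =
      (isCoprod_tens _ _).desc (Γ.p.map i') (Γ.p.map j') ≫ e'.hom := by
    refine (isCoprod_tens _ _).hom_ext ?_ ?_
    · rw [IsCoprod.left_desc, IsCoprod.left_desc_assoc]
      change _ = Γ.p.map i' ≫ Γ.p.map e.hom
      rw [← Γ.p.map_comp]
      congr 1
      exact (hz'.left_desc _ _).symm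
    · rw [IsCoprod.right_desc, IsCoprod.right_desc_assoc]
      change _ = Γ.p.map j' ≫ Γ.p.map e.hom
      rw [← Γ.p.map_comp]
      congr 1
      exact (hz'.right_desc _ _).symm
  rw [h₁]
  have h₂ : e'.hom.hom.toRingHom.Finite :=
    RingHom.Finite.of_surjective _ (CommAlgCat.algEquivOfIso e').surjective
  exact h₂.comp hfin

theorem rangeCondition_of_isIntegral {Y : T ⥤ Alg κ} {Ω M : Type} [Field Ω] [Algebra κ Ω] [Field M]
    [Algebra κ M] (hΓc : HasFiniteCoprods Γ) (S : FieldPoint Y Ω M)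
    (hS : ∀ (t : T) (b : M), (S.g t).hom.toRingHom.IsIntegralElem b → ∃ a, (S.g t).hom a = b) :
    S.RangeCondition Γ := by
  intro y' ey ξ eξ yM eM h hh hhp s hs t z i j hz a
  have hfin := hΓc.finite hz
  have h₁ : ((isCoprod_tens _ _).desc (Γ.p.map i) (Γ.p.map j)).hom.toRingHom.IsIntegralElem a :=
    hfin.to_isIntegral a
  have h₂ := isIntegralElem_map h₁ (Γ.p.map (hz.desc s (h t)) ≫ eM.hom).hom.toRingHom
  let ν : tens (Γ.p.obj ξ) (Γ.p.obj (y'.obj t)) ⟶ S.Y'.obj t :=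
    (isCoprod_tens _ _).desc (eξ.hom ≫ S.e t) (ey.hom.app t)
  have h₃ : (isCoprod_tens _ _).desc (Γ.p.map i) (Γ.p.map j) ≫
      (Γ.p.map (hz.desc s (h t)) ≫ eM.hom) = ν ≫ S.g t := by
    refine (isCoprod_tens _ _).hom_ext ?_ ?_
    · rw [IsCoprod.left_desc_assoc, ← Category.assoc, ← Γ.p.map_comp, hz.left_desc, hs,
        IsCoprod.left_desc_assoc, Category.assoc]
    · rw [IsCoprod.right_desc_assoc, ← Category.assoc, ← Γ.p.map_comp, hz.right_desc, hhp,
        IsCoprod.right_desc_assoc]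
  have h₄ : ((S.g t).hom.toRingHom.comp ν.hom.toRingHom).IsIntegralElem
      ((Γ.p.map (hz.desc s (h t)) ≫ eM.hom).hom a) := by
    have h₅ : ((Γ.p.map (hz.desc s (h t)) ≫ eM.hom).hom.toRingHom.comp
        ((isCoprod_tens _ _).desc (Γ.p.map i) (Γ.p.map j)).hom.toRingHom) =
        ((S.g t).hom.toRingHom.comp ν.hom.toRingHom) := by
      ext b
      exact congr(($h₃).hom b)
    rw [← h₅]
    exact h₂
  obtain ⟨c, hc⟩ := hS t _ (isIntegralElem_of_comp h₄)
  refine ⟨(ey.inv.app t).hom c, ?_⟩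
  have h₆ : ey.inv.app t ≫ Γ.p.map (h t) ≫ eM.hom = S.g t := by
    rw [hhp, ← Category.assoc]
    simp
  have h₇ : eM.hom.hom ((Γ.p.map (h t)).hom ((ey.inv.app t).hom c)) = (S.g t).hom c :=
    congr(($h₆).hom c)
  have h₈ := h₇.trans hc
  have h₉ := congrArg eM.inv.hom h₈
  have h₁₀ : ∀ m, eM.inv.hom (eM.hom.hom m) = m := fun m ↦ congr(($(eM.hom_inv_id)).hom m)
  rw [h₁₀] at h₉
  rw [h₉]
  exact h₁₀ _

end Pool.Agent.H27
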