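import Pool.Agent.H27.Coprod
import Pool.Agent.H27.RangeInt
import Pool.Agent.H27.PTors

/-!
# The torsor of isomorphisms
-/

open CategoryTheory Limits Bicategory
open scoped TensorProduct

namespace Pool.Agent.H27

namespace Isom

variable {κ : Type} [Field κ] {Γ : BasedCategory.{0, 1} (Alg κ)}

/-- Pushouts in `Γ` lie over pushouts. -/
lemma isPushout_map (hc : IsCofiberedInGroupoids Γ) {a b c d : Γ.obj} {α : a ⟶ b} {β : a ⟶ c}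
    {γ : b ⟶ d} {δ : c ⟶ d} (h : IsPushout α β γ δ) :
    IsPushout (Γ.p.map α) (Γ.p.map β) (Γ.p.map γ) (Γ.p.map δ) := by
  obtain ⟨d', γ', δ', h₁, h₂⟩ := hc.exists_pushout α β
  let e : d' ≅ d := h₁.isoIsPushout _ _ h
  have e₁ : γ' ≫ e.hom = γ := h₁.inl_isoIsPushout_hom _ _ h
  have e₂ : δ' ≫ e.hom = δ := h₁.inr_isoIsPushout_hom _ _ h
  refine h₂.of_iso (Iso.refl _) (Iso.refl _) (Iso.refl _) (Γ.p.mapIso e) ?_ ?_ ?_ ?_
  · simp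
  · simp
  · rw [← e₁]
    simp
  · rw [← e₂]
    simp

/-- Comparison of two arrows over the same map. -/
lemma exists_compare (hc : IsCofiberedInGroupoids Γ) {C : Alg κ} {x x₁ z : Γ.obj} (q : z ⟶ x)
    (e : Γ.p.obj x ≅ C) (q₁ : z ⟶ x₁) (e₁ : Γ.p.obj x₁ ⟶ C)
    (h : Γ.p.map q ≫ e.hom = Γ.p.map q₁ ≫ e₁) : ∃ (x' : Γ.obj) (r : x₁ ⟶ x')
      (e' : Γ.p.obj x' ≅ C) (w : x ⟶ x'), Γ.p.map r ≫ e'.hom = e₁ ∧ Γ.p.map w ≫ e'.hom = e.hom ∧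
        q ≫ w = q₁ ≫ r := by
  obtain ⟨x', r, e', hr⟩ := hc.exists_push' x₁ e₁
  have h₁ : Γ.p.map q ≫ e.hom ≫ e'.inv = Γ.p.map (q₁ ≫ r) := by
    rw [← Category.assoc, h, Γ.p.map_comp, ← hr]
    simp
  refine ⟨x', r, e', hc.desc q (q₁ ≫ r) _ h₁, hr, ?_, hc.fac_desc _ _ _ _⟩
  rw [hc.map_desc]
  simp

section

variable (hc : IsCofiberedInGroupoids Γ) {ξ : Γ.obj}
  (hini : ∀ {C : Alg κ} (f g : Γ.p.obj ξ ⟶ C), f = g)

variable {ω z y : Γ.obj} {u u' : ξ ⟶ ω} (hω : IsCoprod u u') {i : ξ ⟶ z} {j : y ⟶ z}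
  (hz : IsCoprod i j)

include hc in
lemma eq_of_compare {C : Alg κ} {x x₁ x' : Γ.obj} {e : Γ.p.obj x ≅ C} {e₁ : Γ.p.obj x₁ ⟶ C}
    {r : x₁ ⟶ x'} {e' : Γ.p.obj x' ≅ C} {w : x ⟶ x'} (hr : Γ.p.map r ≫ e'.hom = e₁)
    (hw : Γ.p.map w ≫ e'.hom = e.hom) {G : ω ⟶ x} {G₁ : ω ⟶ x₁}
    (hG : Γ.p.map G ≫ e.hom = Γ.p.map G₁ ≫ e₁) (hu : u ≫ G ≫ w = u ≫ G₁ ≫ r) :
    G ≫ w = G₁ ≫ r := by
  refine hc.hom_ext u ?_ hu
  rw [← cancel_mono e'.hom, Γ.p.map_comp, Γ.p.map_comp, Category.assoc, Category.assoc, hr, hw, hG]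

include hc hini in
lemma exists_arr {C : Alg κ} {x : Γ.obj} (α : ξ ⟶ x) (e : Γ.p.obj x ≅ C) (g : Γ.p.obj ω ⟶ C)
    (u : ξ ⟶ ω) : ∃ G : ω ⟶ x, Γ.p.map G ≫ e.hom = g ∧ u ≫ G = α := by
  have h₁ : Γ.p.map u ≫ g ≫ e.inv = Γ.p.map α := hini _ _
  refine ⟨hc.desc u α (g ≫ e.inv) h₁, ?_, hc.fac_desc _ _ _ _⟩
  rw [hc.map_desc]
  simp

include hc hini in
lemma exists_act {C : Alg κ} (b : Γ.p.obj z ⟶ C) (g : Γ.p.obj ω ⟶ C) :
    ∃ b' : Γ.p.obj z ⟶ C, ∀ {x : Γ.obj} (q : z ⟶ x) (e : Γ.p.obj x ⟶ C) (G : ω ⟶ x),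
      Γ.p.map q ≫ e = b → Γ.p.map G ≫ e = g → u ≫ G = i ≫ q →
        b' = Γ.p.map (hz.desc (u' ≫ G) (j ≫ q)) ≫ e := by
  obtain ⟨x, q, e, hq⟩ := hc.exists_push' z b
  obtain ⟨G, hG, hu⟩ := exists_arr hc hini (i ≫ q) e g u
  refine ⟨Γ.p.map (hz.desc (u' ≫ G) (j ≫ q)) ≫ e.hom, ?_⟩
  intro x₁ q₁ e₁ G₁ hq₁ hG₁ hu₁
  obtain ⟨x', r, e', w, hr, hw, hqw⟩ := exists_compare hc q e q₁ e₁ (hq.trans hq₁.symm)
  have h₁ : G ≫ w = G₁ ≫ r := by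
    refine eq_of_compare hc (u := u) hr hw (hG.trans hG₁.symm) ?_
    rw [reassoc_of% hu, reassoc_of% hu₁, hqw]
  have h₂ : hz.desc (u' ≫ G) (j ≫ q) ≫ w = hz.desc (u' ≫ G₁) (j ≫ q₁) ≫ r := by
    refine hz.hom_ext ?_ ?_
    · rw [IsCoprod.left_desc_assoc, IsCoprod.left_desc_assoc, Category.assoc, Category.assoc, h₁]
    · rw [IsCoprod.right_desc_assoc, IsCoprod.right_desc_assoc, Category.assoc, Category.assoc,
        hqw]
  rw [← hw, ← hr, ← Category.assoc, ← Γ.p.map_comp, h₂, Γ.p.map_comp, Category.assoc]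

include hc hini in
lemma exists_mul {C : Alg κ} (g g' : Γ.p.obj ω ⟶ C) :
    ∃ g'' : Γ.p.obj ω ⟶ C, ∀ {x : Γ.obj} (e : Γ.p.obj x ⟶ C) (G G' : ω ⟶ x),
      Γ.p.map G ≫ e = g → Γ.p.map G' ≫ e = g' → u ≫ G' = u' ≫ G →
        g'' = Γ.p.map (hω.desc (u ≫ G) (u' ≫ G')) ≫ e := by
  obtain ⟨x, G, e, hG⟩ := hc.exists_push' ω g
  obtain ⟨G', hG', hu⟩ := exists_arr hc hini (u' ≫ G) e g' u
  refine ⟨Γ.p.map (hω.desc (u ≫ G) (u' ≫ G')) ≫ e.hom, ?_⟩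
  intro x₁ e₁ G₁ G₁' hG₁ hG₁' hu₁
  obtain ⟨x', r, e', w, hr, hw, hqw⟩ := exists_compare hc G e G₁ e₁ (hG.trans hG₁.symm)
  have h₁ : G' ≫ w = G₁' ≫ r := by
    refine eq_of_compare hc (u := u) hr hw (hG'.trans hG₁'.symm) ?_
    rw [reassoc_of% hu, reassoc_of% hu₁, hqw]
  have h₂ : hω.desc (u ≫ G) (u' ≫ G') ≫ w = hω.desc (u ≫ G₁) (u' ≫ G₁') ≫ r := by
    refine hω.hom_ext ?_ ?_
    · rw [IsCoprod.left_desc_assoc, IsCoprod.left_desc_assoc, Category.assoc, Category.assoc, hqw]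
    · rw [IsCoprod.right_desc_assoc, IsCoprod.right_desc_assoc, Category.assoc, Category.assoc,
        h₁]
  rw [← hw, ← hr, ← Category.assoc, ← Γ.p.map_comp, h₂, Γ.p.map_comp, Category.assoc]

/-- The action of the group of automorphisms on isomorphisms. -/
noncomputable def act {C : Alg κ} (b : Γ.p.obj z ⟶ C) (g : Γ.p.obj ω ⟶ C) : Γ.p.obj z ⟶ C :=
  (exists_act hc hini (u := u) (u' := u') hz b g).choose

lemma act_mk {C : Alg κ} {x : Γ.obj} (q : z ⟶ x) (e : Γ.p.obj x ⟶ C) (G : ω ⟶ x)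
    (hu : u ≫ G = i ≫ q) : act hc hini (u := u) (u' := u') hz (Γ.p.map q ≫ e) (Γ.p.map G ≫ e) =
      Γ.p.map (hz.desc (u' ≫ G) (j ≫ q)) ≫ e :=
  (exists_act hc hini (u := u) (u' := u') hz _ _).choose_spec q e G rfl rfl hu

/-- The multiplication of automorphisms. -/
noncomputable def mul {C : Alg κ} (g g' : Γ.p.obj ω ⟶ C) : Γ.p.obj ω ⟶ C :=
  (exists_mul hc hini hω g g').choose

lemma mul_mk {C : Alg κ} {x : Γ.obj} (e : Γ.p.obj x ⟶ C) (G G' : ω ⟶ x)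
    (hu : u ≫ G' = u' ≫ G) : mul hc hini hω (Γ.p.map G ≫ e) (Γ.p.map G' ≫ e) =
      Γ.p.map (hω.desc (u ≫ G) (u' ≫ G')) ≫ e :=
  (exists_mul hc hini hω _ _).choose_spec e G G' rfl rfl hu

/-- The neutral element. -/
noncomputable def one (C : Alg κ) (e : Γ.p.obj ξ ⟶ C) : Γ.p.obj ω ⟶ C :=
  Γ.p.map (hω.desc (𝟙 ξ) (𝟙 ξ)) ≫ e

/-- The inverse. -/
noncomputable def inv' {C : Alg κ} (g : Γ.p.obj ω ⟶ C) : Γ.p.obj ω ⟶ C :=
  Γ.p.map (hω.desc u' u) ≫ g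

include hini in
lemma one_mk {C : Alg κ} (e : Γ.p.obj ξ ⟶ C) {x : Γ.obj} (α : ξ ⟶ x) (e' : Γ.p.obj x ⟶ C) :
    one hω C e = Γ.p.map (hω.desc α α) ≫ e' := by
  have h₁ : hω.desc α α = hω.desc (𝟙 ξ) (𝟙 ξ) ≫ α := by
    refine hω.hom_ext ?_ ?_ <;> simp
  rw [h₁, Γ.p.map_comp, Category.assoc, one]
  congr 1
  exact hini _ _

/-- Functoriality. -/
lemma mul_comp {C D : Alg κ} (g g' : Γ.p.obj ω ⟶ C) (f : C ⟶ D) :
    mul hc hini hω g g' ≫ f = mul hc hini hω (g ≫ f) (g' ≫ f) := by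
  obtain ⟨x, G, e, rfl⟩ := hc.exists_push' ω g
  obtain ⟨G', rfl, hu⟩ := exists_arr hc hini (u' ≫ G) e g' u
  rw [mul_mk hc hini hω _ _ _ hu, Category.assoc, Category.assoc, Category.assoc,
    mul_mk hc hini hω _ _ _ hu]

lemma act_comp {C D : Alg κ} (b : Γ.p.obj z ⟶ C) (g : Γ.p.obj ω ⟶ C) (f : C ⟶ D) :
    act hc hini (u := u) (u' := u') hz b g ≫ f =
      act hc hini (u := u) (u' := u') hz (b ≫ f) (g ≫ f) := by
  obtain ⟨x, q, e, rfl⟩ := hc.exists_push' z b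
  obtain ⟨G, rfl, hu⟩ := exists_arr hc hini (i ≫ q) e g u
  rw [act_mk hc hini hz _ _ _ hu, Category.assoc, Category.assoc, Category.assoc,
    act_mk hc hini hz _ _ _ hu]

lemma mul_assoc' {C : Alg κ} (g g' g'' : Γ.p.obj ω ⟶ C) :
    mul hc hini hω (mul hc hini hω g g') g'' = mul hc hini hω g (mul hc hini hω g' g'') := by
  obtain ⟨x, G, e, rfl⟩ := hc.exists_push' ω g
  obtain ⟨G', rfl, hu⟩ := exists_arr hc hini (u' ≫ G) e g' u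
  obtain ⟨G'', rfl, hu'⟩ := exists_arr hc hini (u' ≫ G') e g'' u
  rw [mul_mk hc hini hω _ _ _ hu, mul_mk hc hini hω _ _ _ hu',
    mul_mk hc hini hω _ _ _ (by rw [hω.right_desc, hu']),
    mul_mk hc hini hω _ _ _ (by rw [hω.left_desc, hu]), hω.left_desc, hω.right_desc]

lemma one_mul' {C : Alg κ} (e₀ : Γ.p.obj ξ ⟶ C) (g : Γ.p.obj ω ⟶ C) :
    mul hc hini hω (one hω C e₀) g = g := by
  obtain ⟨x, G, e, rfl⟩ := hc.exists_push' ω g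
  rw [one_mk hini hω e₀ (u ≫ G) e.hom, mul_mk hc hini hω _ _ _ (by rw [hω.right_desc]),
    hω.left_desc]
  congr 2
  exact hω.hom_ext (hω.left_desc _ _) (hω.right_desc _ _)

lemma inv_mul' {C : Alg κ} (e₀ : Γ.p.obj ξ ⟶ C) (g : Γ.p.obj ω ⟶ C) :
    mul hc hini hω (inv' hω g) g = one hω C e₀ := by
  obtain ⟨x, G, e, rfl⟩ := hc.exists_push' ω g
  have h₁ : inv' hω (Γ.p.map G ≫ e.hom) = Γ.p.map (hω.desc u' u ≫ G) ≫ e.hom := by
    rw [inv', Γ.p.map_comp, Category.assoc]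
  rw [h₁, mul_mk hc hini hω _ _ _ (by rw [IsCoprod.right_desc_assoc]),
    one_mk hini hω e₀ (u' ≫ G) e.hom]
  congr 2
  rw [IsCoprod.left_desc_assoc]

/-- The group of automorphisms. -/
@[reducible] noncomputable def grp (C : Alg κ) (e₀ : Γ.p.obj ξ ⟶ C) : Group (Γ.p.obj ω ⟶ C) where
  mul g g' := mul hc hini hω g g'
  mul_assoc := mul_assoc' hc hini hω
  one := one hω C e₀
  one_mul := one_mul' hc hini hω e₀
  mul_one g := by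
    change mul hc hini hω g (one hω C e₀) = g
    obtain ⟨x, G, e, rfl⟩ := hc.exists_push' ω g
    rw [one_mk hini hω e₀ (u' ≫ G) e.hom, mul_mk hc hini hω _ _ _ (by rw [hω.left_desc]),
      hω.right_desc]
    congr 2
    exact hω.hom_ext (hω.left_desc _ _) (hω.right_desc _ _)
  inv := inv' hω
  inv_mul_cancel := inv_mul' hc hini hω e₀

lemma act_one' {C : Alg κ} (e₀ : Γ.p.obj ξ ⟶ C) (b : Γ.p.obj z ⟶ C) :
    act hc hini (u := u) (u' := u') hz b (one hω C e₀) = b := by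
  obtain ⟨x, q, e, rfl⟩ := hc.exists_push' z b
  rw [one_mk hini hω e₀ (i ≫ q) e.hom, act_mk hc hini hz _ _ _ (by rw [hω.left_desc]),
    hω.right_desc]
  congr 2
  exact hz.hom_ext (hz.left_desc _ _) (hz.right_desc _ _)

lemma act_mul' {C : Alg κ} (b : Γ.p.obj z ⟶ C) (g g' : Γ.p.obj ω ⟶ C) :
    act hc hini (u := u) (u' := u') hz b (mul hc hini hω g g') =
      act hc hini (u := u) (u' := u') hz (act hc hini (u := u) (u' := u') hz b g) g' := by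
  obtain ⟨x, q, e, rfl⟩ := hc.exists_push' z b
  obtain ⟨G, rfl, hu⟩ := exists_arr hc hini (i ≫ q) e g u
  obtain ⟨G', rfl, hu'⟩ := exists_arr hc hini (u' ≫ G) e g' u
  rw [mul_mk hc hini hω _ _ _ hu', act_mk hc hini hz _ _ _ hu,
    act_mk hc hini hz _ _ _ (by rw [hω.left_desc, hu]),
    act_mk hc hini hz _ _ _ (by rw [hz.left_desc, hu']), hω.right_desc, hz.right_desc]

lemma right_act' {C : Alg κ} (b : Γ.p.obj z ⟶ C) (g : Γ.p.obj ω ⟶ C) :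
    Γ.p.map j ≫ act hc hini (u := u) (u' := u') hz b g = Γ.p.map j ≫ b := by
  obtain ⟨x, q, e, rfl⟩ := hc.exists_push' z b
  obtain ⟨G, rfl, hu⟩ := exists_arr hc hini (i ≫ q) e g u
  rw [act_mk hc hini hz _ _ _ hu, ← Category.assoc, ← Γ.p.map_comp, hz.right_desc, Γ.p.map_comp,
    Category.assoc]

lemma map_act' {y₁ z₁ : Γ.obj} {i₁ : ξ ⟶ z₁} {j₁ : y₁ ⟶ z₁} (hz₁ : IsCoprod i₁ j₁) (m : z ⟶ z₁)
    (f : y ⟶ y₁) (hi : i ≫ m = i₁) (hj : j ≫ m = f ≫ j₁) {C : Alg κ} (b : Γ.p.obj z₁ ⟶ C)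
    (g : Γ.p.obj ω ⟶ C) : Γ.p.map m ≫ act hc hini (u := u) (u' := u') hz₁ b g =
      act hc hini (u := u) (u' := u') hz (Γ.p.map m ≫ b) g := by
  obtain ⟨x, q, e, rfl⟩ := hc.exists_push' z₁ b
  obtain ⟨G, rfl, hu⟩ := exists_arr hc hini (i₁ ≫ q) e g u
  rw [act_mk hc hini hz₁ _ _ _ hu, ← Category.assoc, ← Γ.p.map_comp, ← Category.assoc,
    ← Γ.p.map_comp, act_mk hc hini hz _ _ _ (by rw [reassoc_of% hi, hu])]
  congr 2
  refine hz.hom_ext ?_ ?_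
  · rw [reassoc_of% hi, hz₁.left_desc, hz.left_desc]
  · rw [reassoc_of% hj, hz₁.right_desc, hz.right_desc, reassoc_of% hj]

include hω in
lemma existsUnique_act {C : Alg κ} (b b' : Γ.p.obj z ⟶ C) (h : Γ.p.map j ≫ b = Γ.p.map j ≫ b') :
    ∃! g : Γ.p.obj ω ⟶ C, act hc hini (u := u) (u' := u') hz b g = b' := by
  obtain ⟨x, q, e, rfl⟩ := hc.exists_push' z b
  have h₁ : Γ.p.map j ≫ b' ≫ e.inv = Γ.p.map (j ≫ q) := by
    rw [← Category.assoc, ← h, Γ.p.map_comp]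
    simp
  let q' : z ⟶ x := hc.desc j (j ≫ q) (b' ≫ e.inv) h₁
  have hq' : Γ.p.map q' ≫ e.hom = b' := by
    rw [hc.map_desc]
    simp
  have hjq' : j ≫ q' = j ≫ q := hc.fac_desc _ _ _ _
  refine ⟨Γ.p.map (hω.desc (i ≫ q) (i ≫ q')) ≫ e.hom, ?_, ?_⟩
  · change act hc hini (u := u) (u' := u') hz (Γ.p.map q ≫ e.hom)
      (Γ.p.map (hω.desc (i ≫ q) (i ≫ q')) ≫ e.hom) = b'
    rw [act_mk hc hini hz _ _ _ (hω.left_desc _ _), hω.right_desc, ← hq']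
    congr 2
    exact hz.hom_ext (hz.left_desc _ _) ((hz.right_desc _ _).trans hjq'.symm)
  · intro g hg
    change act hc hini (u := u) (u' := u') hz (Γ.p.map q ≫ e.hom) g = b' at hg
    obtain ⟨G, rfl, hu⟩ := exists_arr hc hini (i ≫ q) e g u
    rw [act_mk hc hini hz _ _ _ hu, ← hq', cancel_mono] at hg
    have h₂ : hz.desc (u' ≫ G) (j ≫ q) = q' := hc.hom_ext j hg (by rw [hz.right_desc, hjq'])
    congr 2
    refine hω.hom_ext ?_ ?_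
    · rw [hω.left_desc, hu]
    · rw [hω.right_desc, ← h₂, hz.left_desc]

end

section

variable {κ : Type} [Field κ] {𝒳 : BasedCategory.{0, 1} (Alg κ)} {T : Type} [Category.{0} T]
  {v : T ⥤ 𝒳.obj} {Γ : BasedCategory.{0, 1} (Alg κ)} (hc : IsCofiberedInGroupoids Γ)
  (φ : BasedFunctor 𝒳 Γ) {ξ : Γ.obj}
  (hini : ∀ {C : Alg κ} (f g : Γ.p.obj ξ ⟶ C), f = g) (e₀ : ∀ C : Alg κ, Γ.p.obj ξ ⟶ C)

/-- The comparison of the bases. -/
noncomputable def ee (a : 𝒳.obj) : 𝒳.p.obj a ≅ Γ.p.obj (φ.obj a) :=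
  (eqToIso φ.w.symm : 𝒳.p ≅ φ.toFunctor ⋙ Γ.p).app a

lemma ee_nat {a a' : 𝒳.obj} (ψ : a ⟶ a') :
    𝒳.p.map ψ ≫ (ee φ a').hom = (ee φ a).hom ≫ Γ.p.map (φ.map ψ) :=
  (eqToIso φ.w.symm : 𝒳.p ≅ φ.toFunctor ⋙ Γ.p).hom.naturality ψ

lemma ee_nat' {a a' : 𝒳.obj} (ψ : a ⟶ a') :
    Γ.p.map (φ.map ψ) ≫ (ee φ a').inv = (ee φ a).inv ≫ 𝒳.p.map ψ := by
  rw [← cancel_epi (ee φ a).hom, ← Category.assoc, ← ee_nat, Category.assoc, Iso.hom_inv_id,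
    Category.comp_id, Iso.hom_inv_id_assoc]

variable {ω : Γ.obj} {u u' : ξ ⟶ ω} (hω : IsCoprod u u') (hfω : Module.Finite κ (Γ.p.obj ω))
  (z : 𝒳.obj → Γ.obj) (i : ∀ a, ξ ⟶ z a) (j : ∀ a, φ.obj a ⟶ z a)
  (hz : ∀ a, IsCoprod (i a) (j a)) (hfin : ∀ a, (Γ.p.map (j a)).hom.toRingHom.Finite)

/-- The functoriality of the coproduct. -/
noncomputable def mm {a a' : 𝒳.obj} (ψ : a ⟶ a') : z a ⟶ z a' :=
  (hz a).desc (i a') (φ.map ψ ≫ j a')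

@[reassoc]
lemma left_mm {a a' : 𝒳.obj} (ψ : a ⟶ a') : i a ≫ mm φ z i j hz ψ = i a' :=
  (hz a).left_desc _ _

@[reassoc]
lemma right_mm {a a' : 𝒳.obj} (ψ : a ⟶ a') : j a ≫ mm φ z i j hz ψ = φ.map ψ ≫ j a' :=
  (hz a).right_desc _ _

lemma mm_id (a : 𝒳.obj) : mm φ z i j hz (𝟙 a) = 𝟙 (z a) := by
  refine (hz a).hom_ext ?_ ?_
  · rw [left_mm, Category.comp_id]
  · rw [right_mm, Category.comp_id]
    have : φ.map (𝟙 a) = 𝟙 (φ.obj a) := φ.toFunctor.map_id a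
    rw [this, Category.id_comp]

lemma mm_comp {a b c : 𝒳.obj} (ψ : a ⟶ b) (ψ' : b ⟶ c) :
    mm φ z i j hz (ψ ≫ ψ') = mm φ z i j hz ψ ≫ mm φ z i j hz ψ' := by
  refine (hz _).hom_ext ?_ ?_
  · rw [left_mm, left_mm_assoc, left_mm]
  · have : φ.map (ψ ≫ ψ') = φ.map ψ ≫ φ.map ψ' := φ.toFunctor.map_comp ψ ψ'
    rw [right_mm, right_mm_assoc, right_mm, this, Category.assoc]

/-- The underlying functor of the torsor. -/
noncomputable def BB : 𝒳.obj ⥤ Alg κ where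
  obj a := Γ.p.obj (z a)
  map ψ := Γ.p.map (mm φ z i j hz ψ)
  map_id a := by rw [mm_id, Γ.p.map_id]
  map_comp ψ ψ' := by rw [mm_comp, Γ.p.map_comp]

lemma ss_nat {a a' : 𝒳.obj} (ψ : a ⟶ a') : 𝒳.p.map ψ ≫ (ee φ a').hom ≫ Γ.p.map (j a') =
    ((ee φ a).hom ≫ Γ.p.map (j a)) ≫ Γ.p.map (mm φ z i j hz ψ) := by
  rw [← Category.assoc, ee_nat, Category.assoc, Category.assoc, ← Γ.p.map_comp, ← Γ.p.map_comp,
    right_mm]

/-- The structure map of the torsor. -/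
noncomputable def ss : 𝒳.p ⟶ BB φ z i j hz where
  app a := (ee φ a).hom ≫ Γ.p.map (j a)
  naturality _ _ ψ := ss_nat φ z i j hz ψ

include hz in
lemma mm_isPushout {a a' : 𝒳.obj} (ψ : a ⟶ a') :
    IsPushout (φ.map ψ) (j a) (j a') (mm φ z i j hz ψ) := by
  refine ⟨⟨(right_mm φ z i j hz ψ).symm⟩, ⟨PushoutCocone.IsColimit.mk _
    (fun s ↦ (hz a').desc (i a ≫ s.inr) s.inl) ?_ ?_ ?_⟩⟩
  · intro s
    exact (hz a').right_desc _ _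
  · intro s
    refine (hz a).hom_ext ?_ ?_
    · rw [left_mm_assoc, (hz a').left_desc]
    · rw [right_mm_assoc, (hz a').right_desc]
      exact s.condition
  · intro s m hm₁ hm₂
    refine (hz a').hom_ext ?_ ?_
    · rw [(hz a').left_desc, ← hm₂, left_mm_assoc]
    · rw [(hz a').right_desc, ← hm₁]

/-- The structure map is a base of the pushout. -/
lemma ss_isPushout (hc : IsCofiberedInGroupoids Γ) {a a' : 𝒳.obj} (ψ : a ⟶ a') :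
    IsPushout (𝒳.p.map ψ) ((ee φ a).hom ≫ Γ.p.map (j a)) ((ee φ a').hom ≫ Γ.p.map (j a'))
      (Γ.p.map (mm φ z i j hz ψ)) := by
  have h₂ := isPushout_map hc (mm_isPushout φ z i j hz ψ)
  refine h₂.of_iso (ee φ a).symm (ee φ a').symm (Iso.refl _) (Iso.refl _) ?_ ?_ ?_ ?_
  · exact ee_nat' φ ψ
  · simp
  · simp
  · simp

lemma finite_ss (hfin : ∀ a, (Γ.p.map (j a)).hom.toRingHom.Finite) (a : 𝒳.obj) :
    ((ee φ a).hom ≫ Γ.p.map (j a)).hom.toRingHom.Finite := by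
  have h₁ : (ee φ a).hom.hom.toRingHom.Finite :=
    RingHom.Finite.of_surjective _ (CommAlgCat.algEquivOfIso (ee φ a)).surjective
  exact (hfin a).comp h₁

variable (θ : ∀ t : T, ξ ⟶ φ.obj (v.obj t))
  (hθ : ∀ (t t' : T) (τ : t ⟶ t'), θ t ≫ φ.map (v.map τ) = θ t')

/-- The trivialization over the virtual point. -/
noncomputable def yy (t : T) : Γ.p.obj (z (v.obj t)) ⟶ 𝒳.p.obj (v.obj t) :=
  Γ.p.map ((hz (v.obj t)).desc (θ t) (𝟙 _)) ≫ (ee φ (v.obj t)).inv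

lemma ss_yy (t : T) : ((ee φ (v.obj t)).hom ≫ Γ.p.map (j (v.obj t))) ≫ yy φ z i j hz θ t =
    𝟙 _ := by
  rw [yy, Category.assoc, ← Category.assoc (Γ.p.map (j _)), ← Γ.p.map_comp,
    (hz (v.obj t)).right_desc, Γ.p.map_id, Category.id_comp, Iso.hom_inv_id]

include hθ in
lemma yy_map {t t' : T} (τ : t ⟶ t') : yy φ z i j hz θ t ≫ 𝒳.p.map (v.map τ) =
    Γ.p.map (mm φ z i j hz (v.map τ)) ≫ yy φ z i j hz θ t' := by
  rw [yy, yy, Category.assoc, ← ee_nat', ← Category.assoc, ← Category.assoc, ← Γ.p.map_comp,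
    ← Γ.p.map_comp]
  congr 2
  refine (hz _).hom_ext ?_ ?_
  · rw [IsCoprod.left_desc_assoc, hθ, left_mm_assoc, (hz _).left_desc]
  · rw [IsCoprod.right_desc_assoc, Category.id_comp, right_mm_assoc, (hz _).right_desc,
      Category.comp_id]

lemma right_act'' {a : 𝒳.obj} {C : Alg κ} (b : Γ.p.obj (z a) ⟶ C) (g : Γ.p.obj ω ⟶ C) :
    ((ee φ a).hom ≫ Γ.p.map (j a)) ≫ act hc hini (u := u) (u' := u') (hz a) b g =
      ((ee φ a).hom ≫ Γ.p.map (j a)) ≫ b := by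
  rw [Category.assoc, right_act' hc hini (hz a), Category.assoc]

include hω in
lemma existsUnique_act' {a : 𝒳.obj} {C : Alg κ} (b b' : Γ.p.obj (z a) ⟶ C)
    (h : ((ee φ a).hom ≫ Γ.p.map (j a)) ≫ b = ((ee φ a).hom ≫ Γ.p.map (j a)) ≫ b') :
    ∃! g : Γ.p.obj ω ⟶ C, act hc hini (u := u) (u' := u') (hz a) b g = b' := by
  refine existsUnique_act hc hini hω (hz a) b b' ?_
  rwa [Category.assoc, Category.assoc, cancel_epi] at h

/-- The pointed torsor of isomorphisms. -/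
noncomputable def tors : PTors v where
  G :=
    { H := Γ.p.obj ω
      grp := fun C ↦ grp hc hini hω C (e₀ C)
      mul_comp := fun a b f ↦ mul_comp hc hini hω a b f
      finite := hfω }
  B := BB φ z i j hz
  s := ss φ z i j hz
  isPushout ψ := ss_isPushout φ z i j hz hc ψ
  act {a _} b g := act hc hini (u := u) (u' := u') (hz a) b g
  act_one {a C} b := act_one' hc hini hω (hz a) (e₀ C) b
  act_mul {a _} b g g' := act_mul' hc hini hω (hz a) b g g'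
  act_comp {a _ _} b g f := act_comp hc hini (hz a) b g f
  map_act {a a'} ψ {_} b g := map_act' hc hini (hz a) (hz a') (mm φ z i j hz ψ) (φ.map ψ)
    (left_mm φ z i j hz ψ) (right_mm φ z i j hz ψ) b g
  s_act {_ _} b g := right_act'' hc φ hini z i j hz b g
  trans {_ _} b b' h := existsUnique_act' hc φ hini hω z i j hz b b' h
  finite a := finite_ss φ z j hfin a
  y t := yy φ z i j hz θ t
  s_y t := ss_yy φ z i j hz θ t
  y_map {_ _} τ := yy_map φ z i j hz θ hθ τ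

include hc in
/-- Sections of the torsor are isomorphisms. -/
lemma exists_sec (a : 𝒳.obj) (r : Γ.p.obj (z a) ⟶ 𝒳.p.obj a)
    (hr : ((ee φ a).hom ≫ Γ.p.map (j a)) ≫ r = 𝟙 _) :
    ∃ k : z a ⟶ φ.obj a, j a ≫ k = 𝟙 _ ∧ Γ.p.map k = r ≫ (ee φ a).hom := by
  have h₁ : Γ.p.map (j a) ≫ r ≫ (ee φ a).hom = Γ.p.map (𝟙 (φ.obj a)) := by
    rw [← cancel_epi (ee φ a).hom, Γ.p.map_id, Category.comp_id, ← Category.assoc,
      ← Category.assoc, hr, Category.id_comp]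
  exact ⟨hc.desc (j a) (𝟙 _) _ h₁, hc.fac_desc _ _ _ _, hc.map_desc _ _ _ _⟩

include hc in
lemma sec_compat {a a' : 𝒳.obj} (ψ : a ⟶ a') (r : Γ.p.obj (z a) ⟶ 𝒳.p.obj a)
    (r' : Γ.p.obj (z a') ⟶ 𝒳.p.obj a') (k : z a ⟶ φ.obj a) (k' : z a' ⟶ φ.obj a')
    (h₁ : j a ≫ k = 𝟙 _) (h₂ : Γ.p.map k = r ≫ (ee φ a).hom) (h₃ : j a' ≫ k' = 𝟙 _)
    (h₄ : Γ.p.map k' = r' ≫ (ee φ a').hom)
    (h₆ : Γ.p.map (mm φ z i j hz ψ) ≫ r' = r ≫ 𝒳.p.map ψ) :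
    (i a ≫ k) ≫ φ.map ψ = i a' ≫ k' := by
  have h₅ : k ≫ φ.map ψ = mm φ z i j hz ψ ≫ k' := by
    refine hc.hom_ext (j a) ?_ ?_
    · rw [Γ.p.map_comp, h₂, Γ.p.map_comp, h₄, ← Category.assoc (Γ.p.map _), h₆, Category.assoc,
        Category.assoc, ee_nat]
    · rw [← Category.assoc, h₁, Category.id_comp, right_mm_assoc, h₃, Category.comp_id]
  rw [Category.assoc, h₅, left_mm_assoc]

end

end Isom

variable {κ : Type} [Field κ] {𝒳 : BasedCategory.{0, 1} (Alg κ)} {T : Type} [Category.{0} T]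
  {v : T ⥤ 𝒳.obj}

lemma tinr_surjective {A : Alg κ} (hA : A = CommAlgCat.of κ κ) (B : Alg κ) :
    Function.Surjective (tinr A B).hom := by
  subst hA
  intro t
  induction t using TensorProduct.induction_on with
  | zero => exact ⟨0, map_zero _⟩
  | add x y hx hy =>
    obtain ⟨a, rfl⟩ := hx
    obtain ⟨b, rfl⟩ := hy
    exact ⟨a + b, map_add _ _ _⟩
  | tmul c b =>
    refine ⟨c • b, ?_⟩
    change (1 : κ) ⊗ₜ[κ] (c • b) = c ⊗ₜ[κ] b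
    rw [TensorProduct.tmul_smul, TensorProduct.smul_tmul', smul_eq_mul, mul_one]

lemma finite_of_tens {A D : Alg κ} (hA : A = CommAlgCat.of κ κ) (f : tens A A ⟶ D)
    (hf : f.hom.toRingHom.Finite) : Module.Finite κ D := by
  subst hA
  have h₁ : (tinr (CommAlgCat.of κ κ) (CommAlgCat.of κ κ)).hom.toRingHom.Finite :=
    RingHom.Finite.of_surjective _ (tinr_surjective rfl _)
  have h₂ := hf.comp h₁
  have h₃ : f.hom.toRingHom.comp (tinr (CommAlgCat.of κ κ) (CommAlgCat.of κ κ)).hom.toRingHom =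
      algebraMap κ D := by
    ext c
    exact congr(($(structMap_unique (tinr _ _ ≫ f) (structMap D))).hom c)
  rw [h₃, RingHom.finite_algebraMap] at h₂
  exact h₂

theorem exists_isomTorsor {Γ : BasedCategory.{0, 1} (Alg κ)} (_hX : IsCofiberedInGroupoids 𝒳)
    (hΓ : IsStack Γ) (hΓc : HasFiniteCoprods Γ) (φ : BasedFunctor 𝒳 Γ) (ξ : Γ.obj)
    (hξ : Γ.p.obj ξ = CommAlgCat.of κ κ) (θ : ∀ t : T, ξ ⟶ φ.obj (v.obj t))
    (hθ : ∀ (t t' : T) (τ : t ⟶ t'), θ t ≫ φ.map (v.map τ) = θ t') :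
    ∃ (P : PTors v) (c : ∀ (a : 𝒳.obj) (r : P.B.obj a ⟶ 𝒳.p.obj a) (_ : P.s.app a ≫ r = 𝟙 _),
        ξ ⟶ φ.obj a),
      ∀ (a a' : 𝒳.obj) (ψ : a ⟶ a') (r : P.B.obj a ⟶ 𝒳.p.obj a) (r' : P.B.obj a' ⟶ 𝒳.p.obj a')
        (hr : P.s.app a ≫ r = 𝟙 _) (hr' : P.s.app a' ≫ r' = 𝟙 _),
        P.B.map ψ ≫ r' = r ≫ 𝒳.p.map ψ → c a r hr ≫ φ.map ψ = c a' r' hr' := by
  have hc := hΓ.toIsCofiberedInGroupoids
  have hini : ∀ {C : Alg κ} (f g : Γ.p.obj ξ ⟶ C), f = g := by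
    rw [hξ]
    intro C f g
    exact structMap_unique f g
  have e₀ : ∀ C : Alg κ, Γ.p.obj ξ ⟶ C := by
    rw [hξ]
    exact structMap
  obtain ⟨ω, u, u', hω, hfω⟩ := hΓc ξ ξ
  choose z i j hz hf using fun a ↦ hΓc ξ (φ.obj a)
  have hfin : ∀ (y w : Γ.obj) (i : ξ ⟶ w) (j : y ⟶ w),
      ((isCoprod_tens _ _).desc (Γ.p.map i) (Γ.p.map j)).hom.toRingHom.Finite →
      (Γ.p.map j).hom.toRingHom.Finite := by
    intro y w i j h
    have h₁ : Γ.p.map j = tinr _ _ ≫ (isCoprod_tens _ _).desc (Γ.p.map i) (Γ.p.map j) :=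
      ((isCoprod_tens _ _).right_desc _ _).symm
    have h₂ : (tinr (Γ.p.obj ξ) (Γ.p.obj y)).hom.toRingHom.Finite :=
      RingHom.Finite.of_surjective _ (tinr_surjective hξ _)
    rw [h₁]
    exact h.comp h₂
  have hfω' : Module.Finite κ (Γ.p.obj ω) := finite_of_tens hξ _ hfω
  let P : PTors v := Isom.tors hc φ hini e₀ hω hfω' z i j hz (fun a ↦ hfin _ _ _ _ (hf a)) θ hθ
  have hsec : ∀ (a : 𝒳.obj) (r : P.B.obj a ⟶ 𝒳.p.obj a) (_ : P.s.app a ≫ r = 𝟙 _),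
      ∃ k : z a ⟶ φ.obj a, j a ≫ k = 𝟙 _ ∧ Γ.p.map k = r ≫ (Isom.ee φ a).hom :=
    fun a r hr ↦ Isom.exists_sec hc φ z j a r hr
  refine ⟨P, fun a r hr ↦ i a ≫ (hsec a r hr).choose, ?_⟩
  intro a a' ψ r r' hr hr' hrr'
  obtain ⟨h₁, h₂⟩ := (hsec a r hr).choose_spec
  obtain ⟨h₃, h₄⟩ := (hsec a' r' hr').choose_spec
  exact Isom.sec_compat hc φ z i j hz ψ r r' _ _ h₁ h₂ h₃ h₄ hrr'

end Pool.Agent.H27
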