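import Pool.Agent.H27.Basic

/-!
# General lemmas on categories cofibered in groupoids over `Alg κ`
-/

open CategoryTheory Limits

namespace Pool.Agent.H27

/-- `f : A ⟶ C` and `g : B ⟶ C` exhibit `C` as a coproduct of `A` and `B`. -/
def IsCoprod {𝒞 : Type*} [Category 𝒞] {A B C : 𝒞} (f : A ⟶ C) (g : B ⟶ C) : Prop :=
  ∀ (D : 𝒞) (a : A ⟶ D) (b : B ⟶ D), ∃! c : C ⟶ D, f ≫ c = a ∧ g ≫ c = b

namespace IsCoprod

variable {𝒞 : Type*} [Category 𝒞] {A B C : 𝒞} {f : A ⟶ C} {g : B ⟶ C}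

lemma of_nonempty (h : Nonempty (IsColimit (BinaryCofan.mk f g))) : IsCoprod f g := by
  obtain ⟨h⟩ := h
  intro D a b
  refine ⟨h.desc (BinaryCofan.mk a b), ⟨h.fac (BinaryCofan.mk a b) ⟨.left⟩,
    h.fac (BinaryCofan.mk a b) ⟨.right⟩⟩, ?_⟩
  rintro c ⟨h₁, h₂⟩
  apply h.uniq (BinaryCofan.mk a b)
  rintro ⟨_ | _⟩
  · exact h₁
  · exact h₂

/-- The induced map. -/
noncomputable def desc (h : IsCoprod f g) {D : 𝒞} (a : A ⟶ D) (b : B ⟶ D) : C ⟶ D :=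
  (h D a b).choose

@[reassoc (attr := simp)]
lemma left_desc (h : IsCoprod f g) {D : 𝒞} (a : A ⟶ D) (b : B ⟶ D) : f ≫ h.desc a b = a :=
  (h D a b).choose_spec.1.1

@[reassoc (attr := simp)]
lemma right_desc (h : IsCoprod f g) {D : 𝒞} (a : A ⟶ D) (b : B ⟶ D) : g ≫ h.desc a b = b :=
  (h D a b).choose_spec.1.2

lemma hom_ext (h : IsCoprod f g) {D : 𝒞} {c c' : C ⟶ D} (h₁ : f ≫ c = f ≫ c')
    (h₂ : g ≫ c = g ≫ c') : c = c' :=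
  (h D (f ≫ c') (g ≫ c')).unique ⟨h₁, h₂⟩ ⟨rfl, rfl⟩

lemma nonempty (h : IsCoprod f g) : Nonempty (IsColimit (BinaryCofan.mk f g)) :=
  ⟨BinaryCofan.IsColimit.mk _ (fun a b ↦ h.desc a b) (fun a b ↦ h.left_desc a b)
    (fun a b ↦ h.right_desc a b) (fun a b _ h₁ h₂ ↦ h.hom_ext (h₁.trans (h.left_desc a b).symm)
      (h₂.trans (h.right_desc a b).symm))⟩

lemma comp_iso (h : IsCoprod f g) {C' : 𝒞} (e : C ≅ C') : IsCoprod (f ≫ e.hom) (g ≫ e.hom) := by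
  intro D a b
  refine ⟨e.inv ≫ h.desc a b, by simp, ?_⟩
  rintro c ⟨h₁, h₂⟩
  rw [Iso.eq_inv_comp]
  exact h.hom_ext (by simpa using h₁) (by simpa using h₂)

/-- Uniqueness of coproducts. -/
noncomputable def uniq (h : IsCoprod f g) {C' : 𝒞} {f' : A ⟶ C'} {g' : B ⟶ C'}
    (h' : IsCoprod f' g') : C ≅ C' where
  hom := h.desc f' g'
  inv := h'.desc f g
  hom_inv_id := h.hom_ext (by simp) (by simp)
  inv_hom_id := h'.hom_ext (by simp) (by simp)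

end IsCoprod

variable {κ : Type} [Field κ] {𝒳 : BasedCategory.{0, 1} (Alg κ)}

/-- The tensor product of two `κ`-algebras. -/
def tens (A B : Alg κ) : Alg κ := CommAlgCat.of κ (TensorProduct κ A B)

/-- The left inclusion. -/
def tinl (A B : Alg κ) : A ⟶ tens A B := CommAlgCat.ofHom Algebra.TensorProduct.includeLeft

/-- The right inclusion. -/
def tinr (A B : Alg κ) : B ⟶ tens A B := CommAlgCat.ofHom Algebra.TensorProduct.includeRight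

lemma isCoprod_tens (A B : Alg κ) : IsCoprod (tinl A B) (tinr A B) :=
  IsCoprod.of_nonempty ⟨CommAlgCat.binaryCofanIsColimit A B⟩

/-- The structure map of a `κ`-algebra. -/
def structMap (C : Alg κ) : CommAlgCat.of κ κ ⟶ C := CommAlgCat.ofHom (Algebra.ofId κ C)

lemma structMap_unique {C : Alg κ} (f g : CommAlgCat.of κ κ ⟶ C) : f = g :=
  CommAlgCat.isInitialSelf.hom_ext f g

lemma map_unique_of_eq {A C : Alg κ} (h : A = CommAlgCat.of κ κ) (f g : A ⟶ C) : f = g := by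
  subst h
  exact structMap_unique f g

namespace IsCofiberedInGroupoids

variable (h : IsCofiberedInGroupoids 𝒳)
include h

/-- The arrow `y ⟶ z` over `g` induced by `ψ : x ⟶ z`. -/
noncomputable def desc {x y z : 𝒳.obj} (φ : x ⟶ y) (ψ : x ⟶ z) (g : 𝒳.p.obj y ⟶ 𝒳.p.obj z)
    (hg : 𝒳.p.map φ ≫ g = 𝒳.p.map ψ) : y ⟶ z :=
  (h.exists_desc φ ψ g hg).choose

lemma map_desc {x y z : 𝒳.obj} (φ : x ⟶ y) (ψ : x ⟶ z) (g : 𝒳.p.obj y ⟶ 𝒳.p.obj z)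
    (hg : 𝒳.p.map φ ≫ g = 𝒳.p.map ψ) : 𝒳.p.map (h.desc φ ψ g hg) = g :=
  (h.exists_desc φ ψ g hg).choose_spec.1.1

@[reassoc (attr := simp)]
lemma fac_desc {x y z : 𝒳.obj} (φ : x ⟶ y) (ψ : x ⟶ z) (g : 𝒳.p.obj y ⟶ 𝒳.p.obj z)
    (hg : 𝒳.p.map φ ≫ g = 𝒳.p.map ψ) : φ ≫ h.desc φ ψ g hg = ψ :=
  (h.exists_desc φ ψ g hg).choose_spec.1.2

lemma hom_ext {x y z : 𝒳.obj} (φ : x ⟶ y) {a b : y ⟶ z} (h₁ : 𝒳.p.map a = 𝒳.p.map b)
    (h₂ : φ ≫ a = φ ≫ b) : a = b :=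
  (h.exists_desc φ (φ ≫ b) (𝒳.p.map b) (by simp)).unique ⟨h₁, h₂⟩ ⟨rfl, rfl⟩

/-- Pushforward along a map. -/
lemma exists_push' (x : 𝒳.obj) {B : Alg κ} (f : 𝒳.p.obj x ⟶ B) : ∃ (y : 𝒳.obj) (φ : x ⟶ y)
    (e : 𝒳.p.obj y ≅ B), 𝒳.p.map φ ≫ e.hom = f := by
  obtain ⟨y, φ, hφ⟩ := h.exists_push x f
  refine ⟨y, φ, eqToIso (IsHomLift.codomain_eq 𝒳.p f φ), ?_⟩
  rw [IsHomLift.fac' 𝒳.p f φ]
  simp

/-- Pushforward of `x` to the coproduct `p x ⊗ C`. -/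
lemma exists_baseChange (x : 𝒳.obj) (C : Alg κ) : ∃ (x' : 𝒳.obj) (a : x ⟶ x')
    (c : C ⟶ 𝒳.p.obj x'), IsCoprod (𝒳.p.map a) c := by
  obtain ⟨y, φ, e, he⟩ := h.exists_push' x (tinl (𝒳.p.obj x) C)
  refine ⟨y, φ, tinr (𝒳.p.obj x) C ≫ e.inv, ?_⟩
  have he' : 𝒳.p.map φ = tinl (𝒳.p.obj x) C ≫ e.inv := by
    rw [← he]
    simp
  rw [he']
  exact (isCoprod_tens (𝒳.p.obj x) C).comp_iso e.symm

/-- An arrow over an isomorphism is an isomorphism. -/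
lemma isIso_of_isIso {x y : 𝒳.obj} (φ : x ⟶ y) [IsIso (𝒳.p.map φ)] : IsIso φ := by
  let ψ : y ⟶ x := h.desc φ (𝟙 x) (inv (𝒳.p.map φ)) (by simp)
  have h₁ : φ ≫ ψ = 𝟙 x := h.fac_desc _ _ _ _
  have h₂ : 𝒳.p.map ψ = inv (𝒳.p.map φ) := h.map_desc _ _ _ _
  refine ⟨ψ, h₁, h.hom_ext φ (by simp [h₂]) (by rw [← Category.assoc, h₁]; simp)⟩

/-- Base change of a functor. -/
lemma exists_baseChange_functor {T : Type} [Category.{0} T] (y : T ⥤ 𝒳.obj) (C : Alg κ) :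
    ∃ (y' : T ⥤ 𝒳.obj) (n : y ⟶ y') (c : ∀ t, C ⟶ 𝒳.p.obj (y'.obj t)),
      (∀ (t t' : T) (τ : t ⟶ t'), c t ≫ 𝒳.p.map (y'.map τ) = c t') ∧
      ∀ t, IsCoprod (𝒳.p.map (n.app t)) (c t) := by
  choose x' a c hc using fun t ↦ h.exists_baseChange (y.obj t) C
  let g : ∀ {t t' : T} (τ : t ⟶ t'), 𝒳.p.obj (x' t) ⟶ 𝒳.p.obj (x' t') := fun {t t'} τ ↦
    (hc t).desc (𝒳.p.map (y.map τ) ≫ 𝒳.p.map (a t')) (c t')
  have hg : ∀ {t t' : T} (τ : t ⟶ t'), 𝒳.p.map (a t) ≫ g τ = 𝒳.p.map (y.map τ ≫ a t') := by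
    intro t t' τ
    simp [g]
  have hgc : ∀ {t t' : T} (τ : t ⟶ t'), c t ≫ g τ = c t' := by
    intro t t' τ
    simp [g]
  let F : ∀ {t t' : T} (τ : t ⟶ t'), x' t ⟶ x' t' := fun {t t'} τ ↦
    h.desc (a t) (y.map τ ≫ a t') (g τ) (hg τ)
  have hF : ∀ {t t' : T} (τ : t ⟶ t'), 𝒳.p.map (F τ) = g τ := fun τ ↦ h.map_desc _ _ _ _
  have haF : ∀ {t t' : T} (τ : t ⟶ t'), a t ≫ F τ = y.map τ ≫ a t' := fun τ ↦ h.fac_desc _ _ _ _
  refine ⟨{ obj := x', map := F, map_id := ?_, map_comp := ?_ }, { app := a, naturality := ?_ },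
    c, ?_, hc⟩
  · intro t
    refine h.hom_ext (a t) ?_ (by rw [haF]; simp)
    rw [hF]
    exact (hc t).hom_ext (by rw [hg]; simp) (by rw [hgc]; simp)
  · intro t t' t'' τ τ'
    refine h.hom_ext (a t) ?_ (by rw [haF, ← Category.assoc, haF, Category.assoc, haF]; simp)
    rw [hF, 𝒳.p.map_comp, hF, hF]
    refine (hc t).hom_ext ?_ (by rw [hgc, ← Category.assoc, hgc, hgc])
    rw [hg, ← Category.assoc, hg, 𝒳.p.map_comp, 𝒳.p.map_comp, Category.assoc, hg]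
    simp
  · intro t t' τ
    exact (haF τ).symm
  · intro t t' τ
    simp only [hF]
    exact hgc τ

end IsCofiberedInGroupoids

end Pool.Agent.H27
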