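import Pool.Agent.H27.Cof

/-!
# Descent of constant families
-/

open CategoryTheory Limits
open scoped TensorProduct

namespace Pool.Agent.H27

variable {κ : Type} [Field κ]

lemma ff_comp_iso {A B C : Alg κ} {f : A ⟶ B} (hf : f.hom.toRingHom.FaithfullyFlat) (e : B ≅ C) :
    (f ≫ e.hom).hom.toRingHom.FaithfullyFlat := by
  have h := RingHom.FaithfullyFlat.respectsIso.1 f.hom.toRingHom
    (CommAlgCat.algEquivOfIso e).toRingEquiv hf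
  exact h

lemma ff_tinl (A B : Alg κ) [Nontrivial B] : (tinl A B).hom.toRingHom.FaithfullyFlat := by
  have : Module.FaithfullyFlat A (A ⊗[κ] B) := inferInstance
  exact (RingHom.faithfullyFlat_algebraMap_iff (R := A) (S := A ⊗[κ] B)).2 this

lemma IsCoprod.ff_left {A B C : Alg κ} {f : A ⟶ C} {g : B ⟶ C} (h : IsCoprod f g)
    (hB : Nontrivial B) : f.hom.toRingHom.FaithfullyFlat := by
  have := ff_comp_iso (ff_tinl A B) ((isCoprod_tens A B).uniq h)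
  have h' : tinl A B ≫ ((isCoprod_tens A B).uniq h).hom = f := by
    simp [IsCoprod.uniq]
  rwa [h'] at this

lemma IsCoprod.symm {𝒞 : Type*} [Category 𝒞] {A B C : 𝒞} {f : A ⟶ C} {g : B ⟶ C}
    (h : IsCoprod f g) : IsCoprod g f := by
  intro D a b
  refine ⟨h.desc b a, by simp, ?_⟩
  rintro c ⟨h₁, h₂⟩
  exact h.hom_ext (by simpa using h₂) (by simpa using h₁)

lemma IsCoprod.ff_right {A B C : Alg κ} {f : A ⟶ C} {g : B ⟶ C} (h : IsCoprod f g)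
    (hA : Nontrivial A) : g.hom.toRingHom.FaithfullyFlat :=
  h.symm.ff_left hA

lemma fpqc_of_ff {A B : Alg κ} {f : A ⟶ B} (hf : f.hom.toRingHom.FaithfullyFlat) :
    IsFpqcCover (fun _ : Unit ↦ B) (fun _ ↦ f) where
  finite := inferInstance
  flat _ := hf.flat
  surj P := by
    have := (RingHom.FaithfullyFlat.iff_flat_and_comap_surjective.1 hf).2 P
    obtain ⟨Q, hQ⟩ := this
    exact ⟨(), Q, hQ⟩

lemma mono_of_ff' {A B C : Alg κ} {f : A ⟶ B} (hf : f.hom.toRingHom.FaithfullyFlat)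
    {a b : C ⟶ A} (h : a ≫ f = b ≫ f) : a = b := by
  ext x
  apply hf.injective
  exact congr(($h).hom x)

variable {Γ : BasedCategory.{0, 1} (Alg κ)}

lemma IsStack.mono_of_ff (hΓ : IsStack Γ) {w z z' : Γ.obj} (h : z ⟶ z')
    (hh : (Γ.p.map h).hom.toRingHom.FaithfullyFlat) {a b : w ⟶ z} (hab : a ≫ h = b ≫ h) :
    a = b := by
  have h₀ : Γ.p.map a = Γ.p.map b := mono_of_ff' hh (by rw [← Γ.p.map_comp, hab, Γ.p.map_comp])
  have := hΓ.hom_descent (w := w) (z := z) (ι := Unit) (fun _ ↦ z') (fun _ ↦ h) (fpqc_of_ff hh)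
    (fun _ ↦ b ≫ h) (Γ.p.map b) (by simp) (by
      intro _ _ y φ ψ hφψ
      rw [Category.assoc, Category.assoc, hφψ])
  exact this.unique ⟨h₀, fun _ ↦ hab⟩ ⟨rfl, fun _ ↦ rfl⟩

section

variable {T : Type} [Category.{0} T]

/-- **Descent of constant families.**  Let `y : T ⥤ Γ` be a family of objects of a stack `Γ`, let
`y'` be its base change to a nonzero `κ`-algebra `p ξ` and assume that `y'` is constant, with value
`ξ`.  If every point of the scheme of automorphisms of `ξ` over the family of the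
`p (y t) ⊗ p ξ ⊗ p ξ` is constant, then `y` is constant. -/
theorem descend_const (hΓ : IsStack Γ) (t₀ : T) (y y' : T ⥤ Γ.obj) (n : y ⟶ y') {ξ : Γ.obj}
    (m : ∀ t, ξ ⟶ y'.obj t) (hm : ∀ (t t' : T) (τ : t ⟶ t'), m t ≫ y'.map τ = m t')
    (hcop : ∀ t, IsCoprod (Γ.p.map (n.app t)) (Γ.p.map (m t)))
    (hy : ∀ t, Nontrivial (Γ.p.obj (y.obj t))) (hξ : Nontrivial (Γ.p.obj ξ))
    {z : Γ.obj} (i₁ i₂ : ξ ⟶ z) (hz : IsCoprod i₁ i₂)
    (hconst : ∀ (C : Alg κ) (c₁ c₂ : Γ.p.obj ξ ⟶ C), IsCoprod c₁ c₂ →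
      ∀ (Y : T ⥤ Alg κ) (k : y ⋙ Γ.p ⟶ Y) (e : ∀ t, C ⟶ Y.obj t),
      (∀ (t t' : T) (τ : t ⟶ t'), e t ≫ Y.map τ = e t') → (∀ t, IsCoprod (k.app t) (e t)) →
      ∀ d : ∀ t, Γ.p.obj z ⟶ Y.obj t, (∀ (t t' : T) (τ : t ⟶ t'), d t ≫ Y.map τ = d t') →
      ∃ d₀ : Γ.p.obj z ⟶ C, ∀ t, d₀ ≫ e t = d t) :
    ∃ (z₀ : Γ.obj) (_ : Γ.p.obj z₀ = CommAlgCat.of κ κ) (ζ : z₀ ⟶ ξ) (θ : ∀ t, z₀ ⟶ y.obj t),
      (∀ (t t' : T) (τ : t ⟶ t'), θ t ≫ y.map τ = θ t') ∧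
      ∀ t, θ t ≫ n.app t = ζ ≫ m t := by
  have hc := hΓ.toIsCofiberedInGroupoids
  let C := tens (Γ.p.obj ξ) (Γ.p.obj ξ)
  let c₁ : Γ.p.obj ξ ⟶ C := tinl _ _
  let c₂ : Γ.p.obj ξ ⟶ C := tinr _ _
  have hC : IsCoprod c₁ c₂ := isCoprod_tens _ _
  -- the base change of the family to `C`
  obtain ⟨y₂, a, c, hca, hac⟩ := hc.exists_baseChange_functor y C
  -- the two arrows from `y'` to `y₂`
  have hk : ∀ (c' : Γ.p.obj ξ ⟶ C) (t : T), ∃ k : y'.obj t ⟶ y₂.obj t,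
      n.app t ≫ k = a.app t ∧ Γ.p.map (m t) ≫ Γ.p.map k = c' ≫ c t := by
    intro c' t
    refine ⟨hc.desc (n.app t) (a.app t) ((hcop t).desc (Γ.p.map (a.app t)) (c' ≫ c t)) (by simp),
      by simp, ?_⟩
    rw [hc.map_desc]
    simp
  choose k hnk hmk using hk
  have hkn : ∀ (c' : Γ.p.obj ξ ⟶ C) (t t' : T) (τ : t ⟶ t'),
      y'.map τ ≫ k c' t' = k c' t ≫ y₂.map τ := by
    intro c' t t' τ
    refine hc.hom_ext (n.app t) ?_ ?_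
    · refine (hcop t).hom_ext ?_ ?_
      · rw [← Γ.p.map_comp, ← Γ.p.map_comp, ← Category.assoc, ← n.naturality, Category.assoc, hnk,
          ← Category.assoc, hnk, a.naturality]
      · rw [← Γ.p.map_comp, ← Category.assoc, hm, Γ.p.map_comp, hmk, ← Γ.p.map_comp,
          ← Category.assoc, Γ.p.map_comp, Γ.p.map_comp, hmk, Category.assoc, hca]
    · rw [← Category.assoc, ← n.naturality, Category.assoc, hnk, ← Category.assoc, hnk,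
        a.naturality]
  -- the induced arrow from `z`
  let r : ∀ t, z ⟶ y₂.obj t := fun t ↦ hz.desc (m t ≫ k c₁ t) (m t ≫ k c₂ t)
  have hr : ∀ (t t' : T) (τ : t ⟶ t'), r t ≫ y₂.map τ = r t' := by
    intro t t' τ
    refine hz.hom_ext ?_ ?_
    · rw [← Category.assoc, hz.left_desc, hz.left_desc, Category.assoc, ← hkn, ← Category.assoc, hm]
    · rw [← Category.assoc, hz.right_desc, hz.right_desc, Category.assoc, ← hkn, ← Category.assoc,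
        hm]
  obtain ⟨d₀, hd₀⟩ := hconst C c₁ c₂ hC (y₂ ⋙ Γ.p) (Functor.whiskerRight a Γ.p) c hca hac
    (fun t ↦ Γ.p.map (r t)) (fun t t' τ ↦ by
      dsimp
      rw [← Γ.p.map_comp, hr])
  -- the universal object `ρ` with two arrows from `ξ`
  obtain ⟨ρ, q, e, hqe⟩ := hc.exists_push' z d₀
  let r' : ∀ t, ρ ⟶ y₂.obj t := fun t ↦ hc.desc q (r t) (e.hom ≫ c t) (by
    rw [← Category.assoc, hqe, hd₀])
  have hqr' : ∀ t, q ≫ r' t = r t := fun t ↦ hc.fac_desc _ _ _ _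
  have hpr' : ∀ t, Γ.p.map (r' t) = e.hom ≫ c t := fun t ↦ hc.map_desc _ _ _ _
  have hcff : ∀ t, (c t).hom.toRingHom.FaithfullyFlat := fun t ↦ (hac t).ff_right (hy t)
  let j₁ : ξ ⟶ ρ := i₁ ≫ q
  let j₂ : ξ ⟶ ρ := i₂ ≫ q
  have hj₁r : ∀ t, j₁ ≫ r' t = m t ≫ k c₁ t := by
    intro t
    simp only [j₁, Category.assoc, hqr', r, hz.left_desc]
  have hj₂r : ∀ t, j₂ ≫ r' t = m t ≫ k c₂ t := by
    intro t
    simp only [j₂, Category.assoc, hqr', r, hz.right_desc]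
  have hj₁ : Γ.p.map j₁ = c₁ ≫ e.inv := by
    rw [Iso.eq_comp_inv]
    apply mono_of_ff' (hcff t₀)
    rw [Category.assoc, ← hpr', ← Γ.p.map_comp, hj₁r, Γ.p.map_comp, hmk]
  have hj₂ : Γ.p.map j₂ = c₂ ≫ e.inv := by
    rw [Iso.eq_comp_inv]
    apply mono_of_ff' (hcff t₀)
    rw [Category.assoc, ← hpr', ← Γ.p.map_comp, hj₂r, Γ.p.map_comp, hmk]
  have hJ : IsCoprod (Γ.p.map j₁) (Γ.p.map j₂) := by
    rw [hj₁, hj₂]
    exact hC.comp_iso e.symm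
  -- the transport rule
  let χ : ∀ {w : Γ.obj} (_ : ξ ⟶ w) (_ : Γ.p.obj ξ ⟶ Γ.p.obj w), ρ ⟶ w := fun φ b ↦
    hc.desc j₁ φ (hJ.desc (Γ.p.map φ) b) (by simp)
  have hχ : ∀ {w : Γ.obj} (φ : ξ ⟶ w) (b : Γ.p.obj ξ ⟶ Γ.p.obj w), j₁ ≫ χ φ b = φ :=
    fun φ b ↦ hc.fac_desc _ _ _ _
  have hχp : ∀ {w : Γ.obj} (φ : ξ ⟶ w) (b : Γ.p.obj ξ ⟶ Γ.p.obj w),
      Γ.p.map (χ φ b) = hJ.desc (Γ.p.map φ) b :=
    fun φ b ↦ hc.map_desc _ _ _ _
  have hχ_unique : ∀ {w : Γ.obj} (φ : ξ ⟶ w) (b : Γ.p.obj ξ ⟶ Γ.p.obj w) (s : ρ ⟶ w),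
      j₁ ≫ s = φ → Γ.p.map (j₂ ≫ s) = b → χ φ b = s := by
    intro w φ b s h₁ h₂
    refine hc.hom_ext j₁ ?_ (by rw [hχ, h₁])
    rw [hχp]
    refine hJ.hom_ext ?_ ?_
    · rw [hJ.left_desc, ← Γ.p.map_comp, h₁]
    · rw [hJ.right_desc, ← Γ.p.map_comp, h₂]
  let tr : ∀ {w : Γ.obj} (_ : ξ ⟶ w) (_ : Γ.p.obj ξ ⟶ Γ.p.obj w), ξ ⟶ w := fun φ b ↦ j₂ ≫ χ φ b
  have htrp : ∀ {w : Γ.obj} (φ : ξ ⟶ w) (b : Γ.p.obj ξ ⟶ Γ.p.obj w), Γ.p.map (tr φ b) = b := by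
    intro w φ b
    simp only [tr, Γ.p.map_comp, hχp, hJ.right_desc]
  have htr_comp : ∀ {w v : Γ.obj} (φ : ξ ⟶ w) (ψ : w ⟶ v) (b : Γ.p.obj ξ ⟶ Γ.p.obj w),
      tr (φ ≫ ψ) (b ≫ Γ.p.map ψ) = tr φ b ≫ ψ := by
    intro w v φ ψ b
    have : χ (φ ≫ ψ) (b ≫ Γ.p.map ψ) = χ φ b ≫ ψ := by
      apply hχ_unique
      · rw [← Category.assoc, hχ]
      · rw [← Category.assoc, Γ.p.map_comp]
        congr 1
        exact htrp φ b
    simp only [tr, this, Category.assoc]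
  -- the key property
  have hP : ∀ (t : T) {v : Γ.obj} (φ ψ : y'.obj t ⟶ v), n.app t ≫ φ = n.app t ≫ ψ →
      tr (m t ≫ φ) (Γ.p.map (m t ≫ ψ)) = m t ≫ ψ := by
    intro t v φ ψ hφψ
    let ω : y₂.obj t ⟶ v := hc.desc (a.app t) (n.app t ≫ φ)
      ((hac t).desc (Γ.p.map (n.app t ≫ φ)) (hC.desc (Γ.p.map (m t ≫ φ)) (Γ.p.map (m t ≫ ψ))))
      (by simp)
    have haω : a.app t ≫ ω = n.app t ≫ φ := hc.fac_desc _ _ _ _
    have hpω : c t ≫ Γ.p.map ω = hC.desc (Γ.p.map (m t ≫ φ)) (Γ.p.map (m t ≫ ψ)) := by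
      simp only [ω, hc.map_desc, IsCoprod.right_desc]
    have hk₁ : k c₁ t ≫ ω = φ := by
      refine hc.hom_ext (n.app t) ((hcop t).hom_ext ?_ ?_) ?_
      · rw [← Γ.p.map_comp, ← Category.assoc, hnk, haω, Γ.p.map_comp]
      · rw [Γ.p.map_comp, ← Category.assoc, hmk, Category.assoc, hpω, hC.left_desc, Γ.p.map_comp]
      · rw [← Category.assoc, hnk, haω]
    have hk₂ : k c₂ t ≫ ω = ψ := by
      refine hc.hom_ext (n.app t) ((hcop t).hom_ext ?_ ?_) ?_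
      · rw [← Γ.p.map_comp, ← Category.assoc, hnk, haω, hφψ, Γ.p.map_comp]
      · rw [Γ.p.map_comp, ← Category.assoc, hmk, Category.assoc, hpω, hC.right_desc, Γ.p.map_comp]
      · rw [← Category.assoc, hnk, haω, hφψ]
    have : χ (m t ≫ φ) (Γ.p.map (m t ≫ ψ)) = r' t ≫ ω := by
      apply hχ_unique
      · rw [← Category.assoc, hj₁r, Category.assoc, hk₁]
      · rw [← Category.assoc, hj₂r, Category.assoc, hk₂]
    simp only [tr, this]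
    rw [← Category.assoc, hj₂r, Category.assoc, hk₂]
  -- trivialising covers of `w`
  have hE : ∀ w : Γ.obj, ∃ (w' : Γ.obj) (h : w ⟶ w') (cL : Γ.p.obj (y.obj t₀) ⟶ Γ.p.obj w'),
      (Γ.p.map h).hom.toRingHom.FaithfullyFlat ∧ ∀ φ : ξ ⟶ w, ∃ g : y'.obj t₀ ⟶ w',
        m t₀ ≫ g = φ ≫ h ∧ Γ.p.map (n.app t₀ ≫ g) = cL := by
    intro w
    obtain ⟨w', h, cL, hw⟩ := hc.exists_baseChange w (Γ.p.obj (y.obj t₀))
    refine ⟨w', h, cL, hw.ff_left (hy t₀), fun φ ↦ ?_⟩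
    refine ⟨hc.desc (m t₀) (φ ≫ h) ((hcop t₀).desc cL (Γ.p.map (φ ≫ h))) (by simp), by simp, ?_⟩
    rw [Γ.p.map_comp, hc.map_desc]
    simp
  have hE₂ : ∀ {w w' : Γ.obj} (h : w ⟶ w') (g : y'.obj t₀ ⟶ w') (b : Γ.p.obj ξ ⟶ Γ.p.obj w),
      ∃ g' : y'.obj t₀ ⟶ w', n.app t₀ ≫ g = n.app t₀ ≫ g' ∧
        Γ.p.map (m t₀ ≫ g') = b ≫ Γ.p.map h := by
    intro w w' h g b
    refine ⟨hc.desc (n.app t₀) (n.app t₀ ≫ g) ((hcop t₀).desc (Γ.p.map (n.app t₀ ≫ g))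
      (b ≫ Γ.p.map h)) (by simp), by simp, ?_⟩
    rw [Γ.p.map_comp, hc.map_desc]
    simp
  let D : DescentDatum Γ (fun _ : Unit ↦ ξ) (fun _ ↦ structMap (Γ.p.obj ξ)) :=
    { tr := fun {i y} φ j b _ ↦ tr φ b
      map_tr := fun {i y} φ j b _ ↦ htrp φ b
      tr_self := by
        intro i w φ
        obtain ⟨w', h, cL, hff, hw⟩ := hE w
        obtain ⟨g, hg, hg'⟩ := hw φ
        apply hΓ.mono_of_ff h hff
        rw [← htr_comp, ← Γ.p.map_comp, ← hg]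
        exact hP t₀ g g rfl
      tr_tr := by
        intro i w φ j b _ l c' _ _
        obtain ⟨w', h, cL, hff, hw⟩ := hE w
        obtain ⟨g, hg, hg'⟩ := hw φ
        obtain ⟨g₂, hg₂, hg₂'⟩ := hE₂ h g b
        obtain ⟨g₃, hg₃, hg₃'⟩ := hE₂ h g c'
        apply hΓ.mono_of_ff h hff
        have e₁ : tr φ b ≫ h = m t₀ ≫ g₂ := by
          rw [← htr_comp, ← hg, ← hg₂']
          exact hP t₀ g g₂ hg₂
        have e₂ : tr φ c' ≫ h = m t₀ ≫ g₃ := by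
          rw [← htr_comp, ← hg, ← hg₃']
          exact hP t₀ g g₃ hg₃
        rw [e₂, ← htr_comp (tr φ b) h c', e₁, ← hg₃']
        exact hP t₀ g₂ g₃ (hg₂.symm.trans hg₃)
      tr_comp := by
        intro i w v φ ψ j b _ _
        exact htr_comp φ ψ b }
  have hff₀ : (structMap (Γ.p.obj ξ)).hom.toRingHom.FaithfullyFlat := by
    have : Module.FaithfullyFlat κ (Γ.p.obj ξ) := inferInstance
    exact (RingHom.faithfullyFlat_algebraMap_iff (R := κ) (S := Γ.p.obj ξ)).2 this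
  obtain ⟨z₀, ζ', hz₀, hζl, hζ⟩ := hΓ.obj_descent (A := CommAlgCat.of κ κ) (fun _ : Unit ↦ ξ)
    (fun _ ↦ structMap (Γ.p.obj ξ)) (fpqc_of_ff hff₀) D
  let ζ : z₀ ⟶ ξ := ζ' ()
  have hζ' : ∀ {v : Γ.obj} (φ : ξ ⟶ v) (b : Γ.p.obj ξ ⟶ Γ.p.obj v), ζ ≫ φ = ζ ≫ tr φ b := by
    intro v φ b
    exact hζ (i := ()) φ () b (structMap_unique _ _)
  have hθ : ∀ t, ∃ θ : z₀ ⟶ y.obj t, θ ≫ n.app t = ζ ≫ m t := by
    intro t
    have hnff : (Γ.p.map (n.app t)).hom.toRingHom.FaithfullyFlat := (hcop t).ff_left hξ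
    have h₀ : ∃ h₀ : Γ.p.obj z₀ ⟶ Γ.p.obj (y.obj t), True := by
      rw [hz₀]
      exact ⟨structMap _, trivial⟩
    obtain ⟨h₀, -⟩ := h₀
    obtain ⟨θ, ⟨hθ₁, hθ₂⟩, -⟩ := hΓ.hom_descent (w := z₀) (z := y.obj t) (ι := Unit)
      (fun _ ↦ y'.obj t) (fun _ ↦ n.app t) (fpqc_of_ff hnff) (fun _ ↦ ζ ≫ m t) h₀
      (fun _ ↦ map_unique_of_eq hz₀ _ _) (by
        intro _ _ v φ ψ hφψ
        rw [Category.assoc, Category.assoc, ← hP t φ ψ hφψ]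
        exact hζ' _ _)
    exact ⟨θ, hθ₂ ()⟩
  choose θ hθ using hθ
  refine ⟨z₀, hz₀, ζ, θ, ?_, hθ⟩
  intro t t' τ
  have hnff : (Γ.p.map (n.app t')).hom.toRingHom.FaithfullyFlat := (hcop t').ff_left hξ
  apply hΓ.mono_of_ff (n.app t') hnff
  rw [Category.assoc, n.naturality, ← Category.assoc, hθ, Category.assoc, hm, hθ]

end

end Pool.Agent.H27
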