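import Pool.Agent.H27.Descent
import Pool.Agent.H27.Cof
import Pool.Agent.H27.Const

/-!
# Coproducts in finite stacks
-/

set_option linter.unusedSectionVars false
set_option linter.style.haveILetI false

open CategoryTheory AlgebraicGeometry Limits Bicategory
open scoped TensorProduct

namespace Pool.Agent.H27

variable {κ : Type} [Field κ] {Γ : BasedCategory.{0, 1} (Alg κ)}

/-! ### elementary facts on categories cofibered in groupoids -/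

namespace IsCofiberedInGroupoids

lemma fac (hΓ : IsCofiberedInGroupoids Γ) {x y z : Γ.obj} (φ : x ⟶ y) (ψ : x ⟶ z)
    (g : Γ.p.obj y ⟶ Γ.p.obj z) (h : Γ.p.map φ ≫ g = Γ.p.map ψ) :
    φ ≫ hΓ.desc φ ψ g h = ψ := hΓ.fac_desc φ ψ g h

/-- A square whose image is a pushout is a pushout. -/
lemma isPushout_of (hΓ : IsCofiberedInGroupoids Γ) {a b c d : Γ.obj} {α : a ⟶ b} {β : a ⟶ c}
    {γ : b ⟶ d} {δ : c ⟶ d} (w : α ≫ γ = β ≫ δ)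
    (h : IsPushout (Γ.p.map α) (Γ.p.map β) (Γ.p.map γ) (Γ.p.map δ)) : IsPushout α β γ δ := by
  have key : ∀ {e : Γ.obj} (u : b ⟶ e) (v : c ⟶ e), α ≫ u = β ≫ v →
      ∃ t : d ⟶ e, γ ≫ t = u ∧ δ ≫ t = v := by
    intro e u v huv
    have hp : Γ.p.map α ≫ Γ.p.map u = Γ.p.map β ≫ Γ.p.map v := by
      rw [← Γ.p.map_comp, huv, Γ.p.map_comp]
    have h1 : Γ.p.map γ ≫ h.desc (Γ.p.map u) (Γ.p.map v) hp = Γ.p.map u := h.inl_desc _ _ _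
    refine ⟨hΓ.desc γ u _ h1, hΓ.fac _ _ _ _, ?_⟩
    apply hΓ.hom_ext β
    · rw [Γ.p.map_comp, hΓ.map_desc, h.inr_desc]
    · rw [← Category.assoc, ← w, Category.assoc, hΓ.fac, huv]
  refine ⟨⟨w⟩, ⟨PushoutCocone.IsColimit.mk _
    (fun s ↦ (key s.inl s.inr s.condition).choose)
    (fun s ↦ (key s.inl s.inr s.condition).choose_spec.1)
    (fun s ↦ (key s.inl s.inr s.condition).choose_spec.2) ?_⟩⟩
  intro s m h1 h2
  apply hΓ.hom_ext γ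
  · apply h.hom_ext
    · rw [← Γ.p.map_comp, ← Γ.p.map_comp, h1, (key s.inl s.inr s.condition).choose_spec.1]
    · rw [← Γ.p.map_comp, ← Γ.p.map_comp, h2, (key s.inl s.inr s.condition).choose_spec.2]
  · rw [h1, (key s.inl s.inr s.condition).choose_spec.1]

/-- Pushouts exist and are preserved by the projection. -/
lemma exists_pushout (hΓ : IsCofiberedInGroupoids Γ) {a b c : Γ.obj} (α : a ⟶ b) (β : a ⟶ c) :
    ∃ (d : Γ.obj) (γ : b ⟶ d) (δ : c ⟶ d), IsPushout α β γ δ ∧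
      IsPushout (Γ.p.map α) (Γ.p.map β) (Γ.p.map γ) (Γ.p.map δ) := by
  obtain ⟨d, γ, e, he⟩ := hΓ.exists_push' b (pushout.inl (Γ.p.map α) (Γ.p.map β))
  have h1 : Γ.p.map β ≫ pushout.inr (Γ.p.map α) (Γ.p.map β) ≫ e.inv = Γ.p.map (α ≫ γ) := by
    rw [Γ.p.map_comp, ← Category.assoc, ← pushout.condition, ← he]
    simp
  have hp : IsPushout (Γ.p.map α) (Γ.p.map β) (Γ.p.map γ) (Γ.p.map (hΓ.desc β (α ≫ γ) _ h1)) := by
    refine (IsPushout.of_hasPushout (Γ.p.map α) (Γ.p.map β)).of_iso (Iso.refl _) (Iso.refl _)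
      (Iso.refl _) e.symm ?_ ?_ ?_ ?_
    · simp
    · simp
    · simp [← he]
    · simp [hΓ.map_desc]
  exact ⟨d, γ, hΓ.desc β (α ≫ γ) _ h1, hΓ.isPushout_of (hΓ.fac _ _ _ _).symm hp, hp⟩

end IsCofiberedInGroupoids

section CoprodDescent

variable (hΓ : IsStack Γ) {x x' y z' : Γ.obj} (φ : x ⟶ x') (i' : x' ⟶ z') (j' : y ⟶ z')
  (hz' : IsColimit (BinaryCofan.mk i' j'))

/-- The arrow out of the coproduct. -/
noncomputable def cop {w : Γ.obj} (a : x' ⟶ w) (b : y ⟶ w) : z' ⟶ w :=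
  hz'.desc (BinaryCofan.mk a b)

lemma inl_cop {w : Γ.obj} (a : x' ⟶ w) (b : y ⟶ w) : i' ≫ cop i' j' hz' a b = a :=
  hz'.fac (BinaryCofan.mk a b) ⟨WalkingPair.left⟩

lemma inr_cop {w : Γ.obj} (a : x' ⟶ w) (b : y ⟶ w) : j' ≫ cop i' j' hz' a b = b :=
  hz'.fac (BinaryCofan.mk a b) ⟨WalkingPair.right⟩

include hz' in
lemma cop_ext {w : Γ.obj} {s t : z' ⟶ w} (h₁ : i' ≫ s = i' ≫ t) (h₂ : j' ≫ s = j' ≫ t) : s = t :=
  BinaryCofan.IsColimit.hom_ext hz' h₁ h₂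

/-- The transported arrow. -/
noncomputable def Tt {w : Γ.obj} (ψ : z' ⟶ w) (c : Γ.p.obj x' ⟶ Γ.p.obj w)
    (h : Γ.p.map φ ≫ Γ.p.map i' ≫ Γ.p.map ψ = Γ.p.map φ ≫ c) : z' ⟶ w :=
  cop i' j' hz' (hΓ.toIsCofiberedInGroupoids.desc φ (φ ≫ i' ≫ ψ) c (by
    rw [← h, Γ.p.map_comp, Γ.p.map_comp])) (j' ≫ ψ)

variable {w : Γ.obj} (ψ : z' ⟶ w) (c : Γ.p.obj x' ⟶ Γ.p.obj w)
    (h : Γ.p.map φ ≫ Γ.p.map i' ≫ Γ.p.map ψ = Γ.p.map φ ≫ c)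

lemma Tt_1 : Γ.p.map i' ≫ Γ.p.map (Tt hΓ φ i' j' hz' ψ c h) = c := by
  rw [← Γ.p.map_comp, Tt, inl_cop, hΓ.toIsCofiberedInGroupoids.map_desc]

lemma Tt_2 : φ ≫ i' ≫ Tt hΓ φ i' j' hz' ψ c h = φ ≫ i' ≫ ψ := by
  rw [Tt, inl_cop, hΓ.toIsCofiberedInGroupoids.fac]

lemma Tt_2' : j' ≫ Tt hΓ φ i' j' hz' ψ c h = j' ≫ ψ := by
  rw [Tt, inr_cop]

lemma Tt_3 {χ : z' ⟶ w} (h1 : φ ≫ i' ≫ χ = φ ≫ i' ≫ ψ) (h2 : j' ≫ χ = j' ≫ ψ)
    (h3 : Γ.p.map i' ≫ Γ.p.map χ = c) : χ = Tt hΓ φ i' j' hz' ψ c h := by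
  apply cop_ext i' j' hz'
  · apply hΓ.toIsCofiberedInGroupoids.hom_ext φ
    · rw [Γ.p.map_comp, Γ.p.map_comp, h3, Tt_1]
    · rw [h1, Tt_2]
  · rw [h2, Tt_2']

lemma Tt_self (h : Γ.p.map φ ≫ Γ.p.map i' ≫ Γ.p.map ψ = Γ.p.map φ ≫ Γ.p.map i' ≫ Γ.p.map ψ) :
    Tt hΓ φ i' j' hz' ψ (Γ.p.map i' ≫ Γ.p.map ψ) h = ψ :=
  (Tt_3 hΓ φ i' j' hz' ψ _ _ rfl rfl rfl).symm

lemma Tt_Tt (c' : Γ.p.obj x' ⟶ Γ.p.obj w)
    (h' : Γ.p.map φ ≫ Γ.p.map i' ≫ Γ.p.map (Tt hΓ φ i' j' hz' ψ c h) = Γ.p.map φ ≫ c')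
    (h'' : Γ.p.map φ ≫ Γ.p.map i' ≫ Γ.p.map ψ = Γ.p.map φ ≫ c') :
    Tt hΓ φ i' j' hz' (Tt hΓ φ i' j' hz' ψ c h) c' h' = Tt hΓ φ i' j' hz' ψ c' h'' := by
  apply Tt_3
  · rw [Tt_2, Tt_2]
  · rw [Tt_2', Tt_2']
  · rw [Tt_1]

lemma Tt_comp {w' : Γ.obj} (ω : w ⟶ w') {ψ' : z' ⟶ w'} (hψ' : ψ ≫ ω = ψ')
    {c' : Γ.p.obj x' ⟶ Γ.p.obj w'} (hc' : c ≫ Γ.p.map ω = c')
    (h' : Γ.p.map φ ≫ Γ.p.map i' ≫ Γ.p.map ψ' = Γ.p.map φ ≫ c') :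
    Tt hΓ φ i' j' hz' ψ c h ≫ ω = Tt hΓ φ i' j' hz' ψ' c' h' := by
  subst hψ' hc'
  apply Tt_3
  · have := Tt_2 hΓ φ i' j' hz' ψ c h
    rw [← Category.assoc, ← Category.assoc, Category.assoc φ, this]
    simp
  · rw [← Category.assoc, Tt_2', Category.assoc]
  · rw [Γ.p.map_comp, ← Category.assoc, Tt_1]

/-- A chosen base change of `z'`. -/
noncomputable def bc {C : Alg κ} (b : Γ.p.obj z' ⟶ C) : Γ.obj :=
  (hΓ.toIsCofiberedInGroupoids.exists_push' z' b).choose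

/-- the arrow to it -/
noncomputable def bcπ {C : Alg κ} (b : Γ.p.obj z' ⟶ C) : z' ⟶ bc hΓ b :=
  (hΓ.toIsCofiberedInGroupoids.exists_push' z' b).choose_spec.choose

/-- the iso -/
noncomputable def bcε {C : Alg κ} (b : Γ.p.obj z' ⟶ C) : Γ.p.obj (bc hΓ b) ≅ C :=
  (hΓ.toIsCofiberedInGroupoids.exists_push' z' b).choose_spec.choose_spec.choose

lemma bc_fac {C : Alg κ} (b : Γ.p.obj z' ⟶ C) : Γ.p.map (bcπ hΓ b) ≫ (bcε hΓ b).hom = b :=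
  (hΓ.toIsCofiberedInGroupoids.exists_push' z' b).choose_spec.choose_spec.choose_spec

lemma bc_fac' {C : Alg κ} (b : Γ.p.obj z' ⟶ C) : Γ.p.map (bcπ hΓ b) = b ≫ (bcε hΓ b).inv := by
  rw [Iso.eq_comp_inv, bc_fac]

lemma bc_cond {C : Alg κ} (b : Γ.p.obj z' ⟶ C) (c : Γ.p.obj x' ⟶ C)
    (h : Γ.p.map φ ≫ Γ.p.map i' ≫ b = Γ.p.map φ ≫ c) :
    Γ.p.map φ ≫ Γ.p.map i' ≫ Γ.p.map (bcπ hΓ b) = Γ.p.map φ ≫ c ≫ (bcε hΓ b).inv := by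
  rw [bc_fac', ← Category.assoc (Γ.p.map i'), ← Category.assoc, h, Category.assoc]

/-- The transport rule on algebras. -/
noncomputable def tt {C : Alg κ} (b : Γ.p.obj z' ⟶ C) (c : Γ.p.obj x' ⟶ C)
    (h : Γ.p.map φ ≫ Γ.p.map i' ≫ b = Γ.p.map φ ≫ c) : Γ.p.obj z' ⟶ C :=
  Γ.p.map (Tt hΓ φ i' j' hz' (bcπ hΓ b) (c ≫ (bcε hΓ b).inv) (bc_cond hΓ φ i' b c h)) ≫
    (bcε hΓ b).hom

lemma tt_eq {C : Alg κ} (b : Γ.p.obj z' ⟶ C) (c : Γ.p.obj x' ⟶ C)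
    (h : Γ.p.map φ ≫ Γ.p.map i' ≫ b = Γ.p.map φ ≫ c) {w : Γ.obj} (ψ : z' ⟶ w)
    (y₀ : Γ.p.obj w ⟶ C) (hy : Γ.p.map ψ ≫ y₀ = b) (c' : Γ.p.obj x' ⟶ Γ.p.obj w)
    (hc : c' ≫ y₀ = c) (h' : Γ.p.map φ ≫ Γ.p.map i' ≫ Γ.p.map ψ = Γ.p.map φ ≫ c') :
    tt hΓ φ i' j' hz' b c h = Γ.p.map (Tt hΓ φ i' j' hz' ψ c' h') ≫ y₀ := by
  have h1 : Γ.p.map ψ ≫ y₀ ≫ (bcε hΓ b).inv = Γ.p.map (bcπ hΓ b) := by
    rw [bc_fac', ← Category.assoc, hy]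
  let χ : w ⟶ bc hΓ b := hΓ.toIsCofiberedInGroupoids.desc ψ (bcπ hΓ b) _ h1
  have h2 : ψ ≫ χ = bcπ hΓ b := hΓ.toIsCofiberedInGroupoids.fac _ _ _ _
  have h3 : Γ.p.map χ = y₀ ≫ (bcε hΓ b).inv := hΓ.toIsCofiberedInGroupoids.map_desc _ _ _ _
  have h4 : Tt hΓ φ i' j' hz' ψ c' h' ≫ χ =
      Tt hΓ φ i' j' hz' (bcπ hΓ b) (c ≫ (bcε hΓ b).inv) (bc_cond hΓ φ i' b c h) := by
    apply Tt_comp hΓ φ i' j' hz' ψ c' h' χ h2
    rw [h3, ← Category.assoc, hc]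
  rw [tt, ← h4, Γ.p.map_comp, h3]
  simp

/-- The descent datum for the algebra of the coproduct. -/
noncomputable def coprodDescent : AlgDescent (fun _ : Unit ↦ Γ.p.map φ)
    (fun _ : Unit ↦ Γ.p.map i') where
  tr b _ c h := tt hΓ φ i' j' hz' b c h
  s_tr b _ c h := by
    rw [tt, ← Category.assoc, Tt_1]
    simp
  tr_self b := by
    rw [tt_eq hΓ φ i' j' hz' b (Γ.p.map i' ≫ b) rfl (bcπ hΓ b) (bcε hΓ b).hom (bc_fac hΓ b)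
      (Γ.p.map i' ≫ Γ.p.map (bcπ hΓ b)) (by rw [Category.assoc, bc_fac]) rfl, Tt_self, bc_fac]
  tr_tr {_ C} b _ c h _ c' h' h'' := by
    rw [tt_eq hΓ φ i' j' hz' (tt hΓ φ i' j' hz' b c h) c' h'
      (Tt hΓ φ i' j' hz' (bcπ hΓ b) (c ≫ (bcε hΓ b).inv) (bc_cond hΓ φ i' b c h))
      (bcε hΓ b).hom rfl (c' ≫ (bcε hΓ b).inv) (by simp) (by
        rw [Tt_1, ← Category.assoc, ← h, Category.assoc, Category.assoc, ← Category.assoc,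
          ← Category.assoc, Category.assoc (Γ.p.map φ), h'', Category.assoc]), tt, Tt_Tt]
  tr_comp {_ C E} b g _ c h h' := by
    rw [tt_eq hΓ φ i' j' hz' (b ≫ g) (c ≫ g) h' (bcπ hΓ b) ((bcε hΓ b).hom ≫ g)
      (by rw [← Category.assoc, bc_fac]) (c ≫ (bcε hΓ b).inv) (by simp)
      (bc_cond hΓ φ i' b c h), tt, Category.assoc]

include hΓ hz' in
/-- Coproducts exist if they exist after a faithfully flat base change of the first factor. -/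
theorem coprod_descent (hφ : (Γ.p.map φ).hom.toRingHom.FaithfullyFlat) :
    ∃ (z : Γ.obj) (i : x ⟶ z) (j : y ⟶ z) (ζ : z ⟶ z'),
      Nonempty (IsColimit (BinaryCofan.mk i j)) ∧ i ≫ ζ = φ ≫ i' ∧ j ≫ ζ = j' ∧
      IsPushout (Γ.p.map φ) (Γ.p.map i) (Γ.p.map i') (Γ.p.map ζ) := by
  have hc := hΓ.toIsCofiberedInGroupoids
  -- descend the algebra
  obtain ⟨Z, s, e, hpo, hcompat⟩ := alg_obj_descent (fun _ : Unit ↦ Γ.p.map φ)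
    (IsFpqcCover.single _ hφ) (fun _ : Unit ↦ Γ.p.map i') (coprodDescent hΓ φ i' j' hz')
  replace hpo := hpo ()
  generalize he : e () = e₀ at hpo
  replace hcompat : ∀ {C : Alg κ} (b : Γ.p.obj z' ⟶ C) (c : Γ.p.obj x' ⟶ C)
      (h : Γ.p.map φ ≫ Γ.p.map i' ≫ b = Γ.p.map φ ≫ c),
      e₀ ≫ b = e₀ ≫ tt hΓ φ i' j' hz' b c h := by
    intro C b c h
    rw [← he]
    exact hcompat b () c h
  have heff : e₀.hom.toRingHom.FaithfullyFlat := ff_of_isPushout hpo hφ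
  -- compatibility in terms of arrows
  have hT : ∀ {w : Γ.obj} (ψ : z' ⟶ w) (b : Γ.p.obj z' ⟶ Γ.p.obj w)
      (h : e₀ ≫ Γ.p.map ψ = e₀ ≫ b),
      Γ.p.map φ ≫ Γ.p.map i' ≫ Γ.p.map ψ = Γ.p.map φ ≫ Γ.p.map i' ≫ b := by
    intro w ψ b h
    rw [← Category.assoc, hpo.w, Category.assoc, h, ← Category.assoc, ← hpo.w, Category.assoc]
  have hT2 : ∀ {w : Γ.obj} (ψ : z' ⟶ w) (c : Γ.p.obj x' ⟶ Γ.p.obj w)
      (h : Γ.p.map φ ≫ Γ.p.map i' ≫ Γ.p.map ψ = Γ.p.map φ ≫ c),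
      e₀ ≫ Γ.p.map ψ = e₀ ≫ Γ.p.map (Tt hΓ φ i' j' hz' ψ c h) := by
    intro w ψ c h
    rw [hcompat (Γ.p.map ψ) c h, tt_eq hΓ φ i' j' hz' _ _ h ψ (𝟙 _) (Category.comp_id _) c
      (Category.comp_id _) h, Category.comp_id]
  -- the descent datum
  let Dd : DescentDatum Γ (fun _ : Unit ↦ z') (fun _ : Unit ↦ e₀) :=
    { tr := fun {_ w} ψ _ b h ↦ Tt hΓ φ i' j' hz' ψ (Γ.p.map i' ≫ b) (hT ψ b h)
      map_tr := fun {_ w} ψ _ b h ↦ by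
        apply hpo.hom_ext
        · rw [Tt_1]
        · rw [← hT2, h]
      tr_self := fun {_ w} ψ ↦ Tt_self _ _ _ _ _ _ _
      tr_tr := fun {_ w} ψ _ b h _ c h' h'' ↦ Tt_Tt _ _ _ _ _ _ _ _ _ _ _
      tr_comp := fun {_ w w'} ψ ω _ b h h' ↦ (Tt_comp _ _ _ _ _ _ _ _ _ rfl
        (by rw [Category.assoc]) _).symm }
  obtain ⟨z, ζ, hz, hlift, hζ⟩ := hΓ.obj_descent (fun _ : Unit ↦ z') (fun _ ↦ e₀)
    (IsFpqcCover.single _ heff) Dd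
  subst hz
  replace hlift := hlift ()
  generalize hζ0 : ζ () = ζ₀ at hlift
  have he₀ : e₀ = Γ.p.map ζ₀ := IsHomLift.eq_of_isHomLift Γ.p e₀ ζ₀
  replace hζ : ∀ {w : Γ.obj} (ψ : z' ⟶ w) (b : Γ.p.obj z' ⟶ Γ.p.obj w)
      (h : e₀ ≫ Γ.p.map ψ = e₀ ≫ b),
      ζ₀ ≫ ψ = ζ₀ ≫ Tt hΓ φ i' j' hz' ψ (Γ.p.map i' ≫ b) (hT ψ b h) := by
    intro w ψ b h
    rw [← hζ0]
    exact hζ (i := ()) ψ () b h
  have hcovζ : IsFpqcCover (fun _ : Unit ↦ Γ.p.obj z') (fun _ ↦ Γ.p.map ζ₀) := by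
    rw [← he₀]; exact IsFpqcCover.single _ heff
  -- arrows agreeing on `z`
  have hagree : ∀ {w : Γ.obj} (ψ ψ' : z' ⟶ w), ζ₀ ≫ ψ = ζ₀ ≫ ψ' →
      φ ≫ i' ≫ ψ = φ ≫ i' ≫ ψ' ∧ j' ≫ ψ = j' ≫ ψ' := by
    intro w ψ ψ' h
    have h1 : e₀ ≫ Γ.p.map ψ = e₀ ≫ Γ.p.map ψ' := by
      rw [he₀, ← Γ.p.map_comp, h, Γ.p.map_comp]
    have h2 : ψ' = Tt hΓ φ i' j' hz' ψ (Γ.p.map i' ≫ Γ.p.map ψ') (hT ψ _ h1) := by
      apply hc.hom_ext ζ₀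
      · exact (Dd.map_tr (i := ()) ψ () (Γ.p.map ψ') h1).symm
      · rw [← hζ ψ _ h1, h]
    constructor
    · conv_rhs => rw [h2]
      rw [Tt_2]
    · conv_rhs => rw [h2]
      rw [Tt_2']
  -- algebra version
  have hagreeA : ∀ {C : Alg κ} (b b' : Γ.p.obj z' ⟶ C), e₀ ≫ b = e₀ ≫ b' →
      Γ.p.map j' ≫ b = Γ.p.map j' ≫ b' := by
    intro C b b' h
    have h1 : Γ.p.map φ ≫ Γ.p.map i' ≫ b = Γ.p.map φ ≫ Γ.p.map i' ≫ b' := by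
      rw [← Category.assoc, hpo.w, Category.assoc, h, ← Category.assoc, ← hpo.w, Category.assoc]
    have h2 : b' = tt hΓ φ i' j' hz' b (Γ.p.map i' ≫ b') h1 := by
      apply hpo.hom_ext
      · rw [tt, ← Category.assoc, Tt_1]
        simp
      · rw [← hcompat b _ h1, h]
    rw [h2, tt, ← Category.assoc, ← Γ.p.map_comp, Tt_2', Γ.p.map_comp, Category.assoc, bc_fac]
  -- the two arrows
  obtain ⟨i, ⟨hi1, hi2⟩, -⟩ := hΓ.hom_descent (fun _ : Unit ↦ z') (fun _ ↦ ζ₀) hcovζ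
    (fun _ ↦ φ ≫ i') s (fun _ ↦ by rw [← he₀, ← hpo.w, Γ.p.map_comp])
    (fun _ _ w ψ ψ' h ↦ by
      rw [Category.assoc, Category.assoc]; exact (hagree ψ ψ' h).1)
  replace hi2 := hi2 ()
  obtain ⟨h₀, hh₀, -⟩ := alg_hom_descent (fun _ : Unit ↦ Γ.p.map ζ₀) hcovζ (Γ.p.obj y)
    (fun _ ↦ Γ.p.map j') (fun _ _ C b b' h ↦ hagreeA b b' (by rw [he₀]; exact h))
  obtain ⟨j, ⟨hj1, hj2⟩, -⟩ := hΓ.hom_descent (fun _ : Unit ↦ z') (fun _ ↦ ζ₀) hcovζ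
    (fun _ ↦ j') h₀ (fun _ ↦ hh₀ ()) (fun _ _ w ψ ψ' h ↦ (hagree ψ ψ' h).2)
  replace hj2 := hj2 ()
  have hpo' : IsPushout (Γ.p.map φ) (Γ.p.map i) (Γ.p.map i') (Γ.p.map ζ₀) := by
    rw [hi1, ← he₀]; exact hpo
  have hpoΓ : IsPushout φ i i' ζ₀ := hc.isPushout_of hi2.symm hpo'
  have key : ∀ {w : Γ.obj} (a : x ⟶ w) (b : y ⟶ w), ∃ t : z ⟶ w, (i ≫ t = a ∧ j ≫ t = b) ∧
      ∀ t' : z ⟶ w, i ≫ t' = a → j ≫ t' = b → t' = t := by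
    intro w a b
    obtain ⟨w', a', q, hpoa, hpoA⟩ := hc.exists_pushout φ a
    have hq := ff_of_isPushout hpoA hφ
    have hcovq := IsFpqcCover.single _ hq
    let h1 := cop i' j' hz' a' (b ≫ q)
    have h1i : i' ≫ h1 = a' := inl_cop _ _ _ _ _
    have h1j : j' ≫ h1 = b ≫ q := inr_cop _ _ _ _ _
    have hkey : ∀ {w₂ : Γ.obj} (ψ ψ' : w' ⟶ w₂), q ≫ ψ = q ≫ ψ' →
        e₀ ≫ Γ.p.map (h1 ≫ ψ) = e₀ ≫ Γ.p.map (h1 ≫ ψ') ∧ ζ₀ ≫ h1 ≫ ψ = ζ₀ ≫ h1 ≫ ψ' := by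
      intro w₂ ψ ψ' h
      have e1 : φ ≫ i' ≫ h1 ≫ ψ' = φ ≫ i' ≫ h1 ≫ ψ := by
        rw [← Category.assoc i', h1i, ← Category.assoc, hpoa.w, Category.assoc, ← h,
          ← Category.assoc, ← hpoa.w, ← Category.assoc i', h1i, Category.assoc]
      have e2 : j' ≫ h1 ≫ ψ' = j' ≫ h1 ≫ ψ := by
        rw [← Category.assoc, h1j, Category.assoc, ← h, ← Category.assoc, ← h1j, Category.assoc]
      have e3 : Γ.p.map φ ≫ Γ.p.map i' ≫ Γ.p.map (h1 ≫ ψ) =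
          Γ.p.map φ ≫ Γ.p.map i' ≫ Γ.p.map (h1 ≫ ψ') := by
        rw [← Γ.p.map_comp, ← Γ.p.map_comp, ← Γ.p.map_comp, ← Γ.p.map_comp, e1]
      have e4 := Tt_3 hΓ φ i' j' hz' (h1 ≫ ψ) _ e3 e1 e2 rfl
      have e5 : e₀ ≫ Γ.p.map (h1 ≫ ψ) = e₀ ≫ Γ.p.map (h1 ≫ ψ') := by
        rw [hT2 (h1 ≫ ψ) _ e3, ← e4]
      refine ⟨e5, ?_⟩
      rw [hζ (h1 ≫ ψ) (Γ.p.map (h1 ≫ ψ')) e5, ← e4]
    obtain ⟨t₀, ht₀, -⟩ := alg_hom_descent (fun _ : Unit ↦ Γ.p.map q) hcovq (Γ.p.obj z)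
      (fun _ ↦ e₀ ≫ Γ.p.map h1) (fun _ _ E u v huv ↦ by
        obtain ⟨w₂, pi₂, ep, hep⟩ := hc.exists_push' w' u
        have e1 : Γ.p.map q ≫ v ≫ ep.inv = Γ.p.map (q ≫ pi₂) := by
          rw [Γ.p.map_comp, ← Category.assoc, ← huv, ← hep]
          simp
        have e2 := (hkey pi₂ (hc.desc q (q ≫ pi₂) _ e1) (hc.fac _ _ _ _).symm).1
        rw [Γ.p.map_comp, Γ.p.map_comp, hc.map_desc] at e2
        have e3 := congrArg (· ≫ ep.hom) e2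
        simp only [Category.assoc, Iso.inv_hom_id, Category.comp_id, hep] at e3
        rw [Category.assoc, Category.assoc, e3])
    obtain ⟨t, ⟨ht1, ht2⟩, -⟩ := hΓ.hom_descent (fun _ : Unit ↦ w') (fun _ ↦ q) hcovq
      (fun _ ↦ ζ₀ ≫ h1) t₀ (fun _ ↦ by rw [Γ.p.map_comp, ← he₀]; exact ht₀ ())
      (fun _ _ w₂ ψ ψ' h ↦ by
        rw [Category.assoc, Category.assoc]; exact (hkey ψ ψ' h).2)
    replace ht2 := ht2 ()
    refine ⟨t, ⟨?_, ?_⟩, ?_⟩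
    · apply hΓ.mono_of_ff q hq
      rw [Category.assoc, ht2, ← Category.assoc, hi2, Category.assoc, h1i, hpoa.w]
    · apply hΓ.mono_of_ff q hq
      rw [Category.assoc, ht2, ← Category.assoc, hj2, h1j]
    · intro t' hi' hj'
      apply hΓ.mono_of_ff q hq
      rw [ht2]
      have e1 : φ ≫ a' = i ≫ t' ≫ q := by rw [← Category.assoc, hi', hpoa.w]
      have e2 : hpoΓ.desc a' (t' ≫ q) e1 = h1 := by
        apply cop_ext i' j' hz'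
        · rw [hpoΓ.inl_desc, h1i]
        · rw [← hj2, Category.assoc, hpoΓ.inr_desc, ← Category.assoc, hj', Category.assoc, ← h1j,
            ← hj2, Category.assoc]
      rw [← e2, hpoΓ.inr_desc]
  refine ⟨z, i, j, ζ₀, ⟨BinaryCofan.IsColimit.mk _ (fun {w} a b ↦ (key a b).choose)
    (fun {w} a b ↦ (key a b).choose_spec.1.1) (fun {w} a b ↦ (key a b).choose_spec.1.2)
    (fun {w} a b m h1 h2 ↦ (key a b).choose_spec.2 m h1 h2)⟩, hi2, hj2, hpo'⟩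

end CoprodDescent

section CoprodSquares

attribute [local simp] coprod.inl_desc coprod.inr_desc coprod.inl_desc_assoc coprod.inr_desc_assoc

variable {𝒞 : Type*} [Category 𝒞] [HasBinaryCoproducts 𝒞]

lemma isPushout_coprod_map {X X' : 𝒞} (f : X ⟶ X') (Y : 𝒞) :
    IsPushout f (coprod.inl : X ⟶ X ⨿ Y) (coprod.inl : X' ⟶ X' ⨿ Y) (coprod.map f (𝟙 Y)) := by
  refine ⟨⟨by simp⟩, ⟨PushoutCocone.IsColimit.mk _ (fun s ↦ coprod.desc s.inl (coprod.inr ≫ s.inr))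
    (fun s ↦ by simp) (fun s ↦ ?_) (fun s m h1 h2 ↦ ?_)⟩⟩
  · apply coprod.hom_ext
    · simp [s.condition]
    · simp
  · apply coprod.hom_ext
    · simpa using h1
    · rw [← h2]
      simp

lemma isPushout_coprod_desc {X X' Z D Y : 𝒞} {f : X ⟶ X'} {i : X ⟶ Z} {γ : X' ⟶ D} {δ : Z ⟶ D}
    (h : IsPushout f i γ δ) (j : Y ⟶ Z) :
    IsPushout (coprod.map f (𝟙 Y)) (coprod.desc i j) (coprod.desc γ (j ≫ δ)) δ := by
  have hs : ∀ s : PushoutCocone (coprod.map f (𝟙 Y)) (coprod.desc i j),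
      f ≫ coprod.inl ≫ s.inl = i ≫ s.inr ∧ coprod.inr ≫ s.inl = j ≫ s.inr := by
    intro s
    constructor
    · have := congrArg (coprod.inl ≫ ·) s.condition
      simpa using this
    · have := congrArg (coprod.inr ≫ ·) s.condition
      simpa using this
  refine ⟨⟨?_⟩, ⟨PushoutCocone.IsColimit.mk _ (fun s ↦ h.desc (coprod.inl ≫ s.inl) s.inr (hs s).1)
    (fun s ↦ ?_) (fun s ↦ ?_) (fun s m h1 h2 ↦ ?_)⟩⟩
  · apply coprod.hom_ext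
    · simp [h.w]
    · simp
  · apply coprod.hom_ext
    · simp
    · simp [(hs s).2]
  · simp
  · apply h.hom_ext
    · rw [h.inl_desc, ← h1]
      simp
    · rw [h.inr_desc, ← h2]

end CoprodSquares

attribute [local simp] coprod.inl_desc coprod.inr_desc coprod.inl_desc_assoc coprod.inr_desc_assoc

/-- Finiteness descends along faithfully flat maps. -/
theorem finite_descent {A B C D : Alg κ} {f : A ⟶ B} {g : A ⟶ C} {i : B ⟶ D} {j : C ⟶ D}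
    (h : IsPushout f g i j) (hf : f.hom.toRingHom.FaithfullyFlat) (hi : i.hom.toRingHom.Finite) :
    g.hom.toRingHom.Finite := by
  letI := algOf f
  letI := algOf g
  obtain ⟨e, he, -⟩ := exists_tensor_equiv h
  have : Module.FaithfullyFlat A B := hf
  have h1 : (algebraMap B (B ⊗[A] C)) = e.symm.toRingHom.comp i.hom.toRingHom := by
    ext b
    have := he b
    change b ⊗ₜ 1 = e.symm (i.hom b)
    rw [← this, e.symm_apply_apply]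
  have h2 : (algebraMap B (B ⊗[A] C)).Finite := by
    rw [h1]
    exact (RingHom.Finite.of_surjective _ e.symm.surjective).comp hi
  have : Module.Finite B (B ⊗[A] C) := RingHom.finite_algebraMap.mp h2
  have h3 : Module.Finite A C := Module.Finite.of_finite_tensorProduct_of_faithfullyFlat B
  exact h3

/-- The coproduct of `x` and `y` exists and its algebra is finite over the coproduct of the
algebras. -/
def HasFinCoprod (x y : Γ.obj) : Prop := ∃ (z : Γ.obj) (i : x ⟶ z) (j : y ⟶ z),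
  Nonempty (IsColimit (BinaryCofan.mk i j)) ∧
  (coprod.desc (Γ.p.map i) (Γ.p.map j)).hom.toRingHom.Finite

lemma HasFinCoprod.symm {x y : Γ.obj} (h : HasFinCoprod x y) : HasFinCoprod y x := by
  obtain ⟨z, i, j, ⟨hz⟩, hf⟩ := h
  refine ⟨z, j, i, ⟨BinaryCofan.isColimitFlip hz⟩, ?_⟩
  have h1 : coprod.desc (Γ.p.map j) (Γ.p.map i) =
      (coprod.braiding (Γ.p.obj y) (Γ.p.obj x)).hom ≫ coprod.desc (Γ.p.map i) (Γ.p.map j) := by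
    apply coprod.hom_ext <;> simp
  rw [h1]
  exact RingHom.Finite.comp hf (RingHom.Finite.of_surjective _
    (CommAlgCat.algEquivOfIso (coprod.braiding (Γ.p.obj y) (Γ.p.obj x))).surjective)

lemma HasFinCoprod.push (hΓ : IsCofiberedInGroupoids Γ) {u x' y : Γ.obj} (h : HasFinCoprod u y)
    (α : u ⟶ x') : HasFinCoprod x' y := by
  obtain ⟨z, i, j, ⟨hz⟩, hf⟩ := h
  obtain ⟨d, γ, δ, hpo, hpoA⟩ := hΓ.exists_pushout α i
  refine ⟨d, γ, j ≫ δ, ?_, ?_⟩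
  · apply IsCoprod.nonempty
    have hz' : IsCoprod i j := IsCoprod.of_nonempty ⟨hz⟩
    intro w a b
    refine ⟨hpo.desc a (hz'.desc (α ≫ a) b) (by simp), ⟨by simp, by simp⟩, ?_⟩
    rintro t ⟨ht1, ht2⟩
    apply hpo.hom_ext
    · rw [ht1, hpo.inl_desc]
    · rw [hpo.inr_desc]
      apply hz'.hom_ext
      · rw [hz'.left_desc, ← ht1, ← Category.assoc, ← hpo.w, Category.assoc]
      · rw [hz'.right_desc, ← ht2, Category.assoc]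
  · have h1 := isPushout_coprod_desc hpoA (Γ.p.map j)
    rw [← Γ.p.map_comp] at h1
    exact finite_of_isPushout h1.flip hf

lemma HasFinCoprod.descent (hΓ : IsStack Γ) {x x' y : Γ.obj} (h : HasFinCoprod x' y)
    (φ : x ⟶ x') (hφ : (Γ.p.map φ).hom.toRingHom.FaithfullyFlat) : HasFinCoprod x y := by
  obtain ⟨z', i', j', ⟨hz'⟩, hf⟩ := h
  obtain ⟨z, i, j, ζ, hz, hi, hj, hpo⟩ := coprod_descent hΓ φ i' j' hz' hφ
  refine ⟨z, i, j, hz, ?_⟩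
  have h1 := isPushout_coprod_desc hpo (Γ.p.map j)
  rw [← Γ.p.map_comp, hj] at h1
  exact finite_descent h1 (ff_of_isPushout (isPushout_coprod_map (Γ.p.map φ) (Γ.p.obj y)) hφ) hf

theorem IsFiniteStack.exists_coprod {Γ : BasedCategory.{0, 1} (Alg κ)} (hΓ : IsFiniteStack Γ)
    (x y : Γ.obj) : ∃ (z : Γ.obj) (i : x ⟶ z) (j : y ⟶ z),
      Nonempty (IsColimit (BinaryCofan.mk i j)) ∧
      (coprod.desc (Γ.p.map i) (Γ.p.map j)).hom.toRingHom.Finite := by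
  have hc := hΓ.isStack.toIsCofiberedInGroupoids
  obtain ⟨u, ρ, i₁, i₂, hρ, hu, hfin, -, -, hcov⟩ := hΓ.presentation
  have h0 : HasFinCoprod u u := by
    refine ⟨ρ, i₁, i₂, hρ, ?_⟩
    have h1 : (algebraMap κ (Γ.p.obj ρ)).Finite := RingHom.finite_algebraMap.mpr hfin
    rw [← AlgHom.comp_algebraMap (coprod.desc (Γ.p.map i₁) (Γ.p.map i₂)).hom] at h1
    exact RingHom.Finite.of_comp_finite h1
  obtain ⟨x', φ, α, hφ, -⟩ := hcov x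
  obtain ⟨y', ψ, β, hψ, -⟩ := hcov y
  have h1 : HasFinCoprod x' u := h0.push hc α
  have h2 : HasFinCoprod y' x' := h1.symm.push hc β
  have h3 : HasFinCoprod y x' := h2.descent hΓ.isStack ψ hψ
  exact h3.symm.descent hΓ.isStack φ hφ

end Pool.Agent.H27
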