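import Pool.Agent.H27.Profinite
import Pool.Agent.H27.RangeInt
import Pool.Agent.H27.Coprod

/-!
# Points and trivialisations of families of torsors; directed colimits of algebras
-/

open CategoryTheory Limits
open scoped TensorProduct

namespace Pool.Agent.H27

variable {κ : Type} [Field κ]

theorem IsFiniteStack.hasFiniteCoprods {Γ : BasedCategory.{0, 1} (Alg κ)} (hΓ : IsFiniteStack Γ) :
    HasFiniteCoprods Γ := by
  intro x y
  obtain ⟨z, i, j, hz, hf⟩ := hΓ.exists_coprod x y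
  refine ⟨z, i, j, IsCoprod.of_nonempty hz, ?_⟩
  let e : tens (Γ.p.obj x) (Γ.p.obj y) ≅ Γ.p.obj x ⨿ Γ.p.obj y :=
    (isCoprod_tens _ _).uniq (IsCoprod.of_nonempty (f := coprod.inl) (g := coprod.inr)
      ⟨coprodIsCoprod _ _⟩)
  have h₁ : (isCoprod_tens _ _).desc (Γ.p.map i) (Γ.p.map j) =
      e.hom ≫ coprod.desc (Γ.p.map i) (Γ.p.map j) := by
    refine (isCoprod_tens _ _).hom_ext ?_ ?_
    · change _ = _ ≫ (isCoprod_tens _ _).desc _ _ ≫ _
      rw [IsCoprod.left_desc, IsCoprod.left_desc_assoc, coprod.inl_desc]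
    · change _ = _ ≫ (isCoprod_tens _ _).desc _ _ ≫ _
      rw [IsCoprod.right_desc, IsCoprod.right_desc_assoc, coprod.inr_desc]
  rw [h₁]
  exact hf.comp (RingHom.Finite.of_surjective _ (CommAlgCat.algEquivOfIso e).surjective)

section Triv

variable {I : Type} [Preorder I] {G : GrpDiag κ I}

/-- A family of torsors with a compatible family of sections is trivial. -/
theorem exists_triv_of_pts {z : Tors G} (β : ∀ i, z.B.obj i ⟶ z.base)
    (hβ : ∀ i, z.s i ≫ β i = 𝟙 _) (hβ' : ∀ {i j : I} (t : i ⟶ j), z.B.map t ≫ β j = β i) :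
    ∃ a : trivTors G ⟶ z, ∀ i, unitPt a i = β i := by
  have key : ∀ i, ∃! g : G.H.obj i ⟶ z.B.obj i, z.act i (β i ≫ z.s i) g = 𝟙 _ := by
    intro i
    apply z.trans i
    rw [← Category.assoc, hβ, Category.id_comp, Category.comp_id]
  choose g hg hg' using key
  have hgC : ∀ (i : I) {C : Alg κ} (b : z.B.obj i ⟶ C),
      z.act i (β i ≫ z.s i ≫ b) (g i ≫ b) = b := by
    intro i C b
    have h := z.act_comp i (β i ≫ z.s i) (g i) b
    rw [hg, Category.id_comp, Category.assoc] at h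
    exact h.symm
  have huniq : ∀ (i : I) {C : Alg κ} (b₀ : z.B.obj i ⟶ C) (h h' : G.H.obj i ⟶ C),
      z.act i b₀ h = z.act i b₀ h' → h = h' := by
    intro i C b₀ h h' hh
    obtain ⟨k, -, hk⟩ := z.trans i b₀ (z.act i b₀ h) (z.s_act _ _ _).symm
    rw [hk h rfl, hk h' hh.symm]
  refine ⟨TorsHom.mk (base := structMap z.base)
    (hom :=
      { app := g
        naturality := ?_ })
    (comm := fun i ↦ structMap_unique _ _)
    (equi := ?_), ?_⟩
  · intro i j t
    apply huniq i (β i ≫ z.s j)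
    have h₁ := z.comp_act t (β j ≫ z.s j) (g j)
    rw [hg, Category.comp_id, ← Category.assoc, hβ'] at h₁
    have h₂ := hgC i (z.B.map t)
    rw [z.s_comp] at h₂
    exact h₁.symm.trans h₂.symm
  · intro i C b h
    apply huniq i (β i ≫ z.s i ≫ b)
    have h₁ := hgC i (z.act i b h)
    rw [z.s_act] at h₁
    refine h₁.trans ?_
    change _ = z.act i (β i ≫ z.s i ≫ b) ((g i ≫ b) * h)
    rw [z.act_mul, hgC]
  · intro i
    apply pt_ext _ i
    · rw [s_unitPt, hβ]
    · rw [coord_unitPt]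
      change 1 = g i ≫ β i
      apply huniq i (β i)
      have h₁ := hgC i (β i)
      rw [hβ, Category.comp_id] at h₁
      rw [h₁, z.act_one]

/-- Trivialisations are determined by the unit sections. -/
theorem triv_ext {z : Tors G} {a b : trivTors G ⟶ z} (h : ∀ i, unitPt a i = unitPt b i) :
    a = b := by
  apply TorsHom.ext
  · exact structMap_unique _ _
  · ext i : 2
    change coord a i = coord b i
    rw [coord_eq b a, ← h, coord_unitPt, G.one_comp', one_mul]

/-- Unit sections are compatible with arrows. -/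
theorem unitPt_comp {z z' : Tors G} (a : trivTors G ⟶ z) (f : z ⟶ z') (i : I) :
    (TorsHom.hom f).app i ≫ unitPt (a ≫ f) i = unitPt a i ≫ TorsHom.base f := by
  apply pt_ext a i
  · rw [← Category.assoc, ← comm', Category.assoc, s_unitPt, s_unitPt_assoc, Category.comp_id]
  · rw [← Category.assoc, ← coord_comp, coord_unitPt, ← Category.assoc, coord_unitPt,
      G.one_comp']

end Triv

section Colim

variable {I : Type} [Preorder I] [IsDirectedOrder I] {C : Alg κ} (B : I ⥤ Alg κ)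
  (b : ∀ i, B.obj i ⟶ C)
  (hb : ∀ {i j : I} (t : i ⟶ j), B.map t ≫ b j = b i)
  (hsurj : ∀ z : C, ∃ (i : I) (x : B.obj i), (b i).hom x = z)
  (hker : ∀ (i : I) (x : B.obj i), (b i).hom x = 0 → ∃ (j : I) (t : i ⟶ j), (B.map t).hom x = 0)

include hb hsurj hker in
/-- The universal property of a directed colimit of algebras. -/
theorem colim_desc {A : Alg κ} (g : ∀ i, B.obj i ⟶ A)
    (hg : ∀ {i j : I} (t : i ⟶ j), B.map t ≫ g j = g i) : ∃ m : C ⟶ A, ∀ i, b i ≫ m = g i := by
  have hb' : ∀ {i j : I} (t : i ⟶ j) (x : B.obj i), (b j).hom ((B.map t).hom x) = (b i).hom x :=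
    fun t x ↦ congr(($(hb t)).hom x)
  have hg' : ∀ {i j : I} (t : i ⟶ j) (x : B.obj i), (g j).hom ((B.map t).hom x) = (g i).hom x :=
    fun t x ↦ congr(($(hg t)).hom x)
  have key : ∀ (i j : I) (x : B.obj i) (y : B.obj j), (b i).hom x = (b j).hom y →
      (g i).hom x = (g j).hom y := by
    intro i j x y h
    obtain ⟨k, hik, hjk⟩ := exists_ge_ge i j
    have h₁ : (b k).hom ((B.map (homOfLE hik)).hom x - (B.map (homOfLE hjk)).hom y) = 0 := by
      rw [map_sub, hb', hb', h, sub_self]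
    obtain ⟨l, t, hl⟩ := hker k _ h₁
    have h₂ : (g k).hom ((B.map (homOfLE hik)).hom x - (B.map (homOfLE hjk)).hom y) = 0 := by
      rw [← hg' t, hl, map_zero]
    rw [map_sub, hg', hg', sub_eq_zero] at h₂
    exact h₂
  choose i x hx using hsurj
  have keyadd : ∀ z w : C, ∃ (k : I) (z' w' : B.obj k), (b k).hom z' = z ∧ (b k).hom w' = w := by
    intro z w
    obtain ⟨k, hik, hjk⟩ := exists_ge_ge (i z) (i w)
    exact ⟨k, (B.map (homOfLE hik)).hom (x z), (B.map (homOfLE hjk)).hom (x w),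
      by rw [hb', hx], by rw [hb', hx]⟩
  have hval : ∀ (k : I) (y : B.obj k), (g (i ((b k).hom y))).hom (x ((b k).hom y)) =
      (g k).hom y := fun k y ↦ key _ _ _ _ (hx _)
  refine ⟨CommAlgCat.ofHom
    { toFun := fun z ↦ (g (i z)).hom (x z)
      map_one' := ?_
      map_mul' := ?_
      map_zero' := ?_
      map_add' := ?_
      commutes' := ?_ }, ?_⟩
  · rw [key _ (i 1) (x 1) 1 (by rw [hx, map_one]), map_one]
  · intro z w
    obtain ⟨k, z', w', rfl, rfl⟩ := keyadd z w
    rw [← map_mul, hval, hval, hval, map_mul]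
  · rw [key _ (i 0) (x 0) 0 (by rw [hx, map_zero]), map_zero]
  · intro z w
    obtain ⟨k, z', w', rfl, rfl⟩ := keyadd z w
    rw [← map_add, hval, hval, hval, map_add]
  · intro r
    rw [key _ (i (algebraMap κ C r)) _ (algebraMap κ _ r) (by rw [hx]; simp)]
    simp
  · intro k
    ext y
    exact hval k y

/-- Base change of a map to `C`. -/
noncomputable def tmap {A B : Alg κ} (f : A ⟶ B) (C : Alg κ) : tens A C ⟶ tens B C :=
  (isCoprod_tens A C).desc (f ≫ tinl B C) (tinr B C)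

@[reassoc (attr := simp)]
lemma tinl_tmap {A B : Alg κ} (f : A ⟶ B) (C : Alg κ) : tinl A C ≫ tmap f C = f ≫ tinl B C :=
  IsCoprod.left_desc _ _ _

@[reassoc (attr := simp)]
lemma tinr_tmap {A B : Alg κ} (f : A ⟶ B) (C : Alg κ) : tinr A C ≫ tmap f C = tinr B C :=
  IsCoprod.right_desc _ _ _

@[reassoc (attr := simp)]
lemma tmap_desc {A B C D : Alg κ} (f : A ⟶ B) (a : B ⟶ D) (c : C ⟶ D) :
    tmap f C ≫ (isCoprod_tens B C).desc a c = (isCoprod_tens A C).desc (f ≫ a) c := by
  apply (isCoprod_tens A C).hom_ext <;> simp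

lemma tmap_comp {A B D : Alg κ} (f : A ⟶ B) (g : B ⟶ D) (C : Alg κ) :
    tmap f C ≫ tmap g C = tmap (f ≫ g) C := by
  apply (isCoprod_tens A C).hom_ext <;> simp

lemma tmul_eq_mul {A C : Type} [CommRing A] [Algebra κ A] [CommRing C] [Algebra κ C]
    (a : A) (c : C) : (a ⊗ₜ[κ] c : A ⊗[κ] C) = (a ⊗ₜ 1) * (1 ⊗ₜ c) := by simp

/-- Induction on elements of a tensor product. -/
lemma tens_induction {A C : Alg κ} {motive : tens A C → Prop} (zero : motive 0)
    (tmul : ∀ (a : A) (c : C), motive ((tinl A C).hom a * (tinr A C).hom c))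
    (add : ∀ x y, motive x → motive y → motive (x + y)) (z : tens A C) : motive z := by
  have h : ∀ z : A ⊗[κ] C, motive z := by
    intro z
    induction z using TensorProduct.induction_on with
    | zero => exact zero
    | tmul a c =>
      have e : (a ⊗ₜ[κ] c : A ⊗[κ] C) = (a ⊗ₜ 1) * (1 ⊗ₜ c) := by simp
      rw [e]
      exact tmul a c
    | add x y hx hy => exact add x y hx hy
  exact h z

lemma tmap_inl {A B : Alg κ} (f : A ⟶ B) (C : Alg κ) (a : A) :
    (tmap f C).hom ((tinl A C).hom a) = (tinl B C).hom (f.hom a) :=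
  congr(($(tinl_tmap f C)).hom a)

lemma tmap_inr {A B : Alg κ} (f : A ⟶ B) (C : Alg κ) (c : C) :
    (tmap f C).hom ((tinr A C).hom c) = (tinr B C).hom c :=
  congr(($(tinr_tmap f C)).hom c)

lemma tmap_tmap {A B D : Alg κ} (f : A ⟶ B) (g : B ⟶ D) (C : Alg κ) (x : tens A C) :
    (tmap g C).hom ((tmap f C).hom x) = (tmap (f ≫ g) C).hom x :=
  congr(($(tmap_comp f g C)).hom x)

lemma tmap_apply {A B : Alg κ} (f : A ⟶ B) (C : Alg κ) (x : tens A C) :
    (tmap f C).hom x = (f.hom.toLinearMap.rTensor C : A ⊗[κ] C →ₗ[κ] B ⊗[κ] C) x := by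
  have : tmap f C = CommAlgCat.ofHom (Algebra.TensorProduct.map f.hom (AlgHom.id κ C)) := by
    apply (isCoprod_tens A C).hom_ext
    · rw [tinl_tmap]
      ext y
      change f.hom y ⊗ₜ[κ] (1 : C) = Algebra.TensorProduct.map f.hom (AlgHom.id κ C) (y ⊗ₜ 1)
      rw [Algebra.TensorProduct.map_tmul, map_one]
    · rw [tinr_tmap]
      ext y
      change (1 : B) ⊗ₜ[κ] y = Algebra.TensorProduct.map f.hom (AlgHom.id κ C) (1 ⊗ₜ y)
      rw [Algebra.TensorProduct.map_tmul, map_one]
      rfl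
  rw [this]
  rfl

include hb hsurj in
/-- Elements of `C ⊗ E` come from a finite level. -/
theorem exists_level (E : Alg κ) (z : tens C E) :
    ∃ (i : I) (x : tens (B.obj i) E), (tmap (b i) E).hom x = z := by
  have hb' : ∀ {i j : I} (t : i ⟶ j) (x : tens (B.obj i) E),
      (tmap (b j) E).hom ((tmap (B.map t) E).hom x) = (tmap (b i) E).hom x := by
    intro i j t x
    rw [tmap_tmap, hb]
  induction z using tens_induction with
  | zero =>
    obtain ⟨i, x, hx⟩ := hsurj 0
    exact ⟨i, 0, map_zero _⟩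
  | tmul c e =>
    obtain ⟨i, x, hx⟩ := hsurj c
    refine ⟨i, (tinl _ _).hom x * (tinr _ _).hom e, ?_⟩
    rw [map_mul, tmap_inl, tmap_inr, hx]
  | add z w hz hw =>
    obtain ⟨i, x, hx⟩ := hz
    obtain ⟨j, y, hy⟩ := hw
    obtain ⟨k, hik, hjk⟩ := exists_ge_ge i j
    refine ⟨k, (tmap (B.map (homOfLE hik)) E).hom x + (tmap (B.map (homOfLE hjk)) E).hom y, ?_⟩
    rw [map_add, hb', hb', hx, hy]

include hker in
/-- The kernel of `B i ⊗ E ⟶ C ⊗ E`. -/
theorem exists_level_ker (E : Alg κ) (i : I) (x : tens (B.obj i) E)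
    (hx : (tmap (b i) E).hom x = 0) : ∃ (j : I) (t : i ⟶ j), (tmap (B.map t) E).hom x = 0 := by
  let K : Submodule κ (B.obj i) := LinearMap.ker (b i).hom.toLinearMap
  let ι : K ⊗[κ] E →ₗ[κ] tens (B.obj i) E := K.subtype.rTensor E
  have hι : ∀ (y : K) (e : E), ι (y ⊗ₜ e) = (tinl _ _).hom y.1 * (tinr _ _).hom e := by
    intro y e
    exact tmul_eq_mul y.1 e
  have hker' : ∀ w : K ⊗[κ] E, ∃ (j : I) (t : i ⟶ j), (tmap (B.map t) E).hom (ι w) = 0 := by
    intro w
    induction w using TensorProduct.induction_on with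
    | zero => exact ⟨i, 𝟙 i, by rw [map_zero, map_zero]⟩
    | tmul y e =>
      obtain ⟨j, t, hj⟩ := hker i y.1 y.2
      refine ⟨j, t, ?_⟩
      rw [hι, map_mul, tmap_inl, hj, map_zero, zero_mul]
    | add z w hz hw =>
      obtain ⟨j, t, hj⟩ := hz
      obtain ⟨j', t', hj'⟩ := hw
      obtain ⟨k, hjk, hj'k⟩ := exists_ge_ge j j'
      refine ⟨k, t ≫ homOfLE hjk, ?_⟩
      rw [map_add, map_add]
      have e₁ : (tmap (B.map (t ≫ homOfLE hjk)) E).hom (ι z) = 0 := by
        rw [B.map_comp, ← tmap_tmap, hj, map_zero]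
      have e₂ : (tmap (B.map (t ≫ homOfLE hjk)) E).hom (ι w) = 0 := by
        have : t ≫ homOfLE hjk = t' ≫ homOfLE hj'k := rfl
        rw [this, B.map_comp, ← tmap_tmap, hj', map_zero]
      rw [e₁, e₂, add_zero]
  have hexact := Module.Flat.rTensor_exact (R := κ) (M := E)
    (f := K.subtype) (g := (b i).hom.toLinearMap) (LinearMap.exact_subtype_ker_map _)
  rw [tmap_apply] at hx
  obtain ⟨w, hw⟩ := (hexact _).1 hx
  obtain ⟨j, t, hj⟩ := hker' w
  refine ⟨j, t, ?_⟩
  rw [← hw]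
  exact hj

end Colim

end Pool.Agent.H27
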