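import Pool.Agent.H27.Sections

/-!
# Pointed torsors form an essentially small category (S7d, exists_small)
-/

open CategoryTheory Limits

set_option linter.style.haveILetI false
set_option linter.unusedSimpArgs false

namespace Pool.Agent.H27

variable {κ : Type} [Field κ] {𝒳 : BasedCategory.{0, 1} (Alg κ)} {T : Type} [Category.{0} T]
  {v : T ⥤ 𝒳.obj}

namespace SmallT

/-! ### Algebras on subsets of a given set -/

/-- An algebra structure on a subset of `Z`. -/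
structure AlgOn (κ : Type) [Field κ] (Z : Type) where
  carrier : Set Z
  ring : CommRing carrier
  alg : @Algebra κ carrier _ ring.toCommSemiring.toSemiring

/-- The corresponding algebra. -/
def AlgOn.toAlg {Z : Type} (D : AlgOn κ Z) : Alg κ :=
  @CommAlgCat.of κ _ D.carrier D.ring D.alg

lemma exists_algOn {Z : Type} (A : Alg κ) (e : A ↪ Z) :
    ∃ D : AlgOn κ Z, Nonempty (D.toAlg ≅ A) := by
  let E : Set.range e ≃ A := (Equiv.ofInjective e e.injective).symm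
  letI r : CommRing (Set.range e) := E.commRing
  letI a : Algebra κ (Set.range e) := E.algebra κ
  exact ⟨⟨Set.range e, r, a⟩, ⟨CommAlgCat.isoMk (E.algEquiv κ)⟩⟩

/-- A set which contains all finite algebras over `A`. -/
def ZZ (A : Type) : Type := Σ n : ℕ, (Fin n → A)

lemma exists_emb {R A : Type} [CommRing R] [CommRing A] (f : R →+* A) (hf : f.Finite) :
    Nonempty (A ↪ ZZ R) := by
  letI := f.toAlgebra
  have h : Module.Finite R A := hf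
  obtain ⟨n, g, hg⟩ := Module.Finite.exists_fin' R A
  refine ⟨⟨fun x ↦ ⟨n, Function.surjInv hg x⟩, ?_⟩⟩
  intro x y hxy
  have h2 : Function.surjInv hg x = Function.surjInv hg y := by
    simpa [ZZ] using hxy
  exact Function.injective_surjInv hg h2

/-! ### Maps of tensor products -/

/-- Functoriality of the tensor product. -/
noncomputable def tensMap {A A' B B' : Alg κ} (f : A ⟶ A') (g : B ⟶ B') : tens A B ⟶ tens A' B' :=
  (isCoprod_tens A B).desc (f ≫ tinl A' B') (g ≫ tinr A' B')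

@[reassoc (attr := simp)]
lemma tinl_tensMap {A A' B B' : Alg κ} (f : A ⟶ A') (g : B ⟶ B') :
    tinl A B ≫ tensMap f g = f ≫ tinl A' B' := (isCoprod_tens A B).left_desc _ _

@[reassoc (attr := simp)]
lemma tinr_tensMap {A A' B B' : Alg κ} (f : A ⟶ A') (g : B ⟶ B') :
    tinr A B ≫ tensMap f g = g ≫ tinr A' B' := (isCoprod_tens A B).right_desc _ _

@[reassoc]
lemma tensMap_comp {A A' A'' B B' B'' : Alg κ} (f : A ⟶ A') (g : B ⟶ B') (f' : A' ⟶ A'')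
    (g' : B' ⟶ B'') : tensMap f g ≫ tensMap f' g' = tensMap (f ≫ f') (g ≫ g') := by
  apply (isCoprod_tens A B).hom_ext <;> simp

lemma tensMap_id {A B : Alg κ} : tensMap (𝟙 A) (𝟙 B) = 𝟙 _ := by
  apply (isCoprod_tens A B).hom_ext <;> simp

lemma tensMap_desc {A A' B B' C : Alg κ} (f : A ⟶ A') (g : B ⟶ B') (x : A' ⟶ C) (y : B' ⟶ C) :
    tensMap f g ≫ (isCoprod_tens A' B').desc x y = (isCoprod_tens A B).desc (f ≫ x) (g ≫ y) := by
  apply (isCoprod_tens A B).hom_ext <;> simp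

/-! ### The invariants -/

/-- The arrows from the charts to the overlap. -/
def jj (Ch : Charts v) : ∀ i, Ch.ch i ⟶ Ch.u₀₁
  | false => Ch.j₀
  | true => Ch.j₁

/-- The maps occurring in the invariants of a pointed torsor. -/
structure Maps (Ch : Charts v) (a' : T → Bool → 𝒳.obj) (H : Alg κ) (B : Bool → Alg κ)
    (B₀₁ : Alg κ) : Type where
  Δ : H ⟶ tens H H
  s : ∀ i, 𝒳.p.obj (Ch.ch i) ⟶ B i
  J : ∀ i, B i ⟶ B₀₁
  δ : ∀ i, B i ⟶ tens (B i) H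
  Y : ∀ (t : T) (i : Bool), B i ⟶ 𝒳.p.obj (a' t i)

variable {Ch : Charts v} {a' : T → Bool → 𝒳.obj}

/-- Compatibility of maps of algebras with the given structures. -/
structure MapsHom {H H' : Alg κ} {B B' : Bool → Alg κ} {B₀₁ B₀₁' : Alg κ}
    (m : Maps Ch a' H B B₀₁) (m' : Maps Ch a' H' B' B₀₁') (h : H ⟶ H') (f : ∀ i, B i ⟶ B' i)
    (f₀₁ : B₀₁ ⟶ B₀₁') : Prop where
  Δ : m.Δ ≫ tensMap h h = h ≫ m'.Δ
  s : ∀ i, m.s i ≫ f i = m'.s i
  J : ∀ i, m.J i ≫ f₀₁ = f i ≫ m'.J i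
  δ : ∀ i, m.δ i ≫ tensMap (f i) h = f i ≫ m'.δ i
  Y : ∀ t i, f i ≫ m'.Y t i = m.Y t i

lemma MapsHom.comp {H H' H'' : Alg κ} {B B' B'' : Bool → Alg κ} {B₀₁ B₀₁' B₀₁'' : Alg κ}
    {m : Maps Ch a' H B B₀₁} {m' : Maps Ch a' H' B' B₀₁'} {m'' : Maps Ch a' H'' B'' B₀₁''}
    {h : H ⟶ H'} {f : ∀ i, B i ⟶ B' i} {f₀₁ : B₀₁ ⟶ B₀₁'} {h' : H' ⟶ H''}
    {f' : ∀ i, B' i ⟶ B'' i} {f₀₁' : B₀₁' ⟶ B₀₁''} (x : MapsHom m m' h f f₀₁)
    (y : MapsHom m' m'' h' f' f₀₁') :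
    MapsHom m m'' (h ≫ h') (fun i ↦ f i ≫ f' i) (f₀₁ ≫ f₀₁') where
  Δ := by rw [← tensMap_comp, ← Category.assoc, x.Δ, Category.assoc, y.Δ, Category.assoc]
  s i := by rw [← Category.assoc, x.s, y.s]
  J i := by rw [← Category.assoc, x.J, Category.assoc, y.J, Category.assoc]
  δ i := by rw [← tensMap_comp, ← Category.assoc, x.δ, Category.assoc, y.δ, Category.assoc]
  Y t i := by rw [Category.assoc, y.Y, x.Y]

/-- Transport of structure. -/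
lemma exists_transport {H H' : Alg κ} {B B' : Bool → Alg κ} {B₀₁ B₀₁' : Alg κ}
    (m : Maps Ch a' H B B₀₁) (h : H' ≅ H) (f : ∀ i, B' i ≅ B i) (f₀₁ : B₀₁' ≅ B₀₁) :
    ∃ m' : Maps Ch a' H' B' B₀₁', MapsHom m' m h.hom (fun i ↦ (f i).hom) f₀₁.hom ∧
      MapsHom m m' h.inv (fun i ↦ (f i).inv) f₀₁.inv := by
  refine ⟨{ Δ := h.hom ≫ m.Δ ≫ tensMap h.inv h.inv
            s := fun i ↦ m.s i ≫ (f i).inv
            J := fun i ↦ (f i).hom ≫ m.J i ≫ f₀₁.inv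
            δ := fun i ↦ (f i).hom ≫ m.δ i ≫ tensMap (f i).inv h.inv
            Y := fun t i ↦ (f i).hom ≫ m.Y t i }, ?_, ?_⟩
  · constructor <;> intros <;> simp [tensMap_comp, tensMap_id]
  · constructor <;> intros <;> simp [tensMap_comp, tensMap_id]

/-! ### The invariants of a pointed torsor -/

/-- The action in terms of the universal point. -/
lemma act_eq (P : PTors v) {a : 𝒳.obj} {C : Alg κ} (b : P.B.obj a ⟶ C) (g : P.G.H ⟶ C) :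
    P.act b g = P.act (tinl (P.B.obj a) P.G.H) (tinr (P.B.obj a) P.G.H) ≫
      (isCoprod_tens _ _).desc b g := by
  rw [P.act_comp]
  simp

lemma mul_eq (G : FinGrp κ) {C : Alg κ} (g g' : G.H ⟶ C) :
    g * g' = (tinl G.H G.H * tinr G.H G.H) ≫ (isCoprod_tens _ _).desc g g' := by
  rw [G.mul_comp]
  simp

section

variable (Ch) {ζ : ∀ t i, v.obj t ⟶ a' t i} (q : ∀ t i, Ch.ch i ⟶ a' t i)

/-- The base change of the section `P.y t`. -/
noncomputable def yy (P : PTors v) {t : T} {b : 𝒳.obj} (ψ : v.obj t ⟶ b) :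
    P.B.obj b ⟶ 𝒳.p.obj b :=
  (P.isPushout ψ).desc (𝟙 _) (P.y t ≫ 𝒳.p.map ψ) (by
    rw [Category.comp_id, ← Category.assoc, P.s_y, Category.id_comp])

lemma s_yy (P : PTors v) {t : T} {b : 𝒳.obj} (ψ : v.obj t ⟶ b) : P.s.app b ≫ yy P ψ = 𝟙 _ :=
  (P.isPushout ψ).inl_desc _ _ _

lemma B_yy (P : PTors v) {t : T} {b : 𝒳.obj} (ψ : v.obj t ⟶ b) :
    P.B.map ψ ≫ yy P ψ = P.y t ≫ 𝒳.p.map ψ :=
  (P.isPushout ψ).inr_desc _ _ _

/-- The structure maps of a pointed torsor. -/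
noncomputable def mapsOf (ζ : ∀ t i, v.obj t ⟶ a' t i) (P : PTors v) :
    Maps Ch a' P.G.H (fun i ↦ P.B.obj (Ch.ch i)) (P.B.obj Ch.u₀₁) where
  Δ := tinl _ _ * tinr _ _
  s i := P.s.app (Ch.ch i)
  J i := P.B.map (jj Ch i)
  δ i := P.act (tinl _ _) (tinr _ _)
  Y t i := P.B.map (q t i) ≫ yy P (ζ t i)

end

lemma existsUnique_natTrans' (hX : IsCofiberedInGroupoids 𝒳) (Ch : Charts v)
    {B B' : 𝒳.obj ⥤ Alg κ} (s : 𝒳.p ⟶ B) (s' : 𝒳.p ⟶ B')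
    (hB : ∀ {a a' : 𝒳.obj} (ψ : a ⟶ a'), IsPushout (𝒳.p.map ψ) (s.app a) (s.app a') (B.map ψ))
    (hB' : ∀ {a a' : 𝒳.obj} (ψ : a ⟶ a'), IsPushout (𝒳.p.map ψ) (s'.app a) (s'.app a') (B'.map ψ))
    (f : ∀ i, B.obj (Ch.ch i) ⟶ B'.obj (Ch.ch i))
    (f₀₁ : B.obj Ch.u₀₁ ⟶ B'.obj Ch.u₀₁) (hf : ∀ i, s.app _ ≫ f i = s'.app _)
    (h : ∀ i, B.map (jj Ch i) ≫ f₀₁ = f i ≫ B'.map (jj Ch i)) :
    ∃! F : B ⟶ B', (∀ a, s.app a ≫ F.app a = s'.app a) ∧ ∀ i, F.app (Ch.ch i) = f i := by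
  obtain ⟨F, ⟨h₁, h₂, h₃⟩, h₄⟩ := Ch.existsUnique_natTrans hX B B' s s' hB hB' (f false) (f true)
    f₀₁ (hf false) (hf true) (h false) (h true)
  refine ⟨F, ⟨h₁, fun i ↦ ?_⟩, ?_⟩
  · match i with
    | false => exact h₂
    | true => exact h₃
  · rintro G ⟨hG₁, hG₂⟩
    exact h₄ G ⟨hG₁, hG₂ false, hG₂ true⟩

/-- Morphisms between the invariants give morphisms of pointed torsors. -/
theorem exists_pHom (hX : IsCofiberedInGroupoids 𝒳) {ζ : ∀ t i, v.obj t ⟶ a' t i}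
    {q : ∀ t i, Ch.ch i ⟶ a' t i}
    (hc : ∀ t, IsFpqcCover (fun i ↦ 𝒳.p.obj (a' t i)) (fun i ↦ 𝒳.p.map (ζ t i)))
    {P Q : PTors v} {h : Q.G.H ⟶ P.G.H} {f : ∀ i, Q.B.obj (Ch.ch i) ⟶ P.B.obj (Ch.ch i)}
    {f₀₁ : Q.B.obj Ch.u₀₁ ⟶ P.B.obj Ch.u₀₁}
    (H : MapsHom (mapsOf Ch q ζ Q) (mapsOf Ch q ζ P) h f f₀₁) :
    ∃ α : PHom P Q, α.h = h ∧ ∀ i, α.f.app (Ch.ch i) = f i := by
  obtain ⟨F, ⟨hF₁, hF₂⟩, -⟩ := existsUnique_natTrans' hX Ch Q.s P.s Q.isPushout P.isPushout f f₀₁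
    H.s H.J
  -- equivariance on the charts
  have act₀ : ∀ (i : Bool) {C : Alg κ} (b : P.B.obj (Ch.ch i) ⟶ C) (g : P.G.H ⟶ C),
      f i ≫ P.act b g = Q.act (f i ≫ b) (h ≫ g) := by
    intro i C b g
    rw [act_eq, act_eq Q, ← tensMap_desc, ← Category.assoc, ← Category.assoc]
    congr 1
    exact (H.δ i).symm
  -- equivariance on objects receiving an arrow from a chart
  have act₁ : ∀ (i : Bool) {a : 𝒳.obj} (_ : Ch.ch i ⟶ a) {C : Alg κ} (b : P.B.obj a ⟶ C)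
      (g : P.G.H ⟶ C), F.app a ≫ P.act b g = Q.act (F.app a ≫ b) (h ≫ g) := by
    intro i a r C b g
    apply (Q.isPushout r).hom_ext
    · rw [← Category.assoc, hF₁, P.s_act, Q.s_act, ← Category.assoc, hF₁]
    · rw [← Category.assoc, F.naturality, Category.assoc, P.map_act, hF₂, act₀, Q.map_act,
        ← Category.assoc, ← Category.assoc, F.naturality, hF₂]
  -- equivariance in general
  have act₂ : ∀ {a : 𝒳.obj} {C : Alg κ} (b : P.B.obj a ⟶ C)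
      (g : P.G.H ⟶ C), F.app a ≫ P.act b g = Q.act (F.app a ≫ b) (h ≫ g) := by
    intro a C b g
    obtain ⟨a₁, ζ₁, q₁, hc₁⟩ := Ch.exists_cover a
    have hp := fun i ↦ IsPushout.of_hasPushout (𝒳.p.map (ζ₁ i)) (P.s.app a ≫ b)
    have hcov := hc₁.baseChange (P.s.app a ≫ b) hp
    apply hcov.hom_ext
    intro i
    -- the point over the pushout
    obtain ⟨b', hb₁, hb₂⟩ : ∃ b' : P.B.obj (a₁ i) ⟶ pushout (𝒳.p.map (ζ₁ i)) (P.s.app a ≫ b),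
        P.s.app (a₁ i) ≫ b' = pushout.inl _ _ ∧ P.B.map (ζ₁ i) ≫ b' = b ≫ pushout.inr _ _ := by
      have e := (hp i).w
      rw [Category.assoc] at e
      exact ⟨(P.isPushout (ζ₁ i)).desc _ _ e, (P.isPushout (ζ₁ i)).inl_desc _ _ _,
        (P.isPushout (ζ₁ i)).inr_desc _ _ _⟩
    rw [Category.assoc, P.act_comp, ← hb₂, ← P.map_act, ← Category.assoc, ← F.naturality,
      Category.assoc, act₁ i (q₁ i), Q.act_comp, Q.map_act, ← Category.assoc, F.naturality,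
      Category.assoc, hb₂, Category.assoc, Category.assoc]
  refine ⟨{ h := h, f := F, h_mul := ?_, s_f := hF₁, f_act := act₂, f_y := ?_ }, rfl, hF₂⟩
  · intro C g g'
    rw [mul_eq P.G g g', mul_eq Q.G, ← tensMap_desc, ← Category.assoc, ← Category.assoc]
    congr 1
    exact H.Δ.symm
  · intro t
    apply (hc t).hom_ext
    intro i
    have key : F.app (a' t i) ≫ yy P (ζ t i) = yy Q (ζ t i) := by
      apply (Q.isPushout (q t i)).hom_ext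
      · rw [← Category.assoc, hF₁, s_yy, s_yy]
      · rw [← Category.assoc, F.naturality, Category.assoc, hF₂]
        exact H.Y t i
    rw [Category.assoc, ← B_yy, ← Category.assoc, ← F.naturality, Category.assoc, key, B_yy]

/-- Isomorphic invariants give isomorphic pointed torsors. -/
theorem nonempty_iso (hX : IsCofiberedInGroupoids 𝒳) {ζ : ∀ t i, v.obj t ⟶ a' t i}
    {q : ∀ t i, Ch.ch i ⟶ a' t i}
    (hc : ∀ t, IsFpqcCover (fun i ↦ 𝒳.p.obj (a' t i)) (fun i ↦ 𝒳.p.map (ζ t i)))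
    {P Q : PTors v} (h : Q.G.H ≅ P.G.H) (f : ∀ i, Q.B.obj (Ch.ch i) ≅ P.B.obj (Ch.ch i))
    (f₀₁ : Q.B.obj Ch.u₀₁ ≅ P.B.obj Ch.u₀₁)
    (H : MapsHom (mapsOf Ch q ζ Q) (mapsOf Ch q ζ P) h.hom (fun i ↦ (f i).hom) f₀₁.hom)
    (H' : MapsHom (mapsOf Ch q ζ P) (mapsOf Ch q ζ Q) h.inv (fun i ↦ (f i).inv) f₀₁.inv) :
    Nonempty (P ≅ Q) := by
  obtain ⟨α, hα₁, hα₂⟩ := exists_pHom hX hc H
  obtain ⟨β, hβ₁, hβ₂⟩ := exists_pHom hX hc H'
  have key : ∀ (R : PTors v) (F : R.B ⟶ R.B), (∀ a, R.s.app a ≫ F.app a = R.s.app a) →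
      (∀ i, F.app (Ch.ch i) = 𝟙 _) → F = 𝟙 _ := by
    intro R F h₁ h₂
    exact (existsUnique_natTrans' hX Ch R.s R.s R.isPushout R.isPushout (fun i ↦ 𝟙 _) (𝟙 _)
      (fun i ↦ by simp) (fun i ↦ by simp)).unique ⟨h₁, h₂⟩ ⟨fun a ↦ by simp, fun i ↦ by simp⟩
  refine ⟨⟨(α : P ⟶ Q), (β : Q ⟶ P), ?_, ?_⟩⟩
  · apply PHom.ext
    · change β.h ≫ α.h = 𝟙 _
      rw [hα₁, hβ₁]; simp
    · change β.f ≫ α.f = 𝟙 _
      apply key
      · intro a
        rw [NatTrans.comp_app, ← Category.assoc, β.s_f, α.s_f]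
      · intro i
        rw [NatTrans.comp_app, hα₂, hβ₂]; simp
  · apply PHom.ext
    · change α.h ≫ β.h = 𝟙 _
      rw [hα₁, hβ₁]; simp
    · change α.f ≫ β.f = 𝟙 _
      apply key
      · intro a
        rw [NatTrans.comp_app, ← Category.assoc, α.s_f, β.s_f]
      · intro i
        rw [NatTrans.comp_app, hα₂, hβ₂]; simp

/-- The small set of possible invariants. -/
structure SData (Ch : Charts v) (a' : T → Bool → 𝒳.obj) : Type where
  H : AlgOn κ (ZZ κ)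
  B : ∀ i, AlgOn κ (ZZ (𝒳.p.obj (Ch.ch i)))
  B₀₁ : AlgOn κ (ZZ (𝒳.p.obj Ch.u₀₁))
  m : Maps Ch a' H.toAlg (fun i ↦ (B i).toAlg) B₀₁.toAlg

end SmallT

open SmallT in
/-- The (reduced) pointed torsors form an essentially small category. -/
theorem exists_small (hX : IsCofiberedInGroupoids 𝒳) (Ch : Charts v) :
    ∃ (S : Type) (R : S → PTors v), ∀ P : PTors v, ∃ i, Nonempty (R i ≅ P) := by
  choose a' ζ q hc using fun t : T ↦ Ch.exists_cover (v.obj t)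
  let Rel : PTors v → SData Ch a' → Prop := fun P d ↦
    ∃ (h : d.H.toAlg ≅ P.G.H) (f : ∀ i, (d.B i).toAlg ≅ P.B.obj (Ch.ch i))
      (f₀₁ : d.B₀₁.toAlg ≅ P.B.obj Ch.u₀₁),
      MapsHom d.m (mapsOf Ch q ζ P) h.hom (fun i ↦ (f i).hom) f₀₁.hom ∧
      MapsHom (mapsOf Ch q ζ P) d.m h.inv (fun i ↦ (f i).inv) f₀₁.inv
  have h₁ : ∀ P : PTors v, ∃ d, Rel P d := by
    intro P
    obtain ⟨eH⟩ : Nonempty (P.G.H ↪ ZZ κ) := by
      refine exists_emb (algebraMap κ P.G.H) ?_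
      rw [RingHom.finite_algebraMap]
      exact P.G.finite
    obtain ⟨H, ⟨h⟩⟩ := exists_algOn P.G.H eH
    have hB : ∀ i, ∃ D : AlgOn κ (ZZ (𝒳.p.obj (Ch.ch i))),
        Nonempty (D.toAlg ≅ P.B.obj (Ch.ch i)) := by
      intro i
      obtain ⟨e⟩ := exists_emb _ (P.finite (Ch.ch i))
      exact exists_algOn _ e
    choose B f using hB
    obtain ⟨e₀₁⟩ := exists_emb _ (P.finite Ch.u₀₁)
    obtain ⟨B₀₁, ⟨f₀₁⟩⟩ := exists_algOn _ e₀₁
    obtain ⟨m, hm₁, hm₂⟩ := exists_transport (mapsOf Ch q ζ P) h (fun i ↦ (f i).some) f₀₁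
    exact ⟨⟨H, B, B₀₁, m⟩, h, fun i ↦ (f i).some, f₀₁, hm₁, hm₂⟩
  refine ⟨{d : SData Ch a' // ∃ P, Rel P d}, fun d ↦ d.2.choose, fun P ↦ ?_⟩
  obtain ⟨d, hd⟩ := h₁ P
  refine ⟨⟨d, P, hd⟩, ?_⟩
  obtain ⟨h, f, f₀₁, hh, hh'⟩ := id hd
  obtain ⟨h', f', f₀₁', k, k'⟩ := (⟨P, hd⟩ : ∃ P, Rel P d).choose_spec
  exact nonempty_iso hX hc (h.symm ≪≫ h') (fun i ↦ (f i).symm ≪≫ f' i) (f₀₁.symm ≪≫ f₀₁')
    (hh'.comp k) (k'.comp hh)

end Pool.Agent.H27
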