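import Pool.Agent.H27.DescentAlg

set_option linter.unusedSectionVars false
set_option linter.style.haveILetI false

open CategoryTheory AlgebraicGeometry Limits Bicategory
open scoped TensorProduct

namespace Pool.Agent.H27

variable {κ : Type} [Field κ]

section Push

variable {I : Type} [Preorder I] {G : GrpDiag κ I}

/-- The algebras of the base change. -/
noncomputable def pushB (x : Tors G) {C : Alg κ} (f : x.base ⟶ C) : I ⥤ Alg κ where
  obj := fun i ↦ pushout (x.s i) f
  map := fun {i j} t ↦ pushout.desc (x.B.map t ≫ pushout.inl (x.s j) f) (pushout.inr (x.s j) f)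
        (by rw [← Category.assoc, x.s_comp, pushout.condition])
  map_id := fun i ↦ by
        apply pushout.hom_ext <;> simp
  map_comp := fun {i j k} a b ↦ by
    apply pushout.hom_ext
    · rw [pushout.inl_desc, pushout.inl_desc_assoc, Category.assoc, pushout.inl_desc,
        ← Category.assoc, ← Functor.map_comp]
    · rw [pushout.inr_desc, pushout.inr_desc_assoc, pushout.inr_desc]

/-- The first coprojection. -/
noncomputable def pushU (x : Tors G) {C : Alg κ} (f : x.base ⟶ C) : x.B ⟶ pushB x f where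
  app i := pushout.inl (x.s i) f
  naturality i j t := (pushout.inl_desc _ _ _).symm

/-- The second coprojection. -/
noncomputable def pushS (x : Tors G) {C : Alg κ} (f : x.base ⟶ C) (i : I) :
    C ⟶ (pushB x f).obj i := pushout.inr (x.s i) f

lemma pushS_comp (x : Tors G) {C : Alg κ} (f : x.base ⟶ C) {i j : I} (t : i ⟶ j) :
    pushS x f i ≫ (pushB x f).map t = pushS x f j := pushout.inr_desc _ _ _

lemma push_isPushout (x : Tors G) {C : Alg κ} (f : x.base ⟶ C) (i : I) :
    IsPushout (x.s i) f ((pushU x f).app i) (pushS x f i) :=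
  IsPushout.of_hasPushout (x.s i) f

/-- Base change of a family of torsors. -/
@[reducible] noncomputable def Tors.push (x : Tors G) {C : Alg κ} (f : x.base ⟶ C) : Tors G where
  base := C
  B := pushB x f
  s := pushS x f
  s_comp := pushS_comp x f
  act i C b g := (push_isPushout x f i).desc (x.act i ((pushU x f).app i ≫ b) g)
    (pushS x f i ≫ b) (by
      rw [x.s_act, ← Category.assoc, (push_isPushout x f i).w, Category.assoc])
  act_one i C b := by
    apply (push_isPushout x f i).hom_ext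
    · rw [IsPushout.inl_desc, x.act_one]
    · rw [IsPushout.inr_desc]
  act_mul i C b g g' := by
    apply (push_isPushout x f i).hom_ext
    · simp only [IsPushout.inl_desc, x.act_mul]
    · simp only [IsPushout.inr_desc]
  act_comp i C D b g h := by
    apply (push_isPushout x f i).hom_ext
    · rw [IsPushout.inl_desc, IsPushout.inl_desc_assoc, x.act_comp, Category.assoc]
    · rw [IsPushout.inr_desc, IsPushout.inr_desc_assoc, Category.assoc]
  comp_act {i j} t C b g := by
    apply (push_isPushout x f i).hom_ext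
    · rw [IsPushout.inl_desc, ← NatTrans.naturality_assoc, IsPushout.inl_desc, x.comp_act,
        NatTrans.naturality_assoc]
    · rw [IsPushout.inr_desc, ← Category.assoc, pushS_comp, IsPushout.inr_desc, ← Category.assoc,
        pushS_comp]
  s_act i C b g := IsPushout.inr_desc _ _ _ _
  trans i C b b' h := by
    obtain ⟨g, hg, hu⟩ := x.trans i ((pushU x f).app i ≫ b) ((pushU x f).app i ≫ b') (by
      rw [← Category.assoc, ← Category.assoc, (push_isPushout x f i).w, Category.assoc,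
        Category.assoc, h])
    refine ⟨g, ?_, ?_⟩
    · apply (push_isPushout x f i).hom_ext
      · rw [IsPushout.inl_desc, hg]
      · rw [IsPushout.inr_desc, h]
    · intro g' hg'
      apply hu
      have := congrArg (fun t ↦ (pushU x f).app i ≫ t) hg'
      rw [IsPushout.inl_desc] at this
      exact this
  ff i := ff_of_isPushout (push_isPushout x f i) (x.ff i)

lemma Tors.inl_push_act (x : Tors G) {C D : Alg κ} (f : x.base ⟶ C) (i : I)
    (b : (x.push f).B.obj i ⟶ D) (g : G.H.obj i ⟶ D) :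
    (pushU x f).app i ≫ (x.push f).act i b g = x.act i ((pushU x f).app i ≫ b) g :=
  IsPushout.inl_desc _ _ _ _

/-- The arrow from `x` to its base change. -/
@[reducible] noncomputable def Tors.pushHom (x : Tors G) {C : Alg κ} (f : x.base ⟶ C) : x ⟶ x.push f :=
  TorsHom.mk (y := x.push f) f (pushU x f) (fun i ↦ (push_isPushout x f i).w.symm)
    (fun i C b g ↦ x.inl_push_act f i b g)

@[simp] lemma Tors.push_base (x : Tors G) {C : Alg κ} (f : x.base ⟶ C) : (x.push f).base = C := rfl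

@[simp] lemma Tors.pushHom_base (x : Tors G) {C : Alg κ} (f : x.base ⟶ C) :
  TorsHom.base (x.pushHom f) = f := rfl

lemma TorsHom.comm_assoc {x y : Tors G} (φ : x ⟶ y) (i : I) {C : Alg κ} (c : y.B.obj i ⟶ C) :
    TorsHom.base φ ≫ y.s i ≫ c = x.s i ≫ (TorsHom.hom φ).app i ≫ c := by
  rw [← Category.assoc, TorsHom.comm φ i, Category.assoc]

/-- Uniqueness in the universal property. -/
lemma TorsHom.uniq {x y : Tors G} (φ : x ⟶ y) (i : I) {C : Alg κ} (d d' : y.B.obj i ⟶ C)
    (h : (TorsHom.hom φ).app i ≫ d = (TorsHom.hom φ).app i ≫ d') (h' : y.s i ≫ d = y.s i ≫ d') :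
    d = d' := by
  obtain ⟨g, hg, -⟩ := y.trans i d d' h'
  obtain ⟨g', hg', hu⟩ := x.trans i ((TorsHom.hom φ).app i ≫ d) ((TorsHom.hom φ).app i ≫ d) rfl
  have h1 : x.act i ((TorsHom.hom φ).app i ≫ d) g = (TorsHom.hom φ).app i ≫ d := by
    rw [← TorsHom.equi, hg, h]
  have h2 : g = 1 := (hu g h1).trans (hu 1 (x.act_one i _)).symm
  rw [← hg, h2, y.act_one]

/-- Every morphism of torsors is cocartesian. -/
theorem TorsHom.isPushout {x y : Tors G} (φ : x ⟶ y) (i : I) :
    IsPushout (x.s i) (TorsHom.base φ) ((TorsHom.hom φ).app i) (y.s i) := by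
  have key : ∀ {C : Alg κ} (b : x.B.obj i ⟶ C) (c : y.base ⟶ C),
      x.s i ≫ b = TorsHom.base φ ≫ c →
      ∃ d : y.B.obj i ⟶ C, (TorsHom.hom φ).app i ≫ d = b ∧ y.s i ≫ d = c := by
    intro C b c hbc
    have hp := IsPushout.of_hasPushout (y.s i) c
    have hff := ff_of_isPushout hp (y.ff i)
    have hcov := IsFpqcCover.single _ hff
    obtain ⟨g, hg, -⟩ := x.trans i ((TorsHom.hom φ).app i ≫ pushout.inl (y.s i) c)
      (b ≫ pushout.inr (y.s i) c) (by
        rw [← TorsHom.comm_assoc, hp.w, ← Category.assoc, ← hbc, Category.assoc])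
    have h1 : (TorsHom.hom φ).app i ≫ y.act i (pushout.inl (y.s i) c) g =
        b ≫ pushout.inr (y.s i) c := by
      rw [TorsHom.equi, hg]
    have h2 : y.s i ≫ y.act i (pushout.inl (y.s i) c) g = c ≫ pushout.inr (y.s i) c := by
      rw [y.s_act, hp.w]
    obtain ⟨d, hd, -⟩ := alg_hom_descent (fun _ : Unit ↦ pushout.inr (y.s i) c) hcov (y.B.obj i)
      (fun _ ↦ y.act i (pushout.inl (y.s i) c) g) (by
        intro _ _ E a a' haa
        apply TorsHom.uniq φ
        · rw [← Category.assoc, ← Category.assoc, h1, Category.assoc, Category.assoc, haa]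
        · rw [← Category.assoc, ← Category.assoc, h2, Category.assoc, Category.assoc, haa])
    refine ⟨d, ?_, ?_⟩
    · apply hcov.hom_ext
      intro u
      rw [Category.assoc, hd u, h1]
    · apply hcov.hom_ext
      intro u
      rw [Category.assoc, hd u, h2]
  refine ⟨⟨(TorsHom.comm φ i).symm⟩, ⟨PushoutCocone.IsColimit.mk _
    (fun s ↦ (key s.inl s.inr s.condition).choose)
    (fun s ↦ (key s.inl s.inr s.condition).choose_spec.1)
    (fun s ↦ (key s.inl s.inr s.condition).choose_spec.2) ?_⟩⟩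
  intro s m h1 h2
  apply TorsHom.uniq φ
  · rw [h1, (key s.inl s.inr s.condition).choose_spec.1]
  · rw [h2, (key s.inl s.inr s.condition).choose_spec.2]

/-- Two arrows with the same source, one of which lies below the other. -/
noncomputable def TorsHom.desc {x y z : Tors G} (φ : x ⟶ y) (ψ : x ⟶ z) (g : y.base ⟶ z.base)
    (h : TorsHom.base φ ≫ g = TorsHom.base ψ) : y ⟶ z :=
  TorsHom.mk (x := y) (y := z) g
    { app := fun i ↦ (TorsHom.isPushout φ i).desc ((TorsHom.hom ψ).app i) (g ≫ z.s i) (by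
        rw [← Category.assoc, h, TorsHom.comm ψ i])
      naturality := fun i j t ↦ by
        apply (TorsHom.isPushout φ i).hom_ext
        · rw [← NatTrans.naturality_assoc, IsPushout.inl_desc, IsPushout.inl_desc_assoc,
            NatTrans.naturality]
        · rw [← Category.assoc, y.s_comp, IsPushout.inr_desc, IsPushout.inr_desc_assoc,
            Category.assoc, z.s_comp] }
    (fun i ↦ by
      change g ≫ z.s i = y.s i ≫ (TorsHom.isPushout φ i).desc _ _ _
      rw [IsPushout.inr_desc])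
    (fun i C b k ↦ by
      change (TorsHom.isPushout φ i).desc _ _ _ ≫ _ =
        y.act i ((TorsHom.isPushout φ i).desc _ _ _ ≫ b) k
      apply (TorsHom.isPushout φ i).hom_ext
      · rw [IsPushout.inl_desc_assoc, TorsHom.equi, TorsHom.equi, IsPushout.inl_desc_assoc]
      · rw [IsPushout.inr_desc_assoc, y.s_act, IsPushout.inr_desc_assoc, Category.assoc, z.s_act,
          Category.assoc])

@[simp] lemma TorsHom.desc_base {x y z : Tors G} (φ : x ⟶ y) (ψ : x ⟶ z) (g : y.base ⟶ z.base)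
    (h : TorsHom.base φ ≫ g = TorsHom.base ψ) : TorsHom.base (TorsHom.desc φ ψ g h) = g := rfl

@[simp] lemma TorsHom.comp_base {x y z : Tors G} (φ : x ⟶ y) (ψ : y ⟶ z) :
    TorsHom.base (φ ≫ ψ) = TorsHom.base φ ≫ TorsHom.base ψ := rfl

@[simp] lemma TorsHom.comp_hom {x y z : Tors G} (φ : x ⟶ y) (ψ : y ⟶ z) :
    TorsHom.hom (φ ≫ ψ) = TorsHom.hom φ ≫ TorsHom.hom ψ := rfl

lemma TorsHom.hom_desc {x y z : Tors G} (φ : x ⟶ y) (ψ : x ⟶ z) (g : y.base ⟶ z.base)
    (h : TorsHom.base φ ≫ g = TorsHom.base ψ) (i : I) :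
    (TorsHom.hom φ).app i ≫ (TorsHom.hom (TorsHom.desc φ ψ g h)).app i =
      (TorsHom.hom ψ).app i :=
  IsPushout.inl_desc _ _ _ _

lemma TorsHom.fac {x y z : Tors G} (φ : x ⟶ y) (ψ : x ⟶ z) (g : y.base ⟶ z.base)
    (h : TorsHom.base φ ≫ g = TorsHom.base ψ) : φ ≫ TorsHom.desc φ ψ g h = ψ := by
  apply TorsHom.ext
  · exact h
  · ext i : 2
    exact TorsHom.hom_desc φ ψ g h i

lemma TorsHom.hom_ext {x y z : Tors G} (φ : x ⟶ y) (χ χ' : y ⟶ z)
    (h : TorsHom.base χ = TorsHom.base χ') (h' : φ ≫ χ = φ ≫ χ') : χ = χ' := by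
  apply TorsHom.ext
  · exact h
  · ext i : 2
    apply (TorsHom.isPushout φ i).hom_ext
    · exact congrArg (fun t ↦ (TorsHom.hom t).app i) h'
    · rw [← TorsHom.comm χ i, ← TorsHom.comm χ' i, h]

lemma torsCat_isCofibered : IsCofiberedInGroupoids (TorsCat G) where
  exists_push x B f := ⟨Tors.push (G := G) x f, Tors.pushHom (G := G) x f,
    Functor.IsHomLift.map (p := (TorsCat G).p) (Tors.pushHom (G := G) x f)⟩
  exists_desc {x y z} φ ψ g h := by
    refine ⟨TorsHom.desc (G := G) φ ψ g h, ⟨rfl, TorsHom.fac (G := G) φ ψ g h⟩, ?_⟩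
    rintro χ ⟨h1, h2⟩
    exact TorsHom.hom_ext (G := G) φ χ _ h1 (h2.trans (TorsHom.fac (G := G) φ ψ g h).symm)

end Push

section TorsDescent

variable {I : Type} [Preorder I] {G : GrpDiag κ I}

/-- The cover of `B t` induced by a cover of the base. -/
lemma tors_cover {z : Tors G} {ι : Type} {x : ι → Tors G} {ζ : ∀ i, z ⟶ x i}
    (hcov : IsFpqcCover (fun i ↦ (x i).base) (fun i ↦ TorsHom.base (ζ i))) (t : I) :
    IsFpqcCover (fun i ↦ (x i).B.obj t) (fun i ↦ (TorsHom.hom (ζ i)).app t) :=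
  hcov.baseChange (z.s t) (fun i ↦ (TorsHom.isPushout (ζ i) t).flip)

theorem tors_hom_descent {w z : Tors G} {ι : Type} (x : ι → Tors G) (ζ : ∀ i, z ⟶ x i)
    (hcov : IsFpqcCover (fun i ↦ (x i).base) (fun i ↦ TorsHom.base (ζ i)))
    (g : ∀ i, w ⟶ x i) (h₀ : w.base ⟶ z.base)
    (hh : ∀ i, h₀ ≫ TorsHom.base (ζ i) = TorsHom.base (g i))
    (hc : ∀ (i j : ι) (y : Tors G) (φ : x i ⟶ y) (ψ : x j ⟶ y),
      ζ i ≫ φ = ζ j ≫ ψ → g i ≫ φ = g j ≫ ψ) :
    ∃! h : w ⟶ z, TorsHom.base h = h₀ ∧ ∀ i, h ≫ ζ i = g i := by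
  have hcov' := tors_cover hcov
  have hcompat : ∀ (t : I) (i j : ι) (C : Alg κ) (a : (x i).B.obj t ⟶ C) (b : (x j).B.obj t ⟶ C),
      (TorsHom.hom (ζ i)).app t ≫ a = (TorsHom.hom (ζ j)).app t ≫ b →
      (TorsHom.hom (g i)).app t ≫ a = (TorsHom.hom (g j)).app t ≫ b := by
    intro t i j C a b hab
    let l := pushout.inl (TorsHom.base (ζ i)) (TorsHom.base (ζ j))
    let r := pushout.inr (TorsHom.base (ζ i)) (TorsHom.base (ζ j))
    have hlr : TorsHom.base (ζ i) ≫ l = TorsHom.base (ζ j) ≫ r := pushout.condition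
    let φ := (x i).pushHom l
    let ψ : x j ⟶ (x i).push l := TorsHom.desc (ζ j) (ζ i ≫ φ) r hlr.symm
    have hφψ : ζ i ≫ φ = ζ j ≫ ψ := (TorsHom.fac _ _ _ _).symm
    have hg := hc i j _ φ ψ hφψ
    have he0 : TorsHom.base (ζ i) ≫ (x i).s t ≫ a = TorsHom.base (ζ j) ≫ (x j).s t ≫ b := by
      rw [TorsHom.comm_assoc, TorsHom.comm_assoc, hab]
    let e₀ := pushout.desc ((x i).s t ≫ a) ((x j).s t ≫ b) he0
    have hle : l ≫ e₀ = (x i).s t ≫ a := pushout.inl_desc _ _ _
    have hre : r ≫ e₀ = (x j).s t ≫ b := pushout.inr_desc _ _ _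
    let e := (TorsHom.isPushout φ t).desc a e₀ hle.symm
    have he1 : (TorsHom.hom φ).app t ≫ e = a := IsPushout.inl_desc _ _ _ _
    have he2 : ((x i).push l).s t ≫ e = e₀ := IsPushout.inr_desc _ _ _ _
    have he3 : (TorsHom.hom ψ).app t ≫ e = b := by
      apply (TorsHom.isPushout (ζ j) t).hom_ext
      · have : (TorsHom.hom (ζ j)).app t ≫ (TorsHom.hom ψ).app t =
          (TorsHom.hom (ζ i)).app t ≫ (TorsHom.hom φ).app t :=
          congrArg (fun u ↦ (TorsHom.hom u).app t) hφψ.symm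
        rw [← Category.assoc, this, Category.assoc, he1, hab]
      · rw [← TorsHom.comm_assoc, he2]
        exact hre
    have hg' : (TorsHom.hom (g i)).app t ≫ (TorsHom.hom φ).app t =
        (TorsHom.hom (g j)).app t ≫ (TorsHom.hom ψ).app t :=
      congrArg (fun u ↦ (TorsHom.hom u).app t) hg
    rw [← he1, ← he3, ← Category.assoc, hg', Category.assoc]
  choose H hH hHu using fun t ↦ alg_hom_descent (fun i ↦ (TorsHom.hom (ζ i)).app t) (hcov' t)
    (w.B.obj t) (fun i ↦ (TorsHom.hom (g i)).app t) (hcompat t)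
  have hH' : ∀ (t : I) (i : ι) {C : Alg κ} (c : (x i).B.obj t ⟶ C),
      H t ≫ (TorsHom.hom (ζ i)).app t ≫ c = (TorsHom.hom (g i)).app t ≫ c := by
    intro t i C c
    rw [← Category.assoc]
    exact congrArg (· ≫ c) (hH t i)
  let h : w ⟶ z := TorsHom.mk (x := w) (y := z) h₀
    { app := H
      naturality := fun t t' τ ↦ by
        apply (hcov' t').hom_ext
        intro i
        have := hH t' i
        rw [Category.assoc, this, Category.assoc, NatTrans.naturality, NatTrans.naturality, hH'] }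
    (fun t ↦ by
      apply (hcov' t).hom_ext
      intro i
      have := hH t i
      rw [Category.assoc, Category.assoc, this, ← TorsHom.comm (ζ i), ← Category.assoc, hh i,
        TorsHom.comm (g i)])
    (fun t C b k ↦ by
      change H t ≫ z.act t b k = w.act t (H t ≫ b) k
      have hpo := fun i ↦ IsPushout.of_hasPushout (TorsHom.base (ζ i)) (z.s t ≫ b)
      have hC := hcov.baseChange (z.s t ≫ b) (fun i ↦ hpo i)
      apply hC.hom_ext
      intro i
      let q := pushout.inr (TorsHom.base (ζ i)) (z.s t ≫ b)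
      let r := pushout.inl (TorsHom.base (ζ i)) (z.s t ≫ b)
      have hqr : z.s t ≫ b ≫ q = TorsHom.base (ζ i) ≫ r := by
        rw [← Category.assoc]; exact (hpo i).w.symm
      let b' := (TorsHom.isPushout (ζ i) t).desc (b ≫ q) r hqr
      have hb' : (TorsHom.hom (ζ i)).app t ≫ b' = b ≫ q := IsPushout.inl_desc _ _ _ _
      change (H t ≫ z.act t b k) ≫ q = w.act t (H t ≫ b) k ≫ q
      rw [Category.assoc, z.act_comp, w.act_comp, ← hb', ← TorsHom.equi (ζ i), hH', TorsHom.equi (g i),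
        Category.assoc, ← hb', hH'])
  refine ⟨h, ⟨rfl, fun i ↦ ?_⟩, ?_⟩
  · apply TorsHom.ext
    · exact hh i
    · ext t : 2
      exact hH t i
  · rintro h' ⟨h1, h2⟩
    apply TorsHom.ext
    · exact h1
    · ext t : 2
      apply hHu
      intro i
      exact congrArg (fun u ↦ (TorsHom.hom u).app t) (h2 i)

end TorsDescent

section TorsObjDescent

variable {I : Type} [Preorder I] {G : GrpDiag κ I}

lemma GrpDiag.one_comp (i : I) {C D : Alg κ} (f : C ⟶ D) : (1 : G.H.obj i ⟶ C) ≫ f = 1 := by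
  have h := G.mul_comp i (1 : G.H.obj i ⟶ C) 1 f
  rw [mul_one] at h
  exact mul_eq_left.mp h.symm

/-- `retr x t b` is the map `(x.push (x.s t ≫ b)).B t ⟶ C` given by `b` and the identity. -/
noncomputable def retr (x : Tors G) (t : I) {C : Alg κ} (b : x.B.obj t ⟶ C) :
    (x.push (x.s t ≫ b)).B.obj t ⟶ C :=
  (TorsHom.isPushout (x.pushHom (x.s t ≫ b)) t).desc b (𝟙 C) (Category.comp_id _).symm

lemma inl_retr (x : Tors G) (t : I) {C : Alg κ} (b : x.B.obj t ⟶ C) :
    (TorsHom.hom (x.pushHom (x.s t ≫ b))).app t ≫ retr x t b = b :=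
  IsPushout.inl_desc _ _ _ _

lemma inr_retr (x : Tors G) (t : I) {C : Alg κ} (b : x.B.obj t ⟶ C) :
    (x.push (x.s t ≫ b)).s t ≫ retr x t b = 𝟙 C :=
  IsPushout.inr_desc _ _ _ _

variable {A : Alg κ} {ι : Type} {x : ι → Tors G} {f : ∀ i, A ⟶ (x i).base}
  (D : DescentDatum (TorsCat G) x f)

/-- The transport rule in terms of torsors. -/
def DescentDatum.tr' {i : ι} {y : Tors G} (φ : x i ⟶ y) (j : ι) (b : (x j).base ⟶ y.base)
    (h : f i ≫ TorsHom.base φ = f j ≫ b) : x j ⟶ y := D.tr φ j b h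

lemma DescentDatum.base_tr' {i : ι} {y : Tors G} (φ : x i ⟶ y) (j : ι)
    (b : (x j).base ⟶ y.base) (h : f i ≫ TorsHom.base φ = f j ≫ b) :
    TorsHom.base (D.tr' φ j b h) = b := D.map_tr φ j b h

lemma DescentDatum.tr'_self {i : ι} {y : Tors G} (φ : x i ⟶ y) :
    D.tr' φ i (TorsHom.base φ) rfl = φ := D.tr_self φ

lemma DescentDatum.tr'_tr' {i : ι} {y : Tors G} (φ : x i ⟶ y) (j : ι)
    (b : (x j).base ⟶ y.base) (h : f i ≫ TorsHom.base φ = f j ≫ b) (k : ι)
    (c : (x k).base ⟶ y.base)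
    (h' : f j ≫ TorsHom.base (D.tr' φ j b h) = f k ≫ c) (h'' : f i ≫ TorsHom.base φ = f k ≫ c) :
    D.tr' (D.tr' φ j b h) k c h' = D.tr' φ k c h'' := D.tr_tr φ j b h k c h' h''

lemma DescentDatum.tr'_comp {i : ι} {y z : Tors G} (φ : x i ⟶ y) (ψ : y ⟶ z) (j : ι)
    (b : (x j).base ⟶ y.base) (h : f i ≫ TorsHom.base φ = f j ≫ b)
    {χ : x i ⟶ z} (hχ : φ ≫ ψ = χ) {b' : (x j).base ⟶ z.base} (hb' : b ≫ TorsHom.base ψ = b')
    (h' : f i ≫ TorsHom.base χ = f j ≫ b') :
    D.tr' χ j b' h' = D.tr' φ j b h ≫ ψ := by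
  subst hχ hb'
  exact D.tr_comp φ ψ j b h h'

/-- The transport rule for the algebras `(x i).B t`. -/
noncomputable def algTr (t : I) {i : ι} {C : Alg κ} (b : (x i).B.obj t ⟶ C) (j : ι)
    (c : (x j).base ⟶ C) (h : f i ≫ (x i).s t ≫ b = f j ≫ c) : (x j).B.obj t ⟶ C :=
  (TorsHom.hom (D.tr' ((x i).pushHom ((x i).s t ≫ b)) j c h)).app t ≫ retr (x i) t b

lemma s_algTr (t : I) {i : ι} {C : Alg κ} (b : (x i).B.obj t ⟶ C) (j : ι)
    (c : (x j).base ⟶ C) (h : f i ≫ (x i).s t ≫ b = f j ≫ c) :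
    (x j).s t ≫ algTr D t b j c h = c := by
  rw [algTr, ← TorsHom.comm_assoc, inr_retr, DescentDatum.base_tr']
  exact Category.comp_id _

/-- The general formula for `algTr`. -/
lemma algTr_eq (t : I) {i : ι} {y : Tors G} (φ : x i ⟶ y) {C : Alg κ} (b : (x i).B.obj t ⟶ C)
    (y₀ : y.base ⟶ C) (hy : (x i).s t ≫ b = TorsHom.base φ ≫ y₀) (j : ι)
    (c' : (x j).base ⟶ y.base) (h : f i ≫ TorsHom.base φ = f j ≫ c') {c : (x j).base ⟶ C}
    (hc : c' ≫ y₀ = c) (h' : f i ≫ (x i).s t ≫ b = f j ≫ c) :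
    algTr D t b j c h' = (TorsHom.hom (D.tr' φ j c' h)).app t ≫
      (TorsHom.isPushout φ t).desc b y₀ hy := by
  let φb := (x i).pushHom ((x i).s t ≫ b)
  let χ : y ⟶ (x i).push ((x i).s t ≫ b) := TorsHom.desc φ φb y₀ hy.symm
  have h1 : D.tr' φb j c h' = D.tr' φ j c' h ≫ χ :=
    D.tr'_comp φ χ j c' h (TorsHom.fac _ _ _ _) hc h'
  have h2 : (TorsHom.hom χ).app t ≫ retr (x i) t b = (TorsHom.isPushout φ t).desc b y₀ hy := by
    have h3 : (TorsHom.hom φ).app t ≫ (TorsHom.hom χ).app t = (TorsHom.hom φb).app t :=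
      TorsHom.hom_desc _ _ _ _ _
    apply (TorsHom.isPushout φ t).hom_ext
    · rw [IsPushout.inl_desc, ← Category.assoc, h3, inl_retr]
    · rw [IsPushout.inr_desc, ← TorsHom.comm_assoc, inr_retr]
      exact Category.comp_id _
  rw [algTr, h1, ← h2]
  simp

/-- The descent datum for the algebras `(x i).B t`. -/
noncomputable def algDescent (t : I) : AlgDescent f (fun i ↦ (x i).s t) where
  tr b j c h := algTr D t b j c h
  s_tr b j c h := s_algTr D t b j c h
  tr_self {i C} b := by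
    have := D.tr'_self ((x i).pushHom ((x i).s t ≫ b))
    rw [algTr]
    have h2 : D.tr' ((x i).pushHom ((x i).s t ≫ b)) i ((x i).s t ≫ b) rfl =
      (x i).pushHom ((x i).s t ≫ b) := this
    rw [h2, inl_retr]
  tr_tr {i C} b j c h k c' h' h'' := by
    have h3 : f j ≫ TorsHom.base (D.tr' ((x i).pushHom ((x i).s t ≫ b)) j c h) = f k ≫ c' := by
      rw [D.base_tr', ← h, ← h'']
    refine (algTr_eq D t (D.tr' ((x i).pushHom ((x i).s t ≫ b)) j c h) (algTr D t b j c h) (𝟙 _)
      (by rw [s_algTr, D.base_tr']; exact (Category.comp_id _).symm) k c' h3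
      (Category.comp_id _) h').trans ?_
    rw [D.tr'_tr' _ _ _ _ _ _ h3 h'']
    refine congrArg (fun u ↦ (TorsHom.hom (D.tr' ((x i).pushHom ((x i).s t ≫ b)) k c' h'')).app t ≫ u) ?_
    apply (TorsHom.isPushout (D.tr' ((x i).pushHom ((x i).s t ≫ b)) j c h) t).hom_ext
    · rw [IsPushout.inl_desc]; rfl
    · rw [IsPushout.inr_desc, inr_retr]
  tr_comp {i C E} b g j c h h' := by
    refine (algTr_eq D t ((x i).pushHom ((x i).s t ≫ b)) (b ≫ g) g (by simp) j c h rfl h').trans ?_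
    refine Eq.trans ?_ (Category.assoc _ _ _).symm
    refine congrArg (fun u ↦ (TorsHom.hom (D.tr' ((x i).pushHom ((x i).s t ≫ b)) j c h)).app t ≫ u) ?_
    apply (TorsHom.isPushout ((x i).pushHom ((x i).s t ≫ b)) t).hom_ext
    · rw [IsPushout.inl_desc, ← Category.assoc, inl_retr]
    · rw [IsPushout.inr_desc, ← Category.assoc, inr_retr, Category.id_comp]

/-- `algTr` is natural in `t`. -/
lemma algTr_naturality {t t' : I} (τ : t ⟶ t') {i : ι} {C : Alg κ} (b : (x i).B.obj t' ⟶ C)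
    (j : ι) (c : (x j).base ⟶ C) (h : f i ≫ (x i).s t' ≫ b = f j ≫ c)
    (h' : f i ≫ (x i).s t ≫ (x i).B.map τ ≫ b = f j ≫ c) :
    (x j).B.map τ ≫ algTr D t' b j c h = algTr D t ((x i).B.map τ ≫ b) j c h' := by
  have hs : (x i).s t ≫ (x i).B.map τ ≫ b = (x i).s t' ≫ b := by
    rw [← Category.assoc, (x i).s_comp]
  symm
  refine (algTr_eq D t ((x i).pushHom ((x i).s t' ≫ b)) ((x i).B.map τ ≫ b) (𝟙 _)
    (by rw [hs]; exact (Category.comp_id _).symm) j c h (Category.comp_id _) h').trans ?_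
  have h1 : (TorsHom.isPushout ((x i).pushHom ((x i).s t' ≫ b)) t).desc ((x i).B.map τ ≫ b) (𝟙 _)
      (by rw [hs]; exact (Category.comp_id _).symm) =
      ((x i).push ((x i).s t' ≫ b)).B.map τ ≫ retr (x i) t' b := by
    apply (TorsHom.isPushout ((x i).pushHom ((x i).s t' ≫ b)) t).hom_ext
    · rw [IsPushout.inl_desc, ← NatTrans.naturality_assoc, inl_retr]
    · rw [IsPushout.inr_desc, ← Category.assoc, Tors.s_comp, inr_retr]
  rw [h1, ← NatTrans.naturality_assoc]
  rfl

/-- `algTr` is equivariant. -/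
lemma algTr_act (t : I) {i : ι} {C : Alg κ} (b : (x i).B.obj t ⟶ C) (g : G.H.obj t ⟶ C)
    (j : ι) (c : (x j).base ⟶ C) (h : f i ≫ (x i).s t ≫ b = f j ≫ c)
    (h' : f i ≫ (x i).s t ≫ (x i).act t b g = f j ≫ c) :
    algTr D t ((x i).act t b g) j c h' = (x j).act t (algTr D t b j c h) g := by
  have hs : (x i).s t ≫ (x i).act t b g = (x i).s t ≫ b := (x i).s_act _ _ _
  refine (algTr_eq D t ((x i).pushHom ((x i).s t ≫ b)) ((x i).act t b g) (𝟙 _)
    (by rw [hs]; exact (Category.comp_id _).symm) j c h (Category.comp_id _) h').trans ?_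
  have h1 : (TorsHom.isPushout ((x i).pushHom ((x i).s t ≫ b)) t).desc ((x i).act t b g) (𝟙 _)
      (by rw [hs]; exact (Category.comp_id _).symm) =
      ((x i).push ((x i).s t ≫ b)).act t (retr (x i) t b) g := by
    apply (TorsHom.isPushout ((x i).pushHom ((x i).s t ≫ b)) t).hom_ext
    · rw [IsPushout.inl_desc, TorsHom.equi ((x i).pushHom ((x i).s t ≫ b)), inl_retr]
    · rw [IsPushout.inr_desc, Tors.s_act, inr_retr]
  rw [h1]
  exact TorsHom.equi _ _ _ _

end TorsObjDescent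

section Descended

variable {I : Type} [Preorder I] {G : GrpDiag κ I}
variable {A : Alg κ} {ι : Type} {x : ι → Tors G} {f : ∀ i, A ⟶ (x i).base}

/-- The descended algebras. -/
structure DescAlgs (D : DescentDatum (TorsCat G) x f) where
  B : I → Alg κ
  s : ∀ t, A ⟶ B t
  e : ∀ t i, B t ⟶ (x i).B.obj t
  po : ∀ t i, IsPushout (f i) (s t) ((x i).s t) (e t i)
  compat : ∀ (t : I) {i : ι} {C : Alg κ} (b : (x i).B.obj t ⟶ C) (j : ι) (c : (x j).base ⟶ C)
        (h : f i ≫ (x i).s t ≫ b = f j ≫ c), e t i ≫ b = e t j ≫ algTr D t b j c h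

lemma exists_descAlgs (hcov : IsFpqcCover (fun i ↦ (x i).base) f)
    (D : DescentDatum (TorsCat G) x f) : Nonempty (DescAlgs D) := by
  have H := fun t ↦ alg_obj_descent f hcov (fun i ↦ (x i).s t) (algDescent D t)
  choose B s e po compat using H
  exact ⟨⟨B, s, e, po, fun t {i C} b j c h ↦ compat t b j c h⟩⟩

variable {D : DescentDatum (TorsCat G) x f} (E : DescAlgs D)
  (hcov : IsFpqcCover (fun i ↦ (x i).base) f)

include hcov in
lemma DescAlgs.cover (t : I) : IsFpqcCover (fun i ↦ (x i).B.obj t) (E.e t) :=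
  hcov.baseChange (E.s t) (E.po t)

/-- Maps `a, b` that agree on `B t` correspond under `algTr`. -/
lemma DescAlgs.eq_algTr {t : I} {i j : ι} {C : Alg κ} {a : (x i).B.obj t ⟶ C}
    {b : (x j).B.obj t ⟶ C} (hab : E.e t i ≫ a = E.e t j ≫ b) :
    ∃ h : f i ≫ (x i).s t ≫ a = f j ≫ (x j).s t ≫ b,
      b = algTr D t a j ((x j).s t ≫ b) h := by
  have h : f i ≫ (x i).s t ≫ a = f j ≫ (x j).s t ≫ b := by
    rw [← Category.assoc, ← Category.assoc, (E.po t i).w, (E.po t j).w, Category.assoc,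
      Category.assoc, hab]
  refine ⟨h, ?_⟩
  apply (E.po t j).hom_ext
  · rw [s_algTr]
  · rw [← E.compat, hab]

lemma DescAlgs.act_compat {t : I} {i j : ι} {C : Alg κ} {a : (x i).B.obj t ⟶ C}
    {b : (x j).B.obj t ⟶ C} (hab : E.e t i ≫ a = E.e t j ≫ b) (g : G.H.obj t ⟶ C) :
    E.e t i ≫ (x i).act t a g = E.e t j ≫ (x j).act t b g := by
  obtain ⟨h, hb⟩ := E.eq_algTr hab
  have h' : f i ≫ (x i).s t ≫ (x i).act t a g = f j ≫ (x j).s t ≫ b := by
    rw [(x i).s_act, h]
  rw [E.compat _ ((x i).act t a g) j ((x j).s t ≫ b) h', algTr_act D t a g j _ h h', ← hb]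

lemma DescAlgs.map_compat {t t' : I} (τ : t ⟶ t') {i j : ι} {C : Alg κ}
    {a : (x i).B.obj t' ⟶ C} {b : (x j).B.obj t' ⟶ C} (hab : E.e t' i ≫ a = E.e t' j ≫ b) :
    E.e t i ≫ (x i).B.map τ ≫ a = E.e t j ≫ (x j).B.map τ ≫ b := by
  obtain ⟨h, hb⟩ := E.eq_algTr hab
  have h' : f i ≫ (x i).s t ≫ (x i).B.map τ ≫ a = f j ≫ (x j).s t' ≫ b := by
    rw [← h, ← (x i).s_comp τ, Category.assoc]
  rw [E.compat _ ((x i).B.map τ ≫ a) j ((x j).s t' ≫ b) h',
    ← algTr_naturality D τ a j _ h h', ← hb]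

include hcov in
lemma DescAlgs.exists_map {t t' : I} (τ : t ⟶ t') :
    ∃! M : E.B t ⟶ E.B t', ∀ i, M ≫ E.e t' i = E.e t i ≫ (x i).B.map τ :=
  alg_hom_descent (E.e t') (E.cover hcov t') (E.B t) (fun i ↦ E.e t i ≫ (x i).B.map τ)
    (fun i j C a b hab ↦ by
      rw [Category.assoc, Category.assoc]
      exact E.map_compat τ hab)

end Descended

section Descended2

variable {I : Type} [Preorder I] {G : GrpDiag κ I}
variable {A : Alg κ} {ι : Type} {x : ι → Tors G} {f : ∀ i, A ⟶ (x i).base}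
variable {D : DescentDatum (TorsCat G) x f} (E : DescAlgs D)
  (hcov : IsFpqcCover (fun i ↦ (x i).base) f)

/-- The descended functor. -/
@[reducible] noncomputable def DescAlgs.functor : I ⥤ Alg κ where
  obj := E.B
  map τ := (E.exists_map hcov τ).choose
  map_id t := by
    apply (E.cover hcov t).hom_ext
    intro i
    rw [(E.exists_map hcov (𝟙 t)).choose_spec.1 i]
    simp
  map_comp {t t' t''} τ τ' := by
    apply (E.cover hcov t'').hom_ext
    intro i
    rw [(E.exists_map hcov (τ ≫ τ')).choose_spec.1 i, Category.assoc,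
      (E.exists_map hcov τ').choose_spec.1 i, ← Category.assoc,
      (E.exists_map hcov τ).choose_spec.1 i]
    simp

lemma DescAlgs.map_e {t t' : I} (τ : t ⟶ t') (i : ι) :
    (E.functor hcov).map τ ≫ E.e t' i = E.e t i ≫ (x i).B.map τ :=
  (E.exists_map hcov τ).choose_spec.1 i

/-- The covering algebra of `C`. -/
noncomputable abbrev DescAlgs.cc {t : I} {C : Alg κ} (b : E.B t ⟶ C) (i : ι) : Alg κ :=
  pushout (f i) (E.s t ≫ b)

/-- `(x i).base ⟶ cc` -/
noncomputable abbrev DescAlgs.cr {t : I} {C : Alg κ} (b : E.B t ⟶ C) (i : ι) :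
    (x i).base ⟶ E.cc b i := pushout.inl (f i) (E.s t ≫ b)

/-- `C ⟶ cc` -/
noncomputable abbrev DescAlgs.cq {t : I} {C : Alg κ} (b : E.B t ⟶ C) (i : ι) :
    C ⟶ E.cc b i := pushout.inr (f i) (E.s t ≫ b)

lemma DescAlgs.cr_cq {t : I} {C : Alg κ} (b : E.B t ⟶ C) (i : ι) :
    f i ≫ E.cr b i = E.s t ≫ b ≫ E.cq b i := by
  rw [← Category.assoc]; exact pushout.condition

include hcov in
lemma DescAlgs.cc_cover {t : I} {C : Alg κ} (b : E.B t ⟶ C) :
    IsFpqcCover (E.cc b) (E.cq b) :=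
  hcov.baseChange (E.s t ≫ b) (fun i ↦ IsPushout.of_hasPushout (f i) (E.s t ≫ b))

/-- the map `(x i).B t ⟶ cc` -/
noncomputable def DescAlgs.cb {t : I} {C : Alg κ} (b : E.B t ⟶ C) (i : ι) :
    (x i).B.obj t ⟶ E.cc b i :=
  (E.po t i).desc (E.cr b i) (b ≫ E.cq b i) (E.cr_cq b i)

lemma DescAlgs.s_cb {t : I} {C : Alg κ} (b : E.B t ⟶ C) (i : ι) :
    (x i).s t ≫ E.cb b i = E.cr b i := IsPushout.inl_desc _ _ _ _

lemma DescAlgs.e_cb {t : I} {C : Alg κ} (b : E.B t ⟶ C) (i : ι) :
    E.e t i ≫ E.cb b i = b ≫ E.cq b i := IsPushout.inr_desc _ _ _ _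

include hcov in
lemma DescAlgs.exists_act {t : I} {C : Alg κ} (b : E.B t ⟶ C) (g : G.H.obj t ⟶ C) :
    ∃! d : E.B t ⟶ C, ∀ i, d ≫ E.cq b i =
      E.e t i ≫ (x i).act t (E.cb b i) (g ≫ E.cq b i) :=
  alg_hom_descent (E.cq b) (E.cc_cover hcov b) (E.B t) _ (fun i j F u v huv ↦ by
    rw [Category.assoc, Category.assoc, (x i).act_comp, (x j).act_comp]
    have h1 : (g ≫ E.cq b i) ≫ u = (g ≫ E.cq b j) ≫ v := by
      rw [Category.assoc, huv, Category.assoc]
    rw [h1]
    apply E.act_compat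
    rw [← Category.assoc, ← Category.assoc, e_cb, e_cb, Category.assoc, huv, Category.assoc])

/-- The descended action. -/
noncomputable def DescAlgs.act {t : I} {C : Alg κ} (b : E.B t ⟶ C) (g : G.H.obj t ⟶ C) :
    E.B t ⟶ C := (E.exists_act hcov b g).choose

lemma DescAlgs.act_cq {t : I} {C : Alg κ} (b : E.B t ⟶ C) (g : G.H.obj t ⟶ C) (i : ι) :
    E.act hcov b g ≫ E.cq b i = E.e t i ≫ (x i).act t (E.cb b i) (g ≫ E.cq b i) :=
  (E.exists_act hcov b g).choose_spec.1 i

/-- The characterization of the action. -/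
lemma DescAlgs.act_eq {t : I} {C F : Alg κ} (b : E.B t ⟶ C) (g : G.H.obj t ⟶ C) (k : C ⟶ F)
    (i : ι) (β : (x i).B.obj t ⟶ F) (h : b ≫ k = E.e t i ≫ β) :
    E.act hcov b g ≫ k = E.e t i ≫ (x i).act t β (g ≫ k) := by
  have hw : f i ≫ (x i).s t ≫ β = (E.s t ≫ b) ≫ k := by
    rw [← Category.assoc, (E.po t i).w, Category.assoc, ← h, Category.assoc]
  let w : E.cc b i ⟶ F := pushout.desc ((x i).s t ≫ β) k hw
  have hw1 : E.cq b i ≫ w = k := pushout.inr_desc _ _ _
  have hw2 : E.cr b i ≫ w = (x i).s t ≫ β := pushout.inl_desc _ _ _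
  have hw3 : E.cb b i ≫ w = β := by
    apply (E.po t i).hom_ext
    · rw [← Category.assoc, s_cb, hw2]
    · rw [← Category.assoc, e_cb, Category.assoc, hw1, h]
  rw [← hw1, ← Category.assoc, act_cq, Category.assoc, (x i).act_comp, hw3, Category.assoc]

/-- The descended family of torsors. -/
noncomputable def DescAlgs.tors : Tors G where
  base := A
  B := E.functor hcov
  s := E.s
  s_comp {t t'} τ := by
    apply (E.cover hcov t').hom_ext
    intro i
    rw [Category.assoc, map_e, ← Category.assoc, ← (E.po t i).w, Category.assoc, (x i).s_comp,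
      (E.po t' i).w]
  act t C b g := E.act hcov b g
  act_one t C b := by
    apply (E.cc_cover hcov b).hom_ext
    intro i
    rw [act_cq, GrpDiag.one_comp, (x i).act_one, e_cb]
  act_mul t C b g g' := by
    apply (E.cc_cover hcov b).hom_ext
    intro i
    rw [act_cq, G.mul_comp, (x i).act_mul,
      E.act_eq hcov (E.act hcov b g) g' (E.cq b i) i _ (E.act_cq hcov b g i)]
  act_comp t C F b g k := by
    apply (E.cc_cover hcov (b ≫ k)).hom_ext
    intro i
    rw [act_cq, Category.assoc, E.act_eq hcov b g (k ≫ E.cq (b ≫ k) i) i (E.cb (b ≫ k) i)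
      (by rw [e_cb, Category.assoc]), Category.assoc]
  comp_act {t t'} τ C b g := by
    apply (E.cc_cover hcov b).hom_ext
    intro i
    rw [Category.assoc, act_cq, ← Category.assoc, map_e, Category.assoc, (x i).comp_act,
      E.act_eq hcov ((E.functor hcov).map τ ≫ b) (G.H.map τ ≫ g) (E.cq b i) i
        ((x i).B.map τ ≫ E.cb b i) (by
          rw [Category.assoc, ← E.e_cb, ← Category.assoc, map_e, Category.assoc]),
      Category.assoc]
  s_act t C b g := by
    apply (E.cc_cover hcov b).hom_ext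
    intro i
    rw [Category.assoc, act_cq, ← Category.assoc, ← (E.po t i).w, Category.assoc, (x i).s_act,
      s_cb, cr_cq, Category.assoc]
  trans t C b b' h := by
    have hcr : ∀ i, f i ≫ E.cr b i = E.s t ≫ b' ≫ E.cq b i := by
      intro i
      rw [cr_cq, ← Category.assoc, ← Category.assoc, h]
    let cb' : ∀ i, (x i).B.obj t ⟶ E.cc b i := fun i ↦
      (E.po t i).desc (E.cr b i) (b' ≫ E.cq b i) (hcr i)
    have hs : ∀ i, (x i).s t ≫ cb' i = E.cr b i := fun i ↦ IsPushout.inl_desc _ _ _ _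
    have he : ∀ i, E.e t i ≫ cb' i = b' ≫ E.cq b i := fun i ↦ IsPushout.inr_desc _ _ _ _
    choose g hg hgu using fun i ↦ (x i).trans t (E.cb b i) (cb' i) (by rw [s_cb, hs])
    have hcompat : ∀ (i j : ι) (F : Alg κ) (u : E.cc b i ⟶ F) (v : E.cc b j ⟶ F),
        E.cq b i ≫ u = E.cq b j ≫ v → g i ≫ u = g j ≫ v := by
      intro i j F u v huv
      have hg' : ∀ (k : ι) {F' : Alg κ} (w : E.cc b k ⟶ F'),
          (x k).act t (E.cb b k ≫ w) (g k ≫ w) = cb' k ≫ w := by
        intro k F' w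
        rw [← (x k).act_comp]
        exact congrArg (· ≫ w) (hg k)
      have h2 : (x j).act t (E.cb b j ≫ v) (g i ≫ u) = cb' j ≫ v := by
        apply (E.po t j).hom_ext
        · rw [(x j).s_act, ← Category.assoc, ← Category.assoc, s_cb, hs]
        · have h3 : E.e t i ≫ E.cb b i ≫ u = E.e t j ≫ E.cb b j ≫ v := by
            rw [← Category.assoc, ← Category.assoc, e_cb, e_cb, Category.assoc, huv,
              Category.assoc]
          rw [← E.act_compat h3, hg', ← Category.assoc, he, Category.assoc, huv, ← Category.assoc,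
            ← Category.assoc, he]
      obtain ⟨g₀, _, hu⟩ := (x j).trans t (E.cb b j ≫ v) (cb' j ≫ v) (by
        rw [← Category.assoc, ← Category.assoc, s_cb, hs])
      exact (hu _ h2).trans (hu _ (hg' j v)).symm
    obtain ⟨g₀, hg₀, hg₀u⟩ := alg_hom_descent (E.cq b) (E.cc_cover hcov b) _ g hcompat
    refine ⟨g₀, ?_, ?_⟩
    · apply (E.cc_cover hcov b).hom_ext
      intro i
      rw [act_cq]
      have := hg₀ i
      have h4 : g₀ ≫ E.cq b i = g i := hg₀ i
      rw [h4, ← he]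
      exact congrArg (E.e t i ≫ ·) (hg i)
    · intro g₁ hg₁
      apply hg₀u
      intro i
      apply hgu
      apply (E.po t i).hom_ext
      · rw [(x i).s_act, s_cb, hs]
      · have hg₁' : E.act hcov b g₁ = b' := hg₁
        rw [← act_cq E hcov, hg₁', he]
  ff t := hcov.ff_descent (fun i ↦ E.po t i) (fun i ↦ (x i).ff t)

/-- The maps from the descended family. -/
noncomputable def DescAlgs.toX (i : ι) : E.tors hcov ⟶ x i :=
  TorsHom.mk (x := E.tors hcov) (y := x i) (f i)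
    { app := fun t ↦ E.e t i
      naturality := fun t t' τ ↦ E.map_e hcov τ i }
    (fun t ↦ (E.po t i).w)
    (fun t C b g ↦ by
      change E.e t i ≫ (x i).act t b g = E.act hcov (E.e t i ≫ b) g
      have := E.act_eq hcov (E.e t i ≫ b) g (𝟙 _) i b (by simp)
      rw [Category.comp_id, Category.comp_id] at this
      exact this.symm)

end Descended2

theorem tors_obj_descent {I : Type} [Preorder I] {G : GrpDiag κ I} {A : Alg κ} {ι : Type}
    (x : ι → Tors G) (f : ∀ i, A ⟶ (x i).base)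
    (hcov : IsFpqcCover (fun i ↦ (x i).base) f) (D : DescentDatum (TorsCat G) x f) :
    ∃ (z : Tors G) (ζ : ∀ i, z ⟶ x i) (hz : z.base = A),
      (∀ i, TorsHom.base (ζ i) = eqToHom hz ≫ f i) ∧
        ∀ {i : ι} {y : Tors G} (φ : x i ⟶ y) (j : ι) (b : (x j).base ⟶ y.base)
          (h : f i ≫ TorsHom.base φ = f j ≫ b), ζ i ≫ φ = ζ j ≫ D.tr' φ j b h := by
  obtain ⟨E⟩ := exists_descAlgs hcov D
  refine ⟨E.tors hcov, E.toX hcov, rfl, fun i ↦ (Category.id_comp _).symm, ?_⟩
  intro i y φ j b h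
  apply TorsHom.ext
  · change f i ≫ TorsHom.base φ = f j ≫ TorsHom.base (D.tr' φ j b h)
    rw [D.base_tr', h]
  · ext t : 2
    change E.e t i ≫ (TorsHom.hom φ).app t = E.e t j ≫ (TorsHom.hom (D.tr' φ j b h)).app t
    have h1 : f i ≫ (x i).s t ≫ (TorsHom.hom φ).app t = f j ≫ b ≫ y.s t := by
      rw [← TorsHom.comm φ, ← Category.assoc, h, Category.assoc]
    rw [E.compat t ((TorsHom.hom φ).app t) j (b ≫ y.s t) h1]
    congr 1
    have h2 := algTr_eq D t φ ((TorsHom.hom φ).app t) (y.s t) (TorsHom.comm φ t).symm j b h rfl h1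
    rw [h2]
    have h3 : (TorsHom.isPushout φ t).desc ((TorsHom.hom φ).app t) (y.s t)
        (TorsHom.comm φ t).symm = 𝟙 _ := by
      apply (TorsHom.isPushout φ t).hom_ext
      · rw [IsPushout.inl_desc, Category.comp_id]
      · rw [IsPushout.inr_desc, Category.comp_id]
    rw [h3, Category.comp_id]

theorem torsCat_isStack {I : Type} [Preorder I] (G : GrpDiag κ I) : IsStack (TorsCat G) where
  toIsCofiberedInGroupoids := torsCat_isCofibered
  hom_descent {w z ι} x ζ hcov g h₀ hh hc := by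
    obtain ⟨h, ⟨h1, h2⟩, h3⟩ := tors_hom_descent (G := G) (w := w) (z := z) x ζ hcov g h₀ hh hc
    exact ⟨h, ⟨h1, h2⟩, fun h' hh' ↦ h3 h' hh'⟩
  obj_descent {A ι} x f hcov D := by
    obtain ⟨z, ζ, hz, h1, h2⟩ := tors_obj_descent (G := G) x f hcov D
    subst hz
    refine ⟨z, ζ, rfl, fun i ↦ ?_, fun {i y} φ j b h ↦ h2 φ j b h⟩
    have h3 : TorsHom.base (ζ i) = f i := (h1 i).trans (Category.id_comp _)
    rw [← h3]
    exact Functor.IsHomLift.map (p := (TorsCat G).p) (ζ i)

end Pool.Agent.H27
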