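import Pool.Agent.H27.DescentAlg
import Pool.Agent.H27.DescentTors

/-!
# fpqc descent

* `DescentAlg`: pushouts in `Alg κ` as tensor products, stability of flat / faithfully flat / finite
  maps, fpqc covers, descent of morphisms (`alg_hom_descent`) and of algebras (`alg_obj_descent`).
* `DescentTors`: morphisms of torsors are cocartesian (`TorsHom.isPushout`), `torsCat_isStack`.
-/
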