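import Mathlib
import Pool.Agent.H27.PTors
import Pool.Agent.H27.Descent

/-!
# Pointed pre-torsors over a category with an integral atlas are torsors

S7a of the design (seat helper42).
-/

set_option autoImplicit false

open CategoryTheory Limits
open scoped TensorProduct

namespace Pool.Agent.H27

section Core

/-- Dimension count: `n * n = r * n`. -/
lemma finrank_baseChange_sq (R E k : Type) [CommRing R] [AddCommGroup E] [Module R E]
    [Module.Finite R E] [Field k] [Algebra R k] (r : ℕ) (e : E ⊗[R] E ≃ₗ[R] (Fin r → E)) :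
    Module.finrank k (k ⊗[R] E) = 0 ∨ Module.finrank k (k ⊗[R] E) = r := by
  have e1 : (k ⊗[R] E) ⊗[k] (k ⊗[R] E) ≃ₗ[k] (Fin r → k ⊗[R] E) :=
    (TensorProduct.AlgebraTensorModule.distribBaseChange R k E E).symm ≪≫ₗ
      (TensorProduct.AlgebraTensorModule.congr (LinearEquiv.refl k k) e) ≪≫ₗ
      (TensorProduct.piRight R k k (fun _ : Fin r => E))
  have h1 := e1.finrank_eq
  rw [Module.finrank_tensorProduct, Module.finrank_pi_fintype] at h1
  simp only [Finset.sum_const, Finset.card_univ, Fintype.card_fin, smul_eq_mul] at h1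
  rcases Nat.eq_zero_or_pos (Module.finrank k (k ⊗[R] E)) with h | h
  · exact Or.inl h
  · exact Or.inr (Nat.eq_of_mul_eq_mul_right h h1)

variable {R E : Type} [CommRing R] [IsDomain R] [AddCommGroup E] [Module R E] [Module.Finite R E]

/-- Local structure near a maximal ideal. -/
lemma exists_chart (r : ℕ) (e : E ⊗[R] E ≃ₗ[R] (Fin r → E))
    (h0 : ∀ s : R, (∀ x : E, s • x = 0) → s = 0) (P : Ideal R) [hP : P.IsMaximal] :
    ∃ (g : (Fin r → R) →ₗ[R] E) (s : R), s ∉ P ∧ Function.Injective g ∧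
      (∀ x : E, ∃ y, g y = s • x) ∧ 0 < r := by
  classical
  -- the generic rank
  have hgen : Module.finrank (FractionRing R) (FractionRing R ⊗[R] E) ≠ 0 := by
    intro h
    have h1 : Subsingleton (FractionRing R ⊗[R] E) :=
      Module.finrank_zero_iff.mp h
    obtain ⟨n, v, hv⟩ := Module.Finite.exists_fin (R := R) (M := E)
    have h2 : ∀ i, ∃ s : nonZeroDivisors R, s • v i = 0 := by
      intro i
      refine (IsLocalizedModule.eq_zero_iff (nonZeroDivisors R)
        (TensorProduct.mk R (FractionRing R) E 1)).mp ?_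
      exact Subsingleton.elim _ _
    choose s hs using h2
    have h3 : (∏ i, (s i : R)) = 0 := by
      apply h0
      intro x
      have hx : x ∈ Submodule.span R (Set.range v) := by rw [hv]; trivial
      induction hx using Submodule.span_induction with
      | mem y hy =>
        obtain ⟨i, rfl⟩ := hy
        rw [← Finset.mul_prod_erase Finset.univ _ (Finset.mem_univ i), mul_comm, mul_smul]
        have h4 : (s i : R) • v i = 0 := hs i
        rw [h4, smul_zero]
      | zero => simp
      | add y z _ _ hy hz => rw [smul_add, hy, hz, add_zero]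
      | smul c y _ hy => rw [smul_comm, hy, smul_zero]
    exact (Finset.prod_ne_zero_iff.mpr (fun i _ => nonZeroDivisors.ne_zero (s i).2)) h3
  have hrK : Module.finrank (FractionRing R) (FractionRing R ⊗[R] E) = r :=
    (finrank_baseChange_sq R E (FractionRing R) r e).resolve_left hgen
  have hr : 0 < r := by
    rw [← hrK]; exact Nat.pos_of_ne_zero hgen
  let _ : Field (R ⧸ P) := Ideal.Quotient.field P
  -- Nakayama
  have hNak : ∀ (m : ℕ) (g : (Fin m → R) →ₗ[R] E),
      (⊤ : Submodule R E) ≤ LinearMap.range g ⊔ P • (⊤ : Submodule R E) →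
      ∃ s, s ∉ P ∧ ∀ x : E, ∃ y, g y = s • x := by
    intro m g hg
    have h1 : (⊤ : Submodule R E) ≤ LinearMap.range g ⊔ P • (⊤ : Submodule R E) := hg
    obtain ⟨s, hs1, hs2⟩ := Submodule.exists_sub_one_mem_and_smul_le_of_fg_of_le_sup
      (I := P) (N := LinearMap.range g) (N' := ⊤) (P := ⊤) Module.Finite.fg_top le_top h1
    refine ⟨s, ?_, ?_⟩
    · intro hs
      have h2 : (1 : R) ∈ P := by
        have := P.sub_mem hs hs1
        simpa using this
      exact hP.ne_top ((Ideal.eq_top_iff_one _).mpr h2)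
    · intro x
      exact hs2 (Submodule.smul_mem_pointwise_smul _ _ _ trivial)
  have hnP : Module.finrank (R ⧸ P) ((R ⧸ P) ⊗[R] E) = r := by
    refine (finrank_baseChange_sq R E (R ⧸ P) r e).resolve_left ?_
    intro h
    have h1 : Subsingleton ((R ⧸ P) ⊗[R] E) := Module.finrank_zero_iff.mp h
    have h2 : Subsingleton (E ⧸ (P • (⊤ : Submodule R E))) :=
      (TensorProduct.quotTensorEquivQuotSMul E P).symm.subsingleton
    have h3 : P • (⊤ : Submodule R E) = ⊤ := by
      rw [eq_top_iff]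
      intro x _
      rw [← Submodule.Quotient.mk_eq_zero]
      exact Subsingleton.elim _ _
    obtain ⟨s, hs, hs'⟩ := hNak 0 0 (by rw [h3]; exact le_sup_right)
    have h4 : s = 0 := by
      apply h0
      intro x
      obtain ⟨y, hy⟩ := hs' x
      rw [← hy]; simp
    exact hs (by rw [h4]; exact P.zero_mem)
  -- a basis modulo `P`
  let b : Module.Basis (Fin r) (R ⧸ P) ((R ⧸ P) ⊗[R] E) := Module.finBasisOfFinrankEq _ _ hnP
  let q := TensorProduct.quotTensorEquivQuotSMul E P
  choose v hv using fun i => Submodule.Quotient.mk_surjective _ (q (b i))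
  let g : (Fin r → R) →ₗ[R] E := Fintype.linearCombination R v
  have hg : (⊤ : Submodule R E) ≤ LinearMap.range g ⊔ P • (⊤ : Submodule R E) := by
    intro x _
    have h1 : q.symm (Submodule.Quotient.mk x) ∈ Submodule.span (R ⧸ P) (Set.range b) := by
      rw [b.span_eq]; trivial
    have h2 : q.symm (Submodule.Quotient.mk x) ∈ Submodule.span R (Set.range b) := by
      rw [← Submodule.restrictScalars_mem R,
        Submodule.restrictScalars_span R (R ⧸ P) Ideal.Quotient.mk_surjective] at h1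
      exact h1
    have h3 : (Submodule.Quotient.mk x : E ⧸ (P • (⊤ : Submodule R E))) ∈
        (Submodule.span R (Set.range b)).map q.toLinearMap := by
      refine ⟨_, h2, ?_⟩
      simp
    rw [Submodule.map_span, ← Set.range_comp] at h3
    have h4 : (q.toLinearMap ∘ b) = (Submodule.mkQ (P • (⊤ : Submodule R E))) ∘ v := by
      ext i
      exact (hv i).symm
    rw [h4, Set.range_comp, ← Submodule.map_span] at h3
    obtain ⟨y, hy, hy'⟩ := h3
    have h5 : x - y ∈ P • (⊤ : Submodule R E) := by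
      rw [← Submodule.Quotient.mk_eq_zero, Submodule.Quotient.mk_sub, sub_eq_zero]
      exact hy'.symm
    have h6 : x = y + (x - y) := by abel
    rw [h6]
    refine Submodule.add_mem_sup ?_ h5
    rw [Fintype.range_linearCombination]
    exact hy
  obtain ⟨s, hs, hs'⟩ := hNak r g hg
  refine ⟨g, s, hs, ?_, hs', hr⟩
  -- injectivity
  let K := FractionRing R
  let gK : (Fin r → K) →ₗ[K] K ⊗[R] E :=
    Fintype.linearCombination K (fun i => (1 : K) ⊗ₜ[R] v i)
  have hgK : ∀ y : Fin r → R, gK (fun i => algebraMap R K (y i)) = (1 : K) ⊗ₜ[R] g y := by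
    intro y
    simp only [gK, g, Fintype.linearCombination_apply, TensorProduct.tmul_sum]
    refine Finset.sum_congr rfl (fun i _ => ?_)
    rw [TensorProduct.tmul_smul, algebraMap_smul]
  have hsurj : Function.Surjective gK := by
    rw [← LinearMap.range_eq_top, eq_top_iff]
    intro z _
    induction z using TensorProduct.induction_on with
    | zero => exact Submodule.zero_mem _
    | add a b ha hb => exact Submodule.add_mem _ (ha trivial) (hb trivial)
    | tmul c x =>
      obtain ⟨y, hy⟩ := hs' x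
      have hs0 : algebraMap R K s ≠ 0 := by
        intro h
        have h1 : s = 0 := (IsFractionRing.injective R K) (by rw [h, map_zero])
        exact hs (by rw [h1]; exact P.zero_mem)
      refine ⟨(c * (algebraMap R K s)⁻¹) • (fun i => algebraMap R K (y i)), ?_⟩
      rw [map_smul, hgK, hy, TensorProduct.tmul_smul, ← algebraMap_smul K s, smul_smul,
        mul_assoc, inv_mul_cancel₀ hs0, mul_one, TensorProduct.smul_tmul', smul_eq_mul, mul_one]
  have hinj : Function.Injective gK := by
    have h1 : Module.finrank K (Fin r → K) = Module.finrank K (K ⊗[R] E) := by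
      rw [hrK]; simp
    exact (LinearMap.injective_iff_surjective_of_finrank_eq_finrank h1).mpr hsurj
  rw [← LinearMap.ker_eq_bot, LinearMap.ker_eq_bot']
  intro y hy
  have h1 : gK (fun i => algebraMap R K (y i)) = 0 := by rw [hgK, hy, TensorProduct.tmul_zero]
  have h2 := (map_eq_zero_iff gK hinj).mp h1
  ext i
  have h3 := congrFun h2 i
  exact (IsFractionRing.injective R K) (by simpa using h3)

/-- Commutative algebra core, linear version. -/
theorem ff_of_linearEquiv (r : ℕ) (e : E ⊗[R] E ≃ₗ[R] (Fin r → E))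
    (h0 : ∀ s : R, (∀ x : E, s • x = 0) → s = 0) : Module.FaithfullyFlat R E := by
  have hflat : Module.Flat R E := by
    refine Module.flat_of_localized_maximal _ (fun P hP => ?_)
    obtain ⟨g, s, hs, hg, hg', -⟩ := exists_chart r e h0 P
    let a := LocalizedModule.mkLinearMap P.primeCompl (Fin r → R)
    let a' := LocalizedModule.mkLinearMap P.primeCompl E
    let gP := IsLocalizedModule.map P.primeCompl a a' g
    have h1 : Function.Injective gP := IsLocalizedModule.map_injective P.primeCompl a a' g hg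
    have h2 : Function.Surjective gP := by
      intro z
      obtain ⟨⟨x, t⟩, hx⟩ := IsLocalizedModule.mk'_surjective P.primeCompl a' z
      obtain ⟨y, hy⟩ := hg' x
      refine ⟨IsLocalizedModule.mk' a y (⟨s, hs⟩ * t), ?_⟩
      simp only [gP]
      rw [IsLocalizedModule.map_mk', hy, ← hx]
      exact IsLocalizedModule.mk'_cancel_left a' x ⟨s, hs⟩ t
    have h3 : Module.Flat (Localization P.primeCompl)
        (LocalizedModule P.primeCompl (Fin r → R)) := inferInstance
    have h4 : Module.Flat R (LocalizedModule P.primeCompl (Fin r → R)) :=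
      Module.Flat.trans R (Localization P.primeCompl) _
    exact Module.Flat.of_linearEquiv (LinearEquiv.ofBijective gP ⟨h1, h2⟩).symm
  refine ⟨fun P hP hcon => ?_⟩
  -- if `P E = E` then some element outside `P` kills `E`
  obtain ⟨t, ht1, ht2⟩ := Submodule.exists_sub_one_mem_and_smul_le_of_fg_of_le_sup
    (I := P) (N := (⊥ : Submodule R E)) (N' := ⊤) (P := ⊤) Module.Finite.fg_top le_top
    (by rw [hcon]; exact le_sup_right)
  have h5 : t = 0 := by
    apply h0
    intro x
    have := ht2 (Submodule.smul_mem_pointwise_smul x t _ trivial)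
    simpa using this
  rw [h5, zero_sub] at ht1
  exact hP.ne_top ((Ideal.eq_top_iff_one _).mpr (by simpa using P.neg_mem ht1))

/-- Commutative algebra core. -/
theorem ff_of_torsor {κ : Type} [Field κ] (R E H L : Type) [CommRing R] [IsDomain R] [Algebra κ R]
    [CommRing E] [Algebra κ E] [Algebra R E] [IsScalarTower κ R E] [Module.Finite R E] [CommRing H]
    [Algebra κ H] [Module.Finite κ H] (e : E ⊗[R] E ≃ₐ[E] E ⊗[κ] H) [CommRing L] [Nontrivial L]
    (f : E →+* L) (hf : Function.Injective (f.comp (algebraMap R E))) :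
    Module.FaithfullyFlat R E := by
  let b := Module.finBasis κ H
  let e2 : E ⊗[κ] H ≃ₗ[E] (Fin (Module.finrank κ H) → E) :=
    (TensorProduct.AlgebraTensorModule.congr (LinearEquiv.refl E E) b.equivFun) ≪≫ₗ
      (TensorProduct.piScalarRight κ E E (Fin (Module.finrank κ H)))
  refine ff_of_linearEquiv (Module.finrank κ H) ((e.toLinearEquiv ≪≫ₗ e2).restrictScalars R) ?_
  intro s hs
  apply hf
  have h1 : algebraMap R E s = 0 := by
    rw [Algebra.algebraMap_eq_smul_one]
    exact hs 1
  rw [RingHom.comp_apply, h1, map_zero, map_zero]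

end Core

section Torsor

variable {κ : Type} [Field κ] {𝒳 : BasedCategory.{0, 1} (Alg κ)} {T : Type} [Category.{0} T]
  {v : T ⥤ 𝒳.obj}

/-- The torsor isomorphism `B ⊗ B ≃ B ⊗ H`. -/
theorem PTors.exists_tensor_equiv (P : PTors v) (a : 𝒳.obj) :
    letI := algOf (P.s.app a)
    Nonempty ((P.B.obj a) ⊗[𝒳.p.obj a] (P.B.obj a) ≃ₐ[P.B.obj a] (P.B.obj a) ⊗[κ] P.G.H) := by
  let _ := algOf (P.s.app a)
  have := towerOf (P.s.app a)
  -- the pushout
  have hpo := isPushout_tensor κ (𝒳.p.obj a) (P.B.obj a) (P.B.obj a)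
  have e1 : CommAlgCat.ofHom (IsScalarTower.toAlgHom κ (𝒳.p.obj a) (P.B.obj a)) = P.s.app a := rfl
  rw [e1] at hpo
  let BB : Alg κ := CommAlgCat.of κ ((P.B.obj a) ⊗[𝒳.p.obj a] (P.B.obj a))
  let BH : Alg κ := CommAlgCat.of κ ((P.B.obj a) ⊗[κ] P.G.H)
  let l : P.B.obj a ⟶ BB :=
    CommAlgCat.ofHom (Algebra.TensorProduct.includeLeft : _ →ₐ[κ] (P.B.obj a) ⊗[𝒳.p.obj a] _)
  let r : P.B.obj a ⟶ BB :=
    CommAlgCat.ofHom ((Algebra.TensorProduct.includeRight :
      _ →ₐ[𝒳.p.obj a] (P.B.obj a) ⊗[𝒳.p.obj a] (P.B.obj a)).restrictScalars κ)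
  let l' : P.B.obj a ⟶ BH :=
    CommAlgCat.ofHom (Algebra.TensorProduct.includeLeft : _ →ₐ[κ] (P.B.obj a) ⊗[κ] P.G.H)
  let g' : P.G.H ⟶ BH :=
    CommAlgCat.ofHom (Algebra.TensorProduct.includeRight : _ →ₐ[κ] (P.B.obj a) ⊗[κ] P.G.H)
  have hlr : P.s.app a ≫ l = P.s.app a ≫ r := hpo.w
  obtain ⟨g, hg, -⟩ := P.trans l r hlr
  -- the two maps
  let d : BB ⟶ BH := hpo.desc l' (P.act l' g') (P.s_act l' g').symm
  have hd1 : l ≫ d = l' := hpo.inl_desc _ _ _
  have hd2 : r ≫ d = P.act l' g' := hpo.inr_desc _ _ _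
  let d' : BH ⟶ BB := CommAlgCat.ofHom (Algebra.TensorProduct.lift l.hom g.hom
    (fun _ _ ↦ .all _ _))
  have hd'1 : l' ≫ d' = l := by
    ext x
    change Algebra.TensorProduct.lift l.hom g.hom (fun _ _ ↦ .all _ _) (x ⊗ₜ[κ] (1 : P.G.H)) = _
    rw [Algebra.TensorProduct.lift_tmul, map_one, mul_one]
  have hd'2 : g' ≫ d' = g := by
    ext x
    change Algebra.TensorProduct.lift l.hom g.hom (fun _ _ ↦ .all _ _)
      ((1 : P.B.obj a) ⊗ₜ[κ] x) = _
    rw [Algebra.TensorProduct.lift_tmul, map_one, one_mul]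
  have h1 : d ≫ d' = 𝟙 BB := by
    apply hpo.hom_ext
    · change l ≫ d ≫ d' = l ≫ 𝟙 _
      rw [← Category.assoc, hd1, hd'1, Category.comp_id]
    · change r ≫ d ≫ d' = r ≫ 𝟙 _
      rw [← Category.assoc, hd2, P.act_comp, hd'1, hd'2, hg, Category.comp_id]
  have hgd : g ≫ d = g' := by
    obtain ⟨g₀, -, hu⟩ := P.trans l' (P.act l' g') (P.s_act l' g').symm
    have e7 : P.act l' (g ≫ d) = P.act l' g' := by
      calc P.act l' (g ≫ d) = P.act (l ≫ d) (g ≫ d) := by rw [hd1]
        _ = P.act l g ≫ d := (P.act_comp l g d).symm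
        _ = r ≫ d := by rw [hg]
        _ = P.act l' g' := hd2
    rw [hu (g ≫ d) e7, hu g' rfl]
  have h2 : d' ≫ d = 𝟙 BH := by
    apply CommAlgCat.hom_ext
    apply Algebra.TensorProduct.ext'
    intro x y
    have e2 : (x ⊗ₜ[κ] y : (P.B.obj a) ⊗[κ] P.G.H) = l'.hom x * g'.hom y := by
      change _ = (x ⊗ₜ[κ] (1 : P.G.H)) * ((1 : P.B.obj a) ⊗ₜ[κ] y)
      rw [Algebra.TensorProduct.tmul_mul_tmul, mul_one, one_mul]
    rw [e2, map_mul, map_mul]
    have e3 : l' ≫ d' ≫ d = l' := by rw [← Category.assoc, hd'1, hd1]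
    have e4 : g' ≫ d' ≫ d = g' := by rw [← Category.assoc, hd'2, hgd]
    have e5 := congr(($e3).hom x)
    have e6 := congr(($e4).hom y)
    exact congrArg₂ (· * ·) e5 e6
  refine ⟨AlgEquiv.ofRingEquiv (f := (CommAlgCat.algEquivOfIso ⟨d, d', h1, h2⟩).toRingEquiv) ?_⟩
  intro x
  exact congr(($hd1).hom x)

theorem PTors.ff_of_atlas (P : PTors v) (u : 𝒳.obj) (hu : IsDomain (𝒳.p.obj u)) (t : T)
    (w : u ⟶ v.obj t) (hw : Function.Injective (𝒳.p.map w).hom) :
    (P.s.app u).hom.toRingHom.FaithfullyFlat := by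
  let _ := algOf (P.s.app u)
  have := towerOf (P.s.app u)
  obtain ⟨e⟩ := P.exists_tensor_equiv u
  have hfin : Module.Finite (𝒳.p.obj u) (P.B.obj u) := P.finite u
  have hH : Module.Finite κ P.G.H := P.G.finite
  have hcomp : P.s.app u ≫ P.B.map w ≫ P.y t = 𝒳.p.map w := by
    rw [← Category.assoc, ← P.s.naturality w, Category.assoc, P.s_y, Category.comp_id]
  have hnt : Nontrivial (𝒳.p.obj (v.obj t)) := by
    have := hw.nontrivial
    exact this
  refine ff_of_torsor (κ := κ) (𝒳.p.obj u) (P.B.obj u) P.G.H (𝒳.p.obj (v.obj t)) e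
    (P.B.map w ≫ P.y t).hom.toRingHom ?_
  intro x y hxy
  apply hw
  have h1 := congr(($hcomp).hom x)
  have h2 := congr(($hcomp).hom y)
  rw [← h1, ← h2]
  exact hxy

theorem PTors.faithfullyFlat (_hX : IsCofiberedInGroupoids 𝒳) (Ch : Charts v) (P : PTors v)
    (a : 𝒳.obj) : (P.s.app a).hom.toRingHom.FaithfullyFlat := by
  obtain ⟨a', ζ, k₀, k₁, hcov⟩ := Ch.cover a
  refine hcov.ff_descent (fun i ↦ P.isPushout (ζ i)) (fun i ↦ ?_)
  cases i
  · exact ff_of_isPushout (P.isPushout k₀).flip (P.ff_of_atlas Ch.u₀ Ch.dom₀ Ch.t₀ Ch.w₀ Ch.inj₀)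
  · exact ff_of_isPushout (P.isPushout k₁).flip (P.ff_of_atlas Ch.u₁ Ch.dom₁ Ch.t₁ Ch.w₁ Ch.inj₁)

end Torsor

end Pool.Agent.H27
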