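import Pool.Agent.H27.TorsorDefs
import Pool.Agent.H27.Cof

/-!
# An abstract criterion for the universal property of a fundamental gerbe
-/

set_option linter.style.haveILetI false

open CategoryTheory AlgebraicGeometry Limits Bicategory

open scoped TensorProduct

namespace Pool.Agent.H27

namespace Univ

variable {κ : Type} [Field κ]

/-! ### Commutative algebra -/

theorem exists_square {A B C : Alg κ} (f : A ⟶ B) (g : A ⟶ C)
    (hf : f.hom.toRingHom.FaithfullyFlat) :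
    ∃ (D : Alg κ) (i : C ⟶ D) (j : B ⟶ D), g ≫ i = f ≫ j ∧
      i.hom.toRingHom.FaithfullyFlat := by
  letI : Algebra A B := f.hom.toRingHom.toAlgebra
  letI : Algebra A C := g.hom.toRingHom.toAlgebra
  haveI : IsScalarTower κ A B := IsScalarTower.of_algebraMap_eq fun x => by
    rw [RingHom.algebraMap_toAlgebra]
    exact (f.hom.commutes x).symm
  haveI : IsScalarTower κ A C := IsScalarTower.of_algebraMap_eq fun x => by
    rw [RingHom.algebraMap_toAlgebra]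
    exact (g.hom.commutes x).symm
  haveI : Module.FaithfullyFlat A B := hf
  let i : C →ₐ[κ] (C ⊗[A] B) := Algebra.TensorProduct.includeLeft
  let j : B →ₐ[κ] (C ⊗[A] B) :=
    (Algebra.TensorProduct.includeRight : B →ₐ[A] C ⊗[A] B).restrictScalars κ
  refine ⟨CommAlgCat.of κ (C ⊗[A] B), CommAlgCat.ofHom i, CommAlgCat.ofHom j, ?_, ?_⟩
  · ext a
    show (algebraMap A C a) ⊗ₜ[A] (1 : B) = (1 : C) ⊗ₜ[A] (algebraMap A B a)
    rw [Algebra.algebraMap_eq_smul_one, Algebra.algebraMap_eq_smul_one, TensorProduct.smul_tmul]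
  · show (algebraMap C (C ⊗[A] B)).FaithfullyFlat
    rw [RingHom.faithfullyFlat_algebraMap_iff]
    infer_instance

theorem exists_descent {A B : Alg κ} (f : A ⟶ B) (hf : f.hom.toRingHom.FaithfullyFlat) (b : B)
    (hb : ∀ (C : Alg κ) (u v : B ⟶ C), f ≫ u = f ≫ v → u.hom b = v.hom b) :
    ∃ a : A, f.hom a = b := by
  letI : Algebra A B := f.hom.toRingHom.toAlgebra
  haveI : IsScalarTower κ A B := IsScalarTower.of_algebraMap_eq fun x => by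
    rw [RingHom.algebraMap_toAlgebra]
    exact (f.hom.commutes x).symm
  haveI : Module.FaithfullyFlat A B := hf
  let i : B →ₐ[κ] (B ⊗[A] B) := Algebra.TensorProduct.includeLeft
  let j : B →ₐ[κ] (B ⊗[A] B) :=
    (Algebra.TensorProduct.includeRight : B →ₐ[A] B ⊗[A] B).restrictScalars κ
  have h := hb (CommAlgCat.of κ (B ⊗[A] B)) (CommAlgCat.ofHom i) (CommAlgCat.ofHom j) (by
    ext a
    show (algebraMap A B a) ⊗ₜ[A] (1 : B) = (1 : B) ⊗ₜ[A] (algebraMap A B a)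
    rw [Algebra.algebraMap_eq_smul_one, TensorProduct.smul_tmul])
  have h' : b ⊗ₜ[A] (1 : B) = (1 : B) ⊗ₜ[A] b := h
  have hex := Algebra.IsEffective.of_faithfullyFlat A B
  obtain ⟨a, ha⟩ := (hex b).1 (by
    rw [Algebra.TensorProduct.includeLeftSubRight_apply, h', sub_self])
  exact ⟨a, ha⟩

theorem isFpqcCover_of_ff {A B : Alg κ} (f : A ⟶ B) (hf : f.hom.toRingHom.FaithfullyFlat) :
    IsFpqcCover (fun _ : Unit ↦ B) (fun _ ↦ f) where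
  finite := inferInstance
  flat := fun _ ↦ hf.flat
  surj := fun P ↦ by
    obtain ⟨Q, hQ⟩ := (RingHom.FaithfullyFlat.iff_flat_and_comap_surjective.1 hf).2 P
    exact ⟨(), Q, hQ⟩

theorem alg_hom_ext_of_field {K A : Alg κ} (hK : K = CommAlgCat.of κ κ) (u v : K ⟶ A) :
    u = v := by
  subst hK
  ext

/-! ### Categories cofibered in groupoids -/

section cofib

variable {𝒳 : BasedCategory.{0, 1} (Alg κ)} (h𝒳 : IsCofiberedInGroupoids 𝒳)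

include h𝒳

theorem push {x : 𝒳.obj} {A B : Alg κ} (hx : 𝒳.p.obj x = A) (f : A ⟶ B) :
    ∃ (y : 𝒳.obj) (φ : x ⟶ y), 𝒳.p.IsHomLift f φ := by
  subst hx
  exact h𝒳.exists_push x f

theorem desc {x y z : 𝒳.obj} {A B C : Alg κ} {f : A ⟶ B} {g : B ⟶ C} {h : A ⟶ C}
    {φ : x ⟶ y} {ψ : x ⟶ z} (hf : 𝒳.p.IsHomLift f φ) (hh : 𝒳.p.IsHomLift h ψ)
    (hfg : f ≫ g = h) : ∃ χ : y ⟶ z, 𝒳.p.IsHomLift g χ ∧ φ ≫ χ = ψ := by
  obtain ⟨⟩ := hf
  have h1 := IsHomLift.codomain_eq 𝒳.p h ψ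
  subst h1
  have h2 := IsHomLift.eq_of_isHomLift 𝒳.p h ψ
  subst h2
  obtain ⟨χ, ⟨hχ1, hχ2⟩, -⟩ := h𝒳.exists_desc φ ψ g hfg
  refine ⟨χ, ?_, hχ2⟩
  rw [← hχ1]
  infer_instance

theorem uniq {x y z : 𝒳.obj} {B C : Alg κ} {g : B ⟶ C}
    {χ χ' : y ⟶ z} (hg : 𝒳.p.IsHomLift g χ) (hg' : 𝒳.p.IsHomLift g χ') (φ : x ⟶ y)
    (h : φ ≫ χ = φ ≫ χ') : χ = χ' := by
  obtain ⟨⟩ := hg
  have h2 := IsHomLift.eq_of_isHomLift 𝒳.p (𝒳.p.map χ) χ'
  obtain ⟨χ₀, -, huniq⟩ := h𝒳.exists_desc φ (φ ≫ χ) (𝒳.p.map χ) (by simp)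
  rw [huniq χ ⟨rfl, rfl⟩, huniq χ' ⟨h2.symm, h.symm⟩]

theorem isIso_of_lift {x y : 𝒳.obj} {A B : Alg κ} {f : A ⟶ B} (φ : x ⟶ y)
    (hf : 𝒳.p.IsHomLift f φ) (hiso : IsIso f) : IsIso φ := by
  obtain ⟨ψ, hψ1, hψ2⟩ := desc h𝒳 (g := inv f) hf
    (IsHomLift.id (IsHomLift.domain_eq 𝒳.p f φ)) (by simp)
  refine ⟨ψ, hψ2, ?_⟩
  have h1 : 𝒳.p.IsHomLift (𝟙 B) (ψ ≫ φ) := by
    have := (inferInstance : 𝒳.p.IsHomLift (inv f ≫ f) (ψ ≫ φ))
    simpa using this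
  apply uniq h𝒳 h1 (IsHomLift.id (IsHomLift.codomain_eq 𝒳.p f φ)) φ
  rw [← Category.assoc, hψ2, Category.id_comp, Category.comp_id]

end cofib

theorem lift_congr {𝒳 : BasedCategory.{0, 1} (Alg κ)} {x y : 𝒳.obj} {A B : Alg κ}
    {f g : A ⟶ B} {φ : x ⟶ y} (h : 𝒳.p.IsHomLift f φ) (hfg : f = g) : 𝒳.p.IsHomLift g φ := by
  subst hfg
  exact h

theorem lift_eq {𝒳 : BasedCategory.{0, 1} (Alg κ)} {x y : 𝒳.obj} {A B : Alg κ}
    {f g : A ⟶ B} {φ : x ⟶ y} (h : 𝒳.p.IsHomLift f φ) (h' : 𝒳.p.IsHomLift g φ) : f = g := by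
  rw [IsHomLift.fac 𝒳.p f φ, IsHomLift.fac 𝒳.p g φ]

theorem lift_comp {𝒳 : BasedCategory.{0, 1} (Alg κ)} {x y z : 𝒳.obj} {A B C : Alg κ}
    {f : A ⟶ B} {g : B ⟶ C} {φ : x ⟶ y} {ψ : y ⟶ z} (h : 𝒳.p.IsHomLift f φ)
    (h' : 𝒳.p.IsHomLift g ψ) : 𝒳.p.IsHomLift (f ≫ g) (φ ≫ ψ) := inferInstance

/-! ### The functions on `X` over `P` -/

section main

variable {X P Γ : BasedCategory.{0, 1} (Alg κ)} (p : BasedFunctor X P)

/-- The map of algebras below an arrow `η ⟶ p a`. -/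
def bs {η : P.obj} {a : X.obj} (χ : η ⟶ p.obj a) : P.p.obj η ⟶ X.p.obj a :=
  P.p.map χ ≫ eqToHom (p.w_obj a)

theorem bs_lift {η : P.obj} {a : X.obj} (χ : η ⟶ p.obj a) : P.p.IsHomLift (bs p χ) χ :=
  IsHomLift.of_fac P.p _ _ rfl (p.w_obj a) (by simp [bs])

theorem bs_eq {η : P.obj} {a : X.obj} {χ : η ⟶ p.obj a} {r : P.p.obj η ⟶ X.p.obj a}
    (h : P.p.IsHomLift r χ) : bs p χ = r := lift_eq (bs_lift p χ) h

theorem bs_map {η : P.obj} {a a' : X.obj} (χ : η ⟶ p.obj a) (ψ : a ⟶ a') :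
    bs p (χ ≫ p.map ψ) = bs p χ ≫ X.p.map ψ :=
  bs_eq p (lift_comp (bs_lift p χ) (p.preserves_isHomLift (X.p.map ψ) ψ))

theorem bs_comp {η η' : P.obj} {a : X.obj} (μ : η ⟶ η') (χ : η' ⟶ p.obj a) :
    bs p (μ ≫ χ) = P.p.map μ ≫ bs p χ :=
  bs_eq p (lift_comp (IsHomLift.map P.p μ) (bs_lift p χ))

/-- The hypotheses on `p : X ⟶ P`. -/
structure Hyp (o : P.obj) : Prop where
  hX : IsCofiberedInGroupoids X
  hP : IsCofiberedInGroupoids P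
  ho : P.p.obj o = CommAlgCat.of κ κ
  F1 : ∀ η : P.obj, ∃ (η' : P.obj) (ζ : η ⟶ η') (_ : o ⟶ η'),
    (P.p.map ζ).hom.toRingHom.FaithfullyFlat
  F3 : ∀ (C : Alg κ) (f : ∀ (a : X.obj) (_ : C ⟶ X.p.obj a) (_ : o ⟶ p.obj a), X.p.obj a),
    (∀ (a a' : X.obj) (ψ : a ⟶ a') (r : C ⟶ X.p.obj a) (t : o ⟶ p.obj a),
      (X.p.map ψ).hom (f a r t) = f a' (r ≫ X.p.map ψ) (t ≫ p.map ψ)) →
    ∃! c : C, ∀ a r t, f a r t = r.hom c

variable {p} {o : P.obj} (H : Hyp p o)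

include H

theorem exists_lift {η : P.obj} (t : o ⟶ η) {a : X.obj} (r : P.p.obj η ⟶ X.p.obj a)
    (s : o ⟶ p.obj a) : ∃ χ : η ⟶ p.obj a, P.p.IsHomLift r χ ∧ t ≫ χ = s :=
  desc H.hP (IsHomLift.map P.p t) (bs_lift p s) (alg_hom_ext_of_field H.ho _ _)

/-- A natural family of functions. -/
theorem exists_elem₀ {η : P.obj} (t : o ⟶ η) (f : ∀ (a : X.obj) (_ : η ⟶ p.obj a), X.p.obj a)
    (hf : ∀ (a a' : X.obj) (ψ : a ⟶ a') (χ : η ⟶ p.obj a),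
      (X.p.map ψ).hom (f a χ) = f a' (χ ≫ p.map ψ)) :
    ∃ c : P.p.obj η, ∀ a χ, f a χ = (bs p χ).hom c := by
  classical
  have key : ∀ (a : X.obj) (χ : η ⟶ p.obj a) (r : P.p.obj η ⟶ X.p.obj a) (s : o ⟶ p.obj a)
      (_ : P.p.IsHomLift r χ) (_ : t ≫ χ = s), χ = (exists_lift H t r s).choose := by
    intro a χ r s h1 h2
    apply uniq H.hP h1 (exists_lift H t r s).choose_spec.1 t
    rw [h2, (exists_lift H t r s).choose_spec.2]
  obtain ⟨c, hc, -⟩ := H.F3 (P.p.obj η) (fun a r s ↦ f a (exists_lift H t r s).choose) (by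
    intro a a' ψ r s
    rw [hf]
    congr 1
    apply key
    · exact lift_comp (exists_lift H t r s).choose_spec.1
        (p.preserves_isHomLift (X.p.map ψ) ψ)
    · rw [← Category.assoc, (exists_lift H t r s).choose_spec.2])
  refine ⟨c, fun a χ ↦ ?_⟩
  rw [← hc a (bs p χ) (t ≫ χ)]
  congr 1
  exact key a χ (bs p χ) (t ≫ χ) (bs_lift p χ) rfl

theorem elem_ext₀ {η : P.obj} (t : o ⟶ η) {c c' : P.p.obj η}
    (h : ∀ (a : X.obj) (χ : η ⟶ p.obj a), (bs p χ).hom c = (bs p χ).hom c') : c = c' := by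
  obtain ⟨c₀, -, hu⟩ := H.F3 (P.p.obj η) (fun a r _ ↦ r.hom c) (by
    intro a a' ψ r s
    simp)
  rw [hu c (fun a r s ↦ rfl), hu c' ?_]
  intro a r s
  obtain ⟨χ, hχ1, hχ2⟩ := exists_lift H t r s
  have := h a χ
  rw [bs_eq p hχ1] at this
  exact this

/-- The square lemma. -/
theorem exists_cover_square {η η' : P.obj} (ζ : η ⟶ η')
    (hζ : (P.p.map ζ).hom.toRingHom.FaithfullyFlat) {a : X.obj} (χ : η ⟶ p.obj a) :
    ∃ (a' : X.obj) (ψ : a ⟶ a') (χ' : η' ⟶ p.obj a'), ζ ≫ χ' = χ ≫ p.map ψ ∧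
      (X.p.map ψ).hom.toRingHom.FaithfullyFlat := by
  obtain ⟨D, i, j, hij, hi⟩ := exists_square (P.p.map ζ) (bs p χ) hζ
  obtain ⟨a', ψ, hψ⟩ := H.hX.exists_push a i
  have hψ2 := IsHomLift.codomain_eq X.p i ψ
  subst hψ2
  have hψ3 := IsHomLift.eq_of_isHomLift X.p i ψ
  subst hψ3
  obtain ⟨χ', h1, h2⟩ := desc H.hP (φ := ζ) (ψ := χ ≫ p.map ψ) (IsHomLift.map P.p ζ)
    (lift_comp (bs_lift p χ) (p.preserves_isHomLift (X.p.map ψ) ψ)) hij.symm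
  exact ⟨a', ψ, χ', h2, hi⟩

theorem exists_elem {η : P.obj} (f : ∀ (a : X.obj) (_ : η ⟶ p.obj a), X.p.obj a)
    (hf : ∀ (a a' : X.obj) (ψ : a ⟶ a') (χ : η ⟶ p.obj a),
      (X.p.map ψ).hom (f a χ) = f a' (χ ≫ p.map ψ)) :
    ∃ c : P.p.obj η, ∀ a χ, f a χ = (bs p χ).hom c := by
  obtain ⟨η', ζ, t, hζ⟩ := H.F1 η
  obtain ⟨c', hc'⟩ := exists_elem₀ H t (fun a χ ↦ f a (ζ ≫ χ)) (by
    intro a a' ψ χ
    rw [hf, Category.assoc])
  obtain ⟨c, hc⟩ := exists_descent (P.p.map ζ) hζ c' (by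
    intro C u v huv
    obtain ⟨η'', μ, hμ⟩ := H.hP.exists_push η' u
    have h2 := IsHomLift.codomain_eq P.p u μ
    subst h2
    have h3 := IsHomLift.eq_of_isHomLift P.p u μ
    subst h3
    obtain ⟨ν, hν1, hν2⟩ := desc H.hP (φ := ζ) (ψ := ζ ≫ μ) (g := v) (IsHomLift.map P.p ζ)
      (IsHomLift.map P.p (ζ ≫ μ)) (by rw [Functor.map_comp, huv])
    have h4 := IsHomLift.eq_of_isHomLift P.p v ν
    subst h4
    apply elem_ext₀ H (t ≫ μ)
    intro a χ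
    have e1 := hc' a (μ ≫ χ)
    have e2 := hc' a (ν ≫ χ)
    rw [bs_comp] at e1 e2
    have e3 : f a (ζ ≫ μ ≫ χ) = f a (ζ ≫ ν ≫ χ) := by
      rw [← Category.assoc, ← Category.assoc, hν2]
    rw [e3, e2] at e1
    exact e1.symm)
  refine ⟨c, fun a χ ↦ ?_⟩
  obtain ⟨a', ψ, χ', h1, h2⟩ := exists_cover_square H ζ hζ χ
  apply h2.injective
  show (X.p.map ψ).hom (f a χ) = (X.p.map ψ).hom ((bs p χ).hom c)
  rw [hf, ← h1, hc', ← hc]
  have e1 : bs p (ζ ≫ χ') = P.p.map ζ ≫ bs p χ' := bs_comp p ζ χ'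
  have e2 : bs p (χ ≫ p.map ψ) = bs p χ ≫ X.p.map ψ := bs_map p χ ψ
  rw [h1, e2] at e1
  have := congrArg (fun g ↦ g.hom c) e1
  exact this.symm

theorem elem_ext {η : P.obj} {c c' : P.p.obj η}
    (h : ∀ (a : X.obj) (χ : η ⟶ p.obj a), (bs p χ).hom c = (bs p χ).hom c') : c = c' := by
  obtain ⟨η', ζ, t, hζ⟩ := H.F1 η
  apply hζ.injective
  apply elem_ext₀ H t
  intro a χ
  have := h a (ζ ≫ χ)
  rw [bs_comp] at this
  exact this

/-- The version for algebra maps. -/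
theorem exists_map {η : P.obj} {D : Alg κ} (f : ∀ (a : X.obj) (_ : η ⟶ p.obj a), D ⟶ X.p.obj a)
    (hf : ∀ (a a' : X.obj) (ψ : a ⟶ a') (χ : η ⟶ p.obj a),
      f a χ ≫ X.p.map ψ = f a' (χ ≫ p.map ψ)) :
    ∃ e : D ⟶ P.p.obj η, ∀ a χ, e ≫ bs p χ = f a χ := by
  have h1 : ∀ d : D, ∃ c : P.p.obj η, ∀ a χ, (f a χ).hom d = (bs p χ).hom c := by
    intro d
    apply exists_elem H (fun a χ ↦ (f a χ).hom d)
    intro a a' ψ χ
    rw [← hf]
    rfl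
  choose e he using h1
  refine ⟨CommAlgCat.ofHom
    { toFun := e
      map_one' := ?_
      map_mul' := ?_
      map_zero' := ?_
      map_add' := ?_
      commutes' := ?_ }, ?_⟩
  · apply elem_ext H
    intro a χ
    rw [← he, map_one, map_one]
  · intro x y
    apply elem_ext H
    intro a χ
    rw [← he, map_mul, map_mul, ← he, ← he]
  · apply elem_ext H
    intro a χ
    rw [← he, map_zero, map_zero]
  · intro x y
    apply elem_ext H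
    intro a χ
    rw [← he, map_add, map_add, ← he, ← he]
  · intro r
    apply elem_ext H
    intro a χ
    rw [← he, (f a χ).hom.commutes, (bs p χ).hom.commutes]
  · intro a χ
    ext d
    exact (he d a χ).symm

theorem map_ext {η : P.obj} {D : Alg κ} {e e' : D ⟶ P.p.obj η}
    (h : ∀ (a : X.obj) (χ : η ⟶ p.obj a), e ≫ bs p χ = e' ≫ bs p χ) : e = e' := by
  ext d
  apply elem_ext H
  intro a χ
  exact congrArg (fun g ↦ g.hom d) (h a χ)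

end main

/-! ### Realizations -/

section real

variable {X P Γ : BasedCategory.{0, 1} (Alg κ)} (p : BasedFunctor X P)

/-- A realization of `φ` at `η`: an object `y` of `Γ` over the same algebra with a compatible
family of arrows `y ⟶ φ a` for all arrows `η ⟶ p a`. -/
structure Real (φ : BasedFunctor X Γ) (η : P.obj) where
  y : Γ.obj
  hy : Γ.p.obj y = P.p.obj η
  c : ∀ (a : X.obj) (_ : η ⟶ p.obj a), y ⟶ φ.obj a
  c_lift : ∀ (a : X.obj) (χ : η ⟶ p.obj a), Γ.p.IsHomLift (bs p χ) (c a χ)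
  c_nat : ∀ {a a' : X.obj} (ψ : a ⟶ a') (χ : η ⟶ p.obj a),
    c a χ ≫ φ.map ψ = c a' (χ ≫ p.map ψ)

variable {p} {o : P.obj} (H : Hyp p o) (hΓ : IsCofiberedInGroupoids Γ) {φ : BasedFunctor X Γ}

theorem exists_push_c (hΓ : IsCofiberedInGroupoids Γ) {η η' : P.obj} (R : Real p φ η)
    (μ : η ⟶ η') {w : Γ.obj} (k : R.y ⟶ w) (hk : Γ.p.IsHomLift (P.p.map μ) k)
    (a : X.obj) (χ : η' ⟶ p.obj a) :
    ∃ e : w ⟶ φ.obj a, Γ.p.IsHomLift (bs p χ) e ∧ k ≫ e = R.c a (μ ≫ χ) :=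
  desc hΓ hk (R.c_lift a (μ ≫ χ)) (bs_comp p μ χ).symm

/-- The structure arrows of the push-forward of a realization along an arrow. -/
noncomputable def Real.pc (hΓ : IsCofiberedInGroupoids Γ) {η η' : P.obj} (R : Real p φ η)
    (μ : η ⟶ η') {w : Γ.obj} (k : R.y ⟶ w) (hk : Γ.p.IsHomLift (P.p.map μ) k)
    (a : X.obj) (χ : η' ⟶ p.obj a) : w ⟶ φ.obj a :=
  (exists_push_c hΓ R μ k hk a χ).choose

theorem Real.pc_lift (hΓ : IsCofiberedInGroupoids Γ) {η η' : P.obj} (R : Real p φ η)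
    (μ : η ⟶ η') {w : Γ.obj} (k : R.y ⟶ w) (hk : Γ.p.IsHomLift (P.p.map μ) k)
    (a : X.obj) (χ : η' ⟶ p.obj a) : Γ.p.IsHomLift (bs p χ) (R.pc hΓ μ k hk a χ) :=
  (exists_push_c hΓ R μ k hk a χ).choose_spec.1

theorem Real.comp_pc (hΓ : IsCofiberedInGroupoids Γ) {η η' : P.obj} (R : Real p φ η)
    (μ : η ⟶ η') {w : Γ.obj} (k : R.y ⟶ w) (hk : Γ.p.IsHomLift (P.p.map μ) k)
    (a : X.obj) (χ : η' ⟶ p.obj a) : k ≫ R.pc hΓ μ k hk a χ = R.c a (μ ≫ χ) :=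
  (exists_push_c hΓ R μ k hk a χ).choose_spec.2

/-- The push-forward of a realization along an arrow. -/
noncomputable def Real.push (hΓ : IsCofiberedInGroupoids Γ) {η η' : P.obj} (R : Real p φ η)
    (μ : η ⟶ η') {w : Γ.obj} (k : R.y ⟶ w) (hk : Γ.p.IsHomLift (P.p.map μ) k) :
    Real p φ η' where
  y := w
  hy := IsHomLift.codomain_eq Γ.p (P.p.map μ) k
  c := R.pc hΓ μ k hk
  c_lift := R.pc_lift hΓ μ k hk
  c_nat := fun {a a'} ψ χ ↦ by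
    apply uniq hΓ (g := bs p (χ ≫ p.map ψ)) _ (R.pc_lift hΓ μ k hk a' (χ ≫ p.map ψ)) k
    · rw [← Category.assoc, R.comp_pc, R.comp_pc, R.c_nat, Category.assoc]
    · rw [bs_map]
      exact lift_comp (R.pc_lift hΓ μ k hk a χ) (φ.preserves_isHomLift (X.p.map ψ) ψ)

/-- Coproducts exist in `Γ`. -/
def HasCoprod (Γ : BasedCategory.{0, 1} (Alg κ)) : Prop :=
  ∀ x y : Γ.obj, ∃ (z : Γ.obj) (i : x ⟶ z) (j : y ⟶ z),
      Nonempty (IsColimit (BinaryCofan.mk i j))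

include H

/-- Uniqueness of compatible arrows between realizations. -/
theorem Real.hom_ext (hΓc : HasCoprod Γ) (hΓ : IsCofiberedInGroupoids Γ) {η' : P.obj}
    (R' : Real p φ η') {x : Γ.obj} {θ θ' : x ⟶ R'.y}
    (h : ∀ (a : X.obj) (χ : η' ⟶ p.obj a), θ ≫ R'.c a χ = θ' ≫ R'.c a χ) : θ = θ' := by
  obtain ⟨z, i, j, ⟨hz⟩⟩ := hΓc x R'.y
  have key : ∀ (u : x ⟶ R'.y), ∃ d : z ⟶ R'.y, i ≫ d = u ∧ j ≫ d = 𝟙 _ := by
    intro u
    refine ⟨hz.desc (BinaryCofan.mk u (𝟙 _)), ?_, ?_⟩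
    · exact hz.fac (BinaryCofan.mk u (𝟙 _)) ⟨WalkingPair.left⟩
    · exact hz.fac (BinaryCofan.mk u (𝟙 _)) ⟨WalkingPair.right⟩
  obtain ⟨d, hd1, hd2⟩ := key θ
  obtain ⟨d', hd1', hd2'⟩ := key θ'
  have hdc : ∀ (a : X.obj) (χ : η' ⟶ p.obj a), d ≫ R'.c a χ = d' ≫ R'.c a χ := by
    intro a χ
    apply BinaryCofan.IsColimit.hom_ext hz
    · show i ≫ d ≫ R'.c a χ = i ≫ d' ≫ R'.c a χ
      rw [← Category.assoc, ← Category.assoc, hd1, hd1', h]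
    · show j ≫ d ≫ R'.c a χ = j ≫ d' ≫ R'.c a χ
      rw [← Category.assoc, ← Category.assoc, hd2, hd2']
  have hmap : Γ.p.map d ≫ eqToHom R'.hy = Γ.p.map d' ≫ eqToHom R'.hy := by
    apply map_ext H
    intro a χ
    have hh : Γ.p.IsHomLift (Γ.p.map d ≫ (eqToHom R'.hy ≫ bs p χ)) (d ≫ R'.c a χ) := by
      have h1 : Γ.p.IsHomLift (eqToHom R'.hy ≫ bs p χ) (R'.c a χ) := by
        have := R'.c_lift a χ
        infer_instance
      exact lift_comp (IsHomLift.map Γ.p d) h1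
    have hh' : Γ.p.IsHomLift (Γ.p.map d' ≫ (eqToHom R'.hy ≫ bs p χ)) (d' ≫ R'.c a χ) := by
      have h1 : Γ.p.IsHomLift (eqToHom R'.hy ≫ bs p χ) (R'.c a χ) := by
        have := R'.c_lift a χ
        infer_instance
      exact lift_comp (IsHomLift.map Γ.p d') h1
    rw [hdc] at hh
    have := lift_eq hh hh'
    simpa only [Category.assoc] using this
  have hmap' : Γ.p.map d = Γ.p.map d' := by
    have := congrArg (fun g ↦ g ≫ eqToHom R'.hy.symm) hmap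
    simpa using this
  have : d = d' := by
    apply uniq hΓ (g := Γ.p.map d) (IsHomLift.map Γ.p d) _ j
    · rw [hd2, hd2']
    · rw [hmap']
      exact IsHomLift.map Γ.p d'
  rw [← hd1, ← hd1', this]

/-- Existence of compatible arrows between realizations. -/
theorem Real.exists_hom (hΓc : HasCoprod Γ) (hΓ : IsCofiberedInGroupoids Γ) {η η' : P.obj}
    (R : Real p φ η) (R' : Real p φ η') (μ : η ⟶ η') :
    ∃ θ : R.y ⟶ R'.y, Γ.p.IsHomLift (P.p.map μ) θ ∧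
      ∀ (a : X.obj) (χ : η' ⟶ p.obj a), θ ≫ R'.c a χ = R.c a (μ ≫ χ) := by
  obtain ⟨z, i, j, ⟨hz⟩⟩ := hΓc R.y R'.y
  have key : ∀ (a : X.obj) (χ : η' ⟶ p.obj a), ∃ d : z ⟶ φ.obj a,
      i ≫ d = R.c a (μ ≫ χ) ∧ j ≫ d = R'.c a χ := by
    intro a χ
    refine ⟨hz.desc (BinaryCofan.mk (R.c a (μ ≫ χ)) (R'.c a χ)), ?_, ?_⟩
    · exact hz.fac (BinaryCofan.mk (R.c a (μ ≫ χ)) (R'.c a χ)) ⟨WalkingPair.left⟩
    · exact hz.fac (BinaryCofan.mk (R.c a (μ ≫ χ)) (R'.c a χ)) ⟨WalkingPair.right⟩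
  choose d hd1 hd2 using key
  have hdnat : ∀ (a a' : X.obj) (ψ : a ⟶ a') (χ : η' ⟶ p.obj a),
      d a χ ≫ φ.map ψ = d a' (χ ≫ p.map ψ) := by
    intro a a' ψ χ
    apply BinaryCofan.IsColimit.hom_ext hz
    · show i ≫ d a χ ≫ φ.map ψ = i ≫ d a' (χ ≫ p.map ψ)
      rw [← Category.assoc, hd1, hd1, R.c_nat, Category.assoc]
    · show j ≫ d a χ ≫ φ.map ψ = j ≫ d a' (χ ≫ p.map ψ)
      rw [← Category.assoc, hd2, hd2, R'.c_nat]
  -- the base maps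
  obtain ⟨e, he⟩ := exists_map H (η := η') (D := Γ.p.obj z)
    (fun a χ ↦ Γ.p.map (d a χ) ≫ eqToHom (φ.w_obj a)) (by
      intro a a' ψ χ
      have h1 : Γ.p.IsHomLift ((Γ.p.map (d a χ) ≫ eqToHom (φ.w_obj a)) ≫ X.p.map ψ)
          (d a χ ≫ φ.map ψ) :=
        lift_comp (inferInstance : Γ.p.IsHomLift (Γ.p.map (d a χ) ≫ eqToHom (φ.w_obj a)) (d a χ))
          (φ.preserves_isHomLift (X.p.map ψ) ψ)
      rw [hdnat] at h1
      exact lift_eq h1 inferInstance)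
  have hdl : ∀ (a : X.obj) (χ : η' ⟶ p.obj a), Γ.p.IsHomLift (e ≫ bs p χ) (d a χ) := by
    intro a χ
    rw [he]
    infer_instance
  -- `j` followed by `e` is the identity
  have hje : Γ.p.map j ≫ e = eqToHom R'.hy := by
    apply map_ext H
    intro a χ
    have h1 : Γ.p.IsHomLift (Γ.p.map j ≫ (e ≫ bs p χ)) (j ≫ d a χ) :=
      lift_comp (IsHomLift.map Γ.p j) (hdl a χ)
    rw [hd2] at h1
    have h2 : Γ.p.IsHomLift (eqToHom R'.hy ≫ bs p χ) (R'.c a χ) := by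
      have := R'.c_lift a χ
      infer_instance
    rw [Category.assoc]
    exact lift_eq h1 h2
  obtain ⟨ρ, hρ1, hρ2⟩ := desc hΓ (φ := j) (ψ := 𝟙 R'.y) (g := e) (IsHomLift.map Γ.p j)
    (h := eqToHom R'.hy) (by
      have := (IsHomLift.id (p := Γ.p) (R := Γ.p.obj R'.y) (a := R'.y) rfl)
      have h3 : Γ.p.IsHomLift (𝟙 _ ≫ eqToHom R'.hy) (𝟙 R'.y) := inferInstance
      simpa using h3) hje
  refine ⟨i ≫ ρ, ?_, ?_⟩
  swap
  · intro a χ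
    have h1 : ρ ≫ R'.c a χ = d a χ := by
      apply uniq hΓ (lift_comp hρ1 (R'.c_lift a χ)) (hdl a χ) j
      rw [← Category.assoc, hρ2, Category.id_comp, hd2]
    rw [Category.assoc, h1, hd1]
  · have hii : Γ.p.map i ≫ e = eqToHom R.hy ≫ P.p.map μ := by
      apply map_ext H
      intro a χ
      have h1 : Γ.p.IsHomLift (Γ.p.map i ≫ (e ≫ bs p χ)) (i ≫ d a χ) :=
        lift_comp (IsHomLift.map Γ.p i) (hdl a χ)
      rw [hd1] at h1
      have h2 : Γ.p.IsHomLift (eqToHom R.hy ≫ bs p (μ ≫ χ)) (R.c a (μ ≫ χ)) := by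
        have := R.c_lift a (μ ≫ χ)
        infer_instance
      rw [Category.assoc, Category.assoc, ← bs_comp]
      exact lift_eq h1 h2
    have h3 : Γ.p.IsHomLift (Γ.p.map i ≫ e) (i ≫ ρ) := lift_comp (IsHomLift.map Γ.p i) hρ1
    rw [hii] at h3
    have h4 : Γ.p.IsHomLift (eqToHom R.hy.symm ≫ eqToHom R.hy ≫ P.p.map μ) (i ≫ ρ) :=
      inferInstance
    simpa using h4

end real

/-! ### Existence of realizations -/

section exist

theorem ff_of_lift {𝒳 : BasedCategory.{0, 1} (Alg κ)} {x y : 𝒳.obj} {A B : Alg κ}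
    {f : A ⟶ B} {k : x ⟶ y} (h : 𝒳.p.IsHomLift f k) (hf : f.hom.toRingHom.FaithfullyFlat) :
    (𝒳.p.map k).hom.toRingHom.FaithfullyFlat := by
  obtain ⟨⟩ := h
  exact hf

theorem cancel_ff {𝒳 : BasedCategory.{0, 1} (Alg κ)} (h𝒳 : IsStack 𝒳) {z a b : 𝒳.obj}
    {A : Alg κ} {g : 𝒳.p.obj z ⟶ A}
    (ν : a ⟶ b) (hν : (𝒳.p.map ν).hom.toRingHom.FaithfullyFlat) {u v : z ⟶ a}
    (hu : 𝒳.p.IsHomLift g u) (hv : 𝒳.p.IsHomLift g v) (h : u ≫ ν = v ≫ ν) : u = v := by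
  have huv : 𝒳.p.map u = 𝒳.p.map v := by
    have h1 := IsHomLift.fac' 𝒳.p g u
    have h2 := IsHomLift.fac' 𝒳.p g v
    rw [h1, h2]
  obtain ⟨h₀, -, hh⟩ := h𝒳.hom_descent (w := z) (z := a) (fun _ : Unit ↦ b) (fun _ ↦ ν)
    (isFpqcCover_of_ff _ hν) (fun _ ↦ u ≫ ν) (𝒳.p.map u) (by simp)
    (by
      intro i j y k₁ k₂ hk
      rw [Category.assoc, Category.assoc, hk])
  rw [hh u ⟨rfl, fun _ ↦ rfl⟩, hh v ⟨huv.symm, fun _ ↦ h.symm⟩]

variable {X P Γ : BasedCategory.{0, 1} (Alg κ)} {p : BasedFunctor X P}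
  {o : P.obj} (H : Hyp p o) {φ : BasedFunctor X Γ}

include H in
/-- Realizations at objects which receive an arrow from `o`. -/
theorem exists_real₀ (hΓ : IsCofiberedInGroupoids Γ) (ξ : Γ.obj)
    (hξ : Γ.p.obj ξ = CommAlgCat.of κ κ)
    (c : ∀ (a : X.obj) (_ : o ⟶ p.obj a), ξ ⟶ φ.obj a)
    (hc : ∀ (a a' : X.obj) (ψ : a ⟶ a') (t : o ⟶ p.obj a),
        c a t ≫ φ.map ψ = c a' (t ≫ p.map ψ)) {η : P.obj} (t : o ⟶ η) :
    Nonempty (Real p φ η) := by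
  obtain ⟨y, k, hk⟩ := push hΓ hξ (eqToHom (H.ho.symm) ≫ P.p.map t)
  have key : ∀ (a : X.obj) (χ : η ⟶ p.obj a), ∃ e : y ⟶ φ.obj a,
      Γ.p.IsHomLift (bs p χ) e ∧ k ≫ e = c a (t ≫ χ) := by
    intro a χ
    apply desc hΓ hk (h := eqToHom hξ.symm ≫ Γ.p.map (c a (t ≫ χ)) ≫ eqToHom (φ.w_obj a))
    · infer_instance
    · exact alg_hom_ext_of_field rfl _ _
  choose e he1 he2 using key
  refine ⟨⟨y, IsHomLift.codomain_eq Γ.p (eqToHom (H.ho.symm) ≫ P.p.map t) k, e, he1, ?_⟩⟩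
  intro a a' ψ χ
  apply uniq hΓ (g := bs p (χ ≫ p.map ψ)) _ (he1 _ _) k
  · rw [← Category.assoc, he2, he2, hc, Category.assoc]
  · rw [bs_map]
    exact lift_comp (he1 _ _) (φ.preserves_isHomLift (X.p.map ψ) ψ)

/-- The transport relation. -/
def Tr (hΓ : IsCofiberedInGroupoids Γ) {η η' : P.obj} (ζ : η ⟶ η') (R : Real p φ η')
    {w : Γ.obj} (k τ : R.y ⟶ w) : Prop :=
  ∃ (η'' : P.obj) (μ ν : η' ⟶ η'') (hk : Γ.p.IsHomLift (P.p.map μ) k), ζ ≫ μ = ζ ≫ ν ∧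
    Γ.p.IsHomLift (P.p.map ν) τ ∧
    ∀ (a : X.obj) (χ : η'' ⟶ p.obj a), τ ≫ R.pc hΓ μ k hk a χ = R.c a (ν ≫ χ)

section

variable {hΓ : IsCofiberedInGroupoids Γ} {η η' : P.obj} {ζ : η ⟶ η'} {R : Real p φ η'}

include H

theorem Tr.indep {w : Γ.obj} {k τ : R.y ⟶ w} (h : Tr hΓ ζ R k τ) {η₂ : P.obj} (μ₂ ν₂ : η' ⟶ η₂)
    (hk₂ : Γ.p.IsHomLift (P.p.map μ₂) k) (hτ₂ : Γ.p.IsHomLift (P.p.map ν₂) τ)
    (hζ : ζ ≫ μ₂ = ζ ≫ ν₂) {a : X.obj} (χ : η₂ ⟶ p.obj a) {e : w ⟶ φ.obj a}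
    (he : Γ.p.IsHomLift (bs p χ) e) (hke : k ≫ e = R.c a (μ₂ ≫ χ)) :
    τ ≫ e = R.c a (ν₂ ≫ χ) := by
  obtain ⟨η'', μ, ν, hk, hζ', hτ, h⟩ := h
  have e1 : P.p.obj η'' = P.p.obj η₂ :=
    (IsHomLift.codomain_eq Γ.p (P.p.map μ) k).symm.trans
      (IsHomLift.codomain_eq Γ.p (P.p.map μ₂) k)
  have e2 : P.p.map μ ≫ eqToHom e1 = P.p.map μ₂ :=
    lift_eq (inferInstance : Γ.p.IsHomLift (P.p.map μ ≫ eqToHom e1) k) hk₂
  have e3 : P.p.map ν ≫ eqToHom e1 = P.p.map ν₂ :=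
    lift_eq (inferInstance : Γ.p.IsHomLift (P.p.map ν ≫ eqToHom e1) τ) hτ₂
  obtain ⟨l, hl1, hl2⟩ := desc H.hP (IsHomLift.map P.p μ) (IsHomLift.map P.p μ₂) e2
  have hl3 : ν ≫ l = ν₂ := by
    apply uniq H.hP (g := P.p.map ν₂) _ (IsHomLift.map P.p ν₂) ζ
    · rw [← Category.assoc, ← hζ', Category.assoc, hl2, hζ]
    · rw [← e3]
      exact lift_comp (IsHomLift.map P.p ν) hl1
  have e4 : e = R.pc hΓ μ k hk a (l ≫ χ) := by
    apply uniq hΓ (g := eqToHom e1 ≫ bs p χ) _ _ k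
    · rw [hke, Real.comp_pc, ← Category.assoc, hl2]
    · infer_instance
    · have e5 : bs p (l ≫ χ) = eqToHom e1 ≫ bs p χ := by
        rw [bs_comp]
        congr 1
        exact (IsHomLift.eq_of_isHomLift P.p (eqToHom e1) l).symm
      rw [← e5]
      exact R.pc_lift hΓ μ k hk a (l ≫ χ)
  rw [e4, h, ← Category.assoc, hl3]

theorem Tr.exists_tr (hΓc : HasCoprod Γ) {w : Γ.obj} (k : R.y ⟶ w)
    (b : Γ.p.obj R.y ⟶ Γ.p.obj w)
    (h : (P.p.map ζ ≫ eqToHom R.hy.symm) ≫ Γ.p.map k =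
      (P.p.map ζ ≫ eqToHom R.hy.symm) ≫ b) :
    ∃ τ : R.y ⟶ w, Γ.p.map τ = b ∧ Tr hΓ ζ R k τ := by
  obtain ⟨η'', μ, hμ⟩ := H.hP.exists_push η' (eqToHom R.hy.symm ≫ Γ.p.map k)
  have e1 : P.p.obj η'' = Γ.p.obj w :=
    IsHomLift.codomain_eq P.p (eqToHom R.hy.symm ≫ Γ.p.map k) μ
  have e2 : P.p.map μ = (eqToHom R.hy.symm ≫ Γ.p.map k) ≫ eqToHom e1.symm :=
    lift_eq (IsHomLift.map P.p μ) inferInstance
  have hk : Γ.p.IsHomLift (P.p.map μ) k := by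
    rw [e2]
    infer_instance
  obtain ⟨ν, hν1, hν2⟩ := desc H.hP (g := eqToHom R.hy.symm ≫ b ≫ eqToHom e1.symm)
    (IsHomLift.map P.p ζ) (IsHomLift.map P.p (ζ ≫ μ)) (by
      rw [Functor.map_comp, e2]
      have := congrArg (fun g ↦ g ≫ eqToHom e1.symm) h
      simp only [Category.assoc] at this
      simp only [Category.assoc]
      exact this.symm)
  obtain ⟨τ, hτ1, hτ2⟩ : ∃ τ : R.y ⟶ w, Γ.p.IsHomLift (P.p.map ν) τ ∧
      ∀ (a : X.obj) (χ : η'' ⟶ p.obj a), τ ≫ R.pc hΓ μ k hk a χ = R.c a (ν ≫ χ) :=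
    Real.exists_hom H hΓc hΓ R (R.push hΓ μ k hk) ν
  have hb : Γ.p.IsHomLift b τ := by
    have e3 : P.p.map ν = eqToHom R.hy.symm ≫ b ≫ eqToHom e1.symm :=
      lift_eq (IsHomLift.map P.p ν) hν1
    rw [e3] at hτ1
    have : Γ.p.IsHomLift (eqToHom R.hy ≫ (eqToHom R.hy.symm ≫ b ≫ eqToHom e1.symm) ≫ eqToHom e1)
      τ := inferInstance
    simpa using this
  exact ⟨τ, (IsHomLift.eq_of_isHomLift Γ.p b τ).symm, η'', μ, ν, hk, hν2.symm, hτ1, hτ2⟩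

theorem Tr.unique (hΓc : HasCoprod Γ) {w : Γ.obj} {k τ τ' : R.y ⟶ w} (h : Tr hΓ ζ R k τ)
    (h' : Tr hΓ ζ R k τ') (hb : Γ.p.map τ = Γ.p.map τ') : τ = τ' := by
  obtain ⟨η'', μ, ν, hk, hζ', hτ, h⟩ := h
  have hτ' : Γ.p.IsHomLift (P.p.map ν) τ' := by
    have e1 := IsHomLift.fac Γ.p (P.p.map ν) τ
    rw [e1, hb]
    infer_instance
  apply Real.hom_ext H hΓc hΓ (R.push hΓ μ k hk)
  intro a χ
  exact (h a χ).trans (Tr.indep H h' μ ν hk hτ' hζ' χ (R.pc_lift hΓ μ k hk a χ)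
    (Real.comp_pc hΓ R μ k hk a χ)).symm

theorem Tr.refl {w : Γ.obj} (k : R.y ⟶ w) : Tr hΓ ζ R k k := by
  obtain ⟨η'', μ, hμ⟩ := H.hP.exists_push η' (eqToHom R.hy.symm ≫ Γ.p.map k)
  have e1 : P.p.obj η'' = Γ.p.obj w :=
    IsHomLift.codomain_eq P.p (eqToHom R.hy.symm ≫ Γ.p.map k) μ
  have e2 : P.p.map μ = (eqToHom R.hy.symm ≫ Γ.p.map k) ≫ eqToHom e1.symm :=
    lift_eq (IsHomLift.map P.p μ) inferInstance
  have hk : Γ.p.IsHomLift (P.p.map μ) k := by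
    rw [e2]
    infer_instance
  exact ⟨η'', μ, μ, hk, rfl, hk, fun a χ ↦ Real.comp_pc hΓ R μ k hk a χ⟩

theorem Tr.trans {w : Γ.obj} {k τ σ : R.y ⟶ w} (h : Tr hΓ ζ R k τ) (h' : Tr hΓ ζ R τ σ) :
    Tr hΓ ζ R k σ := by
  have hh := h
  obtain ⟨η'', μ, ν, hk, hζ, hτ, h1⟩ := h
  obtain ⟨η₂, μ₂, ν₂, hk₂, hζ₂, hσ, h2⟩ := h'
  -- an arrow `ν₃ : η' ⟶ η''` below `σ`
  have e1 : P.p.obj η₂ = P.p.obj η'' :=
    (IsHomLift.codomain_eq Γ.p (P.p.map ν₂) σ).symm.trans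
      (IsHomLift.codomain_eq Γ.p (P.p.map μ) k)
  have e2 : P.p.map μ₂ ≫ eqToHom e1 = P.p.map ν :=
    lift_eq (inferInstance : Γ.p.IsHomLift (P.p.map μ₂ ≫ eqToHom e1) τ) hτ
  obtain ⟨l, hl1, hl2⟩ := desc H.hP (IsHomLift.map P.p μ₂) (IsHomLift.map P.p ν) e2
  have hl3 : P.p.map l = eqToHom e1 := (IsHomLift.eq_of_isHomLift P.p (eqToHom e1) l).symm
  have hσ' : Γ.p.IsHomLift (P.p.map (ν₂ ≫ l)) σ := by
    rw [Functor.map_comp, hl3]
    infer_instance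
  have hζ₃ : ζ ≫ ν = ζ ≫ ν₂ ≫ l := by
    rw [← hl2, ← Category.assoc, ← Category.assoc, hζ₂]
  refine ⟨η'', μ, ν₂ ≫ l, hk, hζ.trans hζ₃, hσ', ?_⟩
  intro a χ
  exact Tr.indep H ⟨η₂, μ₂, ν₂, hk₂, hζ₂, hσ, h2⟩ ν (ν₂ ≫ l) hτ hσ' hζ₃ χ
    (R.pc_lift hΓ μ k hk a χ) (h1 a χ)

theorem Tr.comp {w w' : Γ.obj} {k τ : R.y ⟶ w} (h : Tr hΓ ζ R k τ) (ψ : w ⟶ w') :
    Tr hΓ ζ R (k ≫ ψ) (τ ≫ ψ) := by
  obtain ⟨η'', μ, ν, hk, hζ, hτ, h1⟩ := h
  have e0 : Γ.p.obj w = P.p.obj η'' := IsHomLift.codomain_eq Γ.p (P.p.map μ) k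
  obtain ⟨η₂, l, hl⟩ := H.hP.exists_push η'' (eqToHom e0.symm ≫ Γ.p.map ψ)
  have e1 : P.p.obj η₂ = Γ.p.obj w' :=
    IsHomLift.codomain_eq P.p (eqToHom e0.symm ≫ Γ.p.map ψ) l
  have e2 : P.p.map l = (eqToHom e0.symm ≫ Γ.p.map ψ) ≫ eqToHom e1.symm :=
    lift_eq (IsHomLift.map P.p l) inferInstance
  have hl' : Γ.p.IsHomLift (P.p.map l) ψ := by
    rw [e2]
    infer_instance
  have hk' : Γ.p.IsHomLift (P.p.map (μ ≫ l)) (k ≫ ψ) := by
    rw [Functor.map_comp]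
    exact lift_comp hk hl'
  have hτ' : Γ.p.IsHomLift (P.p.map (ν ≫ l)) (τ ≫ ψ) := by
    rw [Functor.map_comp]
    exact lift_comp hτ hl'
  refine ⟨η₂, μ ≫ l, ν ≫ l, hk', ?_, hτ', ?_⟩
  · rw [← Category.assoc, ← Category.assoc, hζ]
  · intro a χ
    rw [Category.assoc]
    have h3 : ψ ≫ R.pc hΓ (μ ≫ l) (k ≫ ψ) hk' a χ = R.pc hΓ μ k hk a (l ≫ χ) := by
      apply uniq hΓ (g := bs p (l ≫ χ)) _ (R.pc_lift hΓ μ k hk a (l ≫ χ)) k
      · rw [← Category.assoc, R.comp_pc, R.comp_pc, Category.assoc]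
      · rw [bs_comp]
        exact lift_comp hl' (R.pc_lift hΓ (μ ≫ l) (k ≫ ψ) hk' a χ)
    rw [h3, h1, Category.assoc]

/-- Arrows `η' ⟶ p a` which agree on `η` give arrows related by transport. -/
theorem Tr.of_eq (hΓc : HasCoprod Γ) {a : X.obj} (χ₁ χ₂ : η' ⟶ p.obj a) (h : ζ ≫ χ₁ = ζ ≫ χ₂) :
    Tr hΓ ζ R (R.c a χ₁) (R.c a χ₂) := by
  have hl : ∀ χ : η' ⟶ p.obj a, Γ.p.IsHomLift (P.p.map χ) (R.c a χ) := by
    intro χ
    have h1 := R.c_lift a χ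
    have h2 : P.p.map χ = bs p χ ≫ eqToHom (p.w_obj a).symm := by simp [bs]
    rw [h2]
    infer_instance
  have hb : ∀ χ : η' ⟶ p.obj a, Γ.p.map (R.c a χ) =
      eqToHom R.hy ≫ P.p.map χ ≫ eqToHom ((p.w_obj a).trans (φ.w_obj a).symm) := by
    intro χ
    exact IsHomLift.fac' Γ.p (P.p.map χ) (R.c a χ)
  obtain ⟨τ, hτ1, hτ2⟩ := Tr.exists_tr H (hΓ := hΓ) (ζ := ζ) hΓc (R.c a χ₁)
    (Γ.p.map (R.c a χ₂)) (by
      rw [hb, hb]
      simp only [Category.assoc, eqToHom_trans_assoc, eqToHom_refl, Category.id_comp]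
      rw [← Functor.map_comp_assoc, ← Functor.map_comp_assoc, h])
  have hτl : Γ.p.IsHomLift (P.p.map χ₂) τ := by
    have h1 := IsHomLift.fac Γ.p (P.p.map χ₂) (R.c a χ₂)
    rw [h1, ← hτ1]
    infer_instance
  have h1 := Tr.indep H hτ2 χ₁ χ₂ (hl χ₁) hτl h (𝟙 (p.obj a)) (e := 𝟙 (φ.obj a)) (by
    have : Γ.p.IsHomLift (𝟙 (P.p.obj (p.obj a)) ≫ eqToHom (p.w_obj a)) (𝟙 (φ.obj a)) := by
      have := IsHomLift.id (p := Γ.p) (R := P.p.obj (p.obj a)) (a := φ.obj a)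
        ((φ.w_obj a).trans (p.w_obj a).symm)
      infer_instance
    simpa [bs] using this) (by simp)
  rw [Category.comp_id, Category.comp_id] at h1
  rw [← h1]
  exact hτ2

/-- The descent datum attached to a realization at `η'` and a covering `η ⟶ η'`. -/
theorem exists_datum (hΓ : IsCofiberedInGroupoids Γ) (hΓc : HasCoprod Γ) (ζ : η ⟶ η')
    (R : Real p φ η') :
    ∃ D : DescentDatum Γ (A := P.p.obj η) (fun _ : Unit ↦ R.y)
      (fun _ ↦ P.p.map ζ ≫ eqToHom R.hy.symm), ∀ {w : Γ.obj} (k : R.y ⟶ w)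
        (b : Γ.p.obj R.y ⟶ Γ.p.obj w) (h : (P.p.map ζ ≫ eqToHom R.hy.symm) ≫ Γ.p.map k =
          (P.p.map ζ ≫ eqToHom R.hy.symm) ≫ b), Tr hΓ ζ R k (D.tr (i := ()) k () b h) := by
  have key : ∀ {w : Γ.obj} (k : R.y ⟶ w) (b : Γ.p.obj R.y ⟶ Γ.p.obj w)
      (_ : (P.p.map ζ ≫ eqToHom R.hy.symm) ≫ Γ.p.map k =
          (P.p.map ζ ≫ eqToHom R.hy.symm) ≫ b),
      ∃ τ : R.y ⟶ w, Γ.p.map τ = b ∧ Tr hΓ ζ R k τ := fun k b h ↦
    Tr.exists_tr H hΓc k b h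
  choose tr h1 h2 using @key
  refine ⟨{ tr := fun k _ b h ↦ tr k b h
            map_tr := fun k _ b h ↦ h1 k b h
            tr_self := ?_
            tr_tr := ?_
            tr_comp := ?_ }, fun k b h ↦ h2 k b h⟩
  · intro i w k
    exact (Tr.unique H hΓc (Tr.refl H k) (h2 k (Γ.p.map k) rfl) (h1 k _ rfl).symm).symm
  · intro i w k j b h k' c h' h''
    apply Tr.unique H hΓc (k := k) (Tr.trans H (h2 k b h) (h2 _ c h')) (h2 k c h'')
    rw [h1, h1]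
  · intro i w w' k ψ j b h h'
    apply Tr.unique H hΓc (k := k ≫ ψ) (h2 (k ≫ ψ) _ h') (Tr.comp H (h2 k b h) ψ)
    rw [h1, Functor.map_comp, h1]

end

include H in
/-- Realizations exist. -/
theorem exists_real (hΓ : IsStack Γ) (hΓc : HasCoprod Γ) (ξ : Γ.obj)
    (hξ : Γ.p.obj ξ = CommAlgCat.of κ κ)
    (c : ∀ (a : X.obj) (_ : o ⟶ p.obj a), ξ ⟶ φ.obj a)
    (hc : ∀ (a a' : X.obj) (ψ : a ⟶ a') (t : o ⟶ p.obj a),
        c a t ≫ φ.map ψ = c a' (t ≫ p.map ψ)) (η : P.obj) :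
    Nonempty (Real p φ η) := by
  have hΓ' := hΓ.toIsCofiberedInGroupoids
  obtain ⟨η', ζ, t, hζ⟩ := H.F1 η
  obtain ⟨R⟩ := exists_real₀ H hΓ' ξ hξ c hc t
  obtain ⟨D, hD⟩ := exists_datum H hΓ' hΓc ζ R
  have hff : (P.p.map ζ ≫ eqToHom R.hy.symm).hom.toRingHom.FaithfullyFlat := by
    have h1 : P.p.IsHomLift (P.p.map ζ) ζ := inferInstance
    have h2 : (eqToHom R.hy.symm : P.p.obj η' ⟶ Γ.p.obj R.y).hom.toRingHom.FaithfullyFlat := by
      apply RingHom.FaithfullyFlat.of_bijective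
      exact (ConcreteCategory.bijective_of_isIso (eqToHom R.hy.symm))
    exact RingHom.FaithfullyFlat.stableUnderComposition _ _ hζ h2
  obtain ⟨z, ζz, hz1, hz2, hz3⟩ := hΓ.obj_descent (A := P.p.obj η) (fun _ : Unit ↦ R.y)
    (fun _ ↦ P.p.map ζ ≫ eqToHom R.hy.symm) (isFpqcCover_of_ff _ hff) D
  -- the arrow `z ⟶ R.y`
  obtain ⟨q, hq⟩ : ∃ q : z ⟶ R.y, q = ζz () := ⟨_, rfl⟩
  have hqlift : Γ.p.IsHomLift (P.p.map ζ) q := by
    have h1 := hz2 ()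
    rw [← hq] at h1
    have h2 : Γ.p.IsHomLift ((P.p.map ζ ≫ eqToHom R.hy.symm) ≫ eqToHom R.hy) q := inferInstance
    simpa using h2
  -- equality after transport
  have hqtr : ∀ {a : X.obj} (χ₁ χ₂ : η' ⟶ p.obj a), ζ ≫ χ₁ = ζ ≫ χ₂ →
      q ≫ R.c a χ₁ = q ≫ R.c a χ₂ := by
    intro a χ₁ χ₂ h
    have hb : ∀ χ : η' ⟶ p.obj a, Γ.p.map (R.c a χ) =
        eqToHom R.hy ≫ P.p.map χ ≫ eqToHom ((p.w_obj a).trans (φ.w_obj a).symm) := by
      intro χ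
      have h1 := R.c_lift a χ
      have h2 : P.p.map χ = bs p χ ≫ eqToHom (p.w_obj a).symm := by simp [bs]
      have h3 : Γ.p.IsHomLift (P.p.map χ) (R.c a χ) := by
        rw [h2]
        infer_instance
      exact IsHomLift.fac' Γ.p (P.p.map χ) (R.c a χ)
    have h1 : (P.p.map ζ ≫ eqToHom R.hy.symm) ≫ Γ.p.map (R.c a χ₁) =
        (P.p.map ζ ≫ eqToHom R.hy.symm) ≫ Γ.p.map (R.c a χ₂) := by
      rw [hb, hb]
      simp only [Category.assoc, eqToHom_trans_assoc, eqToHom_refl, Category.id_comp]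
      rw [← Functor.map_comp_assoc, ← Functor.map_comp_assoc, h]
    have h2 := hz3 (i := ()) (R.c a χ₁) () (Γ.p.map (R.c a χ₂)) h1
    have h3 : D.tr (i := ()) (R.c a χ₁) () (Γ.p.map (R.c a χ₂)) h1 = R.c a χ₂ := by
      apply Tr.unique H hΓc (hD _ _ _) (Tr.of_eq H (hΓ := hΓ') hΓc χ₁ χ₂ h)
      exact D.map_tr (i := ()) _ _ _ _
    rw [h3, ← hq] at h2
    exact h2
  -- the arrows `z ⟶ φ a`
  have key : ∀ (a : X.obj) (χ : η ⟶ p.obj a), ∃ e : z ⟶ φ.obj a, Γ.p.IsHomLift (bs p χ) e ∧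
      ∀ (a₁ : X.obj) (ψ₁ : a ⟶ a₁) (χ₁ : η' ⟶ p.obj a₁), ζ ≫ χ₁ = χ ≫ p.map ψ₁ →
        e ≫ φ.map ψ₁ = q ≫ R.c a₁ χ₁ := by
    intro a χ
    obtain ⟨a', ψ, χ', hsq, hψ⟩ := exists_cover_square H ζ hζ χ
    have hff' : (Γ.p.map (φ.map ψ)).hom.toRingHom.FaithfullyFlat :=
      ff_of_lift (φ.preserves_isHomLift (X.p.map ψ) ψ) hψ
    have hg : Γ.p.IsHomLift (bs p χ ≫ X.p.map ψ) (q ≫ R.c a' χ') := by
      have h1 := lift_comp hqlift (R.c_lift a' χ')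
      rw [← bs_comp, hsq, bs_map] at h1
      exact h1
    obtain ⟨e, ⟨he1, he2⟩, -⟩ := hΓ.hom_descent (w := z) (z := φ.obj a) (fun _ : Unit ↦ φ.obj a')
      (fun _ ↦ φ.map ψ) (isFpqcCover_of_ff _ hff') (fun _ ↦ q ≫ R.c a' χ')
      (eqToHom hz1 ≫ bs p χ ≫ eqToHom (φ.w_obj a).symm)
      (by
        intro i
        have h1 := IsHomLift.fac' Γ.p (bs p χ ≫ X.p.map ψ) (q ≫ R.c a' χ')
        have h2 := IsHomLift.fac' Γ.p (X.p.map ψ) (φ.map ψ)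
        rw [h1, h2]
        simp)
      (by
        intro i j w k₁ k₂ hk
        -- push `a'` along the base of `k₁`
        obtain ⟨a'', κ₁, hκ₁⟩ := H.hX.exists_push a' (eqToHom (φ.w_obj a').symm ≫ Γ.p.map k₁)
        have e1 : X.p.obj a'' = Γ.p.obj w :=
          IsHomLift.codomain_eq X.p (eqToHom (φ.w_obj a').symm ≫ Γ.p.map k₁) κ₁
        have e2 : X.p.map κ₁ = (eqToHom (φ.w_obj a').symm ≫ Γ.p.map k₁) ≫ eqToHom e1.symm :=
          lift_eq (IsHomLift.map X.p κ₁) inferInstance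
        have hk' : Γ.p.map (φ.map ψ) ≫ Γ.p.map k₁ = Γ.p.map (φ.map ψ) ≫ Γ.p.map k₂ := by
          rw [← Functor.map_comp, ← Functor.map_comp, hk]
        have h2 := IsHomLift.fac' Γ.p (X.p.map ψ) (φ.map ψ)
        have h2' : X.p.map ψ ≫ eqToHom (φ.w_obj a').symm =
            eqToHom (φ.w_obj a).symm ≫ Γ.p.map (φ.map ψ) := by
          rw [h2]
          simp
        obtain ⟨κ₂, hκ₂, hκ₂'⟩ := desc H.hX (g := (eqToHom (φ.w_obj a').symm ≫ Γ.p.map k₂) ≫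
          eqToHom e1.symm) (IsHomLift.map X.p ψ) (IsHomLift.map X.p (ψ ≫ κ₁)) (by
            rw [Functor.map_comp, e2]
            simp only [← Category.assoc]
            rw [h2']
            simp only [Category.assoc]
            rw [reassoc_of% hk'])
        have e3 : X.p.map κ₂ = (eqToHom (φ.w_obj a').symm ≫ Γ.p.map k₂) ≫ eqToHom e1.symm :=
          lift_eq (IsHomLift.map X.p κ₂) hκ₂
        obtain ⟨θ, hθ1, hθ2⟩ := desc hΓ' (φ := φ.map κ₁) (ψ := k₁) (f := X.p.map κ₁)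
          (g := eqToHom e1) (h := eqToHom (φ.w_obj a').symm ≫ Γ.p.map k₁)
          (φ.preserves_isHomLift (X.p.map κ₁) κ₁) inferInstance (by rw [e2]; simp)
        have hθ3 : φ.map κ₂ ≫ θ = k₂ := by
          apply uniq hΓ' (g := eqToHom (φ.w_obj a').symm ≫ Γ.p.map k₂) _ inferInstance (φ.map ψ)
          · rw [← Category.assoc, ← Functor.map_comp, hκ₂', Functor.map_comp, Category.assoc, hθ2,
              hk]
          · have h4 := lift_comp (φ.preserves_isHomLift (X.p.map κ₂) κ₂) hθ1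
            rw [e3] at h4
            simpa using h4
        show (q ≫ R.c a' χ') ≫ k₁ = (q ≫ R.c a' χ') ≫ k₂
        rw [← hθ2, ← hθ3]
        have h5 : q ≫ R.c a'' (χ' ≫ p.map κ₁) = q ≫ R.c a'' (χ' ≫ p.map κ₂) := by
          apply hqtr
          rw [← Category.assoc, ← Category.assoc, hsq, Category.assoc, Category.assoc,
            ← Functor.map_comp, ← Functor.map_comp, hκ₂']
        rw [← R.c_nat, ← R.c_nat] at h5
        have h6 := congrArg (fun g ↦ g ≫ θ) h5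
        simpa only [Category.assoc] using h6)
    have he1' : Γ.p.IsHomLift (bs p χ) e := by
      have h1 : Γ.p.IsHomLift (eqToHom hz1.symm ≫ (eqToHom hz1 ≫ bs p χ ≫
          eqToHom (φ.w_obj a).symm) ≫ eqToHom (φ.w_obj a)) e := by
        rw [← he1]
        infer_instance
      simpa using h1
    have he2' : e ≫ φ.map ψ = q ≫ R.c a' χ' := he2 ()
    refine ⟨e, he1', ?_⟩
    intro a₁ ψ₁ χ₁ hsq₁
    obtain ⟨B, i, j, hij, hi⟩ := exists_square (X.p.map ψ) (X.p.map ψ₁) hψ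
    obtain ⟨a₂, ν₁, hν₁⟩ := H.hX.exists_push a₁ i
    have hν2 := IsHomLift.codomain_eq X.p i ν₁
    subst hν2
    have hν3 := IsHomLift.eq_of_isHomLift X.p i ν₁
    subst hν3
    obtain ⟨ν', hν', hν''⟩ := desc H.hX (IsHomLift.map X.p ψ) (IsHomLift.map X.p (ψ₁ ≫ ν₁))
      (g := j) (by rw [Functor.map_comp]; exact hij.symm)
    have hffν : (Γ.p.map (φ.map ν₁)).hom.toRingHom.FaithfullyFlat :=
      ff_of_lift (φ.preserves_isHomLift (X.p.map ν₁) ν₁) hi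
    have hl1 : Γ.p.IsHomLift (bs p χ ≫ X.p.map ψ₁) (e ≫ φ.map ψ₁) :=
      lift_comp he1' (φ.preserves_isHomLift (X.p.map ψ₁) ψ₁)
    have hl2 : Γ.p.IsHomLift (bs p χ ≫ X.p.map ψ₁) (q ≫ R.c a₁ χ₁) := by
      have h1 := lift_comp hqlift (R.c_lift a₁ χ₁)
      rw [← bs_comp, hsq₁, bs_map] at h1
      exact h1
    have hl1' : Γ.p.IsHomLift (eqToHom hz1 ≫ bs p χ ≫ X.p.map ψ₁) (e ≫ φ.map ψ₁) := inferInstance
    have hl2' : Γ.p.IsHomLift (eqToHom hz1 ≫ bs p χ ≫ X.p.map ψ₁) (q ≫ R.c a₁ χ₁) :=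
      inferInstance
    apply cancel_ff hΓ (φ.map ν₁) hffν hl1' hl2'
    have h5 : q ≫ R.c a₂ (χ' ≫ p.map ν') = q ≫ R.c a₂ (χ₁ ≫ p.map ν₁) := by
      apply hqtr
      rw [← Category.assoc, ← Category.assoc, hsq, hsq₁, Category.assoc, Category.assoc,
        ← Functor.map_comp, ← Functor.map_comp, hν'']
    rw [Category.assoc, ← Functor.map_comp, ← hν'', Functor.map_comp, ← Category.assoc, he2',
      Category.assoc, R.c_nat, h5, Category.assoc, R.c_nat]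
  choose e he1 he2 using key
  refine ⟨⟨z, hz1, e, he1, ?_⟩⟩
  intro a a' ψ χ
  -- check after a covering
  obtain ⟨a₂, ψ₂, χ₂, hsq, hψ₂⟩ := exists_cover_square H ζ hζ (χ ≫ p.map ψ)
  have hff' : (Γ.p.map (φ.map ψ₂)).hom.toRingHom.FaithfullyFlat :=
    ff_of_lift (φ.preserves_isHomLift (X.p.map ψ₂) ψ₂) hψ₂
  have hl1 : Γ.p.IsHomLift (bs p (χ ≫ p.map ψ)) (e a χ ≫ φ.map ψ) := by
    rw [bs_map]
    exact lift_comp (he1 a χ) (φ.preserves_isHomLift (X.p.map ψ) ψ)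
  have hl2 := he1 a' (χ ≫ p.map ψ)
  have hl1' : Γ.p.IsHomLift (eqToHom hz1 ≫ bs p (χ ≫ p.map ψ)) (e a χ ≫ φ.map ψ) :=
    inferInstance
  have hl2' : Γ.p.IsHomLift (eqToHom hz1 ≫ bs p (χ ≫ p.map ψ)) (e a' (χ ≫ p.map ψ)) :=
    inferInstance
  apply cancel_ff hΓ (φ.map ψ₂) hff' hl1' hl2'
  rw [he2 a' (χ ≫ p.map ψ) a₂ ψ₂ χ₂ hsq, Category.assoc, ← Functor.map_comp,
    he2 a χ a₂ (ψ ≫ ψ₂) χ₂ (by rw [hsq, Functor.map_comp, Category.assoc])]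

end exist

/-! ### The main theorem -/

section thm

variable {X P Γ : BasedCategory.{0, 1} (Alg κ)} (p : BasedFunctor X P)
  {o : P.obj} (H : Hyp p o)

/-- The values of a functor on `P` are realizations. -/
def Real.ofFunctor (G : BasedFunctor P Γ) (η : P.obj) : Real p (p.comp G) η where
  y := G.obj η
  hy := G.w_obj η
  c := fun a χ ↦ G.map χ
  c_lift := fun a χ ↦ by
    have := bs_lift p χ
    exact G.preserves_isHomLift (bs p χ) χ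
  c_nat := fun ψ χ ↦ (G.map_comp χ (p.map ψ)).symm

/-- The values of a second functor with a natural transformation on `X` are realizations. -/
def Real.ofTrans (F G : BasedFunctor P Γ) (γ : ∀ a : X.obj, F.obj (p.obj a) ⟶ G.obj (p.obj a))
    (h1 : ∀ a, Γ.p.IsHomLift (𝟙 (X.p.obj a)) (γ a))
    (h2 : ∀ {a a' : X.obj} (ψ : a ⟶ a'), F.map (p.map ψ) ≫ γ a' = γ a ≫ G.map (p.map ψ))
    (η : P.obj) : Real p (p.comp G) η where
  y := F.obj η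
  hy := F.w_obj η
  c := fun a χ ↦ F.map χ ≫ γ a
  c_lift := fun a χ ↦ by
    have := bs_lift p χ
    have h3 := lift_comp (F.preserves_isHomLift (bs p χ) χ) (h1 a)
    rw [Category.comp_id] at h3
    exact h3
  c_nat := fun {a a'} ψ χ ↦ by
    have h : (F.map χ ≫ γ a) ≫ G.map (p.map ψ) = F.map (χ ≫ p.map ψ) ≫ γ a' := by
      rw [Category.assoc, ← h2, ← Category.assoc, ← F.map_comp]
    exact h

include H

theorem faithful (hΓ : IsStack Γ) (hΓc : HasCoprod Γ) {F G : BasedFunctor P Γ}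
    {α β : BasedNatTrans F G}
    (h : ∀ a : X.obj, α.toNatTrans.app (p.obj a) = β.toNatTrans.app (p.obj a)) : α = β := by
  apply BasedNatTrans.ext
  ext η
  apply Real.hom_ext H hΓc hΓ.toIsCofiberedInGroupoids (Real.ofFunctor p G η)
  intro a χ
  show α.toNatTrans.app η ≫ G.map χ = β.toNatTrans.app η ≫ G.map χ
  rw [← α.toNatTrans.naturality, ← β.toNatTrans.naturality, h]

theorem full (hΓ : IsStack Γ) (hΓc : HasCoprod Γ) {F G : BasedFunctor P Γ}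
    (γ : ∀ a : X.obj, F.obj (p.obj a) ⟶ G.obj (p.obj a))
    (hγ1 : ∀ a, Γ.p.IsHomLift (𝟙 (X.p.obj a)) (γ a))
    (hγ2 : ∀ {a a' : X.obj} (ψ : a ⟶ a'), F.map (p.map ψ) ≫ γ a' = γ a ≫ G.map (p.map ψ)) :
    ∃ α : BasedNatTrans F G, ∀ a : X.obj, α.toNatTrans.app (p.obj a) = γ a := by
  have key : ∀ η : P.obj, ∃ θ : F.obj η ⟶ G.obj η, Γ.p.IsHomLift (𝟙 (P.p.obj η)) θ ∧
      ∀ (a : X.obj) (χ : η ⟶ p.obj a), θ ≫ G.map χ = F.map χ ≫ γ a := by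
    intro η
    obtain ⟨θ, h1, h2⟩ := Real.exists_hom H hΓc hΓ.toIsCofiberedInGroupoids
      (Real.ofTrans p F G γ hγ1 hγ2 η) (Real.ofFunctor p G η) (𝟙 η)
    refine ⟨θ, ?_, ?_⟩
    · rw [CategoryTheory.Functor.map_id] at h1
      exact h1
    · intro a χ
      have h3 := h2 a χ
      rw [Category.id_comp] at h3
      exact h3
  choose θ h1 h2 using key
  refine ⟨{ app := θ, naturality := ?_, isHomLift' := h1 }, ?_⟩
  · intro η η' μ
    apply Real.hom_ext H hΓc hΓ.toIsCofiberedInGroupoids (Real.ofFunctor p G η')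
    intro a χ
    have h3 : (F.map μ ≫ θ η') ≫ G.map χ = (θ η ≫ G.map μ) ≫ G.map χ := by
      rw [Category.assoc, Category.assoc, h2, ← G.map_comp, h2, F.map_comp, Category.assoc]
    exact h3
  · intro a
    have := h2 (p.obj a) a (𝟙 _)
    rw [G.map_id, F.map_id, Category.comp_id, Category.id_comp] at this
    exact this

theorem essSurj (hΓ : IsStack Γ) (hΓc : HasCoprod Γ) (φ : BasedFunctor X Γ) (ξ : Γ.obj)
    (hξ : Γ.p.obj ξ = CommAlgCat.of κ κ)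
    (c : ∀ (a : X.obj) (_ : o ⟶ p.obj a), ξ ⟶ φ.obj a)
    (hc : ∀ (a a' : X.obj) (ψ : a ⟶ a') (t : o ⟶ p.obj a),
        c a t ≫ φ.map ψ = c a' (t ≫ p.map ψ)) :
    ∃ F : BasedFunctor P Γ, Nonempty (p.comp F ≅ φ) := by
  have hΓ' := hΓ.toIsCofiberedInGroupoids
  let R : ∀ η : P.obj, Real p φ η := fun η ↦ (exists_real H hΓ hΓc ξ hξ c hc η).some
  have key : ∀ {η η' : P.obj} (μ : η ⟶ η'), ∃ θ : (R η).y ⟶ (R η').y,
      Γ.p.IsHomLift (P.p.map μ) θ ∧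
        ∀ (a : X.obj) (χ : η' ⟶ p.obj a), θ ≫ (R η').c a χ = (R η).c a (μ ≫ χ) :=
    fun μ ↦ Real.exists_hom H hΓc hΓ' (R _) (R _) μ
  choose θ h1 h2 using @key
  let F₀ : P.obj ⥤ Γ.obj :=
    { obj := fun η ↦ (R η).y
      map := fun μ ↦ θ μ
      map_id := by
        intro η
        apply Real.hom_ext H hΓc hΓ' (R η)
        intro a χ
        rw [h2, Category.id_comp, Category.id_comp]
      map_comp := by
        intro η₁ η₂ η₃ μ ν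
        apply Real.hom_ext H hΓc hΓ' (R η₃)
        intro a χ
        rw [h2, Category.assoc, Category.assoc, h2, h2] }
  let F : BasedFunctor P Γ :=
    { toFunctor := F₀
      w := by
        refine CategoryTheory.Functor.ext (fun η ↦ (R η).hy) ?_
        intro η η' μ
        exact IsHomLift.fac' Γ.p (P.p.map μ) (θ μ) }
  refine ⟨F, ⟨?_⟩⟩
  have hiso : ∀ a : X.obj, IsIso ((R (p.obj a)).c a (𝟙 (p.obj a))) := by
    intro a
    apply isIso_of_lift hΓ' _ ((R (p.obj a)).c_lift a (𝟙 (p.obj a)))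
    have : bs p (𝟙 (p.obj a)) = eqToHom (p.w_obj a) := by simp [bs]
    rw [this]
    infer_instance
  exact BasedNatIso.mkNatIso
    (NatIso.ofComponents (F := (p.comp F).toFunctor) (G := φ.toFunctor)
      (fun a ↦ @asIso _ _ _ _ ((R (p.obj a)).c a (𝟙 (p.obj a))) (hiso a)) (by
        intro a a' ψ
        show θ (p.map ψ) ≫ (R (p.obj a')).c a' (𝟙 (p.obj a')) =
          (R (p.obj a)).c a (𝟙 (p.obj a)) ≫ φ.map ψ
        rw [h2, (R (p.obj a)).c_nat, Category.comp_id, Category.id_comp]))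
    (by
      intro a
      show Γ.p.IsHomLift (𝟙 (X.p.obj a)) ((R (p.obj a)).c a (𝟙 (p.obj a)))
      have h3 := (R (p.obj a)).c_lift a (𝟙 (p.obj a))
      have h4 : Γ.p.IsHomLift (eqToHom (p.w_obj a).symm ≫ bs p (𝟙 (p.obj a)))
        ((R (p.obj a)).c a (𝟙 (p.obj a))) := inferInstance
      simpa [bs] using h4)

end thm

end Univ

theorem universal_criterion {κ : Type} [Field κ] (X P Γ : BasedCategory.{0, 1} (Alg κ))
    (p : X ⟶ P)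
    (hX : IsCofiberedInGroupoids X) (hP : IsCofiberedInGroupoids P) (hΓ : IsStack Γ)
    (hΓc : ∀ x y : Γ.obj, ∃ (z : Γ.obj) (i : x ⟶ z) (j : y ⟶ z),
      Nonempty (IsColimit (BinaryCofan.mk i j)))
    (o : P.obj) (ho : P.p.obj o = CommAlgCat.of κ κ)
    -- every object of `P` is fpqc locally trivial
    (F1 : ∀ η : P.obj, ∃ (η' : P.obj) (ζ : η ⟶ η') (_ : o ⟶ η'),
      (P.p.map ζ).hom.toRingHom.FaithfullyFlat)
    -- every morphism `X ⟶ Γ` is constant on the universal cover of `X`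
    (F2 : ∀ φ : BasedFunctor X Γ, ∃ (ξ : Γ.obj) (_ : Γ.p.obj ξ = CommAlgCat.of κ κ)
      (c : ∀ (a : X.obj) (_ : o ⟶ (BasedFunctor.toFunctor p).obj a), ξ ⟶ φ.obj a),
      ∀ (a a' : X.obj) (ψ : a ⟶ a') (t : o ⟶ (BasedFunctor.toFunctor p).obj a),
        c a t ≫ φ.map ψ = c a' (t ≫ (BasedFunctor.toFunctor p).map ψ))
    -- the functions on (the base change to `C` of) the universal cover are constant
    (F3 : ∀ (C : Alg κ) (f : ∀ (a : X.obj) (_ : C ⟶ X.p.obj a)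
        (_ : o ⟶ (BasedFunctor.toFunctor p).obj a), X.p.obj a),
      (∀ (a a' : X.obj) (ψ : a ⟶ a') (r : C ⟶ X.p.obj a)
        (t : o ⟶ (BasedFunctor.toFunctor p).obj a),
        (X.p.map ψ).hom (f a r t) = f a' (r ≫ X.p.map ψ) (t ≫ (BasedFunctor.toFunctor p).map ψ)) →
      ∃! c : C, ∀ a r t, f a r t = r.hom c) :
    (precomp Γ p).IsEquivalence := by
  have H : Univ.Hyp (X := X) (P := P) p o := ⟨hX, hP, ho, F1, F3⟩
  have hfaithful : (precomp Γ p).Faithful := by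
    refine ⟨?_⟩
    intro F G α β hαβ
    apply Univ.faithful p H hΓ hΓc (F := F) (G := G)
    intro a
    exact congrArg (fun g : BasedNatTrans _ _ ↦ g.toNatTrans.app a) hαβ
  have hfull : (precomp Γ p).Full := by
    refine ⟨?_⟩
    intro F G γ
    obtain ⟨α, hα⟩ := Univ.full p H hΓ hΓc (F := F) (G := G)
      (fun a ↦ BasedNatTrans.toNatTrans γ |>.app a)
      (fun a ↦ BasedNatTrans.isHomLift' γ a)
      (fun ψ ↦ (BasedNatTrans.toNatTrans γ).naturality ψ)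
    refine ⟨α, ?_⟩
    apply BasedNatTrans.ext
    ext a
    exact hα a
  have hess : (precomp Γ p).EssSurj := by
    refine ⟨?_⟩
    intro φ
    obtain ⟨ξ, hξ, c, hc⟩ := F2 φ
    obtain ⟨F, ⟨e⟩⟩ := Univ.essSurj p H hΓ hΓc φ ξ hξ c hc
    exact ⟨F, ⟨e⟩⟩
  exact { faithful := hfaithful, full := hfull, essSurj := hess }

end Pool.Agent.H27
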