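import Pool.Agent.H27.SubTors2
import Pool.Agent.H27.Universal
import Pool.Agent.H27.NoriPts
import Pool.Agent.H27.SmallTors
import Pool.Agent.H27.TorsFlat
import Pool.Agent.H27.IsomTors

/-!
# Existence of the Nori gerbe
-/

open CategoryTheory Limits Bicategory
open scoped TensorProduct

namespace Pool.Agent.H27

variable {κ : Type} [Field κ] {𝒳 : BasedCategory.{0, 1} (Alg κ)} {T : Type} [Category.{0} T]
  {v : T ⥤ 𝒳.obj}

/-- A projective system of pointed torsors. -/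
structure NSys (v : T ⥤ 𝒳.obj) (I : Type) [Preorder I] where
  R : I → PTors v
  tm : ∀ {i j : I}, i ≤ j → PHom (R j) (R i)
  h_refl : ∀ i, (tm (le_refl i)).h = 𝟙 _
  f_refl : ∀ i, (tm (le_refl i)).f = 𝟙 _
  h_trans : ∀ {i j k : I} (h : i ≤ j) (h' : j ≤ k), (tm (h.trans h')).h = (tm h).h ≫ (tm h').h
  f_trans : ∀ {i j k : I} (h : i ≤ j) (h' : j ≤ k), (tm (h.trans h')).f = (tm h).f ≫ (tm h').f
  ff : ∀ (i : I) (a : 𝒳.obj), ((R i).s.app a).hom.toRingHom.FaithfullyFlat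

namespace NSys

variable {I : Type} [Preorder I] (N : NSys v I)

/-- The diagram of group schemes. -/
def grp : GrpDiag κ I where
  H :=
    { obj := fun i ↦ (N.R i).G.H
      map := fun t ↦ (N.tm (leOfHom t)).h
      map_id := fun i ↦ N.h_refl i
      map_comp := fun s t ↦ N.h_trans (leOfHom s) (leOfHom t) }
  grp i C := (N.R i).G.grp C
  mul_comp i := (N.R i).G.mul_comp
  comp_mul t _ a b := (N.tm (leOfHom t)).h_mul a b

/-- The diagram of algebras at a point `a`. -/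
abbrev row (a : 𝒳.obj) : I ⥤ Alg κ where
  obj i := (N.R i).B.obj a
  map t := (N.tm (leOfHom t)).f.app a
  map_id i := by rw [N.f_refl]; rfl
  map_comp s t := by
    rw [N.f_trans (leOfHom s) (leOfHom t)]
    rfl

/-- The family of torsors at a point `a`. -/
def pt (a : 𝒳.obj) : Tors N.grp where
  base := 𝒳.p.obj a
  B := N.row a
  s i := (N.R i).s.app a
  s_comp t := (N.tm (leOfHom t)).s_f a
  act i _ b g := (N.R i).act b g
  act_one i _ b := (N.R i).act_one b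
  act_mul i _ b g g' := (N.R i).act_mul b g g'
  act_comp i _ _ b g f := (N.R i).act_comp b g f
  comp_act t _ b g := (N.tm (leOfHom t)).f_act b g
  s_act i _ b g := (N.R i).s_act b g
  trans i _ b b' h := (N.R i).trans b b' h
  ff i := N.ff i a

/-- The morphism to the category of families of torsors. -/
def fib : BasedFunctor 𝒳 (TorsCat N.grp) where
  obj a := N.pt a
  map {a a'} ψ := TorsHom.mk (x := N.pt a) (y := N.pt a') (base := 𝒳.p.map ψ)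
    (hom :=
      { app := fun i ↦ (N.R i).B.map ψ
        naturality := fun i j t ↦ ((N.tm (leOfHom t)).f.naturality ψ).symm })
    (comm := fun i ↦ (N.R i).s.naturality ψ)
    (equi := fun i _ b g ↦ (N.R i).map_act ψ b g)
  map_id a := by
    apply TorsHom.ext
    · exact 𝒳.p.map_id a
    · ext i : 2
      exact (N.R i).B.map_id a
  map_comp ψ ψ' := by
    apply TorsHom.ext
    · exact 𝒳.p.map_comp ψ ψ'
    · ext i : 2
      exact (N.R i).B.map_comp ψ ψ'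
  w := rfl

/-- Trivialisations of the fibre at `a`. -/
abbrev Triv (a : 𝒳.obj) : Type := trivTors N.grp ⟶ N.pt a

/-- Transport of trivialisations. -/
def push {a a' : 𝒳.obj} (t : N.Triv a) (ψ : a ⟶ a') : N.Triv a' :=
  t ≫ (N.fib.toFunctor.map ψ : N.pt a ⟶ N.pt a')

/-- The section attached to a trivialisation. -/
noncomputable def un {a : 𝒳.obj} (t : N.Triv a) (i : I) : (N.R i).B.obj a ⟶ 𝒳.p.obj a :=
  unitPt (z := N.pt a) t i

@[reassoc (attr := simp)]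
theorem s_un {a : 𝒳.obj} (t : N.Triv a) (i : I) : (N.R i).s.app a ≫ N.un t i = 𝟙 _ :=
  s_unitPt (z := N.pt a) t i

theorem tm_un {a : 𝒳.obj} (t : N.Triv a) {i j : I} (h : i ≤ j) :
    (N.tm h).f.app a ≫ N.un t j = N.un t i :=
  map_unitPt (z := N.pt a) t (homOfLE h)

theorem map_un {a a' : 𝒳.obj} (t : N.Triv a) (ψ : a ⟶ a') (i : I) :
    (N.R i).B.map ψ ≫ N.un (N.push t ψ) i = N.un t i ≫ 𝒳.p.map ψ :=
  unitPt_comp (z := N.pt a) (z' := N.pt a') t (N.fib.toFunctor.map ψ) i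

theorem un_ext {a : 𝒳.obj} {t t' : N.Triv a} (h : ∀ i, N.un t i = N.un t' i) : t = t' :=
  triv_ext h

theorem exists_un {a : 𝒳.obj} (β : ∀ i, (N.R i).B.obj a ⟶ 𝒳.p.obj a)
    (hβ : ∀ i, (N.R i).s.app a ≫ β i = 𝟙 _)
    (hβ' : ∀ {i j : I} (h : i ≤ j), (N.tm h).f.app a ≫ β j = β i) :
    ∃ t : N.Triv a, ∀ i, N.un t i = β i :=
  exists_triv_of_pts (z := N.pt a) β hβ (fun t ↦ hβ' (leOfHom t))

section Univ

variable [IsDirectedOrder I] [Nonempty I]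

/-- The universal trivialisation over an object `u`, with values in algebras over `C`. -/
theorem exists_univ (hX : IsCofiberedInGroupoids 𝒳) (u : 𝒳.obj) (C : Alg κ) :
    ∃ (D : Alg κ) (b : ∀ i, (N.R i).B.obj u ⟶ D) (y : 𝒳.obj) (φ : u ⟶ y)
      (e : 𝒳.p.obj y ≅ tens D C) (t : N.Triv y),
      (∀ {i j : I} (h : i ≤ j), (N.tm h).f.app u ≫ b j = b i) ∧
      (∀ z : D, ∃ (i : I) (x : (N.R i).B.obj u), (b i).hom x = z) ∧
      (∀ (i : I) (x : (N.R i).B.obj u), (b i).hom x = 0 →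
        ∃ (j : I) (h : i ≤ j), ((N.tm h).f.app u).hom x = 0) ∧
      (∀ i, 𝒳.p.map φ ≫ e.hom = (N.R i).s.app u ≫ b i ≫ tinl D C) ∧
      (∀ i, (N.R i).B.map φ ≫ N.un t i ≫ e.hom = b i ≫ tinl D C) := by
  obtain ⟨D, b, hb, hsurj, hker⟩ : ∃ (D : Alg κ) (b : ∀ i, (N.R i).B.obj u ⟶ D),
      (∀ {i j : I} (h : i ≤ j), (N.tm h).f.app u ≫ b j = b i) ∧
      (∀ z : D, ∃ (i : I) (x : (N.R i).B.obj u), (b i).hom x = z) ∧
      (∀ (i : I) (x : (N.R i).B.obj u), (b i).hom x = 0 →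
        ∃ (j : I) (h : i ≤ j), ((N.tm h).f.app u).hom x = 0) := by
    obtain ⟨D, b, hb, hsurj, hker⟩ := exists_colim (N.row u)
    refine ⟨D, b, fun h ↦ hb (homOfLE h), hsurj, ?_⟩
    intro i x hx
    obtain ⟨j, h, hj⟩ := hker i x hx
    exact ⟨j, leOfHom h, hj⟩
  have hs : ∀ i j, (N.R i).s.app u ≫ b i = (N.R j).s.app u ≫ b j := by
    intro i j
    obtain ⟨k, hik, hjk⟩ := exists_ge_ge i j
    rw [← hb hik, ← hb hjk, ← Category.assoc, (N.tm hik).s_f u, ← Category.assoc,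
      (N.tm hjk).s_f u]
  let i₀ : I := Classical.arbitrary I
  obtain ⟨y, φ, e, he⟩ := hX.exists_push' u ((N.R i₀).s.app u ≫ b i₀ ≫ tinl D C)
  have he' : ∀ i, 𝒳.p.map φ ≫ e.hom = (N.R i).s.app u ≫ b i ≫ tinl D C := by
    intro i
    rw [he, ← Category.assoc, hs i₀ i, Category.assoc]
  have hβ : ∀ i, 𝒳.p.map φ ≫ 𝟙 _ = (N.R i).s.app u ≫ b i ≫ tinl D C ≫ e.inv := by
    intro i
    have h := he' i
    rw [← Iso.eq_comp_inv] at h
    rw [Category.comp_id, h]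
    simp
  let β : ∀ i, (N.R i).B.obj y ⟶ 𝒳.p.obj y := fun i ↦ ((N.R i).isPushout φ).desc (𝟙 _)
    (b i ≫ tinl D C ≫ e.inv) (hβ i)
  have hβ₁ : ∀ i, (N.R i).s.app y ≫ β i = 𝟙 _ := fun i ↦ ((N.R i).isPushout φ).inl_desc _ _ _
  have hβ₂ : ∀ i, (N.R i).B.map φ ≫ β i = b i ≫ tinl D C ≫ e.inv :=
    fun i ↦ ((N.R i).isPushout φ).inr_desc _ _ _
  obtain ⟨t, ht⟩ := N.exists_un β hβ₁ (by
    intro i j h
    apply ((N.R i).isPushout φ).hom_ext
    · rw [← Category.assoc, (N.tm h).s_f, hβ₁, hβ₁]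
    · have h₁ := (N.tm h).f.naturality φ
      rw [← Category.assoc, h₁, Category.assoc, hβ₂, hβ₂, ← Category.assoc, hb])
  refine ⟨D, b, y, φ, e, t, hb, hsurj, hker, he', ?_⟩
  intro i
  rw [ht, ← Category.assoc, hβ₂]
  simp

/-- The value of an element of `B_i(u) ⊗ C` at a trivialisation over `C`. -/
noncomputable def val {u a : 𝒳.obj} {C : Alg κ} {i : I} (x : tens ((N.R i).B.obj u) C) (ψ : u ⟶ a)
    (r : C ⟶ 𝒳.p.obj a) (t : N.Triv a) : 𝒳.p.obj a :=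
  ((isCoprod_tens _ _).desc ((N.R i).B.map ψ ≫ N.un t i) r).hom x

omit [IsDirectedOrder I] [Nonempty I] in
theorem val_tm {u a : 𝒳.obj} {C : Alg κ} {i j : I} (h : i ≤ j) (x : tens ((N.R i).B.obj u) C)
    (ψ : u ⟶ a) (r : C ⟶ 𝒳.p.obj a) (t : N.Triv a) :
    N.val ((tmap ((N.tm h).f.app u) C).hom x) ψ r t = N.val x ψ r t := by
  have h₁ := tmap_desc ((N.tm h).f.app u) ((N.R j).B.map ψ ≫ N.un t j) r
  have h₂ := (N.tm h).f.naturality ψ
  rw [← Category.assoc, ← h₂, Category.assoc, N.tm_un t h] at h₁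
  exact congr(($h₁).hom x)

omit [IsDirectedOrder I] [Nonempty I] in
theorem val_map {u u' a : 𝒳.obj} {C : Alg κ} {i : I} (x : tens ((N.R i).B.obj u) C)
    (ω : u ⟶ u') (ψ : u' ⟶ a) (r : C ⟶ 𝒳.p.obj a) (t : N.Triv a) :
    N.val ((tmap ((N.R i).B.map ω) C).hom x) ψ r t = N.val x (ω ≫ ψ) r t := by
  have h₁ := tmap_desc ((N.R i).B.map ω) ((N.R i).B.map ψ ≫ N.un t i) r
  rw [← Category.assoc, ← (N.R i).B.map_comp] at h₁
  exact congr(($h₁).hom x)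

omit [IsDirectedOrder I] [Nonempty I] in
theorem val_tinr {u a : 𝒳.obj} {C : Alg κ} {i : I} (c : C)
    (ψ : u ⟶ a) (r : C ⟶ 𝒳.p.obj a) (t : N.Triv a) :
    N.val ((tinr ((N.R i).B.obj u) C).hom c) ψ r t = r.hom c := by
  have h₁ := (isCoprod_tens ((N.R i).B.obj u) C).right_desc ((N.R i).B.map ψ ≫ N.un t i) r
  exact congr(($h₁).hom c)

/-- Functions on the universal cover come from a finite level. -/
theorem exists_val (hX : IsCofiberedInGroupoids 𝒳) {C : Alg κ}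
    (f : ∀ (a : 𝒳.obj) (_ : C ⟶ 𝒳.p.obj a) (_ : N.Triv a), 𝒳.p.obj a)
    (hf : ∀ (a a' : 𝒳.obj) (ψ : a ⟶ a') (r : C ⟶ 𝒳.p.obj a) (t : N.Triv a),
      (𝒳.p.map ψ).hom (f a r t) = f a' (r ≫ 𝒳.p.map ψ) (N.push t ψ)) (u : 𝒳.obj) :
    ∃ (i : I) (x : tens ((N.R i).B.obj u) C), ∀ (a : 𝒳.obj) (ψ : u ⟶ a) (r : C ⟶ 𝒳.p.obj a)
      (t : N.Triv a), f a r t = N.val x ψ r t := by
  obtain ⟨D, b, y, φ, e, t₀, hb, hsurj, hker, he, ht₀⟩ := N.exists_univ hX u C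
  let r₀ : C ⟶ 𝒳.p.obj y := tinr D C ≫ e.inv
  obtain ⟨i, x, hx⟩ := exists_level (N.row u) b (fun t ↦ hb (leOfHom t)) hsurj C
    (e.hom.hom (f y r₀ t₀))
  refine ⟨i, x, ?_⟩
  intro a ψ r t
  obtain ⟨m, hm⟩ := colim_desc (N.row u) b (fun t ↦ hb (leOfHom t)) hsurj
    (fun i x hx ↦ by
      obtain ⟨j, h, hj⟩ := hker i x hx
      exact ⟨j, homOfLE h, hj⟩)
    (fun i ↦ (N.R i).B.map ψ ≫ N.un t i) (by
      intro i j h
      have h₂ := (N.tm (leOfHom h)).f.naturality ψ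
      rw [← Category.assoc, ← h₂, Category.assoc, N.tm_un])
  let eps : tens D C ⟶ 𝒳.p.obj a := (isCoprod_tens D C).desc m r
  have heps : 𝒳.p.map φ ≫ e.hom ≫ eps = 𝒳.p.map ψ := by
    rw [← Category.assoc, he i, Category.assoc, Category.assoc]
    simp only [eps, IsCoprod.left_desc]
    rw [hm]
    have h₁ := (N.R i).s.naturality ψ
    rw [← Category.assoc, ← h₁, Category.assoc, s_un, Category.comp_id]
  let χ : y ⟶ a := hX.desc φ ψ (e.hom ≫ eps) heps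
  have hχ₁ : 𝒳.p.map χ = e.hom ≫ eps := hX.map_desc _ _ _ _
  have hχ₂ : φ ≫ χ = ψ := hX.fac_desc _ _ _ _
  have hr : r₀ ≫ 𝒳.p.map χ = r := by
    rw [hχ₁]
    simp [r₀, eps]
  have ht : N.push t₀ χ = t := by
    apply N.un_ext
    intro k
    apply ((N.R k).isPushout ψ).hom_ext
    · rw [s_un, s_un]
    · have e₁ : (N.R k).B.map ψ = (N.R k).B.map φ ≫ (N.R k).B.map χ := by
        rw [← (N.R k).B.map_comp, hχ₂]
      have e₂ : (N.R k).B.map φ ≫ N.un t₀ k ≫ e.hom ≫ eps = b k ≫ m := by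
        have := congrArg (fun z ↦ z ≫ eps) (ht₀ k)
        simp only [Category.assoc] at this
        rw [this]
        simp [eps]
      rw [← hm, ← e₂, e₁, Category.assoc, N.map_un, hχ₁]
  have h₁ := hf y a χ r₀ t₀
  rw [hr, ht] at h₁
  rw [← h₁, hχ₁]
  change eps.hom (e.hom.hom (f y r₀ t₀)) = _
  rw [← hx]
  have h₂ := tmap_desc (b i) m r
  rw [hm] at h₂
  exact congr(($h₂).hom x)

/-- Elements at a finite level are determined by their values, up to increasing the level. -/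
theorem val_ext (hX : IsCofiberedInGroupoids 𝒳) {C : Alg κ} {u : 𝒳.obj} {i : I}
    (x x' : tens ((N.R i).B.obj u) C)
    (h : ∀ (a : 𝒳.obj) (ψ : u ⟶ a) (r : C ⟶ 𝒳.p.obj a) (t : N.Triv a),
      N.val x ψ r t = N.val x' ψ r t) :
    ∃ (j : I) (h : i ≤ j), (tmap ((N.tm h).f.app u) C).hom x =
      (tmap ((N.tm h).f.app u) C).hom x' := by
  obtain ⟨D, b, y, φ, e, t₀, hb, hsurj, hker, he, ht₀⟩ := N.exists_univ hX u C
  let r₀ : C ⟶ 𝒳.p.obj y := tinr D C ≫ e.inv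
  have h₁ : ∀ z : tens ((N.R i).B.obj u) C, e.hom.hom (N.val z φ r₀ t₀) = (tmap (b i) C).hom z := by
    intro z
    have h₂ : (isCoprod_tens _ _).desc ((N.R i).B.map φ ≫ N.un t₀ i) r₀ ≫ e.hom =
        tmap (b i) C := by
      apply (isCoprod_tens _ _).hom_ext
      · rw [IsCoprod.left_desc_assoc, tinl_tmap, Category.assoc, ht₀]
      · rw [IsCoprod.right_desc_assoc, tinr_tmap]
        simp [r₀]
    exact congr(($h₂).hom z)
  have h₂ : (tmap (b i) C).hom (x - x') = 0 := by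
    rw [map_sub, ← h₁, ← h₁, h, sub_self]
  obtain ⟨j, t, hj⟩ := exists_level_ker (N.row u) b
    (fun i x hx ↦ by
      obtain ⟨j, h, hj⟩ := hker i x hx
      exact ⟨j, homOfLE h, hj⟩) C i (x - x') h₂
  refine ⟨j, leOfHom t, ?_⟩
  rw [map_sub, sub_eq_zero] at hj
  exact hj

end Univ

end NSys

lemma IsFpqcCover.elt_ext {A : Alg κ} {ι : Type} {A' : ι → Alg κ} {f : ∀ i, A ⟶ A' i}
    (hf : IsFpqcCover A' f) {x y : A} (h : ∀ i, (f i).hom x = (f i).hom y) : x = y := by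
  let := fun i ↦ algOf (f i)
  have := hf.finite
  have : ∀ i, Module.Flat A (A' i) := hf.flat
  have := ff_pi (A := A) (fun i ↦ (A' i : Type)) hf.surj
  have hinj : Function.Injective (algebraMap A (∀ i, A' i)) :=
    FaithfulSMul.algebraMap_injective _ _
  apply hinj
  funext i
  exact h i

/-- Functions with values in `C` on a reduced pointed torsor are constant. -/
theorem PTors.IsReduced.exists_const_tens (hX : IsCofiberedInGroupoids 𝒳) (Ch : Charts v)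
    (hv : IsConnectedDiagram (v ⋙ 𝒳.p)) {P : PTors v} (hP : P.IsReduced) {C : Alg κ}
    (y₀ : tens (P.B.obj Ch.u₀) C) (y₁ : tens (P.B.obj Ch.u₁) C)
    (h : (tmap (P.B.map Ch.j₀) C).hom y₀ = (tmap (P.B.map Ch.j₁) C).hom y₁) :
    ∃ c : C, y₀ = (tinr _ C).hom c ∧ y₁ = (tinr _ C).hom c := by
  let B₀ := P.B.obj Ch.u₀
  let B₁ := P.B.obj Ch.u₁
  let B₀₁ := P.B.obj Ch.u₀₁
  let e : κ →ₗ[κ] (B₀ × B₁) := Algebra.linearMap κ (B₀ × B₁)
  let d₀ : B₀ →ₗ[κ] B₀₁ := (P.B.map Ch.j₀).hom.toLinearMap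
  let d₁ : B₁ →ₗ[κ] B₀₁ := (P.B.map Ch.j₁).hom.toLinearMap
  let d : (B₀ × B₁) →ₗ[κ] B₀₁ := d₀ ∘ₗ LinearMap.fst κ B₀ B₁ - d₁ ∘ₗ LinearMap.snd κ B₀ B₁
  have hexact : Function.Exact e d := by
    intro z
    constructor
    · intro hz
      have hz' : (P.B.map Ch.j₀).hom z.1 = (P.B.map Ch.j₁).hom z.2 := sub_eq_zero.1 hz
      obtain ⟨c, hc⟩ := hP.exists_const hX Ch hv ⟨z, hz'⟩
      exact ⟨c, (congrArg Subtype.val hc).symm⟩
    · rintro ⟨c, rfl⟩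
      change (P.B.map Ch.j₀).hom (algebraMap κ _ c) - (P.B.map Ch.j₁).hom (algebraMap κ _ c) = 0
      simp
  have hexact' := Module.Flat.rTensor_exact (M := C) hexact
  let y₀' : B₀ ⊗[κ] C := y₀
  let y₁' : B₁ ⊗[κ] C := y₁
  let X : (B₀ × B₁) ⊗[κ] C := (LinearMap.inl κ B₀ B₁).rTensor C y₀' +
    (LinearMap.inr κ B₀ B₁).rTensor C y₁'
  have hd₀ : d ∘ₗ LinearMap.inl κ B₀ B₁ = d₀ := by
    ext x
    simp [d]
  have hd₁ : d ∘ₗ LinearMap.inr κ B₀ B₁ = - d₁ := by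
    ext x
    simp [d]
  have hX' : d.rTensor C X = 0 := by
    rw [map_add, ← LinearMap.comp_apply, ← LinearMap.rTensor_comp, ← LinearMap.comp_apply,
      ← LinearMap.rTensor_comp, hd₀, hd₁, LinearMap.rTensor_neg]
    have h₀ := tmap_apply (P.B.map Ch.j₀) C y₀
    have h₁ := tmap_apply (P.B.map Ch.j₁) C y₁
    change d₀.rTensor C y₀' + - d₁.rTensor C y₁' = 0
    rw [← sub_eq_add_neg, sub_eq_zero]
    exact h₀.symm.trans (h.trans h₁)
  obtain ⟨w, hw⟩ := (hexact' _).1 hX'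
  let c : C := TensorProduct.lid κ C w
  have hw' : w = 1 ⊗ₜ c := by
    apply (TensorProduct.lid κ C).injective
    simp [c]
  rw [hw', LinearMap.rTensor_tmul] at hw
  refine ⟨c, ?_, ?_⟩
  · have h₀ := congrArg ((LinearMap.fst κ B₀ B₁).rTensor C) hw
    rw [LinearMap.rTensor_tmul, map_add, ← LinearMap.rTensor_comp_apply,
      ← LinearMap.rTensor_comp_apply, LinearMap.fst_comp_inl,
      LinearMap.fst_comp_inr, LinearMap.rTensor_id, LinearMap.rTensor_zero] at h₀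
    have h₁ : (LinearMap.fst κ B₀ B₁) (e 1) = 1 := by simp [e]
    rw [h₁] at h₀
    have h₂ : y₀' = (1 : B₀) ⊗ₜ[κ] c := by
      rw [h₀]
      simp
    exact h₂
  · have h₀ := congrArg ((LinearMap.snd κ B₀ B₁).rTensor C) hw
    rw [LinearMap.rTensor_tmul, map_add, ← LinearMap.rTensor_comp_apply,
      ← LinearMap.rTensor_comp_apply, LinearMap.snd_comp_inl,
      LinearMap.snd_comp_inr, LinearMap.rTensor_id, LinearMap.rTensor_zero] at h₀
    have h₁ : (LinearMap.snd κ B₀ B₁) (e 1) = 1 := by simp [e]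
    rw [h₁] at h₀
    have h₂ : y₁' = (1 : B₁) ⊗ₜ[κ] c := by
      rw [h₀]
      simp
    exact h₂

namespace NSys

variable {I : Type} [Preorder I] (N : NSys v I) [IsDirectedOrder I] [Nonempty I]

/-- Functions on the universal cover are constant. -/
theorem function_const (hX : IsCofiberedInGroupoids 𝒳) (Ch : Charts v)
    (hv : IsConnectedDiagram (v ⋙ 𝒳.p)) (hN : ∀ i, (N.R i).IsReduced) (C : Alg κ)
    (f : ∀ (a : 𝒳.obj) (_ : C ⟶ 𝒳.p.obj a) (_ : N.Triv a), 𝒳.p.obj a)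
    (hf : ∀ (a a' : 𝒳.obj) (ψ : a ⟶ a') (r : C ⟶ 𝒳.p.obj a) (t : N.Triv a),
      (𝒳.p.map ψ).hom (f a r t) = f a' (r ≫ 𝒳.p.map ψ) (N.push t ψ)) :
    ∃! c : C, ∀ a r t, f a r t = r.hom c := by
  obtain ⟨i₀, x₀, hx₀⟩ := N.exists_val hX f hf Ch.u₀
  obtain ⟨i₁, x₁, hx₁⟩ := N.exists_val hX f hf Ch.u₁
  obtain ⟨i, h₀, h₁⟩ := exists_ge_ge i₀ i₁
  obtain ⟨x₀', hx₀'⟩ : ∃ x : tens ((N.R i).B.obj Ch.u₀) C, ∀ (a : 𝒳.obj) (ψ : Ch.u₀ ⟶ a)
      (r : C ⟶ 𝒳.p.obj a) (t : N.Triv a), f a r t = N.val x ψ r t :=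
    ⟨_, fun a ψ r t ↦ (hx₀ a ψ r t).trans (N.val_tm h₀ x₀ ψ r t).symm⟩
  obtain ⟨x₁', hx₁'⟩ : ∃ x : tens ((N.R i).B.obj Ch.u₁) C, ∀ (a : 𝒳.obj) (ψ : Ch.u₁ ⟶ a)
      (r : C ⟶ 𝒳.p.obj a) (t : N.Triv a), f a r t = N.val x ψ r t :=
    ⟨_, fun a ψ r t ↦ (hx₁ a ψ r t).trans (N.val_tm h₁ x₁ ψ r t).symm⟩
  obtain ⟨j, h, hj⟩ := N.val_ext hX ((tmap ((N.R i).B.map Ch.j₀) C).hom x₀')
    ((tmap ((N.R i).B.map Ch.j₁) C).hom x₁') (by
      intro a ψ r t
      rw [N.val_map, N.val_map, ← hx₀', ← hx₁'])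
  obtain ⟨c, hc₀, hc₁⟩ := (hN j).exists_const_tens hX Ch hv
    ((tmap ((N.tm h).f.app Ch.u₀) C).hom x₀') ((tmap ((N.tm h).f.app Ch.u₁) C).hom x₁') (by
      rw [tmap_tmap, tmap_tmap, ← (N.tm h).f.naturality, ← (N.tm h).f.naturality, ← tmap_tmap,
        ← tmap_tmap, hj])
  have hval₀ : ∀ (a : 𝒳.obj) (_ : Ch.u₀ ⟶ a) (r : C ⟶ 𝒳.p.obj a) (t : N.Triv a),
      f a r t = r.hom c := by
    intro a ψ r t
    rw [hx₀' a ψ r t, ← N.val_tm h, hc₀, N.val_tinr]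
  have hval₁ : ∀ (a : 𝒳.obj) (_ : Ch.u₁ ⟶ a) (r : C ⟶ 𝒳.p.obj a) (t : N.Triv a),
      f a r t = r.hom c := by
    intro a ψ r t
    rw [hx₁' a ψ r t, ← N.val_tm h, hc₁, N.val_tinr]
  refine ⟨c, ?_, ?_⟩
  · intro a r t
    obtain ⟨a', ζ, ψ₀, ψ₁, hcov⟩ := Ch.cover a
    apply hcov.elt_ext
    intro b
    rw [hf]
    cases b with
    | false => exact hval₀ _ ψ₀ _ _
    | true => exact hval₁ _ ψ₁ _ _
  · intro c' hc'
    obtain ⟨D, b, y, φ, e, t₀, hb, hsurj, hker, he, ht₀⟩ := N.exists_univ hX Ch.u₀ C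
    have := Ch.dom₀
    have hD : Nontrivial D := by
      by_contra hcon
      rw [not_nontrivial_iff_subsingleton] at hcon
      obtain ⟨k, hk, hk'⟩ := hker i 1 (Subsingleton.elim _ _)
      rw [map_one] at hk'
      have h₂ : (1 : 𝒳.p.obj Ch.u₀) = 0 := (N.ff k Ch.u₀).injective (by
        rw [map_one, map_zero, hk'])
      exact one_ne_zero h₂
    have h₂ := hval₀ y φ (tinr D C ≫ e.inv) t₀
    rw [hc' y (tinr D C ≫ e.inv) t₀] at h₂
    have h₃ := congrArg e.hom.hom h₂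
    have h₄ : ∀ z : C, e.hom.hom ((tinr D C ≫ e.inv).hom z) = (tinr D C).hom z := by
      intro z
      have : (tinr D C ≫ e.inv) ≫ e.hom = tinr D C := by simp
      exact congr(($this).hom z)
    rw [h₄, h₄] at h₃
    exact ((isCoprod_tens D C).ff_right hD).injective h₃

omit [IsDirectedOrder I] [Nonempty I] in
/-- Morphisms to finite stacks are constant on the universal cover. -/
theorem stack_const (hX : IsCofiberedInGroupoids 𝒳) (hN : ∀ P : PTors v, ∃ i, Nonempty (PHom (N.R i) P))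
    {Γ : BasedCategory.{0, 1} (Alg κ)} (hΓ : IsFiniteStack Γ) (hY : IsConstOn (v ⋙ 𝒳.p) Γ)
    (φ : BasedFunctor 𝒳 Γ) : ∃ (ξ : Γ.obj) (_ : Γ.p.obj ξ = CommAlgCat.of κ κ)
      (c : ∀ (a : 𝒳.obj) (_ : N.Triv a), ξ ⟶ φ.obj a),
      ∀ (a a' : 𝒳.obj) (ψ : a ⟶ a') (t : N.Triv a), c a t ≫ φ.map ψ = c a' (N.push t ψ) := by
  obtain ⟨ξ, hξ, θ, hθ⟩ := hY (v ⋙ φ.toFunctor) (eqToIso (by rw [Functor.assoc, φ.w]))
  obtain ⟨P, c, hc⟩ := exists_isomTorsor hX hΓ.isStack hΓ.hasFiniteCoprods φ ξ hξ θ hθ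
  obtain ⟨i, ⟨β⟩⟩ := hN P
  have hr : ∀ (a : 𝒳.obj) (t : N.Triv a), P.s.app a ≫ β.f.app a ≫ N.un t i = 𝟙 _ := by
    intro a t
    rw [← Category.assoc, β.s_f, s_un]
  refine ⟨ξ, hξ, fun a t ↦ c a (β.f.app a ≫ N.un t i) (hr a t), ?_⟩
  intro a a' ψ t
  apply hc
  rw [← Category.assoc, β.f.naturality, Category.assoc, N.map_un, Category.assoc]

end NSys

/-- The trivial group scheme. -/
def FinGrp.triv (κ : Type) [Field κ] : FinGrp κ where
  H := CommAlgCat.of κ κ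
  grp C :=
    { mul := fun a _ ↦ a
      one := structMap C
      inv := fun a ↦ a
      mul_assoc := fun _ _ _ ↦ rfl
      one_mul := fun _ ↦ structMap_unique _ _
      mul_one := fun _ ↦ structMap_unique _ _
      inv_mul_cancel := fun _ ↦ structMap_unique _ _ }
  mul_comp _ _ _ := structMap_unique _ _
  finite := by
    change Module.Finite κ κ
    infer_instance

/-- The trivial pointed torsor. -/
def PTors.triv (v : T ⥤ 𝒳.obj) : PTors v where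
  G := FinGrp.triv κ
  B := 𝒳.p
  s := 𝟙 _
  isPushout ψ := IsPushout.of_vert_isIso ⟨by simp⟩
  act b _ := b
  act_one _ := rfl
  act_mul _ _ _ := rfl
  act_comp _ _ _ := rfl
  map_act _ _ _ _ := rfl
  s_act _ _ := rfl
  trans b b' h := ⟨1, by simpa using h, fun _ _ ↦ structMap_unique _ _⟩
  finite a := RingHom.Finite.id _
  y _ := 𝟙 _
  s_y _ := by simp
  y_map _ := by simp

/-- Composition. -/
def PHom.cmp {P Q R : PTors v} (α : PHom P Q) (β : PHom Q R) : PHom P R :=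
  (show P ⟶ R from (show P ⟶ Q from α) ≫ (show Q ⟶ R from β))

theorem PTors.IsReduced.of_iso {P Q : PTors v} (hP : P.IsReduced) (e : Q ≅ P) : Q.IsReduced := by
  intro R α hα₁ hα₂
  have e₁ : (e.inv : PHom P Q).h ≫ (e.hom : PHom Q P).h = 𝟙 _ := congrArg PHom.h e.hom_inv_id
  have e₂ : (e.inv : PHom P Q).f ≫ (e.hom : PHom Q P).f = 𝟙 _ := congrArg PHom.f e.hom_inv_id
  have s₁ : Function.Surjective (e.hom : PHom Q P).h.hom := fun x ↦
    ⟨(e.inv : PHom P Q).h.hom x, congr(($e₁).hom x)⟩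
  have s₂ : ∀ a, Function.Surjective ((e.hom : PHom Q P).f.app a).hom := fun a x ↦
    ⟨((e.inv : PHom P Q).f.app a).hom x, congr((($e₂).app a).hom x)⟩
  have h := hP R (PHom.cmp α e.hom) (hα₁.comp s₁) (fun a ↦ (hα₂ a).comp (s₂ a))
  intro x y hxy
  obtain ⟨x', rfl⟩ := s₁ x
  obtain ⟨y', rfl⟩ := s₁ y
  exact congrArg _ (h hxy)

theorem exists_nori (hX : IsCofiberedInGroupoids 𝒳) (Ch : Charts v)
    (hv : IsConnectedDiagram (v ⋙ 𝒳.p))
    (hY : ∀ Γ : BasedCategory.{0, 1} (Alg κ), IsFiniteStack Γ → IsConstOn (v ⋙ 𝒳.p) Γ) :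
    ∃ (P : BasedCategory.{0, 1} (Alg κ)) (p : 𝒳 ⟶ P), IsProfiniteGerbe P ∧
      (∀ Γ : BasedCategory.{0, 1} (Alg κ), IsFiniteStack Γ → (precomp Γ p).IsEquivalence) ∧
      ∃ o : P.obj, P.p.obj o = CommAlgCat.of κ κ := by
  obtain ⟨S, R, hR⟩ := exists_small hX Ch
  let I : Type := {i : S // (R i).IsReduced}
  let _ : Preorder I :=
    { le := fun i j ↦ Nonempty (PHom (R j.1) (R i.1))
      le_refl := fun i ↦ ⟨𝟙 (R i.1)⟩
      le_trans := fun i j k ⟨α⟩ ⟨β⟩ ↦ ⟨PHom.cmp β α⟩ }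
  have hdom : ∀ P : PTors v, ∃ i : I, Nonempty (PHom (R i.1) P) := by
    intro P
    obtain ⟨Q, α, hQ⟩ := P.exists_isReduced
    obtain ⟨i, ⟨e⟩⟩ := hR Q
    exact ⟨⟨i, hQ.of_iso e⟩, ⟨PHom.cmp e.hom α⟩⟩
  have _ : Nonempty I := ⟨(hdom (PTors.triv v)).choose⟩
  have _ : IsDirectedOrder I := ⟨fun i j ↦ by
    obtain ⟨P, ⟨α⟩, ⟨β⟩⟩ := (R i.1).exists_prod (R j.1)
    obtain ⟨k, ⟨γ⟩⟩ := hdom P
    exact ⟨k, ⟨PHom.cmp γ α⟩, ⟨PHom.cmp γ β⟩⟩⟩
  have huniq : ∀ {i j : I} (α β : PHom (R j.1) (R i.1)), α = β := fun {i j} α β ↦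
    j.2.hom_ext hX Ch α β
  let N : NSys v I :=
    { R := fun i ↦ R i.1
      tm := fun h ↦ Classical.choice h
      h_refl := fun i ↦ congrArg PHom.h (huniq _ (𝟙 (R i.1) : R i.1 ⟶ R i.1))
      f_refl := fun i ↦ congrArg PHom.f (huniq _ (𝟙 (R i.1) : R i.1 ⟶ R i.1))
      h_trans := fun {i j k} h h' ↦ congrArg PHom.h (huniq _
        (PHom.cmp (Classical.choice h') (Classical.choice h)))
      f_trans := fun {i j k} h h' ↦ congrArg PHom.f (huniq _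
        (PHom.cmp (Classical.choice h') (Classical.choice h)))
      ff := fun i a ↦ (R i.1).faithfullyFlat hX Ch a }
  refine ⟨TorsCat N.grp, N.fib, torsCat_isProfiniteGerbe N.grp (fun i ↦ (R i.1).G.finite), ?_,
    trivTors N.grp, rfl⟩
  intro Γ hΓ
  refine universal_criterion 𝒳 (TorsCat N.grp) Γ N.fib hX
    (torsCat_isStack N.grp).toIsCofiberedInGroupoids hΓ.isStack
    (fun x y ↦ by
      obtain ⟨z, i, j, hz, -⟩ := hΓ.exists_coprod x y
      exact ⟨z, i, j, hz⟩) (trivTors N.grp) rfl (exists_triv N.grp) ?_ ?_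
  · intro φ
    exact N.stack_const hX hdom hΓ (hY Γ hΓ) φ
  · intro C f hf
    exact N.function_const hX Ch hv (fun i ↦ i.2) C f hf

end Pool.Agent.H27
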