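import Pool.Agent.H27.Main
import Pool.Agent.H27.ExistsNori

/-!
# Existence of the Nori fundamental gerbe of the curve
-/

open CategoryTheory Limits AlgebraicGeometry
open scoped TensorProduct

namespace Pool.Agent.H27.Curve

theorem exists_gerbe (κ : Type) [Field κ] [CharP κ 2] :
    ∃ (G : BasedCategory.{0, 1} (Alg κ)) (p : schemeStack (C κ) ⟶ G),
      IsNoriFundamentalGerbe (C κ) G p := by
  let k := ZMod 2
  let _ : Algebra k κ := ZMod.algebra κ 2
  have hk : ∀ r : k, r ^ 2 = r := by decide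
  let K := AlgebraicClosure k
  have : CharP K 2 := charP_of_injective_algebraMap (algebraMap k K).injective 2
  obtain ⟨W, _, _, _, S, i, hi, hF, hx⟩ := exists_curveFrame K k hk
  let _ : Algebra k W := ((algebraMap K W).comp (algebraMap k K)).toAlgebra
  have : IsScalarTower k K W := IsScalarTower.of_algebraMap_eq fun _ ↦ rfl
  obtain ⟨Ch⟩ := exists_charts (RR κ) (S.Yext κ) (vpt S i hx hF κ) (ρ κ) (ρ_compat κ)
    (ρ_open κ) (ρ_affine κ) (ρ_cover κ) (ρ_isPullback κ) (isDomain_RR κ)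
    (vpt_injective S i hx hF κ hi)
  let e := pointFunctorIso (S.Yext κ) (fun t ↦ specOverMap ((vpt S i hx hF κ).app t) ≫ ρ κ t)
    (push_compat (RR κ) (S.Yext κ) (vpt S i hx hF κ) (ρ κ) (ρ_compat κ))
  obtain ⟨P, p, hP, hp, -⟩ := exists_nori (schemeStack_isCofibered (C κ)) Ch
    ((S.isConnectedDiagram_Yext κ).of_iso e.symm)
    (fun Γ hΓ ↦ (isConstOn_Yext S κ hΓ).of_iso e.symm)
  exact ⟨P, p, hP, hp⟩

end Pool.Agent.H27.Curve
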