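import Mathlib

/-!
# Homomorphisms out of base changes
-/

open scoped TensorProduct

namespace Pool.Agent.H27

variable {k κ R R' A : Type} [Field k] [Field κ] [Algebra k κ] [CommRing R] [Algebra k R]
  [CommRing R'] [Algebra κ R'] [Algebra k R'] [IsScalarTower k κ R'] (m : R →ₐ[k] R')
  (hm : IsBaseChange κ m.toLinearMap) [CommRing A] [Algebra k A] (β : R →ₐ[k] A)

/-- The map `κ ⊗ R ⟶ R'`. -/
noncomputable def baseMap : κ ⊗[k] R →ₐ[κ] R' :=
  Algebra.TensorProduct.lift (Algebra.ofId κ R') m (fun _ _ ↦ Commute.all _ _)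

lemma baseMap_tmul (c : κ) (z : R) : baseMap m (c ⊗ₜ z) = c • m z := by
  rw [baseMap, Algebra.TensorProduct.lift_tmul, Algebra.ofId_apply, Algebra.smul_def]

include hm in
lemma baseMap_bijective : Function.Bijective (baseMap (κ := κ) m) := by
  have h₁ : ∀ z, baseMap m z = hm.equiv z := by
    intro z
    induction z using TensorProduct.induction_on with
    | zero => rw [map_zero, map_zero]
    | add x y hx hy => rw [map_add, map_add, hx, hy]
    | tmul c z =>
      rw [baseMap_tmul, hm.equiv_tmul]
      rfl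
  have h₂ : (baseMap m : κ ⊗[k] R → R') = hm.equiv := funext h₁
  rw [h₂]
  exact hm.equiv.bijective

/-- The map out of a base change. -/
noncomputable def baseHom : R' →ₐ[κ] κ ⊗[k] A :=
  (Algebra.TensorProduct.map (AlgHom.id κ κ) β).comp
    (AlgEquiv.ofBijective (baseMap m) (baseMap_bijective m hm)).symm.toAlgHom

lemma baseHom_baseMap (z : κ ⊗[k] R) :
    baseHom m hm β (baseMap m z) = Algebra.TensorProduct.map (AlgHom.id κ κ) β z := by
  have : (AlgEquiv.ofBijective (baseMap m) (baseMap_bijective m hm)).symm (baseMap m z) = z :=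
    (AlgEquiv.ofBijective (baseMap m) (baseMap_bijective m hm)).symm_apply_apply z
  exact congrArg (Algebra.TensorProduct.map (AlgHom.id κ κ) β) this

@[simp]
lemma baseHom_apply (z : R) : baseHom m hm β (m z) = 1 ⊗ₜ β z := by
  have h₁ : m z = baseMap m ((1 : κ) ⊗ₜ z) := by rw [baseMap_tmul, one_smul]
  rw [h₁, baseHom_baseMap, Algebra.TensorProduct.map_tmul, AlgHom.id_apply]

lemma baseHom_injective (hβ : Function.Injective β) : Function.Injective (baseHom m hm β) := by
  have h₁ : Function.Injective (Algebra.TensorProduct.map (AlgHom.id κ κ) β) :=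
    Module.Flat.lTensor_preserves_injective_linearMap (M := κ) β.toLinearMap hβ
  intro a b hab
  obtain ⟨a, rfl⟩ := (baseMap_bijective m hm).surjective a
  obtain ⟨b, rfl⟩ := (baseMap_bijective m hm).surjective b
  rw [baseHom_baseMap, baseHom_baseMap] at hab
  rw [h₁ hab]

include hm in
lemma baseHom_ext {B : Type} [CommRing B] [Algebra κ B] {f g : R' →ₐ[κ] B}
    (h : ∀ z, f (m z) = g (m z)) : f = g := by
  ext a
  obtain ⟨a, rfl⟩ := (baseMap_bijective m hm).surjective a
  induction a using TensorProduct.induction_on with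
  | zero => rw [map_zero, map_zero, map_zero]
  | add x y hx hy => rw [map_add, map_add, map_add, hx, hy]
  | tmul c z => rw [baseMap_tmul, map_smul, map_smul, h]

end Pool.Agent.H27
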