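import Mathlib

/-!
# Stacks, finite gerbes and the Nori fundamental gerbe

Everything is over a fixed field `κ`.  The category of affine `κ`-schemes is the opposite of the
category `Alg κ` of commutative `κ`-algebras, and we write arrows covariantly: a category fibered in
groupoids over affine `κ`-schemes is, after passing to opposite categories, a category `𝒳` with a
functor `𝒳.p : 𝒳 ⥤ Alg κ` which is cofibered in groupoids.  An arrow `x ⟶ y` of `𝒳` over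
`f : A ⟶ B` is the same thing as an isomorphism between the pullback of `x` along
`Spec B → Spec A` and `y`.
-/

open CategoryTheory AlgebraicGeometry Limits

namespace Pool.Agent.H27

/-- The category of commutative `κ`-algebras, i.e. the opposite of the category of affine
`κ`-schemes. -/
abbrev Alg (κ : Type) [Field κ] := CommAlgCat.{0} κ

variable {κ : Type} [Field κ]

/-- `𝒳 → CommAlgCat.{0} κ` is cofibered in groupoids, that is, `𝒳ᵒᵖ` is a category fibered in groupoids over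
the category of affine `κ`-schemes: objects can be pulled back along `Spec B → Spec A`, and every
arrow is (co)cartesian. -/
structure IsCofiberedInGroupoids (𝒳 : BasedCategory.{0, 1} (CommAlgCat.{0} κ)) : Prop where
  exists_push : ∀ (x : 𝒳.obj) {B : CommAlgCat.{0} κ} (f : 𝒳.p.obj x ⟶ B),
    ∃ (y : 𝒳.obj) (φ : x ⟶ y), 𝒳.p.IsHomLift f φ
  exists_desc : ∀ {x y z : 𝒳.obj} (φ : x ⟶ y) (ψ : x ⟶ z) (g : 𝒳.p.obj y ⟶ 𝒳.p.obj z),
    𝒳.p.map φ ≫ g = 𝒳.p.map ψ → ∃! χ : y ⟶ z, 𝒳.p.map χ = g ∧ φ ≫ χ = ψ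

/-- A finite family `A ⟶ B i` of maps of `κ`-algebras is an fpqc covering of `Spec A` if every
`B i` is flat over `A` and every point of `Spec A` is in the image of some `Spec (B i)`. -/
structure IsFpqcCover {A : CommAlgCat.{0} κ} {ι : Type} (B : ι → CommAlgCat.{0} κ) (f : ∀ i, A ⟶ B i) : Prop where
  finite : Finite ι
  flat : ∀ i, (f i).hom.toRingHom.Flat
  surj : ∀ P : PrimeSpectrum A, ∃ (i : ι) (Q : PrimeSpectrum (B i)),
    PrimeSpectrum.comap (f i).hom.toRingHom Q = P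

/-- A descent datum in `𝒳` relative to a family `A ⟶ B i`: objects `x i` over `B i` together with
a transport rule: for an algebra `C` with two structures `B i ⟶ C` and `B j ⟶ C` inducing the same
map `A ⟶ C`, an isomorphism between the base changes of `x i` and `x j` to `C`. Here an object `y`
over `C` with an arrow `φ : x i ⟶ y` is the base change of `x i`, and the isomorphism is encoded as
the corresponding arrow `tr φ j b : x j ⟶ y`. The axioms say that this is compatible with further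
base change (`tr_comp`) and satisfies the cocycle condition (`tr_self`, `tr_tr`). -/
structure DescentDatum (𝒳 : BasedCategory.{0, 1} (CommAlgCat.{0} κ)) {A : CommAlgCat.{0} κ} {ι : Type}
    (x : ι → 𝒳.obj) (f : ∀ i, A ⟶ 𝒳.p.obj (x i)) where
  tr : ∀ {i : ι} {y : 𝒳.obj} (φ : x i ⟶ y) (j : ι) (b : 𝒳.p.obj (x j) ⟶ 𝒳.p.obj y),
    f i ≫ 𝒳.p.map φ = f j ≫ b → (x j ⟶ y)
  map_tr : ∀ {i : ι} {y : 𝒳.obj} (φ : x i ⟶ y) (j : ι) (b : 𝒳.p.obj (x j) ⟶ 𝒳.p.obj y)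
    (h : f i ≫ 𝒳.p.map φ = f j ≫ b), 𝒳.p.map (tr φ j b h) = b
  tr_self : ∀ {i : ι} {y : 𝒳.obj} (φ : x i ⟶ y), tr φ i (𝒳.p.map φ) rfl = φ
  tr_tr : ∀ {i : ι} {y : 𝒳.obj} (φ : x i ⟶ y) (j : ι) (b : 𝒳.p.obj (x j) ⟶ 𝒳.p.obj y)
    (h : f i ≫ 𝒳.p.map φ = f j ≫ b) (k : ι) (c : 𝒳.p.obj (x k) ⟶ 𝒳.p.obj y)
    (h' : f j ≫ 𝒳.p.map (tr φ j b h) = f k ≫ c) (h'' : f i ≫ 𝒳.p.map φ = f k ≫ c),
    tr (tr φ j b h) k c h' = tr φ k c h''
  tr_comp : ∀ {i : ι} {y z : 𝒳.obj} (φ : x i ⟶ y) (ψ : y ⟶ z) (j : ι)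
    (b : 𝒳.p.obj (x j) ⟶ 𝒳.p.obj y) (h : f i ≫ 𝒳.p.map φ = f j ≫ b)
    (h' : f i ≫ 𝒳.p.map (φ ≫ ψ) = f j ≫ (b ≫ 𝒳.p.map ψ)),
    tr (φ ≫ ψ) j (b ≫ 𝒳.p.map ψ) h' = tr φ j b h ≫ ψ

/-- A stack over `κ` for the fpqc topology: a category (co)fibered in groupoids over affine
`κ`-schemes such that arrows and objects satisfy descent for all fpqc coverings. -/
structure IsStack (𝒳 : BasedCategory.{0, 1} (CommAlgCat.{0} κ)) : Prop extends
    IsCofiberedInGroupoids 𝒳 where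
  /-- Descent for arrows. -/
  hom_descent : ∀ {w z : 𝒳.obj} {ι : Type} (x : ι → 𝒳.obj) (ζ : ∀ i, z ⟶ x i),
    IsFpqcCover (fun i ↦ 𝒳.p.obj (x i)) (fun i ↦ 𝒳.p.map (ζ i)) →
    ∀ (g : ∀ i, w ⟶ x i) (h₀ : 𝒳.p.obj w ⟶ 𝒳.p.obj z),
      (∀ i, h₀ ≫ 𝒳.p.map (ζ i) = 𝒳.p.map (g i)) →
      (∀ (i j : ι) (y : 𝒳.obj) (φ : x i ⟶ y) (ψ : x j ⟶ y),
        ζ i ≫ φ = ζ j ≫ ψ → g i ≫ φ = g j ≫ ψ) →
      ∃! h : w ⟶ z, 𝒳.p.map h = h₀ ∧ ∀ i, h ≫ ζ i = g i
  /-- Descent for objects. -/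
  obj_descent : ∀ {A : CommAlgCat.{0} κ} {ι : Type} (x : ι → 𝒳.obj) (f : ∀ i, A ⟶ 𝒳.p.obj (x i)),
    IsFpqcCover (fun i ↦ 𝒳.p.obj (x i)) f → ∀ D : DescentDatum 𝒳 x f,
      ∃ (z : 𝒳.obj) (ζ : ∀ i, z ⟶ x i), 𝒳.p.obj z = A ∧ (∀ i, 𝒳.p.IsHomLift (f i) (ζ i)) ∧
        ∀ {i : ι} {y : 𝒳.obj} (φ : x i ⟶ y) (j : ι) (b : 𝒳.p.obj (x j) ⟶ 𝒳.p.obj y)
          (h : f i ≫ 𝒳.p.map φ = f j ≫ b), ζ i ≫ φ = ζ j ≫ D.tr φ j b h

/-- A finite stack over `κ`: a stack `𝒳` with an object `u` over a finite `κ`-scheme `U`, such that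
`U ⟶ 𝒳` is surjective locally for the fppf topology and such that `U ×_𝒳 U` is represented by a
finite `κ`-scheme `R` (that is: the coproduct `ρ` of `u` with itself exists in `𝒳` and lies over a
finite `κ`-algebra) with flat projections to `U`.  In other words `R ⇉ U` is an fppf groupoid
presentation of `𝒳` with `U` and `R` finite over `κ`. -/
structure IsFiniteStack (𝒳 : BasedCategory.{0, 1} (CommAlgCat.{0} κ)) : Prop where
  isStack : IsStack 𝒳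
  presentation : ∃ (u ρ : 𝒳.obj) (i₁ i₂ : u ⟶ ρ), Nonempty (IsColimit (BinaryCofan.mk i₁ i₂)) ∧
    Module.Finite κ (𝒳.p.obj u) ∧ Module.Finite κ (𝒳.p.obj ρ) ∧
    (𝒳.p.map i₁).hom.toRingHom.Flat ∧ (𝒳.p.map i₂).hom.toRingHom.Flat ∧
    ∀ x : 𝒳.obj, ∃ (y : 𝒳.obj) (φ : x ⟶ y) (_ : u ⟶ y),
      (𝒳.p.map φ).hom.toRingHom.FaithfullyFlat ∧ (𝒳.p.map φ).hom.toRingHom.FinitePresentation

/-- A stack over `κ` is a gerbe if it has objects fpqc locally and any two objects over the same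
base are fpqc locally isomorphic. -/
structure IsGerbe (𝒳 : BasedCategory.{0, 1} (CommAlgCat.{0} κ)) : Prop where
  isStack : IsStack 𝒳
  locally_nonempty : ∀ A : CommAlgCat.{0} κ, ∃ (y : 𝒳.obj) (f : A ⟶ 𝒳.p.obj y),
    f.hom.toRingHom.FaithfullyFlat
  locally_connected : ∀ {A : CommAlgCat.{0} κ} (x x' : 𝒳.p.Fiber A), ∃ (B : CommAlgCat.{0} κ) (f : A ⟶ B) (y : 𝒳.obj)
    (φ : x.1 ⟶ y) (φ' : x'.1 ⟶ y), f.hom.toRingHom.FaithfullyFlat ∧
      𝒳.p.IsHomLift f φ ∧ 𝒳.p.IsHomLift f φ'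

/-- A finite gerbe is a finite stack that is a gerbe. -/
structure IsFiniteGerbe (𝒳 : BasedCategory.{0, 1} (CommAlgCat.{0} κ)) : Prop where
  isFiniteStack : IsFiniteStack 𝒳
  isGerbe : IsGerbe 𝒳

end Pool.Agent.H27
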