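import Pool.Agent.H27.CurveScheme

/-!
# The genus 2 curve: base change and geometric integrality
-/

open CategoryTheory AlgebraicGeometry Limits Polynomial QuadraticAlgebra

namespace Pool.Agent.H27.Curve

/-! ### Gluing integral schemes -/

theorem irreducibleSpace_of_cover {X : Type*} [TopologicalSpace X] {U V : Set X}
    (hU : IsIrreducible U) (hV : IsIrreducible V) (hUo : IsOpen U)
    (hUV : (U ∩ V).Nonempty) (hc : ∀ x, x ∈ U ∨ x ∈ V) : IrreducibleSpace X := by
  have key : ∀ w : Set X, IsOpen w → w.Nonempty → (U ∩ w).Nonempty := by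
    rintro w hw ⟨x, hx⟩
    rcases hc x with h | h
    · exact ⟨x, h, hx⟩
    · obtain ⟨y, hy⟩ := hUV
      obtain ⟨z, hz, hz1, hz2⟩ := hV.2 U w hUo hw ⟨y, hy.2, hy.1⟩ ⟨x, h, hx⟩
      exact ⟨z, hz1, hz2⟩
  have : PreirreducibleSpace X := by
    refine ⟨fun u v hu hv hnu hnv ↦ ?_⟩
    rw [Set.univ_inter] at hnu hnv
    obtain ⟨z, _, hz⟩ := hU.2 u v hu hv (key u hu hnu) (key v hv hnv)
    exact ⟨z, trivial, hz⟩
  exact { toNonempty := hUV.to_type }

theorem isIntegral_of_cover {X A B : Scheme.{0}} (f : A ⟶ X) (g : B ⟶ X) [IsOpenImmersion f]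
    [IsOpenImmersion g] [IsIntegral A] [IsIntegral B] (a : A) (b : B) (hab : f a = g b)
    (hc : ∀ x : X, (∃ y, f y = x) ∨ (∃ y, g y = x)) : IsIntegral X := by
  have h1 : IrreducibleSpace X := by
    refine irreducibleSpace_of_cover (U := Set.range f) (V := Set.range g) ?_ ?_
      f.isOpenEmbedding.isOpen_range ⟨f a, ⟨a, rfl⟩, b, hab.symm⟩ hc
    · rw [← Set.image_univ]
      exact (IrreducibleSpace.isIrreducible_univ A).image _ f.continuous.continuousOn
    · rw [← Set.image_univ]
      exact (IrreducibleSpace.isIrreducible_univ B).image _ g.continuous.continuousOn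
  let 𝒰 : X.OpenCover :=
    { I₀ := Bool
      X := fun b ↦ match b with
        | false => A
        | true => B
      f := fun b ↦ match b with
        | false => f
        | true => g
      mem₀ := by
        rw [Scheme.presieve₀_mem_precoverage_iff]
        refine ⟨fun x ↦ ?_, ?_⟩
        · rcases hc x with ⟨y, hy⟩ | ⟨y, hy⟩
          · exact ⟨false, y, hy⟩
          · exact ⟨true, y, hy⟩
        · rintro (_ | _)
          · exact inferInstanceAs (IsOpenImmersion f)
          · exact inferInstanceAs (IsOpenImmersion g) }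
  have h2 : ∀ i, IsReduced (𝒰.X i) := by
    rintro (_ | _)
    · exact inferInstanceAs (IsReduced A)
    · exact inferInstanceAs (IsReduced B)
  have h3 : IsReduced X := IsReduced.of_openCover X 𝒰
  exact isIntegral_of_irreducibleSpace_of_isReduced X

/-! ### Being cartesian can be checked on an open cover -/

theorem isPullback_of_cover {X S T X' : Scheme.{0}} {f : X ⟶ S} {t : T ⟶ S} {bc : X' ⟶ X}
    {f' : X' ⟶ T} (w : bc ≫ f = f' ≫ t) (𝒰 : X.OpenCover) (U' : 𝒰.I₀ → Scheme.{0})
    (u : ∀ i, U' i ⟶ X') (m : ∀ i, U' i ⟶ 𝒰.X i)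
    (h₁ : ∀ i, IsPullback (m i) (u i) (𝒰.f i) bc)
    (h₂ : ∀ i, IsPullback (m i) (u i ≫ f') (𝒰.f i ≫ f) t) : IsPullback bc f' f t := by
  let θ : X' ⟶ pullback f t := pullback.lift bc f' w
  have hθ : IsIso θ := by
    change MorphismProperty.isomorphisms Scheme θ
    refine IsZariskiLocalAtTarget.of_openCover (𝒰.pullback₁ (pullback.fst f t)) fun i ↦ ?_
    -- the right square
    have sqR : IsPullback (pullback.snd (pullback.fst f t) (𝒰.f i))
        (pullback.fst (pullback.fst f t) (𝒰.f i)) (𝒰.f i) (pullback.fst f t) :=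
      (IsPullback.of_hasPullback (pullback.fst f t) (𝒰.f i)).flip
    let l : U' i ⟶ pullback (pullback.fst f t) (𝒰.f i) :=
      pullback.lift (u i ≫ θ) (m i) (by
        rw [Category.assoc, pullback.lift_fst, (h₁ i).w])
    have sqL : IsPullback l (u i) (pullback.fst (pullback.fst f t) (𝒰.f i)) θ := by
      refine IsPullback.of_right (h₁₂ := pullback.snd (pullback.fst f t) (𝒰.f i))
        (h₂₂ := pullback.fst f t) (v₁₃ := 𝒰.f i) ?_ ?_ sqR
      · convert h₁ i
        · exact pullback.lift_snd _ _ _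
        · exact pullback.lift_fst _ _ _
      · exact pullback.lift_fst _ _ _
    have hl : IsIso l := by
      have sq : IsPullback (pullback.snd (pullback.fst f t) (𝒰.f i))
          (pullback.fst (pullback.fst f t) (𝒰.f i) ≫ pullback.snd f t) (𝒰.f i ≫ f) t :=
        sqR.paste_vert (IsPullback.of_hasPullback f t)
      have e : l = ((h₂ i).isoIsPullback _ _ sq).hom := by
        apply sq.hom_ext
        · rw [IsPullback.isoIsPullback_hom_fst]
          exact pullback.lift_snd _ _ _
        · rw [IsPullback.isoIsPullback_hom_snd, ← Category.assoc]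
          have : l ≫ pullback.fst (pullback.fst f t) (𝒰.f i) = u i ≫ θ := pullback.lift_fst _ _ _
          rw [this, Category.assoc]
          congr 1
          exact pullback.lift_snd _ _ _
      rw [e]
      infer_instance
    change IsIso (pullback.snd θ (pullback.fst (pullback.fst f t) (𝒰.f i)))
    rw [← sqL.flip.isoPullback_inv_snd]
    infer_instance
  exact IsPullback.of_iso_pullback ⟨w⟩ (asIso θ) (pullback.lift_fst _ _ _)
    (pullback.lift_snd _ _ _)

section

variable (K L : Type) [CommRing K] [CommRing L] [Algebra K L]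

/-- `S0 L ⟶ S0 K` -/
noncomputable def m0 : S0 L ⟶ S0 K := Spec.map (CommRingCat.ofHom (map0 K L).toRingHom)

/-- `S1 L ⟶ S1 K` -/
noncomputable def m1 : S1 L ⟶ S1 K := Spec.map (CommRingCat.ofHom (map1 K L).toRingHom)

/-- `S01 L ⟶ S01 K` -/
noncomputable def m01 : S01 L ⟶ S01 K := Spec.map (CommRingCat.ofHom (map01 K L).toRingHom)

/-- `Spec L ⟶ Spec K` -/
noncomputable def mK : Spec (CommRingCat.of L) ⟶ Spec (CommRingCat.of K) :=
  Spec.map (CommRingCat.ofHom (algebraMap K L))

theorem isPullback_Q {K L A B : Type} [CommRing K] [CommRing L] [CommRing A] [CommRing B]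
    [Algebra K L] [Algebra K A] [Algebra L B] [Algebra K B] [IsScalarTower K L B]
    (φ : A →ₐ[K] B) (h : IsBaseChange L φ.toLinearMap) :
    IsPullback (Spec.map (CommRingCat.ofHom φ.toRingHom))
      (Spec.map (CommRingCat.ofHom (algebraMap L B)))
      (Spec.map (CommRingCat.ofHom (algebraMap K A)))
      (Spec.map (CommRingCat.ofHom (algebraMap K L))) := by
  let _ : Algebra A B := φ.toRingHom.toAlgebra
  have : IsScalarTower K A B := IsScalarTower.of_algebraMap_eq fun c ↦ (φ.commutes c).symm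
  have h1 : Algebra.IsPushout K L A B := ⟨h⟩
  exact (isPullback_SpecMap_of_isPushout _ _ _ _
    (CommRingCat.isPushout_of_isPushout K L A B)).flip

theorem isPullback_m0 : IsPullback (m0 K L) (Spec.map (CommRingCat.ofHom (algebraMap L (R0 L))))
    (Spec.map (CommRingCat.ofHom (algebraMap K (R0 K)))) (mK K L) :=
  isPullback_Q (map0 K L) (isBaseChange_map0 K L)

theorem isPullback_m1 : IsPullback (m1 K L) (Spec.map (CommRingCat.ofHom (algebraMap L (R1 L))))
    (Spec.map (CommRingCat.ofHom (algebraMap K (R1 K)))) (mK K L) :=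
  isPullback_Q (map1 K L) (isBaseChange_map1 K L)

theorem isPullback_m01 :
    IsPullback (m01 K L) (Spec.map (CommRingCat.ofHom (algebraMap L (R01 L))))
      (Spec.map (CommRingCat.ofHom (algebraMap K (R01 K)))) (mK K L) :=
  isPullback_Q (map01 K L) (isBaseChange_map01 K L)

theorem s0_m0 : s0 L ≫ m0 K L = m01 K L ≫ s0 K := by
  unfold s0 m0 m01
  rw [← Spec.map_comp, ← Spec.map_comp]
  congr 1
  apply CommRingCat.hom_ext
  apply RingHom.ext
  intro r
  exact (map01_i0 K L r).symm

theorem s1_m1 : s1 L ≫ m1 K L = m01 K L ≫ s1 K := by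
  unfold s1 m1 m01
  rw [← Spec.map_comp, ← Spec.map_comp]
  congr 1
  apply CommRingCat.hom_ext
  apply RingHom.ext
  intro r
  exact (map01_i1 K L r).symm

/-- `CS L ⟶ CS K` -/
noncomputable def bc : CS L ⟶ CS K :=
  pushout.desc (m0 K L ≫ j0 K) (m1 K L ≫ j1 K) (by
    rw [← Category.assoc, ← Category.assoc, s0_m0, s1_m1, Category.assoc, Category.assoc, s0_j0])

@[reassoc]
theorem j0_bc : j0 L ≫ bc K L = m0 K L ≫ j0 K := pushout.inl_desc _ _ _

@[reassoc]
theorem j1_bc : j1 L ≫ bc K L = m1 K L ≫ j1 K := pushout.inr_desc _ _ _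

theorem hom_ext_CS {Z : Scheme.{0}} {f g : CS K ⟶ Z} (h0 : j0 K ≫ f = j0 K ≫ g)
    (h1 : j1 K ≫ f = j1 K ≫ g) : f = g :=
  pushout.hom_ext h0 h1

theorem bc_str : bc K L ≫ str K = str L ≫ mK K L := by
  apply hom_ext_CS
  · rw [j0_bc_assoc, j0_str, j0_str_assoc]
    exact (isPullback_m0 K L).w
  · rw [j1_bc_assoc, j1_str, j1_str_assoc]
    exact (isPullback_m1 K L).w

theorem mem_range_s0 (z : PrimeSpectrum (R0 K)) :
    (∃ w : S01 K, s0 K w = z) ↔ x0 K ∉ z.asIdeal := by
  let _ := (i0 K).toRingHom.toAlgebra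
  have := isLocalization_i0 K
  have h := PrimeSpectrum.localization_away_comap_range (R01 K) (x0 K)
  exact (Set.ext_iff.1 h z)

theorem mem_range_s1 (z : PrimeSpectrum (R1 K)) :
    (∃ w : S01 K, s1 K w = z) ↔ u1 K ∉ z.asIdeal := by
  let _ := (i1 K).toRingHom.toAlgebra
  have := isLocalization_i1 K
  have h := PrimeSpectrum.localization_away_comap_range (R01 K) (u1 K)
  exact (Set.ext_iff.1 h z)

theorem preimage_s0 (z : S0 L) (h : ∃ w : S01 K, s0 K w = m0 K L z) :
    ∃ w : S01 L, s0 L w = z := by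
  refine (mem_range_s0 L z).2 fun hz ↦ (mem_range_s0 K _).1 h ?_
  change map0 K L (x0 K) ∈ z.asIdeal
  rwa [map0_x0]

theorem preimage_s1 (z : S1 L) (h : ∃ w : S01 K, s1 K w = m1 K L z) :
    ∃ w : S01 L, s1 L w = z := by
  refine (mem_range_s1 L z).2 fun hz ↦ (mem_range_s1 K _).1 h ?_
  change map1 K L (u1 K) ∈ z.asIdeal
  rwa [map1_u1]

theorem isPullback_j0 : IsPullback (m0 K L) (j0 L) (j0 K) (bc K L) := by
  refine IsOpenImmersion.isPullback _ _ _ _ (j0_bc K L) ?_
  ext x
  constructor
  · rintro ⟨a, ha⟩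
    rcases exists_of_point L x with ⟨y, rfl⟩ | ⟨y, rfl⟩
    · exact ⟨y, rfl⟩
    · have h1 : bc K L (j1 L y) = j1 K (m1 K L y) := by
        rw [← Scheme.Hom.comp_apply, j1_bc, Scheme.Hom.comp_apply]
      obtain ⟨c, hc0, hc1⟩ := exists_of_j0_eq_j1 K (ha.trans h1)
      obtain ⟨w, rfl⟩ := preimage_s1 K L y ⟨c, hc1⟩
      refine ⟨s0 L w, ?_⟩
      rw [← Scheme.Hom.comp_apply, s0_j0, Scheme.Hom.comp_apply]
  · rintro ⟨y, rfl⟩
    refine ⟨m0 K L y, ?_⟩
    rw [← Scheme.Hom.comp_apply, ← j0_bc, Scheme.Hom.comp_apply]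

theorem isPullback_j1 : IsPullback (m1 K L) (j1 L) (j1 K) (bc K L) := by
  refine IsOpenImmersion.isPullback _ _ _ _ (j1_bc K L) ?_
  ext x
  constructor
  · rintro ⟨a, ha⟩
    rcases exists_of_point L x with ⟨y, rfl⟩ | ⟨y, rfl⟩
    · have h1 : bc K L (j0 L y) = j0 K (m0 K L y) := by
        rw [← Scheme.Hom.comp_apply, j0_bc, Scheme.Hom.comp_apply]
      obtain ⟨c, hc0, hc1⟩ := exists_of_j0_eq_j1 K (h1.symm.trans ha.symm)
      obtain ⟨w, rfl⟩ := preimage_s0 K L y ⟨c, hc0⟩
      refine ⟨s1 L w, ?_⟩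
      rw [← Scheme.Hom.comp_apply, ← s0_j0, Scheme.Hom.comp_apply]
    · exact ⟨y, rfl⟩
  · rintro ⟨y, rfl⟩
    refine ⟨m1 K L y, ?_⟩
    rw [← Scheme.Hom.comp_apply, ← j1_bc, Scheme.Hom.comp_apply]

/-- The formation of the curve commutes with base change. -/
theorem isPullback_bc : IsPullback (bc K L) (str L) (str K) (mK K L) := by
  refine isPullback_of_cover (bc_str K L) (cover K)
    (fun b ↦ match b with
      | false => S0 L
      | true => S1 L)
    (fun b ↦ match b with
      | false => j0 L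
      | true => j1 L)
    (fun b ↦ match b with
      | false => m0 K L
      | true => m1 K L) ?_ ?_
  · rintro (_ | _)
    · exact isPullback_j0 K L
    · exact isPullback_j1 K L
  · rintro (_ | _)
    · change IsPullback (m0 K L) (j0 L ≫ str L) (j0 K ≫ str K) (mK K L)
      rw [j0_str, j0_str]
      exact isPullback_m0 K L
    · change IsPullback (m1 K L) (j1 L ≫ str L) (j1 K ≫ str K) (mK K L)
      rw [j1_str, j1_str]
      exact isPullback_m1 K L

end

/-! ### Geometric integrality -/

section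

variable (K : Type) [Field K] [CharP K 2]

instance isIntegral_CS : IsIntegral (CS K) := by
  have h0 : IsDomain (R0 K) := isDomain_R0 K
  have h1 : IsDomain (R1 K) := isDomain_R1 K
  have h01 : IsDomain (R01 K) := isDomain_R01 K
  obtain ⟨c⟩ : Nonempty (S01 K) := inferInstanceAs (Nonempty (PrimeSpectrum (R01 K)))
  refine isIntegral_of_cover (j0 K) (j1 K) (s0 K c) (s1 K c) ?_ (exists_of_point K)
  rw [← Scheme.Hom.comp_apply, ← Scheme.Hom.comp_apply, s0_j0]

instance isIntegral_C : IsIntegral (C K).left := isIntegral_CS K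

instance geometricallyIntegral_str : GeometricallyIntegral (str K) := by
  refine ⟨?_⟩
  rw [geometrically_iff_of_commRing]
  intro L _ _ Y fst snd h
  have : CharP L 2 := charP_of_injective_algebraMap (algebraMap K L).injective 2
  have e := h.isoIsPullback _ _ (isPullback_bc K L)
  have : Nonempty Y := ⟨e.inv (Classical.arbitrary (CS L))⟩
  exact isIntegral_of_isOpenImmersion e.hom

instance geometricallyIntegral_C : GeometricallyIntegral (C K).hom := geometricallyIntegral_str K

instance geometricallyConnected_str : GeometricallyConnected (str K) := by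
  refine ⟨fun L _ y Y fst snd h ↦ ?_⟩
  have : IrreducibleSpace Y :=
    GeometricallyIrreducible.geometrically_irreducibleSpace (f := str K) y fst snd h
  exact inferInstanceAs (ConnectedSpace Y)

instance geometricallyConnected_C : GeometricallyConnected (C K).hom :=
  geometricallyConnected_str K

end

end Pool.Agent.H27.Curve
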