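import Pool.Agent.H27.CurveRing

/-!
# The genus 2 curve: functoriality in the base ring and universal properties
-/

open Polynomial LaurentPolynomial QuadraticAlgebra

namespace Pool.Agent.H27.Curve

section map

variable {K L M : Type} [CommRing K] [CommRing L] [CommRing M] (f : K →+* L) (g : L →+* M)

/-- Functoriality of quadratic algebras with respect to ring homomorphisms. -/
def quadMapRingHom {A B : Type} [CommRing A] [CommRing B]
    (φ : A →+* B) {a b : A} {a' b' : B} (ha : φ a = a') (hb : φ b = b') :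
    QuadraticAlgebra A a b →+* QuadraticAlgebra B a' b' where
  toFun z := ⟨φ z.re, φ z.im⟩
  map_one' := by apply QuadraticAlgebra.ext <;> simp
  map_mul' z w := by subst ha hb; apply QuadraticAlgebra.ext <;> simp
  map_zero' := by apply QuadraticAlgebra.ext <;> simp
  map_add' z w := by apply QuadraticAlgebra.ext <;> simp

/-- `R0 K → R0 L` induced by a ring homomorphism `K → L` -/
noncomputable def R0map : R0 K →+* R0 L :=
  quadMapRingHom (Polynomial.mapRingHom f)
    (by rw [coe_mapRingHom, Polynomial.map_mul, map_h₀, map_h₁])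
    (by rw [coe_mapRingHom, map_h₀])

/-- `R1 K → R1 L` induced by a ring homomorphism `K → L` -/
noncomputable def R1map : R1 K →+* R1 L :=
  quadMapRingHom (Polynomial.mapRingHom f)
    (by rw [coe_mapRingHom, Polynomial.map_mul, map_h₀, map_h₁])
    (by rw [coe_mapRingHom, map_h₁])

theorem laurentMap_toLaurent (p : K[X]) :
    AddMonoidAlgebra.mapRingHom ℤ f (toLaurent p) = toLaurent (p.map f) := by
  ext n
  rw [AddMonoidAlgebra.coeff_mapRingHom]
  rcases le_or_gt 0 n with hn | hn
  · obtain ⟨m, rfl⟩ := Int.eq_ofNat_of_zero_le hn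
    rw [coeff_toLaurent_nat, coeff_toLaurent_nat, coeff_map]
  · rw [coeff_toLaurent_neg _ _ _ hn, coeff_toLaurent_neg _ _ _ hn, map_zero]

/-- `R01 K → R01 L` induced by a ring homomorphism `K → L` -/
noncomputable def R01map : R01 K →+* R01 L :=
  quadMapRingHom (AddMonoidAlgebra.mapRingHom ℤ f)
    (by rw [laurentMap_toLaurent, Polynomial.map_mul, map_h₀, map_h₁])
    (by rw [laurentMap_toLaurent, map_h₀])

@[simp] theorem R0map_x0 : R0map f (x0 K) = x0 L := by
  apply QuadraticAlgebra.ext <;> simp [R0map, quadMapRingHom, x0]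

@[simp] theorem R0map_y0 : R0map f (y0 K) = y0 L := by
  apply QuadraticAlgebra.ext <;> simp [R0map, quadMapRingHom, y0]

@[simp] theorem R1map_u1 : R1map f (u1 K) = u1 L := by
  apply QuadraticAlgebra.ext <;> simp [R1map, quadMapRingHom, u1]

@[simp] theorem R1map_v1 : R1map f (v1 K) = v1 L := by
  apply QuadraticAlgebra.ext <;> simp [R1map, quadMapRingHom, v1]

theorem R01map_i0 (z : R0 K) : R01map f (i0 K z) = i0 L (R0map f z) := by
  apply QuadraticAlgebra.ext
  · exact laurentMap_toLaurent f z.re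
  · exact laurentMap_toLaurent f z.im

theorem laurentMap_invert (p : K[T;T⁻¹]) :
    AddMonoidAlgebra.mapRingHom ℤ f (invert p) =
      invert (AddMonoidAlgebra.mapRingHom ℤ f p) := by
  ext n
  rw [AddMonoidAlgebra.coeff_mapRingHom, invert_apply, invert_apply,
    AddMonoidAlgebra.coeff_mapRingHom]

theorem laurentMap_T (n : ℤ) : AddMonoidAlgebra.mapRingHom ℤ f (T n) = T n := by
  ext m
  rw [AddMonoidAlgebra.coeff_mapRingHom, LaurentPolynomial.T_apply, LaurentPolynomial.T_apply]
  split_ifs <;> simp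

theorem R01map_i1 (z : R1 K) : R01map f (i1 K z) = i1 L (R1map f z) := by
  apply QuadraticAlgebra.ext
  · change AddMonoidAlgebra.mapRingHom ℤ f (invert (toLaurent z.re)) = _
    rw [laurentMap_invert, laurentMap_toLaurent]
    rfl
  · change AddMonoidAlgebra.mapRingHom ℤ f (T (-3) * invert (toLaurent z.im)) = _
    rw [map_mul, laurentMap_invert, laurentMap_toLaurent, laurentMap_T]
    rfl

@[simp] theorem R01map_x01 : R01map f (x01 K) = x01 L := by
  rw [← i0_x0, R01map_i0, R0map_x0, i0_x0]

@[simp] theorem R01map_u01 : R01map f (u01 K) = u01 L := by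
  rw [← i1_u1, R01map_i1, R1map_u1, i1_u1]

@[simp] theorem R01map_y01 : R01map f (y01 K) = y01 L := by
  rw [← i0_y0, R01map_i0, R0map_y0, i0_y0]

@[simp] theorem R0map_algebraMap (c : K) :
    R0map f (algebraMap K (R0 K) c) = algebraMap L (R0 L) (f c) := by
  apply QuadraticAlgebra.ext
  · change (algebraMap K K[X] c).map f = algebraMap L L[X] (f c)
    simp
  · change (0 : K[X]).map f = 0
    simp

@[simp] theorem R1map_algebraMap (c : K) :
    R1map f (algebraMap K (R1 K) c) = algebraMap L (R1 L) (f c) := by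
  apply QuadraticAlgebra.ext
  · change (algebraMap K K[X] c).map f = algebraMap L L[X] (f c)
    simp
  · change (0 : K[X]).map f = 0
    simp

@[simp] theorem R01map_algebraMap (c : K) :
    R01map f (algebraMap K (R01 K) c) = algebraMap L (R01 L) (f c) := by
  rw [← AlgHom.commutes (i0 K), R01map_i0, R0map_algebraMap, AlgHom.commutes]

theorem R0map_comp (z : R0 K) : R0map (g.comp f) z = R0map g (R0map f z) := by
  apply QuadraticAlgebra.ext
  · exact (Polynomial.map_map f g z.re).symm
  · exact (Polynomial.map_map f g z.im).symm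

theorem R1map_comp (z : R1 K) : R1map (g.comp f) z = R1map g (R1map f z) := by
  apply QuadraticAlgebra.ext
  · exact (Polynomial.map_map f g z.re).symm
  · exact (Polynomial.map_map f g z.im).symm

theorem laurentMap_comp (p : K[T;T⁻¹]) : AddMonoidAlgebra.mapRingHom ℤ (g.comp f) p =
    AddMonoidAlgebra.mapRingHom ℤ g (AddMonoidAlgebra.mapRingHom ℤ f p) := by
  ext n
  simp only [AddMonoidAlgebra.coeff_mapRingHom, RingHom.comp_apply]

theorem R01map_comp (z : R01 K) : R01map (g.comp f) z = R01map g (R01map f z) := by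
  apply QuadraticAlgebra.ext
  · exact laurentMap_comp f g z.re
  · exact laurentMap_comp f g z.im

theorem R0map_id (z : R0 K) : R0map (RingHom.id K) z = z := by
  apply QuadraticAlgebra.ext
  · exact Polynomial.map_id
  · exact Polynomial.map_id

theorem R1map_id (z : R1 K) : R1map (RingHom.id K) z = z := by
  apply QuadraticAlgebra.ext
  · exact Polynomial.map_id
  · exact Polynomial.map_id

theorem R01map_id (z : R01 K) : R01map (RingHom.id K) z = z := by
  have h : ∀ p : K[T;T⁻¹], AddMonoidAlgebra.mapRingHom ℤ (RingHom.id K) p = p := by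
    intro p
    ext n
    rw [AddMonoidAlgebra.coeff_mapRingHom]
    rfl
  apply QuadraticAlgebra.ext
  · exact h z.re
  · exact h z.im

theorem R0map_injective (hf : Function.Injective f) : Function.Injective (R0map f) := by
  intro a b hab
  rw [QuadraticAlgebra.ext_iff] at hab ⊢
  exact ⟨Polynomial.map_injective f hf hab.1, Polynomial.map_injective f hf hab.2⟩

theorem R1map_injective (hf : Function.Injective f) : Function.Injective (R1map f) := by
  intro a b hab
  rw [QuadraticAlgebra.ext_iff] at hab ⊢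
  exact ⟨Polynomial.map_injective f hf hab.1, Polynomial.map_injective f hf hab.2⟩

theorem R01map_injective (hf : Function.Injective f) : Function.Injective (R01map f) := by
  have h : ∀ p q : K[T;T⁻¹], AddMonoidAlgebra.mapRingHom ℤ f p =
      AddMonoidAlgebra.mapRingHom ℤ f q → p = q := by
    intro p q hpq
    ext n
    apply hf
    rw [← AddMonoidAlgebra.coeff_mapRingHom, hpq, AddMonoidAlgebra.coeff_mapRingHom]
  intro a b hab
  rw [QuadraticAlgebra.ext_iff] at hab ⊢
  exact ⟨h _ _ hab.1, h _ _ hab.2⟩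

theorem map0_eq [Algebra K L] (z : R0 K) : map0 K L z = R0map (algebraMap K L) z := rfl
theorem map1_eq [Algebra K L] (z : R1 K) : map1 K L z = R1map (algebraMap K L) z := rfl
theorem map01_eq [Algebra K L] (z : R01 K) : map01 K L z = R01map (algebraMap K L) z := rfl

end map

/-! ### Universal properties with explicit equations -/

section univ

variable {K : Type} [CommRing K] {B : Type} [CommRing B] [Algebra K B]

theorem eq0_of [CharP K 2] {x y : B}
    (h : y ^ 2 + (x ^ 3 + x + 1) * y + (x ^ 6 + x ^ 5 + x ^ 4 + x ^ 3 + x ^ 2 + x + 1) = 0) :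
    y * y = aeval x (h₀ K * h₁ K) + aeval x (h₀ K) * y := by
  have h2 : (2 : B) = 0 := by
    have := congrArg (algebraMap K B) (CharTwo.two_eq_zero (R := K))
    rwa [map_ofNat, map_zero] at this
  rw [h₀_mul_h₁]
  simp only [h₀, map_add, map_pow, aeval_X, map_one]
  linear_combination h - (x ^ 6 + x ^ 5 + x ^ 4 + x ^ 3 + x ^ 2 + x + 1 +
    (x ^ 3 + x + 1) * y) * h2

theorem eq1_of [CharP K 2] {u v : B}
    (h : v ^ 2 + (u ^ 3 + u ^ 2 + 1) * v + (u ^ 6 + u ^ 5 + u ^ 4 + u ^ 3 + u ^ 2 + u + 1) = 0) :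
    v * v = aeval u (h₁ K * h₀ K) + aeval u (h₁ K) * v := by
  have h2 : (2 : B) = 0 := by
    have := congrArg (algebraMap K B) (CharTwo.two_eq_zero (R := K))
    rwa [map_ofNat, map_zero] at this
  rw [mul_comm (h₁ K), h₀_mul_h₁]
  simp only [h₁, map_add, map_pow, aeval_X, map_one]
  linear_combination h - (u ^ 6 + u ^ 5 + u ^ 4 + u ^ 3 + u ^ 2 + u + 1 +
    (u ^ 3 + u ^ 2 + 1) * v) * h2

/-- A homomorphism out of `R01`. -/
theorem exists_lift01 (x y : B) (hx : IsUnit x)
    (h : y * y = aeval x (h₀ K * h₁ K) + aeval x (h₀ K) * y) :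
    ∃ φ : R01 K →ₐ[K] B, φ (x01 K) = x ∧ φ (y01 K) = y ∧ φ.comp (i0 K) = lift0 x y h := by
  let _ := (i0 K).toRingHom.toAlgebra
  have := isLocalization_i0 K
  have hu : IsUnit (lift0 x y h (x0 K)) := by rwa [lift0_x0]
  let φ : R01 K →+* B := IsLocalization.Away.lift (g := (lift0 x y h : R0 K →+* B)) (x0 K) hu
  have hφ : ∀ z, φ (i0 K z) = lift0 x y h z := fun z ↦
    IsLocalization.Away.lift_eq (g := (lift0 x y h : R0 K →+* B)) (x0 K) hu z
  refine ⟨{ φ with commutes' := fun r ↦ ?_ }, ?_, ?_, ?_⟩
  · change φ (algebraMap K _ r) = _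
    rw [← AlgHom.commutes (i0 K), hφ, AlgHom.commutes]
  · change φ (x01 K) = x
    rw [← i0_x0, hφ, lift0_x0]
  · change φ (y01 K) = y
    rw [← i0_y0, hφ, lift0_y0]
  · exact AlgHom.ext hφ

theorem algHom_ext01 {φ ψ : R01 K →ₐ[K] B} (hx : φ (x01 K) = ψ (x01 K))
    (hy : φ (y01 K) = ψ (y01 K)) : φ = ψ := by
  let _ := (i0 K).toRingHom.toAlgebra
  have := isLocalization_i0 K
  have h1 : φ.comp (i0 K) = ψ.comp (i0 K) := by
    apply algHom_ext0
    · simpa [i0_x0] using hx
    · simpa [i0_y0] using hy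
  have h2 : (φ : R01 K →+* B) = (ψ : R01 K →+* B) := by
    refine IsLocalization.ringHom_ext (Submonoid.powers (x0 K)) ?_
    exact RingHom.ext fun z ↦ congrArg (· z) h1
  exact AlgHom.ext fun z ↦ congrArg (· z) h2

omit [Algebra K B] in
/-- Two ring homomorphisms out of `R01` which agree on `R0` are equal. -/
theorem ringHom_ext01 {φ ψ : R01 K →+* B} (h : ∀ z, φ (i0 K z) = ψ (i0 K z)) : φ = ψ := by
  let _ := (i0 K).toRingHom.toAlgebra
  have := isLocalization_i0 K
  refine IsLocalization.ringHom_ext (Submonoid.powers (x0 K)) ?_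
  exact RingHom.ext h

omit [Algebra K B] in
/-- Two ring homomorphisms out of `R01` which agree on `R1` are equal. -/
theorem ringHom_ext01' {φ ψ : R01 K →+* B} (h : ∀ z, φ (i1 K z) = ψ (i1 K z)) : φ = ψ := by
  let _ := (i1 K).toRingHom.toAlgebra
  have := isLocalization_i1 K
  refine IsLocalization.ringHom_ext (Submonoid.powers (u1 K)) ?_
  exact RingHom.ext h

end univ

end Pool.Agent.H27.Curve
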