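import Pool.Agent.H27.CurveScheme

/-!
# The genus 2 curve: properness
-/

open CategoryTheory AlgebraicGeometry Limits Polynomial QuadraticAlgebra

namespace Pool.Agent.H27.Curve

section

variable (K : Type) [CommRing K]

instance : Algebra.FiniteType K (R0 K) :=
  Algebra.FiniteType.trans (S := K[X]) inferInstance inferInstance

instance : Algebra.FiniteType K (R1 K) :=
  Algebra.FiniteType.trans (S := K[X]) inferInstance inferInstance

theorem locallyOfFiniteType_isZariskiLocalAtSource :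
    IsZariskiLocalAtSource (@LocallyOfFiniteType : MorphismProperty Scheme.{0}) :=
  HasRingHomProperty.instIsZariskiLocalAtSource

instance : LocallyOfFiniteType (str K) := by
  have := locallyOfFiniteType_isZariskiLocalAtSource
  rw [IsZariskiLocalAtSource.iff_of_openCover (P := @LocallyOfFiniteType) (cover K)]
  rintro (_ | _)
  · change LocallyOfFiniteType (j0 K ≫ str K)
    rw [j0_str, HasRingHomProperty.Spec_iff (P := @LocallyOfFiniteType)]
    change (algebraMap K (R0 K)).FiniteType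
    rw [RingHom.finiteType_algebraMap]
    infer_instance
  · change LocallyOfFiniteType (j1 K ≫ str K)
    rw [j1_str, HasRingHomProperty.Spec_iff (P := @LocallyOfFiniteType)]
    change (algebraMap K (R1 K)).FiniteType
    rw [RingHom.finiteType_algebraMap]
    infer_instance

instance : CompactSpace (CS K) := by
  have : Finite (cover K).I₀ := inferInstanceAs (Finite Bool)
  have : ∀ i, CompactSpace ((cover K).X i) := by
    rintro (_ | _)
    · exact inferInstanceAs (CompactSpace (S0 K))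
    · exact inferInstanceAs (CompactSpace (S1 K))
  exact (cover K).compactSpace

instance : QuasiCompact (str K) := inferInstance

instance [IsNoetherianRing K] : IsNoetherianRing (R0 K) :=
  IsNoetherianRing.of_finite K[X] (R0 K)

instance [IsNoetherianRing K] : IsNoetherianRing (R1 K) :=
  IsNoetherianRing.of_finite K[X] (R1 K)

instance [IsNoetherianRing K] : IsLocallyNoetherian (CS K) := by
  rw [isLocallyNoetherian_iff_openCover (cover K)]
  rintro (_ | _)
  · change IsLocallyNoetherian (S0 K)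
    rw [isLocallyNoetherian_Spec]
    infer_instance
  · change IsLocallyNoetherian (S1 K)
    rw [isLocallyNoetherian_Spec]
    infer_instance

instance [IsNoetherianRing K] : QuasiSeparated (str K) := by
  infer_instance

end

/-! ### The valuative criterion -/

section

variable {K : Type} [CommRing K] {R L : Type} [CommRing R] [IsDomain R] [ValuationRing R]
  [Field L] [Algebra R L] [IsFractionRing R L]

theorem exists_lift_aux (ψ : K →+* R) {a b : K[X]} (φ : QuadraticAlgebra K[X] a b →+* L)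
    (hφ : ∀ c : K, φ (algebraMap K _ c) = algebraMap R L (ψ c))
    (x : R) (hx : φ ⟨X, 0⟩ = algebraMap R L x) :
    ∃ φ' : QuadraticAlgebra K[X] a b →+* R, (∀ z, algebraMap R L (φ' z) = φ z) ∧
      ∀ c : K, φ' (algebraMap K _ c) = ψ c := by
  let _ : Algebra K R := ψ.toAlgebra
  let _ : Algebra K L := ((algebraMap R L).comp ψ).toAlgebra
  have : IsScalarTower K R L := IsScalarTower.of_algebraMap_eq fun _ ↦ rfl
  let φK : QuadraticAlgebra K[X] a b →ₐ[K] L := { φ with commutes' := hφ }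
  have hp : ∀ p : K[X], φK (algebraMap K[X] _ p) = algebraMap R L (aeval x p) := by
    intro p
    have h1 : φK (algebraMap K[X] _ p) = aeval (φK ⟨X, 0⟩) p := by
      rw [aeval_algHom_apply]
      congr 1
      have : (⟨X, 0⟩ : QuadraticAlgebra K[X] a b) = algebraMap K[X] _ X := rfl
      rw [this, aeval_algebraMap_apply, aeval_X_left_apply]
    rw [h1]
    have h2 : φK ⟨X, 0⟩ = algebraMap R L x := hx
    rw [h2, aeval_algebraMap_apply]
  have hy : φK ⟨0, 1⟩ * φK ⟨0, 1⟩ = algebraMap R L (aeval x a) +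
      algebraMap R L (aeval x b) * φK ⟨0, 1⟩ := by
    rw [← hp, ← hp, ← map_mul, ← map_mul, ← map_add]
    congr 1
    apply QuadraticAlgebra.ext <;> simp
  have hint : IsIntegral R (φK ⟨0, 1⟩) := by
    refine ⟨X ^ 2 - (Polynomial.C (aeval x b) * X + Polynomial.C (aeval x a)), ?_, ?_⟩
    · apply monic_X_pow_sub
      compute_degree!
    · simp only [eval₂_sub, eval₂_X_pow, eval₂_add, eval₂_mul, eval₂_C, eval₂_X]
      linear_combination hy
  obtain ⟨y, hy'⟩ := IsIntegrallyClosed.isIntegral_iff.1 hint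
  rw [← hy'] at hy
  have hy2 : y * y = aeval x a + aeval x b * y := by
    apply IsFractionRing.injective R L
    rw [map_mul, map_add, map_mul, hy]
  refine ⟨(liftQ x y hy2 : QuadraticAlgebra K[X] a b →ₐ[K] R), fun z ↦ ?_, fun c ↦ ?_⟩
  · have : ((IsScalarTower.toAlgHom K R L).comp (liftQ x y hy2)) = φK := by
      apply algHom_extQ
      · rw [AlgHom.comp_apply, liftQ_x]
        exact hx.symm
      · rw [AlgHom.comp_apply, liftQ_y]
        exact hy'
    exact congrArg (· z) this
  · exact (liftQ x y hy2).commutes c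

end

section

variable {K : Type} [CommRing K]

theorem exists_extend0 {B : Type} [CommRing B] (φ : R0 K →+* B) (h : IsUnit (φ (x0 K))) :
    ∃ φ' : R01 K →+* B, φ'.comp (i0 K).toRingHom = φ := by
  let _ := (i0 K).toRingHom.toAlgebra
  have := isLocalization_i0 K
  exact ⟨IsLocalization.Away.lift (x0 K) h, IsLocalization.Away.lift_comp _ _⟩

theorem exists_extend1 {B : Type} [CommRing B] (φ : R1 K →+* B) (h : IsUnit (φ (u1 K))) :
    ∃ φ' : R01 K →+* B, φ'.comp (i1 K).toRingHom = φ := by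
  let _ := (i1 K).toRingHom.toAlgebra
  have := isLocalization_i1 K
  exact ⟨IsLocalization.Away.lift (u1 K) h, IsLocalization.Away.lift_comp _ _⟩

/-- A point of the curve with values in a local ring. -/
theorem factor {A : Type} [CommRing A] [IsLocalRing A] (f : Spec (CommRingCat.of A) ⟶ CS K) :
    (∃ φ : R0 K →+* A, f = Spec.map (CommRingCat.ofHom φ) ≫ j0 K) ∨
      (∃ φ : R1 K →+* A, f = Spec.map (CommRingCat.ofHom φ) ≫ j1 K) := by
  rcases exists_of_point K (f (IsLocalRing.closedPoint A)) with ⟨y, hy⟩ | ⟨y, hy⟩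
  · left
    have h : f ⁻¹ᵁ (j0 K).opensRange = ⊤ :=
      Scheme.preimage_eq_top_of_closedPoint_mem (R := CommRingCat.of A) f ⟨y, hy⟩
    have h' : Set.range f ⊆ Set.range (j0 K) := by
      rintro _ ⟨z, rfl⟩
      have : z ∈ f ⁻¹ᵁ (j0 K).opensRange := by rw [h]; trivial
      exact this
    obtain ⟨φ, hφ⟩ := Spec.map_surjective (IsOpenImmersion.lift (j0 K) f h')
    refine ⟨φ.hom, ?_⟩
    rw [CommRingCat.ofHom_hom, hφ, IsOpenImmersion.lift_fac]
  · right
    have h : f ⁻¹ᵁ (j1 K).opensRange = ⊤ :=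
      Scheme.preimage_eq_top_of_closedPoint_mem (R := CommRingCat.of A) f ⟨y, hy⟩
    have h' : Set.range f ⊆ Set.range (j1 K) := by
      rintro _ ⟨z, rfl⟩
      have : z ∈ f ⁻¹ᵁ (j1 K).opensRange := by rw [h]; trivial
      exact this
    obtain ⟨φ, hφ⟩ := Spec.map_surjective (IsOpenImmersion.lift (j1 K) f h')
    refine ⟨φ.hom, ?_⟩
    rw [CommRingCat.ofHom_hom, hφ, IsOpenImmersion.lift_fac]

/-- Two local sections in different charts: the first can be moved to the second chart. -/
theorem move01 {R L : Type} [CommRing R] [IsDomain R] [IsLocalRing R] [Field L] [Algebra R L]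
    [IsFractionRing R L] (φ₀ : R0 K →+* R) (φ₁ : R1 K →+* R)
    (h : Spec.map (CommRingCat.ofHom (algebraMap R L)) ≫ Spec.map (CommRingCat.ofHom φ₀) ≫ j0 K =
      Spec.map (CommRingCat.ofHom (algebraMap R L)) ≫ Spec.map (CommRingCat.ofHom φ₁) ≫ j1 K) :
    ∃ φ : R01 K →+* R, φ.comp (i0 K).toRingHom = φ₀ ∧ φ.comp (i1 K).toRingHom = φ₁ := by
  have hinj : Function.Injective (algebraMap R L) := IsFractionRing.injective R L
  obtain ⟨l, hl₁, hl₂⟩ := (isPullback K).exists_lift
    (Spec.map (CommRingCat.ofHom (algebraMap R L)) ≫ Spec.map (CommRingCat.ofHom φ₀))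
    (Spec.map (CommRingCat.ofHom (algebraMap R L)) ≫ Spec.map (CommRingCat.ofHom φ₁))
    (by simpa using h)
  obtain ⟨θ, rfl⟩ := Spec.map_surjective l
  rw [s0, ← Spec.map_comp, ← Spec.map_comp, Spec.map_inj] at hl₁
  rw [s1, ← Spec.map_comp, ← Spec.map_comp, Spec.map_inj] at hl₂
  have e0 : ∀ z, θ.hom (i0 K z) = algebraMap R L (φ₀ z) := fun z ↦ congr(($hl₁).hom z)
  have e1 : ∀ z, θ.hom (i1 K z) = algebraMap R L (φ₁ z) := fun z ↦ congr(($hl₂).hom z)
  have hunit : φ₀ (x0 K) * φ₁ (u1 K) = 1 := by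
    apply hinj
    rw [map_mul, ← e0, ← e1, ← map_mul, i0_x0, i1_u1, x01_mul_u01, map_one, map_one]
  obtain ⟨φ, hφ⟩ := exists_extend0 φ₀ (IsUnit.of_mul_eq_one _ hunit)
  refine ⟨φ, hφ, ?_⟩
  have hθ : (algebraMap R L).comp φ = θ.hom := by
    let _ := (i0 K).toRingHom.toAlgebra
    have := isLocalization_i0 K
    refine IsLocalization.ringHom_ext (Submonoid.powers (x0 K)) ?_
    ext z : 1
    change algebraMap R L (φ (i0 K z)) = θ.hom (i0 K z)
    rw [e0, ← hφ]
    rfl
  ext z : 1
  apply hinj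
  rw [← e1, ← hθ]
  rfl

end

section

variable (K : Type) [CommRing K]

theorem uniqueness : ValuativeCriterion.Uniqueness (str K) := by
  intro S
  constructor
  rintro ⟨l₁, h₁, h₁'⟩ ⟨l₂, h₂, h₂'⟩
  ext : 1
  dsimp only at *
  have hinj : Function.Injective (algebraMap S.R S.K) := IsFractionRing.injective S.R S.K
  have same0 : ∀ φ₁ φ₂ : R0 K →+* S.R,
      Spec.map (CommRingCat.ofHom (algebraMap S.R S.K)) ≫ Spec.map (CommRingCat.ofHom φ₁) ≫ j0 K =
      Spec.map (CommRingCat.ofHom (algebraMap S.R S.K)) ≫ Spec.map (CommRingCat.ofHom φ₂) ≫ j0 K →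
      φ₁ = φ₂ := by
    intro φ₁ φ₂ h
    rw [← Category.assoc, ← Category.assoc, cancel_mono, ← Spec.map_comp, ← Spec.map_comp,
      Spec.map_inj] at h
    ext z : 1
    exact hinj congr(($h).hom z)
  have same1 : ∀ φ₁ φ₂ : R1 K →+* S.R,
      Spec.map (CommRingCat.ofHom (algebraMap S.R S.K)) ≫ Spec.map (CommRingCat.ofHom φ₁) ≫ j1 K =
      Spec.map (CommRingCat.ofHom (algebraMap S.R S.K)) ≫ Spec.map (CommRingCat.ofHom φ₂) ≫ j1 K →
      φ₁ = φ₂ := by
    intro φ₁ φ₂ h
    rw [← Category.assoc, ← Category.assoc, cancel_mono, ← Spec.map_comp, ← Spec.map_comp,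
      Spec.map_inj] at h
    ext z : 1
    exact hinj congr(($h).hom z)
  have diff : ∀ (φ₁ : R0 K →+* S.R) (φ₂ : R1 K →+* S.R),
      Spec.map (CommRingCat.ofHom (algebraMap S.R S.K)) ≫ Spec.map (CommRingCat.ofHom φ₁) ≫ j0 K =
      Spec.map (CommRingCat.ofHom (algebraMap S.R S.K)) ≫ Spec.map (CommRingCat.ofHom φ₂) ≫ j1 K →
      Spec.map (CommRingCat.ofHom φ₁) ≫ j0 K = Spec.map (CommRingCat.ofHom φ₂) ≫ j1 K := by
    intro φ₁ φ₂ h
    obtain ⟨φ, rfl, rfl⟩ := move01 φ₁ φ₂ h
    rw [CommRingCat.ofHom_comp, CommRingCat.ofHom_comp, Spec.map_comp, Spec.map_comp,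
      Category.assoc, Category.assoc]
    congr 1
    exact s0_j0 K
  have h : Spec.map (CommRingCat.ofHom (algebraMap S.R S.K)) ≫ l₁ =
    Spec.map (CommRingCat.ofHom (algebraMap S.R S.K)) ≫ l₂ := h₁.trans h₂.symm
  rcases factor l₁ with ⟨φ₁, rfl⟩ | ⟨φ₁, rfl⟩
  · rcases factor l₂ with ⟨φ₂, rfl⟩ | ⟨φ₂, rfl⟩
    · rw [same0 _ _ h]
    · exact diff _ _ h
  · rcases factor l₂ with ⟨φ₂, rfl⟩ | ⟨φ₂, rfl⟩
    · exact (diff _ _ h.symm).symm
    · rw [same1 _ _ h]

theorem existence : ValuativeCriterion.Existence (str K) := by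
  intro S
  obtain ⟨ψ, hψ⟩ := Spec.map_surjective S.i₂
  have hinj : Function.Injective (algebraMap S.R S.K) := IsFractionRing.injective S.R S.K
  have w := S.commSq.w
  -- the two basic cases
  have case0 : ∀ (φ : R0 K →+* S.K) (x : S.R),
      S.i₁ = Spec.map (CommRingCat.ofHom φ) ≫ j0 K → φ (x0 K) = algebraMap S.R S.K x →
      S.commSq.HasLift := by
    intro φ x hφ hx
    rw [hφ, Category.assoc, j0_str, ← hψ, ← Spec.map_comp, ← Spec.map_comp, Spec.map_inj] at w
    obtain ⟨φ', h1, h2⟩ := exists_lift_aux (L := S.K) ψ.hom φ (fun c ↦ congr(($w).hom c)) x hx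
    refine ⟨⟨⟨Spec.map (CommRingCat.ofHom φ') ≫ j0 K, ?_, ?_⟩⟩⟩
    · rw [hφ, ← Category.assoc, ← Spec.map_comp]
      congr 2
      ext : 1
      exact RingHom.ext h1
    · rw [Category.assoc, j0_str, ← Spec.map_comp, ← hψ]
      congr 1
      ext : 1
      exact RingHom.ext h2
  have case1 : ∀ (φ : R1 K →+* S.K) (x : S.R),
      S.i₁ = Spec.map (CommRingCat.ofHom φ) ≫ j1 K → φ (u1 K) = algebraMap S.R S.K x →
      S.commSq.HasLift := by
    intro φ x hφ hx
    rw [hφ, Category.assoc, j1_str, ← hψ, ← Spec.map_comp, ← Spec.map_comp, Spec.map_inj] at w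
    obtain ⟨φ', h1, h2⟩ := exists_lift_aux (L := S.K) ψ.hom φ (fun c ↦ congr(($w).hom c)) x hx
    refine ⟨⟨⟨Spec.map (CommRingCat.ofHom φ') ≫ j1 K, ?_, ?_⟩⟩⟩
    · rw [hφ, ← Category.assoc, ← Spec.map_comp]
      congr 2
      ext : 1
      exact RingHom.ext h1
    · rw [Category.assoc, j1_str, ← Spec.map_comp, ← hψ]
      congr 1
      ext : 1
      exact RingHom.ext h2
  have glue : ∀ φ : R01 K →+* S.K,
      Spec.map (CommRingCat.ofHom (φ.comp (i0 K).toRingHom)) ≫ j0 K =
        Spec.map (CommRingCat.ofHom (φ.comp (i1 K).toRingHom)) ≫ j1 K := by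
    intro φ
    rw [CommRingCat.ofHom_comp, CommRingCat.ofHom_comp, Spec.map_comp, Spec.map_comp,
      Category.assoc, Category.assoc]
    congr 1
    exact s0_j0 K
  rcases factor S.i₁ with ⟨φ, hφ⟩ | ⟨φ, hφ⟩
  · rcases ValuationRing.isInteger_or_isInteger S.R (φ (x0 K)) with ⟨x, hx⟩ | ⟨x, hx⟩
    · exact case0 φ x hφ hx.symm
    · rcases eq_or_ne (φ (x0 K)) 0 with h0 | h0
      · exact case0 φ 0 hφ (by rw [h0, map_zero])
      · obtain ⟨φ', rfl⟩ := exists_extend0 φ (IsUnit.mk0 _ h0)
        refine case1 (φ'.comp (i1 K).toRingHom) x (by rw [hφ, glue]) ?_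
        rw [hx]
        apply eq_inv_of_mul_eq_one_right
        change φ' (i0 K (x0 K)) * φ' (i1 K (u1 K)) = 1
        rw [← map_mul, i0_x0, i1_u1, x01_mul_u01, map_one]
  · rcases ValuationRing.isInteger_or_isInteger S.R (φ (u1 K)) with ⟨x, hx⟩ | ⟨x, hx⟩
    · exact case1 φ x hφ hx.symm
    · rcases eq_or_ne (φ (u1 K)) 0 with h0 | h0
      · exact case1 φ 0 hφ (by rw [h0, map_zero])
      · obtain ⟨φ', rfl⟩ := exists_extend1 φ (IsUnit.mk0 _ h0)
        refine case0 (φ'.comp (i0 K).toRingHom) x (by rw [hφ, glue]) ?_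
        rw [hx]
        apply eq_inv_of_mul_eq_one_left
        change φ' (i0 K (x0 K)) * φ' (i1 K (u1 K)) = 1
        rw [← map_mul, i0_x0, i1_u1, x01_mul_u01, map_one]

instance isProper_str [IsNoetherianRing K] : IsProper (str K) :=
  IsProper.of_valuativeCriterion _ (ValuativeCriterion.iff.2 ⟨existence K, uniqueness K⟩)

instance isProper_C [IsNoetherianRing K] : IsProper (C K).hom := isProper_str K

theorem isAffineHom_j0 [IsNoetherianRing K] : IsAffineHom (j0 K) := by
  have : IsAffineHom (j0 K ≫ str K) := by rw [j0_str]; infer_instance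
  exact IsAffineHom.of_comp (j0 K) (str K)

theorem isAffineHom_j1 [IsNoetherianRing K] : IsAffineHom (j1 K) := by
  have : IsAffineHom (j1 K ≫ str K) := by rw [j1_str]; infer_instance
  exact IsAffineHom.of_comp (j1 K) (str K)

theorem j01_str : j01 K ≫ str K = Spec.map (CommRingCat.ofHom (algebraMap K (R01 K))) := by
  rw [j01, Category.assoc, j0_str, s0, ← Spec.map_comp]
  congr 1
  apply CommRingCat.hom_ext
  exact (i0 K).comp_algebraMap

theorem isAffineHom_j01 [IsNoetherianRing K] : IsAffineHom (j01 K) := by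
  have : IsAffineHom (j01 K ≫ str K) := by rw [j01_str]; infer_instance
  exact IsAffineHom.of_comp (j01 K) (str K)

end

/-! ### No rational points -/

section

variable {K : Type} [Field K]

/-- If `K` has a place with residue field `𝔽₂` then the curve has no `K`-rational point. -/
theorem no_section (V : ValuationSubring K) (ρ : V →+* ZMod 2) :
    ¬ ∃ s : Spec (CommRingCat.of K) ⟶ CS K, s ≫ str K = 𝟙 _ := by
  rintro ⟨s, hs⟩
  rcases factor s with ⟨φ, rfl⟩ | ⟨φ, rfl⟩
  · rw [Category.assoc, j0_str, ← Spec.map_comp, ← Spec.map_id, Spec.map_inj] at hs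
    exact (isEmpty_points0 V ρ).false { φ with commutes' := fun c ↦ congr(($hs).hom c) }
  · rw [Category.assoc, j1_str, ← Spec.map_comp, ← Spec.map_id, Spec.map_inj] at hs
    exact (isEmpty_points1 V ρ).false { φ with commutes' := fun c ↦ congr(($hs).hom c) }

end

end Pool.Agent.H27.Curve
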