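import Mathlib

/-!
# The genus of a curve, as the dimension of a Čech cohomology group
-/

open CategoryTheory AlgebraicGeometry

namespace Pool.Agent.H27

/-- The `K`-algebra structure of the sections of a `K`-scheme over an open subset. -/
noncomputable def structHom {K : Type} [CommRing K] (X : Over (Spec (CommRingCat.of K)))
    (U : X.left.Opens) : K →+* Γ(X.left, U) :=
  ((Scheme.ΓSpecIso (CommRingCat.of K)).inv ≫ X.hom.appLE ⊤ U le_top).hom

/-- Restriction of sections to a smaller open subset. -/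
noncomputable def resHom {K : Type} [CommRing K] (X : Over (Spec (CommRingCat.of K)))
    {U V : X.left.Opens} (hVU : V ≤ U) : Γ(X.left, U) →+* Γ(X.left, V) :=
  (X.left.presheaf.map (homOfLE hVU).op).hom

/-- A `K`-scheme `X` has genus `g`, that is `dim_K H¹(X, 𝒪_X) = g`, where `H¹(X, 𝒪_X)` is computed
as the Čech cohomology `𝒪_X(U ∩ V) / (𝒪_X(U) + 𝒪_X(V))` of a covering of `X` by two affine open
subsets `U` and `V`: there are sections `e_1, …, e_g` of `𝒪_X` over `U ∩ V` whose classes form a
`K`-basis of this quotient. -/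
def HasGenus {K : Type} [Field K] (X : Over (Spec (CommRingCat.of K))) (g : ℕ) : Prop :=
  ∃ U V : X.left.Opens, IsAffineOpen U ∧ IsAffineOpen V ∧ U ⊔ V = ⊤ ∧
    ∃ e : Fin g → Γ(X.left, U ⊓ V), ∀ s : Γ(X.left, U ⊓ V), ∃! c : Fin g → K,
      ∃ (a : Γ(X.left, U)) (b : Γ(X.left, V)), s = ∑ i, structHom X (U ⊓ V) (c i) * e i +
        resHom X inf_le_left a + resHom X inf_le_right b

end Pool.Agent.H27
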