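import Pool.Agent.H27.CurveProper
import Pool.Agent.H27.Genus

/-!
# The genus 2 curve: sections of the structure sheaf over the two charts, Čech cohomology
-/

open CategoryTheory AlgebraicGeometry Limits

namespace Pool.Agent.H27.Curve

section general

/-- Sections over the image of an open immersion `Spec R ⟶ X`. -/
noncomputable def sec {X : Scheme.{0}} {R : Type} [CommRing R] (f : Spec (CommRingCat.of R) ⟶ X)
    (U : X.Opens) (h : ⊤ ≤ f ⁻¹ᵁ U) : Γ(X, U) →+* R :=
  (f.appLE U ⊤ h ≫ (Scheme.ΓSpecIso (CommRingCat.of R)).hom).hom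

theorem sec_bijective {X : Scheme.{0}} {R : Type} [CommRing R] (f : Spec (CommRingCat.of R) ⟶ X)
    [IsOpenImmersion f] (U : X.Opens) (h : f.opensRange = U) (h' : ⊤ ≤ f ⁻¹ᵁ U) :
    Function.Bijective (sec f U h') := by
  have h1 : IsIso (f.app U) := f.isIso_app U h.symm.le
  have h2 : f ⁻¹ᵁ U = ⊤ := top_le_iff.1 h'
  have h3 : IsIso (f.appLE U ⊤ h') := by
    rw [Scheme.Hom.appLE]
    have : IsIso ((Spec (CommRingCat.of R)).presheaf.map (homOfLE h').op) := by
      have : IsIso (homOfLE h') := ⟨eqToHom h2, rfl, rfl⟩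
      infer_instance
    infer_instance
  exact (ConcreteCategory.isIso_iff_bijective
    (f.appLE U ⊤ h' ≫ (Scheme.ΓSpecIso (CommRingCat.of R)).hom)).1 inferInstance

/-- Compatibility with restriction. -/
theorem sec_restrict {X : Scheme.{0}} {R S : Type} [CommRing R] [CommRing S] (φ : R →+* S)
    (f : Spec (CommRingCat.of R) ⟶ X) (U V : X.Opens) (hVU : V ≤ U) (hU : ⊤ ≤ f ⁻¹ᵁ U)
    (g : Spec (CommRingCat.of S) ⟶ X) (hV : ⊤ ≤ g ⁻¹ᵁ V)
    (hg : Spec.map (CommRingCat.ofHom φ) ≫ f = g) (s : Γ(X, U)) :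
    sec g V hV ((X.presheaf.map (homOfLE hVU).op).hom s) = φ (sec f U hU s) := by
  subst hg
  have h1 : f.appLE U ⊤ hU ≫ (Scheme.ΓSpecIso (CommRingCat.of R)).hom ≫ CommRingCat.ofHom φ =
      X.presheaf.map (homOfLE hVU).op ≫ (Spec.map (CommRingCat.ofHom φ) ≫ f).appLE V ⊤ hV ≫
        (Scheme.ΓSpecIso (CommRingCat.of S)).hom := by
    rw [← Scheme.ΓSpecIso_naturality, ← Category.assoc, ← Category.assoc]
    congr 1
    rw [Scheme.Hom.map_appLE]
    have e : (Spec.map (CommRingCat.ofHom φ)).appTop =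
        (Spec.map (CommRingCat.ofHom φ)).appLE ⊤ ⊤ le_rfl := Scheme.Hom.app_eq_appLE _
    rw [e]
    exact Scheme.Hom.appLE_comp_appLE _ _ _ _ _ _ _
  exact congr(($h1.symm).hom s)

theorem restrict_structHom {K : Type} [CommRing K] (X : Over (Spec (CommRingCat.of K)))
    (U V : X.left.Opens) (hVU : V ≤ U) (c : K) :
    (X.left.presheaf.map (homOfLE hVU).op).hom (structHom X U c) = structHom X V c := by
  have h : ((Scheme.ΓSpecIso (CommRingCat.of K)).inv ≫ X.hom.appLE ⊤ U le_top) ≫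
      X.left.presheaf.map (homOfLE hVU).op =
        (Scheme.ΓSpecIso (CommRingCat.of K)).inv ≫ X.hom.appLE ⊤ V le_top := by
    rw [Category.assoc]
    exact congrArg (fun z ↦ (Scheme.ΓSpecIso (CommRingCat.of K)).inv ≫ z)
      (Scheme.Hom.appLE_map X.hom le_top (homOfLE hVU).op)
  exact congr(($h).hom c)

theorem sec_structHom {K R : Type} [CommRing K] [CommRing R] [Algebra K R]
    (X : Over (Spec (CommRingCat.of K)))
    (f : Spec (CommRingCat.of R) ⟶ X.left)
    (hf : f ≫ X.hom = Spec.map (CommRingCat.ofHom (algebraMap K R)))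
    (U : X.left.Opens) (h : ⊤ ≤ f ⁻¹ᵁ U) (c : K) :
    sec f U h (structHom X U c) = algebraMap K R c := by
  have h1 : ((Scheme.ΓSpecIso (CommRingCat.of K)).inv ≫ X.hom.appLE ⊤ U le_top) ≫
      (f.appLE U ⊤ h ≫ (Scheme.ΓSpecIso (CommRingCat.of R)).hom) =
        CommRingCat.ofHom (algebraMap K R) := by
    have e1 : X.hom.appLE ⊤ U le_top ≫ f.appLE U ⊤ h = (f ≫ X.hom).appLE ⊤ ⊤ le_top :=
      Scheme.Hom.appLE_comp_appLE _ _ _ _ _ _ _
    have e2 : (f ≫ X.hom).appLE ⊤ ⊤ le_top = (f ≫ X.hom).appTop :=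
      (Scheme.Hom.app_eq_appLE _).symm
    rw [Category.assoc, ← Category.assoc (X.hom.appLE ⊤ U le_top), e1, e2, hf,
      Scheme.ΓSpecIso_naturality, Iso.inv_hom_id_assoc]
  exact congr(($h1).hom c)

/-- The `K`-algebra structure of the sections of a `K`-scheme over an open subset. -/
@[reducible]
noncomputable def secAlgebra {K : Type} [CommRing K] (X : Over (Spec (CommRingCat.of K)))
    (U : X.left.Opens) : Algebra K Γ(X.left, U) := (structHom X U).toAlgebra

attribute [local instance] secAlgebra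

/-- Restriction of sections as a `K`-linear map. -/
noncomputable def resLin {K : Type} [CommRing K] (X : Over (Spec (CommRingCat.of K)))
    (U V : X.left.Opens) (hVU : V ≤ U) : Γ(X.left, U) →ₗ[K] Γ(X.left, V) where
  toFun s := (X.left.presheaf.map (homOfLE hVU).op).hom s
  map_add' := map_add _
  map_smul' c s := by
    rw [Algebra.smul_def, Algebra.smul_def, map_mul]
    exact congrArg (· * _) (restrict_structHom X U V hVU c)

/-- The Čech cohomology group `H¹({U, V}, 𝒪_X) = 𝒪_X(U ∩ V) / (𝒪_X(U)| + 𝒪_X(V)|)` of a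
`K`-scheme `X`. -/
abbrev CechH1 {K : Type} [CommRing K] (X : Over (Spec (CommRingCat.of K)))
    (U V : X.left.Opens) : Type :=
  Γ(X.left, U ⊓ V) ⧸ (LinearMap.range (resLin X U (U ⊓ V) inf_le_left) ⊔
    LinearMap.range (resLin X V (U ⊓ V) inf_le_right))

/-- The genus in terms of the dimension of the Čech cohomology. -/
theorem hasGenus_of_finrank {K : Type} [Field K] (X : Over (Spec (CommRingCat.of K))) (g : ℕ)
    (U V : X.left.Opens) (hU : IsAffineOpen U) (hV : IsAffineOpen V) (hUV : U ⊔ V = ⊤)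
    (hfin : Module.Finite K (CechH1 X U V)) (hg : Module.finrank K (CechH1 X U V) = g) :
    HasGenus X g := by
  let b := Module.finBasisOfFinrankEq K (CechH1 X U V) hg
  choose e he using fun i ↦ Submodule.mkQ_surjective _ (b i)
  have key : ∀ (s : Γ(X.left, U ⊓ V)) (c : Fin g → K),
      (∃ (x : Γ(X.left, U)) (y : Γ(X.left, V)), s = ∑ i, structHom X (U ⊓ V) (c i) * e i +
        resHom X inf_le_left x + resHom X inf_le_right y) ↔
      Submodule.mkQ (LinearMap.range (resLin X U (U ⊓ V) inf_le_left) ⊔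
        LinearMap.range (resLin X V (U ⊓ V) inf_le_right)) s = ∑ i, c i • b i := by
    intro s c
    have h₁ : ∑ i, c i • b i = Submodule.mkQ (LinearMap.range (resLin X U (U ⊓ V) inf_le_left) ⊔
        LinearMap.range (resLin X V (U ⊓ V) inf_le_right))
        (∑ i, structHom X (U ⊓ V) (c i) * e i) := by
      rw [map_sum]
      refine Finset.sum_congr rfl fun i _ ↦ ?_
      rw [← he i, ← map_smul, Algebra.smul_def]
      rfl
    rw [h₁, ← sub_eq_zero, ← map_sub, ← LinearMap.mem_ker, Submodule.ker_mkQ, Submodule.mem_sup]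
    constructor
    · rintro ⟨x, y, h⟩
      refine ⟨_, ⟨x, rfl⟩, _, ⟨y, rfl⟩, ?_⟩
      rw [h, add_assoc, add_sub_cancel_left]
      rfl
    · rintro ⟨_, ⟨x, rfl⟩, _, ⟨y, rfl⟩, h⟩
      refine ⟨x, y, ?_⟩
      rw [add_assoc, add_comm, ← sub_eq_iff_eq_add]
      exact h.symm
  refine ⟨U, V, hU, hV, hUV, e, fun s ↦ ?_⟩
  refine ⟨fun i ↦ b.repr (Submodule.mkQ _ s) i, (key s _).2 (b.sum_repr _).symm, ?_⟩
  intro c hc
  have h₂ := (key s c).1 hc
  funext i
  rw [h₂, b.repr_sum_self]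

end general

/-! ### The charts -/

section

variable (K : Type) [CommRing K]

/-- The first chart as an open subset. -/
noncomputable def U0 : (CS K).Opens := (j0 K).opensRange

/-- The second chart as an open subset. -/
noncomputable def U1 : (CS K).Opens := (j1 K).opensRange

theorem isAffineOpen_U0 : IsAffineOpen (U0 K) := isAffineOpen_opensRange _

theorem isAffineOpen_U1 : IsAffineOpen (U1 K) := isAffineOpen_opensRange _

theorem U0_sup_U1 : U0 K ⊔ U1 K = ⊤ := by
  ext x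
  simp only [TopologicalSpace.Opens.coe_sup, TopologicalSpace.Opens.coe_top, Set.mem_univ, iff_true]
  exact exists_of_point K x

theorem opensRange_j01 : (j01 K).opensRange = U0 K ⊓ U1 K := by
  ext x
  constructor
  · rintro ⟨c, rfl⟩
    refine ⟨⟨s0 K c, ?_⟩, ⟨s1 K c, ?_⟩⟩
    · rw [← Scheme.Hom.comp_apply]
      rfl
    · rw [← Scheme.Hom.comp_apply, ← s0_j0]
      rfl
  · rintro ⟨⟨a, ha⟩, ⟨b, hb⟩⟩
    obtain ⟨c, rfl, -⟩ := exists_of_j0_eq_j1 K (ha.trans hb.symm)
    refine ⟨c, ?_⟩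
    rw [← ha, ← Scheme.Hom.comp_apply]
    rfl

theorem top_le_U0 : ⊤ ≤ j0 K ⁻¹ᵁ U0 K := fun x _ ↦ ⟨x, rfl⟩

theorem top_le_U1 : ⊤ ≤ j1 K ⁻¹ᵁ U1 K := fun x _ ↦ ⟨x, rfl⟩

theorem top_le_U01 : ⊤ ≤ j01 K ⁻¹ᵁ (U0 K ⊓ U1 K) := by
  rw [← opensRange_j01]
  exact fun x _ ↦ ⟨x, rfl⟩

theorem isAffineOpen_U01 : IsAffineOpen (U0 K ⊓ U1 K) := by
  rw [← opensRange_j01]
  exact isAffineOpen_opensRange _

/-- Sections over the first chart. -/
noncomputable def sec0 : Γ(CS K, U0 K) ≃+* R0 K :=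
  RingEquiv.ofBijective _ (sec_bijective (j0 K) (U0 K) rfl (top_le_U0 K))

/-- Sections over the second chart. -/
noncomputable def sec1 : Γ(CS K, U1 K) ≃+* R1 K :=
  RingEquiv.ofBijective _ (sec_bijective (j1 K) (U1 K) rfl (top_le_U1 K))

/-- Sections over the intersection of the two charts. -/
noncomputable def sec01 : Γ(CS K, U0 K ⊓ U1 K) ≃+* R01 K :=
  RingEquiv.ofBijective _ (sec_bijective (j01 K) (U0 K ⊓ U1 K) (opensRange_j01 K) (top_le_U01 K))

theorem sec01_restrict0 (s : Γ(CS K, U0 K)) :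
    sec01 K (((CS K).presheaf.map (homOfLE inf_le_left).op).hom s) = i0 K (sec0 K s) :=
  sec_restrict (i0 K).toRingHom (j0 K) (U0 K) (U0 K ⊓ U1 K) inf_le_left (top_le_U0 K) (j01 K)
    (top_le_U01 K) rfl s

theorem sec01_restrict1 (s : Γ(CS K, U1 K)) :
    sec01 K (((CS K).presheaf.map (homOfLE inf_le_right).op).hom s) = i1 K (sec1 K s) :=
  sec_restrict (i1 K).toRingHom (j1 K) (U1 K) (U0 K ⊓ U1 K) inf_le_right (top_le_U1 K) (j01 K)
    (top_le_U01 K) (s0_j0 K).symm s

theorem sec01_structHom (c : K) :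
    sec01 K (structHom (C K) (U0 K ⊓ U1 K) c) = algebraMap K (R01 K) c := by
  refine sec_structHom (C K) (j01 K) ?_ (U0 K ⊓ U1 K) (top_le_U01 K) c
  change (s0 K ≫ j0 K) ≫ str K = _
  rw [Category.assoc, j0_str, s0, ← Spec.map_comp]
  congr 1
  apply CommRingCat.hom_ext
  apply RingHom.ext
  intro r
  exact AlgHom.commutes (i0 K) r

end

section

variable (K : Type) [Field K]

attribute [local instance] secAlgebra

/-- The first chart as an open subset of `C K`. -/
noncomputable abbrev U0' : (C K).left.Opens := U0 K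

/-- The second chart as an open subset of `C K`. -/
noncomputable abbrev U1' : (C K).left.Opens := U1 K

/-- The obstruction map on sections. -/
noncomputable def obsSec : Γ((C K).left, U0' K ⊓ U1' K) →ₗ[K] K × K where
  toFun s := obs K (sec01 K s)
  map_add' a b := (congrArg (obs K) (map_add (sec01 K) a b)).trans (map_add (obs K) _ _)
  map_smul' c s := by
    have h : sec01 K (c • s) = c • sec01 K s :=
      (map_mul (sec01 K) _ _).trans ((congrArg (· * sec01 K s) (sec01_structHom K c)).trans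
        (Algebra.smul_def (A := R01 K) _ _).symm)
    exact (congrArg (obs K) h).trans (map_smul (obs K) _ _)

theorem obsSec_surjective : Function.Surjective (obsSec K) := by
  intro z
  obtain ⟨w, hw⟩ := obs_surjective K z
  obtain ⟨s, hs⟩ := (sec01 K).surjective w
  refine ⟨s, ?_⟩
  change obs K (sec01 K s) = z
  rw [hs, hw]

theorem ker_obsSec : LinearMap.ker (obsSec K) =
    LinearMap.range (resLin (C K) (U0' K) (U0' K ⊓ U1' K) inf_le_left) ⊔
      LinearMap.range (resLin (C K) (U1' K) (U0' K ⊓ U1' K) inf_le_right) := by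
  have key (s : Γ((C K).left, U0' K ⊓ U1' K)) : s ∈ LinearMap.ker (obsSec K) ↔
      sec01 K s ∈ LinearMap.ker (obs K) := Iff.rfl
  ext s
  rw [key, ker_obs, Submodule.mem_sup, Submodule.mem_sup]
  constructor
  · rintro ⟨_, ⟨a, rfl⟩, _, ⟨b, rfl⟩, hab⟩
    obtain ⟨a, rfl⟩ := (sec0 K).surjective a
    obtain ⟨b, rfl⟩ := (sec1 K).surjective b
    refine ⟨_, ⟨a, rfl⟩, _, ⟨b, rfl⟩, ?_⟩
    apply (sec01 K).injective
    exact (map_add (sec01 K) _ _).trans
      ((congrArg₂ (· + ·) (sec01_restrict0 K a) (sec01_restrict1 K b)).trans hab)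
  · rintro ⟨_, ⟨a, rfl⟩, _, ⟨b, rfl⟩, rfl⟩
    refine ⟨_, ⟨sec0 K a, rfl⟩, _, ⟨sec1 K b, rfl⟩, ?_⟩
    exact ((map_add (sec01 K) _ _).trans
      (congrArg₂ (· + ·) (sec01_restrict0 K a) (sec01_restrict1 K b))).symm

/-- The curve has genus `2`. -/
theorem hasGenus_C : HasGenus (C K) 2 := by
  have e : CechH1 (C K) (U0' K) (U1' K) ≃ₗ[K] K × K :=
    (Submodule.quotEquivOfEq _ _ (ker_obsSec K).symm).trans
      ((obsSec K).quotKerEquivOfSurjective (obsSec_surjective K))
  exact hasGenus_of_finrank (C K) 2 (U0' K) (U1' K) (isAffineOpen_U0 K) (isAffineOpen_U1 K)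
    (U0_sup_U1 K) (Module.Finite.equiv e.symm) (by rw [e.finrank_eq]; simp)

end

end Pool.Agent.H27.Curve
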