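import Pool.Agent.H27.CurveScheme

/-!
# The genus 2 curve: smoothness
-/

open CategoryTheory AlgebraicGeometry Limits Polynomial QuadraticAlgebra

namespace Pool.Agent.H27.Curve

section

variable (K : Type) [CommRing K]

theorem stdSmooth_polynomial [Nontrivial K] : Algebra.IsStandardSmoothOfRelativeDimension 1 K K[X] := by
  let b : Module.Basis Unit K[X] (Ω[K[X]⁄K]) :=
    (Module.Basis.singleton Unit K[X]).map (KaehlerDifferential.polynomialEquiv K).symm
  have : Algebra.IsStandardSmooth K K[X] := by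
    rw [Algebra.IsStandardSmooth.iff_exists_basis_kaehlerDifferential]
    refine ⟨inferInstance, Unit, b, ?_⟩
    rintro _ ⟨i, rfl⟩
    refine ⟨X, ?_⟩
    simp [b]
  rw [Algebra.IsStandardSmoothOfRelativeDimension.iff_of_isStandardSmooth]
  rw [(KaehlerDifferential.polynomialEquiv K).rank_eq]
  simp

variable {K}

theorem stdSmooth_of_equiv [Nontrivial K] {S : Type} [CommRing S] [Algebra K S] (F : K[X][X]) (hF : F.Monic)
    (e : AdjoinRoot F ≃ₐ[K] S) (d : S) (hd : e (AdjoinRoot.mk F (derivative F)) = d) :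
    Algebra.IsStandardSmoothOfRelativeDimension 1 K (Localization.Away d) := by
  let P : StandardEtalePair K[X] := ⟨F, hF, derivative F, 1, 0, 1, by simp⟩
  have h1 : Algebra.Etale K[X] (Localization.Away (AdjoinRoot.mk F (derivative F))) :=
    Algebra.Etale.of_equiv P.equivAwayAdjoinRoot
  rw [Algebra.Etale.iff_isStandardSmoothOfRelativeDimension_zero] at h1
  have h2 := stdSmooth_polynomial K
  have h3 : Algebra.IsStandardSmoothOfRelativeDimension (0 + 1) K
      (Localization.Away (AdjoinRoot.mk F (derivative F))) :=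
    Algebra.IsStandardSmoothOfRelativeDimension.trans 1 0 K K[X] _
  rw [zero_add] at h3
  exact Algebra.IsStandardSmoothOfRelativeDimension.of_algEquiv 1
    (IsLocalization.algEquivOfAlgEquiv (M := Submonoid.powers (AdjoinRoot.mk F (derivative F)))
      (T := Submonoid.powers d) (Localization.Away (AdjoinRoot.mk F (derivative F)))
      (Localization.Away d) e (by
        rw [Submonoid.map_powers]
        exact congrArg _ hd))

/-! ### The two projections -/

variable (h g : K[X])

/-- The equation, as a polynomial in `y` over `K[x]`. -/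
noncomputable def eqY : K[X][X] := X ^ 2 - (Polynomial.C h * X + Polynomial.C (h * g))

/-- The equation, as a polynomial in `x` over `K[y]`. -/
noncomputable def eqX : K[X][X] :=
  (h * g).map Polynomial.C + h.map Polynomial.C * Polynomial.C X - Polynomial.C (X ^ 2)

theorem eqY_monic : (eqY h g).Monic := by
  apply monic_X_pow_sub
  compute_degree!

theorem eqX_monic [Nontrivial K] (hh : h.Monic) (hg : g.Monic) (h1 : 0 < g.natDegree) : (eqX h g).Monic := by
  have hm : ((h * g).map Polynomial.C : K[X][X]).Monic := (hh.mul hg).map _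
  have hd : (h * g).natDegree = h.natDegree + g.natDegree := hh.natDegree_mul hg
  unfold eqX
  rw [add_sub_assoc]
  refine hm.add_of_left ?_
  have e1 : ((h * g).map Polynomial.C : K[X][X]).degree = (h.natDegree + g.natDegree : ℕ) := by
    rw [degree_eq_natDegree hm.ne_zero, (hh.mul hg).natDegree_map, hd]
  rw [e1]
  refine lt_of_le_of_lt (degree_sub_le _ _) (max_lt ?_ ?_)
  · refine lt_of_le_of_lt (degree_mul_le _ _) ?_
    have e2 : (h.map Polynomial.C : K[X][X]).degree ≤ (h.natDegree : ℕ) :=
      (degree_map_le).trans degree_le_natDegree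
    have e3 : (Polynomial.C (X : K[X])).degree ≤ (0 : ℕ) := degree_C_le
    refine lt_of_le_of_lt (add_le_add e2 e3) ?_
    norm_cast
    omega
  · refine lt_of_le_of_lt degree_C_le ?_
    norm_cast
    omega

theorem root_eqY : AdjoinRoot.root (eqY h g) * AdjoinRoot.root (eqY h g) =
    AdjoinRoot.of (eqY h g) (h * g) + AdjoinRoot.of (eqY h g) h * AdjoinRoot.root (eqY h g) := by
  have h1 : AdjoinRoot.mk (eqY h g) (X ^ 2 - (Polynomial.C h * X + Polynomial.C (h * g))) = 0 :=
    AdjoinRoot.mk_self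
  rw [map_sub, map_add, map_mul, map_pow, AdjoinRoot.mk_X, AdjoinRoot.mk_C, AdjoinRoot.mk_C] at h1
  linear_combination h1

theorem aeval_of {F : K[X][X]} (p : K[X]) : aeval (AdjoinRoot.of F X) p = AdjoinRoot.of F p := by
  have : AdjoinRoot.of F X = algebraMap K[X] (AdjoinRoot F) X := rfl
  rw [this, aeval_algebraMap_apply, aeval_X_left_apply]
  rfl

theorem algHom_extA {F : K[X][X]} {B : Type} [CommRing B] [Algebra K B]
    {φ ψ : AdjoinRoot F →ₐ[K] B} (h1 : φ (AdjoinRoot.of F X) = ψ (AdjoinRoot.of F X))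
    (h2 : φ (AdjoinRoot.root F) = ψ (AdjoinRoot.root F)) : φ = ψ := by
  have h3 : φ.comp (IsScalarTower.toAlgHom K K[X] (AdjoinRoot F)) =
      ψ.comp (IsScalarTower.toAlgHom K K[X] (AdjoinRoot F)) := by
    apply Polynomial.algHom_ext
    exact h1
  have h4 : ∀ p : K[X], φ (AdjoinRoot.of F p) = ψ (AdjoinRoot.of F p) := fun p ↦
    congrArg (· p) h3
  have h5 : (φ : AdjoinRoot F →+* B).comp (AdjoinRoot.mk F) =
      (ψ : AdjoinRoot F →+* B).comp (AdjoinRoot.mk F) := by
    apply Polynomial.ringHom_ext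
    · intro p
      exact h4 p
    · exact h2
  refine AlgHom.ext fun z ↦ ?_
  obtain ⟨p, rfl⟩ := AdjoinRoot.mk_surjective z
  exact congrArg (· p) h5

/-- `y`-projection -/
noncomputable def equivY : AdjoinRoot (eqY h g) ≃ₐ[K] QuadraticAlgebra K[X] (h * g) h := by
  refine AlgEquiv.ofAlgHom (AdjoinRoot.liftAlgHom (eqY h g)
      (IsScalarTower.toAlgHom K K[X] (QuadraticAlgebra K[X] (h * g) h)) ⟨0, 1⟩ ?_)
    (liftQ (AdjoinRoot.of _ X) (AdjoinRoot.root _) ?_) ?_ ?_
  · rw [eqY, eval₂_sub, eval₂_add, eval₂_mul, eval₂_X_pow, eval₂_C, eval₂_C, eval₂_X]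
    apply QuadraticAlgebra.ext <;> simp [pow_two]
  · rw [root_eqY, aeval_of, aeval_of]
  · apply algHom_extQ
    · rw [AlgHom.comp_apply, liftQ_x, AdjoinRoot.liftAlgHom_of]
      rfl
    · rw [AlgHom.comp_apply, liftQ_y, AdjoinRoot.liftAlgHom_root]
      rfl
  · apply algHom_extA
    · rw [AlgHom.comp_apply, AdjoinRoot.liftAlgHom_of]
      exact liftQ_x _ _ _
    · rw [AlgHom.comp_apply, AdjoinRoot.liftAlgHom_root]
      exact liftQ_y _ _ _

theorem equivY_mk (p : K[X][X]) : equivY h g (AdjoinRoot.mk _ p) =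
    eval₂ (algebraMap K[X] (QuadraticAlgebra K[X] (h * g) h)) ⟨0, 1⟩ p := rfl

theorem eval₂_map_C {B : Type} [CommRing B] [Algebra K B] (φ : K[X] →ₐ[K] B) (x : B) (p : K[X]) :
    eval₂ (φ : K[X] →+* B) x (p.map Polynomial.C) = aeval x p := by
  rw [eval₂_map, aeval_def]
  congr 1
  ext c
  exact φ.commutes c

theorem mk_map_C {F : K[X][X]} (p : K[X]) :
    AdjoinRoot.mk F (p.map Polynomial.C) = aeval (AdjoinRoot.root F) p := by
  have := eval₂_map_C (IsScalarTower.toAlgHom K K[X] (AdjoinRoot F)) (AdjoinRoot.root F) p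
  rw [← this]
  have h2 := AdjoinRoot.aeval_eq (f := F) (p.map Polynomial.C)
  rw [← h2, aeval_def]
  rfl

/-- `x`-projection -/
noncomputable def equivX : AdjoinRoot (eqX h g) ≃ₐ[K] QuadraticAlgebra K[X] (h * g) h := by
  refine AlgEquiv.ofAlgHom (AdjoinRoot.liftAlgHom (eqX h g)
      (aeval (⟨0, 1⟩ : QuadraticAlgebra K[X] (h * g) h)) ⟨X, 0⟩ ?_)
    (liftQ (AdjoinRoot.root _) (AdjoinRoot.of _ X) ?_) ?_ ?_
  · have hp : ∀ p : K[X], aeval (⟨X, 0⟩ : QuadraticAlgebra K[X] (h * g) h) p = ⟨p, 0⟩ := by
      intro p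
      have : (⟨X, 0⟩ : QuadraticAlgebra K[X] (h * g) h) = algebraMap K[X] _ X := rfl
      rw [this, aeval_algebraMap_apply, aeval_X_left_apply]
      rfl
    rw [eqX, eval₂_sub, eval₂_add, eval₂_mul, eval₂_map_C, eval₂_map_C, eval₂_C, eval₂_C, hp, hp]
    apply QuadraticAlgebra.ext <;> simp [pow_two]
  · have h1 : AdjoinRoot.mk (eqX h g) ((h * g).map Polynomial.C +
        h.map Polynomial.C * Polynomial.C X - Polynomial.C (X ^ 2)) = 0 :=
      AdjoinRoot.mk_self
    rw [map_sub, map_add, map_mul, mk_map_C, mk_map_C, AdjoinRoot.mk_C, AdjoinRoot.mk_C,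
      map_pow] at h1
    linear_combination -h1
  · apply algHom_extQ
    · rw [AlgHom.comp_apply, liftQ_x, AdjoinRoot.liftAlgHom_root]
      rfl
    · rw [AlgHom.comp_apply, liftQ_y, AdjoinRoot.liftAlgHom_of, aeval_X]
      rfl
  · apply algHom_extA
    · rw [AlgHom.comp_apply, AdjoinRoot.liftAlgHom_of, aeval_X]
      exact liftQ_y _ _ _
    · rw [AlgHom.comp_apply, AdjoinRoot.liftAlgHom_root]
      exact liftQ_x _ _ _

theorem equivX_mk (p : K[X][X]) : equivX h g (AdjoinRoot.mk _ p) =
    eval₂ ((aeval (⟨0, 1⟩ : QuadraticAlgebra K[X] (h * g) h) : K[X] →ₐ[K] _) : K[X] →+* _)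
      ⟨X, 0⟩ p := rfl

theorem equivY_derivative :
    equivY h g (AdjoinRoot.mk _ (derivative (eqY h g))) = ⟨-h, 2⟩ := by
  rw [equivY_mk, eqY]
  simp only [derivative_sub, derivative_add, derivative_mul, derivative_X_pow, derivative_C,
    derivative_X, eval₂_sub, eval₂_add, eval₂_mul, eval₂_X_pow, eval₂_C, eval₂_X, eval₂_zero,
    eval₂_one]
  apply QuadraticAlgebra.ext <;> simp

theorem equivX_derivative :
    equivX h g (AdjoinRoot.mk _ (derivative (eqX h g))) =
      ⟨derivative (h * g), derivative h⟩ := by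
  have hp : ∀ p : K[X], aeval (⟨X, 0⟩ : QuadraticAlgebra K[X] (h * g) h) p = ⟨p, 0⟩ := by
    intro p
    have : (⟨X, 0⟩ : QuadraticAlgebra K[X] (h * g) h) = algebraMap K[X] _ X := rfl
    rw [this, aeval_algebraMap_apply, aeval_X_left_apply]
    rfl
  rw [equivX_mk, eqX, derivative_sub, derivative_add, derivative_mul (f := h.map Polynomial.C),
    derivative_C, derivative_C, derivative_map, derivative_map, mul_zero, add_zero, sub_zero,
    eval₂_add, eval₂_mul, eval₂_map_C, eval₂_map_C, hp, hp, eval₂_C]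
  simp only [RingHom.coe_coe, aeval_X]
  apply QuadraticAlgebra.ext <;> simp

theorem isCoprime_quad [CharP K 2] (hh : h.Separable) (hg : IsCoprime h g) :
    IsCoprime (⟨-h, 2⟩ : QuadraticAlgebra K[X] (h * g) h) ⟨derivative (h * g), derivative h⟩ := by
  have h2 : (2 : K[X]) = 0 := CharTwo.two_eq_zero
  have e1 : (⟨-h, 2⟩ : QuadraticAlgebra K[X] (h * g) h) = -algebraMap K[X] _ h := by
    rw [h2]
    apply QuadraticAlgebra.ext <;> simp
  rw [e1, IsCoprime.neg_left_iff]
  have h3 : IsCoprime h (derivative h ^ 2 * g ^ 2) :=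
    IsCoprime.mul_right (IsCoprime.pow_right hh) hg.pow_right
  have h4 := h3.map (algebraMap K[X] (QuadraticAlgebra K[X] (h * g) h))
  have e2 : (⟨derivative (h * g), derivative h⟩ : QuadraticAlgebra K[X] (h * g) h) ^ 2 =
      algebraMap K[X] _ (derivative h ^ 2 * g ^ 2) +
        algebraMap K[X] _ h * ⟨h * derivative g ^ 2 + g * derivative h ^ 2, derivative h ^ 2⟩ := by
    rw [pow_two]
    apply QuadraticAlgebra.ext
    · simp only [re_mul, re_add, algebraMap_re, algebraMap_im, derivative_mul]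
      linear_combination (derivative h * g * h * derivative g) * h2
    · simp only [im_mul, im_add, algebraMap_re, algebraMap_im, derivative_mul]
      linear_combination ((derivative h * g + h * derivative g) * derivative h) * h2
  have h5 : IsCoprime (algebraMap K[X] (QuadraticAlgebra K[X] (h * g) h) h)
      ((⟨derivative (h * g), derivative h⟩ : QuadraticAlgebra K[X] (h * g) h) ^ 2) := by
    rw [e2]
    exact h4.add_mul_left_right _
  exact (IsCoprime.pow_right_iff two_pos).1 h5

theorem locally_stdSmooth [Nontrivial K] [CharP K 2] (hhm : h.Monic) (hgm : g.Monic)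
    (hgd : 0 < g.natDegree) (hh : h.Separable) (hg : IsCoprime h g) :
    RingHom.Locally (RingHom.IsStandardSmoothOfRelativeDimension 1)
      (algebraMap K (QuadraticAlgebra K[X] (h * g) h)) := by
  refine ⟨{⟨-h, 2⟩, ⟨derivative (h * g), derivative h⟩}, ?_, ?_⟩
  · have := isCoprime_quad h g hh hg
    rw [Ideal.span_insert]
    exact (Ideal.isCoprime_span_singleton_iff _ _).2 this |>.sup_eq
  · intro t ht
    rcases ht with rfl | rfl
    · rw [← IsScalarTower.algebraMap_eq,
        RingHom.isStandardSmoothOfRelativeDimension_algebraMap]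
      exact stdSmooth_of_equiv (eqY h g) (eqY_monic h g) (equivY h g) _ (equivY_derivative h g)
    · rw [← IsScalarTower.algebraMap_eq,
        RingHom.isStandardSmoothOfRelativeDimension_algebraMap]
      exact stdSmooth_of_equiv (eqX h g) (eqX_monic h g hhm hgm hgd) (equivX h g) _
        (equivX_derivative h g)

end

section

variable (K : Type) [CommRing K] [Nontrivial K] [CharP K 2]

theorem smooth_isZariskiLocalAtSource :
    IsZariskiLocalAtSource (@SmoothOfRelativeDimension 1 : MorphismProperty Scheme.{0}) :=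
  HasRingHomProperty.instIsZariskiLocalAtSource

instance smooth_str : SmoothOfRelativeDimension 1 (str K) := by
  have := smooth_isZariskiLocalAtSource
  rw [IsZariskiLocalAtSource.iff_of_openCover (P := @SmoothOfRelativeDimension 1) (cover K)]
  rintro (_ | _)
  · change SmoothOfRelativeDimension 1 (j0 K ≫ str K)
    rw [j0_str, HasRingHomProperty.Spec_iff (P := @SmoothOfRelativeDimension 1)]
    exact locally_stdSmooth _ _ (h₀_monic K) (h₁_monic K) (by rw [natDegree_h₁]; norm_num)
      (h₀_separable K) (coprime_h₀_h₁ K)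
  · change SmoothOfRelativeDimension 1 (j1 K ≫ str K)
    rw [j1_str, HasRingHomProperty.Spec_iff (P := @SmoothOfRelativeDimension 1)]
    exact locally_stdSmooth _ _ (h₁_monic K) (h₀_monic K) (by rw [natDegree_h₀]; norm_num)
      (h₁_separable K) (coprime_h₀_h₁ K).symm

instance smooth_C : SmoothOfRelativeDimension 1 (C K).hom := smooth_str K

end

end Pool.Agent.H27.Curve
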