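import Pool.Agent.H27.CurveRing
import Pool.Agent.H27.CurveMap
import Pool.Agent.H27.CurveScheme
import Pool.Agent.H27.CurveProper
import Pool.Agent.H27.CurveSmooth
import Pool.Agent.H27.CurveGeom
import Pool.Agent.H27.CurveSections
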