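import Pool.Agent.H27.Frame

/-!
# Existence of the Frobenius frame
-/

open CategoryTheory Limits
open scoped TensorProduct

namespace Pool.Agent.H27

lemma isAlgebraic_map {A B W : Type} [CommRing A] [CommRing B] [CommRing W] [Algebra A W]
    [Algebra B W] (f : A →+* B) (hf : Function.Injective f)
    (hfW : ∀ a, algebraMap B W (f a) = algebraMap A W a) {w : W} (hw : IsAlgebraic A w) :
    IsAlgebraic B w := by
  obtain ⟨p, hp, hpw⟩ := hw
  refine ⟨p.map f, (Polynomial.map_ne_zero_iff hf).2 hp, ?_⟩
  rw [Polynomial.aeval_def, Polynomial.eval₂_map]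
  have : (algebraMap B W).comp f = algebraMap A W := by
    ext a
    exact hfW a
  rw [this]
  exact hpw

/-- Construction of a Frobenius frame from a domain over `K` with a semilinear automorphism. -/
theorem exists_frame (k K : Type) [Field k] [Field K] [Algebra k K] [Algebra.IsAlgebraic k K]
    (hk : ∀ r : k, r ^ 2 = r) (B : Type) [CommRing B] [IsDomain B] [Algebra K B] (φ : B ≃+* B)
    (hφ : ∀ c : K, φ (algebraMap K B c) = algebraMap K B (c ^ 2)) (s : Set B)
    (hs : ∀ b ∈ s, φ b = b) (hadj : Algebra.adjoin K s = ⊤) (x : B) (hx : φ x = x)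
    (tr : Transcendental K x) :
    ∃ (W : Type) (_ : Field W) (_ : IsAlgClosed W) (_ : Algebra K W) (S : FrobFrame k K W)
      (i : B →ₐ[K] W), Function.Injective i ∧ (∀ b, S.F (i b) = i (φ b)) ∧ i x = S.x := by
  let W := AlgebraicClosure (FractionRing B)
  let φ' : FractionRing B ≃+* FractionRing B := IsFractionRing.ringEquivOfRingEquiv φ
  have hφ' : ∀ b, φ' (algebraMap B _ b) = algebraMap B _ (φ b) := fun b ↦ by
    simp [φ']
  let F : W ≃+* W := IsAlgClosure.equivOfEquiv W W φ'
  have hF' : ∀ z, F (algebraMap _ W z) = algebraMap _ W (φ' z) := fun z ↦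
    IsAlgClosure.equivOfEquiv_algebraMap W W φ' z
  let i : B →ₐ[K] W := IsScalarTower.toAlgHom K B W
  have hi : ∀ b, i b = algebraMap (FractionRing B) W (algebraMap B _ b) := fun b ↦
    IsScalarTower.algebraMap_apply B (FractionRing B) W b
  have hinj : Function.Injective i := by
    intro a b hab
    rw [hi, hi] at hab
    exact IsFractionRing.injective B (FractionRing B)
      ((algebraMap (FractionRing B) W).injective hab)
  have hFi : ∀ b, F (i b) = i (φ b) := by
    intro b
    rw [hi, hF', hφ', hi]
  have hF : ∀ c : K, F (algebraMap K W c) = algebraMap K W (c ^ 2) := by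
    intro c
    rw [← i.commutes, hFi, hφ, i.commutes]
  have hfinK : ∀ c : K, algebraMap K W c ∈ finOrbit F.toRingHom := by
    intro c
    have h₁ : IsAlgebraic k c := Algebra.IsAlgebraic.isAlgebraic c
    let j : k →+* finOrbit F.toRingHom :=
      ((algebraMap K W).comp (algebraMap k K)).codRestrict (finOrbit F.toRingHom) (fun r ↦ by
        refine ⟨1, one_pos, ?_⟩
        change F (algebraMap K W (algebraMap k K r)) = _
        rw [hF, ← map_pow, hk]
        rfl)
    apply mem_finOrbit_of_isAlgebraic
    obtain ⟨p, hp, hpc⟩ := h₁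
    refine ⟨p.map j, (Polynomial.map_ne_zero_iff j.injective).2 hp, ?_⟩
    rw [Polynomial.aeval_def, Polynomial.eval₂_map]
    have h₂ : (algebraMap (finOrbit F.toRingHom) W).comp j =
        (algebraMap K W).comp (algebraMap k K) := by
      ext r
      rfl
    rw [h₂, ← Polynomial.hom_eval₂]
    rw [Polynomial.aeval_def] at hpc
    rw [hpc, map_zero]
  have hfinB : ∀ b : B, i b ∈ finOrbit F.toRingHom := by
    intro b
    have hb : b ∈ Algebra.adjoin K s := by
      rw [hadj]
      trivial
    induction hb using Algebra.adjoin_induction with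
    | mem x hx =>
      refine ⟨1, one_pos, ?_⟩
      change F (i x) = i x
      rw [hFi, hs x hx]
    | algebraMap r =>
      rw [i.commutes]
      exact hfinK r
    | add x y _ _ hx hy =>
      rw [map_add]
      exact add_mem hx hy
    | mul x y _ _ hx hy =>
      rw [map_mul]
      exact mul_mem hx hy
  refine ⟨W, inferInstance, inferInstance, inferInstance,
    { hk := hk, F := F.toRingHom, hF := hF, x := i x, hx := ?_, tr := ?_, fin := ?_ }, i, hinj,
    hFi, rfl⟩
  · change F (i x) = i x
    rw [hFi, hx]
  · intro h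
    exact tr ((isAlgebraic_algHom_iff i hinj).1 h)
  · intro w
    apply mem_finOrbit_of_isAlgebraic
    have h₁ : IsAlgebraic (FractionRing B) w := Algebra.IsAlgebraic.isAlgebraic w
    have h₂ : IsAlgebraic B w := (IsFractionRing.isAlgebraic_iff B (FractionRing B) W).2 h₁
    refine isAlgebraic_map (i.toRingHom.codRestrict (finOrbit F.toRingHom) hfinB) ?_ ?_ h₂
    · intro a b hab
      exact hinj (congrArg Subtype.val hab)
    · intro a
      rfl

end Pool.Agent.H27
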