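import Pool.Agent.H27.CurveMap
import Pool.Agent.H27.FrameExists

/-!
# The Frobenius frame of the curve
-/

open CategoryTheory Limits Polynomial LaurentPolynomial
open scoped TensorProduct

namespace Pool.Agent.H27.Curve

open H1 (IC)

variable (K : Type) [Field K]

lemma adjoin_eq_top [CharP K 2] : Algebra.adjoin K {x01 K, u01 K, y01 K} = ⊤ := by
  let A := Algebra.adjoin K {x01 K, u01 K, y01 K}
  let x : A := ⟨x01 K, Algebra.subset_adjoin (by simp)⟩
  let u : A := ⟨u01 K, Algebra.subset_adjoin (by simp)⟩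
  let y : A := ⟨y01 K, Algebra.subset_adjoin (by simp)⟩
  have hx : IsUnit x := IsUnit.of_mul_eq_one u (Subtype.ext (x01_mul_u01 K))
  have h : y * y = aeval x (h₀ K * h₁ K) + aeval x (h₀ K) * y := by
    apply Subtype.ext
    have h₁ : ∀ p : K[X], ((aeval x p : A) : R01 K) = aeval (x01 K) p := fun p ↦
      (aeval_algHom_apply A.val x p).symm
    rw [Subalgebra.coe_add, Subalgebra.coe_mul, Subalgebra.coe_mul, h₁, h₁]
    change y01 K * y01 K = _ + _ * y01 K
    have h₃ : ∀ p : K[X], i0 K (aeval (x0 K) p) = aeval (x01 K) p := fun p ↦ by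
      rw [← i0_x0]
      exact (aeval_algHom_apply (i0 K) (x0 K) p).symm
    have h₂ := congrArg (i0 K) (y0_mul_y0 K)
    rw [_root_.map_mul (i0 K), _root_.map_add (i0 K), _root_.map_mul (i0 K), h₃, h₃, i0_y0] at h₂
    exact h₂
  obtain ⟨φ, hφx, hφy, -⟩ := exists_lift01 x y hx h
  have h₃ : A.val.comp φ = AlgHom.id K (R01 K) := by
    apply algHom_ext01
    · rw [AlgHom.comp_apply, hφx]
      rfl
    · rw [AlgHom.comp_apply, hφy]
      rfl
  rw [eq_top_iff]
  intro z _
  have h₄ : (φ z : R01 K) = z := congr($h₃ z)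
  rw [← h₄]
  exact (φ z).2

lemma transcendental_x01 : Transcendental K (x01 K) := by
  rw [transcendental_iff]
  intro p hp
  have h₁ : ∀ p : K[X], aeval (x01 K) p = (⟨toLaurent p, 0⟩ : R01 K) := by
    intro p
    have h₂ : aeval (x01 K) = ((Algebra.ofId K[T;T⁻¹] (R01 K)).restrictScalars K).comp
        (toLaurentAlg : K[X] →ₐ[K] K[T;T⁻¹]) := by
      apply Polynomial.algHom_ext
      rw [aeval_X, AlgHom.comp_apply]
      change x01 K = algebraMap K[T;T⁻¹] (R01 K) (toLaurent X)
      rw [toLaurent_X]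
      rfl
    rw [h₂]
    rfl
  rw [h₁] at hp
  have h₃ : toLaurent p = 0 := congrArg QuadraticAlgebra.re hp
  exact (toLaurent_eq_zero).1 h₃

/-- The semilinear Frobenius automorphism of the curve. -/
noncomputable def frobR01 [CharP K 2] [PerfectRing K 2] : R01 K ≃+* R01 K :=
  RingEquiv.ofRingHom (R01map (frobeniusEquiv K 2).toRingHom)
    (R01map (frobeniusEquiv K 2).symm.toRingHom)
    (by
      apply RingHom.ext
      intro z
      rw [RingHom.comp_apply, ← R01map_comp]
      have : (frobeniusEquiv K 2).toRingHom.comp (frobeniusEquiv K 2).symm.toRingHom =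
          RingHom.id K := by
        ext c
        exact (frobeniusEquiv K 2).apply_symm_apply c
      rw [this, R01map_id]
      rfl)
    (by
      apply RingHom.ext
      intro z
      rw [RingHom.comp_apply, ← R01map_comp]
      have : (frobeniusEquiv K 2).symm.toRingHom.comp (frobeniusEquiv K 2).toRingHom =
          RingHom.id K := by
        ext c
        exact (frobeniusEquiv K 2).symm_apply_apply c
      rw [this, R01map_id]
      rfl)

lemma frobR01_apply [CharP K 2] [PerfectRing K 2] (z : R01 K) :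
    frobR01 K z = R01map (frobenius K 2) z := rfl

theorem exists_curveFrame (k : Type) [Field k] (hk : ∀ r : k, r ^ 2 = r) [IsAlgClosed K]
    [Algebra k K] [Algebra.IsAlgebraic k K] [CharP K 2] :
    ∃ (W : Type) (_ : Field W) (_ : IsAlgClosed W) (_ : Algebra K W) (S : FrobFrame k K W)
      (i : R01 K →ₐ[K] W), Function.Injective i ∧
      (∀ z, S.F (i z) = i (R01map (frobenius K 2) z)) ∧ i (x01 K) = S.x := by
  have h₁ : ∀ c : K, frobR01 K (algebraMap K (R01 K) c) = algebraMap K (R01 K) (c ^ 2) := by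
    intro c
    rw [frobR01_apply, R01map_algebraMap]
    rfl
  have h₂ : ∀ b ∈ ({x01 K, u01 K, y01 K} : Set (R01 K)), frobR01 K b = b := by
    rintro b (rfl | rfl | rfl)
    · rw [frobR01_apply, R01map_x01]
    · rw [frobR01_apply, R01map_u01]
    · rw [frobR01_apply, R01map_y01]
  have h₃ : frobR01 K (x01 K) = x01 K := by
    rw [frobR01_apply, R01map_x01]
  exact exists_frame k K hk (R01 K) (frobR01 K) h₁ _ h₂ (adjoin_eq_top K) (x01 K) h₃
    (transcendental_x01 K)

end Pool.Agent.H27.Curve
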