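import Pool.Agent.H27.Inter
import Pool.Agent.H27.RangeInt

/-!
# Diagrams of subalgebras
-/

open CategoryTheory Limits
open scoped TensorProduct

namespace Pool.Agent.H27

variable {κ : Type} [Field κ]

/-- A diagram of subalgebras. -/
def subFunctor {W : Type} [CommRing W] [Algebra κ W]
    (A : WalkingCospan → Subalgebra κ W) (hA : ∀ {t t' : WalkingCospan} (_ : t ⟶ t'), A t ≤ A t') :
    WalkingCospan ⥤ Alg κ where
  obj t := CommAlgCat.of κ (A t)
  map τ := CommAlgCat.ofHom (Subalgebra.inclusion (hA τ))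
  map_id _ := rfl
  map_comp _ _ := rfl

lemma subFunctor_val {W : Type} [CommRing W] [Algebra κ W]
    (A : WalkingCospan → Subalgebra κ W) (hA : ∀ {t t' : WalkingCospan} (_ : t ⟶ t'), A t ≤ A t')
    {t t' : WalkingCospan} (τ : t ⟶ t') (a : A t) :
    (((subFunctor A hA).map τ).hom a : A t').1 = a.1 := rfl

theorem isConnectedDiagram_subFunctor {W : Type} [CommRing W] [Nontrivial W] [Algebra κ W]
    (A : WalkingCospan → Subalgebra κ W) (hA : ∀ {t t' : WalkingCospan} (_ : t ⟶ t'), A t ≤ A t')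
    (hinter : ∀ w : W, w ∈ A .left → w ∈ A .right → ∃ c : κ, algebraMap κ W c = w) :
    IsConnectedDiagram (subFunctor A hA) := by
  apply isConnectedDiagram_of_inter
  · exact Subalgebra.inclusion_injective _
  · exact Subalgebra.inclusion_injective _
  · intro t
    change Nontrivial (A t)
    infer_instance
  · intro a b hab
    have hab' : (a : A .left).1 = (b : A .right).1 := congrArg Subtype.val hab
    obtain ⟨c, hc⟩ := hinter a.1 a.2 (by rw [hab']; exact b.2)
    exact ⟨c, Subtype.ext hc.symm⟩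

/-- The multiplication map. -/
noncomputable def mulMap {W Ω : Type} [CommRing W] [Algebra κ W] [CommRing Ω] [Algebra κ Ω]
    (A O : Subalgebra κ W) (h : A ≤ O) (i : Ω →ₐ[κ] W) (hi : ∀ c, i c ∈ O) :
    A ⊗[κ] Ω →ₐ[κ] O :=
  Algebra.TensorProduct.lift (Subalgebra.inclusion h) (i.codRestrict O hi)
    (fun _ _ ↦ Commute.all _ _)

lemma mulMap_tmul {W Ω : Type} [CommRing W] [Algebra κ W] [CommRing Ω] [Algebra κ Ω]
    (A O : Subalgebra κ W) (h : A ≤ O) (i : Ω →ₐ[κ] W) (hi : ∀ c, i c ∈ O) (a : A) (c : Ω) :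
    (mulMap A O h i hi (a ⊗ₜ c)).1 = a.1 * i c := by
  rw [mulMap, Algebra.TensorProduct.lift_tmul]
  rfl

/-- A diagram of subalgebras of a field together with its base change. -/
noncomputable def fieldPointOfSub {W Ω : Type} [Field W] [Algebra κ W] [Field Ω] [Algebra κ Ω]
    (A O : WalkingCospan → Subalgebra κ W)
    (hA : ∀ {t t' : WalkingCospan} (_ : t ⟶ t'), A t ≤ A t')
    (hO : ∀ {t t' : WalkingCospan} (_ : t ⟶ t'), O t ≤ O t')
    (hAO : ∀ t, A t ≤ O t) (i : Ω →ₐ[κ] W) (hi : ∀ t c, i c ∈ O t)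
    (hb : ∀ t, Function.Bijective (mulMap (A t) (O t) (hAO t) i (hi t))) :
    FieldPoint (subFunctor A hA) Ω W where
  Y' := subFunctor O hO
  n :=
    { app := fun t ↦ CommAlgCat.ofHom (Subalgebra.inclusion (hAO t))
      naturality := fun _ _ _ ↦ rfl }
  e := fun t ↦ CommAlgCat.ofHom (i.codRestrict (O t) (hi t))
  e_comp := fun _ _ _ ↦ rfl
  coprod := by
    intro t
    let e : tens (CommAlgCat.of κ (A t)) (CommAlgCat.of κ Ω) ≅ CommAlgCat.of κ (O t) :=
      CommAlgCat.isoMk (AlgEquiv.ofBijective _ (hb t))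
    have h₁ : tinl _ _ ≫ e.hom = CommAlgCat.ofHom (Subalgebra.inclusion (hAO t)) := by
      apply CommAlgCat.hom_ext
      apply AlgHom.ext
      intro a
      apply Subtype.ext
      refine (mulMap_tmul (A t) (O t) (hAO t) i (hi t) a 1).trans ?_
      rw [map_one, mul_one]
      rfl
    have h₂ : tinr _ _ ≫ e.hom = CommAlgCat.ofHom (i.codRestrict (O t) (hi t)) := by
      apply CommAlgCat.hom_ext
      apply AlgHom.ext
      intro c
      apply Subtype.ext
      refine (mulMap_tmul (A t) (O t) (hAO t) i (hi t) 1 c).trans ?_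
      change (1 : W) * _ = _
      rw [one_mul]
      rfl
    have h₃ := (isCoprod_tens _ _).comp_iso e
    rw [h₁, h₂] at h₃
    exact h₃
  g := fun t ↦ CommAlgCat.ofHom (O t).val
  comp_g := fun _ _ _ ↦ rfl
  inj := fun t ↦ Subtype.val_injective

/-- `WalkingCospan.one` is terminal. -/
def isTerminalOne : IsTerminal (WalkingCospan.one) :=
  IsTerminal.ofUniqueHom (fun t ↦ match t with
    | .one => 𝟙 _
    | .left => WalkingCospan.Hom.inl
    | .right => WalkingCospan.Hom.inr) (fun _ _ ↦ Subsingleton.elim _ _)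

theorem isConstOn_of_sub {W Ω : Type} [Field W] [IsAlgClosed W] [Algebra κ W] [Field Ω]
    [IsAlgClosed Ω] [Algebra κ Ω]
    (A O : WalkingCospan → Subalgebra κ W)
    (hA : ∀ {t t' : WalkingCospan} (_ : t ⟶ t'), A t ≤ A t')
    (hO : ∀ {t t' : WalkingCospan} (_ : t ⟶ t'), O t ≤ O t')
    (hAO : ∀ t, A t ≤ O t) (i : Ω →ₐ[κ] W) (hi : ∀ t c, i c ∈ O t)
    (hb : ∀ t, Function.Bijective (mulMap (A t) (O t) (hAO t) i (hi t)))
    (hinter : ∀ w : W, w ∈ A .left → w ∈ A .right → ∃ c : κ, algebraMap κ W c = w)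
    (hint : ∀ (t : WalkingCospan) (w : W), (O t).val.toRingHom.IsIntegralElem w → w ∈ O t)
    {Γ : BasedCategory.{0, 1} (Alg κ)} (hΓ : IsFiniteStack Γ) (hΓc : HasFiniteCoprods Γ) :
    IsConstOn (subFunctor A hA) Γ := by
  refine isConstOn_of_rangeCondition (isConnectedDiagram_subFunctor A hA hinter) isTerminalOne
    (fieldPointOfSub A O hA hO hAO i hi hb) hΓ hΓc.hasCoprods
    (rangeCondition_of_isIntegral hΓc _ ?_)
  intro t w hw
  exact ⟨⟨w, hint t w hw⟩, rfl⟩

end Pool.Agent.H27
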