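import Pool.Agent.H27.InterK
import Pool.Agent.H27.SubDiag

/-!
# The virtual point over the field with two elements
-/

open CategoryTheory Limits
open scoped TensorProduct

namespace Pool.Agent.H27

open H1 (IC)

/-- The sets `{x}`, `{1/x}`, `{x, 1/x}`. -/
def chartSet {W : Type} [Field W] (x : W) : WalkingCospan → Set W
  | .left => {x}
  | .right => {x⁻¹}
  | .one => {x, x⁻¹}

lemma chartSet_mono {W : Type} [Field W] (x : W) {t t' : WalkingCospan} (τ : t ⟶ t') :
    chartSet x t ⊆ chartSet x t' := by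
  rcases τ with _ | ⟨_ | _⟩
  · exact subset_rfl
  · intro a ha
    have : a = x := ha
    exact Or.inl this
  · intro a ha
    have : a = x⁻¹ := ha
    exact Or.inr this

/-- The data of a field `W` over an algebraic closure `K` of the field `k` with two elements, with a
lift `F` of the Frobenius of `K` and a transcendental element `x` fixed by `F`, such that every
element has a finite orbit. -/
structure FrobFrame (k K W : Type) [Field k] [Field K] [Field W] [Algebra K W] where
  hk : ∀ r : k, r ^ 2 = r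
  F : W →+* W
  hF : ∀ c : K, F (algebraMap K W c) = algebraMap K W (c ^ 2)
  x : W
  hx : F x = x
  tr : Transcendental K x
  fin : ∀ w : W, w ∈ finOrbit F

lemma mem_IC_of_isIntegralElem {K W : Type} [Field K] [Field W] [Algebra K W] {S' : Set W}
    {w : W} (hw : (IC K S').val.toRingHom.IsIntegralElem w) : w ∈ IC K S' := by
  have h₁ : IsIntegral (integralClosure (Algebra.adjoin K S') W) w := hw
  have h₂ : IsIntegral (Algebra.adjoin K S') w := isIntegral_trans w h₁
  exact h₂

lemma isIntegralElem_congr {k K W : Type} [Field k] [Field K] [Field W] [Algebra K W] [Algebra k W]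
    {A : Subalgebra k W} {B : Subalgebra K W} (h : ∀ w, w ∈ A → w ∈ B) {w : W}
    (hw : A.val.toRingHom.IsIntegralElem w) : B.val.toRingHom.IsIntegralElem w := by
  let i : A →+* B := A.val.toRingHom.codRestrict B (fun x ↦ h x.1 x.2)
  obtain ⟨p, hp, hpw⟩ := hw
  refine ⟨p.map i, hp.map i, ?_⟩
  rw [Polynomial.eval₂_map]
  exact hpw

namespace FrobFrame

variable {k K W : Type} [Field k] [Field K] [Field W] [Algebra K W] (S : FrobFrame k K W)

lemma x_ne_zero : S.x ≠ 0 := by
  intro h
  have := S.tr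
  rw [h] at this
  exact this isAlgebraic_zero

lemma fix_chartSet (t : WalkingCospan) : ∀ s ∈ chartSet S.x t, S.F s = s := by
  rcases t with _ | _ | _
  · rintro s (rfl | rfl)
    · exact S.hx
    · rw [map_inv₀, S.hx]
  · rintro s rfl
    exact S.hx
  · rintro s rfl
    rw [map_inv₀, S.hx]

variable [Algebra k K] [Algebra k W] [IsScalarTower k K W]

/-- The rings of the virtual point. -/
def A (t : WalkingCospan) : Subalgebra k W := OF S.F k S.hk S.hF (chartSet S.x t)

lemma mem_A {t : WalkingCospan} {w : W} :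
    w ∈ S.A t ↔ w ∈ IC K (chartSet S.x t) ∧ S.F w = w := Iff.rfl

lemma A_mono {t t' : WalkingCospan} (τ : t ⟶ t') : S.A t ≤ S.A t' :=
  fun _ hw ↦ ⟨IC_le (chartSet_mono S.x τ) hw.1, hw.2⟩

lemma A_inter [IsAlgClosed K] (w : W) (h₀ : w ∈ S.A .left) (h₁ : w ∈ S.A .right) :
    ∃ c : k, algebraMap k W c = w := by
  obtain ⟨c, hc⟩ := exists_of_mem_IC S.tr h₀.1 h₁.1
  have hF : S.F w = w := h₀.2
  rw [← hc, S.hF] at hF
  have h₁ := (algebraMap K W).injective hF
  rcases sq_eq_self_iff.1 h₁ with h | h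
  · refine ⟨0, ?_⟩
    rw [← hc, h, map_zero, map_zero]
  · refine ⟨1, ?_⟩
    rw [← hc, h, map_one, map_one]

/-- The rings of the base change of the virtual point. -/
def O (t : WalkingCospan) : Subalgebra k W := (IC K (chartSet S.x t)).restrictScalars k

lemma mem_O {t : WalkingCospan} {w : W} : w ∈ S.O t ↔ w ∈ IC K (chartSet S.x t) := Iff.rfl

lemma O_mono {t t' : WalkingCospan} (τ : t ⟶ t') : S.O t ≤ S.O t' :=
  fun _ hw ↦ IC_le (chartSet_mono S.x τ) hw

lemma A_le_O (t : WalkingCospan) : S.A t ≤ S.O t := fun _ hw ↦ hw.1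

lemma algebraMap_mem_O (t : WalkingCospan) (c : K) :
    IsScalarTower.toAlgHom k K W c ∈ S.O t := by
  rw [mem_O]
  exact Subalgebra.algebraMap_mem _ c

lemma bijective_mulMap [IsAlgClosed K] [CharP K 2] (t : WalkingCospan) :
    Function.Bijective (mulMap (S.A t) (S.O t) (S.A_le_O t)
      (IsScalarTower.toAlgHom k K W) (S.algebraMap_mem_O t)) := by
  refine bijective_fixed S.F k S.hF (S.fix_chartSet t) S.fin (S.A t) (S.O t)
    (fun w ↦ Iff.rfl) (fun w ↦ Iff.rfl) _ ?_
  intro a c
  rw [mulMap_tmul]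
  rfl

/-- The virtual point. -/
def Y : WalkingCospan ⥤ Alg k := subFunctor S.A (fun τ ↦ S.A_mono τ)

theorem isConnectedDiagram_Y [IsAlgClosed K] : IsConnectedDiagram S.Y :=
  isConnectedDiagram_subFunctor S.A (fun τ ↦ S.A_mono τ) S.A_inter

lemma mem_O_of_isIntegralElem (t : WalkingCospan) (w : W)
    (hw : (S.O t).val.toRingHom.IsIntegralElem w) : w ∈ S.O t := by
  rw [mem_O]
  have h₁ : (IC K (chartSet S.x t)).val.toRingHom.IsIntegralElem w :=
    isIntegralElem_congr (A := S.O t) (B := IC K (chartSet S.x t)) (fun _ h ↦ S.mem_O.1 h) hw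
  exact mem_IC_of_isIntegralElem (K := K) (S' := chartSet S.x t) (w := w) h₁

theorem isConstOn_Y [IsAlgClosed K] [CharP K 2] [IsAlgClosed W]
    {Γ : BasedCategory.{0, 1} (Alg k)} (hΓ : IsFiniteStack Γ) (hΓc : HasFiniteCoprods Γ) :
    IsConstOn S.Y Γ :=
  isConstOn_of_sub S.A S.O (fun τ ↦ S.A_mono τ) (fun τ ↦ S.O_mono τ) S.A_le_O
    (IsScalarTower.toAlgHom k K W) S.algebraMap_mem_O S.bijective_mulMap S.A_inter
    S.mem_O_of_isIntegralElem hΓ hΓc

end FrobFrame

end Pool.Agent.H27
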