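import Pool.Agent.H27.H1
import Pool.Agent.H27.Frame

/-!
# The virtual point over an arbitrary extension of the field with two elements
-/

open CategoryTheory Limits
open scoped TensorProduct

namespace Pool.Agent.H27

open H1 (IC)

/-- The tensor product of two domains over an algebraically closed field is a domain. -/
theorem isDomain_tensor (K A B : Type) [Field K] [IsAlgClosed K] [CommRing A] [IsDomain A]
    [Algebra K A] [CommRing B] [IsDomain B] [Algebra K B] : IsDomain (A ⊗[K] B) := by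
  classical
  let b := Module.Basis.ofVectorSpace K B
  have hnt : Nontrivial (A ⊗[K] B) := inferInstance
  have key : ∀ x y : A ⊗[K] B, x * y = 0 → x = 0 ∨ y = 0 := by
    intro x y hxy
    by_contra hcon
    rw [not_or] at hcon
    obtain ⟨hx, hy⟩ := hcon
    obtain ⟨f, hf⟩ := TensorProduct.eq_repr_basis_right b x
    obtain ⟨g, hg⟩ := TensorProduct.eq_repr_basis_right b y
    obtain ⟨i, hi⟩ : ∃ i, f i ≠ 0 := by
      by_contra h
      push Not at h
      apply hx
      rw [← hf, show f = 0 from Finsupp.ext h, Finsupp.sum_zero_index]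
    obtain ⟨j, hj⟩ : ∃ j, g j ≠ 0 := by
      by_contra h
      push Not at h
      apply hy
      rw [← hg, show g = 0 from Finsupp.ext h, Finsupp.sum_zero_index]
    let s : Finset A := f.support.image f ∪ g.support.image g
    let A₀ : Subalgebra K A := Algebra.adjoin K (s : Set A)
    have hfA : ∀ l, f l ∈ A₀ := by
      intro l
      by_cases h : l ∈ f.support
      · apply Algebra.subset_adjoin
        simp only [s, Finset.coe_union, Finset.coe_image]
        exact Or.inl ⟨l, h, rfl⟩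
      · rw [Finsupp.notMem_support_iff.1 h]
        exact A₀.zero_mem
    have hgA : ∀ l, g l ∈ A₀ := by
      intro l
      by_cases h : l ∈ g.support
      · apply Algebra.subset_adjoin
        simp only [s, Finset.coe_union, Finset.coe_image]
        exact Or.inr ⟨l, h, rfl⟩
      · rw [Finsupp.notMem_support_iff.1 h]
        exact A₀.zero_mem
    have hfg : Algebra.FiniteType K A₀ := (Subalgebra.fg_iff_finiteType A₀).1 (Subalgebra.fg_adjoin_finset s)
    let a : A₀ := ⟨f i, hfA i⟩ * ⟨g j, hgA j⟩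
    have ha : a ≠ 0 := by
      intro h
      have := congrArg Subtype.val h
      exact mul_ne_zero hi hj this
    let L := Localization.Away a
    have hL : Algebra.FiniteType K L := by
      have : Algebra.FiniteType A₀ L := IsLocalization.finiteType_of_monoid_fg (Submonoid.powers a) L
      exact Algebra.FiniteType.trans hfg this
    have hLn : Nontrivial L := by
      have : Function.Injective (algebraMap A₀ L) :=
        IsLocalization.injective L (powers_le_nonZeroDivisors_of_noZeroDivisors ha)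
      exact this.nontrivial
    obtain ⟨ρ⟩ := H1.exists_point K L
    let ρ' : A₀ →ₐ[K] K := ρ.comp (IsScalarTower.toAlgHom K A₀ L)
    have hρ : ρ' a ≠ 0 := by
      have h1 : IsUnit (algebraMap A₀ L a) := IsLocalization.Away.algebraMap_isUnit a
      exact (h1.map ρ).ne_zero
    have hρi : ρ' ⟨f i, hfA i⟩ ≠ 0 := by
      intro h
      apply hρ
      rw [map_mul, h, zero_mul]
    have hρj : ρ' ⟨g j, hgA j⟩ ≠ 0 := by
      intro h
      apply hρ
      rw [map_mul, h, mul_zero]
    let incl : A₀ ⊗[K] B →ₐ[K] A ⊗[K] B := Algebra.TensorProduct.map A₀.val (AlgHom.id K B)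
    have hincl : Function.Injective incl :=
      Module.Flat.rTensor_preserves_injective_linearMap (M := B) A₀.val.toLinearMap
        Subtype.val_injective
    let x₀ : A₀ ⊗[K] B := ∑ l ∈ f.support, (⟨f l, hfA l⟩ : A₀) ⊗ₜ b l
    let y₀ : A₀ ⊗[K] B := ∑ l ∈ g.support, (⟨g l, hgA l⟩ : A₀) ⊗ₜ b l
    have hx₀ : incl x₀ = x := by
      rw [← hf]
      simp only [x₀, map_sum, incl, Algebra.TensorProduct.map_tmul]
      rfl
    have hy₀ : incl y₀ = y := by
      rw [← hg]
      simp only [y₀, map_sum, incl, Algebra.TensorProduct.map_tmul]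
      rfl
    have hxy₀ : x₀ * y₀ = 0 := by
      apply hincl
      rw [map_mul, hx₀, hy₀, hxy, map_zero]
    let Φ : A₀ ⊗[K] B →ₐ[K] B := Algebra.TensorProduct.lift ((Algebra.ofId K B).comp ρ')
      (AlgHom.id K B) (fun _ _ ↦ Commute.all _ _)
    have hΦ : ∀ (c : A₀) (d : B), Φ (c ⊗ₜ d) = ρ' c • d := by
      intro c d
      simp only [Φ, Algebra.TensorProduct.lift_tmul, AlgHom.coe_comp, Function.comp_apply,
        AlgHom.coe_id, id_eq]
      rw [Algebra.ofId_apply, Algebra.smul_def]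
    have hΦx : Φ x₀ ≠ 0 := by
      intro h
      simp only [x₀, map_sum, hΦ] at h
      have := linearIndependent_iff'.1 b.linearIndependent f.support
        (fun l ↦ ρ' ⟨f l, hfA l⟩) h i (Finsupp.mem_support_iff.2 hi)
      exact hρi this
    have hΦy : Φ y₀ ≠ 0 := by
      intro h
      simp only [y₀, map_sum, hΦ] at h
      have := linearIndependent_iff'.1 b.linearIndependent g.support
        (fun l ↦ ρ' ⟨g l, hgA l⟩) h j (Finsupp.mem_support_iff.2 hj)
      exact hρj this
    have := congrArg Φ hxy₀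
    rw [map_mul, map_zero] at this
    exact (mul_ne_zero hΦx hΦy) this
  have : NoZeroDivisors (A ⊗[K] B) := ⟨fun {x y} h ↦ key x y h⟩
  exact NoZeroDivisors.to_isDomain _

lemma equivFinsupp_map_left {k κ N N' : Type} [Field k] [AddCommGroup κ] [Module k κ]
    [AddCommGroup N] [Module k N] [AddCommGroup N'] [Module k N'] {ι : Type} [DecidableEq ι]
    (b : Module.Basis ι k κ) (f : N →ₗ[k] N') (z : κ ⊗[k] N) (i : ι) :
    TensorProduct.equivFinsuppOfBasisLeft b (f.lTensor κ z) i =
      f (TensorProduct.equivFinsuppOfBasisLeft b z i) := by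
  induction z with
  | zero => simp
  | tmul m c => simp
  | add x y hx hy => simp [hx, hy]

lemma inter_gen {k κ : Type} [Field k] [Field κ] [Algebra k κ] {W : Type} [CommRing W]
    [Algebra k W] (A₀ A₁ A : Subalgebra k W) (h₀ : A₀ ≤ A) (h₁ : A₁ ≤ A)
    (hinter : ∀ w : W, w ∈ A₀ → w ∈ A₁ → ∃ c : k, algebraMap k W c = w) (a : κ ⊗[k] A₀)
    (b : κ ⊗[k] A₁)
    (hab : (Subalgebra.inclusion h₀).toLinearMap.lTensor κ a =
      (Subalgebra.inclusion h₁).toLinearMap.lTensor κ b) : ∃ c : κ, a = c ⊗ₜ 1 := by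
  classical
  let B := Module.Basis.ofVectorSpace k κ
  have h₂ : ∀ i, ∃ c : k, algebraMap k W c =
      ((TensorProduct.equivFinsuppOfBasisLeft (N := A₀) B a i : A₀) : W) := by
    intro i
    apply hinter _ (Subtype.prop _)
    have h₃ : Subalgebra.inclusion h₀ (TensorProduct.equivFinsuppOfBasisLeft (N := A₀) B a i) =
        Subalgebra.inclusion h₁ (TensorProduct.equivFinsuppOfBasisLeft (N := A₁) B b i) := by
      have e₀ := equivFinsupp_map_left B (Subalgebra.inclusion h₀).toLinearMap a i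
      have e₁ := equivFinsupp_map_left B (Subalgebra.inclusion h₁).toLinearMap b i
      rw [hab, e₁] at e₀
      exact e₀.symm
    have h₄ := congrArg (fun u : A ↦ (u : W)) h₃
    have h₅ : ((TensorProduct.equivFinsuppOfBasisLeft (N := A₀) B a i : A₀) : W) =
      ((TensorProduct.equivFinsuppOfBasisLeft (N := A₁) B b i : A₁) : W) := h₄
    rw [h₅]
    exact Subtype.prop _
  choose c hc using h₂
  refine ⟨∑ i ∈ (TensorProduct.equivFinsuppOfBasisLeft (N := A₀) B a).support, c i • B i, ?_⟩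
  have h₆ := TensorProduct.equivFinsuppOfBasisLeft_symm_apply (N := A₀) B
    (TensorProduct.equivFinsuppOfBasisLeft (N := A₀) B a)
  rw [LinearEquiv.symm_apply_apply, Finsupp.sum] at h₆
  rw [TensorProduct.sum_tmul]
  conv_lhs => rw [h₆]
  refine Finset.sum_congr rfl fun i _ ↦ ?_
  have h₇ : TensorProduct.equivFinsuppOfBasisLeft (N := A₀) B a i = c i • (1 : A₀) := by
    apply Subtype.ext
    rw [← hc, Algebra.algebraMap_eq_smul_one]
    rfl
  rw [h₇, TensorProduct.tmul_smul, TensorProduct.smul_tmul']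

lemma injective_map_inclusion {k κ : Type} [Field k] [Field κ] [Algebra k κ] {W : Type}
    [CommRing W] [Algebra k W] (A₀ A : Subalgebra k W) (h₀ : A₀ ≤ A) :
    Function.Injective (Algebra.TensorProduct.map (AlgHom.id κ κ) (Subalgebra.inclusion h₀)) :=
  Module.Flat.lTensor_preserves_injective_linearMap (M := κ)
      (Subalgebra.inclusion h₀).toLinearMap (Subalgebra.inclusion_injective h₀)

section FieldPointGen

variable {k K W : Type} [Field k] [Field K] [Field W] [Algebra k K] [Algebra K W] [Algebra k W]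
  [IsScalarTower k K W]
  (κ : Type) [Field κ] [Algebra k κ] (Ω : Type) [Field Ω] [Algebra κ Ω] [Algebra k Ω]
  [IsScalarTower k κ Ω] [Algebra K Ω] [IsScalarTower k K Ω]

lemma smulComm_of_algebra (R S T : Type) [CommRing R] [CommRing S] [CommRing T] [Algebra R T]
    [Algebra S T] : SMulCommClass R S T :=
  ⟨fun a b c ↦ by
    rw [Algebra.smul_def, Algebra.smul_def, Algebra.smul_def, Algebra.smul_def, mul_left_comm]⟩

attribute [local instance] smulComm_of_algebra

/-- The base change of `C` to `Ω`, as a `κ`-algebra. -/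
noncomputable def extObj (C : Subalgebra K W) : Alg κ := CommAlgCat.of κ (Ω ⊗[K] C)

/-- The map `A → Ω ⊗ C`. -/
noncomputable def extA (A : Subalgebra k W) (C : Subalgebra K W) (hAC : ∀ a ∈ A, a ∈ C) :
    A →ₐ[k] Ω ⊗[K] C :=
  { toFun := fun a ↦ 1 ⊗ₜ ⟨a.1, hAC _ a.2⟩
    map_one' := rfl
    map_mul' := by
      intro a b
      rw [Algebra.TensorProduct.tmul_mul_tmul, one_mul]
      rfl
    map_zero' := by
      exact TensorProduct.tmul_zero _ _
    map_add' := by
      intro a b
      rw [← TensorProduct.tmul_add]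
      rfl
    commutes' := by
      intro r
      have h1 : (⟨((algebraMap k A r : A) : W), hAC _ (algebraMap k A r).2⟩ : C) =
          algebraMap k K r • (1 : C) := by
        apply Subtype.ext
        change algebraMap k W r = algebraMap k K r • (1 : W)
        rw [IsScalarTower.algebraMap_apply k K W, Algebra.algebraMap_eq_smul_one (A := W)]
      rw [h1, TensorProduct.tmul_smul, TensorProduct.smul_tmul']
      rw [← Algebra.algebraMap_eq_smul_one, ← IsScalarTower.algebraMap_apply k K Ω]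
      rfl }

lemma extA_apply (A : Subalgebra k W) (C : Subalgebra K W) (hAC : ∀ a ∈ A, a ∈ C) (a : A) :
    extA Ω A C hAC a = 1 ⊗ₜ ⟨a.1, hAC _ a.2⟩ := rfl

/-- The map `κ ⊗ A → Ω ⊗ C`. -/
noncomputable def extN (A : Subalgebra k W) (C : Subalgebra K W) (hAC : ∀ a ∈ A, a ∈ C) :
    κ ⊗[k] A →ₐ[κ] Ω ⊗[K] C :=
  Algebra.TensorProduct.lift (Algebra.ofId κ _) (extA Ω A C hAC) (fun _ _ ↦ Commute.all _ _)

lemma extN_tmul (A : Subalgebra k W) (C : Subalgebra K W) (hAC : ∀ a ∈ A, a ∈ C) (c : κ) (a : A) :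
    extN κ Ω A C hAC (c ⊗ₜ a) = (algebraMap κ Ω c) ⊗ₜ ⟨a.1, hAC _ a.2⟩ := by
  rw [extN, Algebra.TensorProduct.lift_tmul, extA_apply, Algebra.ofId_apply]
  change (algebraMap κ Ω c) ⊗ₜ[K] (1 : C) * _ = _
  rw [Algebra.TensorProduct.tmul_mul_tmul, one_mul, mul_one]

/-- The identity. -/
def toC (C : Subalgebra K W) : ↥(C.restrictScalars k) →+* C where
  toFun x := ⟨x.1, x.2⟩
  map_one' := rfl
  map_mul' _ _ := rfl
  map_zero' := rfl
  map_add' _ _ := rfl

/-- A `K`-algebra map out of `C` from a `k`-algebra map out of `A`. -/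
lemma exists_extG (A : Subalgebra k W) (C : Subalgebra K W) (hAC : ∀ a ∈ A, a ∈ C)
    (hi : ∀ c, IsScalarTower.toAlgHom k K W c ∈ C.restrictScalars k)
    (hb : Function.Bijective (mulMap A (C.restrictScalars k) (fun a h ↦ hAC a h)
      (IsScalarTower.toAlgHom k K W) hi))
    (D : Type) [CommRing D] [Algebra k D] [Algebra K D] [IsScalarTower k K D] (f : A →ₐ[k] D) :
    ∃ G : C →ₐ[K] D, ∀ a : A, G ⟨a.1, hAC _ a.2⟩ = f a := by
  let E := AlgEquiv.ofBijective _ hb
  let g₀ : A ⊗[k] K →ₐ[k] D := Algebra.TensorProduct.lift f (IsScalarTower.toAlgHom k K D)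
    (fun _ _ ↦ Commute.all _ _)
  let g₁ : C.restrictScalars k →ₐ[k] D := g₀.comp E.symm.toAlgHom
  have hE : ∀ (a : A) (c : K) (y : C.restrictScalars k), y.1 = a.1 * algebraMap K W c →
      E.symm y = a ⊗ₜ c := by
    intro a c y h
    rw [AlgEquiv.symm_apply_eq]
    apply Subtype.ext
    rw [h]
    exact (mulMap_tmul A (C.restrictScalars k) (fun a h ↦ hAC a h)
      (IsScalarTower.toAlgHom k K W) hi a c).symm
  have hg₁ : ∀ (a : A) (c : K) (y : C.restrictScalars k), y.1 = a.1 * algebraMap K W c →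
      g₁ y = f a * algebraMap K D c := by
    intro a c y h
    change g₀ (E.symm _) = _
    rw [hE a c y h, Algebra.TensorProduct.lift_tmul]
    rfl
  refine ⟨{ toFun := fun x ↦ g₁ ⟨x.1, x.2⟩
            map_one' := map_one g₁
            map_mul' := fun x y ↦ map_mul g₁ ⟨x.1, x.2⟩ ⟨y.1, y.2⟩
            map_zero' := map_zero g₁
            map_add' := fun x y ↦ map_add g₁ ⟨x.1, x.2⟩ ⟨y.1, y.2⟩
            commutes' := ?_ }, ?_⟩
  · intro c
    rw [hg₁ 1 c _ (one_mul _).symm, map_one, one_mul]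
  · intro a
    refine (hg₁ a 1 ⟨a.1, hAC _ a.2⟩ ?_).trans ?_
    · rw [map_one, mul_one]
    · rw [map_one, mul_one]

lemma toC_mulMap_tmul (A : Subalgebra k W) (C : Subalgebra K W) (hAC : ∀ a ∈ A, a ∈ C)
    (hi : ∀ c, IsScalarTower.toAlgHom k K W c ∈ C.restrictScalars k) (x : A) (r : K) :
    toC (k := k) C (mulMap A (C.restrictScalars k) (fun a h ↦ hAC a h)
      (IsScalarTower.toAlgHom k K W) hi (x ⊗ₜ r)) = r • ⟨x.1, hAC _ x.2⟩ := by
  apply Subtype.ext
  refine (mulMap_tmul _ _ _ _ _ x r).trans ?_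
  change x.1 * algebraMap K W r = r • x.1
  rw [Algebra.smul_def, mul_comm]

lemma isCoprod_ext (A : Subalgebra k W) (C : Subalgebra K W) (hAC : ∀ a ∈ A, a ∈ C)
    (hi : ∀ c, IsScalarTower.toAlgHom k K W c ∈ C.restrictScalars k)
    (hb : Function.Bijective (mulMap A (C.restrictScalars k) (fun a h ↦ hAC a h)
      (IsScalarTower.toAlgHom k K W) hi)) :
    IsCoprod (𝒞 := Alg κ) (CommAlgCat.ofHom (extN κ Ω A C hAC))
      (CommAlgCat.ofHom (Algebra.TensorProduct.includeLeft : Ω →ₐ[κ] Ω ⊗[K] C)) := by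
  intro D a b
  let _ : Algebra k D := ((algebraMap κ D).comp (algebraMap k κ)).toAlgebra
  have : IsScalarTower k κ D := IsScalarTower.of_algebraMap_eq' rfl
  let _ : Algebra K D := (b.hom.toRingHom.comp (algebraMap K Ω)).toAlgebra
  have : IsScalarTower k K D := by
    apply IsScalarTower.of_algebraMap_eq'
    ext r
    change algebraMap κ D (algebraMap k κ r) = b.hom (algebraMap K Ω (algebraMap k K r))
    rw [← IsScalarTower.algebraMap_apply k K Ω, IsScalarTower.algebraMap_apply k κ Ω]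
    exact (b.hom.commutes _).symm
  let a₀ : κ ⊗[k] A →ₐ[κ] D := a.hom
  let a' : A →ₐ[k] D := (a₀.restrictScalars k).comp Algebra.TensorProduct.includeRight
  obtain ⟨G, hG⟩ := exists_extG A C hAC hi hb D a'
  let bK : Ω →ₐ[K] D := { b.hom.toRingHom with commutes' := fun _ ↦ rfl }
  let c₀ : Ω ⊗[K] C →ₐ[K] D := Algebra.TensorProduct.lift bK G (fun _ _ ↦ Commute.all _ _)
  have hc₀ : ∀ (w : Ω) (x : C), c₀ (w ⊗ₜ x) = b.hom w * G x := by
    intro w x
    exact Algebra.TensorProduct.lift_tmul _ _ _ _ _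
  let c : Ω ⊗[K] C →ₐ[κ] D := { c₀.toRingHom with
    commutes' := fun r ↦ by
      change c₀ ((algebraMap κ Ω r) ⊗ₜ (1 : C)) = _
      rw [hc₀, map_one, mul_one]
      exact b.hom.commutes r }
  have hc : ∀ (w : Ω) (x : C), c (w ⊗ₜ x) = b.hom w * G x := hc₀
  refine ⟨CommAlgCat.ofHom c, ⟨?_, ?_⟩, ?_⟩
  · apply CommAlgCat.hom_ext
    apply Algebra.TensorProduct.ext'
    intro r x
    change c (extN κ Ω A C hAC (r ⊗ₜ x)) = a₀ (r ⊗ₜ x)
    rw [extN_tmul, hc, hG]
    have h1 : (r ⊗ₜ x : κ ⊗[k] A) = algebraMap κ (κ ⊗[k] A) r * (1 ⊗ₜ x) := by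
      rw [Algebra.TensorProduct.algebraMap_apply, Algebra.TensorProduct.tmul_mul_tmul, one_mul,
        mul_one]
      rfl
    rw [h1, map_mul, AlgHom.commutes]
    congr 1
    exact (a₀.commutes r).symm
  · apply CommAlgCat.hom_ext
    apply AlgHom.ext
    intro w
    change c (w ⊗ₜ 1) = b.hom w
    rw [hc, map_one, mul_one]
  · rintro c' ⟨h1, h2⟩
    apply CommAlgCat.hom_ext
    let c'' : Ω ⊗[K] C →ₐ[κ] D := c'.hom
    have h1' : ∀ z, c'' (extN κ Ω A C hAC z) = a₀ z := fun z ↦ congr(($h1).hom z)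
    have h2' : ∀ w : Ω, c'' (w ⊗ₜ 1) = b.hom w := fun w ↦ congr(($h2).hom w)
    have h3 : ∀ x : C, c'' (1 ⊗ₜ x) = G x := by
      have key : ∀ z : A ⊗[k] K, c'' (1 ⊗ₜ (toC (k := k) C (mulMap A (C.restrictScalars k)
          (fun a h ↦ hAC a h) (IsScalarTower.toAlgHom k K W) hi z))) =
          G (toC (k := k) C (mulMap A (C.restrictScalars k)
          (fun a h ↦ hAC a h) (IsScalarTower.toAlgHom k K W) hi z)) := by
        intro z
        induction z with
        | zero =>
          rw [map_zero, map_zero, TensorProduct.tmul_zero, map_zero, map_zero]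
        | tmul x r =>
          rw [toC_mulMap_tmul, map_smul, hG, TensorProduct.tmul_smul, TensorProduct.smul_tmul',
            ← Algebra.algebraMap_eq_smul_one]
          have h5 : ((algebraMap K Ω r) ⊗ₜ ⟨x.1, hAC _ x.2⟩ : Ω ⊗[K] C) =
              ((algebraMap K Ω r) ⊗ₜ 1) * (1 ⊗ₜ ⟨x.1, hAC _ x.2⟩) := by
            rw [Algebra.TensorProduct.tmul_mul_tmul, one_mul, mul_one]
          have h6 : (1 ⊗ₜ ⟨x.1, hAC _ x.2⟩ : Ω ⊗[K] C) = extN κ Ω A C hAC (1 ⊗ₜ x) := by
            rw [extN_tmul, map_one]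
          rw [h5, map_mul, h2', h6, h1', Algebra.smul_def]
          rfl
        | add x y hx hy =>
          rw [map_add, map_add, TensorProduct.tmul_add, map_add, map_add, hx, hy]
      intro x
      obtain ⟨z, hz⟩ := hb.2 ⟨x.1, x.2⟩
      have h6 := key z
      rw [hz] at h6
      exact h6
    change c'' = c
    apply AlgHom.ext
    intro z
    induction z with
    | zero => rw [map_zero, map_zero]
    | tmul w x =>
      have h4 : (w ⊗ₜ x : Ω ⊗[K] C) = (w ⊗ₜ 1) * (1 ⊗ₜ x) := by
        rw [Algebra.TensorProduct.tmul_mul_tmul, one_mul, mul_one]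
      rw [h4, map_mul, h2', h3, map_mul, hc, hc, map_one, map_one, mul_one, one_mul]
    | add x y hx hy => rw [map_add, map_add, hx, hy]


/-- The transition maps of the base change. -/
noncomputable def extMap {C C' : Subalgebra K W} (h : C ≤ C') : Ω ⊗[K] C →ₐ[κ] Ω ⊗[K] C' :=
  { (Algebra.TensorProduct.map (AlgHom.id K Ω) (Subalgebra.inclusion h)).toRingHom with
    commutes' := fun r ↦ by
      change Algebra.TensorProduct.map (AlgHom.id K Ω) (Subalgebra.inclusion h)
        ((algebraMap κ Ω r) ⊗ₜ (1 : C)) = (algebraMap κ Ω r) ⊗ₜ (1 : C')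
      rw [Algebra.TensorProduct.map_tmul, map_one]
      rfl }

lemma extMap_tmul {C C' : Subalgebra K W} (h : C ≤ C') (w : Ω) (x : C) :
    extMap κ Ω h (w ⊗ₜ x) = w ⊗ₜ (Subalgebra.inclusion h x) := by
  change Algebra.TensorProduct.map (AlgHom.id K Ω) (Subalgebra.inclusion h) (w ⊗ₜ x) = _
  rw [Algebra.TensorProduct.map_tmul]
  rfl

lemma extMap_apply {C C' : Subalgebra K W} (h : C ≤ C') (z : Ω ⊗[K] C) :
    extMap κ Ω h z = Algebra.TensorProduct.map (AlgHom.id K Ω) (Subalgebra.inclusion h) z := rfl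

lemma extMap_id {C : Subalgebra K W} (h : C ≤ C) : extMap κ Ω h = AlgHom.id κ _ := by
  apply AlgHom.ext
  intro z
  induction z with
  | zero => rw [map_zero, map_zero]
  | tmul w x => rw [extMap_tmul]; rfl
  | add x y hx hy => rw [map_add, map_add, hx, hy]

lemma extMap_comp {C C' C'' : Subalgebra K W} (h : C ≤ C') (h' : C' ≤ C'') (h'' : C ≤ C'') :
    extMap κ Ω h'' = (extMap κ Ω h').comp (extMap κ Ω h) := by
  apply AlgHom.ext
  intro z
  induction z with
  | zero => rw [map_zero, map_zero]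
  | tmul w x =>
    change _ = extMap κ Ω h' (extMap κ Ω h (w ⊗ₜ x))
    rw [extMap_tmul, extMap_tmul, extMap_tmul]
    rfl
  | add x y hx hy => rw [map_add, map_add, hx, hy]

lemma extMap_injective {C C' : Subalgebra K W} (h : C ≤ C') :
    Function.Injective (extMap κ Ω h) :=
  Module.Flat.lTensor_preserves_injective_linearMap (M := Ω)
      (Subalgebra.inclusion h).toLinearMap (Subalgebra.inclusion_injective h)

/-- The diagram of the `Ω ⊗ C t`. -/
noncomputable def extY' (C : WalkingCospan → Subalgebra K W)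
    (hC : ∀ {t t' : WalkingCospan} (_ : t ⟶ t'), C t ≤ C t') : WalkingCospan ⥤ Alg κ where
  obj t := CommAlgCat.of κ (Ω ⊗[K] (C t))
  map {t t'} τ := CommAlgCat.ofHom (extMap κ Ω (hC τ))
  map_id t := by
    apply CommAlgCat.hom_ext
    exact extMap_id κ Ω _
  map_comp {t t' t''} τ τ' := by
    apply CommAlgCat.hom_ext
    exact extMap_comp κ Ω (hC τ) (hC τ') _

lemma map_inclusion_id (A : Subalgebra k W) (h : A ≤ A) :
    Algebra.TensorProduct.map (AlgHom.id κ κ) (Subalgebra.inclusion h) =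
      AlgHom.id κ (κ ⊗[k] A) := by
  apply Algebra.TensorProduct.ext'
  intro a b
  rfl

lemma map_inclusion_comp {A A' A'' : Subalgebra k W} (h : A ≤ A') (h' : A' ≤ A'')
    (h'' : A ≤ A'') :
    Algebra.TensorProduct.map (AlgHom.id κ κ) (Subalgebra.inclusion h'') =
      (Algebra.TensorProduct.map (AlgHom.id κ κ) (Subalgebra.inclusion h')).comp
        (Algebra.TensorProduct.map (AlgHom.id κ κ) (Subalgebra.inclusion h)) := by
  apply Algebra.TensorProduct.ext'
  intro a b
  rfl

/-- The diagram of the `κ ⊗ A t`. -/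
noncomputable def extY (A : WalkingCospan → Subalgebra k W)
    (hA : ∀ {t t' : WalkingCospan} (_ : t ⟶ t'), A t ≤ A t') : WalkingCospan ⥤ Alg κ where
  obj t := CommAlgCat.of κ (κ ⊗[k] (A t))
  map {t t'} τ := CommAlgCat.ofHom (Algebra.TensorProduct.map (AlgHom.id κ κ)
    (Subalgebra.inclusion (hA τ)))
  map_id t := by
    apply CommAlgCat.hom_ext
    exact map_inclusion_id κ (A t) _
  map_comp {t t' t''} τ τ' := by
    apply CommAlgCat.hom_ext
    exact map_inclusion_comp κ (hA τ) (hA τ') _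

lemma extN_natural {A A' : Subalgebra k W} {C C' : Subalgebra K W} (hAC : ∀ a ∈ A, a ∈ C)
    (hAC' : ∀ a ∈ A', a ∈ C') (hA : A ≤ A') (hC : C ≤ C') :
    (extN κ Ω A' C' hAC').comp (Algebra.TensorProduct.map (AlgHom.id κ κ)
      (Subalgebra.inclusion hA)) = (extMap κ Ω hC).comp (extN κ Ω A C hAC) := by
  apply Algebra.TensorProduct.ext'
  intro a b
  change extN κ Ω A' C' hAC' (Algebra.TensorProduct.map (AlgHom.id κ κ)
      (Subalgebra.inclusion hA) (a ⊗ₜ b)) = extMap κ Ω hC (extN κ Ω A C hAC (a ⊗ₜ b))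
  rw [Algebra.TensorProduct.map_tmul, extN_tmul, extN_tmul, extMap_tmul]
  rfl

/-- The field point. -/
theorem exists_fieldPoint_gen [IsAlgClosed K] (A : WalkingCospan → Subalgebra k W)
    (hA : ∀ {t t' : WalkingCospan} (_ : t ⟶ t'), A t ≤ A t')
    (C : WalkingCospan → Subalgebra K W)
    (hC : ∀ {t t' : WalkingCospan} (_ : t ⟶ t'), C t ≤ C t')
    (hAC : ∀ t, ∀ a ∈ A t, a ∈ C t)
    (hi : ∀ t c, IsScalarTower.toAlgHom k K W c ∈ (C t).restrictScalars k)
    (hb : ∀ t, Function.Bijective (mulMap (A t) ((C t).restrictScalars k) (fun a h ↦ hAC t a h)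
      (IsScalarTower.toAlgHom k K W) (hi t))) :
    ∃ (M : Type) (_ : Field M) (_ : IsAlgClosed M) (_ : Algebra κ M)
      (P : FieldPoint (extY κ A (fun τ ↦ hA τ)) Ω M)
      (e : ∀ t, P.Y'.obj t ≃+* (C t) ⊗[K] Ω),
      (∀ t (c : Ω), e t ((P.e t).hom c) = 1 ⊗ₜ c) ∧
      ∀ (t t' : WalkingCospan) (τ : t ⟶ t') (a : P.Y'.obj t),
        e t' ((P.Y'.map τ).hom a) = Algebra.TensorProduct.map
          (Subalgebra.inclusion (hC τ)) (AlgHom.id K Ω) (e t a) := by
  let R₁ := Ω ⊗[K] (C .one)
  have hdom : IsDomain R₁ := isDomain_tensor K Ω (C .one)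
  let F₁ := FractionRing R₁
  let M := AlgebraicClosure F₁
  let iκ : Algebra κ M := ((algebraMap R₁ M).comp (algebraMap κ R₁)).toAlgebra
  let G : R₁ →ₐ[κ] M := { algebraMap R₁ M with commutes' := fun _ ↦ rfl }
  have hinj : Function.Injective (algebraMap R₁ M) := by
    rw [IsScalarTower.algebraMap_eq R₁ F₁ M]
    exact (algebraMap F₁ M).injective.comp (IsFractionRing.injective R₁ F₁)
  have hle : ∀ t, C t ≤ C .one := fun t ↦ hC (isTerminalOne.from t)
  refine ⟨M, inferInstance, inferInstance, iκ,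
    { Y' := extY' κ Ω C (fun τ ↦ hC τ)
      n := { app := fun t ↦ CommAlgCat.ofHom (extN κ Ω (A t) (C t) (hAC t))
             naturality := fun t t' τ ↦ CommAlgCat.hom_ext
              (extN_natural κ Ω (hAC t) (hAC t') (hA τ) (hC τ)) }
      e := fun t ↦ CommAlgCat.ofHom Algebra.TensorProduct.includeLeft
      e_comp := fun t t' τ ↦ by
        apply CommAlgCat.hom_ext
        apply AlgHom.ext
        intro w
        exact (extMap_tmul κ Ω (hC τ) w 1).trans (by rw [map_one]; rfl)
      coprod := fun t ↦ isCoprod_ext κ Ω (A t) (C t) (hAC t) (hi t) (hb t)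
      g := fun t ↦ CommAlgCat.ofHom (G.comp (extMap κ Ω (hle t)))
      comp_g := fun t t' τ ↦ by
        apply CommAlgCat.hom_ext
        change (G.comp (extMap κ Ω (hle t'))).comp
          (extMap κ Ω (hC τ)) = G.comp (extMap κ Ω (hle t))
        rw [AlgHom.comp_assoc, ← extMap_comp κ Ω (hC τ) (hle t') (hle t)]
      inj := fun t ↦ hinj.comp (extMap_injective κ Ω (hle t)) },
    fun t ↦ (Algebra.TensorProduct.comm K Ω (C t)).toRingEquiv, ?_, ?_⟩
  · intro t c
    rfl
  · intro t t' τ a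
    let a' : Ω ⊗[K] (C t) := a
    change Algebra.TensorProduct.comm K Ω (C t') (extMap κ Ω (hC τ) a') =
      Algebra.TensorProduct.map (Subalgebra.inclusion (hC τ)) (AlgHom.id K Ω)
        (Algebra.TensorProduct.comm K Ω (C t) a')
    generalize a' = z
    induction z with
    | zero => simp only [map_zero]
    | tmul w x =>
      rw [extMap_tmul, Algebra.TensorProduct.comm_tmul, Algebra.TensorProduct.comm_tmul,
        Algebra.TensorProduct.map_tmul]
      rfl
    | add x y hx hy => simp only [map_add, hx, hy]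

theorem isConnectedDiagram_extY
    (A : WalkingCospan → Subalgebra k W)
    (hA : ∀ {t t' : WalkingCospan} (_ : t ⟶ t'), A t ≤ A t')
    (hinter : ∀ w : W, w ∈ A .left → w ∈ A .right → ∃ c : k, algebraMap k W c = w) :
    IsConnectedDiagram (extY κ A (fun τ ↦ hA τ)) := by
  apply isConnectedDiagram_of_inter
  · exact injective_map_inclusion (A .left) (A .one) _
  · exact injective_map_inclusion (A .right) (A .one) _
  · intro t
    change Nontrivial (κ ⊗[k] (A t))
    infer_instance
  · intro a b hab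
    obtain ⟨c, hc⟩ := inter_gen (A .left) (A .right) (A .one)
      (hA WalkingCospan.Hom.inl) (hA WalkingCospan.Hom.inr) hinter a b hab
    exact ⟨c, hc⟩

end FieldPointGen

namespace FrobFrame

variable {k K W : Type} [Field k] [Field K] [Field W] [Algebra K W] (S : FrobFrame k K W)

/-- The integral elements `IC K {x}`, etc. -/
abbrev ICt (t : WalkingCospan) : Subalgebra K W := IC K (chartSet S.x t)

/-- `IC ⊗_K Ω` is perfect. -/
theorem exists_sq_eq [IsAlgClosed W] [CharP W 2] (Ω : Type) [Field Ω] [IsAlgClosed Ω]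
    [Algebra K Ω] (t : WalkingCospan) (a : (S.ICt t) ⊗[K] Ω) : ∃ b, b ^ 2 = a := by
  have h2 : (2 : (S.ICt t) ⊗[K] Ω) = 0 := by
    have h1 : (2 : S.ICt t) = 0 := by
      apply Subtype.ext
      change (2 : W) = 0
      exact CharTwo.two_eq_zero
    have := congrArg (algebraMap (S.ICt t) ((S.ICt t) ⊗[K] Ω)) h1
    rwa [map_ofNat, map_zero] at this
  induction a with
  | zero => exact ⟨0, by simp⟩
  | tmul x c =>
    obtain ⟨y, hy⟩ := IsAlgClosed.exists_pow_nat_eq (x : W) (n := 2) (by norm_num)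
    obtain ⟨d, hd⟩ := IsAlgClosed.exists_pow_nat_eq c (n := 2) (by norm_num)
    have hyI : y ∈ S.ICt t := by
      have h1 : IsIntegral (Algebra.adjoin K (chartSet S.x t)) (y ^ 2) := by
        rw [hy]
        exact x.2
      exact IsIntegral.of_pow (by norm_num) h1
    refine ⟨⟨y, hyI⟩ ⊗ₜ d, ?_⟩
    rw [Algebra.TensorProduct.tmul_pow, hd]
    congr 1
    exact Subtype.ext hy
  | add x y hx hy =>
    obtain ⟨a, ha⟩ := hx
    obtain ⟨b, hb⟩ := hy
    refine ⟨a + b, ?_⟩
    rw [← ha, ← hb, add_sq, h2]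
    ring

variable [Algebra k K] [Algebra k W] [IsScalarTower k K W]

/-- The virtual point over `κ`. -/
noncomputable def Yext (κ : Type) [Field κ] [Algebra k κ] : WalkingCospan ⥤ Alg κ :=
  extY κ S.A (fun τ ↦ S.A_mono τ)

lemma Yext_obj (κ : Type) [Field κ] [Algebra k κ] (t : WalkingCospan) :
    (S.Yext κ).obj t = CommAlgCat.of κ (κ ⊗[k] (S.A t)) := rfl

lemma Yext_map (κ : Type) [Field κ] [Algebra k κ] {t t' : WalkingCospan} (τ : t ⟶ t') :
    (S.Yext κ).map τ = CommAlgCat.ofHom (Algebra.TensorProduct.map (AlgHom.id κ κ)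
      (Subalgebra.inclusion (S.A_mono τ))) := rfl

theorem isConnectedDiagram_Yext [IsAlgClosed K] (κ : Type) [Field κ] [Algebra k κ] :
    IsConnectedDiagram (S.Yext κ) :=
  isConnectedDiagram_extY κ S.A (fun τ ↦ S.A_mono τ) S.A_inter

/-- Let `Ω` be an algebraic closure of `κ`, containing `K`.  The base change of `Yext` to `Ω` is
`IC ⊗_K Ω`, which is a diagram of domains and embeds in an algebraically closed field `M`. -/
theorem exists_fieldPoint [IsAlgClosed K] [Algebra.IsAlgebraic k K] [CharP K 2] (κ : Type)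
    [Field κ] [Algebra k κ] (Ω : Type) [Field Ω] [Algebra κ Ω] [IsAlgClosed Ω] [Algebra k Ω]
    [IsScalarTower k κ Ω] [Algebra K Ω] [IsScalarTower k K Ω] :
    ∃ (M : Type) (_ : Field M) (_ : IsAlgClosed M) (_ : Algebra κ M)
      (P : FieldPoint (S.Yext κ) Ω M)
      (e : ∀ t, P.Y'.obj t ≃+* (S.ICt t) ⊗[K] Ω),
      (∀ t (c : Ω), e t ((P.e t).hom c) = 1 ⊗ₜ c) ∧
      ∀ (t t' : WalkingCospan) (τ : t ⟶ t') (a : P.Y'.obj t),
        e t' ((P.Y'.map τ).hom a) = Algebra.TensorProduct.map
          (Subalgebra.inclusion (IC_le (chartSet_mono S.x τ))) (AlgHom.id K Ω) (e t a) :=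
  exists_fieldPoint_gen κ Ω S.A (fun τ ↦ S.A_mono τ) S.ICt
    (fun τ ↦ IC_le (chartSet_mono S.x τ)) (fun t _ ha ↦ S.A_le_O t ha)
    (fun t c ↦ S.algebraMap_mem_O t c) (fun t ↦ S.bijective_mulMap t)

end FrobFrame

end Pool.Agent.H27
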