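import Pool.Agent.H27.RelGal
import Pool.Agent.H27.Frame

/-!
# The range condition for charts of a projective curve
-/

open CategoryTheory Limits
open scoped TensorProduct

namespace Pool.Agent.H27

open H1 (IC IsGaloisExt)

/-- Transfer of Galois extensions along isomorphisms. -/
lemma isGaloisExt_of_ringEquiv {A A' E Q : Type} [CommRing A] [CommRing A'] [CommRing E]
    [Algebra A E] [Group Q] [Finite Q] [MulSemiringAction Q E] (hG : IsGaloisExt A E Q)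
    (ε : A' ≃+* A) :
    letI := ((algebraMap A E).comp ε.toRingHom).toAlgebra
    IsGaloisExt A' E Q := by
  let _ := ((algebraMap A E).comp ε.toRingHom).toAlgebra
  refine ⟨fun q a ↦ hG.smul_algebraMap q (ε a), fun z hz ↦ ?_, hG.exists_sum⟩
  obtain ⟨a, ha⟩ := hG.fixed z hz
  refine ⟨ε.symm a, ?_⟩
  change algebraMap A E (ε (ε.symm a)) = z
  rw [ε.apply_symm_apply, ha]

/-- The map on powers. -/
def powMap {A A' E E' : Type} [CommRing A] [CommRing A'] [CommRing E] [CommRing E'] [Algebra A E]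
    [Algebra A' E'] {p : ℕ} [Fact p.Prime] [CharP E p] [CharP E' p] (hA : ∀ a : A, ∃ b, b ^ p = a)
    (hA' : ∀ a : A', ∃ b, b ^ p = a) (n : ℕ) (φ : E →+* E') :
    powSub A E p hA n →+* powSub A' E' p hA' n :=
  (φ.comp (powSub A E p hA n).val.toRingHom).codRestrict (powSub A' E' p hA' n) (by
    rintro ⟨_, z, rfl⟩
    exact ⟨φ z, (map_pow φ z _).symm⟩)

lemma powMap_coe {A A' E E' : Type} [CommRing A] [CommRing A'] [CommRing E] [CommRing E']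
    [Algebra A E] [Algebra A' E'] {p : ℕ} [Fact p.Prime] [CharP E p] [CharP E' p]
    (hA : ∀ a : A, ∃ b, b ^ p = a) (hA' : ∀ a : A', ∃ b, b ^ p = a) (n : ℕ) (φ : E →+* E')
    (z : powSub A E p hA n) : (powMap hA hA' n φ z : E') = φ z := rfl

variable {κ : Type} [Field κ] {Γ : BasedCategory.{0, 1} (Alg κ)}

lemma IsRel.map_act_apply {ξ y w y' w' : Γ.obj} {c : Γ.p.obj ξ ⟶ Γ.p.obj y} {i : ξ ⟶ w}
    {j : y ⟶ w} {c' : Γ.p.obj ξ ⟶ Γ.p.obj y'} {i' : ξ ⟶ w'} {j' : y' ⟶ w'} (h : IsRel c i j)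
    (h' : IsRel c' i' j') (u : w ⟶ w') (v : y ⟶ y') (hi : i ≫ u = i') (hj : j ≫ u = v ≫ j')
    (g : FixAut ξ) : h.act g ≫ u = u ≫ h'.act g := by
  refine h.hom_ext ?_ ?_
  · rw [← Category.assoc, h.left_act, Category.assoc, hi, ← Category.assoc, hi, h'.left_act]
  · rw [← Category.assoc, h.right_act, hj, ← Category.assoc, hj, Category.assoc, h'.right_act]


section Splits

variable {ξ ω y₀ y₁ y₂ w₀ w₁ w₂ yM : Γ.obj} {v₀ : y₀ ⟶ y₂} {v₁ : y₁ ⟶ y₂}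
  {c₀ : Γ.p.obj ξ ⟶ Γ.p.obj y₀} {c₁ : Γ.p.obj ξ ⟶ Γ.p.obj y₁} {c₂ : Γ.p.obj ξ ⟶ Γ.p.obj y₂}
  {i₀ : ξ ⟶ w₀} {j₀ : y₀ ⟶ w₀} {i₁ : ξ ⟶ w₁} {j₁ : y₁ ⟶ w₁} {i₂ : ξ ⟶ w₂} {j₂ : y₂ ⟶ w₂}
  {a b : ξ ⟶ ω} {K Ω W M : Type} [Field K] [IsAlgClosed K] [Field Ω] [IsAlgClosed Ω]
  [Algebra κ Ω] [Algebra K Ω] [Field W] [IsAlgClosed W] [Algebra K W] [Field M] [Algebra κ M]

theorem splits (hc : IsCofiberedInGroupoids Γ) (h₀ : IsRel c₀ i₀ j₀) (h₁ : IsRel c₁ i₁ j₁)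
    (h₂ : IsRel c₂ i₂ j₂) (hω : IsRel (𝟙 _) a b) (eξ : Γ.p.obj ξ ≅ CommAlgCat.of κ Ω)
    (eM : Γ.p.obj yM ≅ CommAlgCat.of κ M)
    (hfin₀ : (Γ.p.map j₀).hom.toRingHom.Finite) (hfin₁ : (Γ.p.map j₁).hom.toRingHom.Finite)
    (hfin₂ : (Γ.p.map j₂).hom.toRingHom.Finite) (hfin' : (Γ.p.map b).hom.toRingHom.Finite)
    (x : W) (hx : x ≠ 0) (p : ℕ) [Fact p.Prime] [CharP Ω p]
    (ε₀ : H1.A₀ K Ω x ≃+* Γ.p.obj y₀) (ε₁ : H1.A₁ K Ω x ≃+* Γ.p.obj y₁)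
    (ε₂ : H1.A₀₁ K Ω x ≃+* Γ.p.obj y₂)
    (hε₀ : ∀ a, (Γ.p.map v₀).hom (ε₀ a) = ε₂ (H1.r₀ K Ω x a))
    (hε₁ : ∀ a, (Γ.p.map v₁).hom (ε₁ a) = ε₂ (H1.r₁ K Ω x a))
    (hA₀ : ∀ a : Γ.p.obj y₀, ∃ b, b ^ p = a) (hA₁ : ∀ a : Γ.p.obj y₁, ∃ b, b ^ p = a)
    (hA₂ : ∀ a : Γ.p.obj y₂, ∃ b, b ^ p = a)
    (u₀ : w₀ ⟶ w₂) (u₁ : w₁ ⟶ w₂) (hi₀ : i₀ ≫ u₀ = i₂) (hi₁ : i₁ ≫ u₁ = i₂)
    (hj₀ : j₀ ≫ u₀ = v₀ ≫ j₂) (hj₁ : j₁ ≫ u₁ = v₁ ≫ j₂) (f : w₂ ⟶ yM)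
    (hf₀ : Function.Injective (Γ.p.map (j₀ ≫ u₀ ≫ f)).hom)
    (hf₁ : Function.Injective (Γ.p.map (j₁ ≫ u₁ ≫ f)).hom)
    (hf₂ : Function.Injective (Γ.p.map (j₂ ≫ f)).hom) :
    (∀ z, ∃ b, (Γ.p.map (u₀ ≫ f)).hom z = (Γ.p.map (j₀ ≫ u₀ ≫ f)).hom b) ∧
    (∀ z, ∃ b, (Γ.p.map (u₁ ≫ f)).hom z = (Γ.p.map (j₁ ≫ u₁ ≫ f)).hom b) := by
  have hinjM : Function.Injective eM.hom.hom := (CommAlgCat.algEquivOfIso eM).injective
  have : Nontrivial (Γ.p.obj yM) := (CommAlgCat.algEquivOfIso eM).toEquiv.nontrivial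
  have : IsDomain (Γ.p.obj yM) := hinjM.isDomain eM.hom.hom
  have : IsDomain (Γ.p.obj y₀) := hf₀.isDomain _
  have : IsDomain (Γ.p.obj y₁) := hf₁.isDomain _
  have : IsDomain (Γ.p.obj y₂) := hf₂.isDomain _
  have : Nontrivial (Γ.p.obj w₀) := (Γ.p.map (u₀ ≫ f)).hom.toRingHom.domain_nontrivial
  have : Nontrivial (Γ.p.obj w₁) := (Γ.p.map (u₁ ≫ f)).hom.toRingHom.domain_nontrivial
  have : Nontrivial (Γ.p.obj w₂) := (Γ.p.map f).hom.toRingHom.domain_nontrivial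
  have : CharP (Γ.p.obj w₀) p :=
    charP_of_injective_ringHom (f := (eξ.inv ≫ Γ.p.map i₀).hom.toRingHom)
      (RingHom.injective (R := Ω) _) p
  have : CharP (Γ.p.obj w₁) p :=
    charP_of_injective_ringHom (f := (eξ.inv ≫ Γ.p.map i₁).hom.toRingHom)
      (RingHom.injective (R := Ω) _) p
  have : CharP (Γ.p.obj w₂) p :=
    charP_of_injective_ringHom (f := (eξ.inv ≫ Γ.p.map i₂).hom.toRingHom)
      (RingHom.injective (R := Ω) _) p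
  have : CharP M p := by
    exact charP_of_injective_ringHom
      (f := (eξ.inv ≫ Γ.p.map i₂ ≫ Γ.p.map f ≫ eM.hom).hom.toRingHom)
      (RingHom.injective (R := Ω) _) p
  obtain ⟨n, hn⟩ : ∃ n : ℕ, ∀ x : Γ.p.obj ω, IsNilpotent x → x ^ p ^ n = 0 := by
    let _ := algΩ eξ a
    have := finite_algΩ hω eξ hfin'
    exact exists_nilpotent_pow Ω (Γ.p.obj ω) p
  let _ := algOf (Γ.p.map j₀)
  let _ := algOf (Γ.p.map j₁)
  let _ := algOf (Γ.p.map j₂)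
  let _ := h₀.action
  let _ := h₁.action
  let _ := h₂.action
  have := finite_fixAut hc hω eξ hfin'
  have G₀ := isGaloisExt_of_isRel hc h₀ hω eξ hfin₀ hfin' (u₀ ≫ f) hf₀ p hA₀ n hn
  have G₁ := isGaloisExt_of_isRel hc h₁ hω eξ hfin₁ hfin' (u₁ ≫ f) hf₁ p hA₁ n hn
  have G₂ := isGaloisExt_of_isRel hc h₂ hω eξ hfin₂ hfin' f hf₂ p hA₂ n hn
  -- algebras over the charts
  let _ : Algebra (H1.A₀ K Ω x) (powSub (Γ.p.obj y₀) (Γ.p.obj w₀) p hA₀ n) :=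
    ((algebraMap (Γ.p.obj y₀) (powSub (Γ.p.obj y₀) (Γ.p.obj w₀) p hA₀ n)).comp
      ε₀.toRingHom).toAlgebra
  let _ : Algebra (H1.A₁ K Ω x) (powSub (Γ.p.obj y₁) (Γ.p.obj w₁) p hA₁ n) :=
    ((algebraMap (Γ.p.obj y₁) (powSub (Γ.p.obj y₁) (Γ.p.obj w₁) p hA₁ n)).comp
      ε₁.toRingHom).toAlgebra
  let _ : Algebra (H1.A₀₁ K Ω x) (powSub (Γ.p.obj y₂) (Γ.p.obj w₂) p hA₂ n) :=
    ((algebraMap (Γ.p.obj y₂) (powSub (Γ.p.obj y₂) (Γ.p.obj w₂) p hA₂ n)).comp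
      ε₂.toRingHom).toAlgebra
  have G₀' := isGaloisExt_of_ringEquiv G₀ ε₀
  have G₁' := isGaloisExt_of_ringEquiv G₁ ε₁
  have G₂' := isGaloisExt_of_ringEquiv G₂ ε₂
  let f₀ := powMap hA₀ hA₂ n (Γ.p.map u₀).hom.toRingHom
  let f₁ := powMap hA₁ hA₂ n (Γ.p.map u₁).hom.toRingHom
  let e : powSub (Γ.p.obj y₂) (Γ.p.obj w₂) p hA₂ n →+* M :=
    (Γ.p.map f ≫ eM.hom).hom.toRingHom.comp
      (powSub (Γ.p.obj y₂) (Γ.p.obj w₂) p hA₂ n).val.toRingHom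
  have hf₀' : ∀ a : H1.A₀ K Ω x, f₀ (algebraMap _ _ a) = algebraMap _ _ (H1.r₀ K Ω x a) := by
    intro a
    apply Subtype.ext
    change (Γ.p.map u₀).hom ((Γ.p.map j₀).hom (ε₀ a)) = (Γ.p.map j₂).hom (ε₂ (H1.r₀ K Ω x a))
    rw [← hε₀]
    have : Γ.p.map j₀ ≫ Γ.p.map u₀ = Γ.p.map v₀ ≫ Γ.p.map j₂ := by
      rw [← Γ.p.map_comp, hj₀, Γ.p.map_comp]
    exact congr(($this).hom (ε₀ a))
  have hf₁' : ∀ a : H1.A₁ K Ω x, f₁ (algebraMap _ _ a) = algebraMap _ _ (H1.r₁ K Ω x a) := by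
    intro a
    apply Subtype.ext
    change (Γ.p.map u₁).hom ((Γ.p.map j₁).hom (ε₁ a)) = (Γ.p.map j₂).hom (ε₂ (H1.r₁ K Ω x a))
    rw [← hε₁]
    have : Γ.p.map j₁ ≫ Γ.p.map u₁ = Γ.p.map v₁ ≫ Γ.p.map j₂ := by
      rw [← Γ.p.map_comp, hj₁, Γ.p.map_comp]
    exact congr(($this).hom (ε₁ a))
  have hq₀ : ∀ (q : FixAut ξ) (z : powSub (Γ.p.obj y₀) (Γ.p.obj w₀) p hA₀ n),
      f₀ (q • z) = q • f₀ z := by
    intro q z
    apply Subtype.ext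
    change (Γ.p.map u₀).hom ((Γ.p.map (h₀.act q)).hom (z : Γ.p.obj w₀)) =
      (Γ.p.map (h₂.act q)).hom ((Γ.p.map u₀).hom (z : Γ.p.obj w₀))
    have : Γ.p.map (h₀.act q) ≫ Γ.p.map u₀ = Γ.p.map u₀ ≫ Γ.p.map (h₂.act q) := by
      rw [← Γ.p.map_comp, h₀.map_act_apply h₂ u₀ v₀ hi₀ hj₀, Γ.p.map_comp]
    exact congr(($this).hom (z : Γ.p.obj w₀))
  have hq₁ : ∀ (q : FixAut ξ) (z : powSub (Γ.p.obj y₁) (Γ.p.obj w₁) p hA₁ n),
      f₁ (q • z) = q • f₁ z := by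
    intro q z
    apply Subtype.ext
    change (Γ.p.map u₁).hom ((Γ.p.map (h₁.act q)).hom (z : Γ.p.obj w₁)) =
      (Γ.p.map (h₂.act q)).hom ((Γ.p.map u₁).hom (z : Γ.p.obj w₁))
    have : Γ.p.map (h₁.act q) ≫ Γ.p.map u₁ = Γ.p.map u₁ ≫ Γ.p.map (h₂.act q) := by
      rw [← Γ.p.map_comp, h₁.map_act_apply h₂ u₁ v₁ hi₁ hj₁, Γ.p.map_comp]
    exact congr(($this).hom (z : Γ.p.obj w₁))
  have he : Function.Injective (e.comp (algebraMap (H1.A₀₁ K Ω x)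
      (powSub (Γ.p.obj y₂) (Γ.p.obj w₂) p hA₂ n))) := by
    intro a a' haa'
    have h₃ : (Γ.p.map (j₂ ≫ f)).hom (ε₂ a) = (Γ.p.map (j₂ ≫ f)).hom (ε₂ a') := by
      rw [Γ.p.map_comp]
      exact hinjM haa'
    exact ε₂.injective (hf₂ h₃)
  obtain ⟨hs₀, hs₁⟩ := H1.galois_splits' x hx _ _ _ f₀ f₁ hf₀' hf₁' (FixAut ξ) hq₀ hq₁ G₀' G₁' G₂'
    M e he
  have hpow : ∀ m m' : Γ.p.obj yM, eM.hom.hom m ^ p ^ n = eM.hom.hom m' ^ p ^ n → m = m' := by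
    intro m m' hm
    apply hinjM
    rw [← sub_eq_zero]
    apply pow_eq_zero_iff (pow_ne_zero n (Fact.out : p.Prime).ne_zero) |>.1
    rw [sub_pow_char_pow, hm, sub_self]
  constructor
  · intro z
    obtain ⟨a, ha⟩ := hs₀ ⟨z ^ p ^ n, z, rfl⟩
    obtain ⟨b, hb⟩ := exists_pow_pow_eq hA₀ n (ε₀ a)
    refine ⟨b, hpow _ _ ?_⟩
    have h₃ : eM.hom.hom ((Γ.p.map f).hom ((Γ.p.map u₀).hom (z ^ p ^ n))) =
        eM.hom.hom ((Γ.p.map f).hom ((Γ.p.map u₀).hom ((Γ.p.map j₀).hom (ε₀ a)))) := ha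
    rw [← hb] at h₃
    simp only [map_pow] at h₃
    rw [Γ.p.map_comp, Γ.p.map_comp, Γ.p.map_comp]
    exact h₃
  · intro z
    obtain ⟨a, ha⟩ := hs₁ ⟨z ^ p ^ n, z, rfl⟩
    obtain ⟨b, hb⟩ := exists_pow_pow_eq hA₁ n (ε₁ a)
    refine ⟨b, hpow _ _ ?_⟩
    have h₃ : eM.hom.hom ((Γ.p.map f).hom ((Γ.p.map u₁).hom (z ^ p ^ n))) =
        eM.hom.hom ((Γ.p.map f).hom ((Γ.p.map u₁).hom ((Γ.p.map j₁).hom (ε₁ a)))) := ha
    rw [← hb] at h₃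
    simp only [map_pow] at h₃
    rw [Γ.p.map_comp, Γ.p.map_comp, Γ.p.map_comp]
    exact h₃

end Splits

/-- Base change of relative coproducts. -/
lemma IsRel.of_isPushout {ξ y y' w w' : Γ.obj} {c : Γ.p.obj ξ ⟶ Γ.p.obj y} {i : ξ ⟶ w} {j : y ⟶ w}
    (h : IsRel c i j) {v : y ⟶ y'} {u : w ⟶ w'} {j' : y' ⟶ w'} (hp : IsPushout j v u j')
    {c' : Γ.p.obj ξ ⟶ Γ.p.obj y'} (hc' : c ≫ Γ.p.map v = c') : IsRel c' (i ≫ u) j' where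
  comm := by
    rw [Γ.p.map_comp, h.comm, Category.assoc, ← Γ.p.map_comp, hp.w, ← hc', Γ.p.map_comp,
      Category.assoc]
  univ {z} α β hαβ := by
    have h₁ : Γ.p.map α = c ≫ Γ.p.map (v ≫ β) := by
      rw [hαβ, ← hc', Γ.p.map_comp, Category.assoc]
    refine ⟨hp.desc (h.desc α (v ≫ β) h₁) β (h.right_desc _ _ _), ⟨?_, hp.inr_desc _ _ _⟩, ?_⟩
    · rw [Category.assoc, hp.inl_desc, h.left_desc]
    · rintro γ ⟨h₂, h₃⟩
      refine hp.hom_ext ?_ ?_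
      · rw [hp.inl_desc]
        refine h.hom_ext ?_ ?_
        · rw [h.left_desc, ← Category.assoc, h₂]
        · rw [h.right_desc, ← Category.assoc, hp.w, Category.assoc, h₃]
      · rw [hp.inr_desc, h₃]

/-- The statement on relative coproducts which is needed for the range condition. -/
def RelSurj {ξ y yM : Γ.obj} (c : Γ.p.obj ξ ⟶ Γ.p.obj y) (s : ξ ⟶ yM) (t : y ⟶ yM) : Prop :=
  ∃ (w : Γ.obj) (i : ξ ⟶ w) (j : y ⟶ w) (_ : IsRel c i j) (f : w ⟶ yM),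
    i ≫ f = s ∧ j ≫ f = t ∧ ∀ z, ∃ b, (Γ.p.map f).hom z = (Γ.p.map t).hom b

lemma RelSurj.range {ξ y yM z : Γ.obj} {c : Γ.p.obj ξ ⟶ Γ.p.obj y} {s : ξ ⟶ yM} {t : y ⟶ yM}
    (h : RelSurj c s t) {i : ξ ⟶ z} {j : y ⟶ z} (hz : IsCoprod i j) (a : Γ.p.obj z) :
    ∃ b : Γ.p.obj y, (Γ.p.map t).hom b = (Γ.p.map (hz.desc s t)).hom a := by
  obtain ⟨w, i', j', h, f, hi, hj, hf⟩ := h
  obtain ⟨b, hb⟩ := hf ((Γ.p.map (hz.desc i' j')).hom a)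
  refine ⟨b, ?_⟩
  rw [← hb]
  have h₁ : hz.desc i' j' ≫ f = hz.desc s t := by
    refine hz.hom_ext ?_ ?_
    · rw [IsCoprod.left_desc_assoc, hi, hz.left_desc]
    · rw [IsCoprod.right_desc_assoc, hj, hz.right_desc]
  rw [← h₁, Γ.p.map_comp]
  rfl

theorem rangeCondition_of_charts {K Ω W M : Type} [Field K] [IsAlgClosed K] [Field Ω]
    [IsAlgClosed Ω] [Algebra κ Ω] [Algebra K Ω] [Field W] [IsAlgClosed W] [Algebra K W] [Field M]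
    [Algebra κ M] (x : W) (hx : x ≠ 0) (p : ℕ) [Fact p.Prime] [CharP Ω p]
    {Y : WalkingCospan ⥤ Alg κ} (P : FieldPoint Y Ω M)
    (e : ∀ t, P.Y'.obj t ≃+* (IC K (chartSet x t)) ⊗[K] Ω)
    (he : ∀ (t t' : WalkingCospan) (τ : t ⟶ t') (a : P.Y'.obj t),
        e t' ((P.Y'.map τ).hom a) = Algebra.TensorProduct.map
          (Subalgebra.inclusion (IC_le (chartSet_mono x τ))) (AlgHom.id K Ω) (e t a))
    (hperf : ∀ t (a : (IC K (chartSet x t)) ⊗[K] Ω), ∃ b, b ^ p = a)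
    (hc : IsCofiberedInGroupoids Γ) (hΓc : HasFiniteCoprods Γ) : P.RangeCondition Γ := by
  intro y' ey ξ eξ yM eM h hh hhp s hs t z i j hz a
  let c : ∀ t, Γ.p.obj ξ ⟶ Γ.p.obj (y'.obj t) := fun t ↦ eξ.hom ≫ P.e t ≫ ey.inv.app t
  have hcy : ∀ (t t' : WalkingCospan) (τ : t ⟶ t'), c t ≫ Γ.p.map (y'.map τ) = c t' := by
    intro t t' τ
    have h₁ := ey.inv.naturality τ
    dsimp at h₁
    simp only [c, Category.assoc]
    rw [← h₁, reassoc_of% (P.e_comp t t' τ)]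
  have hinv : ∀ t, ey.inv.app t ≫ ey.hom.app t = 𝟙 _ := fun t ↦ by simp
  have hcs : ∀ t, Γ.p.map s = c t ≫ Γ.p.map (h t) := by
    intro t
    rw [← cancel_mono eM.hom, hs t]
    simp only [c, Category.assoc]
    rw [hhp, ← Category.assoc (ey.inv.app t), hinv, Category.id_comp]
  have hinj : ∀ t, Function.Injective (Γ.p.map (h t)).hom := by
    intro t a b hab
    have : ((Γ.p.map (h t)) ≫ eM.hom).hom a = ((Γ.p.map (h t)) ≫ eM.hom).hom b := by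
      simp [hab]
    rw [hhp] at this
    have h₁ := P.inj t (a₁ := (ey.hom.app t).hom a) (a₂ := (ey.hom.app t).hom b) this
    have h₂ := congr((ey.inv.app t).hom $h₁)
    have h₃ : ∀ m, (ey.inv.app t).hom ((ey.hom.app t).hom m) = m := fun m ↦
      congr(($(ey.hom_inv_id_app t)).hom m)
    rwa [h₃, h₃] at h₂
  let ey' : ∀ t, Γ.p.obj (y'.obj t) ≃+* P.Y'.obj t := fun t ↦
    (CommAlgCat.algEquivOfIso (ey.app t)).toRingEquiv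
  let ε : ∀ t, (IC K (chartSet x t)) ⊗[K] Ω ≃+* Γ.p.obj (y'.obj t) := fun t ↦
    ((ey' t).trans (e t)).symm
  have hε : ∀ (t t' : WalkingCospan) (τ : t ⟶ t') (a : (IC K (chartSet x t)) ⊗[K] Ω),
      (Γ.p.map (y'.map τ)).hom (ε t a) = ε t' (Algebra.TensorProduct.map
          (Subalgebra.inclusion (IC_le (chartSet_mono x τ))) (AlgHom.id K Ω) a) := by
    intro t t' τ a
    obtain ⟨a, rfl⟩ := (e t).surjective a
    obtain ⟨a, rfl⟩ := (ey' t).surjective a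
    rw [← he]
    have h₁ : (P.Y'.map τ).hom (ey' t a) = ey' t' ((Γ.p.map (y'.map τ)).hom a) := by
      have := ey.hom.naturality τ
      exact congr(($this.symm).hom a)
    rw [h₁]
    have h₂ : ∀ t a, ε t (e t (ey' t a)) = a := fun t a ↦
      ((ey' t).trans (e t)).symm_apply_apply a
    rw [h₂, h₂]
  have hA : ∀ t (a : Γ.p.obj (y'.obj t)), ∃ b, b ^ p = a := by
    intro t a
    obtain ⟨b, hb⟩ := hperf t ((ε t).symm a)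
    refine ⟨ε t b, ?_⟩
    rw [← map_pow, hb, RingEquiv.apply_symm_apply]
  obtain ⟨ω, a', b', hω, hfin'⟩ := exists_isRel hc hΓc (𝟙 (Γ.p.obj ξ))
  obtain ⟨w₀, i₀, j₀, h₀, hfin₀⟩ := exists_isRel hc hΓc (c .left)
  obtain ⟨w₁, i₁, j₁, h₁, hfin₁⟩ := exists_isRel hc hΓc (c .right)
  obtain ⟨w₂, u₀, j₂, hp, hp'⟩ := hc.exists_pushout j₀ (y'.map WalkingCospan.Hom.inl)
  have h₂ : IsRel (c .one) (i₀ ≫ u₀) j₂ := h₀.of_isPushout hp (hcy _ _ _)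
  have hfin₂ : (Γ.p.map j₂).hom.toRingHom.Finite := finite_of_isPushout hp' hfin₀
  have hu : Γ.p.map (i₀ ≫ u₀) = c .right ≫ Γ.p.map (y'.map WalkingCospan.Hom.inr ≫ j₂) := by
    rw [h₂.comm, Γ.p.map_comp, ← Category.assoc, hcy]
  let u₁ : w₁ ⟶ w₂ := h₁.desc (i₀ ≫ u₀) (y'.map WalkingCospan.Hom.inr ≫ j₂) hu
  let f : w₂ ⟶ yM := h₂.desc s (h .one) (hcs _)
  have hj₀ : j₀ ≫ u₀ ≫ f = h .left := by
    rw [reassoc_of% hp.w, h₂.right_desc, hh]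
  have hj₁ : j₁ ≫ u₁ ≫ f = h .right := by
    rw [IsRel.right_desc_assoc, Category.assoc, h₂.right_desc, hh]
  have hj₂ : j₂ ≫ f = h .one := h₂.right_desc _ _ _
  have key := splits hc h₀ h₁ h₂ hω eξ eM hfin₀ hfin₁ hfin₂ hfin' x hx p (ε .left) (ε .right)
    (ε .one) (fun a ↦ hε _ _ WalkingCospan.Hom.inl a) (fun a ↦ hε _ _ WalkingCospan.Hom.inr a)
    (hA _) (hA _) (hA _) u₀ u₁ rfl (h₁.left_desc _ _ _) hp.w (h₁.right_desc _ _ _) f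
    (by rw [hj₀]; exact hinj _) (by rw [hj₁]; exact hinj _) (by rw [hj₂]; exact hinj _)
  rw [hj₀, hj₁] at key
  have R₀ : RelSurj (c .left) s (h .left) :=
    ⟨w₀, i₀, j₀, h₀, u₀ ≫ f, by rw [← Category.assoc, h₂.left_desc], hj₀, key.1⟩
  have R₁ : RelSurj (c .right) s (h .right) :=
    ⟨w₁, i₁, j₁, h₁, u₁ ≫ f, by rw [IsRel.left_desc_assoc, h₂.left_desc], hj₁, key.2⟩
  have R₂ : RelSurj (c .one) s (h .one) := by
    refine ⟨w₂, i₀ ≫ u₀, j₂, h₂, f, h₂.left_desc _ _ _, hj₂, fun z ↦ ?_⟩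
    let _ := algOf (Γ.p.map j₀)
    let _ := algOf (Γ.p.map (y'.map WalkingCospan.Hom.inl))
    obtain ⟨e₃, he₃, he₃'⟩ := exists_tensor_equiv hp'
    obtain ⟨z, rfl⟩ := e₃.surjective z
    induction z using TensorProduct.induction_on with
    | zero => exact ⟨0, by rw [map_zero, map_zero, map_zero]⟩
    | add z z' hz hz' =>
      obtain ⟨b, hb⟩ := hz
      obtain ⟨b', hb'⟩ := hz'
      exact ⟨b + b', by rw [map_add, map_add, hb, hb', map_add]⟩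
    | tmul z z' =>
      obtain ⟨b, hb⟩ := key.1 z
      refine ⟨(Γ.p.map (y'.map WalkingCospan.Hom.inl)).hom b * z', ?_⟩
      have h₃ : z ⊗ₜ[Γ.p.obj (y'.obj .left)] z' = (z ⊗ₜ[Γ.p.obj (y'.obj .left)] 1) *
          (1 ⊗ₜ[Γ.p.obj (y'.obj .left)] z') := by
        rw [Algebra.TensorProduct.tmul_mul_tmul, mul_one, one_mul]
      rw [h₃, map_mul, map_mul, he₃, he₃', map_mul]
      congr 1
      · rw [Γ.p.map_comp] at hb
        have h₄ : Γ.p.map (y'.map WalkingCospan.Hom.inl) ≫ Γ.p.map (h .one) =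
            Γ.p.map (h .left) := by rw [← Γ.p.map_comp, hh]
        exact hb.trans (congr(($h₄.symm).hom b))
      · rw [← hj₂, Γ.p.map_comp]
        rfl
  rcases t with _ | _ | _
  · exact R₂.range hz a
  · exact R₀.range hz a
  · exact R₁.range hz a

end Pool.Agent.H27
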