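import Pool.Agent.H27.VPoint
import Pool.Agent.H27.PTors

/-!
# Schemes as categories over `Alg κ`: cofiberedness and atlases
-/

open CategoryTheory Limits Bicategory AlgebraicGeometry

namespace Pool.Agent.H27

variable {κ : Type} [Field κ]

lemma pt_comp_eq {X : Over (Spec (CommRingCat.of κ))} {a b : Pt X} (f : a ⟶ b) :
    specOverMap ((schemeStack X).p.map f) ≫ a.pt = b.pt := f.2

/-- Schemes are cofibered in groupoids. -/
theorem schemeStack_isCofibered (X : Over (Spec (CommRingCat.of κ))) :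
    IsCofiberedInGroupoids (schemeStack X) where
  exists_push x B f := by
    obtain ⟨A, a⟩ := x
    refine ⟨(⟨B, specOverMap f ≫ a⟩ : Pt X),
      (⟨f, rfl⟩ : {g : A ⟶ B // specOverMap g ≫ a = specOverMap f ≫ a}), ?_⟩
    exact IsHomLift.map (schemeStack X).p (a := (⟨A, a⟩ : Pt X))
      (b := (⟨B, specOverMap f ≫ a⟩ : Pt X))
      (⟨f, rfl⟩ : {g : A ⟶ B // specOverMap g ≫ a = specOverMap f ≫ a})
  exists_desc {x y z} φ ψ g hg := by
    obtain ⟨A, a⟩ := x
    obtain ⟨B, b⟩ := y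
    obtain ⟨C, c⟩ := z
    obtain ⟨φ, hφ⟩ := φ
    obtain ⟨ψ, hψ⟩ := ψ
    change A ⟶ B at φ
    change A ⟶ C at ψ
    change B ⟶ C at g
    change φ ≫ g = ψ at hg
    change specOverMap φ ≫ a = b at hφ
    change specOverMap ψ ≫ a = c at hψ
    refine ⟨⟨g, ?_⟩, ⟨rfl, ?_⟩, ?_⟩
    · change specOverMap g ≫ b = c
      rw [← hφ, ← Category.assoc, ← specOverMap_comp, hg, hψ]
    · exact Subtype.ext hg
    · rintro ⟨g', hg'⟩ ⟨h, -⟩
      exact Subtype.ext h

/-- `specOverMap` is faithful. -/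
lemma specOverMap_injective {A B : Alg κ} {f g : A ⟶ B} (h : specOverMap f = specOverMap g) :
    f = g := by
  have h1 : Spec.map (CommRingCat.ofHom f.hom.toRingHom) =
    Spec.map (CommRingCat.ofHom g.hom.toRingHom) := congrArg (fun z ↦ z.left) h
  have h2 := Spec.map_injective h1
  ext x
  exact congr(($h2).hom x)

/-- `specOverMap` is full. -/
lemma exists_specOverMap {A B : Alg κ} (f : specOver B ⟶ specOver A) :
    ∃ g : A ⟶ B, specOverMap g = f := by
  let φ : CommRingCat.of A ⟶ CommRingCat.of B := Spec.preimage f.left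
  have hφ : Spec.map φ = f.left := Spec.map_preimage _
  have hw : Spec.map φ ≫ Spec.map (CommRingCat.ofHom (algebraMap κ A)) =
      Spec.map (CommRingCat.ofHom (algebraMap κ B)) := by
    rw [hφ]
    exact Over.w f
  rw [← Spec.map_comp] at hw
  have hw' := Spec.map_injective hw
  refine ⟨CommAlgCat.ofHom { φ.hom with commutes' := fun r ↦ congr(($hw').hom r) }, ?_⟩
  ext : 1
  exact hφ

/-- The intersection of an affine scheme over `X` with an affine open of `X`. -/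
lemma exists_inter {X : Over (Spec (CommRingCat.of κ))} (R A : Alg κ) (ρ : specOver R ⟶ X)
    (hopen : IsOpenImmersion ρ.left) (haff : IsAffineHom ρ.left) (a : specOver A ⟶ X) :
    ∃ (B : Alg κ) (φ : A ⟶ B) (ψ : R ⟶ B), specOverMap ψ ≫ ρ = specOverMap φ ≫ a ∧
      φ.hom.toRingHom.Flat ∧ ∀ P : PrimeSpectrum A,
        a.left P ∈ Set.range ρ.left → ∃ Q : PrimeSpectrum B,
          PrimeSpectrum.comap φ.hom.toRingHom Q = P := by
  let f : Spec (CommRingCat.of A) ⟶ X.left := a.left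
  let g : Spec (CommRingCat.of R) ⟶ X.left := ρ.left
  have hg : IsOpenImmersion g := hopen
  have hg' : IsAffineHom g := haff
  have hwf : f ≫ X.hom = Spec.map (CommRingCat.ofHom (algebraMap κ A)) := Over.w a
  have hwg : g ≫ X.hom = Spec.map (CommRingCat.ofHom (algebraMap κ R)) := Over.w ρ
  let P : Scheme := pullback f g
  have hfs : pullback.fst f g ≫ f = pullback.snd f g ≫ g := pullback.condition
  have hPaff : IsAffine P := isAffine_of_isAffineHom (pullback.fst f g)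
  let φ' : CommRingCat.of A ⟶ Γ(P, ⊤) := Spec.preimage (P.isoSpec.inv ≫ pullback.fst f g)
  have hφ' : Spec.map φ' = P.isoSpec.inv ≫ pullback.fst f g := Spec.map_preimage _
  let _ : Algebra κ Γ(P, ⊤) := (φ'.hom.comp (algebraMap κ A)).toAlgebra
  let B : Alg κ := CommAlgCat.of κ Γ(P, ⊤)
  let φ : A ⟶ B := CommAlgCat.ofHom { φ'.hom with commutes' := fun _ ↦ rfl }
  have hwB : Spec.map (CommRingCat.ofHom (algebraMap κ B)) = (P.isoSpec.inv ≫ pullback.fst f g) ≫
      Spec.map (CommRingCat.ofHom (algebraMap κ A)) := by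
    rw [← hφ', ← Spec.map_comp]
    rfl
  let ψ' : specOver B ⟶ specOver R := Over.homMk (P.isoSpec.inv ≫ pullback.snd f g) (by
    change (P.isoSpec.inv ≫ pullback.snd f g) ≫ Spec.map (CommRingCat.ofHom (algebraMap κ R)) =
      Spec.map (CommRingCat.ofHom (algebraMap κ B))
    rw [hwB, ← hwf, ← hwg]
    simp only [Category.assoc]
    rw [← Category.assoc (pullback.fst f g), hfs, Category.assoc])
  obtain ⟨ψ, hψ⟩ := exists_specOverMap ψ'
  refine ⟨B, φ, ψ, ?_, ?_, ?_⟩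
  · ext : 1
    rw [hψ]
    change (P.isoSpec.inv ≫ pullback.snd f g) ≫ g = Spec.map φ' ≫ f
    rw [hφ', Category.assoc, Category.assoc, hfs]
  · have h1 : Flat (Spec.map φ') := by
      rw [hφ']
      infer_instance
    exact Flat.SpecMap_iff.1 h1
  · rintro Q ⟨y, hy⟩
    obtain ⟨z, hz, -⟩ := Scheme.Pullback.exists_preimage_pullback (f := f) (g := g) Q y hy.symm
    have h1 : (Spec.map φ') (P.isoSpec.hom z) = Q := by
      rw [hφ', ← Scheme.Hom.comp_apply, Iso.hom_inv_id_assoc]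
      exact hz
    exact ⟨P.isoSpec.hom z, h1⟩

/-- An open immersion from an affine scheme gives a point with at most one arrow to any other. -/
lemma mono_of_openImmersion {X : Over (Spec (CommRingCat.of κ))} (R : Alg κ) (ρ : specOver R ⟶ X)
    (hopen : IsOpenImmersion ρ.left) (a : (schemeStack X).obj)
    (f g : (⟨R, ρ⟩ : Pt X) ⟶ a) : f = g := by
  obtain ⟨A, a⟩ := a
  obtain ⟨f, hf⟩ := f
  obtain ⟨g, hg⟩ := g
  change R ⟶ A at f
  change R ⟶ A at g
  change specOverMap f ≫ ρ = a at hf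
  change specOverMap g ≫ ρ = a at hg
  refine Subtype.ext (specOverMap_injective ?_)
  ext : 1
  rw [← cancel_mono ρ.left]
  exact congrArg (fun z ↦ z.left) (hf.trans hg.symm)

/-- The intersection of two affine opens. -/
lemma isCoprod_of_isPullback {X : Over (Spec (CommRingCat.of κ))} (R₀ R₁ R₀₁ : Alg κ)
    (i₀ : R₀ ⟶ R₀₁) (i₁ : R₁ ⟶ R₀₁) (ρ₀ : specOver R₀ ⟶ X) (ρ₁ : specOver R₁ ⟶ X)
    (ρ₀₁ : specOver R₀₁ ⟶ X) (h₀ : specOverMap i₀ ≫ ρ₀ = ρ₀₁) (h₁ : specOverMap i₁ ≫ ρ₁ = ρ₀₁)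
    (hpb : IsPullback (specOverMap i₀).left (specOverMap i₁).left ρ₀.left ρ₁.left) :
    IsCoprod (𝒞 := (schemeStack X).obj) (A := (⟨R₀, ρ₀⟩ : Pt X)) (B := (⟨R₁, ρ₁⟩ : Pt X))
      (C := (⟨R₀₁, ρ₀₁⟩ : Pt X))
      (⟨i₀, h₀⟩ : {f : R₀ ⟶ R₀₁ // specOverMap f ≫ ρ₀ = ρ₀₁})
      (⟨i₁, h₁⟩ : {f : R₁ ⟶ R₀₁ // specOverMap f ≫ ρ₁ = ρ₀₁}) := by
  intro D f g
  obtain ⟨A, a⟩ := D
  obtain ⟨f, hf⟩ := f
  obtain ⟨g, hg⟩ := g
  change R₀ ⟶ A at f
  change R₁ ⟶ A at g
  change specOverMap f ≫ ρ₀ = a at hf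
  change specOverMap g ≫ ρ₁ = a at hg
  have hw : (specOverMap f).left ≫ ρ₀.left = (specOverMap g).left ≫ ρ₁.left :=
    congrArg (fun z ↦ z.left) (hf.trans hg.symm)
  let l := hpb.lift (specOverMap f).left (specOverMap g).left hw
  have hl₀ : l ≫ (specOverMap i₀).left = (specOverMap f).left := hpb.lift_fst _ _ hw
  have hl₁ : l ≫ (specOverMap i₁).left = (specOverMap g).left := hpb.lift_snd _ _ hw
  obtain ⟨c, hc⟩ := exists_specOverMap (Over.homMk l (by
    rw [← Over.w (specOverMap i₀), ← Category.assoc, hl₀, Over.w (specOverMap f)]) :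
      specOver A ⟶ specOver R₀₁)
  have hcl : (specOverMap c).left = l := by rw [hc]; rfl
  have hc₀ : i₀ ≫ c = f := by
    apply specOverMap_injective
    ext : 1
    rw [specOverMap_comp, Over.comp_left, hcl, hl₀]
  have hc₁ : i₁ ≫ c = g := by
    apply specOverMap_injective
    ext : 1
    rw [specOverMap_comp, Over.comp_left, hcl, hl₁]
  refine ⟨⟨c, ?_⟩, ⟨Subtype.ext hc₀, Subtype.ext hc₁⟩, ?_⟩
  · change specOverMap c ≫ ρ₀₁ = a
    rw [← h₀, ← Category.assoc, ← specOverMap_comp, hc₀, hf]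
  · rintro ⟨c', hc'⟩ ⟨h₀', h₁'⟩
    change R₀₁ ⟶ A at c'
    have e₀ : i₀ ≫ c' = f := congrArg Subtype.val h₀'
    have e₁ : i₁ ≫ c' = g := congrArg Subtype.val h₁'
    refine Subtype.ext (specOverMap_injective ?_)
    ext : 1
    apply hpb.hom_ext
    · rw [← Over.comp_left, ← Over.comp_left, ← specOverMap_comp, ← specOverMap_comp]
      change (specOverMap (i₀ ≫ c')).left = (specOverMap (i₀ ≫ c)).left
      rw [e₀, hc₀]
    · rw [← Over.comp_left, ← Over.comp_left, ← specOverMap_comp, ← specOverMap_comp]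
      change (specOverMap (i₁ ≫ c')).left = (specOverMap (i₁ ≫ c)).left
      rw [e₁, hc₁]

/-- The atlas of a scheme covered by two affine opens. -/
theorem exists_charts {X : Over (Spec (CommRingCat.of κ))} (R Y : WalkingCospan ⥤ Alg κ)
    (a : R ⟶ Y) (ρ : ∀ t, specOver (R.obj t) ⟶ X)
    (hρ : ∀ (t t' : WalkingCospan) (τ : t ⟶ t'), specOverMap (R.map τ) ≫ ρ t = ρ t')
    (hopen : ∀ t, IsOpenImmersion (ρ t).left) (haff : ∀ t, IsAffineHom (ρ t).left)
    (hcov : ∀ P : X.left, P ∈ Set.range (ρ .left).left ∨ P ∈ Set.range (ρ .right).left)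
    (hpb : IsPullback (specOverMap (R.map WalkingCospan.Hom.inl)).left
      (specOverMap (R.map WalkingCospan.Hom.inr)).left (ρ .left).left (ρ .right).left)
    (hdom : ∀ t, IsDomain (R.obj t)) (ha : ∀ t, Function.Injective (a.app t).hom) :
    Nonempty (Charts (pointFunctor Y (fun t ↦ specOverMap (a.app t) ≫ ρ t)
      (push_compat R Y a ρ hρ))) := by
  refine ⟨{
    u₀ := (⟨R.obj .left, ρ .left⟩ : Pt X)
    u₁ := (⟨R.obj .right, ρ .right⟩ : Pt X)
    u₀₁ := (⟨R.obj .one, ρ .one⟩ : Pt X)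
    j₀ := ⟨R.map WalkingCospan.Hom.inl, hρ _ _ _⟩
    j₁ := ⟨R.map WalkingCospan.Hom.inr, hρ _ _ _⟩
    coprod := isCoprod_of_isPullback _ _ _ _ _ _ _ _ _ _ hpb
    mono₀ := fun b f g ↦ mono_of_openImmersion _ _ (hopen .left) b f g
    mono₁ := fun b f g ↦ mono_of_openImmersion _ _ (hopen .right) b f g
    cover := ?_
    dom₀ := hdom .left
    dom₁ := hdom .right
    t₀ := .left
    t₁ := .right
    w₀ := ⟨a.app .left, rfl⟩
    w₁ := ⟨a.app .right, rfl⟩
    inj₀ := ha .left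
    inj₁ := ha .right
    t₀₁ := .one
    τ₀ := WalkingCospan.Hom.inl
    τ₁ := WalkingCospan.Hom.inr
    w₀₁ := ⟨a.app .one, rfl⟩
    inj₀₁ := ha .one }⟩
  rintro ⟨A, b⟩
  obtain ⟨B₀, φ₀, ψ₀, h₀, hf₀, hs₀⟩ := exists_inter (R.obj .left) A (ρ .left) (hopen .left)
    (haff .left) b
  obtain ⟨B₁, φ₁, ψ₁, h₁, hf₁, hs₁⟩ := exists_inter (R.obj .right) A (ρ .right) (hopen .right)
    (haff .right) b
  refine ⟨fun i ↦ match i with
    | false => (⟨B₀, specOverMap φ₀ ≫ b⟩ : Pt X)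
    | true => (⟨B₁, specOverMap φ₁ ≫ b⟩ : Pt X), fun i ↦ match i with
    | false => ⟨φ₀, rfl⟩
    | true => ⟨φ₁, rfl⟩, ⟨ψ₀, h₀⟩, ⟨ψ₁, h₁⟩, ?_⟩
  refine ⟨inferInstance, ?_, ?_⟩
  · rintro (_ | _)
    · exact hf₀
    · exact hf₁
  · intro P
    rcases hcov (b.left P) with h | h
    · obtain ⟨Q, hQ⟩ := hs₀ P h
      exact ⟨false, Q, hQ⟩
    · obtain ⟨Q, hQ⟩ := hs₁ P h
      exact ⟨true, Q, hQ⟩

end Pool.Agent.H27
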