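import Pool.Agent.H27.CurveVirt
import Pool.Agent.H27.Curve
import Pool.Agent.H27.FrameExt
import Pool.Agent.H27.SchemeCharts
import Pool.Agent.H27.RangeK
import Pool.Agent.H27.NoriPts

/-!
# The virtual point of the curve over an extension of the field with two elements
-/

open CategoryTheory Limits AlgebraicGeometry
open scoped TensorProduct

namespace Pool.Agent.H27.Curve

open H1 (IC)

section

variable (κ : Type) [Field κ]

/-- The coordinate rings of the charts. -/
noncomputable def RR : WalkingCospan ⥤ Alg κ :=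
  cospan (C := Alg κ) (X := CommAlgCat.of κ (R0 κ)) (Y := CommAlgCat.of κ (R1 κ))
    (Z := CommAlgCat.of κ (R01 κ)) (CommAlgCat.ofHom (i0 κ)) (CommAlgCat.ofHom (i1 κ))

/-- The charts of the curve. -/
noncomputable def ρ : ∀ t, specOver ((RR κ).obj t) ⟶ C κ
  | .left => Over.homMk (j0 κ) (j0_str κ)
  | .right => Over.homMk (j1 κ) (j1_str κ)
  | .one => Over.homMk (j01 κ) (by
      change (s0 κ ≫ j0 κ) ≫ str κ = Spec.map (CommRingCat.ofHom (algebraMap κ (R01 κ)))
      rw [Category.assoc, j0_str, s0, ← Spec.map_comp, ← CommRingCat.ofHom_comp]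
      congr 2
      exact RingHom.ext fun r ↦ (i0 κ).commutes r)

lemma ρ_compat (t t' : WalkingCospan) (τ : t ⟶ t') :
    specOverMap ((RR κ).map τ) ≫ ρ κ t = ρ κ t' := by
  rcases τ with _ | ⟨_ | _⟩
  · rw [WidePullbackShape.hom_id, (RR κ).map_id, specOverMap_id, Category.id_comp]
  · ext : 1
    rfl
  · ext : 1
    exact (s0_j0 κ).symm

lemma ρ_open (t : WalkingCospan) : IsOpenImmersion (ρ κ t).left := by
  rcases t with _ | _ | _
  · exact inferInstanceAs (IsOpenImmersion (j01 κ))
  · exact inferInstanceAs (IsOpenImmersion (j0 κ))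
  · exact inferInstanceAs (IsOpenImmersion (j1 κ))

lemma ρ_affine (t : WalkingCospan) : IsAffineHom (ρ κ t).left := by
  rcases t with _ | _ | _
  · exact isAffineHom_j01 κ
  · exact isAffineHom_j0 κ
  · exact isAffineHom_j1 κ

lemma ρ_cover (P : (C κ).left) :
    P ∈ Set.range (ρ κ .left).left ∨ P ∈ Set.range (ρ κ .right).left :=
  exists_of_point κ P

lemma ρ_isPullback : IsPullback (specOverMap ((RR κ).map WalkingCospan.Hom.inl)).left
    (specOverMap ((RR κ).map WalkingCospan.Hom.inr)).left (ρ κ .left).left (ρ κ .right).left :=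
  isPullback κ

lemma isDomain_RR [CharP κ 2] (t : WalkingCospan) : IsDomain ((RR κ).obj t) := by
  rcases t with _ | _ | _
  · exact isDomain_R01 κ
  · exact isDomain_R0 κ
  · exact isDomain_R1 κ

end

section

variable {k K W : Type} [Field k] [Field K] [Field W] [Algebra K W] (S : FrobFrame k K W)
  (i : R01 K →ₐ[K] W) (hx : i (x01 K) = S.x) [Algebra k K] [CharP K 2]
  (hF : ∀ z, S.F (i z) = i (R01map (frobenius K 2) z)) [Algebra k W] [IsScalarTower k K W]
  (κ : Type) [Field κ] [Algebra k κ]

/-- The virtual point of the curve. -/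
noncomputable def vpt : RR κ ⟶ S.Yext κ where
  app
    | .left => CommAlgCat.ofHom (baseHom (map0 k κ) (isBaseChange_map0 k κ) (β₀ S i hx hF))
    | .right => CommAlgCat.ofHom (baseHom (map1 k κ) (isBaseChange_map1 k κ) (β₁ S i hx hF))
    | .one => CommAlgCat.ofHom (baseHom (map01 k κ) (isBaseChange_map01 k κ) (β₂ S i hx hF))
  naturality := by
    intro t t' τ
    rcases τ with _ | ⟨_ | _⟩
    · rw [WidePullbackShape.hom_id, (RR κ).map_id, (S.Yext κ).map_id, Category.id_comp,
        Category.comp_id]
    · apply CommAlgCat.hom_ext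
      apply baseHom_ext (map0 k κ) (isBaseChange_map0 k κ)
      intro z
      change baseHom (map01 k κ) (isBaseChange_map01 k κ) (β₂ S i hx hF) (i0 κ (map0 k κ z)) =
        Algebra.TensorProduct.map (AlgHom.id κ κ)
          (Subalgebra.inclusion (S.A_mono WalkingCospan.Hom.inl))
          (baseHom (map0 k κ) (isBaseChange_map0 k κ) (β₀ S i hx hF) (map0 k κ z))
      rw [← map01_i0, baseHom_apply, baseHom_apply, Algebra.TensorProduct.map_tmul, map_one,
        β₂_i0]
    · apply CommAlgCat.hom_ext
      apply baseHom_ext (map1 k κ) (isBaseChange_map1 k κ)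
      intro z
      change baseHom (map01 k κ) (isBaseChange_map01 k κ) (β₂ S i hx hF) (i1 κ (map1 k κ z)) =
        Algebra.TensorProduct.map (AlgHom.id κ κ)
          (Subalgebra.inclusion (S.A_mono WalkingCospan.Hom.inr))
          (baseHom (map1 k κ) (isBaseChange_map1 k κ) (β₁ S i hx hF) (map1 k κ z))
      rw [← map01_i1, baseHom_apply, baseHom_apply, Algebra.TensorProduct.map_tmul, map_one,
        β₂_i1]

lemma vpt_injective (hi : Function.Injective i) (t : WalkingCospan) :
    Function.Injective ((vpt S i hx hF κ).app t).hom := by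
  rcases t with _ | _ | _
  · exact baseHom_injective (map01 k κ) (isBaseChange_map01 k κ) _ (β₂_injective S i hx hF hi)
  · exact baseHom_injective (map0 k κ) (isBaseChange_map0 k κ) _ (β₀_injective S i hx hF hi)
  · exact baseHom_injective (map1 k κ) (isBaseChange_map1 k κ) _ (β₁_injective S i hx hF hi)

end

/-- The diagram of rings of the virtual point is constant for finite stacks. -/
theorem isConstOn_Yext {k K W : Type} [Field k] [Field K] [IsAlgClosed K] [Field W]
    [IsAlgClosed W] [Algebra K W] (S : FrobFrame k K W) [Algebra k K] [Algebra.IsAlgebraic k K]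
    [CharP K 2] [Algebra k W] [IsScalarTower k K W] (κ : Type) [Field κ] [Algebra k κ]
    {Γ : BasedCategory.{0, 1} (Alg κ)} (hΓ : IsFiniteStack Γ) : IsConstOn (S.Yext κ) Γ := by
  let Ω := AlgebraicClosure κ
  obtain ⟨_, _⟩ : ∃ _ : Algebra K Ω, IsScalarTower k K Ω := by
    let f : K →ₐ[k] Ω := IsAlgClosed.lift
    let _ := f.toRingHom.toAlgebra
    exact ⟨f.toRingHom.toAlgebra, IsScalarTower.of_algebraMap_eq fun r ↦ (f.commutes r).symm⟩
  have : CharP W 2 := charP_of_injective_algebraMap (algebraMap K W).injective 2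
  have : CharP Ω 2 := charP_of_injective_algebraMap (algebraMap K Ω).injective 2
  obtain ⟨M, _, _, _, P, e, -, he⟩ := S.exists_fieldPoint κ Ω
  have hc := hΓ.isStack.toIsCofiberedInGroupoids
  exact isConstOn_of_rangeCondition (S.isConnectedDiagram_Yext κ)
    (t₁ := .one) isTerminalOne P hΓ hΓ.hasFiniteCoprods.hasCoprods
    (rangeCondition_of_charts S.x S.x_ne_zero 2 P e he (fun t a ↦ S.exists_sq_eq Ω t a) hc
      hΓ.hasFiniteCoprods)

end Pool.Agent.H27.Curve
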