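import Mathlib

/-!
# The genus 2 curve `y² + (x³ + x + 1) y = x⁶ + x⁵ + x⁴ + x³ + x² + x + 1`: the rings

Over a field `K` of characteristic 2.  The curve is glued from two affine charts, the spectra of
`R0 K` (coordinates `x, y`) and `R1 K` (coordinates `u = 1/x`, `v = y/x³`), along the spectrum
of `R01 K`.
-/

open Polynomial LaurentPolynomial QuadraticAlgebra TensorProduct

namespace Pool.Agent.H27.Curve

/-! ## Generic facts on `y² = h y + h g` over a polynomial ring -/

section generic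

variable {K : Type*} [Field K]

theorem eq_zero_of_norm_eq_zero {h g : K[X]} (hh : Squarefree h) (hu : ¬ IsUnit h)
    (hg : IsCoprime h g) (z : QuadraticAlgebra K[X] (h * g) h) (hz : z.norm = 0) : z = 0 := by
  have h0 : h ≠ 0 := hh.ne_zero
  have key : ∀ n : ℕ, h ^ n ∣ z.re ∧ h ^ n ∣ z.im := by
    intro n
    induction n with
    | zero => simp
    | succ n ih =>
      obtain ⟨⟨p, hp⟩, ⟨q, hq⟩⟩ := ih
      rw [norm_def, hp, hq] at hz
      have h1 : (h ^ n) ^ 2 * (p ^ 2 + h * p * q - h * g * q ^ 2) = 0 := by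
        linear_combination hz
      have h2 : p ^ 2 + h * p * q - h * g * q ^ 2 = 0 := by
        rcases mul_eq_zero.1 h1 with h3 | h3
        · exact absurd h3 (pow_ne_zero _ (pow_ne_zero _ h0))
        · exact h3
      have h4 : h ∣ p := by
        rw [← hh.dvd_pow_iff_dvd (two_ne_zero)]
        exact ⟨g * q ^ 2 - p * q, by linear_combination h2⟩
      obtain ⟨p', hp'⟩ := h4
      have h5 : h * (h * p' ^ 2 + h * p' * q - g * q ^ 2) = 0 := by
        rw [hp'] at h2
        linear_combination h2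
      have h6 : h * p' ^ 2 + h * p' * q - g * q ^ 2 = 0 := by
        rcases mul_eq_zero.1 h5 with h3 | h3
        · exact absurd h3 h0
        · exact h3
      have h7 : h ∣ q := by
        rw [← hh.dvd_pow_iff_dvd (two_ne_zero)]
        refine hg.dvd_of_dvd_mul_left ⟨p' ^ 2 + p' * q, by linear_combination -h6⟩
      obtain ⟨q', hq'⟩ := h7
      exact ⟨⟨p', by rw [hp, hp']; ring⟩, ⟨q', by rw [hq, hq']; ring⟩⟩
  have fin : ∀ p : K[X], (∀ n : ℕ, h ^ n ∣ p) → p = 0 := by
    intro p hp
    by_contra hne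
    obtain ⟨n, hn⟩ := FiniteMultiplicity.of_not_isUnit hu hne
    exact hn (hp _)
  exact QuadraticAlgebra.ext (fin _ fun n ↦ (key n).1) (fin _ fun n ↦ (key n).2)

theorem isDomain_quad {h g : K[X]} (hh : Squarefree h) (hu : ¬ IsUnit h)
    (hg : IsCoprime h g) : IsDomain (QuadraticAlgebra K[X] (h * g) h) := by
  have : NoZeroDivisors (QuadraticAlgebra K[X] (h * g) h) := by
    refine ⟨fun {a b} hab ↦ ?_⟩
    have h1 : a.norm * b.norm = 0 := by rw [← map_mul, hab, QuadraticAlgebra.norm_zero]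
    rcases mul_eq_zero.1 h1 with h2 | h2
    · exact Or.inl (eq_zero_of_norm_eq_zero hh hu hg a h2)
    · exact Or.inr (eq_zero_of_norm_eq_zero hh hu hg b h2)
  exact NoZeroDivisors.to_isDomain _

end generic

/-! ## The polynomials -/

section polys

variable (K : Type) [CommRing K]

/-- `x³ + x + 1` -/
noncomputable def h₀ : K[X] := X ^ 3 + X + 1

/-- `x³ + x² + 1` -/
noncomputable def h₁ : K[X] := X ^ 3 + X ^ 2 + 1

theorem h₀_mul_h₁ [CharP K 2] :
    h₀ K * h₁ K = X ^ 6 + X ^ 5 + X ^ 4 + X ^ 3 + X ^ 2 + X + 1 := by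
  have h2 : (2 : K[X]) = 0 := CharTwo.two_eq_zero
  unfold h₀ h₁
  linear_combination X ^ 3 * h2

theorem map_h₀ {L : Type} [CommRing L] (φ : K →+* L) : (h₀ K).map φ = h₀ L := by
  simp [h₀]

theorem map_h₁ {L : Type} [CommRing L] (φ : K →+* L) : (h₁ K).map φ = h₁ L := by
  simp [h₁]

theorem h₀_monic : (h₀ K).Monic := by
  unfold h₀
  monicity!

theorem h₁_monic : (h₁ K).Monic := by
  unfold h₁
  monicity!

section nontrivial

variable [Nontrivial K]

theorem natDegree_h₀ : (h₀ K).natDegree = 3 := by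
  unfold h₀
  compute_degree!

theorem natDegree_h₁ : (h₁ K).natDegree = 3 := by
  unfold h₁
  compute_degree!

end nontrivial

theorem h₀_not_isUnit [IsDomain K] : ¬ IsUnit (h₀ K) := by
  intro h
  have := natDegree_eq_zero_of_isUnit h
  rw [natDegree_h₀] at this
  omega

theorem h₁_not_isUnit [IsDomain K] : ¬ IsUnit (h₁ K) := by
  intro h
  have := natDegree_eq_zero_of_isUnit h
  rw [natDegree_h₁] at this
  omega

theorem derivative_h₀ : derivative (h₀ K) = 3 * X ^ 2 + 1 := by
  unfold h₀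
  simp only [derivative_add, derivative_X_pow, derivative_X, derivative_one]
  norm_num
  rfl

theorem derivative_h₁ : derivative (h₁ K) = 3 * X ^ 2 + 2 * X := by
  unfold h₁
  simp only [derivative_add, derivative_X_pow, derivative_one]
  norm_num
  rfl

variable [CharP K 2]

theorem coprime_h₀_h₁ : IsCoprime (h₀ K) (h₁ K) := by
  have h2 : (2 : K[X]) = 0 := CharTwo.two_eq_zero
  refine ⟨X, X + 1, ?_⟩
  unfold h₀ h₁
  linear_combination (X ^ 4 + X ^ 3 + X ^ 2 + X) * h2

theorem h₀_separable : (h₀ K).Separable := by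
  have h2 : (2 : K[X]) = 0 := CharTwo.two_eq_zero
  rw [Polynomial.separable_def]
  refine ⟨1, X, ?_⟩
  rw [derivative_h₀]
  unfold h₀
  linear_combination (2 * X ^ 3 + X) * h2

theorem h₁_separable : (h₁ K).Separable := by
  have h2 : (2 : K[X]) = 0 := CharTwo.two_eq_zero
  rw [Polynomial.separable_def]
  refine ⟨1, X + 1, ?_⟩
  rw [derivative_h₁]
  unfold h₁
  linear_combination (2 * X ^ 3 + 3 * X ^ 2 + X) * h2

theorem h₀_squarefree (K : Type) [Field K] [CharP K 2] : Squarefree (h₀ K) :=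
  (h₀_separable K).squarefree

theorem h₁_squarefree (K : Type) [Field K] [CharP K 2] : Squarefree (h₁ K) :=
  (h₁_separable K).squarefree

end polys

/-! ## The rings -/

section rings

variable (K : Type) [CommRing K]

/-- `K[x, y] / (y² = (x³ + x + 1) y + (x³ + x + 1) (x³ + x² + 1))` -/
abbrev R0 : Type := QuadraticAlgebra K[X] (h₀ K * h₁ K) (h₀ K)

/-- `K[u, v] / (v² = (u³ + u² + 1) v + (u³ + u² + 1) (u³ + u + 1))` -/
abbrev R1 : Type := QuadraticAlgebra K[X] (h₁ K * h₀ K) (h₁ K)

/-- `K[x, 1/x, y] / (y² = (x³ + x + 1) y + (x³ + x + 1) (x³ + x² + 1))` -/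
abbrev R01 : Type := QuadraticAlgebra K[T;T⁻¹] (toLaurent (h₀ K * h₁ K)) (toLaurent (h₀ K))

/-- `R0 → R01` -/
noncomputable def i0 : R0 K →ₐ[K] R01 K where
  toFun z := ⟨toLaurent z.re, toLaurent z.im⟩
  map_one' := by apply QuadraticAlgebra.ext <;> simp
  map_mul' a b := by apply QuadraticAlgebra.ext <;> simp
  map_zero' := by apply QuadraticAlgebra.ext <;> simp
  map_add' a b := by apply QuadraticAlgebra.ext <;> simp
  commutes' r := by
    apply QuadraticAlgebra.ext
    · change toLaurent (algebraMap K K[X] r) = algebraMap K K[T;T⁻¹] r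
      simp
    · change toLaurent (0 : K[X]) = 0
      simp

theorem invert_h₁ : invert (toLaurent (h₁ K)) = T (-3) * toLaurent (h₀ K) := by
  unfold h₀ h₁
  simp only [map_add, map_pow, toLaurent_X, map_one, invert_T, T_pow, mul_add, ← T_add, mul_one]
  norm_num
  ring

theorem invert_h₀ : invert (toLaurent (h₀ K)) = T (-3) * toLaurent (h₁ K) := by
  unfold h₀ h₁
  simp only [map_add, map_pow, toLaurent_X, map_one, invert_T, T_pow, mul_add, ← T_add, mul_one]
  norm_num
  ring

/-- `R1 → R01`, `u ↦ 1/x`, `v ↦ y/x³` -/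
noncomputable def i1 : R1 K →ₐ[K] R01 K where
  toFun z := ⟨invert (toLaurent z.re), T (-3) * invert (toLaurent z.im)⟩
  map_one' := by apply QuadraticAlgebra.ext <;> simp
  map_mul' a b := by
    apply QuadraticAlgebra.ext
    · simp only [re_mul, map_add, map_mul, invert_h₁, invert_h₀]
      ring
    · simp only [im_mul, map_add, map_mul, invert_h₁]
      ring
  map_zero' := by apply QuadraticAlgebra.ext <;> simp
  map_add' a b := by
    apply QuadraticAlgebra.ext
    · simp
    · simp only [im_add, map_add]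
      ring
  commutes' r := by
    apply QuadraticAlgebra.ext
    · change invert (toLaurent (algebraMap K K[X] r)) = algebraMap K K[T;T⁻¹] r
      simp
    · change T (-3) * invert (toLaurent (0 : K[X])) = 0
      simp

/-- The coordinates. -/
noncomputable def x0 : R0 K := ⟨X, 0⟩
noncomputable def y0 : R0 K := ⟨0, 1⟩
noncomputable def u1 : R1 K := ⟨X, 0⟩
noncomputable def v1 : R1 K := ⟨0, 1⟩
noncomputable def x01 : R01 K := ⟨T 1, 0⟩
noncomputable def u01 : R01 K := ⟨T (-1), 0⟩
noncomputable def y01 : R01 K := ⟨0, 1⟩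

@[simp] theorem i0_re (z : R0 K) : (i0 K z).re = toLaurent z.re := rfl
@[simp] theorem i0_im (z : R0 K) : (i0 K z).im = toLaurent z.im := rfl
@[simp] theorem i1_re (z : R1 K) : (i1 K z).re = invert (toLaurent z.re) := rfl
@[simp] theorem i1_im (z : R1 K) : (i1 K z).im = T (-3) * invert (toLaurent z.im) := rfl

theorem i0_x0 : i0 K (x0 K) = x01 K := by apply QuadraticAlgebra.ext <;> simp [x0, x01]
theorem i0_y0 : i0 K (y0 K) = y01 K := by apply QuadraticAlgebra.ext <;> simp [y0, y01]
theorem i1_u1 : i1 K (u1 K) = u01 K := by apply QuadraticAlgebra.ext <;> simp [u1, u01]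

theorem x01_pow (n : ℕ) : x01 K ^ n = ⟨T n, 0⟩ := by
  have : x01 K = algebraMap K[T;T⁻¹] _ (T 1) := rfl
  rw [this, ← map_pow, T_pow, QuadraticAlgebra.algebraMap_eq, mul_one]

theorem u01_pow (n : ℕ) : u01 K ^ n = ⟨T (-n), 0⟩ := by
  have : u01 K = algebraMap K[T;T⁻¹] _ (T (-1)) := rfl
  rw [this, ← map_pow, T_pow, QuadraticAlgebra.algebraMap_eq, mul_neg_one]

theorem i1_v1 : i1 K (v1 K) = u01 K ^ 3 * y01 K := by
  rw [u01_pow]
  apply QuadraticAlgebra.ext <;> simp [v1, y01]

theorem x01_mul_u01 : x01 K * u01 K = 1 := by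
  have h : (T 1 * T (-1) : K[T;T⁻¹]) = 1 := by rw [← T_add]; rfl
  rw [x01, u01, mk_mul_mk, h]
  simp only [mul_zero, add_zero, zero_mul]
  rfl

theorem i0_injective : Function.Injective (i0 K) := by
  intro a b hab
  rw [QuadraticAlgebra.ext_iff] at hab ⊢
  simpa using hab

theorem i1_injective : Function.Injective (i1 K) := by
  intro a b hab
  rw [QuadraticAlgebra.ext_iff] at hab ⊢
  simp only [i1_re, i1_im] at hab
  obtain ⟨h1, h2⟩ := hab
  have h3 : invert (toLaurent a.im) = invert (toLaurent b.im) := by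
    have := congrArg (T 3 * ·) h2
    simpa [← mul_assoc, ← T_add] using this
  exact ⟨by simpa using h1, by simpa using h3⟩

/-! ### Domains -/

section domain

variable (K : Type) [Field K] [CharP K 2]

instance isDomain_R0 : IsDomain (R0 K) :=
  isDomain_quad (h₀_squarefree K) (h₀_not_isUnit K) (coprime_h₀_h₁ K)

instance isDomain_R1 : IsDomain (R1 K) :=
  isDomain_quad (h₁_squarefree K) (h₁_not_isUnit K) (coprime_h₀_h₁ K).symm

end domain

/-! ### Localization -/

theorem isLocalization_i0 :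
    letI := (i0 K).toRingHom.toAlgebra
    IsLocalization.Away (x0 K) (R01 K) := by
  let _ := (i0 K).toRingHom.toAlgebra
  have hmap : ∀ z, algebraMap (R0 K) (R01 K) z = i0 K z := fun _ ↦ rfl
  refine ⟨?_, ?_, ?_⟩
  · rintro ⟨_, n, rfl⟩
    simp only [map_pow]
    rw [hmap, i0_x0]
    exact (IsUnit.of_mul_eq_one _ (x01_mul_u01 K)).pow n
  · intro z
    obtain ⟨n, p, hp⟩ := exists_T_pow z.re
    obtain ⟨m, q, hq⟩ := exists_T_pow z.im
    refine ⟨⟨⟨X ^ m * p, X ^ n * q⟩, ⟨x0 K ^ (n + m), n + m, rfl⟩⟩, ?_⟩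
    simp only [map_pow]
    rw [hmap, hmap, i0_x0, x01_pow]
    apply QuadraticAlgebra.ext
    · simp only [re_mul, i0_re, map_mul, hp, map_pow, toLaurent_X, T_pow, mul_one, mul_zero,
        add_zero, Nat.cast_add, T_add]
      ring
    · simp only [im_mul, i0_im, map_mul, hq, map_pow, toLaurent_X, T_pow, mul_one, mul_zero,
        add_zero, zero_add, Nat.cast_add, T_add]
      ring
  · intro a b hab
    exact ⟨1, by rw [i0_injective K hab]⟩

theorem isLocalization_i1 :
    letI := (i1 K).toRingHom.toAlgebra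
    IsLocalization.Away (u1 K) (R01 K) := by
  let _ := (i1 K).toRingHom.toAlgebra
  have hmap : ∀ z, algebraMap (R1 K) (R01 K) z = i1 K z := fun _ ↦ rfl
  refine ⟨?_, ?_, ?_⟩
  · rintro ⟨_, n, rfl⟩
    simp only [map_pow]
    rw [hmap, i1_u1]
    exact (IsUnit.of_mul_eq_one _ ((mul_comm _ _).trans (x01_mul_u01 K))).pow n
  · intro z
    obtain ⟨n, p, hp⟩ := exists_T_pow (invert z.re)
    obtain ⟨m, q, hq⟩ := exists_T_pow (invert (T 3 * z.im))
    have hp' : invert (toLaurent p) = z.re * T (-n) := by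
      rw [hp, map_mul, invert_T]
      congr 1
      exact involutive_invert _
    have hq' : T (-3) * invert (toLaurent q) = z.im * T (-m) := by
      rw [hq, map_mul, invert_T, involutive_invert _]
      have : (T (-3) * T 3 : K[T;T⁻¹]) = 1 := by rw [← T_add]; rfl
      linear_combination z.im * T (-m) * this
    refine ⟨⟨⟨X ^ m * p, X ^ n * q⟩, ⟨u1 K ^ (n + m), n + m, rfl⟩⟩, ?_⟩
    simp only [map_pow]
    rw [hmap, hmap, i1_u1, u01_pow]
    apply QuadraticAlgebra.ext
    · simp only [re_mul, i1_re, map_mul, hp', map_pow, toLaurent_X, invert_T, T_pow, mul_one,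
        mul_zero, add_zero, Nat.cast_add, T_add, neg_add]
      ring
    · simp only [im_mul, i1_im, map_mul, map_pow, toLaurent_X, invert_T, T_pow, mul_one, mul_zero,
        add_zero, zero_add, Nat.cast_add, T_add, neg_add]
      linear_combination -(T (-(n : ℤ))) * hq'
  · intro a b hab
    exact ⟨1, by rw [i1_injective K hab]⟩

instance isDomain_R01 (K : Type) [Field K] [CharP K 2] : IsDomain (R01 K) := by
  let _ := (i0 K).toRingHom.toAlgebra
  have := isLocalization_i0 K
  refine IsLocalization.isDomain_of_le_nonZeroDivisors (R01 K) (M := Submonoid.powers (x0 K)) ?_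
  rintro _ ⟨n, rfl⟩
  refine mem_nonZeroDivisors_of_ne_zero (pow_ne_zero n ?_)
  intro h
  exact X_ne_zero (congrArg QuadraticAlgebra.re h)

/-! ### Cohomology of the structure sheaf -/

theorem coeff_toLaurent_nat (p : K[X]) (n : ℕ) : (toLaurent p).coeff n = p.coeff n := by
  rw [coeff_toLaurent]
  exact Finsupp.mapDomain_apply Nat.cast_injective _ _

theorem coeff_toLaurent_neg (p : K[X]) (n : ℤ) (hn : n < 0) : (toLaurent p).coeff n = 0 := by
  rw [coeff_toLaurent]
  apply Finsupp.mapDomain_of_notMem_range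
  rintro ⟨m, rfl⟩
  simp only [Nat.castEmbedding_apply] at hn
  omega

theorem const_of_toLaurent_eq {p q : K[X]} (h : toLaurent p = invert (toLaurent q)) :
    p = Polynomial.C (p.coeff 0) ∧ q = Polynomial.C (p.coeff 0) := by
  have hn : ∀ n : ℤ, (toLaurent p).coeff n = (toLaurent q).coeff (-n) := fun n ↦ by
    rw [h, invert_apply]
  constructor
  · ext n
    rw [Polynomial.coeff_C]
    split_ifs with h0
    · rw [h0]
    · rw [← coeff_toLaurent_nat, hn, coeff_toLaurent_neg]
      omega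
  · ext n
    rw [Polynomial.coeff_C]
    split_ifs with h0
    · rw [h0, ← coeff_toLaurent_nat, ← coeff_toLaurent_nat, hn]
      rfl
    · rw [← coeff_toLaurent_nat, ← neg_neg (n : ℤ), ← hn, coeff_toLaurent_neg]
      omega

/-- `H⁰(C, 𝒪) = K` -/
theorem eq_algebraMap_of_i0_eq_i1 {a : R0 K} {b : R1 K} (hab : i0 K a = i1 K b) :
    ∃ c : K, a = algebraMap K _ c ∧ b = algebraMap K _ c := by
  rw [QuadraticAlgebra.ext_iff] at hab
  obtain ⟨h1, h2⟩ := hab
  simp only [i0_re, i0_im, i1_re, i1_im] at h1 h2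
  obtain ⟨h3, h4⟩ := const_of_toLaurent_eq K h1
  have h5 : toLaurent (X ^ 3 * a.im) = invert (toLaurent b.im) := by
    have : (T 3 * T (-3) : K[T;T⁻¹]) = 1 := by rw [← T_add]; rfl
    rw [map_mul, h2, toLaurent_X_pow]
    linear_combination invert (toLaurent b.im) * this
  obtain ⟨h6, h7⟩ := const_of_toLaurent_eq K h5
  have h8 : (X ^ 3 * a.im).coeff 0 = 0 := by simp
  rw [h8, map_zero] at h6 h7
  have h9 : a.im = 0 := by
    ext n
    have := congrArg (fun p ↦ Polynomial.coeff p (n + 3)) h6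
    simpa [Polynomial.coeff_X_pow_mul] using this
  refine ⟨a.re.coeff 0, ?_, ?_⟩
  · apply QuadraticAlgebra.ext
    · exact h3
    · exact h9
  · apply QuadraticAlgebra.ext
    · exact h4
    · exact h7

/-- The two coefficients which are obstructions to being in `R0 + R1`. -/
noncomputable def obs : R01 K →ₗ[K] K × K where
  toFun z := (z.im.coeff (-1), z.im.coeff (-2))
  map_add' _ _ := rfl
  map_smul' _ _ := rfl

theorem split (f : K[T;T⁻¹]) : ∃ p q : K[X], f = toLaurent p + invert (toLaurent q) := by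
  induction f using LaurentPolynomial.induction_on' with
  | add f g hf hg =>
    obtain ⟨p, q, rfl⟩ := hf
    obtain ⟨p', q', rfl⟩ := hg
    exact ⟨p + p', q + q', by simp only [map_add]; ring⟩
  | C_mul_T n a =>
    rcases le_or_gt 0 n with hn | hn
    · obtain ⟨m, rfl⟩ := Int.eq_ofNat_of_zero_le hn
      exact ⟨Polynomial.C a * X ^ m, 0, by simp⟩
    · obtain ⟨m, hm⟩ := Int.eq_ofNat_of_zero_le (a := -n) (by omega)
      refine ⟨0, Polynomial.C a * X ^ m, ?_⟩
      simp [← hm]

theorem split' (f : K[T;T⁻¹]) : ∃ (p q : K[X]) (a b : K), f = toLaurent p +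
    T (-3) * invert (toLaurent q) + LaurentPolynomial.C a * T (-1) +
      LaurentPolynomial.C b * T (-2) := by
  induction f using LaurentPolynomial.induction_on' with
  | add f g hf hg =>
    obtain ⟨p, q, a, b, rfl⟩ := hf
    obtain ⟨p', q', a', b', rfl⟩ := hg
    exact ⟨p + p', q + q', a + a', b + b', by simp only [map_add]; ring⟩
  | C_mul_T n a =>
    rcases le_or_gt 0 n with hn | hn
    · obtain ⟨m, rfl⟩ := Int.eq_ofNat_of_zero_le hn
      exact ⟨Polynomial.C a * X ^ m, 0, 0, 0, by simp⟩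
    · rcases eq_or_ne n (-1) with h1 | h1
      · exact ⟨0, 0, a, 0, by simp [h1]⟩
      rcases eq_or_ne n (-2) with h2 | h2
      · exact ⟨0, 0, 0, a, by simp [h2]⟩
      obtain ⟨m, hm⟩ := Int.eq_ofNat_of_zero_le (a := -n - 3) (by omega)
      refine ⟨0, Polynomial.C a * X ^ m, 0, 0, ?_⟩
      have h3 : n = -3 + -m := by omega
      rw [h3, T_add]
      simp only [map_mul, Polynomial.toLaurent_C, Polynomial.toLaurent_X_pow, invert_C,
        invert_T, map_zero, zero_mul, add_zero, zero_add]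
      ring

theorem coeff_T_mul (m n : ℤ) (f : K[T;T⁻¹]) : (T m * f).coeff n = f.coeff (n - m) := by
  have := AddMonoidAlgebra.coeff_single_mul_eq_mul_coeff (R := K) (x := f) (m := m) (m₁ := n)
    (r := 1) (n - m) (by intros; omega)
  rwa [one_mul] at this

theorem ker_obs : LinearMap.ker (obs K) =
    LinearMap.range (i0 K).toLinearMap ⊔ LinearMap.range (i1 K).toLinearMap := by
  apply le_antisymm
  · intro z hz
    obtain ⟨p, q, hpq⟩ := split K z.re
    obtain ⟨p', q', a, b, hz'⟩ := split' K z.im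
    have h1 : z.im.coeff (-1) = a := by
      rw [hz']
      simp only [AddMonoidAlgebra.coeff_add, Finsupp.add_apply, coeff_T_mul, invert_apply,
        mul_comm (LaurentPolynomial.C _), LaurentPolynomial.C_apply]
      rw [coeff_toLaurent_neg _ _ _ (by norm_num), coeff_toLaurent_neg _ _ _ (by norm_num)]
      norm_num
    have h2 : z.im.coeff (-2) = b := by
      rw [hz']
      simp only [AddMonoidAlgebra.coeff_add, Finsupp.add_apply, coeff_T_mul, invert_apply,
        mul_comm (LaurentPolynomial.C _), LaurentPolynomial.C_apply]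
      rw [coeff_toLaurent_neg _ _ _ (by norm_num), coeff_toLaurent_neg _ _ _ (by norm_num)]
      norm_num
    have h3 : obs K z = 0 := hz
    have ha : a = 0 := by rw [← h1]; exact congrArg Prod.fst h3
    have hb : b = 0 := by rw [← h2]; exact congrArg Prod.snd h3
    rw [ha, hb, map_zero, zero_mul, zero_mul, add_zero, add_zero] at hz'
    refine Submodule.mem_sup.2 ⟨_, ⟨⟨p, p'⟩, rfl⟩, _, ⟨⟨q, q'⟩, rfl⟩, ?_⟩
    apply QuadraticAlgebra.ext
    · exact hpq.symm
    · exact hz'.symm
  · apply sup_le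
    · rintro _ ⟨z, rfl⟩
      change (_, _) = ((0, 0) : K × K)
      simp only [AlgHom.toLinearMap_apply, i0_im]
      rw [coeff_toLaurent_neg _ _ _ (by norm_num), coeff_toLaurent_neg _ _ _ (by norm_num)]
    · rintro _ ⟨z, rfl⟩
      change (_, _) = ((0, 0) : K × K)
      simp only [AlgHom.toLinearMap_apply, i1_im, coeff_T_mul, invert_apply]
      rw [coeff_toLaurent_neg _ _ _ (by norm_num), coeff_toLaurent_neg _ _ _ (by norm_num)]

theorem obs_surjective : Function.Surjective (obs K) := by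
  rintro ⟨a, b⟩
  refine ⟨⟨0, LaurentPolynomial.C a * T (-1) + LaurentPolynomial.C b * T (-2)⟩, ?_⟩
  change (_, _) = (a, b)
  simp only [AddMonoidAlgebra.coeff_add, Finsupp.add_apply, coeff_T_mul,
    mul_comm (LaurentPolynomial.C _), LaurentPolynomial.C_apply]
  norm_num

/-- `dim H¹(C, 𝒪) = 2` -/
theorem finrank_H1 (K : Type) [Field K] : Module.finrank K
    (R01 K ⧸ (LinearMap.range (i0 K).toLinearMap ⊔ LinearMap.range (i1 K).toLinearMap)) = 2 := by
  rw [← ker_obs, ((obs K).quotKerEquivOfSurjective (obs_surjective K)).finrank_eq]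
  simp

/-! ### Universal properties -/

section univ

variable {K} {B : Type} [CommRing B] [Algebra K B]

/-- Homomorphisms out of the quadratic algebra over `K[X]`. -/
noncomputable def liftQ {a b : K[X]} (x y : B)
    (h : y * y = aeval x a + aeval x b * y) : QuadraticAlgebra K[X] a b →ₐ[K] B where
  toFun z := aeval x z.re + aeval x z.im * y
  map_one' := by simp
  map_mul' z w := by
    simp only [re_mul, im_mul, map_add, map_mul]
    linear_combination -(aeval x z.im * aeval x w.im) * h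
  map_zero' := by simp
  map_add' z w := by
    simp only [re_add, im_add, map_add]
    ring
  commutes' r := by
    change aeval x (algebraMap K K[X] r) + aeval x (0 : K[X]) * y = _
    simp

theorem liftQ_apply {a b : K[X]} (x y : B)
    (h : y * y = aeval x a + aeval x b * y) (z : QuadraticAlgebra K[X] a b) :
    liftQ x y h z = aeval x z.re + aeval x z.im * y := rfl

@[simp] theorem liftQ_x {a b : K[X]} (x y : B) (h : y * y = aeval x a + aeval x b * y) :
    liftQ x y h ⟨X, 0⟩ = x := by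
  simp [liftQ_apply]

@[simp] theorem liftQ_y {a b : K[X]} (x y : B) (h : y * y = aeval x a + aeval x b * y) :
    liftQ x y h ⟨0, 1⟩ = y := by
  simp [liftQ_apply]

theorem algHom_extQ {a b : K[X]} {φ ψ : QuadraticAlgebra K[X] a b →ₐ[K] B}
    (hx : φ ⟨X, 0⟩ = ψ ⟨X, 0⟩) (hy : φ ⟨0, 1⟩ = ψ ⟨0, 1⟩) : φ = ψ := by
  have hz : ∀ z : QuadraticAlgebra K[X] a b,
      z = algebraMap K[X] _ z.re + algebraMap K[X] _ z.im * ⟨0, 1⟩ := by
    intro z
    apply QuadraticAlgebra.ext <;> simp
  have h : φ.comp (IsScalarTower.toAlgHom K K[X] (QuadraticAlgebra K[X] a b)) =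
      ψ.comp (IsScalarTower.toAlgHom K K[X] (QuadraticAlgebra K[X] a b)) := by
    apply Polynomial.algHom_ext
    exact hx
  have h' : ∀ p : K[X], φ (algebraMap K[X] _ p) = ψ (algebraMap K[X] _ p) := fun p ↦
    congrArg (· p) h
  ext z
  rw [hz z, map_add, map_mul, map_add, map_mul, h', h', hy]

/-- A `B`-valued point of `Spec R0` -/
noncomputable def lift0 (x y : B)
    (h : y * y = aeval x (h₀ K * h₁ K) + aeval x (h₀ K) * y) : R0 K →ₐ[K] B :=
  liftQ x y h

/-- A `B`-valued point of `Spec R1` -/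
noncomputable def lift1 (u v : B)
    (h : v * v = aeval u (h₁ K * h₀ K) + aeval u (h₁ K) * v) : R1 K →ₐ[K] B :=
  liftQ u v h

@[simp] theorem lift0_x0 (x y : B) (h : y * y = aeval x (h₀ K * h₁ K) + aeval x (h₀ K) * y) :
    lift0 x y h (x0 K) = x := liftQ_x x y h

@[simp] theorem lift0_y0 (x y : B) (h : y * y = aeval x (h₀ K * h₁ K) + aeval x (h₀ K) * y) :
    lift0 x y h (y0 K) = y := liftQ_y x y h

@[simp] theorem lift1_u1 (u v : B) (h : v * v = aeval u (h₁ K * h₀ K) + aeval u (h₁ K) * v) :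
    lift1 u v h (u1 K) = u := liftQ_x u v h

@[simp] theorem lift1_v1 (u v : B) (h : v * v = aeval u (h₁ K * h₀ K) + aeval u (h₁ K) * v) :
    lift1 u v h (v1 K) = v := liftQ_y u v h

theorem algHom_ext0 {φ ψ : R0 K →ₐ[K] B} (hx : φ (x0 K) = ψ (x0 K)) (hy : φ (y0 K) = ψ (y0 K)) :
    φ = ψ := algHom_extQ hx hy

theorem algHom_ext1 {φ ψ : R1 K →ₐ[K] B} (hx : φ (u1 K) = ψ (u1 K)) (hy : φ (v1 K) = ψ (v1 K)) :
    φ = ψ := algHom_extQ hx hy

variable (K) in
theorem y0_mul_y0 : y0 K * y0 K = aeval (x0 K) (h₀ K * h₁ K) + aeval (x0 K) (h₀ K) * y0 K := by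
  have h : ∀ p : K[X], aeval (x0 K) p = algebraMap K[X] (R0 K) p := by
    intro p
    have : x0 K = algebraMap K[X] (R0 K) X := rfl
    rw [this, aeval_algebraMap_apply, aeval_X_left_apply]
  rw [h, h]
  apply QuadraticAlgebra.ext <;> simp [y0]

variable (K) in
theorem v1_mul_v1 : v1 K * v1 K = aeval (u1 K) (h₁ K * h₀ K) + aeval (u1 K) (h₁ K) * v1 K := by
  have h : ∀ p : K[X], aeval (u1 K) p = algebraMap K[X] (R1 K) p := by
    intro p
    have : u1 K = algebraMap K[X] (R1 K) X := rfl
    rw [this, aeval_algebraMap_apply, aeval_X_left_apply]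
  rw [h, h]
  apply QuadraticAlgebra.ext <;> simp [v1]

end univ

/-! ### Base change -/

section baseChange

variable (L : Type) [CommRing L] [Algebra K L]

/-- Functoriality of quadratic algebras. -/
def quadMap {K A B : Type} [CommRing K] [CommRing A] [CommRing B] [Algebra K A] [Algebra K B]
    (φ : A →ₐ[K] B) {a b : A} {a' b' : B} (ha : φ a = a') (hb : φ b = b') :
    QuadraticAlgebra A a b →ₐ[K] QuadraticAlgebra B a' b' where
  toFun z := ⟨φ z.re, φ z.im⟩
  map_one' := by apply QuadraticAlgebra.ext <;> simp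
  map_mul' z w := by subst ha hb; apply QuadraticAlgebra.ext <;> simp
  map_zero' := by apply QuadraticAlgebra.ext <;> simp
  map_add' z w := by apply QuadraticAlgebra.ext <;> simp
  commutes' r := by
    apply QuadraticAlgebra.ext
    · exact φ.commutes r
    · exact map_zero φ

theorem isBaseChange_quadMap {K L A B : Type} [CommRing K] [CommRing L] [CommRing A] [CommRing B]
    [Algebra K L] [Algebra K A] [Algebra K B] [Algebra L B] [IsScalarTower K L B]
    (φ : A →ₐ[K] B) {a b : A} {a' b' : B} (ha : φ a = a') (hb : φ b = b')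
    (h : IsBaseChange L φ.toLinearMap) : IsBaseChange L (quadMap φ ha hb).toLinearMap := by
  let eM : QuadraticAlgebra A a b ≃ₗ[K] A × A :=
    { QuadraticAlgebra.equivProd a b with
      map_add' := fun _ _ ↦ rfl
      map_smul' := fun _ _ ↦ rfl }
  let eN : QuadraticAlgebra B a' b' ≃ₗ[L] B × B :=
    { QuadraticAlgebra.equivProd a' b' with
      map_add' := fun _ _ ↦ rfl
      map_smul' := fun _ _ ↦ rfl }
  exact (IsBaseChange.iff_of_equiv_comm eM eN (f' := φ.toLinearMap.prodMap φ.toLinearMap) rfl).2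
    (IsBaseChange.prodMap _ _ h h)

theorem isBaseChange_poly :
    IsBaseChange L (Polynomial.mapAlgHom (Algebra.ofId K L)).toLinearMap := by
  refine .of_equiv (polyEquivTensor' K L).symm.toLinearEquiv fun p ↦ ?_
  refine (polyEquivTensor_symm_apply_tmul_eq_smul ..).trans ?_
  rw [one_smul]
  rfl

theorem isBaseChange_laurent :
    IsBaseChange L (AddMonoidAlgebra.mapAlgHom ℤ (Algebra.ofId K L)).toLinearMap := by
  refine .of_equiv (AddMonoidAlgebra.scalarTensorEquiv K L).toLinearEquiv fun p ↦ ?_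
  refine (AddMonoidAlgebra.scalarTensorEquiv_tmul ..).trans ?_
  rw [one_smul]
  rfl

theorem mapAlgHom_toLaurent (p : K[X]) :
    AddMonoidAlgebra.mapAlgHom ℤ (Algebra.ofId K L) (toLaurent p) =
      toLaurent (p.map (algebraMap K L)) := by
  ext n
  rw [AddMonoidAlgebra.coeff_mapAlgHom]
  rcases le_or_gt 0 n with hn | hn
  · obtain ⟨m, rfl⟩ := Int.eq_ofNat_of_zero_le hn
    rw [coeff_toLaurent_nat, coeff_toLaurent_nat, coeff_map]
    rfl
  · rw [coeff_toLaurent_neg _ _ _ hn, coeff_toLaurent_neg _ _ _ hn, map_zero]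

/-- `R0 K → R0 L` -/
noncomputable def map0 : R0 K →ₐ[K] R0 L :=
  quadMap (Polynomial.mapAlgHom (Algebra.ofId K L)) (by
    rw [map_mul]
    exact congrArg₂ _ (map_h₀ K (algebraMap K L)) (map_h₁ K (algebraMap K L)))
    (map_h₀ K (algebraMap K L))

/-- `R1 K → R1 L` -/
noncomputable def map1 : R1 K →ₐ[K] R1 L :=
  quadMap (Polynomial.mapAlgHom (Algebra.ofId K L)) (by
    rw [map_mul]
    exact congrArg₂ _ (map_h₁ K (algebraMap K L)) (map_h₀ K (algebraMap K L)))
    (map_h₁ K (algebraMap K L))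

/-- `R01 K → R01 L` -/
noncomputable def map01 : R01 K →ₐ[K] R01 L :=
  quadMap (AddMonoidAlgebra.mapAlgHom ℤ (Algebra.ofId K L)) (by
    rw [mapAlgHom_toLaurent, Polynomial.map_mul, map_h₀, map_h₁])
    (by rw [mapAlgHom_toLaurent, map_h₀])

theorem isBaseChange_map0 : IsBaseChange L (map0 K L).toLinearMap :=
  isBaseChange_quadMap _ _ _ (isBaseChange_poly K L)

theorem isBaseChange_map1 : IsBaseChange L (map1 K L).toLinearMap :=
  isBaseChange_quadMap _ _ _ (isBaseChange_poly K L)

theorem isBaseChange_map01 : IsBaseChange L (map01 K L).toLinearMap :=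
  isBaseChange_quadMap _ _ _ (isBaseChange_laurent K L)

@[simp] theorem map0_x0 : map0 K L (x0 K) = x0 L := by
  apply QuadraticAlgebra.ext <;> simp [map0, quadMap, x0]

@[simp] theorem map0_y0 : map0 K L (y0 K) = y0 L := by
  apply QuadraticAlgebra.ext <;> simp [map0, quadMap, y0]

@[simp] theorem map1_u1 : map1 K L (u1 K) = u1 L := by
  apply QuadraticAlgebra.ext <;> simp [map1, quadMap, u1]

@[simp] theorem map1_v1 : map1 K L (v1 K) = v1 L := by
  apply QuadraticAlgebra.ext <;> simp [map1, quadMap, v1]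

theorem map01_i0 (z : R0 K) : map01 K L (i0 K z) = i0 L (map0 K L z) := by
  apply QuadraticAlgebra.ext
  · exact mapAlgHom_toLaurent K L z.re
  · exact mapAlgHom_toLaurent K L z.im

theorem mapAlgHom_invert (f : K[T;T⁻¹]) :
    AddMonoidAlgebra.mapAlgHom ℤ (Algebra.ofId K L) (invert f) =
      invert (AddMonoidAlgebra.mapAlgHom ℤ (Algebra.ofId K L) f) := by
  ext n
  rw [AddMonoidAlgebra.coeff_mapAlgHom, invert_apply, invert_apply,
    AddMonoidAlgebra.coeff_mapAlgHom]

theorem map01_i1 (z : R1 K) : map01 K L (i1 K z) = i1 L (map1 K L z) := by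
  apply QuadraticAlgebra.ext
  · change AddMonoidAlgebra.mapAlgHom ℤ (Algebra.ofId K L) (invert (toLaurent z.re)) = _
    rw [mapAlgHom_invert, mapAlgHom_toLaurent]
    rfl
  · change AddMonoidAlgebra.mapAlgHom ℤ (Algebra.ofId K L) (T (-3) * invert (toLaurent z.im)) = _
    rw [map_mul, mapAlgHom_invert, mapAlgHom_toLaurent]
    congr 1
    ext n
    rw [AddMonoidAlgebra.coeff_mapAlgHom, LaurentPolynomial.T_apply, LaurentPolynomial.T_apply]
    split_ifs <;> simp

end baseChange

/-! ### No points -/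

section points

variable {K : Type} [Field K]

theorem zmod2_h₀ (a : ZMod 2) : a ^ 3 + a + 1 = 1 := by
  revert a
  decide

theorem zmod2_h₁ (a : ZMod 2) : a ^ 3 + a ^ 2 + 1 = 1 := by
  revert a
  decide

theorem no_solution (V : ValuationSubring K) (ρ : V →+* ZMod 2) (a b c : V)
    (ha : ρ a = 1) (hb : ρ b = 1) (hc : c * c = a * c + a * b) : False := by
  have h := congrArg ρ hc
  rw [map_add, map_mul, map_mul, map_mul, ha, hb] at h
  revert h
  generalize ρ c = t
  revert t
  decide

theorem mem_of_quad (V : ValuationSubring K) (a b : V) (y : K)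
    (hy : y * y = a * y + a * b) : y ∈ V := by
  rcases V.mem_or_inv_mem y with h | h
  · exact h
  · rcases eq_or_ne y 0 with rfl | h0
    · exact V.zero_mem
    · have : y = a + a * b * y⁻¹ := by
        field_simp
        linear_combination hy
      rw [this]
      exact V.add_mem _ _ a.2 (V.mul_mem _ _ (V.mul_mem _ _ a.2 b.2) h)

theorem no_points_aux (V : ValuationSubring K) (ρ : V →+* ZMod 2) (x y : K) (hx : x ∈ V) :
    y * y ≠ aeval x (h₀ K * h₁ K) + aeval x (h₀ K) * y := by
  intro h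
  simp only [h₀, h₁, map_mul, map_add, map_pow, aeval_X, map_one] at h
  let x' : V := ⟨x, hx⟩
  have hy : y ∈ V := mem_of_quad V (x' ^ 3 + x' + 1) (x' ^ 3 + x' ^ 2 + 1) y (by
    push_cast
    rw [h]
    ring)
  refine no_solution V ρ (x' ^ 3 + x' + 1) (x' ^ 3 + x' ^ 2 + 1) ⟨y, hy⟩ ?_ ?_ ?_
  · simp only [map_add, map_pow, map_one]
    exact zmod2_h₀ _
  · simp only [map_add, map_pow, map_one]
    exact zmod2_h₁ _
  · apply Subtype.ext
    push_cast
    rw [h]
    ring

theorem no_points_aux' (V : ValuationSubring K) (ρ : V →+* ZMod 2) (u v : K) (hu : u ∈ V) :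
    v * v ≠ aeval u (h₁ K * h₀ K) + aeval u (h₁ K) * v := by
  intro h
  simp only [h₀, h₁, map_mul, map_add, map_pow, aeval_X, map_one] at h
  let u' : V := ⟨u, hu⟩
  have hv : v ∈ V := mem_of_quad V (u' ^ 3 + u' ^ 2 + 1) (u' ^ 3 + u' + 1) v (by
    push_cast
    rw [h]
    ring)
  refine no_solution V ρ (u' ^ 3 + u' ^ 2 + 1) (u' ^ 3 + u' + 1) ⟨v, hv⟩ ?_ ?_ ?_
  · simp only [map_add, map_pow, map_one]
    exact zmod2_h₁ _
  · simp only [map_add, map_pow, map_one]
    exact zmod2_h₀ _
  · apply Subtype.ext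
    push_cast
    rw [h]
    ring

theorem no_points0 (V : ValuationSubring K) (ρ : V →+* ZMod 2) (x y : K) :
    y * y ≠ aeval x (h₀ K * h₁ K) + aeval x (h₀ K) * y := by
  rcases V.mem_or_inv_mem x with hx | hx
  · exact no_points_aux V ρ x y hx
  rcases eq_or_ne x 0 with rfl | h0
  · exact no_points_aux V ρ 0 y V.zero_mem
  intro h
  apply no_points_aux' V ρ x⁻¹ (y * x⁻¹ ^ 3) hx
  simp only [h₀, h₁, map_mul, map_add, map_pow, aeval_X, map_one] at h ⊢
  field_simp
  linear_combination h

theorem no_points1 (V : ValuationSubring K) (ρ : V →+* ZMod 2) (u v : K) :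
    v * v ≠ aeval u (h₁ K * h₀ K) + aeval u (h₁ K) * v := by
  rcases V.mem_or_inv_mem u with hx | hx
  · exact no_points_aux' V ρ u v hx
  rcases eq_or_ne u 0 with rfl | h0
  · exact no_points_aux' V ρ 0 v V.zero_mem
  intro h
  apply no_points_aux V ρ u⁻¹ (v * u⁻¹ ^ 3) hx
  simp only [h₀, h₁, map_mul, map_add, map_pow, aeval_X, map_one] at h ⊢
  field_simp
  linear_combination h

theorem isEmpty_points0 (V : ValuationSubring K) (ρ : V →+* ZMod 2) : IsEmpty (R0 K →ₐ[K] K) := by
  refine ⟨fun φ ↦ no_points0 V ρ (φ (x0 K)) (φ (y0 K)) ?_⟩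
  rw [aeval_algHom_apply, aeval_algHom_apply, ← map_mul, ← map_mul, ← map_add]
  exact congrArg φ (y0_mul_y0 K)

theorem isEmpty_points1 (V : ValuationSubring K) (ρ : V →+* ZMod 2) : IsEmpty (R1 K →ₐ[K] K) := by
  refine ⟨fun φ ↦ no_points1 V ρ (φ (u1 K)) (φ (v1 K)) ?_⟩
  rw [aeval_algHom_apply, aeval_algHom_apply, ← map_mul, ← map_mul, ← map_add]
  exact congrArg φ (v1_mul_v1 K)

end points

end rings

end Pool.Agent.H27.Curve
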