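import Pool.Agent.H27.TorsorDefs

/-!
# fpqc descent for algebras
-/

set_option linter.unusedSectionVars false
set_option linter.style.haveILetI false

open CategoryTheory AlgebraicGeometry Limits Bicategory
open scoped TensorProduct

namespace Pool.Agent.H27

variable {κ : Type} [Field κ]

section Pushout

section
variable (κ) (A B C : Type) [CommRing A] [Algebra κ A] [CommRing B] [Algebra κ B] [CommRing C]
  [Algebra κ C] [Algebra A B] [Algebra A C] [IsScalarTower κ A B] [IsScalarTower κ A C]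

/-- Universal property of `B ⊗[A] C` among `κ`-algebras. -/
noncomputable def tensorDesc {D : Type} [CommRing D] [Algebra κ D] (l : B →ₐ[κ] D) (r : C →ₐ[κ] D)
    (h : ∀ a : A, l (algebraMap A B a) = r (algebraMap A C a)) : B ⊗[A] C →ₐ[κ] D :=
  letI : Algebra A D := (l.toRingHom.comp (algebraMap A B)).toAlgebra
  haveI : IsScalarTower κ A D := IsScalarTower.of_algebraMap_eq' (by
    ext x
    change algebraMap κ D x = l (algebraMap A B (algebraMap κ A x))
    rw [← IsScalarTower.algebraMap_apply, AlgHom.commutes])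
  let l' : B →ₐ[A] D := { l with commutes' := fun _ ↦ rfl }
  let r' : C →ₐ[A] D := { r with commutes' := fun a ↦ (h a).symm }
  (Algebra.TensorProduct.lift l' r' (fun _ _ ↦ .all _ _)).restrictScalars κ

@[simp]
lemma tensorDesc_tmul {D : Type} [CommRing D] [Algebra κ D] (l : B →ₐ[κ] D) (r : C →ₐ[κ] D)
    (h : ∀ a : A, l (algebraMap A B a) = r (algebraMap A C a)) (b : B) (c : C) :
    tensorDesc κ A B C l r h (b ⊗ₜ c) = l b * r c := rfl

theorem isPushout_tensor : IsPushout (CommAlgCat.ofHom (IsScalarTower.toAlgHom κ A B))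
    (CommAlgCat.ofHom (IsScalarTower.toAlgHom κ A C))
    (CommAlgCat.ofHom (Algebra.TensorProduct.includeLeft : B →ₐ[κ] B ⊗[A] C))
    (CommAlgCat.ofHom ((Algebra.TensorProduct.includeRight : C →ₐ[A] B ⊗[A] C).restrictScalars κ)) where
  w := by
    ext x
    simp [Algebra.TensorProduct.algebraMap_apply, Algebra.algebraMap_eq_smul_one, TensorProduct.smul_tmul]
  isColimit' := ⟨by
    refine PushoutCocone.IsColimit.mk _ (fun s ↦ CommAlgCat.ofHom (tensorDesc κ A B C s.inl.hom s.inr.hom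
      (fun a ↦ congr(($(s.condition)).hom a)))) ?_ ?_ ?_
    · intro s
      ext x
      simp
    · intro s
      ext x
      simp
    · intro s m h1 h2
      ext x
      induction x using TensorProduct.induction_on with
      | zero => simp
      | add x y hx hy => simp_all
      | tmul b c =>
        have e : (b ⊗ₜ c : B ⊗[A] C) = (b ⊗ₜ 1) * (1 ⊗ₜ c) := by simp
        have h1' : m.hom (b ⊗ₜ 1) = s.inl.hom b := congr(($h1).hom b)
        have h2' : m.hom (1 ⊗ₜ c) = s.inr.hom c := congr(($h2).hom c)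
        change m.hom (b ⊗ₜ c) = _
        rw [e, map_mul, h1', h2']
        simp⟩

end

end Pushout

section Core

variable {A : Type} [CommRing A] {ι : Type} 
  {A' B' : ι → Type} [∀ i, CommRing (A' i)] [∀ i, CommRing (B' i)] [∀ i, Algebra A (A' i)]
  [∀ i, Algebra A (B' i)] [∀ i, Algebra (A' i) (B' i)] [∀ i, IsScalarTower A (A' i) (B' i)]
  (τ : ∀ i j, B' j →ₐ[A] B' i ⊗[A] A' j)

variable (A A' B') in
/-- first map of the equalizer -/
noncomputable def descU : (∀ i, B' i) →ₐ[A] (∀ p : ι × ι, B' p.1 ⊗[A] A' p.2) :=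
  AlgHom.pi (fun p ↦ Algebra.TensorProduct.includeLeft.comp (Pi.evalAlgHom A B' p.1))

/-- second map of the equalizer -/
noncomputable def descV : (∀ i, B' i) →ₐ[A] (∀ p : ι × ι, B' p.1 ⊗[A] A' p.2) :=
  AlgHom.pi (fun p ↦ (τ p.1 p.2).comp (Pi.evalAlgHom A B' p.2))

/-- the descended algebra -/
noncomputable def descAlg : Subalgebra A (∀ i, B' i) := AlgHom.equalizer (descU A A' B') (descV τ)

lemma mem_descAlg (b : ∀ i, B' i) : b ∈ descAlg τ ↔ ∀ i j, b i ⊗ₜ[A] (1 : A' j) = τ i j (b j) := by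
  rw [descAlg, AlgHom.mem_equalizer, funext_iff, Prod.forall]
  rfl

variable (A A' B') in
/-- `a ⊗ b ↦ a b` -/
noncomputable def rho (k : ι) : A' k ⊗[A] B' k →ₐ[A] B' k :=
  Algebra.TensorProduct.lift (IsScalarTower.toAlgHom A (A' k) (B' k)) (AlgHom.id A _)
    (fun _ _ ↦ .all _ _)

variable (A A' B') in
/-- `a ⊗ (b ⊗ a') ↦ a a' ⊗ b` -/
noncomputable def contr (k i : ι) : A' k ⊗[A] (B' i ⊗[A] A' k) →ₐ[A] A' k ⊗[A] B' i :=
  Algebra.TensorProduct.lift Algebra.TensorProduct.includeLeft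
    (Algebra.TensorProduct.lift Algebra.TensorProduct.includeRight
      Algebra.TensorProduct.includeLeft (fun _ _ ↦ .all _ _)) (fun _ _ ↦ .all _ _)

/-- the comparison map -/
noncomputable def descPhi (k : ι) : A' k ⊗[A] descAlg τ →ₐ[A] B' k :=
  (rho A A' B' k).comp (Algebra.TensorProduct.map (AlgHom.id A (A' k))
    ((Pi.evalAlgHom A B' k).comp (descAlg τ).val))

lemma descPhi_tmul (k : ι) (a : A' k) (b : descAlg τ) :
    descPhi τ k (a ⊗ₜ b) = algebraMap (A' k) (B' k) a * (b : ∀ i, B' i) k := rfl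

theorem descPhi_bijective [Finite ι] (k : ι) [Module.Flat A (A' k)]
    (σ : ∀ i, B' k →ₐ[A] A' k ⊗[A] B' i)
    (E1 : ∀ b, rho A A' B' k (σ k b) = b)
    (E2 : ∀ i (y : A' k ⊗[A] B' k),
      contr A A' B' k i (Algebra.TensorProduct.map (AlgHom.id A _) (τ i k) y) =
        σ i (rho A A' B' k y))
    (E3 : ∀ i j (b : B' k), Algebra.TensorProduct.map (AlgHom.id A _) (τ i j) (σ j b) =
      Algebra.TensorProduct.map (AlgHom.id A (A' k))
        (Algebra.TensorProduct.includeLeft : B' i →ₐ[A] B' i ⊗[A] A' j) (σ i b)) :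
    Function.Bijective (descPhi τ k) := by
  classical
  have := Fintype.ofFinite ι
  -- components
  have hcomp : ∀ (y : A' k ⊗[A] (∀ i, B' i)) (i : ι),
      (Algebra.TensorProduct.piRight A A (A' k) B' y) i =
        Algebra.TensorProduct.map (AlgHom.id A (A' k)) (Pi.evalAlgHom A B' i) y := by
    intro y i
    induction y using TensorProduct.induction_on with
    | zero => simp
    | add x y hx hy => simp only [map_add, Pi.add_apply, hx, hy]
    | tmul a b => simp
  have hcomp2 : ∀ (y : A' k ⊗[A] (∀ p : ι × ι, B' p.1 ⊗[A] A' p.2)) (p : ι × ι),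
      (Algebra.TensorProduct.piRight A A (A' k) (fun p : ι × ι ↦ B' p.1 ⊗[A] A' p.2) y) p =
        Algebra.TensorProduct.map (AlgHom.id A (A' k))
          (Pi.evalAlgHom A (fun p : ι × ι ↦ B' p.1 ⊗[A] A' p.2) p) y := by
    intro y i
    induction y using TensorProduct.induction_on with
    | zero => simp
    | add x y hx hy => simp only [map_add, Pi.add_apply, hx, hy]
    | tmul a b => simp
  have hval : Function.Injective (Algebra.TensorProduct.map (AlgHom.id A (A' k)) (descAlg τ).val) := by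
    exact Module.Flat.lTensor_preserves_injective_linearMap (descAlg τ).val.toLinearMap
      Subtype.val_injective
  have hmm : ∀ {X Y Z : Type} [CommRing X] [Algebra A X] [CommRing Y] [Algebra A Y] [CommRing Z]
      [Algebra A Z] (p : X →ₐ[A] Y) (q : Y →ₐ[A] Z) (y : A' k ⊗[A] X),
      Algebra.TensorProduct.map (AlgHom.id A (A' k)) q
        (Algebra.TensorProduct.map (AlgHom.id A (A' k)) p y) =
      Algebra.TensorProduct.map (AlgHom.id A (A' k)) (q.comp p) y := by
    intro X Y Z _ _ _ _ _ _ p q y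
    induction y using TensorProduct.induction_on with
    | zero => simp
    | add x y hx hy => simp only [map_add, hx, hy]
    | tmul a b => simp
  have hcontr : ∀ (i : ι) (y : A' k ⊗[A] B' i), contr A A' B' k i
      (Algebra.TensorProduct.map (AlgHom.id A (A' k))
        (Algebra.TensorProduct.includeLeft : B' i →ₐ[A] B' i ⊗[A] A' k) y) = y := by
    intro i y
    induction y using TensorProduct.induction_on with
    | zero => simp
    | add x y hx hy => simp only [map_add, hx, hy]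
    | tmul a b => simp [contr]
  -- characterization of the equalizer
  have heq : ∀ y : A' k ⊗[A] (∀ i, B' i),
      Algebra.TensorProduct.map (AlgHom.id A (A' k)) (descU A A' B') y =
        Algebra.TensorProduct.map (AlgHom.id A (A' k)) (descV τ) y ↔
      ∀ i j, Algebra.TensorProduct.map (AlgHom.id A (A' k))
        (Algebra.TensorProduct.includeLeft : B' i →ₐ[A] B' i ⊗[A] A' j)
          (Algebra.TensorProduct.map (AlgHom.id A (A' k)) (Pi.evalAlgHom A B' i) y) =
        Algebra.TensorProduct.map (AlgHom.id A (A' k)) (τ i j)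
          (Algebra.TensorProduct.map (AlgHom.id A (A' k)) (Pi.evalAlgHom A B' j) y) := by
    intro y
    rw [← (Algebra.TensorProduct.piRight A A (A' k)
      (fun p : ι × ι ↦ B' p.1 ⊗[A] A' p.2)).injective.eq_iff, funext_iff, Prod.forall]
    refine forall₂_congr fun i j ↦ ?_
    rw [hcomp2, hcomp2, hmm, hmm, hmm, hmm]
    rfl
  have hphi : ∀ x : A' k ⊗[A] descAlg τ, descPhi τ k x = rho A A' B' k
      (Algebra.TensorProduct.map (AlgHom.id A (A' k)) (Pi.evalAlgHom A B' k)
        (Algebra.TensorProduct.map (AlgHom.id A (A' k)) (descAlg τ).val x)) := by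
    intro x
    rw [hmm]; rfl
  have hmem : ∀ x : A' k ⊗[A] descAlg τ,
      Algebra.TensorProduct.map (AlgHom.id A (A' k)) (descU A A' B')
        (Algebra.TensorProduct.map (AlgHom.id A (A' k)) (descAlg τ).val x) =
      Algebra.TensorProduct.map (AlgHom.id A (A' k)) (descV τ)
        (Algebra.TensorProduct.map (AlgHom.id A (A' k)) (descAlg τ).val x) := by
    intro x
    rw [hmm, hmm]
    congr 2
    ext1 b
    exact b.2
  constructor
  · rw [injective_iff_map_eq_zero]
    intro x hx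
    rw [hphi] at hx
    have h1 := (heq _).mp (hmem x)
    apply hval
    rw [map_zero]
    apply (Algebra.TensorProduct.piRight A A (A' k) B').injective
    rw [map_zero]
    funext i
    rw [hcomp]
    have h2 := congrArg (contr A A' B' k i) (h1 i k)
    rw [hcontr, E2, hx, map_zero] at h2
    exact h2
  · intro b
    set y := (Algebra.TensorProduct.piRight A A (A' k) B').symm (fun i ↦ σ i b) with hy
    have hyi : ∀ i, Algebra.TensorProduct.map (AlgHom.id A (A' k)) (Pi.evalAlgHom A B' i) y =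
        σ i b := by
      intro i
      rw [← hcomp, hy, AlgEquiv.apply_symm_apply]
    have h1 : Algebra.TensorProduct.map (AlgHom.id A (A' k)) (descU A A' B') y =
        Algebra.TensorProduct.map (AlgHom.id A (A' k)) (descV τ) y := by
      rw [heq]
      intro i j
      rw [hyi, hyi, E3]
    let e := AlgHom.tensorEqualizerEquiv A (A' k) (descU A A' B') (descV τ)
    obtain ⟨x, hx⟩ : ∃ x : A' k ⊗[A] descAlg τ, e x = ⟨y, h1⟩ := e.surjective ⟨y, h1⟩
    refine ⟨x, ?_⟩
    have hx' : Algebra.TensorProduct.map (AlgHom.id A (A' k)) (descAlg τ).val x = y := by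
      exact (AlgHom.coe_tensorEqualizer A (A' k) (descU A A' B') (descV τ) x).symm.trans
        (congrArg Subtype.val hx)
    refine (hphi x).trans ?_
    rw [hx', hyi, E1]

end Core


/-! ### bundled versions -/

section Bundled

variable {A B C D : Alg κ}

/-- The `A`-algebra structure on `B` attached to a morphism `A ⟶ B`. -/
abbrev algOf (f : A ⟶ B) : Algebra A B := f.hom.toRingHom.toAlgebra

lemma towerOf (f : A ⟶ B) : letI := algOf f; IsScalarTower κ A B :=
  letI := algOf f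
  IsScalarTower.of_algebraMap_eq' (AlgHom.comp_algebraMap f.hom).symm

/-- An isomorphism of pushouts with the tensor product. -/
lemma exists_tensor_equiv {f : A ⟶ B} {g : A ⟶ C} {i : B ⟶ D} {j : C ⟶ D}
    (h : IsPushout f g i j) :
    letI := algOf f
    letI := algOf g
    ∃ e : (B ⊗[A] C) ≃+* D, (∀ b, e (b ⊗ₜ 1) = i.hom b) ∧ ∀ c, e (1 ⊗ₜ c) = j.hom c := by
  letI := algOf f
  letI := algOf g
  haveI := towerOf f
  haveI := towerOf g
  have h' := isPushout_tensor κ A B C
  have e1 : CommAlgCat.ofHom (IsScalarTower.toAlgHom κ A B) = f := rfl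
  have e2 : CommAlgCat.ofHom (IsScalarTower.toAlgHom κ A C) = g := rfl
  rw [e1, e2] at h'
  let e := h'.isoIsPushout _ _ h
  refine ⟨(CommAlgCat.algEquivOfIso e).toRingEquiv, fun b ↦ ?_, fun c ↦ ?_⟩
  · have := h'.inl_isoIsPushout_hom _ _ h
    exact congr(($this).hom b)
  · have := h'.inr_isoIsPushout_hom _ _ h
    exact congr(($this).hom c)

lemma exists_tensor_equiv' {f : A ⟶ B} {g : A ⟶ C} {i : B ⟶ D} {j : C ⟶ D}
    (h : IsPushout f g i j) :
    letI := algOf f
    letI := algOf g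
    ∃ e : (C ⊗[A] B) ≃+* D, (∀ c, e (c ⊗ₜ 1) = j.hom c) ∧ ∀ b, e (1 ⊗ₜ b) = i.hom b :=
  exists_tensor_equiv h.flip

theorem flat_of_isPushout {A B C D : Alg κ} {f : A ⟶ B} {g : A ⟶ C} {i : B ⟶ D} {j : C ⟶ D}
    (h : IsPushout f g i j) (hf : f.hom.toRingHom.Flat) : j.hom.toRingHom.Flat := by
  letI := algOf f
  letI := algOf g
  obtain ⟨e, he, -⟩ := exists_tensor_equiv' h
  have : Module.Flat A B := hf
  have h1 : (algebraMap C (C ⊗[A] B)).Flat := RingHom.flat_algebraMap_iff.mpr inferInstance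
  have h2 : j.hom.toRingHom = e.toRingHom.comp (algebraMap C (C ⊗[A] B)) := by
    ext c
    exact (he c).symm
  rw [h2]
  exact h1.comp (RingHom.Flat.of_bijective e.bijective)

theorem ff_of_isPushout {A B C D : Alg κ} {f : A ⟶ B} {g : A ⟶ C} {i : B ⟶ D} {j : C ⟶ D}
    (h : IsPushout f g i j) (hf : f.hom.toRingHom.FaithfullyFlat) :
    j.hom.toRingHom.FaithfullyFlat := by
  letI := algOf f
  letI := algOf g
  obtain ⟨e, he, -⟩ := exists_tensor_equiv' h
  have : Module.FaithfullyFlat A B := hf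
  have h1 : (algebraMap C (C ⊗[A] B)).FaithfullyFlat :=
    RingHom.faithfullyFlat_algebraMap_iff.mpr inferInstance
  have h2 : j.hom.toRingHom = e.toRingHom.comp (algebraMap C (C ⊗[A] B)) := by
    ext c
    exact (he c).symm
  rw [h2]
  exact RingHom.FaithfullyFlat.stableUnderComposition _ _ h1
    (RingHom.FaithfullyFlat.of_bijective e.bijective)

theorem finite_of_isPushout {A B C D : Alg κ} {f : A ⟶ B} {g : A ⟶ C} {i : B ⟶ D} {j : C ⟶ D}
    (h : IsPushout f g i j) (hf : f.hom.toRingHom.Finite) : j.hom.toRingHom.Finite := by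
  letI := algOf f
  letI := algOf g
  obtain ⟨e, he, -⟩ := exists_tensor_equiv' h
  have : Module.Finite A B := hf
  have h1 : (algebraMap C (C ⊗[A] B)).Finite :=
    RingHom.finite_algebraMap.mpr inferInstance
  have h2 : j.hom.toRingHom = e.toRingHom.comp (algebraMap C (C ⊗[A] B)) := by
    ext c
    exact (he c).symm
  rw [h2]
  exact (RingHom.Finite.of_surjective _ e.surjective).comp h1

end Bundled


/-! ### covers -/

section Cover

lemma flat_pi {A : Type} [CommRing A] {ι : Type} [Finite ι] (M : ι → Type)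
    [∀ i, AddCommGroup (M i)] [∀ i, Module A (M i)] [∀ i, Module.Flat A (M i)] :
    Module.Flat A (∀ i, M i) := by
  classical
  have := Fintype.ofFinite ι
  exact Module.Flat.of_linearEquiv (DFinsupp.linearEquivFunOnFintype (R := A) (M := M)).symm

lemma ff_pi {A : Type} [CommRing A] {ι : Type} [Finite ι] (A' : ι → Type)
    [∀ i, CommRing (A' i)] [∀ i, Algebra A (A' i)] [∀ i, Module.Flat A (A' i)]
    (h : ∀ P : PrimeSpectrum A, ∃ (i : ι) (Q : PrimeSpectrum (A' i)),
      PrimeSpectrum.comap (algebraMap A (A' i)) Q = P) :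
    Module.FaithfullyFlat A (∀ i, A' i) := by
  have := flat_pi (A := A) A'
  refine Module.FaithfullyFlat.of_comap_surjective ?_
  intro P
  obtain ⟨i, Q, rfl⟩ := h P
  exact ⟨PrimeSpectrum.comap (Pi.evalRingHom A' i) Q, rfl⟩

lemma pi_tensor_ext {A : Type} [CommRing A] {ι : Type} [Finite ι] (A' : ι → Type)
    [∀ i, CommRing (A' i)] [∀ i, Algebra A (A' i)] {x y : (∀ i, A' i) ⊗[A] (∀ i, A' i)}
    (h : ∀ i j, Algebra.TensorProduct.map (Pi.evalAlgHom A A' i) (Pi.evalAlgHom A A' j) x =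
      Algebra.TensorProduct.map (Pi.evalAlgHom A A' i) (Pi.evalAlgHom A A' j) y) : x = y := by
  classical
  have := Fintype.ofFinite ι
  apply (Algebra.TensorProduct.piRight A A (∀ i, A' i) A').injective
  funext j
  apply (Algebra.TensorProduct.comm A (∀ i, A' i) (A' j)).injective
  apply (Algebra.TensorProduct.piRight A A (A' j) A').injective
  funext i
  have key : ∀ z : (∀ i, A' i) ⊗[A] (∀ i, A' i),
      Algebra.TensorProduct.piRight A A (A' j) A' (Algebra.TensorProduct.comm A (∀ i, A' i) (A' j)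
        (Algebra.TensorProduct.piRight A A (∀ i, A' i) A' z j)) i =
      Algebra.TensorProduct.comm A (A' i) (A' j)
        (Algebra.TensorProduct.map (Pi.evalAlgHom A A' i) (Pi.evalAlgHom A A' j) z) := by
    intro z
    induction z using TensorProduct.induction_on with
    | zero => simp
    | add x y hx hy => simp only [map_add, Pi.add_apply, hx, hy]
    | tmul a b => simp
  rw [key, key, h]

/-- Elements of the base ring are obtained by fpqc descent. -/
lemma elt_descent {A : Type} [CommRing A] {ι : Type} [Finite ι] (A' : ι → Type)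
    [∀ i, CommRing (A' i)] [∀ i, Algebra A (A' i)] [∀ i, Module.Flat A (A' i)]
    (h : ∀ P : PrimeSpectrum A, ∃ (i : ι) (Q : PrimeSpectrum (A' i)),
      PrimeSpectrum.comap (algebraMap A (A' i)) Q = P) (x : ∀ i, A' i)
    (hx : ∀ i j, (x i ⊗ₜ 1 : A' i ⊗[A] A' j) = 1 ⊗ₜ x j) :
    ∃! a : A, ∀ i, algebraMap A (A' i) a = x i := by
  have := ff_pi A' h
  have h1 : Algebra.IsEffective A (∀ i, A' i) := Algebra.IsEffective.of_faithfullyFlat A _
  have h2 : Algebra.TensorProduct.includeLeftSubRight A (∀ i, A' i) x = 0 := by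
    rw [Algebra.TensorProduct.includeLeftSubRight_apply, sub_eq_zero]
    apply pi_tensor_ext
    intro i j
    simp [hx]
  obtain ⟨a, ha⟩ := (h1 x).mp h2
  refine ⟨a, fun i ↦ congrFun ha i, fun b hb ↦ ?_⟩
  have hinj : Function.Injective (algebraMap A (∀ i, A' i)) :=
    FaithfulSMul.algebraMap_injective _ _
  apply hinj
  funext i
  exact (hb i).trans (congrFun ha i).symm


lemma IsFpqcCover.flat' {A : Alg κ} {ι : Type} {A' : ι → Alg κ} {f : ∀ i, A ⟶ A' i}
    (hf : IsFpqcCover A' f) (i : ι) : letI := algOf (f i); Module.Flat A (A' i) :=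
  hf.flat i

/-- morphisms to the base of a cover can be tested on the cover -/
lemma IsFpqcCover.hom_ext {A : Alg κ} {ι : Type} {A' : ι → Alg κ} {f : ∀ i, A ⟶ A' i}
    (hf : IsFpqcCover A' f) {D : Alg κ} {d d' : D ⟶ A} (h : ∀ i, d ≫ f i = d' ≫ f i) :
    d = d' := by
  letI := fun i ↦ algOf (f i)
  have := hf.finite
  have : ∀ i, Module.Flat A (A' i) := hf.flat
  have := ff_pi (A := A) (fun i ↦ (A' i : Type)) hf.surj
  have hinj : Function.Injective (algebraMap A (∀ i, A' i)) :=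
    FaithfulSMul.algebraMap_injective _ _
  ext x
  apply hinj
  funext i
  exact congr(($(h i)).hom x)

/-- `Hom(D, -)` is an fpqc sheaf. -/
theorem alg_hom_descent {A : Alg κ} {ι : Type} {A' : ι → Alg κ} (f : ∀ i, A ⟶ A' i)
    (hf : IsFpqcCover A' f) (D : Alg κ) (d : ∀ i, D ⟶ A' i)
    (hd : ∀ (i j : ι) (C : Alg κ) (a : A' i ⟶ C) (b : A' j ⟶ C), f i ≫ a = f j ≫ b →
      d i ≫ a = d j ≫ b) : ∃! d₀ : D ⟶ A, ∀ i, d₀ ≫ f i = d i := by
  letI := fun i ↦ algOf (f i)
  have := hf.finite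
  have : ∀ i, Module.Flat A (A' i) := hf.flat
  have := fun i ↦ towerOf (f i)
  let φ : A →ₐ[κ] (∀ i, A' i) := AlgHom.pi (fun i ↦ (f i).hom)
  have := ff_pi (A := A) (fun i ↦ (A' i : Type)) hf.surj
  have hφ : Function.Injective φ :=
    (FaithfulSMul.algebraMap_injective A (∀ i, A' i) : Function.Injective (algebraMap A (∀ i, A' i)))
  let dd : D →ₐ[κ] (∀ i, A' i) := AlgHom.pi (fun i ↦ (d i).hom)
  have hr : ∀ x, dd x ∈ φ.range := by
    intro x
    obtain ⟨a, ha, -⟩ := elt_descent (A := A) (fun i ↦ (A' i : Type)) hf.surj (fun i ↦ (d i).hom x) (by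
      intro i j
      have h1 := isPushout_tensor κ A (A' i) (A' j)
      exact congr(($(hd i j _ _ _ h1.w)).hom x))
    exact ⟨a, funext ha⟩
  refine ⟨CommAlgCat.ofHom ((AlgEquiv.ofInjective φ hφ).symm.toAlgHom.comp
    (dd.codRestrict φ.range hr)), ?_, ?_⟩
  · intro i
    ext x
    have h1 : φ ((AlgEquiv.ofInjective φ hφ).symm (dd.codRestrict φ.range hr x)) = dd x := by
      have := congrArg Subtype.val
        ((AlgEquiv.ofInjective φ hφ).apply_symm_apply (dd.codRestrict φ.range hr x))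
      exact this
    exact congrFun h1 i
  · intro d' hd'
    apply hf.hom_ext
    intro i
    rw [hd']
    ext x
    have h1 : φ ((AlgEquiv.ofInjective φ hφ).symm (dd.codRestrict φ.range hr x)) = dd x := by
      have := congrArg Subtype.val
        ((AlgEquiv.ofInjective φ hφ).apply_symm_apply (dd.codRestrict φ.range hr x))
      exact this
    exact (congrFun h1 i).symm

end Cover

/-! ### effective descent -/

/-- Descent datum on a family of algebras `s' i : A' i ⟶ B' i` relative to `A ⟶ A' i`. -/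
structure AlgDescent {A : Alg κ} {ι : Type} {A' : ι → Alg κ} (f : ∀ i, A ⟶ A' i)
    {B' : ι → Alg κ} (s' : ∀ i, A' i ⟶ B' i) where
  tr : ∀ {i : ι} {C : Alg κ} (b : B' i ⟶ C) (j : ι) (c : A' j ⟶ C),
    f i ≫ s' i ≫ b = f j ≫ c → (B' j ⟶ C)
  s_tr : ∀ {i : ι} {C : Alg κ} (b : B' i ⟶ C) (j : ι) (c : A' j ⟶ C)
    (h : f i ≫ s' i ≫ b = f j ≫ c), s' j ≫ tr b j c h = c
  tr_self : ∀ {i : ι} {C : Alg κ} (b : B' i ⟶ C), tr b i (s' i ≫ b) rfl = b
  tr_tr : ∀ {i : ι} {C : Alg κ} (b : B' i ⟶ C) (j : ι) (c : A' j ⟶ C)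
    (h : f i ≫ s' i ≫ b = f j ≫ c) (k : ι) (c' : A' k ⟶ C)
    (h' : f j ≫ s' j ≫ tr b j c h = f k ≫ c') (h'' : f i ≫ s' i ≫ b = f k ≫ c'),
    tr (tr b j c h) k c' h' = tr b k c' h''
  tr_comp : ∀ {i : ι} {C D : Alg κ} (b : B' i ⟶ C) (g : C ⟶ D) (j : ι) (c : A' j ⟶ C)
    (h : f i ≫ s' i ≫ b = f j ≫ c) (h' : f i ≫ s' i ≫ b ≫ g = f j ≫ c ≫ g),
    tr (b ≫ g) j (c ≫ g) h' = tr b j c h ≫ g

section EffectiveDescent

variable {A : Alg κ} {ι : Type} {A' : ι → Alg κ} {f : ∀ i, A ⟶ A' i}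
    {B' : ι → Alg κ} {s' : ∀ i, A' i ⟶ B' i} (D : AlgDescent f s')

lemma AlgDescent.tr_congr {i : ι} {C : Alg κ} {b b' : B' i ⟶ C} (hb : b = b') (j : ι)
    {c c' : A' j ⟶ C} (hc : c = c') (h : f i ≫ s' i ≫ b = f j ≫ c)
    (h' : f i ≫ s' i ≫ b' = f j ≫ c') : D.tr b j c h = D.tr b' j c' h' := by
  subst hb hc; rfl

lemma AlgDescent.tr_comp' {i : ι} {C E : Alg κ} (b : B' i ⟶ C) (g : C ⟶ E) (j : ι) (c : A' j ⟶ C)
    (h : f i ≫ s' i ≫ b = f j ≫ c) {b' : B' i ⟶ E} {c' : A' j ⟶ E} (hb : b ≫ g = b')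
    (hc : c ≫ g = c') (h' : f i ≫ s' i ≫ b' = f j ≫ c') :
    D.tr b j c h ≫ g = D.tr b' j c' h' := by
  subst hb hc
  exact (D.tr_comp b g j c h h').symm

/-- Effective fpqc descent for algebras. -/
theorem alg_obj_descent {A : Alg κ} {ι : Type} {A' : ι → Alg κ} (f : ∀ i, A ⟶ A' i)
    (hf : IsFpqcCover A' f) {B' : ι → Alg κ} (s' : ∀ i, A' i ⟶ B' i) (D : AlgDescent f s') :
    ∃ (B : Alg κ) (s : A ⟶ B) (e : ∀ i, B ⟶ B' i), (∀ i, IsPushout (f i) s (s' i) (e i)) ∧
      ∀ {i : ι} {C : Alg κ} (b : B' i ⟶ C) (j : ι) (c : A' j ⟶ C)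
        (h : f i ≫ s' i ≫ b = f j ≫ c), e i ≫ b = e j ≫ D.tr b j c h := by
  letI iA := fun i ↦ algOf (f i)
  letI iB := fun i ↦ algOf (s' i)
  letI iAB := fun i ↦ algOf (f i ≫ s' i)
  have := hf.finite
  have : ∀ i, Module.Flat A (A' i) := hf.flat
  have := fun i ↦ towerOf (f i)
  have := fun i ↦ towerOf (s' i)
  have := fun i ↦ towerOf (f i ≫ s' i)
  have : ∀ i, IsScalarTower A (A' i) (B' i) := fun i ↦ IsScalarTower.of_algebraMap_eq' rfl
  -- `B' i ⊗ A' j`
  let Cc : ι → ι → Alg κ := fun i j ↦ CommAlgCat.of κ (B' i ⊗[A] A' j)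
  let cl : ∀ i j, B' i ⟶ Cc i j := fun i j ↦
    CommAlgCat.ofHom (Algebra.TensorProduct.includeLeft : B' i →ₐ[κ] B' i ⊗[A] A' j)
  let cr : ∀ i j, A' j ⟶ Cc i j := fun i j ↦ CommAlgCat.ofHom
    ((Algebra.TensorProduct.includeRight : A' j →ₐ[A] B' i ⊗[A] A' j).restrictScalars κ)
  have hC : ∀ i j, IsPushout (f i ≫ s' i) (f j) (cl i j) (cr i j) := fun i j ↦
    isPushout_tensor κ A (B' i) (A' j)
  -- `A' k ⊗ B' i`
  let Ee : ι → ι → Alg κ := fun k i ↦ CommAlgCat.of κ (A' k ⊗[A] B' i)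
  let el : ∀ k i, A' k ⟶ Ee k i := fun k i ↦
    CommAlgCat.ofHom (Algebra.TensorProduct.includeLeft : A' k →ₐ[κ] A' k ⊗[A] B' i)
  let er : ∀ k i, B' i ⟶ Ee k i := fun k i ↦ CommAlgCat.ofHom
    ((Algebra.TensorProduct.includeRight : B' i →ₐ[A] A' k ⊗[A] B' i).restrictScalars κ)
  have hE : ∀ k i, IsPushout (f k) (f i ≫ s' i) (el k i) (er k i) := fun k i ↦
    isPushout_tensor κ A (A' k) (B' i)
  let τ₀ : ∀ i j, B' j ⟶ Cc i j := fun i j ↦
    D.tr (cl i j) j (cr i j) (by rw [← (hC i j).w, Category.assoc])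
  let σ₀ : ∀ k i, B' k ⟶ Ee k i := fun k i ↦
    D.tr (er k i) k (el k i) (by rw [(hE k i).w, Category.assoc])
  have hτs : ∀ i j, s' j ≫ τ₀ i j = cr i j := fun i j ↦ D.s_tr _ _ _ _
  have hσs : ∀ k i, s' k ≫ σ₀ k i = el k i := fun k i ↦ D.s_tr _ _ _ _
  let τ : ∀ i j, B' j →ₐ[A] B' i ⊗[A] A' j := fun i j ↦
    { (τ₀ i j).hom with
      commutes' := fun a ↦ by
        have h1 := congr(($(hτs i j)).hom ((f j).hom a))
        have h2 := congr(($((hC i j).w)).hom a)
        exact h1.trans h2.symm }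
  let σ : ∀ k i, B' k →ₐ[A] A' k ⊗[A] B' i := fun k i ↦
    { (σ₀ k i).hom with
      commutes' := fun a ↦ by
        have h1 := congr(($(hσs k i)).hom ((f k).hom a))
        exact h1 }
  -- compatibility of `τ` with maps out of `B' i ⊗ A' j`
  have hτw : ∀ {i j : ι} {C : Alg κ} (b : B' i ⟶ C) (c : A' j ⟶ C) (h : f i ≫ s' i ≫ b = f j ≫ c)
      (w : Cc i j ⟶ C), cl i j ≫ w = b → cr i j ≫ w = c → τ₀ i j ≫ w = D.tr b j c h := by
    intro i j C b c h w h1 h2
    exact D.tr_comp' _ _ _ _ _ h1 h2 _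
  have hσw : ∀ {i k : ι} {C : Alg κ} (b : B' i ⟶ C) (c : A' k ⟶ C) (h : f i ≫ s' i ≫ b = f k ≫ c)
      (w : Ee k i ⟶ C), er k i ≫ w = b → el k i ≫ w = c → σ₀ k i ≫ w = D.tr b k c h := by
    intro i k C b c h w h1 h2
    exact D.tr_comp' _ _ _ _ _ h1 h2 _
  have hbij : ∀ k, Function.Bijective
      (descPhi (A := A) (A' := fun i ↦ (A' i : Type)) (B' := fun i ↦ (B' i : Type)) τ k) := by
    intro k
    apply descPhi_bijective (A := A) (A' := fun i ↦ (A' i : Type)) (B' := fun i ↦ (B' i : Type)) τ k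
      (σ k)
    · -- E1
      let R : Ee k k ⟶ B' k := CommAlgCat.ofHom ((rho A (fun i ↦ (A' i : Type))
        (fun i ↦ (B' i : Type)) k).restrictScalars κ)
      have h1 : er k k ≫ R = 𝟙 _ := by
        ext x
        change rho A (fun i ↦ (A' i : Type)) (fun i ↦ (B' i : Type)) k (1 ⊗ₜ x) = x
        simp [rho]
      have h2 : el k k ≫ R = s' k := by
        ext x
        change rho A (fun i ↦ (A' i : Type)) (fun i ↦ (B' i : Type)) k (x ⊗ₜ 1) = _
        simp [rho]; rfl
      have h3 := hσw (𝟙 _) (s' k ≫ 𝟙 _) rfl R h1 (by rw [h2, Category.comp_id])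
      rw [D.tr_self] at h3
      intro b
      exact congr(($h3).hom b)
    · -- E2
      intro i y
      let W₀ : B' i ⊗[A] A' k →ₐ[A] A' k ⊗[A] B' i :=
        Algebra.TensorProduct.lift Algebra.TensorProduct.includeRight
          Algebra.TensorProduct.includeLeft (fun _ _ ↦ .all _ _)
      let W : Cc i k ⟶ Ee k i := CommAlgCat.ofHom (W₀.restrictScalars κ)
      have h1 : cl i k ≫ W = er k i := by
        ext x
        change W₀ (x ⊗ₜ 1) = 1 ⊗ₜ x
        simp [W₀]
      have h2 : cr i k ≫ W = el k i := by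
        ext x
        change W₀ (1 ⊗ₜ x) = x ⊗ₜ 1
        simp [W₀]
      have h3 : τ₀ i k ≫ W = σ₀ k i := hτw _ _ _ W h1 h2
      have h4 : ∀ b : B' k, W₀ (τ i k b) = σ k i b := fun b ↦ congr(($h3).hom b)
      have h5 : ∀ a : A' k, σ k i (algebraMap (A' k) (B' k) a) = a ⊗ₜ 1 := fun a ↦
        congr(($(hσs k i)).hom a)
      induction y using TensorProduct.induction_on with
      | zero => simp
      | add x y hx hy => simp only [map_add, hx, hy]
      | tmul a b =>
        have h6 : ∀ z : B' i ⊗[A] A' k, contr A (fun i ↦ (A' i : Type)) (fun i ↦ (B' i : Type)) k i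
            (a ⊗ₜ z) = (a ⊗ₜ 1) * W₀ z := fun z ↦ by
          rw [contr, Algebra.TensorProduct.lift_tmul]; rfl
        rw [Algebra.TensorProduct.map_tmul, AlgHom.id_apply, h6, h4]
        have h7 : rho A (fun i ↦ (A' i : Type)) (fun i ↦ (B' i : Type)) k (a ⊗ₜ b) =
            algebraMap (A' k) (B' k) a * b := by
          rw [rho, Algebra.TensorProduct.lift_tmul]; rfl
        rw [h7, map_mul, h5]
    · -- E3
      intro i j b
      let Z : Alg κ := CommAlgCat.of κ (A' k ⊗[A] (B' i ⊗[A] A' j))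
      let zl : A' k ⟶ Z := CommAlgCat.ofHom
        (Algebra.TensorProduct.includeLeft : A' k →ₐ[κ] A' k ⊗[A] (B' i ⊗[A] A' j))
      let zr : Cc i j ⟶ Z := CommAlgCat.ofHom
        ((Algebra.TensorProduct.includeRight :
          (B' i ⊗[A] A' j) →ₐ[A] A' k ⊗[A] (B' i ⊗[A] A' j)).restrictScalars κ)
      let M : Ee k j ⟶ Z := CommAlgCat.ofHom
        ((Algebra.TensorProduct.map (AlgHom.id A (A' k)) (τ i j)).restrictScalars κ)
      let N : Ee k i ⟶ Z := CommAlgCat.ofHom
        ((Algebra.TensorProduct.map (AlgHom.id A (A' k))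
          (Algebra.TensorProduct.includeLeft : B' i →ₐ[A] B' i ⊗[A] A' j)).restrictScalars κ)
      have hM1 : er k j ≫ M = τ₀ i j ≫ zr := by
        ext x
        change Algebra.TensorProduct.map (AlgHom.id A (A' k)) (τ i j) (1 ⊗ₜ x) = 1 ⊗ₜ (τ i j x)
        simp
      have hM2 : el k j ≫ M = zl := by
        ext x
        change Algebra.TensorProduct.map (AlgHom.id A (A' k)) (τ i j) (x ⊗ₜ 1) = x ⊗ₜ 1
        simp
      have hN1 : er k i ≫ N = cl i j ≫ zr := by
        ext x
        change Algebra.TensorProduct.map (AlgHom.id A (A' k))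
          (Algebra.TensorProduct.includeLeft : B' i →ₐ[A] B' i ⊗[A] A' j) (1 ⊗ₜ x) =
            1 ⊗ₜ (x ⊗ₜ 1)
        simp
      have hN2 : el k i ≫ N = zl := by
        ext x
        change Algebra.TensorProduct.map (AlgHom.id A (A' k))
          (Algebra.TensorProduct.includeLeft : B' i →ₐ[A] B' i ⊗[A] A' j) (x ⊗ₜ 1) =
            x ⊗ₜ (1 ⊗ₜ 1)
        simp [Algebra.TensorProduct.one_def]
      have hZ : f k ≫ zl = f i ≫ s' i ≫ cl i j ≫ zr := by
        rw [← hN1, ← hN2, ← Category.assoc, (hE k i).w]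
        simp only [Category.assoc]
      have hZ' : f i ≫ s' i ≫ cl i j ≫ zr = f j ≫ cr i j ≫ zr := by
        have := (hC i j).w
        rw [← Category.assoc (f j), ← this]
        simp only [Category.assoc]
      have e1 : σ₀ k j ≫ M = D.tr (τ₀ i j ≫ zr) k zl (by
          rw [← Category.assoc (s' j), hτs, ← hZ', hZ]) := hσw _ _ _ M hM1 hM2
      have e2 : τ₀ i j ≫ zr = D.tr (cl i j ≫ zr) j (cr i j ≫ zr) hZ' := hτw _ _ _ zr rfl rfl
      have e3 : σ₀ k i ≫ N = D.tr (cl i j ≫ zr) k zl hZ.symm := hσw _ _ _ N hN1 hN2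
      have e4 : σ₀ k j ≫ M = σ₀ k i ≫ N := by
        rw [e1, e3]
        rw [D.tr_congr e2 k (rfl : zl = zl) _ (by rw [← e2, ← Category.assoc (s' j), hτs, ← hZ', hZ])]
        exact D.tr_tr _ _ _ _ _ _ _ _
      exact congr(($e4).hom b)
  -- the descended algebra
  let B₀ := descAlg (A := A) (A' := fun i ↦ (A' i : Type)) (B' := fun i ↦ (B' i : Type)) τ
  let B : Alg κ := CommAlgCat.of κ B₀
  let s : A ⟶ B := CommAlgCat.ofHom (IsScalarTower.toAlgHom κ A B₀)
  let e : ∀ i, B ⟶ B' i := fun i ↦ CommAlgCat.ofHom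
    (((Pi.evalAlgHom A (fun i ↦ (B' i : Type)) i).comp B₀.val).restrictScalars κ)
  refine ⟨B, s, e, fun k ↦ ?_, ?_⟩
  · have h1 := isPushout_tensor κ A (A' k) B₀
    let ψ : (A' k ⊗[A] B₀) ≃ₐ[κ] B' k :=
      AlgEquiv.ofBijective ((descPhi (A := A) (A' := fun i ↦ (A' i : Type))
        (B' := fun i ↦ (B' i : Type)) τ k).restrictScalars κ) (hbij k)
    refine h1.of_iso (Iso.refl _) (Iso.refl _) (Iso.refl _) (CommAlgCat.isoMk ψ) ?_ ?_ ?_ ?_
    · rfl
    · rfl
    · ext a
      change descPhi (A := A) (A' := fun i ↦ (A' i : Type))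
        (B' := fun i ↦ (B' i : Type)) τ k (a ⊗ₜ 1) = (s' k).hom a
      rw [descPhi_tmul]
      simp; rfl
    · ext b
      change descPhi (A := A) (A' := fun i ↦ (A' i : Type))
        (B' := fun i ↦ (B' i : Type)) τ k (1 ⊗ₜ b) = (b : ∀ i, B' i) k
      rw [descPhi_tmul]
      simp
  · intro i C b j c h
    have hh : ∀ a : A, b.hom (algebraMap A (B' i) a) = c.hom (algebraMap A (A' j) a) :=
      fun a ↦ congr(($h).hom a)
    let w : Cc i j ⟶ C := CommAlgCat.ofHom (tensorDesc κ A (B' i) (A' j) b.hom c.hom hh)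
    have hw1 : cl i j ≫ w = b := by
      ext x
      exact (tensorDesc_tmul κ A (B' i) (A' j) b.hom c.hom hh x 1).trans (by simp)
    have hw2 : cr i j ≫ w = c := by
      ext x
      exact (tensorDesc_tmul κ A (B' i) (A' j) b.hom c.hom hh 1 x).trans (by simp)
    have h1 := hτw b c h w hw1 hw2
    rw [← h1, ← hw1]
    have h2 : e i ≫ cl i j = e j ≫ τ₀ i j := by
      ext x
      exact (mem_descAlg (A := A) (A' := fun i ↦ (A' i : Type)) (B' := fun i ↦ (B' i : Type)) τ
        x.1).mp x.2 i j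
    rw [← Category.assoc, h2, Category.assoc]

end EffectiveDescent

section MoreCovers

variable {A : Alg κ} {ι : Type} {A' : ι → Alg κ} {f : ∀ i, A ⟶ A' i}

/-- A finite product of pushouts is a tensor product. -/
lemma exists_pi_equiv [Finite ι] {C : Alg κ} {g : A ⟶ C} {C' : ι → Alg κ} {f' : ∀ i, C ⟶ C' i}
    {g' : ∀ i, A' i ⟶ C' i} (h : ∀ i, IsPushout (f i) g (g' i) (f' i)) :
    letI := algOf g
    letI := fun i ↦ algOf (f i)
    ∃ e : (C ⊗[A] (∀ i, A' i)) ≃+* (∀ i, C' i), (∀ c i, e (c ⊗ₜ 1) i = (f' i).hom c) ∧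
      ∀ a i, e (1 ⊗ₜ a) i = (g' i).hom (a i) := by
  classical
  have := Fintype.ofFinite ι
  letI := algOf g
  letI := fun i ↦ algOf (f i)
  have H : ∀ i, ∃ e : (C ⊗[A] A' i) ≃+* C' i, (∀ c, e (c ⊗ₜ 1) = (f' i).hom c) ∧
    ∀ b, e (1 ⊗ₜ b) = (g' i).hom b := fun i ↦ exists_tensor_equiv' (h i)
  choose e he1 he2 using H
  refine ⟨(Algebra.TensorProduct.piRight A A C (fun i ↦ (A' i : Type))).toRingEquiv.trans
    (RingEquiv.piCongrRight e), fun c i ↦ ?_, fun a i ↦ ?_⟩
  · exact he1 i c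
  · exact he2 i (a i)

/-- The base change of an fpqc cover is an fpqc cover. -/
lemma IsFpqcCover.baseChange (hf : IsFpqcCover A' f) {C : Alg κ} (g : A ⟶ C) {C' : ι → Alg κ}
    {f' : ∀ i, C ⟶ C' i} {g' : ∀ i, A' i ⟶ C' i} (h : ∀ i, IsPushout (f i) g (g' i) (f' i)) :
    IsFpqcCover C' f' where
  finite := hf.finite
  flat i := flat_of_isPushout (h i) (hf.flat i)
  surj P := by
    have := hf.finite
    letI := algOf g
    letI := fun i ↦ algOf (f i)
    have : ∀ i, Module.Flat A (A' i) := hf.flat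
    obtain ⟨e, he1, he2⟩ := exists_pi_equiv h
    have := ff_pi (A := A) (fun i ↦ (A' i : Type)) hf.surj
    obtain ⟨Q, hQ⟩ := PrimeSpectrum.comap_surjective_of_faithfullyFlat
      (A := C) (B := C ⊗[A] (∀ i, A' i)) P
    obtain ⟨i, R, hR⟩ := PrimeSpectrum.exists_comap_evalRingHom_eq
      (PrimeSpectrum.comap e.symm.toRingHom Q)
    refine ⟨i, R, ?_⟩
    have h1 : (f' i).hom.toRingHom = (Pi.evalRingHom (fun i ↦ (C' i : Type)) i).comp
        (e.toRingHom.comp (algebraMap C (C ⊗[A] (∀ i, A' i)))) := by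
      ext c
      exact (he1 c i).symm
    rw [h1, PrimeSpectrum.comap_comp_apply, hR, PrimeSpectrum.comap_comp_apply,
      ← PrimeSpectrum.comap_comp_apply e.toRingHom]
    have h2 : e.symm.toRingHom.comp e.toRingHom = RingHom.id _ :=
      RingHom.ext fun x ↦ e.symm_apply_apply x
    rw [h2]
    simpa using hQ

/-- The covering given by a single faithfully flat map. -/
lemma IsFpqcCover.single {A B : Alg κ} (f : A ⟶ B) (hf : f.hom.toRingHom.FaithfullyFlat) :
    IsFpqcCover (fun _ : Unit ↦ B) (fun _ ↦ f) where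
  finite := inferInstance
  flat _ := hf.flat
  surj P := by
    obtain ⟨Q, hQ⟩ := (RingHom.FaithfullyFlat.iff_flat_and_comap_surjective.mp hf).2 P
    exact ⟨(), Q, hQ⟩

lemma flat_pi_map {ι : Type} [Finite ι] (X Y : ι → Type) [∀ i, CommRing (X i)]
    [∀ i, CommRing (Y i)] (φ : ∀ i, X i →+* Y i) (h : ∀ i, (φ i).Flat) :
    (RingHom.pi fun i ↦ (φ i).comp (Pi.evalRingHom X i)).Flat := by
  classical
  letI : ∀ i, Algebra (∀ j, X j) (X i) := fun i ↦ (Pi.evalRingHom X i).toAlgebra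
  have h1 : ∀ i, Module.Flat (∀ j, X j) (X i) := by
    intro i
    refine Module.Flat.of_retract (M := ∀ j, X j)
      { toFun := Pi.single i
        map_add' := fun x y ↦ Pi.single_add i x y
        map_smul' := fun r x ↦ ?_ }
      { toFun := fun r ↦ r i
        map_add' := fun _ _ ↦ rfl
        map_smul' := fun _ _ ↦ rfl } ?_
    · change Pi.single i (r i * x) = r * Pi.single i x
      funext j
      by_cases hj : j = i
      · subst hj; simp
      · simp [Pi.single_eq_of_ne hj]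
    · ext x
      change (Pi.single i x : ∀ j, X j) i = x
      simp
  letI : ∀ i, Algebra (X i) (Y i) := fun i ↦ (φ i).toAlgebra
  letI : ∀ i, Algebra (∀ j, X j) (Y i) := fun i ↦ ((φ i).comp (Pi.evalRingHom X i)).toAlgebra
  have : ∀ i, IsScalarTower (∀ j, X j) (X i) (Y i) := fun i ↦
    IsScalarTower.of_algebraMap_eq' rfl
  have h2 : ∀ i, Module.Flat (X i) (Y i) := h
  have h3 : ∀ i, Module.Flat (∀ j, X j) (Y i) := fun i ↦ Module.Flat.trans _ (X i) _
  exact flat_pi (A := ∀ j, X j) Y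

/-- A morphism is faithfully flat if its base changes along a cover are. -/
lemma IsFpqcCover.ff_descent (hf : IsFpqcCover A' f) {B : Alg κ} {s : A ⟶ B} {B' : ι → Alg κ}
    {s' : ∀ i, A' i ⟶ B' i} {e : ∀ i, B ⟶ B' i} (h : ∀ i, IsPushout (f i) s (s' i) (e i))
    (hs : ∀ i, (s' i).hom.toRingHom.FaithfullyFlat) : s.hom.toRingHom.FaithfullyFlat := by
  rw [RingHom.FaithfullyFlat.iff_flat_and_comap_surjective]
  constructor
  · have := hf.finite
    letI := algOf s
    letI := fun i ↦ algOf (f i)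
    have : ∀ i, Module.Flat A (A' i) := hf.flat
    have := ff_pi (A := A) (fun i ↦ (A' i : Type)) hf.surj
    obtain ⟨E, hE1, hE2⟩ := exists_pi_equiv h
    have h1 := flat_pi_map (fun i ↦ (A' i : Type)) (fun i ↦ (B' i : Type))
      (fun i ↦ (s' i).hom.toRingHom) (fun i ↦ (hs i).flat)
    have h2 : (algebraMap (∀ i, A' i) ((∀ i, A' i) ⊗[A] B)).Flat := by
      have h3 : algebraMap (∀ i, A' i) ((∀ i, A' i) ⊗[A] B) =
          ((E.symm.trans (Algebra.TensorProduct.comm A B (∀ i, A' i)).toRingEquiv).toRingHom).comp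
            (RingHom.pi fun i ↦ ((s' i).hom.toRingHom).comp
              (Pi.evalRingHom (fun i ↦ (A' i : Type)) i)) := by
        ext t
        have h4 : E (1 ⊗ₜ t) = (RingHom.pi fun i ↦ ((s' i).hom.toRingHom).comp
              (Pi.evalRingHom (fun i ↦ (A' i : Type)) i)) t := by
          funext i
          exact hE2 t i
        rw [RingHom.comp_apply, ← h4]
        change t ⊗ₜ 1 = (Algebra.TensorProduct.comm A B (∀ i, A' i)) (E.symm (E (1 ⊗ₜ t)))
        rw [E.symm_apply_apply]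
        simp
      rw [h3]
      exact h1.comp (RingHom.Flat.of_bijective (RingEquiv.bijective _))
    have h5 : Module.Flat (∀ i, A' i) ((∀ i, A' i) ⊗[A] B) := RingHom.flat_algebraMap_iff.mp h2
    exact Module.Flat.of_flat_tensorProduct A B (∀ i, A' i)
  · intro P
    obtain ⟨i, Q, rfl⟩ := hf.surj P
    obtain ⟨R, rfl⟩ := (RingHom.FaithfullyFlat.iff_flat_and_comap_surjective.mp (hs i)).2 Q
    refine ⟨PrimeSpectrum.comap (e i).hom.toRingHom R, ?_⟩
    rw [← PrimeSpectrum.comap_comp_apply, ← PrimeSpectrum.comap_comp_apply]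
    have := (h i).w
    have h2 : (e i).hom.toRingHom.comp s.hom.toRingHom =
        (s' i).hom.toRingHom.comp (f i).hom.toRingHom := by
      ext x
      exact congr(($((h i).w)).hom x).symm
    rw [h2]

end MoreCovers

end Pool.Agent.H27
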