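import Mathlib

namespace Pool.Agent.H27.H1

/-- The integral closure of `k[S]` in `K`. -/
def IC (k : Type) [Field k] {K : Type} [Field K] [Algebra k K] (S : Set K) : Subalgebra k K :=
  (integralClosure (Algebra.adjoin k S) K).restrictScalars k

section

variable (k : Type) [Field k] {K : Type} [Field K] [Algebra k K]

theorem mem_IC_iff {S : Set K} {y : K} : y ∈ IC k S ↔ IsIntegral (Algebra.adjoin k S) y := Iff.rfl

theorem IC_mono {S T : Set K} (h : S ⊆ T) : IC k S ≤ IC k T := by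
  intro y hy
  rw [mem_IC_iff] at hy ⊢
  let f : Algebra.adjoin k S →ₐ[k] Algebra.adjoin k T := Subalgebra.inclusion (Algebra.adjoin_mono h)
  obtain ⟨p, hp, hp'⟩ := hy
  refine ⟨p.map f.toRingHom, hp.map _, ?_⟩
  rw [Polynomial.eval₂_map]
  exact hp'

theorem mem_IC {S : Set K} {x : K} (h : x ∈ S) : x ∈ IC k S := by
  rw [mem_IC_iff]
  exact isIntegral_algebraMap (R := Algebra.adjoin k S) (A := K)
    (x := ⟨x, Algebra.subset_adjoin h⟩)

theorem mem_IC_of_integral {S : Set K} {A : Type*} [CommRing A] (f : A →+* K)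
    (hf : ∀ a, f a ∈ IC k S) {y : K} (hy : f.IsIntegralElem y) : y ∈ IC k S := by
  rw [mem_IC_iff]
  apply isIntegral_trans (A := integralClosure (Algebra.adjoin k S) K)
  let g : A →+* integralClosure (Algebra.adjoin k S) K := f.codRestrict _ hf
  obtain ⟨p, hp, hp'⟩ := hy
  refine ⟨p.map g, hp.map _, ?_⟩
  rw [Polynomial.eval₂_map]
  exact hp'

theorem scalar_of_mem_inter [IsAlgClosed k] {x y : K} (h₀ : y ∈ IC k {x}) (h₁ : y ∈ IC k {x⁻¹}) :
    ∃ c : k, y = algebraMap k K c := by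
  let R : Subring K := (algebraMap k K).range
  have hR : IsIntegrallyClosedIn R K := by
    rw [isIntegrallyClosedIn_iff]
    refine ⟨Subtype.val_injective, ?_⟩
    intro z hz
    have h1 : IsIntegral k z := by
      obtain ⟨p, hp, hp'⟩ := hz
      have hs : Function.Surjective (algebraMap k K).rangeRestrict := RingHom.rangeRestrict_surjective _
      have hb : Function.Bijective (algebraMap k K).rangeRestrict :=
        ⟨fun a b hab => (algebraMap k K).injective (congrArg Subtype.val hab), hs⟩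
      let e : k ≃+* R := RingEquiv.ofBijective _ hb
      refine ⟨p.map e.symm.toRingHom, hp.map _, ?_⟩
      rw [Polynomial.eval₂_map]
      have : (algebraMap k K).comp e.symm.toRingHom = algebraMap R K := by
        ext r
        obtain ⟨c, rfl⟩ := hs r
        change algebraMap k K (e.symm (e c)) = _
        rw [e.symm_apply_apply]
        rfl
      rw [this]
      exact hp'
    have h2 : z ∈ (⊥ : IntermediateField k K) := by
      have : IsAlgebraic k z := h1.isAlgebraic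
      have h3 := IntermediateField.eq_bot_of_isAlgClosed_of_isAlgebraic (algebraicClosure k K)
      rw [← h3]
      exact (mem_algebraicClosure_iff).mpr this
    obtain ⟨c, hc⟩ := IntermediateField.mem_bot.mp h2
    exact ⟨⟨z, c, hc⟩, rfl⟩
  by_contra hcon
  have hy : y ∉ R := by
    rintro ⟨c, hc⟩
    exact hcon ⟨c, hc.symm⟩
  obtain ⟨V, hV, hyV⟩ := R.exists_le_valuationSubring_of_isIntegrallyClosedIn hy
  have key : ∀ u : K, u ∈ V → y ∈ IC k {u} → y ∈ V := by
    intro u hu hyu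
    have h1 : ∀ a ∈ Algebra.adjoin k {u}, a ∈ V := by
      intro a ha
      induction ha using Algebra.adjoin_induction with
      | mem z hz => rw [Set.mem_singleton_iff.mp hz]; exact hu
      | algebraMap c => exact hV ⟨c, rfl⟩
      | add a b _ _ h1 h2 => exact V.add_mem _ _ h1 h2
      | mul a b _ _ h1 h2 => exact V.mul_mem _ _ h1 h2
    have h2 : IsIntegral V y := by
      obtain ⟨p, hp, hp'⟩ := hyu
      let g : Algebra.adjoin k {u} →+* V := (Subalgebra.val _).toRingHom.codRestrict V.toSubring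
        (fun a => h1 a a.2)
      refine ⟨p.map g, hp.map _, ?_⟩
      rw [Polynomial.eval₂_map]
      exact hp'
    obtain ⟨v, hv⟩ := IsIntegrallyClosed.isIntegral_iff.mp h2
    rw [← hv]
    exact v.2
  rcases V.mem_or_inv_mem x with h | h
  · exact hyV (key x h h₀)
  · exact hyV (key x⁻¹ h h₁)

theorem clear_abs {A B K : Type*} [CommRing A] [CommRing B] [CommRing K] [Algebra A B] [Algebra B K]
    [Algebra A K] [IsScalarTower A B K] (a : A) [IsLocalization.Away a B] (y : K)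
    (hy : IsIntegral B y) : ∃ n : ℕ, IsIntegral A (algebraMap A K a ^ n * y) := by
  obtain ⟨⟨_, n, rfl⟩, hm⟩ := IsIntegral.exists_multiple_integral_of_isLocalization
    (Submonoid.powers a) y hy
  refine ⟨n, ?_⟩
  have e1 : (⟨(fun m : ℕ => a ^ m) n, n, rfl⟩ : Submonoid.powers a) • y =
      algebraMap A K a ^ n * y := by
    rw [Submonoid.smul_def, Algebra.smul_def]
    simp
  rwa [e1] at hm

theorem clear_abs2 {A B K : Type*} [CommRing A] [CommRing B] [CommRing K] (f : A →+* B) (g : B →+* K)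
    (hf : Function.Injective f) (a : A) (ha : IsUnit (f a)) (hs : ∀ b : B, ∃ n a', f a' = f a ^ n * b)
    (y : K) (hy : g.IsIntegralElem y) : ∃ n : ℕ, (g.comp f).IsIntegralElem (g (f a) ^ n * y) := by
  let _ : Algebra A B := f.toAlgebra
  let _ : Algebra B K := g.toAlgebra
  let _ : Algebra A K := (g.comp f).toAlgebra
  have : IsScalarTower A B K := IsScalarTower.of_algebraMap_eq' rfl
  have : IsLocalization.Away a B := by
    refine ⟨?_, ?_, ?_⟩
    · rintro ⟨_, n, rfl⟩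
      simp only [map_pow]
      exact ha.pow n
    · intro z
      obtain ⟨n, a', h⟩ := hs z
      refine ⟨(a', ⟨_, n, rfl⟩), ?_⟩
      simp only [map_pow]
      rw [RingHom.algebraMap_toAlgebra, h, mul_comm]
    · intro a b hab
      exact ⟨1, by rw [hf hab]⟩
  exact clear_abs a y hy

theorem clear_denom {x : K} (hx : x ≠ 0) {y : K} (hy : y ∈ IC k {x, x⁻¹}) :
    ∃ n : ℕ, x ^ n * y ∈ IC k {x} := by
  have hle : Algebra.adjoin k {x} ≤ Algebra.adjoin k {x, x⁻¹} := Algebra.adjoin_mono (by simp)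
  have hx1 : x ∈ Algebra.adjoin k {x} := Algebra.subset_adjoin (by simp)
  have hx2 : x ∈ Algebra.adjoin k {x, x⁻¹} := Algebra.subset_adjoin (by simp)
  obtain ⟨n, hn⟩ := clear_abs2 (A := Algebra.adjoin k {x}) (B := Algebra.adjoin k {x, x⁻¹}) (K := K)
    (Subalgebra.inclusion hle).toRingHom (Subalgebra.val (Algebra.adjoin k {x, x⁻¹})).toRingHom
    (Subalgebra.inclusion_injective hle) ⟨x, hx1⟩ (by
      rw [isUnit_iff_exists_inv]
      refine ⟨⟨x⁻¹, Algebra.subset_adjoin (by simp)⟩, ?_⟩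
      apply Subtype.ext
      simp [hx]) (by
      rintro ⟨z, hz⟩
      have key : ∃ n : ℕ, x ^ n * z ∈ Algebra.adjoin k {x} := by
        induction hz using Algebra.adjoin_induction with
        | mem z hz =>
          rcases hz with rfl | hz
          · exact ⟨0, by simp⟩
          · rw [Set.mem_singleton_iff.mp hz]
            exact ⟨1, by rw [pow_one, mul_inv_cancel₀ hx]; exact one_mem _⟩
        | algebraMap c => exact ⟨0, by simp⟩
        | add a b _ _ h1 h2 =>
          obtain ⟨n, hn⟩ := h1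
          obtain ⟨m, hm⟩ := h2
          refine ⟨n + m, ?_⟩
          have : x ^ (n + m) * (a + b) = x ^ m * (x ^ n * a) + x ^ n * (x ^ m * b) := by ring
          rw [this]
          exact add_mem (mul_mem (pow_mem hx1 _) hn) (mul_mem (pow_mem hx1 _) hm)
        | mul a b _ _ h1 h2 =>
          obtain ⟨n, hn⟩ := h1
          obtain ⟨m, hm⟩ := h2
          refine ⟨n + m, ?_⟩
          have : x ^ (n + m) * (a * b) = (x ^ n * a) * (x ^ m * b) := by ring
          rw [this]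
          exact mul_mem hn hm
      obtain ⟨n, hn⟩ := key
      refine ⟨n, ⟨x ^ n * z, hn⟩, ?_⟩
      apply Subtype.ext
      simp) y hy
  exact ⟨n, hn⟩

end

section levels

variable {k O : Type*} [Field k] [CommRing O] [Algebra k O]

lemma exists_uniform {X : O} {O₀ : Subalgebra k O} (hX : X ∈ O₀) (h : ∀ y : O, ∃ n : ℕ, X ^ n * y ∈ O₀)
    {F : Set O} (hF : F.Finite) : ∃ N : ℕ, ∀ y ∈ F, ∀ n, N ≤ n → X ^ n * y ∈ O₀ := by
  induction F, hF using Set.Finite.induction_on with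
  | empty => exact ⟨0, by simp⟩
  | @insert a s _ _ ih =>
    obtain ⟨N, hN⟩ := ih
    obtain ⟨n, hn⟩ := h a
    refine ⟨max N n, ?_⟩
    intro y hy m hm
    rcases hy with rfl | hy
    · obtain ⟨d, rfl⟩ : ∃ d, m = d + n := ⟨m - n, by omega⟩
      rw [pow_add, mul_assoc]
      exact O₀.mul_mem (O₀.pow_mem hX _) hn
    · exact hN y hy m (by omega)

lemma adjoin_clear {X : O} (P : Subalgebra k O) (hX : X ∈ P) (S : Set O)
    (hS : ∀ s ∈ S, ∃ n : ℕ, X ^ n * s ∈ P) {p : O} (hp : p ∈ Algebra.adjoin k S) :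
    ∃ n : ℕ, X ^ n * p ∈ P := by
  induction hp using Algebra.adjoin_induction with
  | mem z hz => exact hS z hz
  | algebraMap c => exact ⟨0, by simp⟩
  | add a b _ _ h1 h2 =>
    obtain ⟨n, hn⟩ := h1
    obtain ⟨m, hm⟩ := h2
    refine ⟨n + m, ?_⟩
    have : X ^ (n + m) * (a + b) = X ^ m * (X ^ n * a) + X ^ n * (X ^ m * b) := by ring
    rw [this]
    exact add_mem (mul_mem (pow_mem hX _) hn) (mul_mem (pow_mem hX _) hm)
  | mul a b _ _ h1 h2 =>
    obtain ⟨n, hn⟩ := h1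
    obtain ⟨m, hm⟩ := h2
    refine ⟨n + m, ?_⟩
    have : X ^ (n + m) * (a * b) = (X ^ n * a) * (X ^ m * b) := by ring
    rw [this]
    exact mul_mem hn hm

lemma mul_mem_spanX {X : O} {G : Set O} (i : ℕ) (a : O)
    (h : a ∈ Submodule.span k {p | ∃ (n : ℕ), ∃ g ∈ G, p = X ^ n * g}) :
    X ^ i * a ∈ Submodule.span k {p | ∃ (n : ℕ), ∃ g ∈ G, p = X ^ n * g} := by
  induction h using Submodule.span_induction with
  | mem z hz =>
    obtain ⟨n, g, hg, rfl⟩ := hz
    exact Submodule.subset_span ⟨i + n, g, hg, by ring⟩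
  | zero => rw [mul_zero]; exact Submodule.zero_mem _
  | add a b _ _ h1 h2 => rw [mul_add]; exact Submodule.add_mem _ h1 h2
  | smul c a _ h => rw [mul_smul_comm]; exact Submodule.smul_mem _ _ h

lemma levels {X Y : O} (hXY : X * Y = 1) {O₀ O₁ : Subalgebra k O} (hX : X ∈ O₀) (hY : Y ∈ O₁)
    (h₀ : ∀ y : O, ∃ n : ℕ, X ^ n * y ∈ O₀) (h₁ : ∀ y : O, ∃ n : ℕ, Y ^ n * y ∈ O₁)
    (hint : ∀ y ∈ O₀, IsIntegral (Algebra.adjoin k {X}) y)
    {F₀ F₁ : Set O} (hF₀ : F₀.Finite) (hF₁ : F₁.Finite) (hF₀' : F₀ ⊆ O₀) (hF₁' : F₁ ⊆ O₁) :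
    ∃ P₀ P₁ P₂ : Subalgebra k O, P₀ ≤ O₀ ∧ P₁ ≤ O₁ ∧ P₀ ≤ P₂ ∧ P₁ ≤ P₂ ∧ X ∈ P₀ ∧ Y ∈ P₁ ∧
      F₀ ⊆ P₀ ∧ F₁ ⊆ P₁ ∧ (∀ p ∈ P₂, ∃ n : ℕ, X ^ n * p ∈ P₀) ∧ (∀ p ∈ P₂, ∃ n : ℕ, Y ^ n * p ∈ P₁) ∧
      ∃ G : Set O, G.Finite ∧ G ⊆ P₀ ∧
        Subalgebra.toSubmodule P₀ ≤ Submodule.span k {p | ∃ (n : ℕ), ∃ g ∈ G, p = X ^ n * g} := by
  obtain ⟨N, hN⟩ := exists_uniform hX h₀ hF₁
  obtain ⟨N', hN'⟩ := exists_uniform hY h₁ hF₀
  let t₀ : Set O := F₀ ∪ (fun y => X ^ N * y) '' F₁
  let t₁ : Set O := F₁ ∪ (fun y => Y ^ N' * y) '' F₀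
  have ht₀ : t₀.Finite := hF₀.union (hF₁.image _)
  have ht₀' : ∀ y ∈ t₀, y ∈ O₀ := by
    rintro y (hy | ⟨y, hy, rfl⟩)
    · exact hF₀' hy
    · exact hN y hy N le_rfl
  have ht₁' : ∀ y ∈ t₁, y ∈ O₁ := by
    rintro y (hy | ⟨y, hy, rfl⟩)
    · exact hF₁' hy
    · exact hN' y hy N' le_rfl
  let P₀ := Algebra.adjoin k ({X} ∪ t₀)
  let P₁ := Algebra.adjoin k ({Y} ∪ t₁)
  let P₂ := Algebra.adjoin k ({X, Y} ∪ (F₀ ∪ F₁))
  have hX0 : X ∈ P₀ := Algebra.subset_adjoin (by simp)
  have hY1 : Y ∈ P₁ := Algebra.subset_adjoin (by simp)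
  have hX2 : X ∈ P₂ := Algebra.subset_adjoin (by simp)
  have hY2 : Y ∈ P₂ := Algebra.subset_adjoin (by simp)
  have hF02 : F₀ ⊆ P₂ := fun y hy => Algebra.subset_adjoin (Or.inr (Or.inl hy))
  have hF12 : F₁ ⊆ P₂ := fun y hy => Algebra.subset_adjoin (Or.inr (Or.inr hy))
  have hF00 : F₀ ⊆ P₀ := fun y hy => Algebra.subset_adjoin (Or.inr (Or.inl hy))
  have hF11 : F₁ ⊆ P₁ := fun y hy => Algebra.subset_adjoin (Or.inr (Or.inl hy))
  have hle0 : P₀ ≤ O₀ := by
    apply Algebra.adjoin_le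
    rintro y (hy | hy)
    · rw [Set.mem_singleton_iff.mp hy]; exact hX
    · exact ht₀' y hy
  have hle1 : P₁ ≤ O₁ := by
    apply Algebra.adjoin_le
    rintro y (hy | hy)
    · rw [Set.mem_singleton_iff.mp hy]; exact hY
    · exact ht₁' y hy
  refine ⟨P₀, P₁, P₂, hle0, hle1, ?_, ?_, hX0, hY1, hF00, hF11, ?_, ?_, ?_⟩
  · apply Algebra.adjoin_le
    rintro y (hy | hy | ⟨y, hy, rfl⟩)
    · rw [Set.mem_singleton_iff.mp hy]; exact hX2
    · exact hF02 hy
    · exact P₂.mul_mem (P₂.pow_mem hX2 _) (hF12 hy)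
  · apply Algebra.adjoin_le
    rintro y (hy | hy | ⟨y, hy, rfl⟩)
    · rw [Set.mem_singleton_iff.mp hy]; exact hY2
    · exact hF12 hy
    · exact P₂.mul_mem (P₂.pow_mem hY2 _) (hF02 hy)
  · intro p hp
    refine adjoin_clear P₀ hX0 _ ?_ hp
    rintro s ((rfl | hs) | hs | hs)
    · exact ⟨0, by simp [hX0]⟩
    · rw [Set.mem_singleton_iff.mp hs]
      exact ⟨1, by rw [pow_one, hXY]; exact one_mem _⟩
    · exact ⟨0, by simpa using hF00 hs⟩
    · exact ⟨N, Algebra.subset_adjoin (Or.inr (Or.inr ⟨s, hs, rfl⟩))⟩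
  · intro p hp
    refine adjoin_clear P₁ hY1 _ ?_ hp
    rintro s ((rfl | hs) | hs | hs)
    · exact ⟨1, by rw [pow_one, mul_comm, hXY]; exact one_mem _⟩
    · rw [Set.mem_singleton_iff.mp hs]
      exact ⟨0, by simp [hY1]⟩
    · exact ⟨N', Algebra.subset_adjoin (Or.inr (Or.inr ⟨s, hs, rfl⟩))⟩
    · exact ⟨0, by simpa using hF11 hs⟩
  · have hfg := fg_adjoin_of_finite (R := Algebra.adjoin k {X}) ht₀ (fun y hy => hint y (ht₀' y hy))
    obtain ⟨G, hG⟩ := hfg
    have hP : P₀ = (Algebra.adjoin (Algebra.adjoin k {X}) t₀).restrictScalars k :=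
      Algebra.adjoin_union_eq_adjoin_adjoin k {X} t₀
    refine ⟨G, G.finite_toSet, ?_, ?_⟩
    · intro g hg
      have : g ∈ Submodule.span (Algebra.adjoin k {X}) (G : Set O) := Submodule.subset_span hg
      rw [hG] at this
      rw [hP]
      exact this
    · intro p hp
      have hp' : p ∈ Submodule.span (Algebra.adjoin k {X}) (G : Set O) := by
        rw [hG]
        rw [hP] at hp
        exact hp
      clear hp
      induction hp' using Submodule.span_induction with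
      | mem z hz => exact Submodule.subset_span ⟨0, z, hz, by simp⟩
      | zero => exact Submodule.zero_mem _
      | add a b _ _ h1 h2 => exact Submodule.add_mem _ h1 h2
      | smul c a _ h =>
        obtain ⟨c, hc⟩ := c
        have hc' := hc
        rw [Algebra.adjoin_singleton_eq_range_aeval] at hc'
        obtain ⟨q, hq⟩ := hc'
        have e1 : (⟨c, hc⟩ : Algebra.adjoin k {X}) • a = c * a := rfl
        rw [e1]
        have e2 : c = Polynomial.aeval X q := hq.symm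
        rw [e2, Polynomial.aeval_eq_sum_range, Finset.sum_mul]
        refine Submodule.sum_mem _ fun i _ => ?_
        rw [smul_mul_assoc]
        exact Submodule.smul_mem _ _ (mul_mem_spanX _ _ h)

end levels

end Pool.Agent.H27.H1
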