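import Mathlib

/-!
# Elements with a finite orbit under a field endomorphism
-/

namespace Pool.Agent.H27

variable {W : Type} [Field W]

lemma iterate_fix {α : Type*} {f : α → α} {a : α} {n : ℕ} (h : f^[n] a = a) (m : ℕ) :
    f^[n * m] a = a := by
  rw [Function.iterate_mul]
  exact Function.iterate_fixed h m

/-- The subfield of elements with a finite orbit. -/
def finOrbit (F : W →+* W) : Subfield W where
  carrier := {w | ∃ N : ℕ, 0 < N ∧ F^[N] w = w}
  mul_mem' := by
    rintro a b ⟨n, hn, ha⟩ ⟨m, hm, hb⟩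
    refine ⟨n * m, Nat.mul_pos hn hm, ?_⟩
    rw [iterate_map_mul, iterate_fix ha m, mul_comm n m, iterate_fix hb n]
  one_mem' := ⟨1, one_pos, by simp⟩
  add_mem' := by
    rintro a b ⟨n, hn, ha⟩ ⟨m, hm, hb⟩
    refine ⟨n * m, Nat.mul_pos hn hm, ?_⟩
    rw [iterate_map_add, iterate_fix ha m, mul_comm n m, iterate_fix hb n]
  zero_mem' := ⟨1, one_pos, by simp⟩
  neg_mem' := by
    rintro a ⟨n, hn, ha⟩
    exact ⟨n, hn, by rw [iterate_map_neg, ha]⟩
  inv_mem' := by
    rintro a ⟨n, hn, ha⟩
    refine ⟨n, hn, ?_⟩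
    have : F^[n] a⁻¹ = (F^[n] a)⁻¹ := by
      have h₁ := map_inv₀ (F ^ n) a
      simpa only [RingHom.coe_pow] using h₁
    rw [this, ha]

lemma mem_finOrbit {F : W →+* W} {w : W} : w ∈ finOrbit F ↔ ∃ N : ℕ, 0 < N ∧ F^[N] w = w :=
  Iff.rfl

lemma exists_common_period (F : W →+* W) (s : Finset W) (hs : ∀ w ∈ s, w ∈ finOrbit F) :
    ∃ N : ℕ, 0 < N ∧ ∀ w ∈ s, F^[N] w = w := by
  classical
  induction s using Finset.induction_on with
  | empty => exact ⟨1, one_pos, by simp⟩
  | insert a s _ ih =>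
    obtain ⟨N, hN, h⟩ := ih (fun w hw ↦ hs w (Finset.mem_insert_of_mem hw))
    obtain ⟨n, hn, ha⟩ := hs a (Finset.mem_insert_self _ _)
    refine ⟨n * N, Nat.mul_pos hn hN, fun w hw ↦ ?_⟩
    rcases Finset.mem_insert.1 hw with rfl | hw
    · exact iterate_fix ha N
    · rw [mul_comm]
      exact iterate_fix (h w hw) n

/-- The subfield of elements with a finite orbit is algebraically closed in the big field. -/
lemma mem_finOrbit_of_isAlgebraic (F : W →+* W) {w : W} (hw : IsAlgebraic (finOrbit F) w) :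
    w ∈ finOrbit F := by
  classical
  obtain ⟨P, hP, hPw⟩ := hw
  let Q : Polynomial W := P.map (algebraMap (finOrbit F) W)
  have hQ : Q ≠ 0 := (Polynomial.map_ne_zero_iff (algebraMap (finOrbit F) W).injective).2 hP
  obtain ⟨N, hN, h⟩ := exists_common_period F (Q.support.image Q.coeff) (by
    intro w hw
    obtain ⟨i, -, rfl⟩ := Finset.mem_image.1 hw
    rw [Polynomial.coeff_map]
    exact (P.coeff i).2)
  let G : W →+* W := F ^ N
  have hG : ∀ w, G w = F^[N] w := fun w ↦ by simp [G, RingHom.coe_pow]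
  have hQG : Q.map G = Q := by
    ext i
    rw [Polynomial.coeff_map, hG]
    by_cases hi : i ∈ Q.support
    · exact h _ (Finset.mem_image_of_mem _ hi)
    · rw [Polynomial.notMem_support_iff.1 hi, ← hG, map_zero]
  have hroot : ∀ v : W, Q.IsRoot v → Q.IsRoot (G v) := by
    intro v hv
    rw [Polynomial.IsRoot, ← hQG, Polynomial.eval_map, Polynomial.eval₂_hom, hv.eq_zero, map_zero]
  have hwroot : Q.IsRoot w := by
    rw [Polynomial.IsRoot, Polynomial.eval_map_algebraMap, hPw]
  have hiter : ∀ n : ℕ, Q.IsRoot (G^[n] w) := by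
    intro n
    induction n with
    | zero => exact hwroot
    | succ n ih =>
      rw [Function.iterate_succ_apply']
      exact hroot _ ih
  have hfin : Finite {v // v ∈ Q.roots.toFinset} := inferInstance
  obtain ⟨m, n, hmn, he⟩ := Finite.exists_ne_map_eq_of_infinite
    (fun n : ℕ ↦ (⟨G^[n] w, by
      rw [Multiset.mem_toFinset, Polynomial.mem_roots hQ]
      exact hiter n⟩ : {v // v ∈ Q.roots.toFinset}))
  have he' : G^[m] w = G^[n] w := congrArg Subtype.val he
  have key : ∀ m n : ℕ, m < n → G^[m] w = G^[n] w → w ∈ finOrbit F := by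
    intro m n hlt he
    refine ⟨N * (n - m), Nat.mul_pos hN (Nat.sub_pos_of_lt hlt), ?_⟩
    have h₁ : G^[m] (G^[n - m] w) = G^[m] w := by
      rw [← Function.iterate_add_apply, Nat.add_sub_cancel' hlt.le, he]
    have h₂ := (G.injective.iterate m) h₁
    rw [Function.iterate_mul]
    have h₃ : F^[N] = G := by
      ext w
      rw [hG]
    rw [h₃]
    exact h₂
  rcases lt_or_gt_of_ne hmn with h | h
  · exact key m n h he'
  · exact key n m h he'.symm

end Pool.Agent.H27
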