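import Mathlib

/-!
# Descent along the Frobenius of an algebraic closure of a finite field

We only treat the field `k` with two elements.  Let `W` be a vector space over an algebraic closure
`K` of `k`, with a semilinear map `F` such that every element has a finite orbit.  Then the fixed
points of `F` form a `k`-structure on `W`.
-/

open scoped TensorProduct

namespace Pool.Agent.H27

section

variable {k K W : Type} [Field k] [Field K] [AddCommGroup W] [Module K W]

lemma sq_eq_self_iff {c : K} : c ^ 2 = c ↔ c = 0 ∨ c = 1 := by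
  constructor
  · intro h
    have : c * (c - 1) = 0 := by ring_nf; rw [h]; ring
    rcases mul_eq_zero.1 this with h | h
    · exact Or.inl h
    · exact Or.inr (sub_eq_zero.1 h)
  · rintro (rfl | rfl) <;> simp

/-- Fixed vectors which are linearly independent over the prime field are linearly independent. -/
lemma linearIndependent_fixed [Module k W] (F : W →+ W)
    (hF : ∀ (c : K) (w : W), F (c • w) = c ^ 2 • F w) {ι : Type} (w : ι → W)
    (hw : ∀ i, F (w i) = w i) (hli : LinearIndependent k w) : LinearIndependent K w := by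
  classical
  have key : ∀ s : Finset ι, ∀ g : ι → K, ∑ i ∈ s, g i • w i = 0 → ∀ i ∈ s, g i = 0 := by
    intro s
    induction s using Finset.induction_on with
    | empty => simp
    | insert a s has ih =>
      intro g hg
      rw [Finset.sum_insert has] at hg
      by_cases hga : g a = 0
      · rw [hga, zero_smul, zero_add] at hg
        intro i hi
        rcases Finset.mem_insert.1 hi with rfl | hi
        · exact hga
        · exact ih g hg i hi
      · exfalso
        let h : ι → K := fun i ↦ (g a)⁻¹ * g i
        have h₁ : w a + ∑ i ∈ s, h i • w i = 0 := by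
          have := congrArg (fun v ↦ (g a)⁻¹ • v) hg
          simp only [smul_add, smul_zero, Finset.smul_sum, smul_smul, inv_mul_cancel₀ hga,
            one_smul] at this
          exact this
        have h₂ : w a + ∑ i ∈ s, (h i) ^ 2 • w i = 0 := by
          have := congrArg F h₁
          rw [map_add, map_zero, map_sum, hw] at this
          simpa only [hF, hw] using this
        have h₃ : ∑ i ∈ s, ((h i) ^ 2 - h i) • w i = 0 := by
          simp only [sub_smul, Finset.sum_sub_distrib]
          rw [sub_eq_zero]
          exact add_left_cancel (h₂.trans h₁.symm)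
        have h₄ := ih _ h₃
        have h₅ : ∀ i ∈ s, h i = 0 ∨ h i = 1 := fun i hi ↦
          sq_eq_self_iff.1 (sub_eq_zero.1 (h₄ i hi))
        let c : ι → k := fun i ↦ if h i = 0 then 0 else 1
        have h₆ : ∀ i ∈ s, h i • w i = c i • w i := by
          intro i hi
          rcases h₅ i hi with h | h
          · simp [c, h]
          · simp [c, h]
        have h₇ : ∑ i ∈ insert a s, (if i = a then (1 : k) else c i) • w i = 0 := by
          rw [Finset.sum_insert has]
          simp only [if_true, one_smul]
          rw [← h₁]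
          congr 1
          apply Finset.sum_congr rfl
          intro i hi
          rw [h₆ i hi, if_neg]
          rintro rfl
          exact has hi
        have h₈ := linearIndependent_iff'.1 hli _ _ h₇ a (Finset.mem_insert_self _ _)
        simp at h₈
  exact linearIndependent_iff'.2 key

open Polynomial in
lemma span_frob_eq_top [CharP K 2] [IsAlgClosed K] (N : ℕ) :
    Submodule.span K (Set.range (fun c : {c : K // c ^ 2 ^ N = c} ↦ fun i : Fin N ↦
      (c : K) ^ 2 ^ (i : ℕ))) = ⊤ := by
  classical
  by_contra hne
  obtain ⟨f, hf, hle⟩ := Submodule.exists_le_ker_of_lt_top _ (lt_top_iff_ne_top.2 hne)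
  rcases Nat.eq_zero_or_pos N with rfl | hN
  · apply hf
    ext x
    exact x.elim0
  let P : K[X] := ∑ i : Fin N, C (f (Pi.single i 1)) * X ^ 2 ^ (i : ℕ)
  have hP : ∀ c : K, c ^ 2 ^ N = c → P.eval c = 0 := by
    intro c hc
    have h₁ : f (fun i : Fin N ↦ c ^ 2 ^ (i : ℕ)) = 0 :=
      hle (Submodule.subset_span ⟨⟨c, hc⟩, rfl⟩)
    rw [LinearMap.pi_apply_eq_sum_univ f] at h₁
    simp only [P, eval_finset_sum, eval_mul, eval_C, eval_pow, eval_X]
    rw [← h₁]
    apply Finset.sum_congr rfl
    intro i _
    rw [smul_eq_mul, mul_comm]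
    congr 2
    ext j
    simp [Pi.single_apply, eq_comm]
  have hdeg : P.natDegree < 2 ^ N := by
    refine lt_of_le_of_lt (natDegree_sum_le_of_forall_le (n := 2 ^ (N - 1)) _ _ ?_)
      (Nat.pow_lt_pow_right (by norm_num) (by omega))
    intro i _
    refine (natDegree_C_mul_X_pow_le _ _).trans ?_
    exact Nat.pow_le_pow_right (by norm_num) (by omega)
  have hcard : (X ^ 2 ^ N - X : K[X]).roots.toFinset.card = 2 ^ N := by
    have h1 : (X ^ 2 ^ N - X : K[X]).Separable :=
      galois_poly_separable 2 _ (dvd_pow_self 2 hN.ne')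
    rw [Multiset.toFinset_card_of_nodup (nodup_roots h1), IsAlgClosed.card_roots_eq_natDegree]
    exact FiniteField.X_pow_card_pow_sub_X_natDegree_eq K hN.ne' (by norm_num)
  have hP0 : P = 0 := by
    refine eq_zero_of_natDegree_lt_card_of_eval_eq_zero' P
      (X ^ 2 ^ N - X : K[X]).roots.toFinset ?_ (by rw [hcard]; exact hdeg)
    intro c hc
    apply hP
    rw [Multiset.mem_toFinset, mem_roots'] at hc
    have := hc.2
    simp only [IsRoot.def, eval_sub, eval_pow, eval_X] at this
    exact sub_eq_zero.1 this
  apply hf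
  ext x
  simp only [LinearMap.coe_comp, Function.comp_apply, LinearMap.coe_single, LinearMap.zero_comp,
    LinearMap.zero_apply]
  have h2 : P.coeff (2 ^ (x : ℕ)) = f (Pi.single x 1) := by
    simp only [P, finset_sum_coeff, coeff_C_mul, coeff_X_pow]
    rw [Finset.sum_eq_single x]
    · simp
    · intro b _ hb
      rw [if_neg, mul_zero]
      intro h
      apply hb
      have := Nat.pow_right_injective (le_refl 2) h
      exact (Fin.ext this).symm
    · simp
  rw [← h2, hP0]
  simp

/-- Vectors with a finite orbit are combinations of fixed vectors. -/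
lemma mem_span_fixed [CharP K 2] [IsAlgClosed K] (F : W →+ W)
    (hF : ∀ (c : K) (w : W), F (c • w) = c ^ 2 • F w) (N : ℕ) (hN : 0 < N) {v : W}
    (hv : F^[N] v = v) : v ∈ Submodule.span K {w | F w = w} := by
  classical
  have hFi : ∀ (i : ℕ) (c : K) (w : W), F^[i] (c • w) = c ^ 2 ^ i • F^[i] w := by
    intro i
    induction i with
    | zero => intro c w; simp
    | succ i ih =>
      intro c w
      rw [Function.iterate_succ_apply', ih, hF, Function.iterate_succ_apply', ← pow_mul, pow_succ]
  let L : (Fin N → K) →ₗ[K] W := Fintype.linearCombination K (fun i : Fin N ↦ F^[(i : ℕ)] v)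
  have hL : ∀ g : Fin N → K, L g = ∑ i : Fin N, g i • F^[(i : ℕ)] v := fun g ↦ rfl
  have h₁ : L (Pi.single ⟨0, hN⟩ 1) = v := by
    rw [hL, Finset.sum_eq_single ⟨0, hN⟩]
    · simp
    · intro b _ hb
      simp [Pi.single_apply, hb]
    · simp
  have h₂ : ∀ c : {c : K // c ^ 2 ^ N = c}, F (L (fun i ↦ (c : K) ^ 2 ^ (i : ℕ))) =
      L (fun i ↦ (c : K) ^ 2 ^ (i : ℕ)) := by
    intro c
    have h₃ : L (fun i ↦ (c : K) ^ 2 ^ (i : ℕ)) = ∑ i ∈ Finset.range N, F^[i] ((c : K) • v) := by
      rw [hL, Finset.sum_range]
      apply Finset.sum_congr rfl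
      intro i _
      rw [hFi]
    rw [h₃, map_sum]
    have h₄ : ∀ i, F (F^[i] ((c : K) • v)) = F^[i + 1] ((c : K) • v) := fun i ↦
      (Function.iterate_succ_apply' F i _).symm
    simp only [h₄]
    have h₅ := Finset.sum_range_succ (fun i ↦ F^[i] ((c : K) • v)) N
    rw [Finset.sum_range_succ'] at h₅
    have h₆ : F^[N] ((c : K) • v) = F^[0] ((c : K) • v) := by
      rw [hFi, c.2, hv]
      rfl
    rw [h₆] at h₅
    exact add_right_cancel h₅
  rw [← h₁]
  have h₇ : (Pi.single ⟨0, hN⟩ 1 : Fin N → K) ∈ Submodule.span K (Set.range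
      (fun c : {c : K // c ^ 2 ^ N = c} ↦ fun i : Fin N ↦ (c : K) ^ 2 ^ (i : ℕ))) := by
    rw [span_frob_eq_top]
    trivial
  have h₈ := Submodule.mem_map_of_mem (f := L) h₇
  rw [Submodule.map_span] at h₈
  refine Submodule.span_mono ?_ h₈
  rintro _ ⟨_, ⟨c, rfl⟩, rfl⟩
  exact h₂ c

end

end Pool.Agent.H27
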