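import Pool.Agent.H27.Limit

/-!
# The Nori fundamental gerbe and the section map
-/

open CategoryTheory AlgebraicGeometry Limits Bicategory

namespace Pool.Agent.H27

variable {κ : Type} [Field κ]

/-- `Spec A` as a scheme over `κ`. -/
noncomputable def specOver (A : CommAlgCat.{0} κ) : Over (Spec (CommRingCat.of κ)) :=
  Over.mk (Spec.map (CommRingCat.ofHom (algebraMap κ A)))

/-- The map `Spec B ⟶ Spec A` over `κ` attached to `A ⟶ B`. -/
noncomputable def specOverMap {A B : CommAlgCat.{0} κ} (f : A ⟶ B) : specOver B ⟶ specOver A :=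
  Over.homMk (Spec.map (CommRingCat.ofHom f.hom.toRingHom)) (by
    dsimp [specOver]
    rw [← Spec.map_comp, ← CommRingCat.ofHom_comp]
    congr 2
    ext x
    simp)

@[simp]
lemma specOverMap_left {A B : CommAlgCat.{0} κ} (f : A ⟶ B) :
    (specOverMap f).left = Spec.map (CommRingCat.ofHom f.hom.toRingHom) := rfl

@[simp]
lemma specOverMap_id (A : CommAlgCat.{0} κ) : specOverMap (𝟙 A) = 𝟙 (specOver A) := by
  ext : 1
  exact Spec.map_id _

@[simp]
lemma specOverMap_comp {A B C : CommAlgCat.{0} κ} (f : A ⟶ B) (g : B ⟶ C) :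
    specOverMap (f ≫ g) = specOverMap g ≫ specOverMap f := by
  ext : 1
  exact Spec.map_comp (CommRingCat.ofHom f.hom.toRingHom) (CommRingCat.ofHom g.hom.toRingHom)

/-- A point of a `κ`-scheme `X` with values in a `κ`-algebra. -/
structure Pt (X : Over (Spec (CommRingCat.of κ))) : Type 1 where
  alg : CommAlgCat.{0} κ
  pt : specOver alg ⟶ X

/-- An arrow from `a ∈ X(A)` to `b ∈ X(B)` is a map of `κ`-algebras `A ⟶ B` which maps `a` to
`b`. -/
def PtHom {X : Over (Spec (CommRingCat.of κ))} (a b : Pt X) : Type :=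
  {f : a.alg ⟶ b.alg // specOverMap f ≫ a.pt = b.pt}

/-- The identity arrow. -/
def PtHom.id {X : Over (Spec (CommRingCat.of κ))} (a : Pt X) : PtHom a a := ⟨𝟙 _, by simp⟩

/-- Composition of arrows. -/
def PtHom.comp {X : Over (Spec (CommRingCat.of κ))} {a b c : Pt X} (f : PtHom a b)
    (g : PtHom b c) : PtHom a c := ⟨f.1 ≫ g.1, by simp [f.2, g.2]⟩

lemma PtHom.id_comp {X : Over (Spec (CommRingCat.of κ))} {a b : Pt X} (f : PtHom a b) :
    PtHom.comp (PtHom.id a) f = f := Subtype.ext (Category.id_comp _)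

lemma PtHom.comp_id {X : Over (Spec (CommRingCat.of κ))} {a b : Pt X} (f : PtHom a b) :
    PtHom.comp f (PtHom.id b) = f := Subtype.ext (Category.comp_id _)

lemma PtHom.assoc {X : Over (Spec (CommRingCat.of κ))} {a b c d : Pt X} (f : PtHom a b)
    (g : PtHom b c) (h : PtHom c d) :
    PtHom.comp (PtHom.comp f g) h = PtHom.comp f (PtHom.comp g h) :=
  Subtype.ext (Category.assoc _ _ _)

/-- The category of points of `X` with values in `κ`-algebras. -/
instance (X : Over (Spec (CommRingCat.of κ))) : Category (Pt X) where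
  Hom := PtHom
  id := PtHom.id
  comp := PtHom.comp
  id_comp := PtHom.id_comp
  comp_id := PtHom.comp_id
  assoc := PtHom.assoc

/-- A `κ`-scheme `X`, as a category over `Alg κ`: the objects over `A` are the `A`-points of
`X`. -/
noncomputable def schemeStack (X : Over (Spec (CommRingCat.of κ))) :
    BasedCategory.{0, 1} (CommAlgCat.{0} κ) where
  obj := Pt X
  p :=
    { obj := fun a ↦ a.alg
      map := fun {a b} (f : PtHom a b) ↦ f.1
      map_id := fun _ ↦ rfl
      map_comp := fun _ _ ↦ rfl }

/-- `p : X ⟶ Π` is a (Nori) fundamental gerbe of `X`: `Π` is a profinite gerbe, and every morphism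
from `X` to a finite stack `Γ` factors through `p` uniquely up to unique isomorphism; that is,
composition with `p` is an equivalence from the category of morphisms `Π ⟶ Γ` to the category of
morphisms `X ⟶ Γ`. -/
structure IsNoriFundamentalGerbe (X : Over (Spec (CommRingCat.of κ)))
    (G : BasedCategory.{0, 1} (CommAlgCat.{0} κ)) (p : schemeStack X ⟶ G) : Prop where
  isProfiniteGerbe : IsProfiniteGerbe G
  universal : ∀ Γ : BasedCategory.{0, 1} (CommAlgCat.{0} κ), IsFiniteStack Γ → (precomp Γ p).IsEquivalence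

/-- The set of isomorphism classes of `κ`-points of `𝒳`. -/
def IsoClasses (𝒳 : BasedCategory.{0, 1} (CommAlgCat.{0} κ)) : Type 1 :=
  Quotient (isIsomorphicSetoid (𝒳.p.Fiber (CommAlgCat.of κ κ)))

/-- The map from the set of `κ`-rational points of `X` to the set of isomorphism classes of
`κ`-points of `G` induced by `p : X ⟶ G`. -/
noncomputable def sigma (X : Over (Spec (CommRingCat.of κ)))
    (G : BasedCategory.{0, 1} (CommAlgCat.{0} κ)) (p : schemeStack X ⟶ G) :
    (specOver (CommAlgCat.of κ κ) ⟶ X) → IsoClasses G :=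
  fun a ↦ Quotient.mk _ ⟨BasedFunctor.toFunctor p |>.obj ⟨_, a⟩, BasedFunctor.w_obj p _⟩

end Pool.Agent.H27
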