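import Pool.Agent.H27.Curve
import Pool.Agent.H27.Nori

/-!
# Fields of rational functions over the field with two elements
-/

open CategoryTheory AlgebraicGeometry

namespace Pool.Agent.H27

/-- The field of rational functions in `n` variables over the field with two elements. -/
abbrev RatF (n : ℕ) : Type := FractionRing (MvPolynomial (Fin n) (ZMod 2))

instance charP_ratF (n : ℕ) : CharP (RatF n) 2 :=
  charP_of_injective_algebraMap (R := MvPolynomial (Fin n) (ZMod 2)) (IsFractionRing.injective _ _) 2

theorem RatF.exists_generators (n : ℕ) :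
    ∃ s : Finset (RatF n), Subfield.closure (s : Set (RatF n)) = ⊤ := by
  classical
  let f : Fin n → RatF n := fun i ↦ algebraMap (MvPolynomial (Fin n) (ZMod 2)) _ (MvPolynomial.X i)
  refine ⟨Finset.univ.image f, ?_⟩
  rw [eq_top_iff]
  intro x _
  have h₁ : ∀ p : MvPolynomial (Fin n) (ZMod 2), algebraMap _ (RatF n) p ∈
      Subfield.closure ((Finset.univ.image f : Finset (RatF n)) : Set (RatF n)) := by
    intro p
    induction p using MvPolynomial.induction_on with
    | C a =>
      have : a = 0 ∨ a = 1 := by
        revert a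
        decide
      rcases this with rfl | rfl
      · rw [map_zero, map_zero]
        exact zero_mem _
      · rw [map_one, map_one]
        exact one_mem _
    | add p q hp hq =>
      rw [map_add]
      exact add_mem hp hq
    | mul_X p i hp =>
      rw [map_mul]
      refine mul_mem hp (Subfield.subset_closure ?_)
      simp [f]
  obtain ⟨a, b, -, rfl⟩ := IsFractionRing.div_surjective (A := MvPolynomial (Fin n) (ZMod 2)) x
  exact div_mem (h₁ a) (h₁ b)

/-- Uncountable fields have infinite transcendence degree over countable ones. -/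
lemma exists_algebraicIndependent (k L : Type) [Field k] [Field L] [Algebra k L] [Countable k]
    [Uncountable L] (n : ℕ) : ∃ g : Fin n → L, AlgebraicIndependent k g := by
  obtain ⟨s, hs⟩ := exists_isTranscendenceBasis k L
  have hinf : Infinite s := by
    by_contra hfin
    rw [not_infinite_iff_finite] at hfin
    have h₀ : Cardinal.mk (MvPolynomial s k) ≤ Cardinal.aleph0 := by
      refine MvPolynomial.cardinalMk_le_max.trans ?_
      simp
    have h₁ : Cardinal.mk (Algebra.adjoin k (Set.range ((↑) : s → L))) ≤ Cardinal.aleph0 := by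
      rw [← Cardinal.mk_congr hs.1.aevalEquiv.toEquiv]
      exact h₀
    have h₂ : Algebra.IsAlgebraic (Algebra.adjoin k (Set.range ((↑) : s → L))) L := hs.isAlgebraic
    have h₃ := Algebra.IsAlgebraic.cardinalMk_le_max (Algebra.adjoin k (Set.range ((↑) : s → L))) L
    have h₄ : Countable L := Cardinal.mk_le_aleph0_iff.1 (h₃.trans (max_le h₁ le_rfl))
    exact not_countable (α := L) h₄
  let e : Fin n ↪ s := (Fin.valEmbedding.trans (Infinite.natEmbedding s))
  exact ⟨_, hs.1.comp e e.injective⟩

instance uncountable_laurent : Uncountable (LaurentSeries (ZMod 2)) := by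
  have h₄ : Function.Injective (fun f : ℕ → ZMod 2 ↦
      HahnSeries.ofPowerSeries ℤ (ZMod 2) (PowerSeries.mk f)) := by
    intro f g hfg
    have := HahnSeries.ofPowerSeries_injective hfg
    funext i
    have h := congrArg (PowerSeries.coeff i) this
    simpa using h
  have h₅ : Uncountable (ℕ → ZMod 2) := by
    rw [← not_countable_iff, ← Cardinal.mk_le_aleph0_iff]
    have h₇ : Cardinal.mk (ℕ → ZMod 2) = Cardinal.continuum := by
      simp
    rw [h₇]
    exact not_le.2 Cardinal.aleph0_lt_continuum
  exact h₄.uncountable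

/-- A place of the field of fractions of a valuation ring. -/
lemma exists_place (A L B : Type) [CommRing A] [IsDomain A] [ValuationRing A] [Field L]
    [Algebra A L] [IsFractionRing A L] [CommRing B] (c : A →+* B) :
    ∃ V : ValuationSubring L, Nonempty (V →+* B) := by
  refine ⟨(ValuationRing.valuation A L).valuationSubring, ⟨c.comp
    ((ValuationRing.equivInteger A L).symm.toRingHom.comp ?_)⟩⟩
  exact
    { toFun := fun x ↦ ⟨x.1, x.2⟩
      map_one' := rfl
      map_mul' := fun _ _ ↦ rfl
      map_zero' := rfl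
      map_add' := fun _ _ ↦ rfl }

theorem no_section_laurent : ¬ ∃ s : Spec (CommRingCat.of (LaurentSeries (ZMod 2))) ⟶
    Curve.CS (LaurentSeries (ZMod 2)), s ≫ Curve.str (LaurentSeries (ZMod 2)) = 𝟙 _ := by
  obtain ⟨V, ⟨r⟩⟩ := exists_place (PowerSeries (ZMod 2)) (LaurentSeries (ZMod 2)) (ZMod 2)
    PowerSeries.constantCoeff
  exact Curve.no_section V r

/-- Sections of the curve are stable under extension of fields. -/
theorem exists_section_extend {K L : Type} [Field K] [Field L] [Algebra K L]
    (h : ∃ s : Spec (CommRingCat.of K) ⟶ Curve.CS K, s ≫ Curve.str K = 𝟙 _) :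
    ∃ s : Spec (CommRingCat.of L) ⟶ Curve.CS L, s ≫ Curve.str L = 𝟙 _ := by
  obtain ⟨s, hs⟩ := h
  have hw : (Curve.mK K L ≫ s) ≫ Curve.str K = 𝟙 _ ≫ Curve.mK K L := by
    rw [Category.assoc, hs, Category.comp_id, Category.id_comp]
  exact ⟨(Curve.isPullback_bc K L).lift _ _ hw, (Curve.isPullback_bc K L).lift_snd _ _ hw⟩

theorem RatF.no_section (n : ℕ) :
    ¬ ∃ s : Spec (CommRingCat.of (RatF n)) ⟶ Curve.CS (RatF n), s ≫ Curve.str (RatF n) = 𝟙 _ := by
  intro h
  obtain ⟨g, hg⟩ := exists_algebraicIndependent (ZMod 2) (LaurentSeries (ZMod 2)) n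
  have hinj : Function.Injective (MvPolynomial.aeval g : MvPolynomial (Fin n) (ZMod 2) →ₐ[ZMod 2]
    LaurentSeries (ZMod 2)) := hg
  let f : RatF n →+* LaurentSeries (ZMod 2) :=
    IsFractionRing.lift (A := MvPolynomial (Fin n) (ZMod 2))
      (g := (MvPolynomial.aeval g : MvPolynomial (Fin n) (ZMod 2) →ₐ[ZMod 2]
        LaurentSeries (ZMod 2)).toRingHom) hinj
  let _ : Algebra (RatF n) (LaurentSeries (ZMod 2)) := f.toAlgebra
  exact no_section_laurent (exists_section_extend h)

theorem RatF.isEmpty_points (n : ℕ) :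
    IsEmpty (specOver (CommAlgCat.of (RatF n) (RatF n)) ⟶ Curve.C (RatF n)) := by
  constructor
  intro s
  refine RatF.no_section n ⟨s.left, ?_⟩
  have h₁ : s.left ≫ Curve.str (RatF n) =
    Spec.map (CommRingCat.ofHom (algebraMap (RatF n) (RatF n))) := Over.w s
  have h₂ : Spec.map (CommRingCat.ofHom (algebraMap (RatF n) (RatF n))) = 𝟙 _ := by
    rw [Algebra.algebraMap_self]
    exact Spec.map_id _
  exact h₁.trans h₂

end Pool.Agent.H27
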