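import Mathlib

open scoped TensorProduct

namespace Pool.Agent.H27.H1

section star

variable {k O Ω : Type*} [Field k] [CommRing O] [Algebra k O] [CommRing Ω] [Algebra k Ω]

/-- the span of the `p ⊗ v`, `p ∈ P`, `v ∈ V` -/
noncomputable def star (P : Submodule k O) (V : Submodule k Ω) : Submodule k (O ⊗[k] Ω) :=
  Submodule.map₂ (TensorProduct.mk k O Ω) P V

lemma tmul_mem_star {P : Submodule k O} {V : Submodule k Ω} {p : O} {v : Ω} (hp : p ∈ P)
    (hv : v ∈ V) : p ⊗ₜ[k] v ∈ star P V :=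
  Submodule.apply_mem_map₂ _ hp hv

lemma star_le {P : Submodule k O} {V : Submodule k Ω} {J : Submodule k (O ⊗[k] Ω)}
    (h : ∀ p ∈ P, ∀ v ∈ V, p ⊗ₜ[k] v ∈ J) : star P V ≤ J :=
  Submodule.map₂_le.mpr h

lemma star_mono {P P' : Submodule k O} {V V' : Submodule k Ω} (h : P ≤ P') (h' : V ≤ V') :
    star P V ≤ star P' V' :=
  star_le fun _ hp _ hv => tmul_mem_star (h hp) (h' hv)

lemma star_mul {P P' : Submodule k O} {V V' : Submodule k Ω} {a b : O ⊗[k] Ω}
    (ha : a ∈ star P V) (hb : b ∈ star P' V') : a * b ∈ star (P * P') (V * V') := by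
  have : star P V * star P' V' ≤ star (P * P') (V * V') := by
    have h1 : star P V ≤ Submodule.comap (LinearMap.mulRight k b) (star (P * P') (V * V')) := by
      apply star_le
      intro p hp v hv
      rw [Submodule.mem_comap, LinearMap.mulRight_apply]
      have h2 : star P' V' ≤ Submodule.comap (LinearMap.mulLeft k (p ⊗ₜ[k] v)) (star (P * P') (V * V')) := by
        apply star_le
        intro p' hp' v' hv'
        rw [Submodule.mem_comap, LinearMap.mulLeft_apply, Algebra.TensorProduct.tmul_mul_tmul]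
        exact tmul_mem_star (Submodule.mul_mem_mul hp hp') (Submodule.mul_mem_mul hv hv')
      exact h2 hb
    rw [Submodule.mul_le]
    intro m hm n hn
    have h1 : star P V ≤ Submodule.comap (LinearMap.mulRight k n) (star (P * P') (V * V')) := by
      apply star_le
      intro p hp v hv
      rw [Submodule.mem_comap, LinearMap.mulRight_apply]
      have h2 : star P' V' ≤ Submodule.comap (LinearMap.mulLeft k (p ⊗ₜ[k] v)) (star (P * P') (V * V')) := by
        apply star_le
        intro p' hp' v' hv'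
        rw [Submodule.mem_comap, LinearMap.mulLeft_apply, Algebra.TensorProduct.tmul_mul_tmul]
        exact tmul_mem_star (Submodule.mul_mem_mul hp hp') (Submodule.mul_mem_mul hv hv')
      exact h2 hn
    exact h1 hm
  exact this (Submodule.mul_mem_mul ha hb)

/-- an element of `star P V` only involves finitely many elements -/
lemma star_finite {P : Submodule k O} {V : Submodule k Ω} {a : O ⊗[k] Ω} (ha : a ∈ star P V) :
    ∃ (F : Finset O) (G : Finset Ω), (∀ f ∈ F, f ∈ P) ∧ (∀ g ∈ G, g ∈ V) ∧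
      ∀ (P' : Submodule k O) (V' : Submodule k Ω), (∀ f ∈ F, f ∈ P') → (∀ g ∈ G, g ∈ V') →
        a ∈ star P' V' := by
  classical
  unfold star at ha
  rw [Submodule.map₂_eq_span_image2] at ha
  induction ha using Submodule.span_induction with
  | mem x hx =>
    obtain ⟨p, hp, v, hv, rfl⟩ := hx
    refine ⟨{p}, {v}, by simpa using hp, by simpa using hv, ?_⟩
    intro P' V' h1 h2
    exact tmul_mem_star (h1 p (by simp)) (h2 v (by simp))
  | zero => exact ⟨∅, ∅, by simp, by simp, fun P' V' _ _ => Submodule.zero_mem _⟩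
  | add x y _ _ hx hy =>
    obtain ⟨F1, G1, h1, h2, h3⟩ := hx
    obtain ⟨F2, G2, h4, h5, h6⟩ := hy
    refine ⟨F1 ∪ F2, G1 ∪ G2, ?_, ?_, ?_⟩
    · intro f hf; rcases Finset.mem_union.mp hf with h | h
      · exact h1 f h
      · exact h4 f h
    · intro f hf; rcases Finset.mem_union.mp hf with h | h
      · exact h2 f h
      · exact h5 f h
    · intro P' V' h7 h8
      exact Submodule.add_mem _
        (h3 P' V' (fun f hf => h7 f (Finset.mem_union_left _ hf)) (fun g hg => h8 g (Finset.mem_union_left _ hg)))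
        (h6 P' V' (fun f hf => h7 f (Finset.mem_union_right _ hf)) (fun g hg => h8 g (Finset.mem_union_right _ hg)))
  | smul c x _ hx =>
    obtain ⟨F1, G1, h1, h2, h3⟩ := hx
    exact ⟨F1, G1, h1, h2, fun P' V' h7 h8 => Submodule.smul_mem _ _ (h3 P' V' h7 h8)⟩

/-- slice with respect to a functional on `Ω` -/
noncomputable def sl (μ : Ω →ₗ[k] k) : (O ⊗[k] Ω) →ₗ[k] O :=
  (TensorProduct.rid k O).toLinearMap ∘ₗ LinearMap.lTensor O μ

@[simp] lemma sl_tmul (μ : Ω →ₗ[k] k) (o : O) (ω : Ω) : sl μ (o ⊗ₜ[k] ω) = μ ω • o := by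
  simp [sl]

lemma sl_mem {μ : Ω →ₗ[k] k} {P : Submodule k O} {V : Submodule k Ω} {a : O ⊗[k] Ω}
    (ha : a ∈ star P V) : sl μ a ∈ P := by
  have : star P V ≤ Submodule.comap (sl μ) P := by
    apply star_le
    intro p hp v _
    rw [Submodule.mem_comap, sl_tmul]
    exact P.smul_mem _ hp
  exact this ha

/-- slice with respect to a functional on `O` -/
noncomputable def sr (l : O →ₗ[k] k) : (O ⊗[k] Ω) →ₗ[k] Ω :=
  (TensorProduct.lid k Ω).toLinearMap ∘ₗ LinearMap.rTensor Ω l

@[simp] lemma sr_tmul (l : O →ₗ[k] k) (o : O) (ω : Ω) : sr l (o ⊗ₜ[k] ω) = l o • ω := by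
  simp [sr]

lemma sr_mem {l : O →ₗ[k] k} {P : Submodule k O} {V : Submodule k Ω} {a : O ⊗[k] Ω}
    (ha : a ∈ star P V) : sr l a ∈ V := by
  have : star P V ≤ Submodule.comap (sr l) V := by
    apply star_le
    intro p _ v hv
    rw [Submodule.mem_comap, sr_tmul]
    exact V.smul_mem _ hv
  exact this ha

lemma exists_expand {ι : Type*} (b : Module.Basis ι k Ω) (a : O ⊗[k] Ω) :
    ∃ S : Finset ι, a = ∑ i ∈ S, sl (b.coord i) a ⊗ₜ[k] b i := by
  classical
  suffices h : ∃ S : Finset ι, ∀ S' : Finset ι, S ⊆ S' → a = ∑ i ∈ S', sl (b.coord i) a ⊗ₜ[k] b i by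
    obtain ⟨S, hS⟩ := h
    exact ⟨S, hS S (Finset.Subset.refl _)⟩
  induction a using TensorProduct.induction_on with
  | zero => exact ⟨∅, fun S' _ => by simp⟩
  | tmul o ω =>
    refine ⟨(b.repr ω).support, fun S' hS' => ?_⟩
    have h1 : ω = ∑ i ∈ S', b.repr ω i • b i := by
      conv_lhs => rw [← b.linearCombination_repr ω]
      rw [Finsupp.linearCombination_apply, Finsupp.sum_of_support_subset _ hS' _ (by simp)]
    conv_lhs => rw [h1]
    rw [TensorProduct.tmul_sum]
    refine Finset.sum_congr rfl fun i _ => ?_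
    rw [sl_tmul, Module.Basis.coord_apply, TensorProduct.tmul_smul, TensorProduct.smul_tmul']
  | add x y hx hy =>
    obtain ⟨S1, h1⟩ := hx
    obtain ⟨S2, h2⟩ := hy
    refine ⟨S1 ∪ S2, fun S' hS' => ?_⟩
    have e1 := h1 S' (Finset.union_subset_left hS')
    have e2 := h2 S' (Finset.union_subset_right hS')
    conv_lhs => rw [e1, e2]
    rw [← Finset.sum_add_distrib]
    refine Finset.sum_congr rfl fun i _ => ?_
    rw [map_add, TensorProduct.add_tmul]

/-- intersection of `P₀ ⊗ Ω` and `P₁ ⊗ Ω` when `P₀ ∩ P₁` consists of scalars -/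
lemma exists_of_inter {P₀ P₁ : Submodule k O} (h : ∀ o, o ∈ P₀ → o ∈ P₁ → ∃ c : k, o = c • 1)
    {V₀ V₁ : Submodule k Ω} {a : O ⊗[k] Ω} (h₀ : a ∈ star P₀ V₀) (h₁ : a ∈ star P₁ V₁) :
    ∃ ω : Ω, a = 1 ⊗ₜ[k] ω := by
  classical
  obtain ⟨S, hS⟩ := exists_expand (Module.Basis.ofVectorSpace k Ω) a
  have hc : ∀ i, ∃ c : k, sl ((Module.Basis.ofVectorSpace k Ω).coord i) a = c • (1 : O) := fun i =>
    h _ (sl_mem h₀) (sl_mem h₁)
  choose c hc using hc
  refine ⟨∑ i ∈ S, c i • (Module.Basis.ofVectorSpace k Ω) i, ?_⟩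
  conv_lhs => rw [hS]
  rw [TensorProduct.tmul_sum]
  refine Finset.sum_congr rfl fun i _ => ?_
  rw [hc, TensorProduct.smul_tmul]

/-- if `1 ⊗ ω ∈ star P V` then `ω ∈ V` -/
lemma mem_of_one_tmul [Nontrivial O] {P : Submodule k O} {V : Submodule k Ω} {ω : Ω}
    (h : (1 : O) ⊗ₜ[k] ω ∈ star P V) : ω ∈ V := by
  obtain ⟨l, hl⟩ := Module.Projective.exists_dual_eq_one k (x := (1 : O)) one_ne_zero
  have := sr_mem (l := l) h
  rwa [sr_tmul, hl, one_smul] at this


/-- `star` for subalgebras -/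
noncomputable def starA (P : Subalgebra k O) (R : Subalgebra k Ω) : Subalgebra k (O ⊗[k] Ω) :=
  (star (Subalgebra.toSubmodule P) (Subalgebra.toSubmodule R)).toSubalgebra
    (tmul_mem_star P.one_mem R.one_mem) (fun a b ha hb => by
      have := star_mul ha hb
      rwa [Subalgebra.isIdempotentElem_toSubmodule P, Subalgebra.isIdempotentElem_toSubmodule R] at this)

lemma mem_starA {P : Subalgebra k O} {R : Subalgebra k Ω} {a : O ⊗[k] Ω} :
    a ∈ starA P R ↔ a ∈ star (Subalgebra.toSubmodule P) (Subalgebra.toSubmodule R) := Iff.rfl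

lemma tmul_mem_starA {P : Subalgebra k O} {R : Subalgebra k Ω} {p : O} {v : Ω} (hp : p ∈ P)
    (hv : v ∈ R) : p ⊗ₜ[k] v ∈ starA P R := tmul_mem_star hp hv

lemma starA_mono {P P' : Subalgebra k O} {R R' : Subalgebra k Ω} (h : P ≤ P') (h' : R ≤ R') :
    starA P R ≤ starA P' R' := fun _ ha => star_mono (P := Subalgebra.toSubmodule P) h h' ha

@[elab_as_elim]
lemma starA_induction {P : Subalgebra k O} {R : Subalgebra k Ω} {p : O ⊗[k] Ω → Prop}
    (h1 : ∀ o ∈ P, ∀ r ∈ R, p (o ⊗ₜ[k] r)) (h0 : p 0)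
    (hadd : ∀ a b, a ∈ starA P R → b ∈ starA P R → p a → p b → p (a + b)) {a : O ⊗[k] Ω}
    (ha : a ∈ starA P R) : p a := by
  rw [mem_starA, star, Submodule.map₂_eq_span_image2] at ha
  have key : ∀ a, a ∈ Submodule.span k (Set.image2 (fun m n => (TensorProduct.mk k O Ω) m n)
      (Subalgebra.toSubmodule P : Set O) (Subalgebra.toSubmodule R : Set Ω)) → p a ∧ a ∈ starA P R := by
    intro a ha
    refine Submodule.closure_induction (p := fun a _ => p a ∧ a ∈ starA P R) ⟨h0, zero_mem _⟩ ?_ ?_ ha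
    · rintro a b _ _ ⟨h3, h4⟩ ⟨h5, h6⟩
      exact ⟨hadd a b h4 h6 h3 h5, add_mem h4 h6⟩
    · rintro c x ⟨o, ho, r, hr, rfl⟩
      refine ⟨?_, ?_⟩
      · have := h1 (c • o) (P.smul_mem ho c) r hr
        rwa [← TensorProduct.smul_tmul'] at this
      · exact (starA P R).smul_mem (tmul_mem_starA ho hr) c
  exact (key a ha).1

end star

end Pool.Agent.H27.H1
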