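import Mathlib

namespace Pool.Agent.H27.H1

lemma smono {R E : Type*} [CommRing R] [AddCommGroup E] [Module R E] (I : Ideal R)
    {N P : Submodule R E} (h : N ≤ P) {x : E} (hx : x ∈ I • N) : x ∈ I • P :=
  smul_mono_right I h hx

/-- a form of Artin–Rees for a submodule of finite colength -/
lemma artinRees {R E : Type*} [CommRing R] [IsNoetherianRing R] [AddCommGroup E] [Module R E]
    (I : Ideal R) (A B : Submodule R E) {m : ℕ} (b : Fin m → E)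
    (hB : B ≤ A ⊔ Submodule.span R (Set.range b)) :
    ∃ n : ℕ, 1 ≤ n ∧ (I ^ n • B) ⊓ A ≤ I • A := by
  let π : (Fin m → R) →ₗ[R] E := Fintype.linearCombination R b
  have hπ : LinearMap.range π = Submodule.span R (Set.range b) := Fintype.range_linearCombination R b
  let K' : Submodule R (Fin m → R) := A.comap π
  obtain ⟨c, hc⟩ := Ideal.exists_pow_inf_eq_pow_smul I K'
  refine ⟨c + 1, by omega, ?_⟩
  rintro d ⟨hd1, hd2⟩
  have h1 : I ^ (c + 1) • B ≤ I • A ⊔ (I ^ (c + 1) • (⊤ : Submodule R (Fin m → R))).map π := by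
    have h2 : I ^ (c + 1) • B ≤ I ^ (c + 1) • (A ⊔ LinearMap.range π) :=
      smul_mono_right _ (by rw [hπ]; exact hB)
    refine h2.trans ?_
    rw [Submodule.smul_sup]
    refine sup_le_sup ?_ ?_
    · exact Submodule.smul_mono_left (Ideal.pow_le_self (by omega))
    · rw [Submodule.map_smul'', Submodule.map_top]
  obtain ⟨a', ha', f', hf', hsum⟩ := Submodule.mem_sup.mp (h1 hd1)
  obtain ⟨f, hf, rfl⟩ := hf'
  have hfK : f ∈ K' := by
    change π f ∈ A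
    have : π f = d - a' := by rw [← hsum]; abel
    rw [this]
    exact A.sub_mem hd2 (Submodule.smul_le_right ha')
  have h3 : f ∈ I • K' := by
    have h4 : f ∈ I ^ (c + 1) • (⊤ : Submodule R (Fin m → R)) ⊓ K' := ⟨hf, hfK⟩
    rw [hc (c + 1) (by omega)] at h4
    have h5 : c + 1 - c = 1 := by omega
    rw [h5, pow_one] at h4
    exact smono _ inf_le_right h4
  have h6 : π f ∈ I • A := by
    have h7 : π f ∈ (I • K').map π := Submodule.mem_map_of_mem h3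
    rw [Submodule.map_smul''] at h7
    exact smono _ (Submodule.map_comap_le _ _) h7
  rw [← hsum]
  exact Submodule.add_mem _ ha' h6

lemma lift_idem {S : Type*} [CommRing S] (J : Ideal S) (e : S) (he : e ^ 2 - e ∈ J) (n : ℕ) :
    ∃ e' : S, e' - e ∈ J ∧ e' ^ 2 - e' ∈ J ^ (n + 1) := by
  induction n with
  | zero => exact ⟨e, by simp, by simpa using he⟩
  | succ n ih =>
    obtain ⟨f, hf1, hf2⟩ := ih
    refine ⟨3 * f ^ 2 - 2 * f ^ 3, ?_, ?_⟩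
    · have h1 : 3 * f ^ 2 - 2 * f ^ 3 - e = (f ^ 2 - f) * (1 - 2 * f) + (f - e) := by ring
      rw [h1]
      exact J.add_mem (J.mul_mem_right _ (Ideal.pow_le_self (by omega) hf2)) hf1
    · have h1 : (3 * f ^ 2 - 2 * f ^ 3) ^ 2 - (3 * f ^ 2 - 2 * f ^ 3) =
        (f ^ 2 - f) ^ 2 * (4 * f ^ 2 - 4 * f - 3) := by ring
      rw [h1]
      refine Ideal.mul_mem_right _ _ ?_
      have h2 : (f ^ 2 - f) ^ 2 ∈ (J ^ (n + 1)) ^ 2 := Ideal.pow_mem_pow hf2 2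
      rw [← pow_mul] at h2
      exact Ideal.pow_le_pow_right (by omega) h2

lemma idem_unique {S : Type*} [CommRing S] (J : Ideal S) (n : ℕ) (e f : S)
    (he : e ^ 2 - e ∈ J ^ (n + 1)) (hf : f ^ 2 - f ∈ J ^ (n + 1)) (h : e - f ∈ J) :
    e - f ∈ J ^ (n + 1) := by
  have key : ∀ m, m ≤ n → e - f ∈ J ^ (m + 1) := by
    intro m
    induction m with
    | zero => intro _; simpa using h
    | succ m ih =>
      intro hm
      have h1 := ih (by omega)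
      have h2 : e - f = (e - f) ^ 3 - ((e ^ 2 - e) * (1 + e - 3 * f) + (f ^ 2 - f) * (3 * e - 1 - f)) := by
        ring
      rw [h2]
      refine Ideal.sub_mem _ ?_ (Ideal.add_mem _ ?_ ?_)
      · have h3 := Ideal.pow_mem_pow h1 3
        rw [← pow_mul] at h3
        exact Ideal.pow_le_pow_right (by omega) h3
      · exact Ideal.mul_mem_right _ _ (Ideal.pow_le_pow_right (by omega) he)
      · exact Ideal.mul_mem_right _ _ (Ideal.pow_le_pow_right (by omega) hf)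
  exact key n le_rfl

lemma mem_smul_iff_map {R E : Type*} [CommRing R] [CommRing E] [Algebra R E] (S : Subalgebra R E)
    (I : Ideal R) (x : S) :
    x ∈ I.map (algebraMap R S) ↔ (x : E) ∈ I • Subalgebra.toSubmodule S := by
  have h1 : (I.map (algebraMap R S)).restrictScalars R = (I • ⊤ : Submodule R S) :=
    (Ideal.smul_top_eq_map I).symm
  have h2 : x ∈ I.map (algebraMap R S) ↔ x ∈ (I • ⊤ : Submodule R S) := by
    rw [← h1]; rfl
  rw [h2]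
  have h3 : I • Subalgebra.toSubmodule S = (I • ⊤ : Submodule R S).map S.val.toLinearMap := by
    rw [Submodule.map_smul'', Submodule.map_top]
    congr 1
    ext y; simp
  rw [h3, Submodule.mem_map]
  constructor
  · intro h; exact ⟨x, h, rfl⟩
  · rintro ⟨y, hy, hxy⟩
    have : y = x := Subtype.ext hxy
    rwa [← this]

theorem glue {R E K ι : Type*} [CommRing R] [IsNoetherianRing R] [CommRing E] [Algebra R E]
    [Field K] (𝔪 : Ideal R) (S₀ S₁ S₂ : Subalgebra R E) (h₀ : S₀ ≤ S₂) (h₁ : S₁ ≤ S₂)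
    (χ : ι → S₂ →+* K) (hχ : ∀ i, ∀ r ∈ 𝔪, χ i (algebraMap R S₂ r) = 0)
    (hk₀ : ∀ a (ha : a ∈ S₀), (∀ i, χ i ⟨a, h₀ ha⟩ = 0) → a ∈ 𝔪 • Subalgebra.toSubmodule S₀)
    (hk₁ : ∀ a (ha : a ∈ S₁), (∀ i, χ i ⟨a, h₁ ha⟩ = 0) → a ∈ 𝔪 • Subalgebra.toSubmodule S₁)
    (hk₂ : ∀ a (ha : a ∈ S₂), (∀ i, χ i ⟨a, ha⟩ = 0) → a ∈ 𝔪 • Subalgebra.toSubmodule S₂)
    (δ : ι → K) (hδ : ∀ i, δ i ^ 2 = δ i)
    (e₀ : E) (he₀ : e₀ ∈ S₀) (he₀' : ∀ i, χ i ⟨e₀, h₀ he₀⟩ = δ i)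
    (e₁ : E) (he₁ : e₁ ∈ S₁) (he₁' : ∀ i, χ i ⟨e₁, h₁ he₁⟩ = δ i)
    {m : ℕ} (b : Fin m → E)
    (hfg : Subalgebra.toSubmodule S₂ ≤ Subalgebra.toSubmodule S₀ ⊔ Subalgebra.toSubmodule S₁ ⊔
      Submodule.span R (Set.range b)) :
    ∃ (g : E) (hg : g ∈ S₀), g ∈ S₁ ∧ ∀ i, χ i ⟨g, h₀ hg⟩ = δ i := by
  classical
  obtain ⟨n, hn, hAR⟩ := artinRees 𝔪 (Subalgebra.toSubmodule S₀ ⊔ Subalgebra.toSubmodule S₁)
    (Subalgebra.toSubmodule S₂) b hfg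
  obtain ⟨n, rfl⟩ : ∃ n', n = n' + 1 := ⟨n - 1, by omega⟩
  -- the characters kill `𝔪 S₂`
  have hkill : ∀ i, ∀ x : S₂, x ∈ 𝔪.map (algebraMap R S₂) → χ i x = 0 := by
    intro i x hx
    have : 𝔪.map (algebraMap R S₂) ≤ RingHom.ker (χ i) := by
      rw [Ideal.map_le_iff_le_comap]
      intro r hr
      exact hχ i r hr
    exact this hx
  have hkill' : ∀ (S : Subalgebra R E) (hS : S ≤ S₂) (a : E) (ha : a ∈ S₂),
      a ∈ 𝔪 • Subalgebra.toSubmodule S → ∀ i, χ i ⟨a, ha⟩ = 0 := by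
    intro S hS a ha ha' i
    apply hkill
    rw [mem_smul_iff_map]
    exact smono _ (P := Subalgebra.toSubmodule S₂) hS ha'
  have lift : ∀ (S : Subalgebra R E) (hS : S ≤ S₂)
      (hk : ∀ a (ha : a ∈ S), (∀ i, χ i ⟨a, hS ha⟩ = 0) → a ∈ 𝔪 • Subalgebra.toSubmodule S)
      (e : E) (he : e ∈ S) (he' : ∀ i, χ i ⟨e, hS he⟩ = δ i),
      ∃ e' : E, ∃ he' : e' ∈ S, (∀ i, χ i ⟨e', hS he'⟩ = δ i) ∧
        e' ^ 2 - e' ∈ 𝔪 ^ (n + 1) • Subalgebra.toSubmodule S := by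
    intro S hS hk e he he'
    have h1 : (⟨e, he⟩ : S) ^ 2 - ⟨e, he⟩ ∈ 𝔪.map (algebraMap R S) := by
      rw [mem_smul_iff_map]
      apply hk _ (Subtype.property _)
      intro i
      have : (⟨(((⟨e, he⟩ : S) ^ 2 - ⟨e, he⟩ : S) : E), hS (Subtype.property _)⟩ : S₂) =
        ⟨e, hS he⟩ ^ 2 - ⟨e, hS he⟩ := rfl
      rw [this, map_sub, map_pow, he', hδ, sub_self]
    obtain ⟨f, hf1, hf2⟩ := lift_idem _ _ h1 n
    refine ⟨f, f.2, ?_, ?_⟩
    · intro i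
      rw [mem_smul_iff_map] at hf1
      have h2 := hkill' S hS _ (hS (Subtype.property _)) hf1 i
      have : (⟨((f - ⟨e, he⟩ : S) : E), hS (Subtype.property _)⟩ : S₂) =
        ⟨f, hS f.2⟩ - ⟨e, hS he⟩ := rfl
      rw [this, map_sub, he', sub_eq_zero] at h2
      exact h2
    · rw [← Ideal.map_pow, mem_smul_iff_map] at hf2
      exact hf2
  obtain ⟨f₀, hf₀, hf₀', hf₀''⟩ := lift S₀ h₀ hk₀ e₀ he₀ he₀'
  obtain ⟨f₁, hf₁, hf₁', hf₁''⟩ := lift S₁ h₁ hk₁ e₁ he₁ he₁'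
  have hd : (⟨f₀, h₀ hf₀⟩ : S₂) - ⟨f₁, h₁ hf₁⟩ ∈ (𝔪.map (algebraMap R S₂)) ^ (n + 1) := by
    apply idem_unique
    · rw [← Ideal.map_pow, mem_smul_iff_map]
      exact smono _ (P := Subalgebra.toSubmodule S₂) h₀ hf₀''
    · rw [← Ideal.map_pow, mem_smul_iff_map]
      exact smono _ (P := Subalgebra.toSubmodule S₂) h₁ hf₁''
    · rw [mem_smul_iff_map]
      apply hk₂ _ (Subtype.property _)
      intro i
      have : (⟨((⟨f₀, h₀ hf₀⟩ - ⟨f₁, h₁ hf₁⟩ : S₂) : E), Subtype.property _⟩ : S₂) =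
        ⟨f₀, h₀ hf₀⟩ - ⟨f₁, h₁ hf₁⟩ := rfl
      rw [this, map_sub, hf₀', hf₁', sub_self]
  rw [← Ideal.map_pow, mem_smul_iff_map] at hd
  have hd' : f₀ - f₁ ∈ 𝔪 • (Subalgebra.toSubmodule S₀ ⊔ Subalgebra.toSubmodule S₁) :=
    hAR ⟨hd, Submodule.sub_mem _ (Submodule.mem_sup_left hf₀) (Submodule.mem_sup_right hf₁)⟩
  rw [Submodule.smul_sup] at hd'
  obtain ⟨a₀, ha₀, a₁, ha₁, hsum⟩ := Submodule.mem_sup.mp hd'
  have ha₀' : a₀ ∈ S₀ := Submodule.smul_le_right (I := 𝔪) (N := Subalgebra.toSubmodule S₀) ha₀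
  have ha₁' : a₁ ∈ S₁ := Submodule.smul_le_right (I := 𝔪) (N := Subalgebra.toSubmodule S₁) ha₁
  refine ⟨f₀ - a₀, S₀.sub_mem hf₀ ha₀', ?_, ?_⟩
  · have : f₀ - a₀ = f₁ + a₁ := by linear_combination -hsum
    rw [this]
    exact S₁.add_mem hf₁ ha₁'
  · intro i
    have : (⟨f₀ - a₀, h₀ (S₀.sub_mem hf₀ ha₀')⟩ : S₂) = ⟨f₀, h₀ hf₀⟩ - ⟨a₀, h₀ ha₀'⟩ := rfl
    rw [this, map_sub, hf₀', hkill' S₀ h₀ a₀ (h₀ ha₀') ha₀ i, sub_zero]

end Pool.Agent.H27.H1
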