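import Mathlib

namespace Pool.Agent.H27.H1

structure GalData (T E Q : Type*) [CommRing T] [CommRing E] [Algebra T E] [Group Q] [Fintype Q]
    [MulSemiringAction Q E] : Prop where
  inj : Function.Injective (algebraMap T E)
  smul_algebraMap : ∀ (q : Q) (a : T), q • algebraMap T E a = algebraMap T E a
  fixed : ∀ e : E, (∀ q : Q, q • e = e) → ∃ a : T, algebraMap T E a = e

namespace GalData

variable {T E Q : Type*} [CommRing T] [CommRing E] [Algebra T E] [Group Q] [Fintype Q]
  [MulSemiringAction Q E] (h : GalData T E Q)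

include h in
lemma exists_tr (e : E) : ∃ t : T, algebraMap T E t = ∑ q : Q, q • e := by
  obtain ⟨a, ha⟩ := h.fixed (∑ q : Q, q • e) (fun q' => by
    rw [Finset.smul_sum]
    simp_rw [← mul_smul]
    exact Fintype.sum_equiv (Equiv.mulLeft q') _ _ (fun _ => rfl))
  exact ⟨a, ha⟩

/-- the trace -/
noncomputable def tr : E →ₗ[T] T where
  toFun e := (h.exists_tr e).choose
  map_add' a b := h.inj (by
    rw [map_add, (h.exists_tr _).choose_spec, (h.exists_tr _).choose_spec,
      (h.exists_tr _).choose_spec, ← Finset.sum_add_distrib]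
    simp)
  map_smul' t a := h.inj (by
    rw [(h.exists_tr _).choose_spec, smul_eq_mul, map_mul, RingHom.id_apply,
      (h.exists_tr _).choose_spec, Finset.mul_sum]
    refine Finset.sum_congr rfl fun q _ => ?_
    rw [Algebra.smul_def, smul_mul', h.smul_algebraMap])

lemma algebraMap_tr (e : E) : algebraMap T E (h.tr e) = ∑ q : Q, q • e :=
  (h.exists_tr e).choose_spec

end GalData

/-- a Galois frame -/
structure IsFrame (Q : Type*) {E : Type*} [CommRing E] [Group Q] [MulSemiringAction Q E] {n : ℕ}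
    (z w : Fin n → E) : Prop where
  one : ∑ j, z j * w j = 1
  ne : ∀ q : Q, q ≠ 1 → ∑ j, z j * (q • w j) = 0

section

variable {T E Q : Type*} [CommRing T] [CommRing E] [Algebra T E] [Group Q] [Fintype Q]
  [MulSemiringAction Q E] (h : GalData T E Q) {n : ℕ} {z w : Fin n → E} (hf : IsFrame Q z w)

include hf in
lemma GalData.expand (a : E) : ∑ j, h.tr (a * w j) • z j = a := by
  classical
  simp_rw [Algebra.smul_def, h.algebraMap_tr, smul_mul', Finset.sum_mul]
  rw [Finset.sum_comm]
  have : ∀ q : Q, ∑ j, q • a * q • w j * z j = if q = 1 then a else 0 := by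
    intro q
    have h1 : ∑ j, q • a * q • w j * z j = q • a * ∑ j, z j * (q • w j) := by
      rw [Finset.mul_sum]
      exact Finset.sum_congr rfl fun j _ => by ring
    rw [h1]
    split_ifs with hq
    · subst hq
      simp [hf.one]
    · rw [hf.ne q hq, mul_zero]
  simp [this]

end

section

variable {k T E Q : Type*} [Field k] [CommRing T] [Algebra k T] [CommRing E] [Algebra T E] [Group Q]
  [Fintype Q] [MulSemiringAction Q E] (h : GalData T E Q) {n : ℕ} (z w : Fin n → E)
  (hf : IsFrame Q z w)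

/-- the set of structure constants -/
def consts : Set T :=
  (Set.range fun p : Fin n × Fin n × Fin n => h.tr (z p.1 * z p.2.1 * w p.2.2)) ∪
  (Set.range fun l => h.tr (w l)) ∪
  (Set.range fun p : Fin n × Fin n => h.tr (z p.1 * w p.2)) ∪
  (Set.range fun p : Fin n × Fin n => h.tr (w p.1 * w p.2)) ∪
  (Set.range fun p : Q × Fin n × Fin n => h.tr ((p.1 • z p.2.1) * w p.2.2)) ∪
  (Set.range fun l => h.tr (z l))

lemma consts_finite : (consts h z w).Finite := by
  unfold consts
  refine Set.Finite.union (Set.Finite.union (Set.Finite.union (Set.Finite.union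
    (Set.Finite.union ?_ ?_) ?_) ?_) ?_) ?_ <;> exact Set.finite_range _

variable {z w}

lemma cst_zzw {J : Set T} (hc : consts h z w ⊆ J) (i j l : Fin n) : h.tr (z i * z j * w l) ∈ J :=
  hc (Or.inl (Or.inl (Or.inl (Or.inl (Or.inl ⟨(i, j, l), rfl⟩)))))

lemma cst_w {J : Set T} (hc : consts h z w ⊆ J) (l : Fin n) : h.tr (w l) ∈ J :=
  hc (Or.inl (Or.inl (Or.inl (Or.inl (Or.inr ⟨l, rfl⟩)))))

lemma cst_zw {J : Set T} (hc : consts h z w ⊆ J) (j l : Fin n) : h.tr (z j * w l) ∈ J :=
  hc (Or.inl (Or.inl (Or.inl (Or.inr ⟨(j, l), rfl⟩))))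

lemma cst_ww {J : Set T} (hc : consts h z w ⊆ J) (j l : Fin n) : h.tr (w j * w l) ∈ J :=
  hc (Or.inl (Or.inl (Or.inr ⟨(j, l), rfl⟩)))

lemma cst_qzw {J : Set T} (hc : consts h z w ⊆ J) (q : Q) (j l : Fin n) :
    h.tr ((q • z j) * w l) ∈ J :=
  hc (Or.inl (Or.inr ⟨(q, j, l), rfl⟩))

lemma cst_z {J : Set T} (hc : consts h z w ⊆ J) (l : Fin n) : h.tr (z l) ∈ J :=
  hc (Or.inr ⟨l, rfl⟩)

/-- the ring of elements all of whose coordinates are in `J` -/
def NN (J : Subalgebra k T) (hc : consts h z w ⊆ J) : Subalgebra J E where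
  carrier := {a | ∀ l, h.tr (a * w l) ∈ J}
  mul_mem' {a b} ha hb l := by
    have h1 : a * b * w l = ∑ i, ∑ j, (h.tr (a * w i) * h.tr (b * w j)) • (z i * z j * w l) := by
      conv_lhs => rw [← h.expand hf a, ← h.expand hf b]
      rw [Finset.sum_mul_sum, Finset.sum_mul]
      refine Finset.sum_congr rfl fun i _ => ?_
      rw [Finset.sum_mul]
      refine Finset.sum_congr rfl fun j _ => ?_
      simp only [Algebra.smul_def, map_mul]
      ring
    rw [h1, map_sum]
    refine sum_mem fun i _ => ?_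
    rw [map_sum]
    refine sum_mem fun j _ => ?_
    rw [map_smul, smul_eq_mul]
    exact J.mul_mem (J.mul_mem (ha i) (hb j)) (cst_zzw h hc i j l)
  add_mem' {a b} ha hb l := by
    rw [add_mul, map_add]
    exact J.add_mem (ha l) (hb l)
  algebraMap_mem' t l := by
    have : algebraMap J E t * w l = (t : T) • w l := by
      rw [Algebra.smul_def]; rfl
    rw [this, map_smul, smul_eq_mul]
    exact J.mul_mem t.2 (cst_w h hc l)

lemma mem_NN {J : Subalgebra k T} {hc : consts h z w ⊆ J} {a : E} :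
    a ∈ NN h hf J hc ↔ ∀ l, h.tr (a * w l) ∈ J := Iff.rfl

lemma smul_mem_NN {J : Subalgebra k T} {hc : consts h z w ⊆ J} {a : E} (ha : a ∈ NN h hf J hc)
    {t : T} (ht : t ∈ J) : t • a ∈ NN h hf J hc := by
  intro l
  rw [smul_mul_assoc, map_smul, smul_eq_mul]
  exact J.mul_mem ht (ha l)

lemma z_mem_NN {J : Subalgebra k T} {hc : consts h z w ⊆ J} (j : Fin n) : z j ∈ NN h hf J hc :=
  fun l => cst_zw h hc j l

lemma w_mem_NN {J : Subalgebra k T} {hc : consts h z w ⊆ J} (j : Fin n) : w j ∈ NN h hf J hc :=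
  fun l => cst_ww h hc j l

lemma act_mem_NN {J : Subalgebra k T} {hc : consts h z w ⊆ J} {a : E} (ha : a ∈ NN h hf J hc)
    (q : Q) : q • a ∈ NN h hf J hc := by
  intro l
  have h1 : q • a * w l = ∑ i, (h.tr (a * w i)) • ((q • z i) * w l) := by
    conv_lhs => rw [← h.expand hf a, Finset.smul_sum, Finset.sum_mul]
    refine Finset.sum_congr rfl fun i _ => ?_
    simp only [Algebra.smul_def, smul_mul', h.smul_algebraMap]
    ring
  rw [h1, map_sum]
  refine sum_mem fun i _ => ?_
  rw [map_smul, smul_eq_mul]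
  exact J.mul_mem (ha i) (cst_qzw h hc q i l)

lemma tr_mem_of_mem_NN {J : Subalgebra k T} {hc : consts h z w ⊆ J} {a : E}
    (ha : a ∈ NN h hf J hc) : h.tr a ∈ J := by
  conv => arg 2; rw [← h.expand hf a]
  rw [map_sum]
  refine sum_mem fun i _ => ?_
  rw [map_smul, smul_eq_mul]
  exact J.mul_mem (ha i) (cst_z h hc i)

lemma NN_fg (J : Subalgebra k T) (hc : consts h z w ⊆ J) :
    (Subalgebra.toSubmodule (NN h hf J hc)).FG := by
  classical
  refine ⟨Finset.univ.image z, le_antisymm ?_ ?_⟩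
  · rw [Submodule.span_le]
    intro x hx
    simp only [Finset.coe_image, Finset.coe_univ, Set.image_univ, Set.mem_range] at hx
    obtain ⟨j, rfl⟩ := hx
    exact z_mem_NN h hf (hc := hc) j
  · intro a ha
    rw [← h.expand hf a]
    refine Submodule.sum_mem _ fun j _ => ?_
    have : h.tr (a * w j) • z j = (⟨h.tr (a * w j), ha j⟩ : J) • z j := rfl
    rw [this]
    exact Submodule.smul_mem _ _ (Submodule.subset_span (by simp))

lemma isIntegral_of_mem_NN {J : Subalgebra k T} {hc : consts h z w ⊆ J} {a : E}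
    (ha : a ∈ NN h hf J hc) : IsIntegral J a :=
  IsIntegral.of_mem_of_fg _ (NN_fg h hf J hc) a ha

end

/-- extension of homomorphisms to an algebraically closed field along integral extensions -/
lemma ext_hom {A B K : Type*} [CommRing A] [CommRing B] [Field K] [IsAlgClosed K] [Algebra A B]
    (hf : Function.Injective (algebraMap A B)) [Algebra.IsIntegral A B] (φ : A →+* K) :
    ∃ e : B →+* K, e.comp (algebraMap A B) = φ := by
  have hker : (RingHom.ker φ).IsPrime := RingHom.ker_isPrime φ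
  obtain ⟨P, -, hP, hPc⟩ := Ideal.exists_ideal_over_prime_of_isIntegral (S := B)
    (RingHom.ker φ) ⊥ (by
      change RingHom.ker _ ≤ _
      rw [(RingHom.injective_iff_ker_eq_bot _).mp hf]; exact bot_le)
  have hle : RingHom.ker φ ≤ P.comap (algebraMap A B) := hPc.ge
  let _ : Algebra (A ⧸ RingHom.ker φ) (B ⧸ P) := (Ideal.quotientMap P (algebraMap A B) hle).toAlgebra
  let _ : Algebra (A ⧸ RingHom.ker φ) K := (RingHom.kerLift φ).toAlgebra
  have h1 : Function.Injective (algebraMap (A ⧸ RingHom.ker φ) (B ⧸ P)) :=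
    Ideal.quotientMap_injective' hPc.le
  have h2 : Function.Injective (algebraMap (A ⧸ RingHom.ker φ) K) := RingHom.kerLift_injective φ
  have h3 : Module.IsTorsionFree (A ⧸ RingHom.ker φ) (B ⧸ P) :=
    Module.isTorsionFree_iff_algebraMap_injective.mpr h1
  have h4 : Module.IsTorsionFree (A ⧸ RingHom.ker φ) K :=
    Module.isTorsionFree_iff_algebraMap_injective.mpr h2
  have h5 : Algebra.IsIntegral (A ⧸ RingHom.ker φ) (B ⧸ P) := ⟨by
    intro b
    obtain ⟨b, rfl⟩ := Ideal.Quotient.mk_surjective b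
    obtain ⟨p, hp, hp'⟩ := Algebra.IsIntegral.isIntegral (R := A) b
    refine ⟨p.map (Ideal.Quotient.mk _), hp.map _, ?_⟩
    rw [Polynomial.eval₂_map]
    have : (algebraMap (A ⧸ RingHom.ker φ) (B ⧸ P)).comp (Ideal.Quotient.mk (RingHom.ker φ)) =
      (Ideal.Quotient.mk P).comp (algebraMap A B) := by
      ext a; rfl
    rw [this, ← Polynomial.hom_eval₂, hp', map_zero]⟩
  let e : (B ⧸ P) →ₐ[A ⧸ RingHom.ker φ] K := IsAlgClosed.lift
  refine ⟨e.toRingHom.comp (Ideal.Quotient.mk P), ?_⟩
  ext a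
  have := e.commutes (Ideal.Quotient.mk _ a)
  exact this

end Pool.Agent.H27.H1
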