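import Mathlib
import Pool.Agent.H27.H1A
import Pool.Agent.H27.H1G
import Pool.Agent.H27.H1T

open scoped TensorProduct

namespace Pool.Agent.H27.H1

/-- Nullstellensatz: a finitely generated nonzero algebra over an algebraically closed field has a
rational point. -/
lemma exists_point (k R : Type*) [Field k] [IsAlgClosed k] [CommRing R] [Nontrivial R] [Algebra k R]
    [Algebra.FiniteType k R] : Nonempty (R →ₐ[k] k) := by
  obtain ⟨M, hM⟩ := Ideal.exists_maximal R
  let _ : Field (R ⧸ M) := Ideal.Quotient.field M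
  have h1 : Module.Finite k (R ⧸ M) := finite_of_finite_type_of_isJacobsonRing k (R ⧸ M)
  have h2 : Function.Bijective (algebraMap k (R ⧸ M)) :=
    IsAlgClosed.algebraMap_bijective_of_isIntegral
  let e : k ≃ₐ[k] (R ⧸ M) := AlgEquiv.ofBijective (Algebra.ofId k _) h2
  exact ⟨e.symm.toAlgHom.comp (Ideal.Quotient.mkₐ k M)⟩

section beta

variable {k O Ω : Type*} [Field k] [CommRing O] [Algebra k O] [CommRing Ω] [Algebra k Ω]
  {R : Subalgebra k Ω} (ρ : R →ₐ[k] k)

/-- a linear extension of `ρ` -/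
noncomputable def extρ : Ω →ₗ[k] k :=
  (LinearMap.exists_extend (p := Subalgebra.toSubmodule R) ρ.toLinearMap).choose

lemma extρ_apply {r : Ω} (hr : r ∈ R) : extρ ρ r = ρ ⟨r, hr⟩ := by
  have := (LinearMap.exists_extend (p := Subalgebra.toSubmodule R) ρ.toLinearMap).choose_spec
  exact congrArg (fun f => f ⟨r, hr⟩) this

/-- the residue map `O ⊗ R → O`, extended linearly to `O ⊗ Ω` -/
noncomputable def bet : O ⊗[k] Ω →ₗ[k] O := sl (extρ ρ)

lemma bet_tmul (o : O) {r : Ω} (hr : r ∈ R) : bet ρ (o ⊗ₜ[k] r) = ρ ⟨r, hr⟩ • o := by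
  rw [bet, sl_tmul, extρ_apply ρ hr]

lemma bet_tmul_one (o : O) : bet ρ (o ⊗ₜ[k] (1 : Ω)) = o := by
  rw [bet_tmul ρ o R.one_mem]
  have : (⟨1, R.one_mem⟩ : R) = 1 := rfl
  rw [this, map_one, one_smul]

lemma bet_mem {P : Subalgebra k O} {V : Subalgebra k Ω} {a : O ⊗[k] Ω} (ha : a ∈ starA P V) :
    bet ρ a ∈ P := sl_mem ha

lemma bet_one : bet (O := O) ρ 1 = 1 := bet_tmul_one ρ 1

lemma bet_mul {a b : O ⊗[k] Ω} (ha : a ∈ starA (⊤ : Subalgebra k O) R)
    (hb : b ∈ starA (⊤ : Subalgebra k O) R) : bet ρ (a * b) = bet ρ a * bet ρ b := by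
  refine starA_induction (p := fun a => bet ρ (a * b) = bet ρ a * bet ρ b) ?_ (by simp) ?_ ha
  · intro o _ r hr
    refine starA_induction (p := fun b => bet ρ (o ⊗ₜ[k] r * b) = bet ρ (o ⊗ₜ[k] r) * bet ρ b)
      ?_ (by simp) ?_ hb
    · intro o' _ r' hr'
      rw [Algebra.TensorProduct.tmul_mul_tmul, bet_tmul ρ _ (R.mul_mem hr hr'), bet_tmul ρ _ hr,
        bet_tmul ρ _ hr']
      have : (⟨r * r', R.mul_mem hr hr'⟩ : R) = ⟨r, hr⟩ * ⟨r', hr'⟩ := rfl
      rw [this, map_mul, smul_mul_smul_comm]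
    · intro x y _ _ h1 h2
      rw [mul_add, map_add, map_add, h1, h2, mul_add]
  · intro x y _ _ h1 h2
    rw [add_mul, map_add, map_add, h1, h2, add_mul]

/-- the residue map as a ring homomorphism -/
noncomputable def betHom (P : Subalgebra k O) : starA P R →+* O where
  toFun a := bet ρ a
  map_one' := bet_one ρ
  map_zero' := map_zero _
  map_add' _ _ := map_add _ _ _
  map_mul' a b := bet_mul ρ (starA_mono le_top le_rfl a.2) (starA_mono le_top le_rfl b.2)

end beta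

lemma mem_star_top {k O Ω : Type*} [Field k] [CommRing O] [Algebra k O] [CommRing Ω] [Algebra k Ω]
    (a : O ⊗[k] Ω) : a ∈ starA (⊤ : Subalgebra k O) (⊤ : Subalgebra k Ω) := by
  induction a using TensorProduct.induction_on with
  | zero => exact zero_mem _
  | tmul o ω => exact tmul_mem_starA trivial trivial
  | add x y hx hy => exact add_mem hx hy

lemma finite_cover {k O Ω : Type*} [Field k] [CommRing O] [Algebra k O] [CommRing Ω] [Algebra k Ω]
    {P : Subalgebra k O} {V : Subalgebra k Ω} {C : Set (O ⊗[k] Ω)} (hC : C.Finite)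
    (h : C ⊆ starA P V) : ∃ (F : Set O) (G : Set Ω), F.Finite ∧ G.Finite ∧ F ⊆ P ∧ G ⊆ V ∧
      ∀ (P' : Subalgebra k O) (V' : Subalgebra k Ω), F ⊆ P' → G ⊆ V' → C ⊆ starA P' V' := by
  induction C, hC using Set.Finite.induction_on with
  | empty => exact ⟨∅, ∅, by simp, by simp, by simp, by simp, by simp⟩
  | @insert a s _ _ ih =>
    obtain ⟨F, G, h1, h2, h3, h4, h5⟩ := ih ((Set.subset_insert _ _).trans h)
    obtain ⟨F', G', h6, h7, h8⟩ := star_finite (h (Set.mem_insert _ _))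
    refine ⟨F ∪ F', G ∪ G', h1.union F'.finite_toSet, h2.union G'.finite_toSet,
      Set.union_subset h3 h6, Set.union_subset h4 h7, ?_⟩
    intro P' V' h9 h10
    apply Set.insert_subset
    · exact h8 _ _ (fun f hf => h9 (Or.inr hf)) (fun g hg => h10 (Or.inr hg))
    · exact h5 _ _ (fun f hf => h9 (Or.inl hf)) (fun g hg => h10 (Or.inl hg))

set_option linter.unusedSectionVars false

section setting

variable {k O Ω E Q K : Type*} [Field k] [CommRing O] [Algebra k O] [CommRing Ω] [Algebra k Ω]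
  [CommRing E] [Algebra (O ⊗[k] Ω) E] [Group Q] [Fintype Q] [MulSemiringAction Q E] [Field K]
  (h : GalData (O ⊗[k] Ω) E Q) {R : Subalgebra k Ω} (ρ : R →ₐ[k] k) [Algebra R E]
  (hR : ∀ r : R, algebraMap R E r = algebraMap (O ⊗[k] Ω) E (1 ⊗ₜ[k] (r : Ω)))

variable {n : ℕ} {z w : Fin n → E} (hf : IsFrame Q z w)

/-- the ring `N` as an `R`-algebra -/
noncomputable def NR (P : Subalgebra k O) (hc : consts h z w ⊆ starA P R) :
    Subalgebra R E :=
  { carrier := {a | ∀ l, h.tr (a * w l) ∈ starA P R}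
    mul_mem' := (NN h hf (starA P R) hc).mul_mem
    add_mem' := (NN h hf (starA P R) hc).add_mem
    algebraMap_mem' := fun r => by
      rw [hR]
      exact (NN h hf (starA P R) hc).algebraMap_mem
        ⟨(1 : O) ⊗ₜ[k] (r : Ω), tmul_mem_starA P.one_mem r.2⟩ }

lemma mem_NR {P : Subalgebra k O} {hc : consts h z w ⊆ starA P R} {a : E} :
    a ∈ NR h hR hf P hc ↔ ∀ l, h.tr (a * w l) ∈ starA P R := Iff.rfl

lemma mem_NR' {P : Subalgebra k O} {hc : consts h z w ⊆ starA P R} {a : E} :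
    a ∈ NR h hR hf P hc ↔ a ∈ NN h hf (starA P R) hc := Iff.rfl

/-- residue: modulo `𝔪 N`, multiplication by `t` is multiplication by its residue -/
lemma residue {P : Subalgebra k O} {hc : consts h z w ⊆ starA P R} {a : E}
    (ha : a ∈ NR h hR hf P hc) {t : O ⊗[k] Ω} (ht : t ∈ starA P R) (h0 : bet ρ t = 0) :
    t • a ∈ (RingHom.ker ρ) • Subalgebra.toSubmodule (NR h hR hf P hc) := by
  have key : t • a - (bet ρ t ⊗ₜ[k] (1 : Ω)) • a ∈
      (RingHom.ker ρ) • Subalgebra.toSubmodule (NR h hR hf P hc) := by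
    refine starA_induction (p := fun t => t • a - (bet ρ t ⊗ₜ[k] (1 : Ω)) • a ∈
      (RingHom.ker ρ) • Subalgebra.toSubmodule (NR h hR hf P hc)) ?_ (by simp) ?_ ht
    · intro o ho r hr
      have e1 : (o ⊗ₜ[k] r) • a - (bet ρ (o ⊗ₜ[k] r) ⊗ₜ[k] (1 : Ω)) • a =
          ((⟨r, hr⟩ : R) - algebraMap k R (ρ ⟨r, hr⟩)) • ((o ⊗ₜ[k] (1 : Ω)) • a) := by
        rw [bet_tmul ρ o hr]
        rw [Algebra.smul_def ((⟨r, hr⟩ : R) - algebraMap k R (ρ ⟨r, hr⟩)), hR]
        simp only [Algebra.smul_def (R := O ⊗[k] Ω) (A := E)]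
        rw [← mul_assoc, ← map_mul, Algebra.TensorProduct.tmul_mul_tmul, one_mul, mul_one,
          ← sub_mul, ← map_sub]
        congr 2
        rw [AddSubgroupClass.coe_sub, TensorProduct.tmul_sub]
        congr 1
        rw [TensorProduct.smul_tmul]
        congr 1
        rw [Algebra.smul_def, mul_one]
        rfl
      rw [e1]
      refine Submodule.smul_mem_smul ?_ ?_
      · rw [RingHom.mem_ker, map_sub, AlgHom.commutes]
        simp
      · exact smul_mem_NN h hf (hc := hc) ha (tmul_mem_starA ho R.one_mem)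
    · intro x y _ _ h1 h2
      have : (x + y) • a - (bet ρ (x + y) ⊗ₜ[k] (1 : Ω)) • a = (x • a - (bet ρ x ⊗ₜ[k] (1 : Ω)) • a) +
        (y • a - (bet ρ y ⊗ₜ[k] (1 : Ω)) • a) := by
        rw [map_add, TensorProduct.add_tmul, add_smul, add_smul]
        abel
      rw [this]
      exact Submodule.add_mem _ h1 h2
  rw [h0, TensorProduct.zero_tmul, zero_smul, sub_zero] at key
  exact key

/-- a geometric point of a subring of `E`, over a geometric point of `O ⊗ R → O` -/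
structure PtData (Q : Type*) [Group Q] [MulSemiringAction Q E] (ρ : R →ₐ[k] k) (ι : O →+* K)
    (𝒩 : Subring E) (ε : 𝒩 →+* K) : Prop where
  act : ∀ (q : Q) a, a ∈ 𝒩 → q • a ∈ 𝒩
  alg : ∀ t ∈ starA (⊤ : Subalgebra k O) R, algebraMap (O ⊗[k] Ω) E t ∈ 𝒩
  eps : ∀ t (ht : t ∈ starA (⊤ : Subalgebra k O) R),
    ε ⟨algebraMap (O ⊗[k] Ω) E t, alg t ht⟩ = ι (bet ρ t)

section pt

variable {ρ} {ι : O →+* K} {𝒩 : Subring E} {ε : 𝒩 →+* K} (D : PtData Q ρ ι 𝒩 ε)

/-- the conjugates of a geometric point -/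
noncomputable def PtData.chi (q : Q) : 𝒩 →+* K :=
  ε.comp ((MulSemiringAction.toRingHom Q E q).restrict 𝒩 𝒩 (fun a ha => D.act q a ha))

lemma PtData.chi_apply (q : Q) {a : E} (ha : a ∈ 𝒩) :
    D.chi q ⟨a, ha⟩ = ε ⟨q • a, D.act q a ha⟩ := rfl

include h in
lemma PtData.chi_alg (q : Q) {t : O ⊗[k] Ω} (ht : t ∈ starA (⊤ : Subalgebra k O) R)
    (ht' : algebraMap (O ⊗[k] Ω) E t ∈ 𝒩) : D.chi q ⟨algebraMap (O ⊗[k] Ω) E t, ht'⟩ = ι (bet ρ t) := by
  rw [D.chi_apply, ← D.eps t ht]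
  congr 1
  exact Subtype.ext (h.smul_algebraMap q t)

lemma PtData.tr_eq {a : E} (ha : a ∈ 𝒩) (hta : h.tr a ∈ starA (⊤ : Subalgebra k O) R) :
    ι (bet ρ (h.tr a)) = ∑ q, D.chi q ⟨a, ha⟩ := by
  rw [← D.eps _ hta]
  simp_rw [D.chi_apply]
  rw [← map_sum]
  congr 1
  apply Subtype.ext
  rw [AddSubmonoidClass.coe_finsetSum]
  exact h.algebraMap_tr a

include D in
/-- the characters detect `𝔪 N` -/
lemma mem_smul_of_chi (hι : Function.Injective ι) {P : Subalgebra k O}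
    {hc : consts h z w ⊆ starA P R} (hle : ∀ a, a ∈ NR h hR hf P hc → a ∈ 𝒩) {a : E}
    (ha : a ∈ NR h hR hf P hc) (h0 : ∀ q, D.chi q ⟨a, hle a ha⟩ = 0) :
    a ∈ (RingHom.ker ρ) • Subalgebra.toSubmodule (NR h hR hf P hc) := by
  rw [← h.expand hf a]
  refine Submodule.sum_mem _ fun l _ => ?_
  have hl : h.tr (a * w l) ∈ starA P R := ha l
  refine residue h ρ hR hf (z_mem_NN h hf (hc := hc) l) hl ?_
  apply hι
  rw [map_zero]
  have hw : w l ∈ 𝒩 := hle _ (w_mem_NN h hf (hc := hc) l)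
  rw [D.tr_eq h (𝒩.mul_mem (hle a ha) hw) (starA_mono le_top le_rfl hl)]
  refine Finset.sum_eq_zero fun q _ => ?_
  have : (⟨a * w l, 𝒩.mul_mem (hle a ha) hw⟩ : 𝒩) = ⟨a, hle a ha⟩ * ⟨w l, hw⟩ := rfl
  rw [this, map_mul, h0, zero_mul]

include D in
/-- values of the geometric point are integral -/
lemma isIntegralElem_eps {P : Subalgebra k O} {hc : consts h z w ⊆ starA P R} {a : E}
    (ha : a ∈ NN h hf (starA P R) hc) (ha' : a ∈ 𝒩) :
    (ι.comp P.val.toRingHom).IsIntegralElem (ε ⟨a, ha'⟩) := by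
  obtain ⟨p, hp, hp'⟩ := isIntegral_of_mem_NN h hf ha
  let β : starA P R →+* P := (betHom ρ P).codRestrict P (fun a => bet_mem ρ a.2)
  let g : starA P R →+* 𝒩 := ((algebraMap (O ⊗[k] Ω) E).comp (starA P R).val.toRingHom).codRestrict 𝒩
    (fun a => D.alg a (starA_mono le_top le_rfl a.2))
  refine ⟨p.map β, hp.map _, ?_⟩
  rw [Polynomial.eval₂_map]
  have h1 : (ι.comp P.val.toRingHom).comp β = ε.comp g := by
    ext t
    exact (D.eps t (starA_mono le_top le_rfl t.2)).symm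
  have h2 : Polynomial.eval₂ g ⟨a, ha'⟩ p = 0 := by
    apply Subtype.ext
    have h3 := Polynomial.hom_eval₂ p g 𝒩.subtype ⟨a, ha'⟩
    refine (h3.trans ?_)
    exact hp'
  rw [h1, ← Polynomial.hom_eval₂, h2, map_zero]

end pt

lemma exists_pt [IsAlgClosed K] (ι : O →+* K) (hc : consts h z w ⊆ starA (⊤ : Subalgebra k O) R) :
    ∃ ε : (NN h hf (starA (⊤ : Subalgebra k O) R) hc).toSubring →+* K,
      PtData Q ρ ι (NN h hf (starA (⊤ : Subalgebra k O) R) hc).toSubring ε := by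
  have h1 : Module.Finite (starA (⊤ : Subalgebra k O) R) (NN h hf (starA (⊤ : Subalgebra k O) R) hc) :=
    Module.Finite.of_fg (NN_fg h hf _ hc)
  have h2 : Algebra.IsIntegral (starA (⊤ : Subalgebra k O) R)
      (NN h hf (starA (⊤ : Subalgebra k O) R) hc) := Algebra.IsIntegral.of_finite _ _
  have h3 : Function.Injective (algebraMap (starA (⊤ : Subalgebra k O) R)
      (NN h hf (starA (⊤ : Subalgebra k O) R) hc)) := by
    intro a b hab
    apply Subtype.ext
    apply h.inj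
    exact congrArg (fun u : NN h hf (starA (⊤ : Subalgebra k O) R) hc => (u : E)) hab
  obtain ⟨e, he⟩ := ext_hom (A := starA (⊤ : Subalgebra k O) R)
    (B := NN h hf (starA (⊤ : Subalgebra k O) R) hc) h3 (ι.comp (betHom ρ (⊤ : Subalgebra k O)))
  refine ⟨e, ?_, ?_, ?_⟩
  · intro q a ha
    exact act_mem_NN h hf (hc := hc) ha q
  · intro t ht
    exact (NN h hf (starA (⊤ : Subalgebra k O) R) hc).algebraMap_mem ⟨t, ht⟩
  · intro t ht
    exact congrArg (fun f => f ⟨t, ht⟩) he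

end setting

end Pool.Agent.H27.H1
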