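import Mathlib
import Pool.Agent.H27.H1C
import Pool.Agent.H27.H1I

open scoped TensorProduct

set_option linter.unusedSectionVars false

namespace Pool.Agent.H27.H1

section

variable {k O Ω E Q K : Type*} [Field k] [CommRing O] [Algebra k O] [CommRing Ω] [Algebra k Ω]
  [CommRing E] [Algebra (O ⊗[k] Ω) E] [Group Q] [Fintype Q] [MulSemiringAction Q E] [Field K]
  (h : GalData (O ⊗[k] Ω) E Q)

/-- comparison of coordinates -/
lemma compare {J : Subalgebra k (O ⊗[k] Ω)} {n₀ n₁ : ℕ} {w₀ : Fin n₀ → E} {z₁ w₁ : Fin n₁ → E}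
    (hf₁ : IsFrame Q z₁ w₁) (hJ : ∀ j l, h.tr (z₁ j * w₀ l) ∈ J) {a : E}
    (ha : ∀ l, h.tr (a * w₁ l) ∈ J) (l : Fin n₀) : h.tr (a * w₀ l) ∈ J := by
  have h1 : a * w₀ l = ∑ j, h.tr (a * w₁ j) • (z₁ j * w₀ l) := by
    conv_lhs => rw [← h.expand hf₁ a, Finset.sum_mul]
    exact Finset.sum_congr rfl fun j _ => by rw [smul_mul_assoc]
  rw [h1, map_sum]
  refine sum_mem fun j _ => ?_
  rw [map_smul, smul_eq_mul]
  exact J.mul_mem (ha j) (hJ j l)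

variable {R : Subalgebra k Ω} {ρ : R →ₐ[k] k} [Algebra R E]
  (hR : ∀ r : R, algebraMap R E r = algebraMap (O ⊗[k] Ω) E (1 ⊗ₜ[k] (r : Ω)))

/-- the idempotent at the special fibre -/
lemma eps_prop [DecidableEq Q] {n : ℕ} {z w : Fin n → E} (hf : IsFrame Q z w) {P : Subalgebra k O}
    (hc : consts h z w ⊆ starA P R) {ι : O →+* K} {𝒩 : Subring E} {ε : 𝒩 →+* K}
    (D : PtData Q ρ ι 𝒩 ε) (hle : ∀ a, a ∈ NR h hR hf P hc → a ∈ 𝒩) (ζ : Fin n → O)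
    (hζ : ∀ j, ζ j ∈ P) (hζ' : ∀ j, ι (ζ j) = ε ⟨z j, hle _ (z_mem_NN h hf (hc := hc) j)⟩) :
    ∃ (e : E) (he : e ∈ NR h hR hf P hc), ∀ q, D.chi q ⟨e, hle e he⟩ = if q = 1 then 1 else 0 := by
  have hmem : ∀ j, (ζ j ⊗ₜ[k] (1 : Ω)) • w j ∈ NR h hR hf P hc := fun j =>
    smul_mem_NN h hf (hc := hc) (w_mem_NN h hf (hc := hc) j) (tmul_mem_starA (hζ j) R.one_mem)
  have he : (∑ j, (ζ j ⊗ₜ[k] (1 : Ω)) • w j) ∈ NR h hR hf P hc := sum_mem fun j _ => hmem j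
  refine ⟨_, he, fun q => ?_⟩
  have hz : ∀ j, z j ∈ 𝒩 := fun j => hle _ (z_mem_NN h hf (hc := hc) j)
  have hw : ∀ j, w j ∈ 𝒩 := fun j => hle _ (w_mem_NN h hf (hc := hc) j)
  have h1 : (⟨∑ j, (ζ j ⊗ₜ[k] (1 : Ω)) • w j, hle _ he⟩ : 𝒩) =
      ∑ j, ⟨algebraMap (O ⊗[k] Ω) E (ζ j ⊗ₜ[k] (1 : Ω)),
        D.alg _ (tmul_mem_starA trivial R.one_mem)⟩ * ⟨w j, hw j⟩ := by
    apply Subtype.ext
    have h0 := AddSubmonoidClass.coe_finsetSum (S := 𝒩) (fun j => (⟨algebraMap (O ⊗[k] Ω) E (ζ j ⊗ₜ[k] (1 : Ω)),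
        D.alg _ (tmul_mem_starA trivial R.one_mem)⟩ * ⟨w j, hw j⟩ : 𝒩)) Finset.univ
    refine Eq.trans ?_ h0.symm
    change (∑ j, (ζ j ⊗ₜ[k] (1 : Ω)) • w j) = _
    refine Finset.sum_congr rfl fun j _ => ?_
    rw [Algebra.smul_def]
    rfl
  rw [h1, map_sum]
  simp_rw [map_mul]
  have h2 : ∀ j, D.chi q ⟨algebraMap (O ⊗[k] Ω) E (ζ j ⊗ₜ[k] (1 : Ω)),
        D.alg _ (tmul_mem_starA trivial R.one_mem)⟩ = ε ⟨z j, hz j⟩ := by
    intro j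
    rw [D.chi_alg h q (tmul_mem_starA trivial R.one_mem), bet_tmul_one, hζ']
  simp_rw [h2, D.chi_apply]
  simp_rw [← map_mul]
  rw [← map_sum]
  have h3 : (∑ j, (⟨z j, hz j⟩ : 𝒩) * ⟨q • w j, D.act q _ (hw j)⟩) = if q = 1 then 1 else 0 := by
    apply Subtype.ext
    refine (AddSubmonoidClass.coe_finsetSum _ _).trans ?_
    change ∑ j, z j * (q • w j) = _
    split_ifs with hq
    · subst hq
      simp [hf.one]
    · rw [hf.ne q hq]; rfl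
  rw [h3]
  split_ifs <;> simp

/-- finite generation of `H¹` -/
lemma fg_aux {n₀ n₁ : ℕ} {z₀ w₀ : Fin n₀ → E} {z₁ w₁ : Fin n₁ → E} (hf₀ : IsFrame Q z₀ w₀)
    (hf₁ : IsFrame Q z₁ w₁) {P₀ P₁ P₂ : Subalgebra k O} (hP₀ : P₀ ≤ P₂)
    (hc₀ : consts h z₀ w₀ ⊆ starA P₀ R) (hc₂ : consts h z₀ w₀ ⊆ starA P₂ R)
    (hc₁ : consts h z₁ w₁ ⊆ starA P₁ R)
    (h10 : ∀ j l, h.tr (z₀ j * w₁ l) ∈ starA P₂ R)
    {X Y : O} (hXY : X * Y = 1) (hX : X ∈ P₀) (hY : Y ∈ P₁)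
    (h₀ : ∀ p ∈ P₂, ∃ n : ℕ, X ^ n * p ∈ P₀) (h₁ : ∀ p ∈ P₂, ∃ n : ℕ, Y ^ n * p ∈ P₁)
    {G : Set O} (hG : G.Finite) (hGP : G ⊆ P₀)
    (hspan : Subalgebra.toSubmodule P₀ ≤ Submodule.span k {p | ∃ (n : ℕ), ∃ g ∈ G, p = X ^ n * g}) :
    ∃ (m : ℕ) (b : Fin m → E), Subalgebra.toSubmodule (NR h hR hf₀ P₂ hc₂) ≤
      Subalgebra.toSubmodule (NR h hR hf₀ P₀ hc₀) ⊔ Subalgebra.toSubmodule (NR h hR hf₁ P₁ hc₁) ⊔
      Submodule.span R (Set.range b) := by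
  classical
  -- denominators for elements of `star P₂ R`
  have hden : ∀ t ∈ starA P₂ R, ∃ n : ℕ, ((Y ^ n) ⊗ₜ[k] (1 : Ω)) * t ∈ starA P₁ R := by
    intro t ht
    refine starA_induction (p := fun t => ∃ n : ℕ, ((Y ^ n) ⊗ₜ[k] (1 : Ω)) * t ∈ starA P₁ R) ?_ ?_ ?_ ht
    · intro o ho r hr
      obtain ⟨n, hn⟩ := h₁ o ho
      refine ⟨n, ?_⟩
      rw [Algebra.TensorProduct.tmul_mul_tmul, one_mul]
      exact tmul_mem_starA hn hr
    · exact ⟨0, by simp⟩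
    · rintro a b - - ⟨n, hn⟩ ⟨m, hm⟩
      refine ⟨n + m, ?_⟩
      have : ((Y ^ (n + m)) ⊗ₜ[k] (1 : Ω)) * (a + b) =
          ((Y ^ m) ⊗ₜ[k] (1 : Ω)) * (((Y ^ n) ⊗ₜ[k] (1 : Ω)) * a) +
          ((Y ^ n) ⊗ₜ[k] (1 : Ω)) * (((Y ^ m) ⊗ₜ[k] (1 : Ω)) * b) := by
        rw [← mul_assoc, ← mul_assoc, Algebra.TensorProduct.tmul_mul_tmul,
          Algebra.TensorProduct.tmul_mul_tmul, ← pow_add, ← pow_add, mul_one, add_comm m n, mul_add]
      rw [this]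
      have hYm : ∀ m : ℕ, ((Y ^ m) ⊗ₜ[k] (1 : Ω)) ∈ starA P₁ R := fun m =>
        tmul_mem_starA (P₁.pow_mem hY m) R.one_mem
      exact add_mem (mul_mem (hYm m) hn) (mul_mem (hYm n) hm)
  -- a uniform exponent `M` with `Y^M g z_l ∈ N₁`
  have hM : ∃ M : ℕ, ∀ g ∈ G, ∀ j : Fin n₀, ∀ l : Fin n₁, ∀ n, M ≤ n →
      ((Y ^ n) ⊗ₜ[k] (1 : Ω)) * h.tr (((g ⊗ₜ[k] (1 : Ω)) • z₀ j) * w₁ l) ∈ starA P₁ R := by
    have hone : ∀ t ∈ starA P₂ R, ∃ M : ℕ, ∀ n, M ≤ n → ((Y ^ n) ⊗ₜ[k] (1 : Ω)) * t ∈ starA P₁ R := by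
      intro t ht
      obtain ⟨M, hM⟩ := hden t ht
      refine ⟨M, fun n hn => ?_⟩
      obtain ⟨d, rfl⟩ : ∃ d, n = d + M := ⟨n - M, by omega⟩
      have : ((Y ^ (d + M)) ⊗ₜ[k] (1 : Ω)) * t = ((Y ^ d) ⊗ₜ[k] (1 : Ω)) * (((Y ^ M) ⊗ₜ[k] (1 : Ω)) * t) := by
        rw [← mul_assoc, Algebra.TensorProduct.tmul_mul_tmul, ← pow_add, mul_one]
      rw [this]
      exact mul_mem (tmul_mem_starA (P₁.pow_mem hY d) R.one_mem) hM
    have hfin : (Set.range fun p : hG.toFinset × Fin n₀ × Fin n₁ =>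
      h.tr ((((p.1 : O) ⊗ₜ[k] (1 : Ω)) • z₀ p.2.1) * w₁ p.2.2)).Finite := Set.finite_range _
    have hsub : ∀ t ∈ (Set.range fun p : hG.toFinset × Fin n₀ × Fin n₁ =>
      h.tr ((((p.1 : O) ⊗ₜ[k] (1 : Ω)) • z₀ p.2.1) * w₁ p.2.2)),
        ∃ M : ℕ, ∀ n, M ≤ n → ((Y ^ n) ⊗ₜ[k] (1 : Ω)) * t ∈ starA P₁ R := by
      rintro _ ⟨p, rfl⟩
      apply hone
      dsimp only
      rw [smul_mul_assoc, map_smul, smul_eq_mul]
      refine mul_mem (tmul_mem_starA (hP₀ (hGP ?_)) R.one_mem) (h10 _ _)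
      exact hG.mem_toFinset.mp p.1.2
    choose! M hM using hsub
    obtain ⟨B, hB⟩ := (hfin.image M).bddAbove
    refine ⟨B, fun g hg j l n hn => ?_⟩
    have hmem : h.tr (((g ⊗ₜ[k] (1 : Ω)) • z₀ j) * w₁ l) ∈
      (Set.range fun p : hG.toFinset × Fin n₀ × Fin n₁ =>
      h.tr ((((p.1 : O) ⊗ₜ[k] (1 : Ω)) • z₀ p.2.1) * w₁ p.2.2)) :=
      ⟨(⟨g, hG.mem_toFinset.mpr hg⟩, j, l), rfl⟩
    exact hM _ hmem n ((hB ⟨_, hmem, rfl⟩).trans hn)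
  obtain ⟨M, hM⟩ := hM
  -- the finite generating set
  let ι' := Fin M × hG.toFinset × Fin n₀
  let b' : ι' → E := fun p => (((Y ^ (p.1 : ℕ) * (p.2.1 : O)) ⊗ₜ[k] (1 : Ω)) • z₀ p.2.2)
  let eqv := (Fintype.equivFin ι').symm
  refine ⟨Fintype.card ι', b' ∘ eqv, ?_⟩
  have hrange : Set.range (b' ∘ eqv) = Set.range b' := eqv.surjective.range_comp _
  rw [hrange]
  set A := Subalgebra.toSubmodule (NR h hR hf₀ P₀ hc₀) ⊔ Subalgebra.toSubmodule (NR h hR hf₁ P₁ hc₁) ⊔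
      Submodule.span R (Set.range b') with hA
  -- key: `(Y^n X^m g ⊗ 1) z_l` in `A`
  have key1 : ∀ n : ℕ, ∀ g ∈ G, ∀ j, ((Y ^ n * g) ⊗ₜ[k] (1 : Ω)) • z₀ j ∈ A := by
    intro n g hg j
    by_cases hn : n < M
    · refine Submodule.mem_sup_right (Submodule.subset_span ⟨(⟨n, hn⟩, ⟨g, hG.mem_toFinset.mpr hg⟩, j), rfl⟩)
    · refine Submodule.mem_sup_left (Submodule.mem_sup_right ?_)
      intro l
      have := hM g hg j l n (by omega)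
      have e1 : ((Y ^ n * g) ⊗ₜ[k] (1 : Ω)) • z₀ j * w₁ l =
          ((Y ^ n) ⊗ₜ[k] (1 : Ω)) • (((g ⊗ₜ[k] (1 : Ω)) • z₀ j) * w₁ l) := by
        rw [smul_mul_assoc, smul_mul_assoc, smul_smul, Algebra.TensorProduct.tmul_mul_tmul, one_mul]
      rw [e1, map_smul, smul_eq_mul]
      exact this
  have key2 : ∀ m n : ℕ, ∀ g ∈ G, ∀ j, ((Y ^ n * (X ^ m * g)) ⊗ₜ[k] (1 : Ω)) • z₀ j ∈ A := by
    intro m
    induction m with
    | zero => intro n g hg j; simpa using key1 n g hg j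
    | succ m ih =>
      intro n g hg j
      cases n with
      | zero =>
        refine Submodule.mem_sup_left (Submodule.mem_sup_left ?_)
        refine smul_mem_NN h hf₀ (hc := hc₀) (z_mem_NN h hf₀ (hc := hc₀) j)
          (tmul_mem_starA ?_ R.one_mem)
        rw [pow_zero, one_mul]
        exact P₀.mul_mem (P₀.pow_mem hX _) (hGP hg)
      | succ n =>
        have : Y ^ (n + 1) * (X ^ (m + 1) * g) = Y ^ n * (X ^ m * g) := by
          calc Y ^ (n + 1) * (X ^ (m + 1) * g) = (X * Y) * (Y ^ n * (X ^ m * g)) := by ring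
            _ = _ := by rw [hXY, one_mul]
        rw [this]
        exact ih n g hg j
  -- elements of `P₂`
  have key3 : ∀ p ∈ P₂, ∀ r ∈ R, ∀ j, (p ⊗ₜ[k] r) • z₀ j ∈ A := by
    intro p hp r hr j
    obtain ⟨n, hn⟩ := h₀ p hp
    have e1 : p = Y ^ n * (X ^ n * p) := by
      rw [← mul_assoc, ← mul_pow, mul_comm Y X, hXY, one_pow, one_mul]
    have h2 := hspan hn
    have h3 : ∀ p' ∈ Submodule.span k {p | ∃ (n : ℕ), ∃ g ∈ G, p = X ^ n * g},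
        ((Y ^ n * p') ⊗ₜ[k] (1 : Ω)) • z₀ j ∈ A := by
      intro p' hp'
      induction hp' using Submodule.span_induction with
      | mem z hz =>
        obtain ⟨m, g, hg, rfl⟩ := hz
        exact key2 m n g hg j
      | zero => rw [mul_zero, TensorProduct.zero_tmul, zero_smul]; exact Submodule.zero_mem _
      | add a b _ _ h1 h2 =>
        rw [mul_add, TensorProduct.add_tmul, add_smul]; exact Submodule.add_mem _ h1 h2
      | smul c a _ h5 =>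
        have : ((Y ^ n * c • a) ⊗ₜ[k] (1 : Ω)) • z₀ j =
            (algebraMap k R c) • ((Y ^ n * a) ⊗ₜ[k] (1 : Ω)) • z₀ j := by
          rw [Algebra.smul_def (algebraMap k R c), hR]
          simp only [Algebra.smul_def (R := O ⊗[k] Ω) (A := E)]
          rw [← mul_assoc, ← map_mul, Algebra.TensorProduct.tmul_mul_tmul, one_mul, mul_one,
            mul_smul_comm, TensorProduct.smul_tmul]
          congr 3
          rw [Algebra.smul_def, mul_one]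
          rfl
        rw [this]
        exact Submodule.smul_mem _ _ h5
    have h4 := h3 _ h2
    rw [← e1] at h4
    have e2 : (p ⊗ₜ[k] r) • z₀ j = (⟨r, hr⟩ : R) • ((p ⊗ₜ[k] (1 : Ω)) • z₀ j) := by
      rw [Algebra.smul_def (⟨r, hr⟩ : R), hR]
      simp only [Algebra.smul_def (R := O ⊗[k] Ω) (A := E)]
      rw [← mul_assoc, ← map_mul, Algebra.TensorProduct.tmul_mul_tmul, one_mul, mul_one]
    rw [e2]
    exact Submodule.smul_mem _ _ h4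
  intro a ha
  rw [← h.expand hf₀ a]
  refine Submodule.sum_mem _ fun j _ => ?_
  have hj : h.tr (a * w₀ j) ∈ starA P₂ R := ha j
  refine starA_induction (p := fun t => t • z₀ j ∈ A) ?_ ?_ ?_ hj
  · intro o ho r hr
    exact key3 o ho r hr j
  · rw [zero_smul]; exact Submodule.zero_mem _
  · intro x y _ _ h1 h2
    rw [add_smul]
    exact Submodule.add_mem _ h1 h2

end

end Pool.Agent.H27.H1
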