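import Mathlib
import Pool.Agent.H27.H1D

open scoped TensorProduct

set_option linter.unusedSectionVars false

namespace Pool.Agent.H27.H1

section

variable {k O Ω E Q K : Type*} [Field k] [CommRing O] [Algebra k O] [Field Ω] [Algebra k Ω]
  [CommRing E] [Algebra (O ⊗[k] Ω) E] [Group Q] [Fintype Q] [MulSemiringAction Q E] [Field K]
  (h : GalData (O ⊗[k] Ω) E Q) {R : Subalgebra k Ω} {ρ : R →ₐ[k] k} [Algebra R E]
  (hR : ∀ r : R, algebraMap R E r = algebraMap (O ⊗[k] Ω) E (1 ⊗ₜ[k] (r : Ω)))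

/-- the Gram matrix of a lift of the idempotent of the special fibre is invertible -/
lemma gram_aux [DecidableEq Q] [Nontrivial O] {ι : O →+* K} {𝒩 : Subring E} {ε : 𝒩 →+* K}
    (D : PtData Q ρ ι 𝒩 ε) {P₀ P₁ : Subalgebra k O}
    (hinter : ∀ o ∈ P₀, o ∈ P₁ → ∃ c : k, o = c • (1 : O))
    {n₀ n₁ : ℕ} {z₀ w₀ : Fin n₀ → E} {z₁ w₁ : Fin n₁ → E} (hf₀ : IsFrame Q z₀ w₀)
    (hf₁ : IsFrame Q z₁ w₁) (hc₀ : consts h z₀ w₀ ⊆ starA P₀ R) (hc₁ : consts h z₁ w₁ ⊆ starA P₁ R)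
    {g : E} (hg₀ : g ∈ NR h hR hf₀ P₀ hc₀) (hg₁ : g ∈ NR h hR hf₁ P₁ hc₁) (hg : g ∈ 𝒩)
    (hgχ : ∀ q, D.chi q ⟨g, hg⟩ = if q = 1 then 1 else 0) :
    ∃ G : Matrix Q Q Ω, (∀ q q' : Q, h.tr (q • g * q' • g) = 1 ⊗ₜ[k] G q q') ∧ G.det ≠ 0 := by
  have hm₀ : ∀ q q' : Q, h.tr (q • g * q' • g) ∈ starA P₀ R := fun q q' =>
    tr_mem_of_mem_NN h hf₀ (hc := hc₀) ((NN h hf₀ _ hc₀).mul_mem
      (act_mem_NN h hf₀ (hc := hc₀) hg₀ q) (act_mem_NN h hf₀ (hc := hc₀) hg₀ q'))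
  have hm₁ : ∀ q q' : Q, h.tr (q • g * q' • g) ∈ starA P₁ R := fun q q' =>
    tr_mem_of_mem_NN h hf₁ (hc := hc₁) ((NN h hf₁ _ hc₁).mul_mem
      (act_mem_NN h hf₁ (hc := hc₁) hg₁ q) (act_mem_NN h hf₁ (hc := hc₁) hg₁ q'))
  have hex : ∀ q q' : Q, ∃ r : R, h.tr (q • g * q' • g) = 1 ⊗ₜ[k] (r : Ω) := by
    intro q q'
    obtain ⟨ω, hω⟩ := exists_of_inter (P₀ := Subalgebra.toSubmodule P₀)
      (P₁ := Subalgebra.toSubmodule P₁) hinter (hm₀ q q') (hm₁ q q')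
    have hω' : ω ∈ Subalgebra.toSubmodule R :=
      mem_of_one_tmul (P := Subalgebra.toSubmodule P₀) (by rw [← hω]; exact hm₀ q q')
    exact ⟨⟨ω, hω'⟩, hω⟩
  choose r hr using hex
  refine ⟨fun q q' => r q q', hr, ?_⟩
  let GR : Matrix Q Q R := fun q q' => r q q'
  let κ : R →+* K := (ι.comp (algebraMap k O)).comp ρ.toRingHom
  have hκ : κ.mapMatrix GR = 1 := by
    ext q q'
    rw [RingHom.mapMatrix_apply, Matrix.map_apply]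
    have h1 : κ (GR q q') = ι (bet ρ (h.tr (q • g * q' • g))) := by
      rw [hr, bet_tmul ρ 1 (r q q').2]
      change ι (algebraMap k O (ρ (r q q'))) = _
      rw [Algebra.algebraMap_eq_smul_one]
    have hq : ∀ q : Q, q • g ∈ 𝒩 := fun q => D.act q g hg
    rw [h1, D.tr_eq h (𝒩.mul_mem (hq q) (hq q')) (starA_mono le_top le_rfl (hm₀ q q'))]
    have h2 : ∀ q'' : Q, D.chi q'' ⟨q • g * q' • g, 𝒩.mul_mem (hq q) (hq q')⟩ =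
        (if q'' * q = 1 then 1 else 0) * (if q'' * q' = 1 then 1 else 0) := by
      intro q''
      have e1 : (⟨q • g * q' • g, 𝒩.mul_mem (hq q) (hq q')⟩ : 𝒩) = ⟨q • g, hq q⟩ * ⟨q' • g, hq q'⟩ := rfl
      have e2 : ∀ q : Q, D.chi q'' ⟨q • g, hq q⟩ = D.chi (q'' * q) ⟨g, hg⟩ := by
        intro q
        rw [D.chi_apply, D.chi_apply]
        congr 1
        exact Subtype.ext (mul_smul _ _ _).symm
      rw [e1, map_mul, e2, e2, hgχ, hgχ]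
    simp_rw [h2]
    rw [Matrix.one_apply]
    split_ifs with hqq
    · subst hqq
      rw [Finset.sum_eq_single q⁻¹]
      · simp
      · intro b _ hb
        have : b * q ≠ 1 := fun hb' => hb (eq_inv_of_mul_eq_one_left hb')
        simp [this]
      · simp
    · refine Finset.sum_eq_zero fun b _ => ?_
      by_cases hb : b * q = 1
      · have : b * q' ≠ 1 := by
          intro hb'
          exact hqq (mul_left_cancel (hb.trans hb'.symm))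
        simp [this]
      · simp [hb]
  have hdet : κ GR.det = 1 := by
    rw [RingHom.map_det, hκ, Matrix.det_one]
  intro h0
  have h1 : (GR.det : Ω) = 0 := by
    rw [← h0]
    have := RingHom.map_det R.val.toRingHom GR
    exact this
  have h2 : GR.det = 0 := Subtype.ext h1
  rw [h2, map_zero] at hdet
  exact zero_ne_one hdet

end

/-- `E` as an `R`-algebra -/
@[reducible] noncomputable def algRE {k : Type*} [Field k] (O : Type*) {Ω E : Type*} [CommRing O]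
    [Algebra k O] [CommRing Ω] [Algebra k Ω] [CommRing E] [Algebra (O ⊗[k] Ω) E]
    (R : Subalgebra k Ω) : Algebra R E :=
  ((algebraMap (O ⊗[k] Ω) E).comp ((Algebra.TensorProduct.includeRight :
    Ω →ₐ[k] O ⊗[k] Ω).toRingHom.comp R.val.toRingHom)).toAlgebra

theorem core {k O Ω K E Q : Type*} [Field k] [IsAlgClosed k] [CommRing O] [Nontrivial O]
    [Algebra k O] [Field Ω] [Algebra k Ω] [Field K] [IsAlgClosed K] [CommRing E]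
    [Algebra (O ⊗[k] Ω) E] [Group Q] [Fintype Q] [MulSemiringAction Q E]
    (h : GalData (O ⊗[k] Ω) E Q) (ι : O →+* K) (hι : Function.Injective ι)
    {X Y : O} (hXY : X * Y = 1) {O₀ O₁ : Subalgebra k O} (hX : X ∈ O₀) (hY : Y ∈ O₁)
    (h₀ : ∀ y : O, ∃ n : ℕ, X ^ n * y ∈ O₀) (h₁ : ∀ y : O, ∃ n : ℕ, Y ^ n * y ∈ O₁)
    (hint : ∀ y ∈ O₀, IsIntegral (Algebra.adjoin k {X}) y)
    (hcl₀ : ∀ y : K, (ι.comp O₀.val.toRingHom).IsIntegralElem y → ∃ o ∈ O₀, ι o = y)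
    (hcl₁ : ∀ y : K, (ι.comp O₁.val.toRingHom).IsIntegralElem y → ∃ o ∈ O₁, ι o = y)
    (hinter : ∀ o ∈ O₀, o ∈ O₁ → ∃ c : k, o = c • (1 : O))
    {n₀ n₁ : ℕ} {z₀ w₀ : Fin n₀ → E} {z₁ w₁ : Fin n₁ → E} (hf₀ : IsFrame Q z₀ w₀)
    (hf₁ : IsFrame Q z₁ w₁) (hc₀ : consts h z₀ w₀ ⊆ starA O₀ (⊤ : Subalgebra k Ω))
    (hc₁ : consts h z₁ w₁ ⊆ starA O₁ (⊤ : Subalgebra k Ω)) :
    ∃ g : E, (∀ l, h.tr (g * w₀ l) ∈ starA O₀ (⊤ : Subalgebra k Ω)) ∧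
      (∀ l, h.tr (g * w₁ l) ∈ starA O₁ (⊤ : Subalgebra k Ω)) ∧
      ∃ G : Matrix Q Q Ω, (∀ q q' : Q, h.tr (q • g * q' • g) = 1 ⊗ₜ[k] G q q') ∧
        (open scoped Classical in G.det) ≠ 0 := by
  classical
  obtain ⟨FA₀, GA₀, hFA₀, hGA₀, hFA₀', -, hcov₀⟩ := finite_cover (consts_finite h z₀ w₀) hc₀
  obtain ⟨FA₁, GA₁, hFA₁, hGA₁, hFA₁', -, hcov₁⟩ := finite_cover (consts_finite h z₁ w₁) hc₁
  let CB : Set (O ⊗[k] Ω) := (Set.range fun p : Fin n₁ × Fin n₀ => h.tr (z₁ p.1 * w₀ p.2)) ∪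
    (Set.range fun p : Fin n₀ × Fin n₁ => h.tr (z₀ p.1 * w₁ p.2))
  obtain ⟨FB, GB, hFB, hGB, -, -, hcovB⟩ := finite_cover (C := CB)
    (Set.Finite.union (Set.finite_range _) (Set.finite_range _)) (fun a _ => mem_star_top a)
  let R : Subalgebra k Ω := Algebra.adjoin k (GA₀ ∪ GA₁ ∪ GB)
  have hGA₀R : GA₀ ⊆ R := fun y hy => Algebra.subset_adjoin (Or.inl (Or.inl hy))
  have hGA₁R : GA₁ ⊆ R := fun y hy => Algebra.subset_adjoin (Or.inl (Or.inr hy))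
  have hGBR : GB ⊆ R := fun y hy => Algebra.subset_adjoin (Or.inr hy)
  have hfg : R.FG := Subalgebra.fg_def.mpr ⟨_, (hGA₀.union hGA₁).union hGB, rfl⟩
  have hft : Algebra.FiniteType k R := (Subalgebra.fg_iff_finiteType R).mp hfg
  have hnoeth : IsNoetherianRing R := Algebra.FiniteType.isNoetherianRing k R
  obtain ⟨ρ⟩ := exists_point k R
  let _ : Algebra R E := algRE O R
  have hR : ∀ r : R, algebraMap R E r = algebraMap (O ⊗[k] Ω) E (1 ⊗ₜ[k] (r : Ω)) := fun r => rfl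
  have hcB₀ : consts h z₀ w₀ ⊆ starA (⊤ : Subalgebra k O) R := hcov₀ ⊤ R (fun _ _ => trivial) hGA₀R
  obtain ⟨ε, D⟩ := exists_pt h ρ hf₀ ι hcB₀
  have hcmp1 : ∀ (P : Subalgebra k O), FB ⊆ P → ∀ j l, h.tr (z₁ j * w₀ l) ∈ starA P R :=
    fun P hP j l => hcovB P R hP hGBR (Or.inl ⟨(j, l), rfl⟩)
  have hcmp0 : ∀ (P : Subalgebra k O), FB ⊆ P → ∀ j l, h.tr (z₀ j * w₁ l) ∈ starA P R :=
    fun P hP j l => hcovB P R hP hGBR (Or.inr ⟨(j, l), rfl⟩)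
  have hle₀ : ∀ (P : Subalgebra k O) (hc : consts h z₀ w₀ ⊆ starA P R) a, a ∈ NR h hR hf₀ P hc →
      a ∈ (NN h hf₀ (starA (⊤ : Subalgebra k O) R) hcB₀).toSubring :=
    fun P hc a ha l => starA_mono le_top le_rfl (ha l)
  have hle₁ : ∀ (P : Subalgebra k O) (hc : consts h z₁ w₁ ⊆ starA P R) a, a ∈ NR h hR hf₁ P hc →
      a ∈ (NN h hf₀ (starA (⊤ : Subalgebra k O) R) hcB₀).toSubring :=
    fun P hc a ha => compare h hf₁ (hcmp1 ⊤ (fun _ _ => trivial))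
      (fun l => starA_mono le_top le_rfl (ha l))
  -- the values at the special fibre
  have hζ₀ : ∀ j, ∃ o ∈ O₀, ι o = ε ⟨z₀ j, hle₀ O₀ (hcov₀ O₀ R hFA₀' hGA₀R) _
      (z_mem_NN h hf₀ (hc := hcov₀ O₀ R hFA₀' hGA₀R) j)⟩ := fun j =>
    hcl₀ _ (isIntegralElem_eps h hf₀ D (z_mem_NN h hf₀ (hc := hcov₀ O₀ R hFA₀' hGA₀R) j) _)
  have hζ₁ : ∀ j, ∃ o ∈ O₁, ι o = ε ⟨z₁ j, hle₁ O₁ (hcov₁ O₁ R hFA₁' hGA₁R) _
      (z_mem_NN h hf₁ (hc := hcov₁ O₁ R hFA₁' hGA₁R) j)⟩ := fun j =>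
    hcl₁ _ (isIntegralElem_eps h hf₁ D (z_mem_NN h hf₁ (hc := hcov₁ O₁ R hFA₁' hGA₁R) j) _)
  choose ζ₀ hζ₀ hζ₀' using hζ₀
  choose ζ₁ hζ₁ hζ₁' using hζ₁
  obtain ⟨N, hN⟩ := exists_uniform hX h₀ hFB
  obtain ⟨P₀, P₁, P₂, hP₀, hP₁, hP₀₂, hP₁₂, hX₀, hY₁, hF₀, hF₁, hd₀, hd₁, G, hG, hGP, hspan⟩ :=
    levels hXY hX hY h₀ h₁ hint (F₀ := FA₀ ∪ Set.range ζ₀ ∪ (fun y => X ^ N * y) '' FB)
      (F₁ := FA₁ ∪ Set.range ζ₁) ((hFA₀.union (Set.finite_range _)).union (hFB.image _))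
      (hFA₁.union (Set.finite_range _))
      (by
        rintro y ((hy | ⟨j, rfl⟩) | ⟨y, hy, rfl⟩)
        · exact hFA₀' hy
        · exact hζ₀ j
        · exact hN y hy N le_rfl)
      (by
        rintro y (hy | ⟨j, rfl⟩)
        · exact hFA₁' hy
        · exact hζ₁ j)
  have hFBP₂ : FB ⊆ P₂ := by
    intro y hy
    have : y = Y ^ N * (X ^ N * y) := by
      rw [← mul_assoc, ← mul_pow, mul_comm Y X, hXY, one_pow, one_mul]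
    rw [this]
    exact P₂.mul_mem (P₂.pow_mem (hP₁₂ hY₁) _) (hP₀₂ (hF₀ (Or.inr ⟨y, hy, rfl⟩)))
  have hcP₀ : consts h z₀ w₀ ⊆ starA P₀ R := hcov₀ P₀ R (fun y hy => hF₀ (Or.inl (Or.inl hy))) hGA₀R
  have hcP₁ : consts h z₁ w₁ ⊆ starA P₁ R := hcov₁ P₁ R (fun y hy => hF₁ (Or.inl hy)) hGA₁R
  have hcP₂ : consts h z₀ w₀ ⊆ starA P₂ R := hcP₀.trans (starA_mono hP₀₂ le_rfl)
  have hζ₀P : ∀ j, ζ₀ j ∈ P₀ := fun j => hF₀ (Or.inl (Or.inr ⟨j, rfl⟩))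
  have hζ₁P : ∀ j, ζ₁ j ∈ P₁ := fun j => hF₁ (Or.inr ⟨j, rfl⟩)
  obtain ⟨e₀, he₀, he₀'⟩ := eps_prop h hR hf₀ hcP₀ D (hle₀ P₀ hcP₀) ζ₀ hζ₀P hζ₀'
  obtain ⟨e₁, he₁, he₁'⟩ := eps_prop h hR hf₁ hcP₁ D (hle₁ P₁ hcP₁) ζ₁ hζ₁P hζ₁'
  obtain ⟨m, b, hb⟩ := fg_aux h hR hf₀ hf₁ hP₀₂ hcP₀ hcP₂ hcP₁ (hcmp0 P₂ hFBP₂) hXY hX₀ hY₁ hd₀ hd₁
    hG hGP hspan
  have hS₀ : NR h hR hf₀ P₀ hcP₀ ≤ NR h hR hf₀ P₂ hcP₂ := fun a ha l => starA_mono hP₀₂ le_rfl (ha l)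
  have hS₁ : NR h hR hf₁ P₁ hcP₁ ≤ NR h hR hf₀ P₂ hcP₂ := fun a ha =>
    compare h hf₁ (hcmp1 P₂ hFBP₂) (fun l => starA_mono hP₁₂ le_rfl (ha l))
  let χ : Q → NR h hR hf₀ P₂ hcP₂ →+* K := fun q => (D.chi q).comp
    ((NR h hR hf₀ P₂ hcP₂).val.toRingHom.codRestrict _ (fun a => hle₀ P₂ hcP₂ a a.2))
  obtain ⟨g, hg₀, hg₁, hgχ⟩ := glue (RingHom.ker ρ) (NR h hR hf₀ P₀ hcP₀) (NR h hR hf₁ P₁ hcP₁)
    (NR h hR hf₀ P₂ hcP₂) hS₀ hS₁ χ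
    (by
      intro q r hr
      have h1 : χ q (algebraMap R (NR h hR hf₀ P₂ hcP₂) r) = ι (bet ρ ((1 : O) ⊗ₜ[k] (r : Ω))) :=
        D.chi_alg h q (tmul_mem_starA trivial r.2) _
      rw [h1, bet_tmul ρ 1 r.2]
      have h2 : ρ ⟨(r : Ω), r.2⟩ = 0 := hr
      rw [h2, zero_smul, map_zero])
    (fun a ha h0 => mem_smul_of_chi h hR hf₀ D hι (hle₀ P₀ hcP₀) ha h0)
    (fun a ha h0 => mem_smul_of_chi h hR hf₁ D hι (hle₁ P₁ hcP₁) ha h0)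
    (fun a ha h0 => mem_smul_of_chi h hR hf₀ D hι (hle₀ P₂ hcP₂) ha h0)
    (fun q => if q = 1 then 1 else 0) (by intro q; split_ifs <;> simp)
    e₀ he₀ he₀' e₁ he₁ he₁' b hb
  refine ⟨g, fun l => starA_mono hP₀ le_top (hg₀ l), fun l => starA_mono hP₁ le_top (hg₁ l), ?_⟩
  exact gram_aux h hR D (fun o ho ho' => hinter o (hP₀ ho) (hP₁ ho')) hf₀ hf₁ hcP₀ hcP₁ hg₀ hg₁
    (hle₀ P₀ hcP₀ g hg₀) hgχ

end Pool.Agent.H27.H1
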