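import Mathlib
import Pool.Agent.H27.H1E

open scoped TensorProduct

namespace Pool.Agent.H27.H1

lemma exists_of_isIntegralElem {k K : Type*} [Field k] [IsAlgClosed k] [Field K] (f : k →+* K) {y : K}
    (hy : f.IsIntegralElem y) : ∃ c, f c = y := by
  let _ : Algebra k K := f.toAlgebra
  have h1 : IsIntegral k y := hy
  have h2 : y ∈ (⊥ : IntermediateField k K) := by
    have h3 := IntermediateField.eq_bot_of_isAlgClosed_of_isAlgebraic (algebraicClosure k K)
    rw [← h3]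
    exact (mem_algebraicClosure_iff).mpr h1.isAlgebraic
  obtain ⟨c, hc⟩ := IntermediateField.mem_bot.mp h2
  exact ⟨c, hc⟩

section

variable {k O Ω E Q : Type*} [Field k] [CommRing O] [Algebra k O] [Field Ω] [Algebra k Ω]
  [CommRing E] [Algebra (O ⊗[k] Ω) E] [Group Q] [Fintype Q] [MulSemiringAction Q E]
  (h : GalData (O ⊗[k] Ω) E Q)

include h in
/-- expansion with respect to the conjugates of `g` -/
lemma gram_expand [DecidableEq Q] {g : E} {G : Matrix Q Q Ω}
    (hG : ∀ q q' : Q, h.tr (q • g * q' • g) = 1 ⊗ₜ[k] G q q') (hdet : G.det ≠ 0) (z : E) :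
    z = ∑ q, (∑ q', ((1 : O) ⊗ₜ[k] G⁻¹ q q') * h.tr (q' • g * z)) • (q • g) := by
  let φ : Ω →+* E := (algebraMap (O ⊗[k] Ω) E).comp (Algebra.TensorProduct.includeRight :
    Ω →ₐ[k] O ⊗[k] Ω).toRingHom
  have hφ : ∀ ω, φ ω = algebraMap (O ⊗[k] Ω) E (1 ⊗ₜ[k] ω) := fun ω => rfl
  let M : Matrix Q Q E := fun q' q => (q' * q) • g
  have hMM : M.transpose * M = φ.mapMatrix G := by
    ext q q'
    rw [RingHom.mapMatrix_apply, Matrix.map_apply, hφ, ← hG, h.algebraMap_tr, Matrix.mul_apply]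
    refine Finset.sum_congr rfl fun q'' _ => ?_
    rw [Matrix.transpose_apply, smul_mul', ← mul_smul, ← mul_smul]
  have hdet' : IsUnit G.det := isUnit_iff_ne_zero.mpr hdet
  have hinv : φ.mapMatrix G⁻¹ * φ.mapMatrix G = 1 := by
    rw [← map_mul, Matrix.nonsing_inv_mul _ hdet', map_one]
  have hleft : (φ.mapMatrix G⁻¹ * M.transpose) * M = 1 := by
    rw [Matrix.mul_assoc, hMM, hinv]
  have hright : M * (φ.mapMatrix G⁻¹ * M.transpose) = 1 := mul_eq_one_comm.mp hleft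
  -- apply to the vector of conjugates of `z`
  have h1 : (fun q => q • z : Q → E) = M.mulVec ((φ.mapMatrix G⁻¹).mulVec
      (M.transpose.mulVec (fun q => q • z : Q → E))) := by
    rw [Matrix.mulVec_mulVec, Matrix.mulVec_mulVec, Matrix.mul_assoc, hright, Matrix.one_mulVec]
  have h2 : M.transpose.mulVec (fun q => q • z : Q → E) =
      fun q => algebraMap (O ⊗[k] Ω) E (h.tr (q • g * z)) := by
    ext q
    rw [h.algebraMap_tr, Matrix.mulVec, dotProduct]
    refine Finset.sum_congr rfl fun q'' _ => ?_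
    rw [Matrix.transpose_apply, smul_mul', ← mul_smul]
  have h3 := congrFun h1 1
  rw [h2] at h3
  simp only [one_smul] at h3
  refine h3.trans ?_
  rw [Matrix.mulVec, dotProduct]
  refine Finset.sum_congr rfl fun q _ => ?_
  rw [Algebra.smul_def, mul_comm, map_sum]
  have e1 : M 1 q = q • g := by
    change (1 * q) • g = q • g
    rw [one_mul]
  rw [e1]
  congr 1
  rw [Matrix.mulVec, dotProduct]
  refine Finset.sum_congr rfl fun q' _ => ?_
  rw [(algebraMap (O ⊗[k] Ω) E).map_mul, RingHom.mapMatrix_apply, Matrix.map_apply, hφ]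

/-- the values of the conjugates of `g` at a field valued point are constants -/
lemma value_const {M : Type*} [Field M] [IsAlgClosed Ω] (g : E)
    (hcoef : ∀ n, ∃ ω : Ω, algebraMap (O ⊗[k] Ω) E (1 ⊗ₜ[k] ω) =
      (MulSemiringAction.charpoly Q g).coeff n) (e : E →+* M) (q : Q) :
    ∃ ω : Ω, e (q • g) = e (algebraMap (O ⊗[k] Ω) E (1 ⊗ₜ[k] ω)) := by
  let φ : Ω →+* E := (algebraMap (O ⊗[k] Ω) E).comp (Algebra.TensorProduct.includeRight :
    Ω →ₐ[k] O ⊗[k] Ω).toRingHom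
  have h1 : MulSemiringAction.charpoly Q g ∈ Polynomial.lifts φ := by
    rw [Polynomial.lifts_iff_coeff_lifts]
    intro n
    obtain ⟨ω, hω⟩ := hcoef n
    exact ⟨ω, hω⟩
  obtain ⟨F, hF, -, hF'⟩ := Polynomial.lifts_and_natDegree_eq_and_monic h1
    (MulSemiringAction.monic_charpoly Q g)
  have h2 : (e.comp φ).IsIntegralElem (e (q • g)) := by
    refine ⟨F, hF', ?_⟩
    rw [← Polynomial.eval₂_map, hF, Polynomial.eval₂_hom, MulSemiringAction.charpoly_eq,
      Polynomial.eval_prod, Finset.prod_eq_zero (Finset.mem_univ q) (by simp), map_zero]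
  obtain ⟨ω, hω⟩ := exists_of_isIntegralElem _ h2
  exact ⟨ω, hω.symm⟩

include h in
lemma half [DecidableEq Q] {M : Type*} [Field M] {g : E} {G : Matrix Q Q Ω}
    (hG : ∀ q q' : Q, h.tr (q • g * q' • g) = 1 ⊗ₜ[k] G q q') (hdet : G.det ≠ 0)
    (e : E →+* M) (hval : ∀ q : Q, ∃ ω : Ω, e (q • g) = e (algebraMap (O ⊗[k] Ω) E (1 ⊗ₜ[k] ω)))
    {A E' : Type*} [CommRing A] [CommRing E'] [Algebra A E'] [MulSemiringAction Q E']
    (r : A →+* O ⊗[k] Ω) (f : E' →+* E) (hf : ∀ a, f (algebraMap A E' a) = algebraMap _ E (r a))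
    (hq : ∀ (q : Q) (u : E'), f (q • u) = q • f u)
    (hΩ : ∀ ω : Ω, ∃ a, r a = 1 ⊗ₜ[k] ω) (htr : ∀ z : E', ∃ a, r a = h.tr (f z))
    (hg : ∃ g', f g' = g) (z : E') : ∃ a : A, e (f z) = e (f (algebraMap A E' a)) := by
  obtain ⟨g', rfl⟩ := hg
  choose ω hω using hval
  choose cst hcst using hΩ
  have htr' : ∀ q' : Q, ∃ a, r a = h.tr (q' • f g' * f z) := by
    intro q'
    obtain ⟨a, ha⟩ := htr (q' • g' * z)
    refine ⟨a, ?_⟩
    rw [ha, map_mul, hq]
  choose t ht using htr'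
  refine ⟨∑ q, (∑ q', cst (G⁻¹ q q') * t q') * cst (ω q), ?_⟩
  rw [hf, gram_expand h hG hdet (f z)]
  simp only [map_sum, map_mul, Algebra.smul_def, hω, hcst, ht]

end

end Pool.Agent.H27.H1
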