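import Mathlib
import Pool.Agent.H27.H1F

/-!
# Galois covers of a proper (pro-)curve over `Ω` come from constants (task H1)

`galois_splits`: let `K` be an algebraic closure of `k(x)`, `O₀`, `O₁`, `O₀₁` the integral closures
of `k[x]`, `k[1/x]`, `k[x,1/x]` in `K`.  A `Q`-Galois extension of the covering
`(O₀ ⊗ Ω, O₁ ⊗ Ω, O₀₁ ⊗ Ω)` is split over every field-valued point which is injective on
`O₀₁ ⊗ Ω`.
-/

open scoped TensorProduct

namespace Pool.Agent.H27.H1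

/-- The restriction map `IC k S ⊗ Ω → IC k T ⊗ Ω`. -/
noncomputable def res (k : Type) [Field k] {K : Type} [Field K] [Algebra k K] (Ω : Type) [Field Ω]
    [Algebra k Ω] {S T : Set K} (h : S ⊆ T) : (IC k S ⊗[k] Ω) →ₐ[k] (IC k T ⊗[k] Ω) :=
  Algebra.TensorProduct.map (Subalgebra.inclusion (IC_mono k h)) (AlgHom.id k Ω)

section

variable (k Ω : Type) {K : Type} [Field k] [Field Ω] [Algebra k Ω] [Field K] [Algebra k K] (x : K)

abbrev A₀ := IC k {x} ⊗[k] Ω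
abbrev A₁ := IC k {x⁻¹} ⊗[k] Ω
abbrev A₀₁ := IC k {x, x⁻¹} ⊗[k] Ω

noncomputable abbrev r₀ : A₀ k Ω x →ₐ[k] A₀₁ k Ω x := res k Ω (S := {x}) (T := {x, x⁻¹}) (by simp)
noncomputable abbrev r₁ : A₁ k Ω x →ₐ[k] A₀₁ k Ω x := res k Ω (S := {x⁻¹}) (T := {x, x⁻¹}) (by simp)

noncomputable def X : A₀₁ k Ω x := (⟨x, mem_IC k (by simp)⟩ : IC k {x, x⁻¹}) ⊗ₜ 1
noncomputable def X' : A₀₁ k Ω x := (⟨x⁻¹, mem_IC k (by simp)⟩ : IC k {x, x⁻¹}) ⊗ₜ 1

end

/-- `E` is a Galois extension of (the image of) `A` with group `Q`, in the sense of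
Chase–Harrison–Rosenberg. -/
structure IsGaloisExt (A E Q : Type) [CommRing A] [CommRing E] [Algebra A E] [Group Q] [Finite Q]
    [MulSemiringAction Q E] : Prop where
  smul_algebraMap : ∀ (q : Q) (a : A), q • algebraMap A E a = algebraMap A E a
  fixed : ∀ e : E, (∀ q : Q, q • e = e) → ∃ a : A, algebraMap A E a = e
  exists_sum : ∃ (n : ℕ) (z w : Fin n → E), ∀ q : Q, ∑ j, z j * (q • w j) =
    (open scoped Classical in if q = 1 then 1 else 0)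

section aux

variable {k Ω K : Type} [Field k] [Field Ω] [Algebra k Ω] [Field K] [Algebra k K]

/-- the subalgebra `IC k S` inside `IC k T` -/
noncomputable def sub (k : Type) {K : Type} [Field k] [Field K] [Algebra k K] (S T : Set K) :
    Subalgebra k (IC k T) := (IC k S).comap (IC k T).val

lemma mem_sub {S T : Set K} {o : IC k T} : o ∈ sub k S T ↔ (o : K) ∈ IC k S := Iff.rfl

lemma res_mem {S T : Set K} (h : S ⊆ T) (a : IC k S ⊗[k] Ω) :
    res k Ω h a ∈ starA (sub k S T) (⊤ : Subalgebra k Ω) := by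
  induction a using TensorProduct.induction_on with
  | zero => rw [map_zero]; exact zero_mem _
  | tmul o ω =>
    have : res k Ω h (o ⊗ₜ[k] ω) = (Subalgebra.inclusion (IC_mono k h) o) ⊗ₜ[k] ω := by
      simp [res]
    rw [this]
    exact tmul_mem_starA (by rw [mem_sub]; exact o.2) trivial
  | add x y hx hy => rw [map_add]; exact add_mem hx hy

lemma exists_res {S T : Set K} (h : S ⊆ T) {t : IC k T ⊗[k] Ω}
    (ht : t ∈ starA (sub k S T) (⊤ : Subalgebra k Ω)) : ∃ a, res k Ω h a = t := by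
  refine starA_induction (p := fun t => ∃ a, res k Ω h a = t) ?_ ⟨0, map_zero _⟩ ?_ ht
  · intro o ho ω _
    refine ⟨(⟨(o : K), ho⟩ : IC k S) ⊗ₜ[k] ω, ?_⟩
    simp only [res, Algebra.TensorProduct.map_tmul, AlgHom.id_apply]
    rfl
  · rintro a b - - ⟨a', rfl⟩ ⟨b', rfl⟩
    exact ⟨a' + b', map_add _ _ _⟩

lemma integral_sub {x : K} {T : Set K} (hx : x ∈ T) (y : IC k T) (hy : y ∈ sub k {x} T) :
    IsIntegral (Algebra.adjoin k {(⟨x, mem_IC k hx⟩ : IC k T)}) y := by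
  obtain ⟨p, hp, hp'⟩ := (mem_IC_iff k).mp (mem_sub.mp hy)
  have h1 : (Algebra.adjoin k {(⟨x, mem_IC k hx⟩ : IC k T)}).map (IC k T).val =
      Algebra.adjoin k {x} := by
    rw [AlgHom.map_adjoin, Set.image_singleton]
    rfl
  have h2 : ∀ a : Algebra.adjoin k {x}, (a : K) ∈ IC k T := by
    rintro ⟨a, ha⟩
    rw [← h1] at ha
    obtain ⟨b, -, rfl⟩ := ha
    exact b.2
  let g1 : Algebra.adjoin k {x} →+* IC k T :=
    (Subalgebra.val _).toRingHom.codRestrict (IC k T) h2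
  let g : Algebra.adjoin k {x} →+* Algebra.adjoin k {(⟨x, mem_IC k hx⟩ : IC k T)} :=
    g1.codRestrict _ (by
      rintro ⟨a, ha⟩
      have ha' := ha
      rw [← h1] at ha'
      obtain ⟨b, hb, hb'⟩ := ha'
      have : g1 ⟨a, ha⟩ = b := Subtype.ext hb'.symm
      rw [this]
      exact hb)
  refine ⟨p.map g, hp.map _, ?_⟩
  rw [Polynomial.eval₂_map]
  apply Subtype.ext
  refine (Polynomial.hom_eval₂ p _ (IC k T).val.toRingHom y).trans ?_
  exact hp'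

variable {T' E E' Q : Type} [CommRing T'] [CommRing E] [Algebra T' E] [Group Q] [Fintype Q]
  [MulSemiringAction Q E] (h : GalData T' E Q) [CommRing E'] [MulSemiringAction Q E']

lemma consts_sub (f : E' →+* E) (hq : ∀ (q : Q) (u : E'), f (q • u) = q • f u) (S : Set T')
    (htr : ∀ u, h.tr (f u) ∈ S) {n : ℕ} (z w : Fin n → E') :
    consts h (fun j => f (z j)) (fun j => f (w j)) ⊆ S := by
  rintro _ (((((⟨p, rfl⟩ | ⟨p, rfl⟩) | ⟨p, rfl⟩) | ⟨p, rfl⟩) | ⟨p, rfl⟩) | ⟨p, rfl⟩)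
  · have := htr (z p.1 * z p.2.1 * w p.2.2)
    rwa [f.map_mul, f.map_mul] at this
  · exact htr _
  · have := htr (z p.1 * w p.2)
    rwa [f.map_mul] at this
  · have := htr (w p.1 * w p.2)
    rwa [f.map_mul] at this
  · have := htr ((p.1 • z p.2.1) * w p.2.2)
    rwa [f.map_mul, hq] at this
  · exact htr _

lemma frame_map (f : E' →+* E) (hq : ∀ (q : Q) (u : E'), f (q • u) = q • f u) {n : ℕ}
    (z w : Fin n → E') (hzw : ∀ q : Q, ∑ j, z j * (q • w j) =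
    (open scoped Classical in if q = 1 then 1 else 0)) :
    IsFrame Q (fun j => f (z j)) (fun j => f (w j)) := by
  constructor
  · have := congrArg f (hzw 1)
    rw [map_sum, if_pos rfl, map_one] at this
    rw [← this]
    exact Finset.sum_congr rfl fun j _ => by rw [map_mul, one_smul]
  · intro q hq'
    have := congrArg f (hzw q)
    rw [map_sum, if_neg hq', map_zero] at this
    rw [← this]
    exact Finset.sum_congr rfl fun j _ => by rw [map_mul, hq]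

lemma charpoly_map (f : E' →+* E) (hq : ∀ (q : Q) (u : E'), f (q • u) = q • f u) (g : E') :
    MulSemiringAction.charpoly Q (f g) = (MulSemiringAction.charpoly Q g).map f := by
  rw [MulSemiringAction.charpoly_eq, MulSemiringAction.charpoly_eq, Polynomial.map_prod]
  refine Finset.prod_congr rfl fun q _ => ?_
  rw [Polynomial.map_sub, Polynomial.map_X, Polynomial.map_C, hq]

end aux

/-- `galois_splits` without superfluous hypotheses: no assumption on the extensions `Ω / k` and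
`K / k(x)` besides `Ω`, `K` being algebraically closed, `x ≠ 0`, and no assumption that `f₀`, `f₁`
are injective or localizations. -/
theorem galois_splits' {k Ω K : Type} [Field k] [IsAlgClosed k] [Field Ω] [IsAlgClosed Ω]
    [Algebra k Ω] [Field K] [IsAlgClosed K] [Algebra k K] (x : K) (hx0 : x ≠ 0)
    (E₀ E₁ E₀₁ : Type) [CommRing E₀] [CommRing E₁] [CommRing E₀₁]
    [Algebra (A₀ k Ω x) E₀] [Algebra (A₁ k Ω x) E₁] [Algebra (A₀₁ k Ω x) E₀₁]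
    (f₀ : E₀ →+* E₀₁) (f₁ : E₁ →+* E₀₁)
    (hf₀' : ∀ a : A₀ k Ω x, f₀ (algebraMap _ _ a) = algebraMap _ _ (r₀ k Ω x a))
    (hf₁' : ∀ a : A₁ k Ω x, f₁ (algebraMap _ _ a) = algebraMap _ _ (r₁ k Ω x a))
    (Q : Type) [Group Q] [Finite Q] [MulSemiringAction Q E₀] [MulSemiringAction Q E₁]
    [MulSemiringAction Q E₀₁]
    (hq₀ : ∀ (q : Q) (e : E₀), f₀ (q • e) = q • f₀ e)
    (hq₁ : ∀ (q : Q) (e : E₁), f₁ (q • e) = q • f₁ e)
    (hG₀ : IsGaloisExt (A₀ k Ω x) E₀ Q) (hG₁ : IsGaloisExt (A₁ k Ω x) E₁ Q)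
    (hG₀₁ : IsGaloisExt (A₀₁ k Ω x) E₀₁ Q)
    (M : Type) [Field M] (e : E₀₁ →+* M)
    (he : Function.Injective (e.comp (algebraMap (A₀₁ k Ω x) E₀₁))) :
    (∀ z : E₀, ∃ a : A₀ k Ω x, e (f₀ z) = e (f₀ (algebraMap _ _ a))) ∧
    (∀ z : E₁, ∃ a : A₁ k Ω x, e (f₁ z) = e (f₁ (algebraMap _ _ a))) := by
  classical
  have _ : Fintype Q := Fintype.ofFinite Q
  have hgd : GalData (IC k {x, x⁻¹} ⊗[k] Ω) E₀₁ Q :=
    ⟨Function.Injective.of_comp (f := e) he, hG₀₁.smul_algebraMap, hG₀₁.fixed⟩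
  -- traces of elements of `E₀`, `E₁`
  have htr₀ : ∀ z : E₀, ∃ a, r₀ k Ω x a = hgd.tr (f₀ z) := by
    intro z
    obtain ⟨a, ha⟩ := hG₀.fixed (∑ q : Q, q • z) (fun q' => by
      rw [Finset.smul_sum]
      simp_rw [← mul_smul]
      exact Fintype.sum_equiv (Equiv.mulLeft q') _ _ (fun _ => rfl))
    refine ⟨a, hgd.inj ?_⟩
    rw [hgd.algebraMap_tr, ← hf₀', ha, map_sum]
    exact Finset.sum_congr rfl fun q _ => hq₀ q z
  have htr₁ : ∀ z : E₁, ∃ a, r₁ k Ω x a = hgd.tr (f₁ z) := by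
    intro z
    obtain ⟨a, ha⟩ := hG₁.fixed (∑ q : Q, q • z) (fun q' => by
      rw [Finset.smul_sum]
      simp_rw [← mul_smul]
      exact Fintype.sum_equiv (Equiv.mulLeft q') _ _ (fun _ => rfl))
    refine ⟨a, hgd.inj ?_⟩
    rw [hgd.algebraMap_tr, ← hf₁', ha, map_sum]
    exact Finset.sum_congr rfl fun q _ => hq₁ q z
  obtain ⟨n₀, z₀, w₀, hzw₀⟩ := hG₀.exists_sum
  obtain ⟨n₁, z₁, w₁, hzw₁⟩ := hG₁.exists_sum
  have hfr₀ := frame_map (Q := Q) f₀ hq₀ z₀ w₀ hzw₀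
  have hfr₁ := frame_map (Q := Q) f₁ hq₁ z₁ w₁ hzw₁
  have hc₀ := consts_sub hgd f₀ hq₀ (starA (sub k {x} {x, x⁻¹}) (⊤ : Subalgebra k Ω))
    (fun u => by obtain ⟨a, ha⟩ := htr₀ u; rw [← ha]; exact res_mem (by simp) a) z₀ w₀
  have hc₁ := consts_sub hgd f₁ hq₁ (starA (sub k {x⁻¹} {x, x⁻¹}) (⊤ : Subalgebra k Ω))
    (fun u => by obtain ⟨a, ha⟩ := htr₁ u; rw [← ha]; exact res_mem (by simp) a) z₁ w₁
  have hinter : ∀ o ∈ sub k {x} {x, x⁻¹}, o ∈ sub k {x⁻¹} {x, x⁻¹} → ∃ c : k, o = c • (1 : IC k {x, x⁻¹}) := by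
    intro o ho ho'
    obtain ⟨c, hc⟩ := scalar_of_mem_inter k (mem_sub.mp ho) (mem_sub.mp ho')
    refine ⟨c, Subtype.ext ?_⟩
    rw [hc, Algebra.algebraMap_eq_smul_one]
    rfl
  obtain ⟨g, hg₀, hg₁, G, hG, hdet⟩ := core (K := K) hgd (IC k {x, x⁻¹}).val.toRingHom
    Subtype.val_injective (X := ⟨x, mem_IC k (by simp)⟩) (Y := ⟨x⁻¹, mem_IC k (by simp)⟩)
    (Subtype.ext (mul_inv_cancel₀ hx0)) (O₀ := sub k {x} {x, x⁻¹}) (O₁ := sub k {x⁻¹} {x, x⁻¹})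
    (mem_IC k (Set.mem_singleton _)) (mem_IC k (Set.mem_singleton _))
    (fun y => clear_denom k hx0 y.2)
    (fun y => clear_denom k (inv_ne_zero hx0) (by
      have : ({x⁻¹, x⁻¹⁻¹} : Set K) = {x, x⁻¹} := by rw [inv_inv, Set.pair_comm]
      rw [this]; exact y.2))
    (fun y hy => integral_sub (by simp) y hy)
    (fun y hy => by
      have h1 := mem_IC_of_integral k _ (fun a => a.2) hy
      exact ⟨⟨y, IC_mono k (by simp) h1⟩, h1, rfl⟩)
    (fun y hy => by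
      have h1 := mem_IC_of_integral k _ (fun a => a.2) hy
      exact ⟨⟨y, IC_mono k (by simp) h1⟩, h1, rfl⟩)
    hinter hfr₀ hfr₁ hc₀ hc₁
  -- `g` lies in `E₀` and `E₁`
  have hg₀' : ∃ g', f₀ g' = g := by
    have h1 : ∀ l, ∃ a, r₀ k Ω x a = hgd.tr (g * f₀ (w₀ l)) := fun l => exists_res _ (hg₀ l)
    choose a ha using h1
    refine ⟨∑ l, algebraMap _ E₀ (a l) * z₀ l, ?_⟩
    rw [map_sum]
    conv_rhs => rw [← hgd.expand hfr₀ g]
    refine Finset.sum_congr rfl fun l _ => ?_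
    rw [map_mul, hf₀', ha, Algebra.smul_def]
  have hg₁' : ∃ g', f₁ g' = g := by
    have h1 : ∀ l, ∃ a, r₁ k Ω x a = hgd.tr (g * f₁ (w₁ l)) := fun l => exists_res _ (hg₁ l)
    choose a ha using h1
    refine ⟨∑ l, algebraMap _ E₁ (a l) * z₁ l, ?_⟩
    rw [map_sum]
    conv_rhs => rw [← hgd.expand hfr₁ g]
    refine Finset.sum_congr rfl fun l _ => ?_
    rw [map_mul, hf₁', ha, Algebra.smul_def]
  have hcoef : ∀ n, ∃ ω : Ω, algebraMap (IC k {x, x⁻¹} ⊗[k] Ω) E₀₁ (1 ⊗ₜ[k] ω) =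
      (MulSemiringAction.charpoly Q g).coeff n := by
    intro n
    obtain ⟨g₀, hg₀''⟩ := hg₀'
    obtain ⟨g₁, hg₁''⟩ := hg₁'
    obtain ⟨a, ha⟩ := hG₀.fixed ((MulSemiringAction.charpoly Q g₀).coeff n)
      (fun q => MulSemiringAction.smul_coeff_charpoly g₀ n q)
    obtain ⟨b, hb⟩ := hG₁.fixed ((MulSemiringAction.charpoly Q g₁).coeff n)
      (fun q => MulSemiringAction.smul_coeff_charpoly g₁ n q)
    have h1 : (MulSemiringAction.charpoly Q g).coeff n = algebraMap _ E₀₁ (r₀ k Ω x a) := by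
      rw [← hg₀'', charpoly_map f₀ hq₀, Polynomial.coeff_map, ← ha, hf₀']
    have h2 : (MulSemiringAction.charpoly Q g).coeff n = algebraMap _ E₀₁ (r₁ k Ω x b) := by
      rw [← hg₁'', charpoly_map f₁ hq₁, Polynomial.coeff_map, ← hb, hf₁']
    have h3 : r₀ k Ω x a = r₁ k Ω x b := hgd.inj (h1.symm.trans h2)
    have h4 : r₀ k Ω x a ∈ starA (sub k {x} {x, x⁻¹}) (⊤ : Subalgebra k Ω) := res_mem (by simp) a
    have h5 : r₀ k Ω x a ∈ starA (sub k {x⁻¹} {x, x⁻¹}) (⊤ : Subalgebra k Ω) := by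
      rw [h3]; exact res_mem (by simp) b
    obtain ⟨ω, hω⟩ := exists_of_inter (P₀ := Subalgebra.toSubmodule (sub k {x} {x, x⁻¹}))
      (P₁ := Subalgebra.toSubmodule (sub k {x⁻¹} {x, x⁻¹})) hinter h4 h5
    exact ⟨ω, by rw [← hω, h1]⟩
  have hval := value_const (Q := Q) g hcoef e
  refine ⟨?_, ?_⟩
  · exact half hgd hG hdet e hval (r₀ k Ω x).toRingHom f₀ hf₀' hq₀
      (fun ω => ⟨1 ⊗ₜ[k] ω, by simp [res]⟩) htr₀ hg₀'
  · exact half hgd hG hdet e hval (r₁ k Ω x).toRingHom f₁ hf₁' hq₁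
      (fun ω => ⟨1 ⊗ₜ[k] ω, by simp [res]⟩) htr₁ hg₁'

theorem galois_splits {k Ω K : Type} [Field k] [IsAlgClosed k] [Field Ω] [IsAlgClosed Ω]
    [Algebra k Ω] (t : Ω) (_ : Algebra.IsAlgebraic (IntermediateField.adjoin k {t}) Ω)
    [Field K] [IsAlgClosed K] [Algebra k K] (x : K) (_ : Transcendental k x)
    (_ : Algebra.IsAlgebraic (IntermediateField.adjoin k {x}) K)
    (E₀ E₁ E₀₁ : Type) [CommRing E₀] [CommRing E₁] [CommRing E₀₁]
    [Algebra (A₀ k Ω x) E₀] [Algebra (A₁ k Ω x) E₁] [Algebra (A₀₁ k Ω x) E₀₁]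
    (f₀ : E₀ →+* E₀₁) (f₁ : E₁ →+* E₀₁)
    (hf₀ : Function.Injective f₀) (hf₁ : Function.Injective f₁)
    (hf₀' : ∀ a : A₀ k Ω x, f₀ (algebraMap _ _ a) = algebraMap _ _ (r₀ k Ω x a))
    (hf₁' : ∀ a : A₁ k Ω x, f₁ (algebraMap _ _ a) = algebraMap _ _ (r₁ k Ω x a))
    -- `E₀₁` is the localization of `E₀` at `x` and the localization of `E₁` at `1/x`
    (hl₀ : ∀ z : E₀₁, ∃ (n : ℕ) (z₀ : E₀), f₀ z₀ = algebraMap _ E₀₁ (X k Ω x) ^ n * z)
    (hl₁ : ∀ z : E₀₁, ∃ (n : ℕ) (z₁ : E₁), f₁ z₁ = algebraMap _ E₀₁ (X' k Ω x) ^ n * z)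
    (Q : Type) [Group Q] [Finite Q] [MulSemiringAction Q E₀] [MulSemiringAction Q E₁]
    [MulSemiringAction Q E₀₁]
    (hq₀ : ∀ (q : Q) (e : E₀), f₀ (q • e) = q • f₀ e)
    (hq₁ : ∀ (q : Q) (e : E₁), f₁ (q • e) = q • f₁ e)
    (hG₀ : IsGaloisExt (A₀ k Ω x) E₀ Q) (hG₁ : IsGaloisExt (A₁ k Ω x) E₁ Q)
    (hG₀₁ : IsGaloisExt (A₀₁ k Ω x) E₀₁ Q)
    (M : Type) [Field M] (e : E₀₁ →+* M)
    (he : Function.Injective (e.comp (algebraMap (A₀₁ k Ω x) E₀₁))) :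
    (∀ z : E₀, ∃ a : A₀ k Ω x, e (f₀ z) = e (f₀ (algebraMap _ _ a))) ∧
    (∀ z : E₁, ∃ a : A₁ k Ω x, e (f₁ z) = e (f₁ (algebraMap _ _ a))) := by
  have hx : Transcendental k x := ‹Transcendental k x›
  have hx0 : x ≠ 0 := by
    rintro rfl
    exact hx (isAlgebraic_zero)
  exact galois_splits' x hx0 E₀ E₁ E₀₁ f₀ f₁ hf₀' hf₁' Q hq₀ hq₁ hG₀ hG₁ hG₀₁ M e he

end Pool.Agent.H27.H1
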