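import Mathlib
import Pool.Agent.H27.H1

/-!
# The étale quotient of a torsor over a perfect ring is a Galois extension (piece G1)
-/

open scoped TensorProduct

namespace Pool.Agent.H27

open H1 (IC IsGaloisExt)

lemma exists_pow_pow_eq {A : Type} [CommRing A] {p : ℕ} (hA : ∀ a : A, ∃ b, b ^ p = a) (n : ℕ) :
    ∀ a : A, ∃ b, b ^ p ^ n = a := by
  induction n with
  | zero => intro a; exact ⟨a, by simp⟩
  | succ n ih =>
    intro a
    obtain ⟨b, hb⟩ := ih a
    obtain ⟨c, hc⟩ := hA b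
    exact ⟨c, by rw [pow_succ', pow_mul, hc, hb]⟩

/-- The subalgebra of `p ^ n`-th powers of an algebra over a perfect ring `A`. -/
def powSub (A E : Type) [CommRing A] [CommRing E] [Algebra A E] (p : ℕ) [Fact p.Prime]
    [CharP E p] (hA : ∀ a : A, ∃ b, b ^ p = a) (n : ℕ) : Subalgebra A E where
  carrier := Set.range (fun z : E ↦ z ^ p ^ n)
  mul_mem' := by
    rintro _ _ ⟨a, rfl⟩ ⟨b, rfl⟩
    exact ⟨a * b, mul_pow _ _ _⟩
  add_mem' := by
    rintro _ _ ⟨a, rfl⟩ ⟨b, rfl⟩
    exact ⟨a + b, add_pow_char_pow _ _ _ _⟩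
  algebraMap_mem' := by
    intro a
    obtain ⟨b, hb⟩ := exists_pow_pow_eq hA n a
    exact ⟨algebraMap A E b, by rw [← hb, map_pow]⟩

lemma smul_mem_powSub {A E : Type} [CommRing A] [CommRing E] [Algebra A E] {p : ℕ}
    [Fact p.Prime] [CharP E p] {hA : ∀ a : A, ∃ b, b ^ p = a} {n : ℕ} {Q : Type} [Group Q]
    [MulSemiringAction Q E] (q : Q) {z : E} (hz : z ∈ powSub A E p hA n) :
    q • z ∈ powSub A E p hA n := by
  obtain ⟨b, rfl⟩ := hz
  exact ⟨q • b, (smul_pow' q b _).symm⟩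

/-- The action on `p ^ n`-th powers. -/
instance powSubAction (A E : Type) [CommRing A] [CommRing E] [Algebra A E] (p : ℕ)
    [Fact p.Prime] [CharP E p] (hA : ∀ a : A, ∃ b, b ^ p = a) (n : ℕ) (Q : Type) [Group Q]
    [MulSemiringAction Q E] : MulSemiringAction Q (powSub A E p hA n) where
  smul q z := ⟨q • (z : E), smul_mem_powSub q z.2⟩
  one_smul _ := Subtype.ext (one_smul _ _)
  mul_smul _ _ _ := Subtype.ext (mul_smul _ _ _)
  smul_zero _ := Subtype.ext (smul_zero _)
  smul_add _ _ _ := Subtype.ext (smul_add _ _ _)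
  smul_one _ := Subtype.ext (smul_one _)
  smul_mul _ _ _ := Subtype.ext (smul_mul' _ _ _)

theorem exists_nilpotent_pow (Ω H : Type) [Field Ω] [CommRing H] [Algebra Ω H]
    [Module.Finite Ω H] (p : ℕ) [Fact p.Prime] :
    ∃ n : ℕ, ∀ h : H, IsNilpotent h → h ^ p ^ n = 0 := by
  have hN : IsNoetherianRing H := IsNoetherianRing.of_finite Ω H
  obtain ⟨m, hm⟩ := IsNoetherianRing.isNilpotent_nilradical H
  refine ⟨m, fun h hh => ?_⟩
  have h1 : h ^ m = 0 := by
    have : h ^ m ∈ nilradical H ^ m := Ideal.pow_mem_pow (mem_nilradical.mpr hh) m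
    rw [hm] at this
    simpa using this
  exact pow_eq_zero_of_le (Nat.lt_pow_self (Nat.Prime.one_lt Fact.out)).le h1

set_option linter.unusedSectionVars false

section

variable {Ω H : Type} [Field Ω] [IsAlgClosed Ω] [CommRing H] [Algebra Ω H] [Module.Finite Ω H]
  {Q : Type} [Finite Q] (ev : Q ≃ (H →ₐ[Ω] Ω))

/-- dual elements to the points of `H` -/
lemma exists_dual [DecidableEq Q] : ∃ e : Q → H, ∀ q q', ev q' (e q) = if q' = q then 1 else 0 := by
  have hmax : ∀ q, (RingHom.ker (ev q)).IsMaximal := fun q => by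
    have hs : Function.Surjective (ev q : H →+* Ω) := fun c => ⟨algebraMap Ω H c, by simp⟩
    exact RingHom.ker_isMaximal_of_surjective _ hs
  have hne : ∀ q q', q ≠ q' → RingHom.ker (ev q) ≠ RingHom.ker (ev q') := by
    intro q q' hqq h
    apply hqq
    apply ev.injective
    ext x
    have h1 : x - algebraMap Ω H (ev q x) ∈ RingHom.ker (ev q) := by
      rw [RingHom.mem_ker, map_sub, AlgHom.commutes]; simp
    rw [h, RingHom.mem_ker, map_sub, AlgHom.commutes, sub_eq_zero] at h1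
    simpa using h1.symm
  have hco : Pairwise (Function.onFun IsCoprime fun q => RingHom.ker (ev q)) := by
    intro q q' hqq
    have := hmax q
    have := hmax q'
    exact Ideal.isCoprime_of_isMaximal (hne q q' hqq)
  have key : ∀ q, ∃ e : H, ∀ q', ev q' e = if q' = q then 1 else 0 := by
    intro q
    obtain ⟨r, hr⟩ := Ideal.pi_quotient_surjective hco
      (fun q' => Ideal.Quotient.mk _ (if q' = q then 1 else 0))
    refine ⟨r, fun q' => ?_⟩
    have h1 := (Ideal.Quotient.eq.mp (hr q'))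
    rw [RingHom.mem_ker, map_sub, sub_eq_zero] at h1
    rw [h1]
    split_ifs <;> simp
  choose e he using key
  exact ⟨e, fun q q' => he q q'⟩

lemma isNilpotent_of_ev {x : H} (hx : ∀ q, ev q x = 0) : IsNilpotent x := by
  rw [← mem_nilradical, nilradical_eq_sInf, Ideal.mem_sInf]
  intro P hP
  have hP' : P.IsPrime := hP
  have h1 : Function.Bijective (algebraMap Ω (H ⧸ P)) :=
    IsAlgClosed.algebraMap_bijective_of_isIntegral
  let e : Ω ≃ₐ[Ω] (H ⧸ P) := AlgEquiv.ofBijective (Algebra.ofId Ω _) h1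
  let f : H →ₐ[Ω] Ω := e.symm.toAlgHom.comp (Ideal.Quotient.mkₐ Ω P)
  have h2 := hx (ev.symm f)
  rw [Equiv.apply_symm_apply] at h2
  have h3 : e.symm (Ideal.Quotient.mk P x) = 0 := h2
  have h4 : Ideal.Quotient.mk P x = 0 := by
    have := congrArg e h3
    rwa [AlgEquiv.apply_symm_apply, map_zero] at this
  exact Ideal.Quotient.eq_zero_iff_mem.mp h4

variable {E : Type} [CommRing E] [Algebra Ω E]

/-- evaluation of the second factor at a point -/
noncomputable def evE (q : Q) : E ⊗[Ω] H →ₐ[E] E :=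
  Algebra.TensorProduct.lift (AlgHom.id E E) ((Algebra.ofId Ω E).comp (ev q))
        (fun _ _ ↦ Commute.all _ _)

lemma evE_tmul (q : Q) (a : E) (x : H) : evE ev q (a ⊗ₜ[Ω] x) = a * algebraMap Ω E (ev q x) := by
  simp [evE, Algebra.ofId_apply]

/-- a power of an element of `E ⊗ H` only depends on its values -/
lemma pow_eq_sum [Fintype Q] [DecidableEq Q] {p : ℕ} [Fact p.Prime] [CharP E p] [CharP Ω p] {n : ℕ}
    (hn : ∀ h : H, IsNilpotent h → h ^ p ^ n = 0) {e : Q → H}
    (he : ∀ q q', ev q' (e q) = if q' = q then 1 else 0) [CharP H p] [CharP (E ⊗[Ω] H) p]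
    (c : E ⊗[Ω] H) : c ^ p ^ n = ∑ q, ((evE ev q c) ^ p ^ n) ⊗ₜ[Ω] ((e q) ^ p ^ n) := by
  induction c using TensorProduct.induction_on with
  | zero =>
    have h0 : p ^ n ≠ 0 := pow_ne_zero _ (Nat.Prime.ne_zero Fact.out)
    rw [zero_pow h0]
    refine (Finset.sum_eq_zero fun q _ => ?_).symm
    rw [map_zero, zero_pow h0, TensorProduct.zero_tmul]
  | tmul a x =>
    have h1 : x ^ p ^ n = ∑ q, algebraMap Ω H (ev q x ^ p ^ n) * e q ^ p ^ n := by
      have h2 : IsNilpotent (x - ∑ q, algebraMap Ω H (ev q x) * e q) := by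
        apply isNilpotent_of_ev ev
        intro q
        rw [map_sub, map_sum]
        simp only [map_mul, AlgHom.commutes, he]
        simp
      have h3 := hn _ h2
      rw [sub_pow_char_pow, sub_eq_zero, sum_pow_char_pow] at h3
      rw [h3]
      refine Finset.sum_congr rfl fun q _ => ?_
      rw [mul_pow, map_pow]
    rw [Algebra.TensorProduct.tmul_pow, h1, TensorProduct.tmul_sum]
    refine Finset.sum_congr rfl fun q _ => ?_
    rw [evE_tmul, mul_pow, ← (algebraMap Ω E).map_pow, ← Algebra.smul_def, TensorProduct.tmul_smul,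
      TensorProduct.smul_tmul', Algebra.smul_def, mul_comm]
  | add x y hx hy =>
    rw [add_pow_char_pow, hx, hy, ← Finset.sum_add_distrib]
    refine Finset.sum_congr rfl fun q _ => ?_
    rw [map_add, add_pow_char_pow, TensorProduct.add_tmul]

end

/-- `Θ : E ⊗_A E ≅ E ⊗ H` expresses that `Spec E` is a torsor under `Spec H`; `Q` is the finite
group of `Ω`-points of `Spec H`. -/
theorem isGaloisExt_powSub (Ω H A E Q : Type) [Field Ω] [IsAlgClosed Ω] [CommRing H] [Algebra Ω H]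
    [Module.Finite Ω H] [CommRing A] [Algebra Ω A] [CommRing E] [Algebra A E] [Algebra Ω E]
    [IsScalarTower Ω A E] [Module.FaithfullyFlat A E] (p : ℕ) [Fact p.Prime] [CharP E p]
    [CharP Ω p] (hA : ∀ a : A, ∃ b, b ^ p = a) (Θ : E ⊗[A] E ≃ₐ[E] E ⊗[Ω] H)
    [Group Q] [Finite Q] [MulSemiringAction Q E] (ev : Q ≃ (H →ₐ[Ω] Ω))
    (hΘ : ∀ (q : Q) (z : E), q • z =
      Algebra.TensorProduct.lift (AlgHom.id Ω E) ((Algebra.ofId Ω E).comp (ev q))
        (fun _ _ ↦ Commute.all _ _) (Θ (1 ⊗ₜ z)))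
    (n : ℕ) (hn : ∀ h : H, IsNilpotent h → h ^ p ^ n = 0) :
    IsGaloisExt A (powSub A E p hA n) Q := by
  classical
  have _ : Fintype Q := Fintype.ofFinite Q
  have hΘ' : ∀ (q : Q) (z : E), q • z = evE ev q (Θ (1 ⊗ₜ z)) := by
    intro q z
    rw [hΘ]
    rfl
  have hact : ∀ (q : Q) (x y : E), x * (q • y) = evE ev q (Θ (x ⊗ₜ[A] y)) := by
    intro q x y
    have : x ⊗ₜ[A] y = x • ((1 : E) ⊗ₜ[A] y) := by
      rw [TensorProduct.smul_tmul', smul_eq_mul, mul_one]
    rw [this, map_smul, map_smul, smul_eq_mul, hΘ']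
  have hΘ1 : ∀ x : E, Θ (x ⊗ₜ[A] 1) = x ⊗ₜ[Ω] 1 := by
    intro x
    have : x ⊗ₜ[A] (1 : E) = algebraMap E (E ⊗[A] E) x := rfl
    rw [this, Θ.commutes]
    rfl
  have hsmulA : ∀ (q : Q) (a : A), q • (algebraMap A E a) = algebraMap A E a := by
    intro q a
    rw [hΘ']
    have : (1 : E) ⊗ₜ[A] algebraMap A E a = algebraMap A E a ⊗ₜ[A] 1 :=
      (Algebra.TensorProduct.tmul_one_eq_one_tmul a).symm
    rw [this, hΘ1, evE_tmul]
    simp
  have hnt : Nontrivial E := CharP.nontrivial_of_char_ne_one (v := p) (Nat.Prime.ne_one Fact.out)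
  have hH : Nontrivial H := (ev 1).toRingHom.domain_nontrivial
  have _ : CharP H p := charP_of_injective_algebraMap (algebraMap Ω H).injective p
  have hinj : Function.Injective (algebraMap E (E ⊗[Ω] H)) :=
    Algebra.TensorProduct.includeLeft_injective (R := Ω) (S := Ω) (A := E) (B := H)
      (algebraMap Ω H).injective
  have _ : CharP (E ⊗[Ω] H) p := charP_of_injective_ringHom hinj p
  obtain ⟨e, he⟩ := exists_dual ev
  refine ⟨?_, ?_, ?_⟩
  · intro q a
    apply Subtype.ext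
    exact hsmulA q a
  · rintro ⟨x, hx⟩ hfix
    obtain ⟨b, hb⟩ := hx
    have hb' : b ^ p ^ n = x := hb
    have hfix' : ∀ q : Q, q • x = x := fun q => congrArg Subtype.val (hfix q)
    have h1 : (Θ (1 ⊗ₜ[A] b) - b ⊗ₜ[Ω] 1) ^ p ^ n = 0 := by
      rw [pow_eq_sum ev hn he]
      refine Finset.sum_eq_zero fun q _ => ?_
      have : (evE ev q (Θ (1 ⊗ₜ[A] b) - b ⊗ₜ[Ω] 1)) ^ p ^ n = 0 := by
        rw [map_sub, ← hΘ', evE_tmul, map_one, map_one, mul_one, sub_pow_char_pow, hb',
          ← smul_pow', hb', hfix', sub_self]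
      rw [this, TensorProduct.zero_tmul]
    rw [sub_pow_char_pow, ← map_pow, Algebra.TensorProduct.tmul_pow, one_pow, hb',
      Algebra.TensorProduct.tmul_pow, one_pow, hb', ← hΘ1, sub_eq_zero] at h1
    have h2 := Θ.injective h1
    have h3 : Algebra.TensorProduct.includeLeftSubRight A E x = 0 := by
      rw [Algebra.TensorProduct.includeLeftSubRight_apply, h2, sub_self]
    have h4 := (Algebra.IsEffective.of_faithfullyFlat A E x).mp h3
    obtain ⟨a, ha⟩ := h4
    exact ⟨a, Subtype.ext ha⟩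
  · obtain ⟨s, hs⟩ := TensorProduct.exists_finset (Θ.symm (1 ⊗ₜ[Ω] e 1))
    let eqv := s.equivFin
    let pr : Fin s.card → E × E := fun j => (eqv.symm j : E × E)
    refine ⟨s.card, fun j => ⟨(pr j).1 ^ p ^ n, ⟨_, rfl⟩⟩, fun j => ⟨(pr j).2 ^ p ^ n, ⟨_, rfl⟩⟩, ?_⟩
    intro q
    have h1 : ∑ j, (pr j).1 * (q • (pr j).2) = if q = 1 then 1 else 0 := by
      have h2 : ∑ j, (pr j).1 * (q • (pr j).2) = evE ev q (Θ (∑ i ∈ s, i.1 ⊗ₜ[A] i.2)) := by
        rw [map_sum, map_sum, ← Finset.sum_coe_sort s]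
        simp_rw [← hact]
        exact Fintype.sum_equiv eqv.symm _ _ (fun j => rfl)
      rw [h2, ← hs, AlgEquiv.apply_symm_apply, evE_tmul, he, one_mul]
      split_ifs <;> simp
    apply Subtype.ext
    refine (AddSubmonoidClass.coe_finsetSum _ _).trans ?_
    have h3 : ∑ j, (pr j).1 ^ p ^ n * (q • ((pr j).2 ^ p ^ n)) =
        (∑ j, (pr j).1 * (q • (pr j).2)) ^ p ^ n := by
      rw [sum_pow_char_pow]
      refine Finset.sum_congr rfl fun j _ => ?_
      rw [mul_pow, smul_pow']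
    refine Eq.trans h3 ?_
    rw [h1]
    have hpn : p ^ n ≠ 0 := pow_ne_zero _ (Nat.Prime.ne_zero Fact.out)
    split_ifs with hq
    · simp
    · rw [zero_pow hpn]
      rfl

end Pool.Agent.H27
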