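import Pool.Agent.H27.Nori
import Pool.Agent.H27.RangeInt

/-!
# Rational points of the Nori fundamental gerbe from virtual points
-/

open CategoryTheory Limits Bicategory AlgebraicGeometry

namespace Pool.Agent.H27

variable {κ : Type} [Field κ] {T : Type} [Category.{0} T]

/-- Profinite gerbes have a rational object as soon as they have an object over a virtual point. -/
theorem IsProfiniteGerbe.exists_obj {G : BasedCategory.{0, 1} (Alg κ)} (hG : IsProfiniteGerbe G)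
    (x : T ⥤ G.obj) (hx : IsConnectedDiagram (x ⋙ G.p))
    (hfc : ∀ Γ : BasedCategory.{0, 1} (Alg κ), IsFiniteStack Γ → HasFiniteCoprods Γ)
    (hx' : ∀ Γ : BasedCategory.{0, 1} (Alg κ), IsFiniteGerbe Γ → IsConstOn (x ⋙ G.p) Γ) :
    ∃ o : G.obj, G.p.obj o = CommAlgCat.of κ κ := by
  obtain ⟨J, _, _, F, hF, ⟨e⟩⟩ := hG
  let x' : T ⥤ LimObj F := x ⋙ e.hom.toFunctor
  have hx'' : x' ⋙ (PLim F).p = x ⋙ G.p := by
    change (x ⋙ e.hom.toFunctor) ⋙ (PLim F).p = x ⋙ G.p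
    rw [Functor.assoc, e.hom.w]
  obtain ⟨x₀, hx₀⟩ := exists_limObj F hx (fun j ↦ (hF j).isFiniteStack.isStack)
    (fun j ↦ (hfc _ (hF j).isFiniteStack).hasCoprods) (fun j ↦ hx' _ (hF j)) x' (eqToIso hx'')
  exact ⟨e.inv.toFunctor.obj x₀, (BasedFunctor.w_obj e.inv x₀).trans hx₀⟩

theorem nonempty_isoClasses {G : BasedCategory.{0, 1} (Alg κ)} {o : G.obj}
    (ho : G.p.obj o = CommAlgCat.of κ κ) : Nonempty (IsoClasses G) :=
  ⟨Quotient.mk _ ⟨o, ho⟩⟩

/-- If a virtual point of `X` exists but no rational point, then `sigma` is not surjective. -/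
theorem not_bijective_sigma {X : Over (Spec (CommRingCat.of κ))} {G : BasedCategory.{0, 1} (Alg κ)}
    {p : schemeStack X ⟶ G} (hG : IsProfiniteGerbe G) (v : T ⥤ (schemeStack X).obj)
    (hv : IsConnectedDiagram (v ⋙ (schemeStack X).p))
    (hfc : ∀ Γ : BasedCategory.{0, 1} (Alg κ), IsFiniteStack Γ → HasFiniteCoprods Γ)
    (hv' : ∀ Γ : BasedCategory.{0, 1} (Alg κ), IsFiniteGerbe Γ →
      IsConstOn (v ⋙ (schemeStack X).p) Γ)
    (hX : IsEmpty (specOver (CommAlgCat.of κ κ) ⟶ X)) : ¬ Function.Bijective (sigma X G p) := by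
  intro hb
  have hvp : (v ⋙ p.toFunctor) ⋙ G.p = v ⋙ (schemeStack X).p := by
    rw [Functor.assoc, p.w]
  obtain ⟨o, ho⟩ := hG.exists_obj (v ⋙ p.toFunctor) (by rwa [hvp]) hfc
    (fun Γ hΓ ↦ by rw [hvp]; exact hv' Γ hΓ)
  obtain ⟨c⟩ := nonempty_isoClasses ho
  obtain ⟨a, -⟩ := hb.2 c
  exact hX.false a

end Pool.Agent.H27
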