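import Pool.Agent.H27.Rational
import Pool.Agent.H27.Frame

/-!
# Virtual points of schemes
-/

open CategoryTheory Limits Bicategory AlgebraicGeometry

namespace Pool.Agent.H27

variable {κ : Type} [Field κ] {T : Type} [Category.{0} T]

/-- A compatible family of points of `X`, as a functor. -/
noncomputable def pointFunctor {X : Over (Spec (CommRingCat.of κ))} (R : T ⥤ Alg κ)
    (ρ : ∀ t, specOver (R.obj t) ⟶ X)
    (hρ : ∀ (t t' : T) (τ : t ⟶ t'), specOverMap (R.map τ) ≫ ρ t = ρ t') :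
    T ⥤ (schemeStack X).obj where
  obj t := (⟨R.obj t, ρ t⟩ : Pt X)
  map {t t'} τ := (⟨R.map τ, hρ t t' τ⟩ : {f : R.obj t ⟶ R.obj t' // specOverMap f ≫ ρ t = ρ t'})
  map_id t := Subtype.ext (R.map_id t)
  map_comp τ τ' := Subtype.ext (R.map_comp τ τ')

/-- The base of `pointFunctor`. -/
noncomputable def pointFunctorIso {X : Over (Spec (CommRingCat.of κ))} (R : T ⥤ Alg κ)
    (ρ : ∀ t, specOver (R.obj t) ⟶ X)
    (hρ : ∀ (t t' : T) (τ : t ⟶ t'), specOverMap (R.map τ) ≫ ρ t = ρ t') :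
    pointFunctor R ρ hρ ⋙ (schemeStack X).p ≅ R :=
  NatIso.ofComponents (fun t ↦ Iso.refl _) (by
    intro t t' τ
    exact (Category.comp_id _).trans (Category.id_comp _).symm)

/-- Pushing a compatible family of points forward. -/
lemma push_compat {X : Over (Spec (CommRingCat.of κ))} (R Y : T ⥤ Alg κ) (a : R ⟶ Y)
    (ρ : ∀ t, specOver (R.obj t) ⟶ X)
    (hρ : ∀ (t t' : T) (τ : t ⟶ t'), specOverMap (R.map τ) ≫ ρ t = ρ t')
    (t t' : T) (τ : t ⟶ t') :
    specOverMap (Y.map τ) ≫ specOverMap (a.app t) ≫ ρ t = specOverMap (a.app t') ≫ ρ t' := by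
  rw [← Category.assoc, ← specOverMap_comp, ← a.naturality, specOverMap_comp, Category.assoc, hρ]

lemma IsConstOn.of_iso {Y Y' : T ⥤ Alg κ} (e : Y ≅ Y') {Γ : BasedCategory.{0, 1} (Alg κ)}
    (h : IsConstOn Y Γ) : IsConstOn Y' Γ := fun y e' ↦ h y (e' ≪≫ e.symm)

/-- If a virtual point of `X` exists but no rational point, then `sigma` is not surjective. -/
theorem not_bijective_sigma' {X : Over (Spec (CommRingCat.of κ))}
    {G : BasedCategory.{0, 1} (Alg κ)} {p : schemeStack X ⟶ G} (hG : IsProfiniteGerbe G)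
    (R Y : T ⥤ Alg κ) (a : R ⟶ Y) (ρ : ∀ t, specOver (R.obj t) ⟶ X)
    (hρ : ∀ (t t' : T) (τ : t ⟶ t'), specOverMap (R.map τ) ≫ ρ t = ρ t')
    (hY : IsConnectedDiagram Y)
    (hfc : ∀ Γ : BasedCategory.{0, 1} (Alg κ), IsFiniteStack Γ → HasFiniteCoprods Γ)
    (hY' : ∀ Γ : BasedCategory.{0, 1} (Alg κ), IsFiniteGerbe Γ → IsConstOn Y Γ)
    (hX : IsEmpty (specOver (CommAlgCat.of κ κ) ⟶ X)) : ¬ Function.Bijective (sigma X G p) := by
  let e := pointFunctorIso Y (fun t ↦ specOverMap (a.app t) ≫ ρ t) (push_compat R Y a ρ hρ)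
  exact not_bijective_sigma hG _ (hY.of_iso e.symm) hfc (fun Γ hΓ ↦ (hY' Γ hΓ).of_iso e.symm) hX

end Pool.Agent.H27
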