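import Pool.Agent.H27.VConst

/-!
# A criterion for `H⁰ = κ`
-/

open CategoryTheory Limits
open scoped TensorProduct

namespace Pool.Agent.H27

variable {κ : Type} [Field κ]

/-- Functoriality of the tensor product. -/
def tensMapL {A A' : Alg κ} (f : A ⟶ A') (C : Alg κ) : tens A C ⟶ tens A' C :=
  CommAlgCat.ofHom (Algebra.TensorProduct.map f.hom (AlgHom.id κ C))

@[reassoc]
lemma tinl_tensMapL {A A' : Alg κ} (f : A ⟶ A') (C : Alg κ) :
    tinl A C ≫ tensMapL f C = f ≫ tinl A' C := by
  apply CommAlgCat.hom_ext
  apply AlgHom.ext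
  intro x
  exact Algebra.TensorProduct.map_tmul f.hom (AlgHom.id κ C) x 1

@[reassoc]
lemma tinr_tensMapL {A A' : Alg κ} (f : A ⟶ A') (C : Alg κ) :
    tinr A C ≫ tensMapL f C = tinr A' C := by
  apply CommAlgCat.hom_ext
  apply AlgHom.ext
  intro x
  refine (Algebra.TensorProduct.map_tmul f.hom (AlgHom.id κ C) 1 x).trans ?_
  simp [tinr]
  rfl

lemma equivFinsupp_map {M M' C : Type} [AddCommGroup M] [Module κ M] [AddCommGroup M']
    [Module κ M'] [AddCommGroup C] [Module κ C] {ι : Type} [DecidableEq ι] (b : Module.Basis ι κ C)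
    (f : M →ₗ[κ] M') (z : M ⊗[κ] C) (i : ι) :
    TensorProduct.equivFinsuppOfBasisRight b (f.rTensor C z) i =
      f (TensorProduct.equivFinsuppOfBasisRight b z i) := by
  induction z with
  | zero => simp
  | tmul m c => simp
  | add x y hx hy => simp [hx, hy]

/-- Base change of injective maps. -/
lemma injective_of_isCoprod {A A' C P P' : Alg κ} {i : A ⟶ P} {j : C ⟶ P} (h : IsCoprod i j)
    {i' : A' ⟶ P'} {j' : C ⟶ P'} (h' : IsCoprod i' j') {f : A ⟶ A'}
    (hf : Function.Injective f.hom) {g : P ⟶ P'} (h₁ : i ≫ g = f ≫ i') (h₂ : j ≫ g = j') :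
    Function.Injective g.hom := by
  let e := (isCoprod_tens A C).uniq h
  let e' := (isCoprod_tens A' C).uniq h'
  have key : e.hom ≫ g = tensMapL f C ≫ e'.hom := by
    refine (isCoprod_tens A C).hom_ext ?_ ?_
    · have a₁ : tinl A C ≫ e.hom = i := (isCoprod_tens A C).left_desc _ _
      have a₃ : tinl A' C ≫ e'.hom = i' := (isCoprod_tens A' C).left_desc _ _
      rw [← Category.assoc, a₁, tinl_tensMapL_assoc, a₃, h₁]
    · have a₁ : tinr A C ≫ e.hom = j := (isCoprod_tens A C).right_desc _ _
      have a₃ : tinr A' C ≫ e'.hom = j' := (isCoprod_tens A' C).right_desc _ _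
      rw [← Category.assoc, a₁, tinr_tensMapL_assoc, a₃, h₂]
  have h₃ : Function.Injective (tensMapL f C).hom := by
    have := Module.Flat.rTensor_preserves_injective_linearMap (M := C) f.hom.toLinearMap hf
    exact this
  have h₄ : Function.Injective (tensMapL f C ≫ e'.hom).hom := by
    have := (CommAlgCat.algEquivOfIso e').injective.comp h₃
    exact this
  rw [← key] at h₄
  have h₅ : Function.Injective (e.inv ≫ e.hom ≫ g).hom := by
    have := h₄.comp (CommAlgCat.algEquivOfIso e.symm).injective
    exact this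
  simpa using h₅

/-- If `Y₀` and `Y₁` are subalgebras of `Y₀₁` with intersection `κ`, then the diagram
`Y₀ ⟶ Y₀₁ ⟵ Y₁` universally satisfies `H⁰ = κ`. -/
theorem isConnectedDiagram_of_inter (Y : WalkingCospan ⥤ Alg κ)
    (hinj₀ : Function.Injective (Y.map WalkingCospan.Hom.inl).hom)
    (hinj₁ : Function.Injective (Y.map WalkingCospan.Hom.inr).hom)
    (hnt : ∀ t, Nontrivial (Y.obj t))
    (hinter : ∀ (a : Y.obj .left) (b : Y.obj .right),
      (Y.map WalkingCospan.Hom.inl).hom a = (Y.map WalkingCospan.Hom.inr).hom b →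
      ∃ c : κ, a = algebraMap κ _ c) :
    IsConnectedDiagram Y where
  nonempty := ⟨.left⟩
  nontrivial := hnt
  const := by
    classical
    intro Y' k C e he hk D d hd
    have hinj₀' : Function.Injective (Y'.map WalkingCospan.Hom.inl).hom :=
      injective_of_isCoprod (hk .left) (hk .one) hinj₀ (k.naturality _).symm (he _ _ _)
    have hinj₁' : Function.Injective (Y'.map WalkingCospan.Hom.inr).hom :=
      injective_of_isCoprod (hk .right) (hk .one) hinj₁ (k.naturality _).symm (he _ _ _)
    have heinj : Function.Injective (e .one).hom :=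
      ((hk .one).ff_right (hnt .one)).injective
    -- the key statement
    have key : ∀ (a : Y'.obj .left) (b : Y'.obj .right),
        (Y'.map WalkingCospan.Hom.inl).hom a = (Y'.map WalkingCospan.Hom.inr).hom b →
        ∃ c : C, (e .left).hom c = a := by
      intro a b hab
      let B := Module.Basis.ofVectorSpace κ C
      let E : ∀ t, tens (Y.obj t) C ≅ Y'.obj t := fun t ↦ (isCoprod_tens _ _).uniq (hk t)
      have hE₁ : ∀ t, tinl (Y.obj t) C ≫ (E t).hom = k.app t :=
        fun t ↦ (isCoprod_tens _ _).left_desc _ _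
      have hE₂ : ∀ t, tinr (Y.obj t) C ≫ (E t).hom = e t :=
        fun t ↦ (isCoprod_tens _ _).right_desc _ _
      let m : ∀ {t t' : WalkingCospan} (τ : t ⟶ t'), tens (Y.obj t) C ⟶ tens (Y.obj t') C :=
        fun {t t'} τ ↦ tensMapL (Y.map τ) C
      have hm : ∀ {t t' : WalkingCospan} (τ : t ⟶ t'), m τ ≫ (E t').hom =
          (E t).hom ≫ Y'.map τ := by
        intro t t' τ
        refine (isCoprod_tens _ _).hom_ext ?_ ?_
        · have a₁ : tinl (Y.obj t) C ≫ m τ = Y.map τ ≫ tinl (Y.obj t') C := tinl_tensMapL _ _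
          rw [← Category.assoc, a₁, Category.assoc, hE₁, ← Category.assoc, hE₁, k.naturality]
        · have a₁ : tinr (Y.obj t) C ≫ m τ = tinr (Y.obj t') C := tinr_tensMapL _ _
          rw [← Category.assoc, a₁, hE₂, ← Category.assoc, hE₂, he]
      let a' : Y.obj .left ⊗[κ] C := (E .left).inv.hom a
      let b' : Y.obj .right ⊗[κ] C := (E .right).inv.hom b
      have hab' : (m WalkingCospan.Hom.inl).hom a' = (m WalkingCospan.Hom.inr).hom b' := by
        have h₁ : (E .left).inv ≫ m WalkingCospan.Hom.inl =
            Y'.map WalkingCospan.Hom.inl ≫ (E .one).inv := by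
          rw [Iso.inv_comp_eq, ← Category.assoc, Iso.eq_comp_inv, hm]
        have h₂ : (E .right).inv ≫ m WalkingCospan.Hom.inr =
            Y'.map WalkingCospan.Hom.inr ≫ (E .one).inv := by
          rw [Iso.inv_comp_eq, ← Category.assoc, Iso.eq_comp_inv, hm]
        have h₃ := congr(($h₁).hom a)
        have h₄ := congr(($h₂).hom b)
        simp only [CommAlgCat.hom_comp, AlgHom.comp_apply] at h₃ h₄
        change (m WalkingCospan.Hom.inl).hom ((E .left).inv.hom a) =
          (m WalkingCospan.Hom.inr).hom ((E .right).inv.hom b)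
        rw [h₃, h₄, hab]
      have hcoord : ∀ i, ∃ c : κ, TensorProduct.equivFinsuppOfBasisRight B a' i =
          algebraMap κ _ c := by
        intro i
        apply hinter _ (TensorProduct.equivFinsuppOfBasisRight B b' i)
        have h₁ := equivFinsupp_map B (Y.map WalkingCospan.Hom.inl).hom.toLinearMap a' i
        have h₂ := equivFinsupp_map B (Y.map WalkingCospan.Hom.inr).hom.toLinearMap b' i
        refine h₁.symm.trans (Eq.trans ?_ h₂)
        exact congrArg (fun z ↦ TensorProduct.equivFinsuppOfBasisRight B z i) hab'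
      choose c hc using hcoord
      let c₀ : C := ∑ i ∈ (TensorProduct.equivFinsuppOfBasisRight B a').support, c i • B i
      have hc₀ : (tinr (Y.obj .left) C).hom c₀ = a' := by
        apply (TensorProduct.equivFinsuppOfBasisRight B).injective
        ext i
        change TensorProduct.equivFinsuppOfBasisRight B (1 ⊗ₜ[κ] c₀) i = _
        rw [TensorProduct.equivFinsuppOfBasisRight_apply_tmul_apply]
        simp only [c₀, map_sum, map_smul, Module.Basis.repr_self]
        rw [Finsupp.finsetSum_apply]
        by_cases hi : i ∈ (TensorProduct.equivFinsuppOfBasisRight B a').support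
        · rw [Finset.sum_eq_single i]
          · simp [hc, Algebra.algebraMap_eq_smul_one]
          · intro j _ hj
            simp [hj]
          · intro h
            exact absurd hi h
        · rw [Finset.sum_eq_zero]
          · rw [Finsupp.notMem_support_iff.1 hi, zero_smul]
          · intro j hj
            have : j ≠ i := by
              rintro rfl
              exact hi hj
            simp [this]
      refine ⟨c₀, ?_⟩
      rw [← hE₂]
      simp only [CommAlgCat.hom_comp, AlgHom.comp_apply]
      rw [hc₀]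
      exact congr(($((E .left).inv_hom_id)).hom a)
    obtain ⟨d₀, hd₀⟩ : ∃ d₀ : D ⟶ C, d₀ ≫ e .one = d .one := by
      apply factor_of_range _ _ heinj
      intro a
      obtain ⟨c, hc⟩ := key ((d .left).hom a) ((d .right).hom a) (by
        have h₁ := congr(($(hd _ _ WalkingCospan.Hom.inl)).hom a)
        have h₂ := congr(($(hd _ _ WalkingCospan.Hom.inr)).hom a)
        simp only [CommAlgCat.hom_comp, AlgHom.comp_apply] at h₁ h₂
        rw [h₁, h₂])
      refine ⟨c, ?_⟩
      have h₁ := congr(($(he _ _ WalkingCospan.Hom.inl)).hom c)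
      have h₂ := congr(($(hd _ _ WalkingCospan.Hom.inl)).hom a)
      simp only [CommAlgCat.hom_comp, AlgHom.comp_apply] at h₁ h₂
      rw [← h₁, hc, h₂]
    refine ⟨d₀, ?_⟩
    have aux : ∀ (t : WalkingCospan) (τ : t ⟶ .one), Function.Injective (Y'.map τ).hom →
        d₀ ≫ e t = d t := by
      intro t τ hτ
      ext a
      apply hτ
      have h₁ : (d₀ ≫ e t) ≫ Y'.map τ = d t ≫ Y'.map τ := by
        rw [Category.assoc, he, hd, hd₀]
      exact congr(($h₁).hom a)
    intro t
    rcases t with _ | _ | _
    · exact hd₀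
    · exact aux _ WalkingCospan.Hom.inl hinj₀'
    · exact aux _ WalkingCospan.Hom.inr hinj₁'

end Pool.Agent.H27
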