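import Pool.Agent.H27.Virtual

/-!
# Families over virtual points are constant
-/

open CategoryTheory Limits Bicategory
open scoped TensorProduct

namespace Pool.Agent.H27

variable {κ : Type} [Field κ] {Γ : BasedCategory.{0, 1} (Alg κ)}

lemma exists_retraction {A B : Type} [CommRing A] [CommRing B] {M : Type} [Field M] [IsAlgClosed M]
    (e : A ≃+* M) (f : A →+* B) (hf : f.FiniteType) (hB : Nontrivial B) :
    ∃ g : B →+* A, g.comp f = RingHom.id A := by
  let f' : M →+* B := f.comp e.symm.toRingHom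
  have hf' : f'.FiniteType := hf.comp (RingHom.FiniteType.of_surjective _ e.symm.surjective)
  obtain ⟨m, hm⟩ := Ideal.exists_maximal B
  let : Algebra M B := f'.toAlgebra
  have : Algebra.FiniteType M B := hf'
  let : Field (B ⧸ m) := Ideal.Quotient.field m
  have : Algebra.FiniteType M (B ⧸ m) :=
    Algebra.FiniteType.of_surjective (Ideal.Quotient.mkₐ M m) (Ideal.Quotient.mkₐ_surjective M m)
  have : Module.Finite M (B ⧸ m) := finite_of_finite_type_of_isJacobsonRing M (B ⧸ m)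
  have hbij := IsAlgClosed.algebraMap_bijective_of_isIntegral (k := M) (K := B ⧸ m)
  let u : M ≃+* (B ⧸ m) := RingEquiv.ofBijective _ hbij
  refine ⟨(e.symm.toRingHom.comp u.symm.toRingHom).comp (Ideal.Quotient.mk m), ?_⟩
  ext a
  have h : Ideal.Quotient.mk m (f a) = u (e a) := by
    change Ideal.Quotient.mk m (f a) = Ideal.Quotient.mk m (f (e.symm (e a)))
    rw [e.symm_apply_apply]
  simp [h]

/-- Over an algebraically closed field, objects of a finite stack come from the finite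
presentation. -/
lemma IsFiniteStack.exists_arrow (hΓ : IsFiniteStack Γ) {y : Γ.obj} {M : Type} [Field M]
    [IsAlgClosed M] (e : Γ.p.obj y ≃+* M) :
    ∃ u : Γ.obj, Module.Finite κ (Γ.p.obj u) ∧ Nonempty (u ⟶ y) := by
  obtain ⟨u, ρ, i₁, i₂, -, hu, -, -, -, hsurj⟩ := hΓ.presentation
  have hc := hΓ.isStack.toIsCofiberedInGroupoids
  refine ⟨u, hu, ?_⟩
  obtain ⟨y', φ, w, hff, hfp⟩ := hsurj y
  have hnt : Nontrivial (Γ.p.obj y) := e.toEquiv.nontrivial
  have hnt' : Nontrivial (Γ.p.obj y') := hff.injective.nontrivial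
  obtain ⟨g, hg⟩ := exists_retraction e (Γ.p.map φ).hom.toRingHom (RingHom.FiniteType.of_finitePresentation hfp) hnt'
  let g' : Γ.p.obj y' ⟶ Γ.p.obj y := CommAlgCat.ofHom
    { g with
      commutes' := fun c ↦ by
        have h₁ : algebraMap κ (Γ.p.obj y') c = (Γ.p.map φ).hom (algebraMap κ (Γ.p.obj y) c) :=
          ((Γ.p.map φ).hom.commutes c).symm
        change g (algebraMap κ (Γ.p.obj y') c) = _
        rw [h₁]
        exact congr($hg (algebraMap κ (Γ.p.obj y) c)) }
  have hg' : Γ.p.map φ ≫ g' = 𝟙 _ := by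
    ext a
    exact congr($hg a)
  obtain ⟨v, ψ, ev, hev⟩ := hc.exists_push' y' g'
  have : IsIso (Γ.p.map (φ ≫ ψ)) := by
    have h : Γ.p.map (φ ≫ ψ) = ev.inv := by
      rw [Γ.p.map_comp, ← cancel_mono ev.hom, Category.assoc, hev, hg']
      simp
    rw [h]
    infer_instance
  have : IsIso (φ ≫ ψ) := hc.isIso_of_isIso _
  exact ⟨w ≫ ψ ≫ inv (φ ≫ ψ)⟩

/-- Arrows over injective maps are monomorphisms, if coproducts exist. -/
lemma mono_of_injective (hc : IsCofiberedInGroupoids Γ) (hΓc : HasCoprods Γ) {w z z' : Γ.obj}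
    (h : z ⟶ z') (hh : Function.Injective (Γ.p.map h).hom) {a b : w ⟶ z} (hab : a ≫ h = b ≫ h) :
    a = b := by
  obtain ⟨v, i₁, i₂, hv⟩ := hΓc w w
  have e₁ : hv.desc a a ≫ h = hv.desc a b ≫ h := by
    refine hv.hom_ext ?_ ?_
    · rw [← Category.assoc, hv.left_desc, ← Category.assoc, hv.left_desc]
    · rw [← Category.assoc, hv.right_desc, ← Category.assoc, hv.right_desc, hab]
  have e₂ : Γ.p.map (hv.desc a a) = Γ.p.map (hv.desc a b) := by
    ext x
    apply hh
    have := congr((Γ.p.map $e₁).hom x)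
    simpa using this
  have e₃ : hv.desc a a = hv.desc a b := hc.hom_ext i₁ e₂ (by rw [hv.left_desc, hv.left_desc])
  have := congr(i₂ ≫ $e₃)
  rwa [hv.right_desc, hv.right_desc] at this

lemma factor_of_range {A B C : Alg κ} (f : A ⟶ C) (g : B ⟶ C) (hg : Function.Injective g.hom)
    (h : ∀ a : A, ∃ b : B, g.hom b = f.hom a) : ∃ v : A ⟶ B, v ≫ g = f := by
  let g' : B ≃ₐ[κ] g.hom.range := AlgEquiv.ofInjective g.hom hg
  let f' : A →ₐ[κ] g.hom.range := f.hom.codRestrict g.hom.range (fun a ↦ by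
    obtain ⟨b, hb⟩ := h a
    exact ⟨b, hb⟩)
  refine ⟨CommAlgCat.ofHom (g'.symm.toAlgHom.comp f'), ?_⟩
  ext a
  have h₁ : g' (g'.symm (f' a)) = f' a := g'.apply_symm_apply _
  exact congr(($h₁ : C))

/-- Isomorphic summands have isomorphic coproducts. -/
noncomputable def IsCoprod.isoOf {𝒞 : Type*} [Category 𝒞] {A B C A' B' C' : 𝒞} {f : A ⟶ C}
    {g : B ⟶ C} {f' : A' ⟶ C'} {g' : B' ⟶ C'} (h : IsCoprod f g) (h' : IsCoprod f' g')
    (a : A ≅ A') (b : B ≅ B') : C ≅ C' where
  hom := h.desc (a.hom ≫ f') (b.hom ≫ g')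
  inv := h'.desc (a.inv ≫ f) (b.inv ≫ g)
  hom_inv_id := h.hom_ext (by simp) (by simp)
  inv_hom_id := h'.hom_ext (by simp) (by simp)

/-- Elements integral over an algebraically closed subfield lie in it. -/
lemma exists_of_isIntegral' {Ω M : Type} [Field Ω] [IsAlgClosed Ω] [Field M]
    (σ : Ω →+* M) {b : M} (hb : σ.IsIntegralElem b) : ∃ a : Ω, σ a = b := by
  let : Algebra Ω M := σ.toAlgebra
  have hb' : IsIntegral Ω b := hb
  obtain ⟨a, ha⟩ := (IsAlgClosed.algebraMap_bijective_of_isIntegral (k := Ω)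
    (K := integralClosure Ω M)).2 ⟨b, hb'⟩
  exact ⟨a, congr(($ha : M))⟩

/-- Elements algebraic over `κ` lie in the image of an algebraic closure. -/
lemma exists_of_isIntegral {Ω M : Type} [Field Ω] [Algebra κ Ω] [IsAlgClosed Ω] [Field M]
    [Algebra κ M] (σ : Ω →ₐ[κ] M) {b : M} (hb : IsIntegral κ b) : ∃ a : Ω, σ a = b := by
  refine exists_of_isIntegral' σ.toRingHom ?_
  obtain ⟨p, hp, hp'⟩ := hb
  refine ⟨p.map (algebraMap κ Ω), hp.map _, ?_⟩
  rw [Polynomial.eval₂_map]
  have : σ.toRingHom.comp (algebraMap κ Ω) = algebraMap κ M := by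
    ext x
    simp
  rwa [this]

end Pool.Agent.H27
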