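import Pool.Agent.H27.FixedRing
import Pool.Agent.H27.VConst

/-!
# Functions which are integral over `K[x]` and over `K[1/x]` are constant
-/

open Polynomial IntermediateField algebraAdjoinAdjoin

namespace Pool.Agent.H27

open H1 (IC)

variable {K W : Type} [Field K] [Field W] [Algebra K W]

lemma isIntegrallyClosed_adjoin {x : W} (hx : Transcendental K x) :
    IsIntegrallyClosed (Algebra.adjoin K {x}) := by
  have e : K[X] ≃ₐ[K] Algebra.adjoin K {x} := by
    rw [Algebra.adjoin_singleton_eq_range_aeval]
    exact AlgEquiv.ofInjective (aeval x) (transcendental_iff_injective.1 hx)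
  exact IsIntegrallyClosed.of_equiv e.toRingEquiv

lemma coeff_minpoly_mem {x w : W} (hx : Transcendental K x) (hw : w ∈ IC K {x}) (n : ℕ) :
    (((minpoly (IntermediateField.adjoin K {x}) w).coeff n :
      IntermediateField.adjoin K {x}) : W) ∈ Algebra.adjoin K {x} := by
  have := isIntegrallyClosed_adjoin hx
  have h₁ := minpoly.isIntegrallyClosed_eq_field_fractions' (R := Algebra.adjoin K {x})
    (IntermediateField.adjoin K {x}) (S := W) (s := w) hw
  rw [h₁, coeff_map]
  exact ((minpoly (Algebra.adjoin K {x}) w).coeff n).2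

lemma adjoin_inter {x c : W} (hx : Transcendental K x) (h₀ : c ∈ Algebra.adjoin K {x})
    (h₁ : c ∈ Algebra.adjoin K {x⁻¹}) : ∃ a : K, algebraMap K W a = c := by
  rw [Algebra.adjoin_singleton_eq_range_aeval] at h₀ h₁
  obtain ⟨f, hf⟩ := h₀
  obtain ⟨g, hg⟩ := h₁
  change aeval x f = c at hf
  change aeval x⁻¹ g = c at hg
  have hx0 : x ≠ 0 := by
    rintro rfl
    exact hx (isAlgebraic_zero)
  have h₂ : aeval x (X ^ g.natDegree * f) = aeval x g.reverse := by
    rw [map_mul, map_pow, aeval_X, hf, ← hg]
    let : Invertible x⁻¹ := invertibleOfNonzero (inv_ne_zero hx0)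
    have h₃ := eval₂_reverse_mul_pow (algebraMap K W) x⁻¹ g
    rw [← aeval_def, ← aeval_def, invOf_eq_inv, inv_inv] at h₃
    rw [← h₃, mul_comm, mul_assoc, ← mul_pow, inv_mul_cancel₀ hx0, one_pow, mul_one]
  have h₃ := transcendental_iff_injective.1 hx h₂
  by_cases hf0 : f = 0
  · refine ⟨0, ?_⟩
    rw [← hf, hf0, map_zero, map_zero]
  · have h₄ := congrArg natDegree h₃
    rw [natDegree_mul (pow_ne_zero _ X_ne_zero) hf0, natDegree_X_pow] at h₄
    have h₅ := reverse_natDegree_le g
    have h₆ : f.natDegree = 0 := by omega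
    obtain ⟨a, ha⟩ := natDegree_eq_zero.1 h₆
    refine ⟨a, ?_⟩
    rw [← hf, ← ha, aeval_C]

/-- Elements of `W` which are integral over `K[x]` and over `K[1/x]` lie in `K`. -/
theorem exists_of_mem_IC [IsAlgClosed K] {x w : W} (hx : Transcendental K x) (h₀ : w ∈ IC K {x})
    (h₁ : w ∈ IC K {x⁻¹}) : ∃ a : K, algebraMap K W a = w := by
  have hx' : Transcendental K x⁻¹ := by
    intro h
    apply hx
    simpa using h.inv
  have hE : IntermediateField.adjoin K {x⁻¹} = IntermediateField.adjoin K {x} := by
    apply le_antisymm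
    · rw [IntermediateField.adjoin_simple_le_iff]
      exact inv_mem (IntermediateField.mem_adjoin_simple_self K x)
    · rw [IntermediateField.adjoin_simple_le_iff]
      have := inv_mem (IntermediateField.mem_adjoin_simple_self K x⁻¹)
      rwa [inv_inv] at this
  have hcoef : ∀ n, ∃ a : K, algebraMap K W a =
      (((minpoly (IntermediateField.adjoin K {x}) w).coeff n :
        IntermediateField.adjoin K {x}) : W) := by
    intro n
    refine adjoin_inter hx (coeff_minpoly_mem hx h₀ n) ?_
    have h₂ := coeff_minpoly_mem hx' h₁ n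
    have key : ∀ (E E' : IntermediateField K W), E = E' →
        (((minpoly E w).coeff n : E) : W) = (((minpoly E' w).coeff n : E') : W) := by
      rintro E _ rfl
      rfl
    rw [key _ _ hE] at h₂
    exact h₂
  have hint : IsIntegral (IntermediateField.adjoin K {x}) w := by
    have h₂ : IsIntegral (Algebra.adjoin K {x}) w := h₀
    exact h₂.tower_top
  choose a ha using hcoef
  let P := minpoly (IntermediateField.adjoin K {x}) w
  have hP : P.Monic := minpoly.monic hint
  let Q : K[X] := ∑ i ∈ Finset.range (P.natDegree + 1), monomial i (a i)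
  have hQ : Q.map (algebraMap K W) = P.map (algebraMap (IntermediateField.adjoin K {x}) W) := by
    ext n
    rw [coeff_map, coeff_map]
    simp only [Q, finsetSum_coeff, coeff_monomial, Finset.sum_ite_eq', Finset.mem_range]
    split_ifs with h
    · exact ha n
    · rw [map_zero, coeff_eq_zero_of_natDegree_lt (by omega), map_zero]
  have hw : IsAlgebraic K w := by
    refine ⟨Q, ?_, ?_⟩
    · intro h0
      rw [h0, Polynomial.map_zero] at hQ
      exact (hP.map (algebraMap (IntermediateField.adjoin K {x}) W)).ne_zero hQ.symm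
    · rw [← eval_map_algebraMap, hQ, eval_map_algebraMap]
      exact minpoly.aeval _ _
  exact exists_of_isIntegral' (algebraMap K W) hw.isIntegral

end Pool.Agent.H27
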