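import Pool.Agent.H27.Basic

/-!
# Projective limits of stacks and profinite gerbes
-/

open CategoryTheory AlgebraicGeometry Limits Bicategory

namespace Pool.Agent.H27

variable {κ : Type} [Field κ]

section

variable {J : Type} [SmallCategory J]
  (F : LocallyDiscrete J ⥤ᵖ BasedCategory.{0, 1} (CommAlgCat.{0} κ))

/-- The category `F j` of a (pseudo)functor `F` from `J` to categories over affine `κ`-schemes. -/
abbrev stage (j : J) : BasedCategory.{0, 1} (CommAlgCat.{0} κ) := F.obj ⟨j⟩

/-- The transition functor `F i ⥤ F j`. -/
abbrev trans {i j : J} (f : i ⟶ j) : BasedFunctor (stage F i) (stage F j) :=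
  F.map f.toLoc

/-- The isomorphism between the transition functor of the identity of `i` and the identity. -/
abbrev transId (i : J) (x : (stage F i).obj) : (trans F (𝟙 i)).obj x ⟶ x :=
  (F.mapId ⟨i⟩).hom.toNatTrans.app x

/-- The isomorphism between the transition functor of `f ≫ g` and the composite of the transition
functors of `f` and `g`. -/
abbrev transComp {i j k : J} (f : i ⟶ j) (g : j ⟶ k) (x : (stage F i).obj) :
    (trans F (f ≫ g)).obj x ⟶ (trans F g).obj ((trans F f).obj x) :=
  (F.mapComp f.toLoc g.toLoc).hom.toNatTrans.app x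

/-- An object of the projective limit of `F`: a `κ`-algebra `base`, objects `obj j` of `F j` over
`base`, and a compatible system of isomorphisms `tr f` from the image of `obj i` in `F j` to
`obj j`. -/
structure LimObj : Type 1 where
  base : CommAlgCat.{0} κ
  obj : ∀ j : J, (stage F j).obj
  obj_base : ∀ j : J, (stage F j).p.obj (obj j) = base
  tr : ∀ {i j : J} (f : i ⟶ j), (trans F f).obj (obj i) ⟶ obj j
  tr_lift : ∀ {i j : J} (f : i ⟶ j), (stage F j).p.IsHomLift (𝟙 base) (tr f)
  tr_id : ∀ i : J, tr (𝟙 i) = transId F i (obj i)
  tr_comp : ∀ {i j k : J} (f : i ⟶ j) (g : j ⟶ k),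
    tr (f ≫ g) = transComp F f g (obj i) ≫ (trans F g).map (tr f) ≫ tr g

/-- An arrow of the projective limit of `F` over `base`: compatible arrows `hom j` over `base`. -/
structure LimHom (x y : LimObj F) : Type where
  base : x.base ⟶ y.base
  hom : ∀ j : J, x.obj j ⟶ y.obj j
  lift : ∀ j : J, (stage F j).p.IsHomLift base (hom j)
  comm : ∀ {i j : J} (f : i ⟶ j), x.tr f ≫ hom j = (trans F f).map (hom i) ≫ y.tr f

variable {F}

@[ext]
lemma LimHom.ext' {x y : LimObj F} {a b : LimHom F x y} (h₀ : a.base = b.base)
    (h : ∀ j, a.hom j = b.hom j) : a = b := by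
  cases a; cases b; congr; funext j; exact h j

/-- The identity arrow. -/
def limId (x : LimObj F) : LimHom F x x where
  base := 𝟙 _
  hom j := 𝟙 _
  lift j := IsHomLift.id (x.obj_base j)
  comm := by intros; simp

/-- Composition of arrows. -/
def limComp {x y z : LimObj F} (a : LimHom F x y) (b : LimHom F y z) : LimHom F x z where
  base := a.base ≫ b.base
  hom j := a.hom j ≫ b.hom j
  lift j := by
    have := a.lift j
    have := b.lift j
    infer_instance
  comm := by
    intro i j f
    rw [← Category.assoc, a.comm, Category.assoc, b.comm, Functor.map_comp, Category.assoc]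

lemma limId_comp {x y : LimObj F} (a : LimHom F x y) : limComp (limId x) a = a := by
  apply LimHom.ext' <;> simp [limId, limComp]

lemma limComp_id {x y : LimObj F} (a : LimHom F x y) : limComp a (limId y) = a := by
  apply LimHom.ext' <;> simp [limId, limComp]

lemma limComp_assoc {x y z w : LimObj F} (a : LimHom F x y) (b : LimHom F y z)
    (c : LimHom F z w) : limComp (limComp a b) c = limComp a (limComp b c) := by
  apply LimHom.ext' <;> simp [limComp]

instance : Category (LimObj F) where
  Hom := LimHom F
  id := limId
  comp := limComp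
  id_comp := limId_comp
  comp_id := limComp_id
  assoc := limComp_assoc

variable (F)

/-- The projective limit of a (pseudo)functor `F` from `J` to categories over affine
`κ`-schemes. -/
def PLim : BasedCategory.{0, 1} (CommAlgCat.{0} κ) where
  obj := LimObj F
  p :=
    { obj := fun x ↦ x.base
      map := fun (a : LimHom F _ _) ↦ a.base
      map_id := fun _ ↦ rfl
      map_comp := fun _ _ ↦ rfl }

end

/-- A profinite gerbe over `κ`: a category over affine `κ`-schemes which is equivalent to the limit
of a projective system of finite gerbes, indexed by a small cofiltered category. -/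
def IsProfiniteGerbe (𝒳 : BasedCategory.{0, 1} (CommAlgCat.{0} κ)) : Prop :=
  ∃ (J : Type) (_ : SmallCategory J) (_ : IsCofiltered J)
    (F : LocallyDiscrete J ⥤ᵖ BasedCategory.{0, 1} (CommAlgCat.{0} κ)),
    (∀ j : J, IsFiniteGerbe (F.obj ⟨j⟩)) ∧ Nonempty (𝒳 ≌ PLim F)

end Pool.Agent.H27
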