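import Pool.Agent.H27.CurvePt

/-!
# The Nori fundamental gerbe of a curve of genus two without rational points
-/

open CategoryTheory Limits AlgebraicGeometry
open scoped TensorProduct

namespace Pool.Agent.H27

variable {κ : Type} [Field κ] {T : Type} [Category.{0} T]

/-- A profinite gerbe with a morphism from `X` has a rational point if `X` has a virtual point. -/
theorem nonempty_of_virtual {X : Over (Spec (CommRingCat.of κ))}
    {G : BasedCategory.{0, 1} (Alg κ)} (p : schemeStack X ⟶ G) (hG : IsProfiniteGerbe G)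
    (R Y : T ⥤ Alg κ) (a : R ⟶ Y) (ρ : ∀ t, specOver (R.obj t) ⟶ X)
    (hρ : ∀ (t t' : T) (τ : t ⟶ t'), specOverMap (R.map τ) ≫ ρ t = ρ t')
    (hY : IsConnectedDiagram Y)
    (hfc : ∀ Γ : BasedCategory.{0, 1} (Alg κ), IsFiniteStack Γ → HasFiniteCoprods Γ)
    (hY' : ∀ Γ : BasedCategory.{0, 1} (Alg κ), IsFiniteGerbe Γ → IsConstOn Y Γ) :
    Nonempty (IsoClasses G) := by
  let e := pointFunctorIso Y (fun t ↦ specOverMap (a.app t) ≫ ρ t) (push_compat R Y a ρ hρ)
  let v := pointFunctor Y (fun t ↦ specOverMap (a.app t) ≫ ρ t) (push_compat R Y a ρ hρ)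
  have hvp : (v ⋙ p.toFunctor) ⋙ G.p = v ⋙ (schemeStack X).p := by
    rw [Functor.assoc, p.w]
  obtain ⟨o, ho⟩ := hG.exists_obj (v ⋙ p.toFunctor) (by rw [hvp]; exact hY.of_iso e.symm) hfc
    (fun Γ hΓ ↦ by rw [hvp]; exact (hY' Γ hΓ).of_iso e.symm)
  exact nonempty_isoClasses ho

namespace Curve

theorem nonempty_isoClasses (κ : Type) [Field κ] [CharP κ 2]
    (G : BasedCategory.{0, 1} (Alg κ)) (p : schemeStack (C κ) ⟶ G) (hG : IsProfiniteGerbe G) :
    Nonempty (IsoClasses G) := by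
  let k := ZMod 2
  let _ : Algebra k κ := ZMod.algebra κ 2
  have hk : ∀ r : k, r ^ 2 = r := by decide
  let K := AlgebraicClosure k
  have : CharP K 2 := charP_of_injective_algebraMap (algebraMap k K).injective 2
  obtain ⟨W, _, _, _, S, i, hi, hF, hx⟩ := exists_curveFrame K k hk
  let _ : Algebra k W := ((algebraMap K W).comp (algebraMap k K)).toAlgebra
  have : IsScalarTower k K W := IsScalarTower.of_algebraMap_eq fun _ ↦ rfl
  exact nonempty_of_virtual p hG (RR κ) (S.Yext κ) (vpt S i hx hF κ) (ρ κ) (ρ_compat κ)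
    (S.isConnectedDiagram_Yext κ) (fun Γ hΓ ↦ hΓ.hasFiniteCoprods)
    (fun Γ hΓ ↦ isConstOn_Yext S κ hΓ.isFiniteStack)

theorem main (κ : Type) [Field κ] [CharP κ 2]
    (hκ : IsEmpty (specOver (CommAlgCat.of κ κ) ⟶ C κ))
    (G : BasedCategory.{0, 1} (Alg κ)) (p : schemeStack (C κ) ⟶ G) (hG : IsProfiniteGerbe G) :
    ¬ Function.Bijective (sigma (C κ) G p) := by
  intro hb
  obtain ⟨c⟩ := nonempty_isoClasses κ G p hG
  obtain ⟨a, -⟩ := hb.2 c
  exact hκ.false a

end Curve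

end Pool.Agent.H27
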