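import Pool.Agent.H27.TorsTriv

open CategoryTheory Limits Bicategory
open scoped TensorProduct

namespace Pool.Agent.H27

variable {κ : Type} [Field κ] {I : Type} [Preorder I]

/-- The part below `s` of a diagram of group schemes. -/
@[reducible] def GrpDiag.below (G : GrpDiag κ I) (s : I) : GrpDiag κ (Set.Iic s) where
  H :=
    { obj := fun i ↦ G.H.obj i.1
      map := fun {i j} t ↦ G.H.map (homOfLE (leOfHom t : i ≤ j) : i.1 ⟶ j.1)
      map_id := fun i ↦ G.H.map_id i.1
      map_comp := fun {_ _ _} f g ↦ by rw [← G.H.map_comp]; rfl }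
  grp i := G.grp i.1
  mul_comp i := G.mul_comp i.1
  comp_mul {i j} t := G.comp_mul (homOfLE (leOfHom t : i ≤ j) : i.1 ⟶ j.1)

variable {G : GrpDiag κ I}

/-- Restriction of families of torsors. -/
@[reducible] def Tors.restr {s' s : I} (h : s' ≤ s) (x : Tors (G.below s)) : Tors (G.below s') where
  base := x.base
  B :=
    { obj := fun i ↦ x.B.obj ⟨i.1, le_trans i.2 h⟩
      map := fun {i j} t ↦ x.B.map (homOfLE (leOfHom t : i ≤ j))
      map_id := fun i ↦ x.B.map_id _
      map_comp := fun {_ _ _} f g ↦ by rw [← x.B.map_comp]; rfl }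
  s i := x.s ⟨i.1, le_trans i.2 h⟩
  s_comp _ := x.s_comp _
  act i _ b g := x.act ⟨i.1, le_trans i.2 h⟩ b g
  act_one i _ b := x.act_one ⟨i.1, le_trans i.2 h⟩ b
  act_mul i _ b g g' := x.act_mul ⟨i.1, le_trans i.2 h⟩ b g g'
  act_comp i _ _ b g f := x.act_comp ⟨i.1, le_trans i.2 h⟩ b g f
  comp_act {i j} t _ b g := x.comp_act (i := ⟨i.1, le_trans i.2 h⟩) (j := ⟨j.1, le_trans j.2 h⟩)
    (homOfLE (leOfHom t : i ≤ j)) b g
  s_act i _ b g := x.s_act ⟨i.1, le_trans i.2 h⟩ b g
  trans i _ b b' hb := x.trans ⟨i.1, le_trans i.2 h⟩ b b' hb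
  ff i := x.ff ⟨i.1, le_trans i.2 h⟩



/-- Restriction of families of torsors. -/
@[reducible] def Tors.below (x : Tors G) (s : I) : Tors (G.below s) where
  base := x.base
  B :=
    { obj := fun i ↦ x.B.obj i.1
      map := fun {i j} t ↦ x.B.map (homOfLE (leOfHom t : i ≤ j) : i.1 ⟶ j.1)
      map_id := fun i ↦ x.B.map_id _
      map_comp := fun {_ _ _} f g ↦ by rw [← x.B.map_comp]; rfl }
  s i := x.s i.1
  s_comp _ := x.s_comp _
  act i _ b g := x.act i.1 b g
  act_one i _ b := x.act_one i.1 b
  act_mul i _ b g g' := x.act_mul i.1 b g g'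
  act_comp i _ _ b g f := x.act_comp i.1 b g f
  comp_act {i j} t _ b g := x.comp_act (homOfLE (leOfHom t : i ≤ j) : i.1 ⟶ j.1) b g
  s_act i _ b g := x.s_act i.1 b g
  trans i _ b b' hb := x.trans i.1 b b' hb
  ff i := x.ff i.1



/-- Restriction of morphisms. -/
@[reducible] def TorsHom.restr {s' s : I} (h : s' ≤ s) {x y : Tors (G.below s)} (f : x ⟶ y) :
    x.restr h ⟶ y.restr h :=
  TorsHom.mk (base := TorsHom.base (x := x) (y := y) f)
    (hom :=
      { app := fun i ↦ (TorsHom.hom (x := x) (y := y) f).app ⟨i.1, le_trans i.2 h⟩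
        naturality := fun _ _ _ ↦ (TorsHom.hom (x := x) (y := y) f).naturality _ })
    (comm := fun i ↦ TorsHom.comm (x := x) (y := y) f ⟨i.1, le_trans i.2 h⟩)
    (equi := fun i _ b g ↦ TorsHom.equi (x := x) (y := y) f ⟨i.1, le_trans i.2 h⟩ b g)

/-- Restriction of morphisms. -/
@[reducible] def TorsHom.below {x y : Tors G} (f : x ⟶ y) (s : I) : x.below s ⟶ y.below s :=
  TorsHom.mk (base := TorsHom.base (x := x) (y := y) f)
    (hom :=
      { app := fun i ↦ (TorsHom.hom (x := x) (y := y) f).app i.1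
        naturality := fun _ _ _ ↦ (TorsHom.hom (x := x) (y := y) f).naturality _ })
    (comm := fun i ↦ TorsHom.comm (x := x) (y := y) f i.1)
    (equi := fun i _ b g ↦ TorsHom.equi (x := x) (y := y) f i.1 b g)

/-- Restriction as a functor. -/
def restrFunctor (G : GrpDiag κ I) {s' s : I} (h : s' ≤ s) :
    BasedFunctor (TorsCat (G.below s)) (TorsCat (G.below s')) where
  obj x := Tors.restr h x
  map f := TorsHom.restr h f
  map_id _ := rfl
  map_comp _ _ := rfl
  w := rfl



/-- Restriction as a morphism of categories over `Alg κ`. -/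
def restrMor (G : GrpDiag κ I) {s' s : I} (h : s' ≤ s) :
    TorsCat (G.below s) ⟶ TorsCat (G.below s') := restrFunctor G h

/-- Compatibility of restriction with the identity. -/
def restrId (G : GrpDiag κ I) (s : I) :
    restrMor G (le_refl s) ≅ 𝟙 (TorsCat (G.below s)) := Iso.refl _

/-- Transitivity of restriction. -/
def restrComp (G : GrpDiag κ I) {s s' s'' : I} (h : s' ≤ s) (h' : s'' ≤ s') :
    restrMor G (h'.trans h) ≅ restrMor G h ≫ restrMor G h' := Iso.refl _

/-- The projective system of the `TorsCat (G.below s)`. -/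
def torsSystem (G : GrpDiag κ I) : LocallyDiscrete Iᵒᵈ ⥤ᵖ BasedCategory.{0, 1} (Alg κ) :=
  LocallyDiscrete.mkPseudofunctor (B₀ := Iᵒᵈ) (C := BasedCategory.{0, 1} (Alg κ))
    (fun s ↦ TorsCat (G.below (OrderDual.ofDual s)))
    (fun {s s'} f ↦ restrMor G (show OrderDual.ofDual s' ≤ OrderDual.ofDual s from leOfHom f))
    (fun s ↦ restrId G (OrderDual.ofDual s))
    (fun {s s' s''} f g ↦ restrComp G
      (show OrderDual.ofDual s' ≤ OrderDual.ofDual s from leOfHom f)
        (show OrderDual.ofDual s'' ≤ OrderDual.ofDual s' from leOfHom g))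
    (by
      intros
      rfl)
    (by intros; rfl)
    (by intros; rfl)

namespace LimObj

variable (y : LimObj (torsSystem G))

/-- The component with index `s` of an object of the limit. -/
def comp (s : I) : Tors (G.below s) := y.obj (OrderDual.toDual s)

lemma comp_base (s : I) : (y.comp s).base = y.base := y.obj_base (OrderDual.toDual s)

/-- The transition isomorphisms of an object of the limit. -/
def trs {s' s : I} (h : s' ≤ s) : (y.comp s).restr h ⟶ y.comp s' :=
  y.tr (homOfLE h : OrderDual.toDual s ⟶ OrderDual.toDual s')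

lemma trs_base {s' s : I} (h : s' ≤ s) : TorsHom.base (y.trs h) =
    eqToHom (y.comp_base s) ≫ eqToHom (y.comp_base s').symm := by
  have h1 : (TorsCat (G.below s')).p.IsHomLift (𝟙 y.base) (y.trs h) :=
    y.tr_lift (homOfLE h : OrderDual.toDual s ⟶ OrderDual.toDual s')
  have h2 := IsHomLift.fac' (TorsCat (G.below s')).p (𝟙 y.base) (y.trs h)
  refine h2.trans ?_
  rw [Category.id_comp]
  rfl

lemma trs_id (s : I) : y.trs (le_refl s) = 𝟙 (y.comp s) := y.tr_id (OrderDual.toDual s)

lemma trs_comp {s s' s'' : I} (h : s' ≤ s) (h' : s'' ≤ s') :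
    y.trs (h'.trans h) = TorsHom.restr h' (y.trs h) ≫ y.trs h' := by
  have h1 := y.tr_comp (homOfLE h : OrderDual.toDual s ⟶ OrderDual.toDual s')
    (homOfLE h' : OrderDual.toDual s' ⟶ OrderDual.toDual s'')
  exact h1.trans (Category.id_comp _)

variable (hc : ∀ s, IsCofiberedInGroupoids (TorsCat (G.below s)))

include hc in
lemma isIso_trs {s' s : I} (h : s' ≤ s) : IsIso (y.trs h) := by
  have h1 : IsIso ((TorsCat (G.below s')).p.map (y.trs h)) := by
    change IsIso (TorsHom.base (y.trs h))
    rw [trs_base]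
    infer_instance
  exact (hc s').isIso_of_isIso (x := (y.comp s).restr h) (y := y.comp s') (y.trs h)

/-- The inverse of `trs`. -/
noncomputable def strs {s' s : I} (h : s' ≤ s) : y.comp s' ⟶ (y.comp s).restr h :=
  have := y.isIso_trs hc h
  inv (y.trs h)

@[reassoc (attr := simp)]
lemma trs_strs {s' s : I} (h : s' ≤ s) : y.trs h ≫ y.strs hc h = 𝟙 _ := by
  have := y.isIso_trs hc h
  simp [strs]

@[reassoc (attr := simp)]
lemma strs_trs {s' s : I} (h : s' ≤ s) : y.strs hc h ≫ y.trs h = 𝟙 _ := by
  have := y.isIso_trs hc h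
  simp [strs]

lemma strs_id (s : I) : y.strs hc (le_refl s) = 𝟙 (y.comp s) := by
  have h1 := y.trs_strs hc (le_refl s)
  rw [trs_id] at h1
  exact (Category.id_comp _).symm.trans h1

lemma restr_comp {s s' : I} (h : s' ≤ s) {x y z : Tors (G.below s)} (f : x ⟶ y) (g : y ⟶ z) :
    TorsHom.restr h (f ≫ g) = TorsHom.restr h f ≫ TorsHom.restr h g := rfl

lemma strs_comp {s s' s'' : I} (h : s' ≤ s) (h' : s'' ≤ s') :
    y.strs hc (h'.trans h) = y.strs hc h' ≫ TorsHom.restr h' (y.strs hc h) := by
  have := y.isIso_trs hc (h'.trans h)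
  rw [← cancel_epi (y.trs (h'.trans h)), trs_strs]
  have h1 := y.trs_comp h h'
  rw [h1, Category.assoc, trs_strs_assoc, ← restr_comp, trs_strs]
  rfl

lemma strs_base {s' s : I} (h : s' ≤ s) : TorsHom.base (y.strs hc h) =
    eqToHom (y.comp_base s') ≫ eqToHom (y.comp_base s).symm := by
  have h1 : TorsHom.base (y.trs h) ≫ TorsHom.base (y.strs hc h) = 𝟙 _ :=
    congrArg TorsHom.base (y.trs_strs hc h)
  rw [trs_base, Category.assoc] at h1
  rw [← cancel_epi (eqToHom (y.comp_base s) ≫ eqToHom (y.comp_base s').symm), Category.assoc, h1]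
  simp

/-- An arrow in `Set.Iic k`. -/
def up {i j k : I} (h : i ≤ j) (h' : j ≤ k) : (⟨i, h.trans h'⟩ : Set.Iic k) ⟶ ⟨j, h'⟩ :=
  homOfLE (show (⟨i, h.trans h'⟩ : Set.Iic k) ≤ ⟨j, h'⟩ from h)

/-- The transition maps of the glued family. -/
noncomputable def glueMap {i j : I} (h : i ≤ j) :
    (y.comp i).B.obj ⟨i, le_refl i⟩ ⟶ (y.comp j).B.obj ⟨j, le_refl j⟩ :=
  (TorsHom.hom (y.strs hc h)).app ⟨i, le_refl i⟩ ≫ (y.comp j).B.map (up h (le_refl j))

lemma glueMap_id (i : I) : y.glueMap hc (le_refl i) = 𝟙 _ := by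
  have h1 : (y.comp i).B.map (up (le_refl i) (le_refl i)) = 𝟙 _ := (y.comp i).B.map_id _
  rw [glueMap, h1, strs_id]
  exact Category.comp_id _

lemma glueMap_comp {i j k : I} (h : i ≤ j) (h' : j ≤ k) :
    y.glueMap hc (h.trans h') = y.glueMap hc h ≫ y.glueMap hc h' := by
  have h1 : (y.comp k).B.map (up (h.trans h') (le_refl k)) =
      (y.comp k).B.map (up h h') ≫ (y.comp k).B.map (up h' (le_refl k)) := by
    rw [← (y.comp k).B.map_comp]
    rfl
  have h2 := (TorsHom.hom (y.strs hc h')).naturality (up h (le_refl j))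
  have h3 : (TorsHom.hom (y.strs hc (h.trans h'))).app ⟨i, le_refl i⟩ =
      (TorsHom.hom (y.strs hc h)).app ⟨i, le_refl i⟩ ≫
        (TorsHom.hom (y.strs hc h')).app ⟨i, h⟩ := by
    rw [strs_comp]
    rfl
  rw [glueMap, glueMap, glueMap, h1, h3]
  simp only [Category.assoc]
  congr 1
  rw [← Category.assoc, ← Category.assoc, h2]
  rfl

lemma s_glueMap {i j : I} (h : i ≤ j) :
    (eqToHom (y.comp_base i).symm ≫ (y.comp i).s ⟨i, le_refl i⟩) ≫ y.glueMap hc h =
      eqToHom (y.comp_base j).symm ≫ (y.comp j).s ⟨j, le_refl j⟩ := by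
  have h1 := TorsHom.comm (y.strs hc h) ⟨i, le_refl i⟩
  rw [glueMap, Category.assoc, ← Category.assoc ((y.comp i).s ⟨i, le_refl i⟩), ← h1, strs_base]
  have h2 := (y.comp j).s_comp (up h (le_refl j))
  change eqToHom _ ≫ ((eqToHom _ ≫ eqToHom _) ≫ (y.comp j).s ⟨i, h⟩) ≫
    (y.comp j).B.map (up h (le_refl j)) = _
  rw [Category.assoc, h2]
  simp

lemma glueMap_act {i j : I} (h : i ≤ j) {C : Alg κ} (b : (y.comp j).B.obj ⟨j, le_refl j⟩ ⟶ C)
    (g : G.H.obj j ⟶ C) : y.glueMap hc h ≫ (y.comp j).act ⟨j, le_refl j⟩ b g =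
      (y.comp i).act ⟨i, le_refl i⟩ (y.glueMap hc h ≫ b) (G.H.map (homOfLE h) ≫ g) := by
  have h1 := TorsHom.equi (y.strs hc h) ⟨i, le_refl i⟩ ((y.comp j).B.map (up h (le_refl j)) ≫ b)
    (G.H.map (homOfLE h) ≫ g)
  have h2 := (y.comp j).comp_act (up h (le_refl j)) b g
  rw [glueMap, Category.assoc, h2, Category.assoc]
  exact h1

/-- The glued family. -/
noncomputable def glue : Tors G where
  base := y.base
  B :=
    { obj := fun i ↦ (y.comp i).B.obj ⟨i, le_refl i⟩
      map := fun {i j} t ↦ y.glueMap hc (leOfHom t)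
      map_id := fun i ↦ y.glueMap_id hc i
      map_comp := fun {_ _ _} f g ↦ y.glueMap_comp hc _ _ }
  s i := eqToHom (y.comp_base i).symm ≫ (y.comp i).s ⟨i, le_refl i⟩
  s_comp {i j} t := y.s_glueMap hc (leOfHom t)
  act i _ b g := (y.comp i).act ⟨i, le_refl i⟩ b g
  act_one i _ b := (y.comp i).act_one ⟨i, le_refl i⟩ b
  act_mul i _ b g g' := (y.comp i).act_mul ⟨i, le_refl i⟩ b g g'
  act_comp i _ _ b g f := (y.comp i).act_comp ⟨i, le_refl i⟩ b g f
  comp_act {i j} t _ b g := y.glueMap_act hc (leOfHom t) b g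
  s_act i _ b g := by
    have h1 := (y.comp i).s_act ⟨i, le_refl i⟩ b g
    rw [Category.assoc, h1, Category.assoc]
  trans i _ b b' hb := (y.comp i).trans ⟨i, le_refl i⟩ b b' (by
    rw [Category.assoc, Category.assoc] at hb
    exact (cancel_epi _).1 hb)
  ff i := ff_comp (ff_iso (eqToIso (y.comp_base i).symm)) ((y.comp i).ff ⟨i, le_refl i⟩)

end LimObj

/-- A family of torsors gives an object of the limit. -/
def toLimObj (x : Tors G) : LimObj (torsSystem G) where
  base := x.base
  obj s := x.below (OrderDual.ofDual s)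
  obj_base _ := rfl
  tr {s s'} f := 𝟙 (x.below (OrderDual.ofDual s'))
  tr_lift {s s'} f := IsHomLift.id (p := (TorsCat (G.below (OrderDual.ofDual s'))).p)
    (R := x.base) (a := x.below (OrderDual.ofDual s')) rfl
  tr_id _ := rfl
  tr_comp {s s' s''} _ _ := by
    symm
    refine (Category.id_comp _).trans ?_
    exact Category.id_comp (𝟙 (x.below (OrderDual.ofDual s'')))

/-- A morphism of families of torsors gives a morphism in the limit. -/
def toLimHom {x y : Tors G} (f : x ⟶ y) : toLimObj x ⟶ toLimObj y :=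
  LimHom.mk (base := TorsHom.base f) (hom := fun s ↦ TorsHom.below f (OrderDual.ofDual s))
    (lift := fun s ↦ IsHomLift.map (TorsCat (G.below (OrderDual.ofDual s))).p
      (TorsHom.below f (OrderDual.ofDual s)))
    (comm := fun {s s'} _ ↦ by
      refine (Category.id_comp (TorsHom.below f (OrderDual.ofDual s'))).trans ?_
      exact (Category.comp_id (TorsHom.below f (OrderDual.ofDual s'))).symm)

/-- The functor from families of torsors to the limit. -/
def toLim (G : GrpDiag κ I) : BasedFunctor (TorsCat G) (PLim (torsSystem G)) where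
  obj x := toLimObj x
  map f := toLimHom f
  map_id _ := rfl
  map_comp _ _ := rfl
  w := rfl

namespace LimHom

variable {x y : LimObj (torsSystem G)} (f : x ⟶ y)

/-- The component with index `s` of an arrow of the limit. -/
def comp (s : I) : x.comp s ⟶ y.comp s := LimHom.hom f (OrderDual.toDual s)

lemma comp_base (s : I) : TorsHom.base (comp f s) =
    eqToHom (x.comp_base s) ≫ LimHom.base f ≫ eqToHom (y.comp_base s).symm := by
  have h1 : (TorsCat (G.below s)).p.IsHomLift (LimHom.base f) (comp f s) :=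
    LimHom.lift f (OrderDual.toDual s)
  exact IsHomLift.fac' (TorsCat (G.below s)).p (LimHom.base f) (comp f s)

lemma trs_comp {s' s : I} (h : s' ≤ s) :
    x.trs h ≫ comp f s' = TorsHom.restr h (comp f s) ≫ y.trs h :=
  LimHom.comm f (homOfLE h : OrderDual.toDual s ⟶ OrderDual.toDual s')

variable (hc : ∀ s, IsCofiberedInGroupoids (TorsCat (G.below s)))

lemma comp_strs {s' s : I} (h : s' ≤ s) :
    comp f s' ≫ y.strs hc h = x.strs hc h ≫ TorsHom.restr h (comp f s) := by
  have h1 := trs_comp f h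
  calc comp f s' ≫ y.strs hc h = x.strs hc h ≫ (x.trs h ≫ comp f s') ≫ y.strs hc h := by
        rw [Category.assoc, LimObj.strs_trs_assoc]
    _ = _ := by rw [h1, Category.assoc, LimObj.trs_strs, Category.comp_id]

lemma glueMap_comp {i j : I} (h : i ≤ j) :
    x.glueMap hc h ≫ (TorsHom.hom (comp f j)).app ⟨j, le_refl j⟩ =
      (TorsHom.hom (comp f i)).app ⟨i, le_refl i⟩ ≫ y.glueMap hc h := by
  have h1 := (TorsHom.hom (comp f j)).naturality (LimObj.up h (le_refl j))
  have h2 : (TorsHom.hom (comp f i)).app ⟨i, le_refl i⟩ ≫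
      (TorsHom.hom (y.strs hc h)).app ⟨i, le_refl i⟩ =
      (TorsHom.hom (x.strs hc h)).app ⟨i, le_refl i⟩ ≫
        (TorsHom.hom (comp f j)).app ⟨i, h⟩ :=
    congrArg (fun z : x.comp i ⟶ (y.comp j).restr h ↦ (TorsHom.hom z).app ⟨i, le_refl i⟩)
      (comp_strs f hc h)
  rw [LimObj.glueMap, LimObj.glueMap, Category.assoc, h1, ← Category.assoc, ← Category.assoc, h2]

/-- The glued arrow. -/
noncomputable def glue : x.glue hc ⟶ y.glue hc :=
  TorsHom.mk (base := LimHom.base f)
    (hom :=
      { app := fun i ↦ (TorsHom.hom (comp f i)).app ⟨i, le_refl i⟩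
        naturality := fun _ _ t ↦ glueMap_comp f hc (leOfHom t) })
    (comm := fun i ↦ by
      have h1 := TorsHom.comm (comp f i) ⟨i, le_refl i⟩
      change LimHom.base f ≫ eqToHom (y.comp_base i).symm ≫ (y.comp i).s ⟨i, le_refl i⟩ =
        (eqToHom (x.comp_base i).symm ≫ (x.comp i).s ⟨i, le_refl i⟩) ≫
          (TorsHom.hom (comp f i)).app ⟨i, le_refl i⟩
      rw [Category.assoc, ← h1, comp_base]
      simp)
    (equi := fun i _ b g ↦ TorsHom.equi (comp f i) ⟨i, le_refl i⟩ b g)

end LimHom

/-- The functor from the limit to families of torsors. -/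
noncomputable def fromLim (hc : ∀ s, IsCofiberedInGroupoids (TorsCat (G.below s))) :
    BasedFunctor (PLim (torsSystem G)) (TorsCat G) where
  obj x := LimObj.glue x hc
  map f := LimHom.glue f hc
  map_id _ := rfl
  map_comp _ _ := rfl
  w := rfl

lemma strs_toLimObj (hc : ∀ s, IsCofiberedInGroupoids (TorsCat (G.below s))) (x : Tors G)
    {s' s : I} (h : s' ≤ s) : (toLimObj x).strs hc h = 𝟙 (x.below s') := by
  have h1 := (toLimObj x).trs_strs hc h
  exact (Category.id_comp _).symm.trans h1

/-- The unit. -/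
noncomputable def unitHom (hc : ∀ s, IsCofiberedInGroupoids (TorsCat (G.below s))) (x : Tors G) :
    x ⟶ LimObj.glue (toLimObj x) hc :=
  TorsHom.mk (base := 𝟙 x.base)
    (hom :=
      { app := fun i ↦ 𝟙 (x.B.obj i)
        naturality := fun i j t ↦ by
          refine (Category.comp_id _).trans ?_
          symm
          refine (Category.id_comp _).trans ?_
          change (TorsHom.hom ((toLimObj x).strs hc (leOfHom t))).app ⟨i, le_refl i⟩ ≫
            x.B.map t = x.B.map t
          rw [strs_toLimObj]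
          exact Category.id_comp _ })
    (comm := fun i ↦ by
      refine (Category.id_comp _).trans ?_
      symm
      refine (Category.comp_id _).trans ?_
      exact (Category.id_comp _).symm)
    (equi := fun i _ b g ↦ by
      refine (Category.id_comp _).trans ?_
      symm
      exact congrArg (fun z ↦ x.act i z g) (Category.id_comp b))

lemma isIso_unitHom (hc' : IsCofiberedInGroupoids (TorsCat G))
    (hc : ∀ s, IsCofiberedInGroupoids (TorsCat (G.below s))) (x : Tors G) :
    IsIso (unitHom hc x) := by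
  have : IsIso ((TorsCat G).p.map (unitHom hc x)) := by
    change IsIso (𝟙 x.base)
    infer_instance
  exact hc'.isIso_of_isIso (x := x) (y := LimObj.glue (toLimObj x) hc) (unitHom hc x)

/-- The components of the unit isomorphism. -/
noncomputable def unitApp (hc' : IsCofiberedInGroupoids (TorsCat G))
    (hc : ∀ s, IsCofiberedInGroupoids (TorsCat (G.below s))) (x : Tors G) :
    x ≅ LimObj.glue (toLimObj x) hc :=
  @asIso _ _ _ _ (unitHom hc x) (isIso_unitHom hc' hc x)

/-- The unit isomorphism. -/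
noncomputable def unitIso (hc' : IsCofiberedInGroupoids (TorsCat G))
    (hc : ∀ s, IsCofiberedInGroupoids (TorsCat (G.below s))) :
    BasedFunctor.id (TorsCat G) ≅ (toLim G).comp (fromLim hc) :=
  BasedNatIso.mkNatIso (NatIso.ofComponents (fun x : Tors G ↦ unitApp hc' hc x) (by
      intro x y f
      apply TorsHom.ext
      · exact (Category.comp_id (TorsHom.base f)).trans (Category.id_comp (TorsHom.base f)).symm
      · ext i : 2
        exact (Category.comp_id ((TorsHom.hom f).app i)).trans
          (Category.id_comp ((TorsHom.hom f).app i)).symm)) (by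
    intro x
    exact IsHomLift.map (TorsCat G).p (unitHom hc x))

section

variable {J : Type} [SmallCategory J] {F : LocallyDiscrete J ⥤ᵖ BasedCategory.{0, 1} (Alg κ)}

lemma LimHom.isIso_of {x y : LimObj F} (f : x ⟶ y) (h₀ : IsIso (LimHom.base f))
    (h : ∀ j, IsIso (LimHom.hom f j)) : IsIso f := by
  let g : y ⟶ x := LimHom.mk (base := inv (LimHom.base f)) (hom := fun j ↦ inv (LimHom.hom f j))
    (lift := fun j ↦ by
      have := LimHom.lift f j
      infer_instance)
    (comm := fun {i j} t ↦ by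
      have := LimHom.comm f t
      rw [IsIso.comp_inv_eq, Category.assoc, this, ← Category.assoc, ← Functor.map_comp]
      simp)
  refine ⟨g, ?_, ?_⟩
  · apply LimHom.ext'
    · exact IsIso.hom_inv_id _
    · intro j
      exact IsIso.hom_inv_id _
  · apply LimHom.ext'
    · exact IsIso.inv_hom_id _
    · intro j
      exact IsIso.inv_hom_id _

end

section

variable (hc : ∀ s, IsCofiberedInGroupoids (TorsCat (G.below s))) (y : LimObj (torsSystem G))

lemma strs_app_comp {i s s' : I} (h : i ≤ s) (h' : s ≤ s') :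
    (TorsHom.hom (y.strs hc (h.trans h'))).app ⟨i, le_refl i⟩ =
      (TorsHom.hom (y.strs hc h)).app ⟨i, le_refl i⟩ ≫ (TorsHom.hom (y.strs hc h')).app ⟨i, h⟩ := by
  rw [LimObj.strs_comp]
  rfl

/-- The components of the counit. -/
noncomputable def counitComp (s : I) : (LimObj.glue y hc).below s ⟶ y.comp s :=
  TorsHom.mk (base := eqToHom (y.comp_base s).symm)
    (hom :=
      { app := fun i ↦ (TorsHom.hom (y.strs hc i.2)).app ⟨i.1, le_refl i.1⟩
        naturality := fun i j t ↦ by
          change y.glueMap hc (leOfHom t) ≫ _ = _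
          have hij : i.1 ≤ j.1 := leOfHom t
          have h1 := (TorsHom.hom (y.strs hc j.2)).naturality (LimObj.up hij (le_refl j.1))
          have h2 := strs_app_comp hc y hij (show j.1 ≤ s from j.2)
          change ((TorsHom.hom (y.strs hc hij)).app ⟨i.1, le_refl i.1⟩ ≫
            (y.comp j.1).B.map (LimObj.up hij (le_refl j.1))) ≫
              (TorsHom.hom (y.strs hc j.2)).app ⟨j.1, le_refl j.1⟩ = _
          rw [Category.assoc, h1, ← Category.assoc, ← h2]
          rfl })
    (comm := fun i ↦ by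
      change eqToHom _ ≫ (y.comp s).s ⟨i.1, i.2⟩ = (eqToHom _ ≫ (y.comp i.1).s ⟨i.1, le_refl _⟩) ≫
        (TorsHom.hom (y.strs hc i.2)).app ⟨i.1, le_refl i.1⟩
      have h1 := TorsHom.comm (y.strs hc i.2) ⟨i.1, le_refl i.1⟩
      rw [Category.assoc, ← h1, LimObj.strs_base]
      simp)
    (equi := fun i _ b g ↦ TorsHom.equi (y.strs hc i.2) ⟨i.1, le_refl i.1⟩ b g)

lemma isIso_counitComp (s : I) : IsIso (counitComp hc y s) := by
  have : IsIso ((TorsCat (G.below s)).p.map (counitComp hc y s)) := by
    change IsIso (eqToHom (y.comp_base s).symm)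
    infer_instance
  exact (hc s).isIso_of_isIso (x := (LimObj.glue y hc).below s) (y := y.comp s)
    (counitComp hc y s)

lemma counitComp_comm {s s' : I} (h : s' ≤ s) :
    counitComp hc y s' = TorsHom.restr h (counitComp hc y s) ≫ y.trs h := by
  apply TorsHom.ext
  · have h1 := LimObj.trs_base y h
    have h2 : eqToHom (y.comp_base s').symm = eqToHom (y.comp_base s).symm ≫
      TorsHom.base (x := (y.comp s).restr h) (y := y.comp s') (y.trs h) := by
      rw [h1]
      simp
    exact h2
  · ext i : 2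
    have hi : i.1 ≤ s' := i.2
    change (TorsHom.hom (y.strs hc hi)).app ⟨i.1, le_refl i.1⟩ =
      (TorsHom.hom (y.strs hc (hi.trans h))).app ⟨i.1, le_refl i.1⟩ ≫
        (TorsHom.hom (y.trs h)).app ⟨i.1, i.2⟩
    have h2 := strs_app_comp hc y hi h
    rw [h2, Category.assoc]
    have h1 : (TorsHom.hom (y.strs hc h)).app ⟨i.1, i.2⟩ ≫ (TorsHom.hom (y.trs h)).app ⟨i.1, i.2⟩
        = 𝟙 _ := congrArg (fun z : y.comp s' ⟶ y.comp s' ↦ (TorsHom.hom z).app ⟨i.1, i.2⟩)
      (y.strs_trs hc h)
    rw [h1, Category.comp_id]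

/-- The counit. -/
noncomputable def counitHom : toLimObj (LimObj.glue y hc) ⟶ y :=
  LimHom.mk (base := 𝟙 y.base) (hom := fun s ↦ counitComp hc y (OrderDual.ofDual s))
    (lift := fun s ↦ by
      refine IsHomLift.of_fac' (TorsCat (G.below (OrderDual.ofDual s))).p (𝟙 y.base)
        (counitComp hc y (OrderDual.ofDual s)) rfl (y.comp_base (OrderDual.ofDual s)) ?_
      exact ((Category.id_comp _).trans (Category.id_comp _)).symm)
    (comm := fun {s s'} t ↦ by
      refine (Category.id_comp (counitComp hc y (OrderDual.ofDual s'))).trans ?_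
      exact counitComp_comm hc y (leOfHom t))

lemma isIso_counitHom : IsIso (counitHom hc y) := by
  refine LimHom.isIso_of _ ?_ ?_
  · change IsIso (𝟙 y.base)
    infer_instance
  · intro s
    exact isIso_counitComp hc y (OrderDual.ofDual s)

end

/-- The counit isomorphism. -/
noncomputable def counitIso (hc : ∀ s, IsCofiberedInGroupoids (TorsCat (G.below s))) :
    (fromLim hc).comp (toLim G) ≅ BasedFunctor.id (PLim (torsSystem G)) :=
  BasedNatIso.mkNatIso (NatIso.ofComponents (fun y : LimObj (torsSystem G) ↦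
    @asIso _ _ _ _ (counitHom hc y) (isIso_counitHom hc y)) (by
      intro x y f
      apply LimHom.ext'
      · exact (Category.comp_id (LimHom.base f)).trans (Category.id_comp (LimHom.base f)).symm
      · intro s
        apply TorsHom.ext
        · change LimHom.base f ≫ eqToHom (y.comp_base (OrderDual.ofDual s)).symm =
            eqToHom (x.comp_base (OrderDual.ofDual s)).symm ≫
              TorsHom.base (LimHom.comp f (OrderDual.ofDual s))
          rw [LimHom.comp_base]
          simp
        · ext i : 2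
          exact congrArg (fun z : x.comp i.1 ⟶ (y.comp (OrderDual.ofDual s)).restr i.2 ↦
            (TorsHom.hom z).app ⟨i.1, le_refl i.1⟩) (LimHom.comp_strs f hc i.2))) (by
    intro y
    exact IsHomLift.map (PLim (torsSystem G)).p (counitHom hc y))

/-- The equivalence between families of torsors and the limit. -/
theorem nonempty_equiv (hc' : IsCofiberedInGroupoids (TorsCat G))
    (hc : ∀ s, IsCofiberedInGroupoids (TorsCat (G.below s))) :
    Nonempty (TorsCat G ≌ PLim (torsSystem G)) :=
  ⟨Bicategory.Equivalence.mkOfAdjointifyCounit (unitIso hc' hc) (counitIso hc)⟩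

end Pool.Agent.H27
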