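import Pool.Agent.H27.TorsTriv
import Pool.Agent.H27.TorsLim
import Pool.Agent.H27.Descent

/-!
# Families of torsors under a pro-finite group scheme form a profinite gerbe
-/

open CategoryTheory Limits Bicategory
open scoped TensorProduct

namespace Pool.Agent.H27

variable {κ : Type} [Field κ]

section Colim

variable {I : Type} [Preorder I] [IsDirectedOrder I] [Nonempty I] {A C : Alg κ} (B : I ⥤ Alg κ)
  (s : ∀ i, A ⟶ B.obj i) (hs : ∀ {i j : I} (t : i ⟶ j), s i ≫ B.map t = s j)
  (hff : ∀ i, (s i).hom.toRingHom.FaithfullyFlat) (b : ∀ i, B.obj i ⟶ C)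
  (hb : ∀ {i j : I} (t : i ⟶ j), B.map t ≫ b j = b i) (f : A ⟶ C) (hf : ∀ i, s i ≫ b i = f)
  (hsurj : ∀ z : C, ∃ (i : I) (x : B.obj i), (b i).hom x = z)
  (hker : ∀ (i : I) (x : B.obj i), (b i).hom x = 0 → ∃ (j : I) (t : i ⟶ j), (B.map t).hom x = 0)

include hs hff hb hf hsurj hker

/-- A directed colimit of faithfully flat algebras is faithfully flat. -/
lemma ff_of_colim : f.hom.toRingHom.FaithfullyFlat := by
  have hs' : ∀ {i j : I} (t : i ⟶ j) (a : A), (B.map t).hom ((s i).hom a) = (s j).hom a :=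
    fun t a ↦ congr(($(hs t)).hom a)
  have hb' : ∀ {i j : I} (t : i ⟶ j) (x : B.obj i), (b j).hom ((B.map t).hom x) = (b i).hom x :=
    fun t x ↦ congr(($(hb t)).hom x)
  have hf' : ∀ (i : I) (a : A), (b i).hom ((s i).hom a) = f.hom a :=
    fun i a ↦ congr(($(hf i)).hom a)
  let _ : Algebra A C := f.hom.toRingHom.toAlgebra
  let _ : ∀ i, Algebra A (B.obj i) := fun i ↦ (s i).hom.toRingHom.toAlgebra
  have hff' : ∀ i, Module.FaithfullyFlat A (B.obj i) := hff
  have hsm : ∀ (i : I) (a : A) (x : B.obj i), a • x = (s i).hom a * x := fun _ _ _ ↦ rfl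
  have hsmC : ∀ (a : A) (x : C), a • x = f.hom a * x := fun _ _ ↦ rfl
  -- common index
  have hcommon : ∀ {n : ℕ} (x : Fin n → C), ∃ (i : I) (x' : Fin n → B.obj i),
      ∀ l, (b i).hom (x' l) = x l := by
    intro n x
    choose i x' hx' using fun l ↦ hsurj (x l)
    obtain ⟨j, hj⟩ := Finite.exists_le i
    exact ⟨j, fun l ↦ (B.map (homOfLE (hj l))).hom (x' l), fun l ↦ by rw [hb', hx']⟩
  have hflat : Module.Flat A C := by
    apply Module.Flat.of_forall_isTrivialRelation
    intro n g x hgx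
    obtain ⟨i, x', hx'⟩ := hcommon x
    have h1 : (b i).hom (∑ l, g l • x' l) = 0 := by
      rw [← hgx, map_sum]
      refine Finset.sum_congr rfl fun l _ ↦ ?_
      rw [hsm, map_mul, hf', hx', hsmC]
    obtain ⟨j, t, hj⟩ := hker i _ h1
    have h2 : ∑ l, g l • (B.map t).hom (x' l) = 0 := by
      rw [← hj, map_sum]
      refine Finset.sum_congr rfl fun l _ ↦ ?_
      rw [hsm, hsm, map_mul, hs']
    obtain ⟨k, a, y, h3, h4⟩ := Module.Flat.isTrivialRelation_of_sum_smul_eq_zero (R := A)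
      (M := B.obj j) (f := g) (x := fun l ↦ (B.map t).hom (x' l)) h2
    refine ⟨k, a, fun m ↦ (b j).hom (y m), fun l ↦ ?_, h4⟩
    have h5 := congrArg (b j).hom (h3 l)
    rw [hb', hx', map_sum] at h5
    rw [h5]
    refine Finset.sum_congr rfl fun m _ ↦ ?_
    rw [hsm, map_mul, hf', hsmC]
  have key : ∀ (m : Ideal A) (z : C), z ∈ m • (⊤ : Submodule A C) →
      ∃ (i : I) (z' : B.obj i), z' ∈ m • (⊤ : Submodule A (B.obj i)) ∧ (b i).hom z' = z := by
    intro m z hz
    refine Submodule.smul_induction_on hz ?_ ?_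
    · intro r hr n _
      obtain ⟨i, n', hn'⟩ := hsurj n
      refine ⟨i, r • n', Submodule.smul_mem_smul hr trivial, ?_⟩
      rw [hsm, map_mul, hf', hn', hsmC]
    · rintro x y ⟨i, x', hx, hx'⟩ ⟨j, y', hy, hy'⟩
      obtain ⟨k, hik, hjk⟩ := exists_ge_ge i j
      have hmem : ∀ {i : I} (h : i ≤ k) (x : B.obj i), x ∈ m • (⊤ : Submodule A (B.obj i)) →
          (B.map (homOfLE h)).hom x ∈ m • (⊤ : Submodule A (B.obj k)) := by
        intro i h x hx
        refine Submodule.smul_induction_on hx ?_ ?_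
        · intro r hr n _
          rw [hsm, map_mul, hs', ← hsm]
          exact Submodule.smul_mem_smul hr trivial
        · intro x y hx hy
          rw [map_add]
          exact Submodule.add_mem _ hx hy
      refine ⟨k, (B.map (homOfLE hik)).hom x' + (B.map (homOfLE hjk)).hom y',
        Submodule.add_mem _ (hmem hik _ hx) (hmem hjk _ hy), ?_⟩
      rw [map_add, hb', hb', hx', hy']
  have : Module.FaithfullyFlat A C := by
    refine ⟨?_⟩
    intro m hm htop
    have h1 : (1 : C) ∈ m • (⊤ : Submodule A C) := by rw [htop]; trivial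
    obtain ⟨i, z', hz', h2⟩ := key m 1 h1
    have h3 : (b i).hom (z' - 1) = 0 := by
      rw [map_sub, h2, map_one, sub_self]
    obtain ⟨j, t, hj⟩ := hker i _ h3
    rw [map_sub, map_one, sub_eq_zero] at hj
    have h4 : (1 : B.obj j) ∈ m • (⊤ : Submodule A (B.obj j)) := by
      rw [← hj]
      refine Submodule.smul_induction_on hz' ?_ ?_
      · intro r hr n _
        rw [hsm, map_mul, hs', ← hsm]
        exact Submodule.smul_mem_smul hr trivial
      · intro x y hx hy
        rw [map_add]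
        exact Submodule.add_mem _ hx hy
    refine (hff' j).submodule_ne_top hm ?_
    rw [eq_top_iff]
    intro z _
    have h5 : ∀ w : B.obj j, w ∈ m • (⊤ : Submodule A (B.obj j)) →
        z * w ∈ m • (⊤ : Submodule A (B.obj j)) := by
      intro w hw
      refine Submodule.smul_induction_on hw ?_ ?_
      · intro r hr n _
        rw [hsm, mul_left_comm, ← hsm]
        exact Submodule.smul_mem_smul hr trivial
      · intro x y hx hy
        rw [mul_add]
        exact Submodule.add_mem _ hx hy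
    have h6 := h5 1 h4
    rwa [mul_one] at h6
  exact this

end Colim

section

variable {I : Type} [Preorder I] [IsDirectedOrder I] [Nonempty I]

/-- Directed colimits of algebras. -/
lemma exists_colim (B : I ⥤ Alg κ) : ∃ (C : Alg κ) (b : ∀ i, B.obj i ⟶ C),
    (∀ {i j : I} (t : i ⟶ j), B.map t ≫ b j = b i) ∧
    (∀ z : C, ∃ (i : I) (x : B.obj i), (b i).hom x = z) ∧
    (∀ (i : I) (x : B.obj i), (b i).hom x = 0 → ∃ (j : I) (t : i ⟶ j), (B.map t).hom x = 0) := by
  let f : ∀ i j, i ≤ j → B.obj i →+* B.obj j := fun i j h ↦ (B.map (homOfLE h)).hom.toRingHom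
  have hd : DirectedSystem (fun i ↦ (B.obj i : Type)) (fun i j h ↦ f i j h) :=
    { map_self := fun {i} x ↦ by
        change (B.map (𝟙 i)).hom x = x
        rw [B.map_id]
        rfl
      map_map := fun {k j i} hij hjk x ↦ by
        change (B.map (homOfLE hjk)).hom ((B.map (homOfLE hij)).hom x) =
          (B.map (homOfLE (hij.trans hjk))).hom x
        rw [← homOfLE_comp hij hjk, B.map_comp]
        rfl }
  let D := Ring.DirectLimit (fun i ↦ (B.obj i : Type)) (fun i j h ↦ f i j h)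
  let o : ∀ i, B.obj i →+* D := fun i ↦
    Ring.DirectLimit.of (fun i ↦ (B.obj i : Type)) (fun i j h ↦ f i j h) i
  have ho : ∀ {i j : I} (h : i ≤ j) (x : B.obj i), o j (f i j h x) = o i x := fun h x ↦
    Ring.DirectLimit.of_f (f := fun i j h ↦ f i j h) h x
  let i₀ : I := Classical.arbitrary I
  let _ : Algebra κ D := ((o i₀).comp (algebraMap κ (B.obj i₀))).toAlgebra
  have halg : ∀ (i : I) (r : κ), o i (algebraMap κ (B.obj i) r) = algebraMap κ D r := by
    intro i r
    obtain ⟨k, hik, hjk⟩ := exists_ge_ge i i₀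
    change _ = o i₀ (algebraMap κ (B.obj i₀) r)
    rw [← ho hik, ← ho hjk]
    congr 1
    exact ((B.map (homOfLE hik)).hom.commutes r).trans ((B.map (homOfLE hjk)).hom.commutes r).symm
  refine ⟨CommAlgCat.of κ D, fun i ↦ CommAlgCat.ofHom { o i with commutes' := halg i }, ?_, ?_, ?_⟩
  · intro i j t
    ext x
    exact ho (leOfHom t) x
  · intro z
    obtain ⟨i, x, hx⟩ := Ring.DirectLimit.exists_of (f := fun i j h ↦ f i j h) z
    exact ⟨i, x, hx⟩
  · intro i x hx
    obtain ⟨j, h, hj⟩ := Ring.DirectLimit.of.zero_exact (f' := f) (i := i) (x := x) hx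
    exact ⟨j, homOfLE h, hj⟩

end

theorem torsCat_isFiniteGerbe {I : Type} [Preorder I] (G : GrpDiag κ I) (i₀ : I)
    (h : ∀ i, i ≤ i₀) (hfin : Module.Finite κ (G.H.obj i₀)) : IsFiniteGerbe (TorsCat G) :=
  isFiniteGerbe_of_isStack (torsCat_isStack G) i₀ h hfin

theorem torsCat_isProfiniteGerbe {I : Type} [Preorder I] [IsDirected I (· ≤ ·)] [Nonempty I]
    (G : GrpDiag κ I) (hfin : ∀ i, Module.Finite κ (G.H.obj i)) :
    IsProfiniteGerbe (TorsCat G) :=
  ⟨Iᵒᵈ, inferInstance, inferInstance, torsSystem G,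
    fun s ↦ torsCat_isFiniteGerbe (G.below (OrderDual.ofDual s))
      ⟨OrderDual.ofDual s, le_refl (OrderDual.ofDual s)⟩ (fun i ↦ i.2) (hfin _),
    nonempty_equiv (torsCat_isStack G).toIsCofiberedInGroupoids
      fun s ↦ (torsCat_isStack (G.below s)).toIsCofiberedInGroupoids⟩

theorem exists_triv {I : Type} [Preorder I] [IsDirected I (· ≤ ·)] [Nonempty I]
    (G : GrpDiag κ I) (η : Tors G) :
    ∃ (η' : Tors G) (ζ : η ⟶ η') (_ : trivTors G ⟶ η'),
      (TorsHom.base ζ).hom.toRingHom.FaithfullyFlat := by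
  obtain ⟨C, b, hb, hsurj, hker⟩ := exists_colim η.B
  obtain ⟨y, a, e, -⟩ := tors_exists_push (torsCat_isStack G).toIsCofiberedInGroupoids
    (trivTors G) (structMap C)
  let i₀ : I := Classical.arbitrary I
  have hf : ∀ i, η.s i ≫ b i = η.s i₀ ≫ b i₀ := by
    intro i
    obtain ⟨k, hik, hjk⟩ := exists_ge_ge i i₀
    rw [← hb (homOfLE hik), ← hb (homOfLE hjk), ← Category.assoc, ← Category.assoc, η.s_comp,
      η.s_comp]
  have hff := ff_of_colim η.B η.s η.s_comp η.ff b hb (η.s i₀ ≫ b i₀) hf hsurj hker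
  exact ⟨y, homOfPts a ((η.s i₀ ≫ b i₀) ≫ e.inv) (fun i ↦ b i ≫ e.inv)
    (fun i ↦ by rw [← Category.assoc, hf]) (fun t ↦ by rw [← Category.assoc, hb]), a,
    ff_comp_iso hff e.symm⟩

end Pool.Agent.H27
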