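import Pool.Agent.H27.Coprod
import Pool.Agent.H27.RangeInt

/-!
# Relative coproducts

For objects `ξ`, `y` of `Γ` and a map `c : p ξ ⟶ p y`, the relative coproduct `w` represents
isomorphisms between the base change of `ξ` along `c` and `y`.
-/

open CategoryTheory Limits
open scoped TensorProduct

namespace Pool.Agent.H27

variable {κ : Type} [Field κ] {Γ : BasedCategory.{0, 1} (Alg κ)}

/-- `w` is the coproduct of `ξ` and `y` relative to `c : p ξ ⟶ p y`. -/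
structure IsRel {ξ y w : Γ.obj} (c : Γ.p.obj ξ ⟶ Γ.p.obj y) (i : ξ ⟶ w) (j : y ⟶ w) : Prop where
  comm : Γ.p.map i = c ≫ Γ.p.map j
  univ : ∀ {u : Γ.obj} (α : ξ ⟶ u) (β : y ⟶ u), Γ.p.map α = c ≫ Γ.p.map β →
    ∃! γ : w ⟶ u, i ≫ γ = α ∧ j ≫ γ = β

namespace IsRel

variable {ξ y w : Γ.obj} {c : Γ.p.obj ξ ⟶ Γ.p.obj y} {i : ξ ⟶ w} {j : y ⟶ w} (h : IsRel c i j)
include h

/-- The induced arrow. -/
noncomputable def desc {u : Γ.obj} (α : ξ ⟶ u) (β : y ⟶ u)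
    (hc : Γ.p.map α = c ≫ Γ.p.map β) : w ⟶ u :=
  (h.univ α β hc).choose

@[reassoc (attr := simp)]
lemma left_desc {u : Γ.obj} (α : ξ ⟶ u) (β : y ⟶ u) (hc : Γ.p.map α = c ≫ Γ.p.map β) :
    i ≫ h.desc α β hc = α :=
  (h.univ α β hc).choose_spec.1.1

@[reassoc (attr := simp)]
lemma right_desc {u : Γ.obj} (α : ξ ⟶ u) (β : y ⟶ u) (hc : Γ.p.map α = c ≫ Γ.p.map β) :
    j ≫ h.desc α β hc = β :=
  (h.univ α β hc).choose_spec.1.2

lemma hom_ext {u : Γ.obj} {γ γ' : w ⟶ u} (h₁ : i ≫ γ = i ≫ γ') (h₂ : j ≫ γ = j ≫ γ') :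
    γ = γ' :=
  (h.univ (i ≫ γ') (j ≫ γ') (by rw [Γ.p.map_comp, Γ.p.map_comp, h.comm, Category.assoc])).unique
    ⟨h₁, h₂⟩ ⟨rfl, rfl⟩

end IsRel

/-- Existence of relative coproducts. -/
lemma exists_isRel (hc : IsCofiberedInGroupoids Γ) (hΓc : HasFiniteCoprods Γ) {ξ y : Γ.obj}
    (c : Γ.p.obj ξ ⟶ Γ.p.obj y) : ∃ (w : Γ.obj) (i : ξ ⟶ w) (j : y ⟶ w), IsRel c i j ∧
      (Γ.p.map j).hom.toRingHom.Finite := by
  obtain ⟨z, i₀, j₀, hz, hfin⟩ := hΓc ξ y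
  let ψ := (isCoprod_tens _ _).desc (Γ.p.map i₀) (Γ.p.map j₀)
  let ν := (isCoprod_tens _ _).desc c (𝟙 (Γ.p.obj y))
  let D := pushout ψ ν
  obtain ⟨w, q, e, hqe⟩ := hc.exists_push' z (pushout.inl ψ ν)
  have hq : Γ.p.map q = pushout.inl ψ ν ≫ e.inv := by
    rw [← hqe]
    simp
  have hpb : IsPushout ψ ν (Γ.p.map q) (pushout.inr ψ ν ≫ e.inv) := by
    rw [hq]
    exact (IsPushout.of_hasPushout ψ ν).of_iso (Iso.refl _) (Iso.refl _) (Iso.refl _) e.symm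
      (by simp) (by simp) (by simp) (by simp)
  have hj : Γ.p.map (j₀ ≫ q) = pushout.inr ψ ν ≫ e.inv := by
    have h₁ : Γ.p.map j₀ = tinr _ _ ≫ ψ := ((isCoprod_tens _ _).right_desc _ _).symm
    rw [Γ.p.map_comp, h₁, Category.assoc, hpb.w, ← Category.assoc]
    have h₂ : tinr _ _ ≫ ν = 𝟙 _ := (isCoprod_tens _ _).right_desc _ _
    rw [h₂, Category.id_comp]
  have hi : Γ.p.map (i₀ ≫ q) = c ≫ Γ.p.map (j₀ ≫ q) := by
    have h₁ : Γ.p.map i₀ = tinl _ _ ≫ ψ := ((isCoprod_tens _ _).left_desc _ _).symm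
    have h₂ : tinl _ _ ≫ ν = c := (isCoprod_tens _ _).left_desc _ _
    rw [hj, Γ.p.map_comp, h₁, Category.assoc, hpb.w, ← Category.assoc, h₂]
  refine ⟨w, i₀ ≫ q, j₀ ≫ q, ⟨hi, ?_⟩, ?_⟩
  · intro u α β hαβ
    have h₁ : ψ ≫ Γ.p.map (hz.desc α β) = ν ≫ Γ.p.map β := by
      refine (isCoprod_tens _ _).hom_ext ?_ ?_
      · rw [IsCoprod.left_desc_assoc, IsCoprod.left_desc_assoc, ← Γ.p.map_comp, hz.left_desc, hαβ]
      · rw [IsCoprod.right_desc_assoc, IsCoprod.right_desc_assoc, ← Γ.p.map_comp, hz.right_desc,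
          Category.id_comp]
    refine ⟨hc.desc q (hz.desc α β) (hpb.desc _ _ h₁) (hpb.inl_desc _ _ h₁), ⟨by simp, by simp⟩,
      ?_⟩
    rintro γ ⟨h₂, h₃⟩
    have h₄ : q ≫ γ = hz.desc α β := by
      refine hz.hom_ext ?_ ?_
      · rw [hz.left_desc, ← Category.assoc, h₂]
      · rw [hz.right_desc, ← Category.assoc, h₃]
    refine hc.hom_ext q ?_ (by rw [h₄]; simp)
    rw [hc.map_desc]
    refine hpb.hom_ext ?_ ?_
    · rw [hpb.inl_desc, ← Γ.p.map_comp, h₄]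
    · rw [hpb.inr_desc, ← hj, ← Γ.p.map_comp, h₃]
  · rw [hj]
    exact finite_of_isPushout hpb hfin

/-- Automorphisms of `ξ` over the identity. -/
def FixAut (ξ : Γ.obj) : Subgroup (Aut ξ) where
  carrier := {g | Γ.p.map g.hom = 𝟙 _}
  mul_mem' := by
    intro g g' hg hg'
    change Γ.p.map (g'.hom ≫ g.hom) = 𝟙 _
    have h₁ : Γ.p.map g.hom = 𝟙 _ := hg
    have h₂ : Γ.p.map g'.hom = 𝟙 _ := hg'
    rw [Γ.p.map_comp, h₁, h₂, Category.comp_id]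
  one_mem' := Γ.p.map_id _
  inv_mem' := by
    intro g hg
    change Γ.p.map g.inv = 𝟙 _
    have h₁ : Γ.p.map g.hom = 𝟙 _ := hg
    rw [← Category.id_comp (Γ.p.map g.inv), ← h₁, ← Γ.p.map_comp, g.hom_inv_id, Γ.p.map_id]
    exact h₁.symm

lemma fixAut_map {ξ : Γ.obj} (g : FixAut ξ) : Γ.p.map g.1.hom = 𝟙 _ := g.2

namespace IsRel

variable {ξ y w : Γ.obj} {c : Γ.p.obj ξ ⟶ Γ.p.obj y} {i : ξ ⟶ w} {j : y ⟶ w}

/-- The action of automorphisms on a relative coproduct. -/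
noncomputable def act (h : IsRel c i j) (g : FixAut ξ) : w ⟶ w :=
  h.desc (g.1.hom ≫ i) j (by rw [Γ.p.map_comp, fixAut_map, Category.id_comp, h.comm])

lemma left_act (h : IsRel c i j) (g : FixAut ξ) : i ≫ h.act g = g.1.hom ≫ i := h.left_desc _ _ _

lemma right_act (h : IsRel c i j) (g : FixAut ξ) : j ≫ h.act g = j := h.right_desc _ _ _

lemma act_one (h : IsRel c i j) : h.act 1 = 𝟙 w := by
  refine h.hom_ext ?_ ?_
  · rw [left_act, Category.comp_id]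
    exact Category.id_comp _
  · rw [right_act, Category.comp_id]

lemma act_mul (h : IsRel c i j) (g g' : FixAut ξ) : h.act (g * g') = h.act g' ≫ h.act g := by
  refine h.hom_ext ?_ ?_
  · rw [left_act, ← Category.assoc, left_act, Category.assoc, left_act, ← Category.assoc]
    rfl
  · rw [right_act, ← Category.assoc, right_act, right_act]

/-- The action of automorphisms on the algebra of a relative coproduct. -/
@[reducible] noncomputable def action (h : IsRel c i j) :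
    MulSemiringAction (FixAut ξ) (Γ.p.obj w) where
  smul g z := (Γ.p.map (h.act g)).hom z
  one_smul z := by
    change (Γ.p.map (h.act 1)).hom z = z
    rw [act_one, Γ.p.map_id]
    rfl
  mul_smul g g' z := by
    change (Γ.p.map (h.act (g * g'))).hom z =
      (Γ.p.map (h.act g)).hom ((Γ.p.map (h.act g')).hom z)
    rw [act_mul, Γ.p.map_comp]
    rfl
  smul_zero g := map_zero _
  smul_add g := map_add _
  smul_one g := map_one _
  smul_mul g := map_mul _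

end IsRel

section Point

variable {ξ ω : Γ.obj} {a b : ξ ⟶ ω} (hω : IsRel (𝟙 _) a b) {Ω : Type} [Field Ω] [Algebra κ Ω]
  (eξ : Γ.p.obj ξ ≅ CommAlgCat.of κ Ω)

/-- The point of the automorphism scheme attached to an automorphism. -/
noncomputable def pt (g : FixAut ξ) : ω ⟶ ξ :=
  hω.desc (𝟙 ξ) g.1.hom (by rw [Γ.p.map_id, fixAut_map, Category.comp_id])

lemma left_pt (g : FixAut ξ) : a ≫ pt hω g = 𝟙 ξ := hω.left_desc _ _ _

lemma right_pt (g : FixAut ξ) : b ≫ pt hω g = g.1.hom := hω.right_desc _ _ _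

/-- The algebra of the automorphism scheme, as an algebra over `Ω`. -/
@[reducible] noncomputable def algΩ {ξ w : Γ.obj} (eξ : Γ.p.obj ξ ≅ CommAlgCat.of κ Ω)
    (i : ξ ⟶ w) : Algebra Ω (Γ.p.obj w) :=
  algOf (A := CommAlgCat.of κ Ω) (eξ.inv ≫ Γ.p.map i)

/-- Evaluation at an automorphism. -/
noncomputable def evHom (g : FixAut ξ) :
    letI := algΩ eξ a
    Γ.p.obj ω →ₐ[Ω] Ω :=
  letI := algΩ eξ a
  { (Γ.p.map (pt hω g) ≫ eξ.hom).hom.toRingHom with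
    commutes' := fun r ↦ by
      have h₁ : (eξ.inv ≫ Γ.p.map a) ≫ (Γ.p.map (pt hω g) ≫ eξ.hom) = 𝟙 _ := by
        rw [Category.assoc, ← Category.assoc (Γ.p.map a), ← Γ.p.map_comp, left_pt, Γ.p.map_id,
          Category.id_comp, eξ.inv_hom_id]
      exact congr(($h₁).hom r) }

lemma evHom_apply (g : FixAut ξ) (z : Γ.p.obj ω) :
    letI := algΩ eξ a
    evHom hω eξ g z = eξ.hom.hom ((Γ.p.map (pt hω g)).hom z) := rfl

/-- Points of the automorphism scheme are automorphisms. -/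
lemma bijective_evHom (hc : IsCofiberedInGroupoids Γ) :
    letI := algΩ eξ a
    Function.Bijective (evHom hω eξ) := by
  let _ := algΩ eξ a
  constructor
  · intro g g' hgg'
    have h₁ : Γ.p.map (pt hω g) = Γ.p.map (pt hω g') := by
      rw [← cancel_mono eξ.hom]
      ext z
      exact congr($hgg' z)
    have h₂ : pt hω g = pt hω g' := hc.hom_ext a h₁ (by rw [left_pt, left_pt])
    apply Subtype.ext
    apply Iso.ext
    rw [← right_pt hω g, ← right_pt hω g', h₂]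
  · intro d
    let d' : Γ.p.obj ω ⟶ Γ.p.obj ξ := CommAlgCat.ofHom
      { (eξ.inv.hom.toRingHom.comp d.toRingHom) with
        commutes' := fun r ↦ by
          have h₁ : algebraMap κ (Γ.p.obj ω) r = algebraMap Ω (Γ.p.obj ω) (algebraMap κ Ω r) :=
            ((eξ.inv ≫ Γ.p.map a).hom.commutes r).symm
          change eξ.inv.hom (d (algebraMap κ (Γ.p.obj ω) r)) = _
          rw [h₁, d.commutes]
          exact eξ.inv.hom.commutes r }
    have hd' : Γ.p.map a ≫ d' = 𝟙 _ := by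
      rw [← cancel_epi eξ.inv]
      ext r
      change eξ.inv.hom (d (algebraMap Ω (Γ.p.obj ω) r)) = eξ.inv.hom r
      rw [d.commutes]
      rfl
    obtain ⟨v, q, e, hqe⟩ := hc.exists_push' ω d'
    have h₁ : Γ.p.map (a ≫ q) = e.inv := by
      rw [Γ.p.map_comp, ← cancel_mono e.hom, Category.assoc, hqe, hd']
      simp
    have h₂ : Γ.p.map (b ≫ q) = e.inv := by
      have h₃ : Γ.p.map b = Γ.p.map a := by
        rw [hω.comm, Category.id_comp]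
      rw [Γ.p.map_comp, h₃, ← Γ.p.map_comp, h₁]
    have : IsIso (Γ.p.map (a ≫ q)) := by rw [h₁]; infer_instance
    have : IsIso (Γ.p.map (b ≫ q)) := by rw [h₂]; infer_instance
    have : IsIso (a ≫ q) := hc.isIso_of_isIso _
    have : IsIso (b ≫ q) := hc.isIso_of_isIso _
    let g : Aut ξ := asIso (b ≫ q) ≪≫ (asIso (a ≫ q)).symm
    have hg : Γ.p.map g.hom = 𝟙 _ := by
      change Γ.p.map ((b ≫ q) ≫ inv (a ≫ q)) = 𝟙 _
      rw [Γ.p.map_comp, Functor.map_inv, h₂]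
      have : inv (Γ.p.map (a ≫ q)) = e.hom := by
        rw [IsIso.inv_eq_of_hom_inv_id]
        rw [h₁, e.inv_hom_id]
      rw [this, e.inv_hom_id]
    refine ⟨⟨g, hg⟩, ?_⟩
    have h₃ : pt hω ⟨g, hg⟩ = q ≫ inv (a ≫ q) := by
      refine hω.hom_ext ?_ ?_
      · rw [left_pt, ← Category.assoc, IsIso.hom_inv_id]
      · rw [right_pt, ← Category.assoc]
        rfl
    have h₄ : Γ.p.map (pt hω ⟨g, hg⟩) = d' := by
      rw [h₃, Γ.p.map_comp, Functor.map_inv]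
      have : inv (Γ.p.map (a ≫ q)) = e.hom := by
        rw [IsIso.inv_eq_of_hom_inv_id]
        rw [h₁, e.inv_hom_id]
      rw [this, hqe]
    apply AlgHom.ext
    intro z
    rw [evHom_apply, h₄]
    exact congr(($(eξ.inv_hom_id)).hom (d z))

/-- The finite group of automorphisms of `ξ` is the set of points of the automorphism scheme. -/
noncomputable def evEquiv (hc : IsCofiberedInGroupoids Γ) :
    letI := algΩ eξ a
    FixAut ξ ≃ (Γ.p.obj ω →ₐ[Ω] Ω) :=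
  letI := algΩ eξ a
  Equiv.ofBijective _ (bijective_evHom hω eξ hc)

end Point

section Theta

variable {ξ y w ω : Γ.obj} {c : Γ.p.obj ξ ⟶ Γ.p.obj y} {i : ξ ⟶ w} {j : y ⟶ w} {a b : ξ ⟶ ω}
  {Ω : Type} [Field Ω] [Algebra κ Ω]

/-- The torsor structure, on the level of objects. -/
lemma exists_iso (hc : IsCofiberedInGroupoids Γ) (h : IsRel c i j) (hω : IsRel (𝟙 _) a b) :
    ∃ (u u' : Γ.obj) (k₁ k₂ : w ⟶ u) (l : w ⟶ u') (m : ω ⟶ u') (Φ : u ≅ u'),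
      IsPushout (Γ.p.map j) (Γ.p.map j) (Γ.p.map k₁) (Γ.p.map k₂) ∧
      IsPushout (Γ.p.map i) (Γ.p.map a) (Γ.p.map l) (Γ.p.map m) ∧
      k₁ ≫ Φ.hom = l ∧ ∀ g : FixAut ξ, ∃ Λ : u' ⟶ w, l ≫ Λ = 𝟙 w ∧ m ≫ Λ = pt hω g ≫ i ∧
        k₂ ≫ Φ.hom ≫ Λ = h.act g := by
  obtain ⟨u, k₁, k₂, hu, hu'⟩ := hc.exists_pushout j j
  obtain ⟨u', l, m, hv, hv'⟩ := hc.exists_pushout i a
  have hpb : Γ.p.map b = Γ.p.map a := by rw [hω.comm, Category.id_comp]
  have h₁ : Γ.p.map (b ≫ m) = c ≫ Γ.p.map (j ≫ l) := by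
    rw [Γ.p.map_comp, hpb, ← hv'.w, h.comm, Γ.p.map_comp, Category.assoc]
  have h₂ : Γ.p.map (i ≫ k₁) = 𝟙 _ ≫ Γ.p.map (i ≫ k₂) := by
    rw [Category.id_comp, Γ.p.map_comp, Γ.p.map_comp, h.comm, Category.assoc, Category.assoc,
      hu'.w]
  let Φ : u ⟶ u' := hu.desc l (h.desc (b ≫ m) (j ≫ l) h₁) (by rw [h.right_desc])
  let Ψ : u' ⟶ u := hv.desc k₁ (hω.desc (i ≫ k₁) (i ≫ k₂) h₂) (by rw [hω.left_desc])
  have hΦ₁ : k₁ ≫ Φ = l := hu.inl_desc _ _ _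
  have hΦ₂ : k₂ ≫ Φ = h.desc (b ≫ m) (j ≫ l) h₁ := hu.inr_desc _ _ _
  have hΨ₁ : l ≫ Ψ = k₁ := hv.inl_desc _ _ _
  have hΨ₂ : m ≫ Ψ = hω.desc (i ≫ k₁) (i ≫ k₂) h₂ := hv.inr_desc _ _ _
  have hΦΨ : Φ ≫ Ψ = 𝟙 u := by
    refine hu.hom_ext ?_ ?_
    · rw [← Category.assoc, hΦ₁, hΨ₁, Category.comp_id]
    · rw [← Category.assoc, hΦ₂, Category.comp_id]
      refine h.hom_ext ?_ ?_
      · rw [IsRel.left_desc_assoc, Category.assoc, hΨ₂, hω.right_desc]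
      · rw [IsRel.right_desc_assoc, Category.assoc, hΨ₁, hu.w]
  have hΨΦ : Ψ ≫ Φ = 𝟙 u' := by
    refine hv.hom_ext ?_ ?_
    · rw [← Category.assoc, hΨ₁, hΦ₁, Category.comp_id]
    · rw [← Category.assoc, hΨ₂, Category.comp_id]
      refine hω.hom_ext ?_ ?_
      · rw [IsRel.left_desc_assoc, Category.assoc, hΦ₁, hv.w]
      · rw [IsRel.right_desc_assoc, Category.assoc, hΦ₂, h.left_desc]
  refine ⟨u, u', k₁, k₂, l, m, ⟨Φ, Ψ, hΦΨ, hΨΦ⟩, hu', hv', hΦ₁, fun g ↦ ?_⟩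
  have h₃ : i ≫ 𝟙 w = a ≫ pt hω g ≫ i := by
    rw [← Category.assoc, left_pt, Category.comp_id, Category.id_comp]
  refine ⟨hv.desc (𝟙 w) (pt hω g ≫ i) h₃, hv.inl_desc _ _ _, hv.inr_desc _ _ _, ?_⟩
  change k₂ ≫ Φ ≫ _ = _
  rw [← Category.assoc, hΦ₂]
  refine h.hom_ext ?_ ?_
  · rw [IsRel.left_desc_assoc, Category.assoc, hv.inr_desc, ← Category.assoc, right_pt,
      h.left_act]
  · rw [IsRel.right_desc_assoc, Category.assoc, hv.inl_desc, Category.comp_id, h.right_act]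

/-- The torsor structure: `E ⊗_A E ≅ E ⊗_Ω H`. -/
theorem exists_theta (hc : IsCofiberedInGroupoids Γ) (h : IsRel c i j) (hω : IsRel (𝟙 _) a b)
    (eξ : Γ.p.obj ξ ≅ CommAlgCat.of κ Ω) :
    letI := algOf (Γ.p.map j)
    letI := algΩ eξ i
    letI := algΩ eξ a
    letI := h.action
    ∃ Θ : (Γ.p.obj w) ⊗[Γ.p.obj y] (Γ.p.obj w) ≃ₐ[Γ.p.obj w] (Γ.p.obj w) ⊗[Ω] (Γ.p.obj ω),
      ∀ (g : FixAut ξ) (z : Γ.p.obj w), g • z =
        Algebra.TensorProduct.lift (AlgHom.id Ω (Γ.p.obj w))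
          ((Algebra.ofId Ω (Γ.p.obj w)).comp (evHom hω eξ g)) (fun _ _ ↦ Commute.all _ _)
          (Θ (1 ⊗ₜ z)) := by
  obtain ⟨u, u', k₁, k₂, l, m, Φ, hu, hv, hΦ, hΛ⟩ := exists_iso hc h hω
  have hv' : IsPushout (eξ.inv ≫ Γ.p.map i) (eξ.inv ≫ Γ.p.map a) (Γ.p.map l) (Γ.p.map m) :=
    hv.of_iso eξ (Iso.refl _) (Iso.refl _) (Iso.refl _) (by simp) (by simp) (by simp) (by simp)
  let _ := algOf (Γ.p.map j)
  let _ := algΩ eξ i
  let _ := algΩ eξ a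
  let _ := h.action
  obtain ⟨e₁, he₁, he₁'⟩ := exists_tensor_equiv hu
  obtain ⟨e₂, he₂, he₂'⟩ := exists_tensor_equiv hv'
  let Θ₀ : (Γ.p.obj w) ⊗[Γ.p.obj y] (Γ.p.obj w) ≃+* (Γ.p.obj w) ⊗[Ω] (Γ.p.obj ω) :=
    (e₁.trans (CommAlgCat.algEquivOfIso (Γ.p.mapIso Φ)).toRingEquiv).trans e₂.symm
  have hΘ₀ : ∀ z, e₂ (Θ₀ z) = (Γ.p.map Φ.hom).hom (e₁ z) := fun z ↦ e₂.apply_symm_apply _
  refine ⟨AlgEquiv.ofRingEquiv (f := Θ₀) fun z ↦ ?_, fun g z ↦ ?_⟩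
  · apply e₂.injective
    rw [hΘ₀]
    have h₁ : e₁ (algebraMap (Γ.p.obj w) _ z) = (Γ.p.map k₁).hom z := he₁ z
    have h₂ : e₂ (algebraMap (Γ.p.obj w) _ z) = (Γ.p.map l).hom z := he₂ z
    rw [h₁, h₂, ← hΦ, Γ.p.map_comp]
    rfl
  · obtain ⟨Λ, hΛ₁, hΛ₂, hΛ₃⟩ := hΛ g
    let lam : (Γ.p.obj w) ⊗[Ω] (Γ.p.obj ω) →ₐ[Ω] (Γ.p.obj w) :=
      Algebra.TensorProduct.lift (AlgHom.id Ω (Γ.p.obj w))
          ((Algebra.ofId Ω (Γ.p.obj w)).comp (evHom hω eξ g)) (fun _ _ ↦ Commute.all _ _)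
    have hlam : ∀ t, lam t = (Γ.p.map Λ).hom (e₂ t) := by
      intro t
      induction t using TensorProduct.induction_on with
      | zero => rw [map_zero, map_zero, map_zero]
      | add x y hx hy => rw [map_add, hx, hy, map_add, map_add]
      | tmul x z =>
        have h₃ : x ⊗ₜ[Ω] z = (x ⊗ₜ[Ω] 1) * (1 ⊗ₜ[Ω] z) := by
          rw [Algebra.TensorProduct.tmul_mul_tmul, mul_one, one_mul]
        have h₄ : lam (x ⊗ₜ[Ω] 1) = (Γ.p.map Λ).hom (e₂ (x ⊗ₜ[Ω] 1)) := by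
          rw [he₂]
          have h₅ : (Γ.p.map Λ).hom ((Γ.p.map l).hom x) = x := by
            have : Γ.p.map l ≫ Γ.p.map Λ = 𝟙 _ := by rw [← Γ.p.map_comp, hΛ₁, Γ.p.map_id]
            exact congr(($this).hom x)
          rw [h₅]
          change x * algebraMap Ω (Γ.p.obj w) (evHom hω eξ g 1) = x
          rw [map_one, map_one, mul_one]
        have h₅ : lam (1 ⊗ₜ[Ω] z) = (Γ.p.map Λ).hom (e₂ (1 ⊗ₜ[Ω] z)) := by
          rw [he₂']
          have h₆ : (Γ.p.map Λ).hom ((Γ.p.map m).hom z) =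
              (Γ.p.map i).hom ((Γ.p.map (pt hω g)).hom z) := by
            have : Γ.p.map m ≫ Γ.p.map Λ = Γ.p.map (pt hω g) ≫ Γ.p.map i := by
              rw [← Γ.p.map_comp, hΛ₂, Γ.p.map_comp]
            exact congr(($this).hom z)
          rw [h₆]
          change 1 * (Γ.p.map i).hom (eξ.inv.hom (eξ.hom.hom ((Γ.p.map (pt hω g)).hom z))) = _
          rw [one_mul]
          exact congr((Γ.p.map i).hom (($(eξ.hom_inv_id)).hom ((Γ.p.map (pt hω g)).hom z)))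
        rw [h₃, map_mul, h₄, h₅, map_mul, map_mul]
    change (Γ.p.map (h.act g)).hom z = lam (Θ₀ (1 ⊗ₜ z))
    rw [hlam, hΘ₀, he₁', ← hΛ₃, Γ.p.map_comp, Γ.p.map_comp]
    rfl

end Theta

end Pool.Agent.H27
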