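import Pool.Agent.H27.RelCoprod
import Pool.Agent.H27.TorsFlat
import Pool.Agent.H27.G1

/-!
# Relative coproducts are Galois extensions after a power of Frobenius
-/

open CategoryTheory Limits
open scoped TensorProduct

namespace Pool.Agent.H27

open H1 (IC IsGaloisExt)

variable {κ : Type} [Field κ] {Γ : BasedCategory.{0, 1} (Alg κ)}
variable {ξ y w ω yM : Γ.obj} {c : Γ.p.obj ξ ⟶ Γ.p.obj y} {i : ξ ⟶ w} {j : y ⟶ w} {a b : ξ ⟶ ω}
  {Ω : Type} [Field Ω] [Algebra κ Ω]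

lemma finite_algΩ (hω : IsRel (𝟙 _) a b) (eξ : Γ.p.obj ξ ≅ CommAlgCat.of κ Ω)
    (hfin' : (Γ.p.map b).hom.toRingHom.Finite) :
    letI := algΩ eξ a
    Module.Finite Ω (Γ.p.obj ω) := by
  have hpb : Γ.p.map b = Γ.p.map a := by rw [hω.comm, Category.id_comp]
  have h₁ : eξ.inv.hom.toRingHom.Finite :=
    RingHom.Finite.of_surjective _ (CommAlgCat.algEquivOfIso eξ.symm).surjective
  rw [hpb] at hfin'
  exact hfin'.comp h₁

lemma finite_fixAut (hc : IsCofiberedInGroupoids Γ) (hω : IsRel (𝟙 _) a b)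
    (eξ : Γ.p.obj ξ ≅ CommAlgCat.of κ Ω) (hfin' : (Γ.p.map b).hom.toRingHom.Finite) :
    Finite (FixAut ξ) := by
  let _ := algΩ eξ a
  have := finite_algΩ hω eξ hfin'
  exact Finite.of_equiv _ (evEquiv hω eξ hc).symm

/-- Relative coproducts are faithfully flat. -/
theorem ff_of_isRel (hc : IsCofiberedInGroupoids Γ) (h : IsRel c i j) (hω : IsRel (𝟙 _) a b)
    (eξ : Γ.p.obj ξ ≅ CommAlgCat.of κ Ω) (hfin : (Γ.p.map j).hom.toRingHom.Finite)
    (hfin' : (Γ.p.map b).hom.toRingHom.Finite) [IsDomain (Γ.p.obj y)] (f : w ⟶ yM)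
    [Nontrivial (Γ.p.obj yM)] (hf : Function.Injective (Γ.p.map (j ≫ f)).hom) :
    letI := algOf (Γ.p.map j)
    Module.FaithfullyFlat (Γ.p.obj y) (Γ.p.obj w) := by
  obtain ⟨Θ, -⟩ := exists_theta hc h hω eξ
  let _ := algOf (Γ.p.map j)
  let _ := algΩ eξ i
  let _ := algΩ eξ a
  let _ : Algebra Ω (Γ.p.obj y) := algOf (A := CommAlgCat.of κ Ω) (eξ.inv ≫ c)
  have : IsScalarTower Ω (Γ.p.obj y) (Γ.p.obj w) := by
    refine IsScalarTower.of_algebraMap_eq fun r ↦ ?_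
    change (eξ.inv ≫ Γ.p.map i).hom r = ((eξ.inv ≫ c) ≫ Γ.p.map j).hom r
    rw [h.comm, Category.assoc]
  have := finite_algΩ hω eξ hfin'
  have : Module.Finite (Γ.p.obj y) (Γ.p.obj w) := hfin
  refine ff_of_torsor (κ := Ω) (Γ.p.obj y) (Γ.p.obj w) (Γ.p.obj ω) (Γ.p.obj yM) Θ
    (Γ.p.map f).hom.toRingHom ?_
  intro x z hxz
  apply hf
  rw [Γ.p.map_comp]
  exact hxz

/-- Relative coproducts are Galois extensions after a power of Frobenius. -/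
theorem isGaloisExt_of_isRel (hc : IsCofiberedInGroupoids Γ) (h : IsRel c i j)
    (hω : IsRel (𝟙 _) a b) (eξ : Γ.p.obj ξ ≅ CommAlgCat.of κ Ω)
    (hfin : (Γ.p.map j).hom.toRingHom.Finite)
    (hfin' : (Γ.p.map b).hom.toRingHom.Finite) [IsDomain (Γ.p.obj y)] (f : w ⟶ yM)
    [Nontrivial (Γ.p.obj yM)] (hf : Function.Injective (Γ.p.map (j ≫ f)).hom)
    [IsAlgClosed Ω] (p : ℕ) [Fact p.Prime] [CharP Ω p] [CharP (Γ.p.obj w) p]
    (hA : ∀ a : Γ.p.obj y, ∃ b, b ^ p = a) (n : ℕ)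
    (hn : ∀ x : Γ.p.obj ω, IsNilpotent x → x ^ p ^ n = 0) :
    letI := algOf (Γ.p.map j)
    letI := h.action
    haveI := finite_fixAut hc hω eξ hfin'
    IsGaloisExt (Γ.p.obj y) (powSub (Γ.p.obj y) (Γ.p.obj w) p hA n) (FixAut ξ) := by
  obtain ⟨Θ, hΘ⟩ := exists_theta hc h hω eξ
  let _ := algOf (Γ.p.map j)
  let _ := algΩ eξ i
  let _ := algΩ eξ a
  let _ := h.action
  let _ : Algebra Ω (Γ.p.obj y) := algOf (A := CommAlgCat.of κ Ω) (eξ.inv ≫ c)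
  have : IsScalarTower Ω (Γ.p.obj y) (Γ.p.obj w) := by
    refine IsScalarTower.of_algebraMap_eq fun r ↦ ?_
    change (eξ.inv ≫ Γ.p.map i).hom r = ((eξ.inv ≫ c) ≫ Γ.p.map j).hom r
    rw [h.comm, Category.assoc]
  have := finite_algΩ hω eξ hfin'
  have := finite_fixAut hc hω eξ hfin'
  have := ff_of_isRel hc h hω eξ hfin hfin' f hf
  exact isGaloisExt_powSub Ω (Γ.p.obj ω) (Γ.p.obj y) (Γ.p.obj w) (FixAut ξ) p hA Θ
    (evEquiv hω eξ hc) hΘ n hn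

end Pool.Agent.H27
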