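import Pool.Agent.H27.PTors
import Pool.Agent.H27.Coprod

/-!
# Sections on an atlas

Sections of affine morphisms `B` over `𝒳`, and morphisms between them, can be glued from an atlas
of `𝒳` with two charts (S7b, first half).
-/

open CategoryTheory Limits

namespace Pool.Agent.H27

variable {κ : Type} [Field κ] {𝒳 : BasedCategory.{0, 1} (Alg κ)} {T : Type} [Category.{0} T]
  {v : T ⥤ 𝒳.obj}

/-- Sections of a functor on the atlas. -/
def Charts.sec (Ch : Charts v) (B : 𝒳.obj ⥤ Alg κ) :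
    Subalgebra κ (B.obj Ch.u₀ × B.obj Ch.u₁) where
  carrier := {f | (B.map Ch.j₀).hom f.1 = (B.map Ch.j₁).hom f.2}
  mul_mem' := by
    intro a b ha hb
    simp_all
  one_mem' := by simp
  add_mem' := by
    intro a b ha hb
    simp_all
  zero_mem' := by simp
  algebraMap_mem' := by
    intro r
    simp

namespace Charts

/-- The two charts. -/
def ch (Ch : Charts v) : Bool → 𝒳.obj
  | false => Ch.u₀
  | true => Ch.u₁

lemma ch_mono (Ch : Charts v) (i : Bool) {a : 𝒳.obj} (f g : Ch.ch i ⟶ a) : f = g := by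
  cases i
  · exact Ch.mono₀ a f g
  · exact Ch.mono₁ a f g

/-- Two arrows from the charts factor through the overlap. -/
lemma exists_overlap (Ch : Charts v) {a : 𝒳.obj} (f : Ch.u₀ ⟶ a) (g : Ch.u₁ ⟶ a) :
    ∃ c : Ch.u₀₁ ⟶ a, Ch.j₀ ≫ c = f ∧ Ch.j₁ ≫ c = g :=
  ⟨Ch.coprod.desc f g, Ch.coprod.left_desc f g, Ch.coprod.right_desc f g⟩

/-- Every object has a cover by objects receiving arrows from the charts. -/
lemma exists_cover (Ch : Charts v) (a : 𝒳.obj) : ∃ (a' : Bool → 𝒳.obj) (ζ : ∀ i, a ⟶ a' i)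
    (_ : ∀ i, Ch.ch i ⟶ a' i),
    IsFpqcCover (fun i ↦ 𝒳.p.obj (a' i)) (fun i ↦ 𝒳.p.map (ζ i)) := by
  obtain ⟨a', ζ, q₀, q₁, h⟩ := Ch.cover a
  exact ⟨a', ζ, fun i ↦ match i with
    | false => q₀
    | true => q₁, h⟩

/-- Given pushout squares for `B`, maps out of the value of `B` on a pushout. -/
lemma exists_desc_pushout {B : 𝒳.obj ⥤ Alg κ} {s : 𝒳.p ⟶ B}
    (hB : ∀ {a a' : 𝒳.obj} (ψ : a ⟶ a'), IsPushout (𝒳.p.map ψ) (s.app a) (s.app a') (B.map ψ))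
    {a b c d : 𝒳.obj} {α : a ⟶ b} {β : a ⟶ c} {γ : b ⟶ d} {δ : c ⟶ d}
    (w : α ≫ γ = β ≫ δ)
    (h : IsPushout (𝒳.p.map α) (𝒳.p.map β) (𝒳.p.map γ) (𝒳.p.map δ)) {E : Alg κ}
    (x : B.obj b ⟶ E) (y : B.obj c ⟶ E) (hxy : B.map α ≫ x = B.map β ≫ y) :
    ∃ t : B.obj d ⟶ E, B.map γ ≫ t = x ∧ B.map δ ≫ t = y := by
  have h₁ : 𝒳.p.map α ≫ s.app b ≫ x = 𝒳.p.map β ≫ s.app c ≫ y := by
    rw [← Category.assoc, ← Category.assoc, s.naturality, s.naturality, Category.assoc,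
      Category.assoc, hxy]
  let e : 𝒳.p.obj d ⟶ E := h.desc (s.app b ≫ x) (s.app c ≫ y) h₁
  have he₁ : 𝒳.p.map γ ≫ e = s.app b ≫ x := h.inl_desc _ _ _
  have he₂ : 𝒳.p.map δ ≫ e = s.app c ≫ y := h.inr_desc _ _ _
  refine ⟨(hB γ).desc e x he₁, (hB γ).inr_desc _ _ _, ?_⟩
  apply (hB β).hom_ext
  · rw [← he₂, ← Category.assoc, ← s.naturality, Category.assoc, (hB γ).inl_desc]
  · rw [← Category.assoc, ← B.map_comp, ← w, B.map_comp, Category.assoc, (hB γ).inr_desc, hxy]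

/-- Base change of a cover to `B`. -/
lemma cover_map {B : 𝒳.obj ⥤ Alg κ} {s : 𝒳.p ⟶ B}
    (hB : ∀ {a a' : 𝒳.obj} (ψ : a ⟶ a'), IsPushout (𝒳.p.map ψ) (s.app a) (s.app a') (B.map ψ))
    {a : 𝒳.obj} {ι : Type} {a' : ι → 𝒳.obj} {ζ : ∀ i, a ⟶ a' i}
    (h : IsFpqcCover (fun i ↦ 𝒳.p.obj (a' i)) (fun i ↦ 𝒳.p.map (ζ i))) :
    IsFpqcCover (fun i ↦ B.obj (a' i)) (fun i ↦ B.map (ζ i)) :=
  h.baseChange (s.app a) (fun i ↦ hB (ζ i))

/-- Pushout of a cover along an arrow of `𝒳`. -/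
lemma exists_cover_push (hX : IsCofiberedInGroupoids 𝒳) {a : 𝒳.obj} {ι : Type} {a' : ι → 𝒳.obj}
    {ζ : ∀ i, a ⟶ a' i} (h : IsFpqcCover (fun i ↦ 𝒳.p.obj (a' i)) (fun i ↦ 𝒳.p.map (ζ i)))
    {b : 𝒳.obj} (ψ : a ⟶ b) : ∃ (b' : ι → 𝒳.obj) (γ : ∀ i, a' i ⟶ b' i) (δ : ∀ i, b ⟶ b' i),
      (∀ i, ζ i ≫ γ i = ψ ≫ δ i) ∧
      IsFpqcCover (fun i ↦ 𝒳.p.obj (b' i)) (fun i ↦ 𝒳.p.map (δ i)) := by
  choose b' γ δ h₁ h₂ using fun i ↦ hX.exists_pushout (ζ i) ψ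
  exact ⟨b', γ, δ, fun i ↦ (h₁ i).w, h.baseChange (𝒳.p.map ψ) h₂⟩

/-- Maps into `B a` are determined by the images in objects receiving arrows from the charts. -/
lemma hom_ext_of_charts (Ch : Charts v) {B : 𝒳.obj ⥤ Alg κ} {s : 𝒳.p ⟶ B}
    (hB : ∀ {a a' : 𝒳.obj} (ψ : a ⟶ a'), IsPushout (𝒳.p.map ψ) (s.app a) (s.app a') (B.map ψ))
    {a : 𝒳.obj} {D : Alg κ} {g g' : D ⟶ B.obj a}
    (h : ∀ (b : 𝒳.obj) (ψ : a ⟶ b) (i : Bool) (_ : Ch.ch i ⟶ b), g ≫ B.map ψ = g' ≫ B.map ψ) :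
    g = g' := by
  obtain ⟨a', ζ, q, hc⟩ := Ch.exists_cover a
  exact (cover_map hB hc).hom_ext (fun i ↦ h _ (ζ i) i (q i))

/-- The general gluing lemma. -/
lemma glue (hX : IsCofiberedInGroupoids 𝒳) (Ch : Charts v) {B : 𝒳.obj ⥤ Alg κ} {s : 𝒳.p ⟶ B}
    (hB : ∀ {a a' : 𝒳.obj} (ψ : a ⟶ a'), IsPushout (𝒳.p.map ψ) (s.app a) (s.app a') (B.map ψ))
    (a : 𝒳.obj) (D : Alg κ) (val : ∀ {b : 𝒳.obj} (_ : a ⟶ b) (i : Bool) (_ : Ch.ch i ⟶ b),
      D ⟶ B.obj b)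
    (hnat : ∀ {b c : 𝒳.obj} (ψ : a ⟶ b) (i : Bool) (q : Ch.ch i ⟶ b) (χ : b ⟶ c),
      val ψ i q ≫ B.map χ = val (ψ ≫ χ) i (q ≫ χ))
    (hind : ∀ {b : 𝒳.obj} (ψ : a ⟶ b) (i j : Bool) (q : Ch.ch i ⟶ b) (q' : Ch.ch j ⟶ b),
      val ψ i q = val ψ j q') :
    ∃! g : D ⟶ B.obj a, ∀ (b : 𝒳.obj) (ψ : a ⟶ b) (i : Bool) (q : Ch.ch i ⟶ b),
      g ≫ B.map ψ = val ψ i q := by
  obtain ⟨a', ζ, q, hc⟩ := Ch.exists_cover a
  have hcB := cover_map hB hc
  obtain ⟨g, hg, hg'⟩ := alg_hom_descent _ hcB D (fun i ↦ val (ζ i) i (q i)) (by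
    intro i j C x y hxy
    obtain ⟨d, γ, δ, h₁, h₂⟩ := hX.exists_pushout (ζ i) (ζ j)
    obtain ⟨t, rfl, rfl⟩ := exists_desc_pushout hB h₁.w h₂ x y hxy
    have e : ζ j ≫ δ = ζ i ≫ γ := h₁.w.symm
    rw [← Category.assoc, hnat, ← Category.assoc, hnat, e, hind _ i j _ (q j ≫ δ)])
  refine ⟨g, ?_, ?_⟩
  · intro b ψ i q'
    obtain ⟨b', γ, δ, hw, hcb⟩ := exists_cover_push hX hc ψ
    apply (cover_map hB hcb).hom_ext
    intro k
    rw [hnat, Category.assoc, ← B.map_comp, ← hw, B.map_comp, ← Category.assoc, hg, hnat, hw]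
    exact hind _ _ _ _ _
  · intro g' h'
    apply hg'
    intro i
    exact h' _ _ _ _

end Charts

section Elements

/-- The polynomial algebra. -/
noncomputable def polyAlg (κ : Type) [Field κ] : Alg κ := CommAlgCat.of κ (Polynomial κ)

/-- The variable. -/
noncomputable def polyX (κ : Type) [Field κ] : polyAlg κ := (Polynomial.X : Polynomial κ)

/-- An element as a morphism from the polynomial algebra. -/
noncomputable def elt {A : Alg κ} (x : A) : polyAlg κ ⟶ A :=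
  CommAlgCat.ofHom (Polynomial.aeval x)

lemma elt_X {A : Alg κ} (x : A) : (elt x).hom (polyX κ) = x :=
  Polynomial.aeval_X x

lemma poly_hom_ext {A : Alg κ} {f g : polyAlg κ ⟶ A}
    (h : f.hom (polyX κ) = g.hom (polyX κ)) : f = g := by
  apply CommAlgCat.hom_ext
  exact Polynomial.algHom_ext h

lemma elt_comp {A A' : Alg κ} (x : A) (f : A ⟶ A') : elt x ≫ f = elt (f.hom x) := by
  apply poly_hom_ext
  rw [elt_X]
  change f.hom ((elt x).hom (polyX κ)) = _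
  rw [elt_X]

lemma elt_injective {A : Alg κ} {x y : A} (h : elt x = elt y) : x = y := by
  rw [← elt_X x, h, elt_X]

lemma elt_surj {A : Alg κ} (f : polyAlg κ ⟶ A) : elt (f.hom (polyX κ)) = f := by
  apply poly_hom_ext
  rw [elt_X]

end Elements

/-- Sections on the atlas extend uniquely to natural families. -/
theorem Charts.existsUnique_section (hX : IsCofiberedInGroupoids 𝒳) (Ch : Charts v)
    (B : 𝒳.obj ⥤ Alg κ) (s : 𝒳.p ⟶ B)
    (hB : ∀ {a a' : 𝒳.obj} (ψ : a ⟶ a'), IsPushout (𝒳.p.map ψ) (s.app a) (s.app a') (B.map ψ))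
    (f : Ch.sec B) :
    ∃! F : ∀ a, B.obj a, (∀ (a a' : 𝒳.obj) (ψ : a ⟶ a'), (B.map ψ).hom (F a) = F a') ∧
      F Ch.u₀ = f.1.1 ∧ F Ch.u₁ = f.1.2 := by
  let fv : ∀ i, B.obj (Ch.ch i) := fun i ↦ match i with
    | false => f.1.1
    | true => f.1.2
  have hf : (B.map Ch.j₀).hom f.1.1 = (B.map Ch.j₁).hom f.1.2 := f.2
  have hmap : ∀ {a b : 𝒳.obj} (α : a ⟶ b) {c : 𝒳.obj} (β : b ⟶ c) (x : B.obj a),
      (B.map (α ≫ β)).hom x = (B.map β).hom ((B.map α).hom x) := by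
    intro a b α c β x
    rw [B.map_comp, CommAlgCat.hom_comp, AlgHom.comp_apply]
  have hind : ∀ {b : 𝒳.obj} (i j : Bool) (q : Ch.ch i ⟶ b) (q' : Ch.ch j ⟶ b),
      (B.map q).hom (fv i) = (B.map q').hom (fv j) := by
    have key : ∀ {b : 𝒳.obj} (q : Ch.u₀ ⟶ b) (q' : Ch.u₁ ⟶ b),
        (B.map q).hom f.1.1 = (B.map q').hom f.1.2 := by
      intro b q q'
      obtain ⟨c, rfl, rfl⟩ := Ch.exists_overlap q q'
      rw [hmap, hmap, hf]
    intro b i j q q'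
    match i, j with
    | false, false => rw [Ch.ch_mono false q q']
    | true, true => rw [Ch.ch_mono true q q']
    | false, true => exact key q q'
    | true, false => exact (key q' q).symm
  have hglue : ∀ a, ∃! x : B.obj a, ∀ (b : 𝒳.obj) (ψ : a ⟶ b) (i : Bool) (q : Ch.ch i ⟶ b),
      (B.map ψ).hom x = (B.map q).hom (fv i) := by
    intro a
    obtain ⟨g, hg, hg'⟩ := Charts.glue hX Ch hB a (polyAlg κ)
      (fun {b} ψ i q ↦ elt ((B.map q).hom (fv i)))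
      (by
        intro b c ψ i q χ
        rw [elt_comp, hmap])
      (by
        intro b ψ i j q q'
        rw [hind i j q q'])
    refine ⟨g.hom (polyX κ), ?_, ?_⟩
    · intro b ψ i q
      have := hg b ψ i q
      rw [← elt_surj g, elt_comp] at this
      exact elt_injective this
    · intro x hx
      have := hg' (elt x) (by
        intro b ψ i q
        rw [elt_comp, hx])
      rw [← this, elt_X]
  choose F hF using fun a ↦ (hglue a).exists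
  refine ⟨F, ⟨?_, ?_, ?_⟩, ?_⟩
  · intro a a' ψ
    apply (hglue a').unique _ (hF a')
    intro b χ i q
    rw [← hmap, hF a b _ i q]
  · apply (hglue Ch.u₀).unique (hF _)
    intro b ψ i q
    exact hind false i ψ q
  · apply (hglue Ch.u₁).unique (hF _)
    intro b ψ i q
    exact hind true i ψ q
  · rintro F' ⟨h₁, h₂, h₃⟩
    funext a
    apply (hglue a).unique _ (hF a)
    intro b ψ i q
    rw [h₁ a b ψ, ← h₁ _ b q]
    congr 1
    match i with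
    | false => exact h₂
    | true => exact h₃

/-- The maps `p u₀ ⟶ p u₀₁ ⟵ p u₁` are jointly epimorphic. -/
lemma Charts.overlap_epi (hX : IsCofiberedInGroupoids 𝒳) (Ch : Charts v) {C : Alg κ}
    {α β : 𝒳.p.obj Ch.u₀₁ ⟶ C} (h₀ : 𝒳.p.map Ch.j₀ ≫ α = 𝒳.p.map Ch.j₀ ≫ β)
    (h₁ : 𝒳.p.map Ch.j₁ ≫ α = 𝒳.p.map Ch.j₁ ≫ β) : α = β := by
  obtain ⟨y, φ, e, he⟩ := hX.exists_push' Ch.u₀₁ α
  have e₀ : 𝒳.p.map Ch.j₀ ≫ (β ≫ e.inv) = 𝒳.p.map (Ch.j₀ ≫ φ) := by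
    rw [← Category.assoc, ← h₀, 𝒳.p.map_comp, ← he]
    simp
  have h₂ : hX.desc Ch.j₀ (Ch.j₀ ≫ φ) (β ≫ e.inv) e₀ = φ := by
    apply Ch.coprod.hom_ext
    · exact hX.fac_desc _ _ _ _
    · exact Ch.mono₁ _ _ _
  have h₃ : 𝒳.p.map φ = β ≫ e.inv := by
    rw [← h₂, hX.map_desc]
  rw [← he, h₃]
  simp

/-- Natural transformations between such functors are determined on the atlas and can be glued. -/
theorem Charts.existsUnique_natTrans (hX : IsCofiberedInGroupoids 𝒳) (Ch : Charts v)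
    (B B' : 𝒳.obj ⥤ Alg κ) (s : 𝒳.p ⟶ B) (s' : 𝒳.p ⟶ B')
    (hB : ∀ {a a' : 𝒳.obj} (ψ : a ⟶ a'), IsPushout (𝒳.p.map ψ) (s.app a) (s.app a') (B.map ψ))
    (hB' : ∀ {a a' : 𝒳.obj} (ψ : a ⟶ a'), IsPushout (𝒳.p.map ψ) (s'.app a) (s'.app a') (B'.map ψ))
    (f₀ : B.obj Ch.u₀ ⟶ B'.obj Ch.u₀) (f₁ : B.obj Ch.u₁ ⟶ B'.obj Ch.u₁)
    (f₀₁ : B.obj Ch.u₀₁ ⟶ B'.obj Ch.u₀₁) (hf₀ : s.app _ ≫ f₀ = s'.app _)
    (hf₁ : s.app _ ≫ f₁ = s'.app _) (h₀ : B.map Ch.j₀ ≫ f₀₁ = f₀ ≫ B'.map Ch.j₀)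
    (h₁ : B.map Ch.j₁ ≫ f₀₁ = f₁ ≫ B'.map Ch.j₁) :
    ∃! F : B ⟶ B', (∀ a, s.app a ≫ F.app a = s'.app a) ∧ F.app Ch.u₀ = f₀ ∧ F.app Ch.u₁ = f₁ := by
  -- compatibility of `f₀₁` with the structure maps
  have hf₀₁ : s.app _ ≫ f₀₁ = s'.app _ := by
    apply Ch.overlap_epi hX
    · rw [← Category.assoc, s.naturality, Category.assoc, h₀, ← Category.assoc, hf₀,
        s'.naturality]
    · rw [← Category.assoc, s.naturality, Category.assoc, h₁, ← Category.assoc, hf₁,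
        s'.naturality]
  let fv : ∀ i, B.obj (Ch.ch i) ⟶ B'.obj (Ch.ch i) := fun i ↦ match i with
    | false => f₀
    | true => f₁
  have hfv : ∀ i, s.app (Ch.ch i) ≫ fv i = s'.app (Ch.ch i) := fun i ↦ match i with
    | false => hf₀
    | true => hf₁
  -- the base change of `x` along `q`
  have hpush : ∀ {a b : 𝒳.obj} (q : a ⟶ b) (x : B.obj a ⟶ B'.obj a)
      (_ : s.app a ≫ x = s'.app a), ∃! g : B.obj b ⟶ B'.obj b,
        s.app b ≫ g = s'.app b ∧ B.map q ≫ g = x ≫ B'.map q := by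
    intro a b q x hx
    have e : 𝒳.p.map q ≫ s'.app b = s.app a ≫ x ≫ B'.map q := by
      rw [← Category.assoc, hx, s'.naturality]
    refine ⟨(hB q).desc _ _ e, ⟨(hB q).inl_desc _ _ _, (hB q).inr_desc _ _ _⟩, ?_⟩
    rintro g ⟨hg₁, hg₂⟩
    apply (hB q).hom_ext
    · rw [hg₁, (hB q).inl_desc]
    · rw [hg₂, (hB q).inr_desc]
  choose push hpush₁ hpush₂ using fun {b : 𝒳.obj} (i : Bool) (q : Ch.ch i ⟶ b) ↦
    (hpush q (fv i) (hfv i)).exists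
  have hpush' : ∀ {b : 𝒳.obj} (i : Bool) (q : Ch.ch i ⟶ b) (g : B.obj b ⟶ B'.obj b),
      s.app b ≫ g = s'.app b → B.map q ≫ g = fv i ≫ B'.map q → g = push i q := by
    intro b i q g h₁ h₂
    exact (hpush q (fv i) (hfv i)).unique ⟨h₁, h₂⟩ ⟨hpush₁ i q, hpush₂ i q⟩
  have hnat : ∀ {b c : 𝒳.obj} (i : Bool) (q : Ch.ch i ⟶ b) (χ : b ⟶ c),
      push i q ≫ B'.map χ = B.map χ ≫ push i (q ≫ χ) := by
    intro b c i q χ
    apply (hB q).hom_ext
    · rw [← Category.assoc, hpush₁, ← Category.assoc, ← s.naturality, Category.assoc, hpush₁,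
        s'.naturality]
    · rw [← Category.assoc, hpush₂, Category.assoc, ← B'.map_comp, ← Category.assoc,
        ← B.map_comp, hpush₂]
  have hind : ∀ {b : 𝒳.obj} (i j : Bool) (q : Ch.ch i ⟶ b) (q' : Ch.ch j ⟶ b),
      push i q = push j q' := by
    have key : ∀ {b : 𝒳.obj} (q : Ch.u₀ ⟶ b) (q' : Ch.u₁ ⟶ b),
        push false q = push true q' := by
      intro b q q'
      obtain ⟨c, rfl, rfl⟩ := Ch.exists_overlap q q'
      obtain ⟨g, ⟨hg₁, hg₂⟩, -⟩ := hpush c f₀₁ hf₀₁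
      have e₀ : B.map (Ch.j₀ ≫ c) ≫ g = f₀ ≫ B'.map (Ch.j₀ ≫ c) := by
        rw [B.map_comp, Category.assoc, hg₂, ← Category.assoc, h₀, Category.assoc, B'.map_comp]
      have e₁ : B.map (Ch.j₁ ≫ c) ≫ g = f₁ ≫ B'.map (Ch.j₁ ≫ c) := by
        rw [B.map_comp, Category.assoc, hg₂, ← Category.assoc, h₁, Category.assoc, B'.map_comp]
      exact (hpush' false (Ch.j₀ ≫ c) g hg₁ e₀).symm.trans (hpush' true (Ch.j₁ ≫ c) g hg₁ e₁)
    intro b i j q q'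
    match i, j with
    | false, false => rw [Ch.ch_mono false q q']
    | true, true => rw [Ch.ch_mono true q q']
    | false, true => exact key q q'
    | true, false => exact (key q' q).symm
  have hglue : ∀ a, ∃! x : B.obj a ⟶ B'.obj a, ∀ (b : 𝒳.obj) (ψ : a ⟶ b) (i : Bool)
      (q : Ch.ch i ⟶ b), x ≫ B'.map ψ = B.map ψ ≫ push i q := by
    intro a
    apply Charts.glue hX Ch hB' a (B.obj a) (fun {b} ψ i q ↦ B.map ψ ≫ push i q)
    · intro b c ψ i q χ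
      rw [Category.assoc, hnat, B.map_comp, Category.assoc]
    · intro b ψ i j q q'
      rw [hind i j q q']
  choose F hF using fun a ↦ (hglue a).exists
  have hsF : ∀ a, s.app a ≫ F a = s'.app a := by
    intro a
    apply Ch.hom_ext_of_charts hB'
    intro b ψ i q
    rw [Category.assoc, hF a b ψ i q, ← Category.assoc, ← s.naturality, Category.assoc, hpush₁,
      s'.naturality]
  refine ⟨{ app := F, naturality := ?_ }, ⟨hsF, ?_, ?_⟩, ?_⟩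
  · intro a a' ψ
    apply Ch.hom_ext_of_charts hB'
    intro b χ i q
    rw [Category.assoc, hF a' b χ i q, Category.assoc, ← B'.map_comp, hF a b _ i q, B.map_comp,
      Category.assoc]
  · apply (hglue Ch.u₀).unique (hF _)
    intro b ψ i q
    rw [hind i false q ψ]
    exact (hpush₂ false ψ).symm
  · apply (hglue Ch.u₁).unique (hF _)
    intro b ψ i q
    rw [hind i true q ψ]
    exact (hpush₂ true ψ).symm
  · rintro G ⟨h₁, h₂, h₃⟩
    ext a : 2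
    apply (hglue a).unique _ (hF a)
    intro b ψ i q
    rw [← G.naturality]
    congr 1
    apply hpush' _ _ _ (h₁ b)
    rw [G.naturality]
    congr 1
    match i with
    | false => exact h₂
    | true => exact h₃

end Pool.Agent.H27
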