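import Pool.Agent.H27.PTors
import Pool.Agent.H27.Universal
import Pool.Agent.H27.TorsFlat

/-!
# Closed sub-pretorsors, reduced pointed torsors
-/

set_option linter.style.haveILetI false
set_option warn.classDefReducibility false
set_option linter.unusedVariables false

open CategoryTheory Limits

open scoped TensorProduct

namespace Pool.Agent.H27

variable {κ : Type} [Field κ]

/-! ### Closed subschemes -/

/-- `b` kills the ideal `I`. -/
def Kills {A C : Alg κ} (I : Ideal A) (b : A ⟶ C) : Prop := ∀ x ∈ I, b.hom x = 0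

theorem Kills.comp {A C D : Alg κ} {I : Ideal A} {b : A ⟶ C} (h : Kills I b) (f : C ⟶ D) :
    Kills I (b ≫ f) := by
  intro x hx
  show f.hom (b.hom x) = 0
  rw [h x hx, map_zero]

/-- The quotient algebra. -/
def quo {A : Alg κ} (I : Ideal A) : Alg κ := CommAlgCat.of κ (A ⧸ I)

/-- The projection to the quotient. -/
def quoπ {A : Alg κ} (I : Ideal A) : A ⟶ quo I := CommAlgCat.ofHom (Ideal.Quotient.mkₐ κ I)

theorem quoπ_surjective {A : Alg κ} (I : Ideal A) : Function.Surjective (quoπ I).hom :=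
  Ideal.Quotient.mk_surjective

theorem quoπ_kills {A : Alg κ} (I : Ideal A) : Kills I (quoπ I) := by
  intro x hx
  exact Ideal.Quotient.eq_zero_iff_mem.2 hx

theorem quo_hom_ext {A C : Alg κ} (I : Ideal A) {b b' : quo I ⟶ C}
    (h : quoπ I ≫ b = quoπ I ≫ b') : b = b' := by
  ext x
  obtain ⟨x, rfl⟩ := quoπ_surjective I x
  exact congrArg (fun g ↦ g.hom x) h

/-- The map out of the quotient. -/
def quoDesc {A C : Alg κ} (I : Ideal A) (b : A ⟶ C) (h : Kills I b) : quo I ⟶ C :=
  CommAlgCat.ofHom (Ideal.Quotient.liftₐ I b.hom h)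

@[reassoc (attr := simp)]
theorem quoπ_desc {A C : Alg κ} (I : Ideal A) (b : A ⟶ C) (h : Kills I b) :
    quoπ I ≫ quoDesc I b h = b := by
  ext x
  rfl

theorem kills_comp {A C : Alg κ} (I : Ideal A) (b : quo I ⟶ C) : Kills I (quoπ I ≫ b) :=
  (quoπ_kills I).comp b

/-! ### Pushouts -/

theorem isPushout_of_existsUnique {𝒞 : Type*} [Category 𝒞] {A B C D : 𝒞} {f : A ⟶ B} {g : A ⟶ C}
    {i : B ⟶ D} {j : C ⟶ D} (w : f ≫ i = g ≫ j)
    (h : ∀ (E : 𝒞) (b : B ⟶ E) (c : C ⟶ E), f ≫ b = g ≫ c → ∃ d : D ⟶ E, i ≫ d = b ∧ j ≫ d = c)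
    (hu : ∀ (E : 𝒞) (d d' : D ⟶ E), i ≫ d = i ≫ d' → j ≫ d = j ≫ d' → d = d') :
    IsPushout f g i j := by
  refine ⟨⟨w⟩, ⟨PushoutCocone.IsColimit.mk w (fun s ↦ (h _ s.inl s.inr s.condition).choose)
    (fun s ↦ (h _ s.inl s.inr s.condition).choose_spec.1)
    (fun s ↦ (h _ s.inl s.inr s.condition).choose_spec.2) ?_⟩⟩
  intro s m h1 h2
  apply hu
  · rw [h1, (h _ s.inl s.inr s.condition).choose_spec.1]
  · rw [h2, (h _ s.inl s.inr s.condition).choose_spec.2]

variable {𝒳 : BasedCategory.{0, 1} (Alg κ)} {T : Type} [Category.{0} T] {v : T ⥤ 𝒳.obj}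

/-- The data of a closed sub-pretorsor containing the points. -/
structure SubData (P : PTors v) where
  IH : Ideal P.G.H
  I : ∀ a, Ideal (P.B.obj a)
  one_mem : ∀ C : Alg κ, Kills IH (1 : P.G.H ⟶ C)
  mul_mem : ∀ {C : Alg κ} (g g' : P.G.H ⟶ C), Kills IH g → Kills IH g' → Kills IH (g * g')
  inv_mem : ∀ {C : Alg κ} (g : P.G.H ⟶ C), Kills IH g → Kills IH g⁻¹
  map_mem : ∀ {a a' : 𝒳.obj} (ψ : a ⟶ a') {C : Alg κ} (b : P.B.obj a' ⟶ C),
    Kills (I a') b ↔ Kills (I a) (P.B.map ψ ≫ b)
  act_mem : ∀ {a : 𝒳.obj} {C : Alg κ} (b : P.B.obj a ⟶ C) (g : P.G.H ⟶ C),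
    Kills (I a) b → Kills IH g → Kills (I a) (P.act b g)
  trans_mem : ∀ {a : 𝒳.obj} {C : Alg κ} (b : P.B.obj a ⟶ C) (g : P.G.H ⟶ C),
    Kills (I a) b → Kills (I a) (P.act b g) → Kills IH g
  y_mem : ∀ t : T, Kills (I (v.obj t)) (P.y t)

namespace SubData

variable {P : PTors v} (S : SubData P)

/-- The group structure. -/
noncomputable def grp (C : Alg κ) : Group (quo S.IH ⟶ C) where
  mul g g' := quoDesc S.IH ((quoπ S.IH ≫ g) * (quoπ S.IH ≫ g'))
    (S.mul_mem _ _ (kills_comp _ _) (kills_comp _ _))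
  one := quoDesc S.IH 1 (S.one_mem C)
  inv g := quoDesc S.IH (quoπ S.IH ≫ g)⁻¹ (S.inv_mem _ (kills_comp _ _))
  mul_assoc a b c := by
    apply quo_hom_ext
    erw [quoπ_desc, quoπ_desc, quoπ_desc, quoπ_desc, mul_assoc]
  one_mul a := by
    apply quo_hom_ext
    erw [quoπ_desc, quoπ_desc, one_mul]
  mul_one a := by
    apply quo_hom_ext
    erw [quoπ_desc, quoπ_desc, mul_one]
  inv_mul_cancel a := by
    apply quo_hom_ext
    erw [quoπ_desc, quoπ_desc, quoπ_desc, inv_mul_cancel]

theorem quoπ_mul {C : Alg κ} (a b : quo S.IH ⟶ C) :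
    quoπ S.IH ≫ ((S.grp C).mul a b) = (quoπ S.IH ≫ a) * (quoπ S.IH ≫ b) :=
  quoπ_desc _ _ _

theorem quoπ_one (C : Alg κ) : quoπ S.IH ≫ ((S.grp C).one) = 1 := quoπ_desc _ _ _

/-- The finite group scheme. -/
noncomputable def finGrp : FinGrp κ where
  H := quo S.IH
  grp := S.grp
  mul_comp {C D} a b f := by
    apply quo_hom_ext
    have h1 : quoπ S.IH ≫ ((S.grp C).mul a b) ≫ f =
        quoπ S.IH ≫ ((S.grp D).mul (a ≫ f) (b ≫ f)) := by
      rw [← Category.assoc, quoπ_mul, quoπ_mul, P.G.mul_comp, Category.assoc, Category.assoc]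
    exact h1
  finite := by
    haveI := P.G.finite
    exact Module.Finite.of_surjective (Ideal.Quotient.mkₐ κ S.IH).toLinearMap
      Ideal.Quotient.mk_surjective

/-- The projection. -/
noncomputable def πH : P.G.H ⟶ S.finGrp.H := quoπ S.IH

/-- The map out of the quotient. -/
noncomputable def descH {C : Alg κ} (g : P.G.H ⟶ C) (h : Kills S.IH g) : S.finGrp.H ⟶ C :=
  quoDesc S.IH g h

@[reassoc (attr := simp)]
theorem πH_descH {C : Alg κ} (g : P.G.H ⟶ C) (h : Kills S.IH g) : S.πH ≫ S.descH g h = g :=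
  quoπ_desc _ _ _

theorem extH {C : Alg κ} {g g' : S.finGrp.H ⟶ C} (h : S.πH ≫ g = S.πH ≫ g') : g = g' :=
  quo_hom_ext _ h

theorem killsH {C : Alg κ} (g : S.finGrp.H ⟶ C) : Kills S.IH (S.πH ≫ g) := kills_comp _ _

theorem πH_mul {C : Alg κ} (a b : S.finGrp.H ⟶ C) : S.πH ≫ (a * b) = (S.πH ≫ a) * (S.πH ≫ b) :=
  quoπ_desc _ _ _

theorem πH_one (C : Alg κ) : S.πH ≫ (1 : S.finGrp.H ⟶ C) = 1 := quoπ_desc _ _ _

theorem πH_surjective : Function.Surjective S.πH.hom := quoπ_surjective _

theorem map_kills {a a' : 𝒳.obj} (ψ : a ⟶ a') :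
    Kills (S.I a) (P.B.map ψ ≫ quoπ (S.I a')) :=
  (S.map_mem ψ _).1 (quoπ_kills _)

/-- The functor of quotient algebras. -/
noncomputable def functor : 𝒳.obj ⥤ Alg κ where
  obj a := quo (S.I a)
  map ψ := quoDesc _ (P.B.map ψ ≫ quoπ (S.I _)) (S.map_kills ψ)
  map_id a := by
    apply quo_hom_ext
    rw [quoπ_desc]
    simp
  map_comp ψ ψ' := by
    apply quo_hom_ext
    rw [quoπ_desc, quoπ_desc_assoc, Category.assoc, quoπ_desc, P.B.map_comp, Category.assoc]

/-- The projection. -/
noncomputable def proj : P.B ⟶ S.functor where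
  app a := quoπ (S.I a)
  naturality a a' ψ := (quoπ_desc _ _ (S.map_kills ψ)).symm

/-- The map out of the quotient. -/
noncomputable def desc {a : 𝒳.obj} {C : Alg κ} (b : P.B.obj a ⟶ C) (h : Kills (S.I a) b) :
    S.functor.obj a ⟶ C :=
  quoDesc _ b h

@[reassoc (attr := simp)]
theorem proj_desc {a : 𝒳.obj} {C : Alg κ} (b : P.B.obj a ⟶ C) (h : Kills (S.I a) b) :
    S.proj.app a ≫ S.desc b h = b :=
  quoπ_desc _ _ _

theorem ext' {a : 𝒳.obj} {C : Alg κ} {b b' : S.functor.obj a ⟶ C}
    (h : S.proj.app a ≫ b = S.proj.app a ≫ b') : b = b' :=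
  quo_hom_ext _ h

theorem proj_kills {a : 𝒳.obj} {C : Alg κ} (b : S.functor.obj a ⟶ C) :
    Kills (S.I a) (S.proj.app a ≫ b) :=
  kills_comp _ _

theorem proj_surjective (a : 𝒳.obj) : Function.Surjective (S.proj.app a).hom := quoπ_surjective _

/-- The closed sub-pretorsor. -/
noncomputable def sub : PTors v where
  G := S.finGrp
  B := S.functor
  s := P.s ≫ S.proj
  isPushout ψ := by
    apply isPushout_of_existsUnique
    · exact (P.s ≫ S.proj).naturality ψ
    · intro E b c hbc
      have h1 := P.isPushout ψ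
      rw [NatTrans.comp_app, Category.assoc] at hbc
      have hk : Kills (S.I _) (h1.desc b (S.proj.app _ ≫ c) hbc) := by
        rw [S.map_mem ψ, h1.inr_desc]
        exact S.proj_kills _
      refine ⟨S.desc _ hk, ?_, ?_⟩
      · rw [NatTrans.comp_app, Category.assoc, proj_desc, h1.inl_desc]
      · apply S.ext'
        rw [← Category.assoc, ← S.proj.naturality, Category.assoc, proj_desc, h1.inr_desc]
    · intro E d d' h1 h2
      apply S.ext'
      apply (P.isPushout ψ).hom_ext
      · rw [NatTrans.comp_app, Category.assoc, Category.assoc] at h1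
        exact h1
      · rw [← Category.assoc, ← Category.assoc, S.proj.naturality, Category.assoc, Category.assoc,
          h2]
  act {a C} b g := S.desc (P.act (S.proj.app a ≫ b) (S.πH ≫ g))
    (S.act_mem _ _ (S.proj_kills _) (S.killsH _))
  act_one {a C} b := by
    apply S.ext'
    rw [proj_desc, πH_one, P.act_one]
  act_mul {a C} b g g' := by
    apply S.ext'
    rw [proj_desc, πH_mul, P.act_mul, proj_desc, proj_desc]
  act_comp {a C D} b g f := by
    apply S.ext'
    rw [proj_desc_assoc, P.act_comp, proj_desc, Category.assoc, Category.assoc]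
  map_act {a a'} ψ {C} b g := by
    apply S.ext'
    rw [← Category.assoc, ← S.proj.naturality, Category.assoc, proj_desc, P.map_act, proj_desc,
      ← Category.assoc, ← Category.assoc, S.proj.naturality]
  s_act {a C} b g := by
    rw [NatTrans.comp_app, Category.assoc, proj_desc, P.s_act, Category.assoc]
  trans {a C} b b' hb := by
    rw [NatTrans.comp_app, Category.assoc, Category.assoc] at hb
    obtain ⟨g, hg, hgu⟩ := P.trans _ _ hb
    have hk : Kills S.IH g := by
      apply S.trans_mem (S.proj.app a ≫ b) g (S.proj_kills _)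
      rw [hg]
      exact S.proj_kills _
    refine ⟨S.descH g hk, ?_, ?_⟩
    · apply S.ext'
      rw [proj_desc, πH_descH, hg]
    · intro g' hg'
      apply S.extH
      rw [πH_descH]
      apply hgu
      rw [← hg', proj_desc]
  finite a := by
    have h1 := P.finite a
    have h2 : (S.proj.app a).hom.toRingHom.Finite :=
      RingHom.Finite.of_surjective _ (S.proj_surjective a)
    exact h2.comp h1
  y t := S.desc (P.y t) (S.y_mem t)
  s_y t := by
    rw [NatTrans.comp_app, Category.assoc, proj_desc, P.s_y]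
  y_map {t t'} τ := by
    apply S.ext'
    rw [proj_desc_assoc, P.y_map, ← Category.assoc, ← S.proj.naturality, Category.assoc, proj_desc]

/-- The inclusion. -/
noncomputable def incl : PHom S.sub P where
  h := S.πH
  f := S.proj
  h_mul g g' := S.πH_mul g g'
  s_f a := rfl
  f_act b g := S.proj_desc _ _
  f_y t := S.proj_desc _ _

end SubData

/-! ### Reduced pointed torsors -/

/-- Every pointed torsor receives a morphism from a reduced one. -/
theorem PTors.exists_isReduced (P : PTors v) : ∃ (Q : PTors v) (_ : PHom Q P), Q.IsReduced := by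
  classical
  have hex : ∃ n : ℕ, ∃ (Q : PTors v) (_ : PHom Q P), Module.finrank κ Q.G.H = n :=
    ⟨_, P, 𝟙 P, rfl⟩
  obtain ⟨Q, α, hQ⟩ := Nat.find_spec hex
  refine ⟨Q, α, ?_⟩
  intro Q' β hβ _
  have hmin : Module.finrank κ Q.G.H ≤ Module.finrank κ Q'.G.H := by
    rw [hQ]
    exact Nat.find_min' hex ⟨Q', (show Q' ⟶ Q from β) ≫ (show Q ⟶ P from α), rfl⟩
  haveI := Q.G.finite
  haveI := Q'.G.finite
  let l : Q.G.H →ₗ[κ] Q'.G.H := β.h.hom.toLinearMap
  have hl : Function.Surjective l := hβ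
  have h1 : Module.finrank κ Q'.G.H ≤ Module.finrank κ Q.G.H :=
    LinearMap.finrank_le_finrank_of_surjective hl
  have h2 : Module.finrank κ Q.G.H = Module.finrank κ Q'.G.H := le_antisymm hmin h1
  exact (LinearMap.injective_iff_surjective_of_finrank_eq_finrank h2).2 hl

/-! ### Morphisms inducing a bijection on groups -/

/-- Descent of maps along a faithfully flat map. -/
theorem hom_descent_ff {A B D : Alg κ} (f : A ⟶ B) (hf : f.hom.toRingHom.FaithfullyFlat)
    (d : D ⟶ B) (hd : ∀ (C : Alg κ) (u v : B ⟶ C), f ≫ u = f ≫ v → d ≫ u = d ≫ v) :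
    ∃ d₀ : D ⟶ A, d₀ ≫ f = d := by
  have h1 : ∀ x : D, ∃ a : A, f.hom a = d.hom x := by
    intro x
    apply Univ.exists_descent f hf
    intro C u v huv
    exact congrArg (fun g ↦ g.hom x) (hd C u v huv)
  choose e he using h1
  have hinj : Function.Injective f.hom := hf.injective
  refine ⟨CommAlgCat.ofHom
    { toFun := e
      map_one' := hinj (by rw [he, map_one, map_one])
      map_mul' := fun x y ↦ hinj (by rw [he, map_mul, map_mul, he, he])
      map_zero' := hinj (by rw [he, map_zero, map_zero])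
      map_add' := fun x y ↦ hinj (by rw [he, map_add, map_add, he, he])
      commutes' := fun r ↦ hinj (by rw [he, d.hom.commutes, f.hom.commutes]) }, ?_⟩
  ext x
  exact he x

/-- A map of algebras is bijective if it induces a bijection on points. -/
theorem bijective_of_points {A B : Alg κ} (f : A ⟶ B)
    (h1 : ∀ (C : Alg κ) (b b' : B ⟶ C), f ≫ b = f ≫ b' → b = b')
    (h2 : ∀ (C : Alg κ) (a : A ⟶ C), ∃ b : B ⟶ C, f ≫ b = a) : Function.Bijective f.hom := by
  obtain ⟨g, hg⟩ := h2 A (𝟙 A)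
  have hg' : g ≫ f = 𝟙 B := by
    apply h1
    rw [← Category.assoc, hg]
    simp
  rw [Function.bijective_iff_has_inverse]
  refine ⟨g.hom, ?_, ?_⟩
  · intro x
    exact congrArg (fun k ↦ k.hom x) hg
  · intro x
    exact congrArg (fun k ↦ k.hom x) hg'

/-- A morphism of torsors inducing a bijection on groups is an isomorphism. -/
theorem PHom.bijective_of_bijective (hX : IsCofiberedInGroupoids 𝒳) (Ch : Charts v) {P Q : PTors v}
    (α : PHom P Q) (h : Function.Bijective α.h.hom) (a : 𝒳.obj) :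
    Function.Bijective (α.f.app a).hom := by
  -- the inverse of `α.h`
  have hff := PTors.faithfullyFlat hX Ch P a
  obtain ⟨k, hk1, hk2⟩ : ∃ k : P.G.H ⟶ Q.G.H, α.h ≫ k = 𝟙 _ ∧ k ≫ α.h = 𝟙 _ := by
    let e := AlgEquiv.ofBijective α.h.hom h
    refine ⟨CommAlgCat.ofHom e.symm.toAlgHom, ?_, ?_⟩
    · ext x
      exact e.symm_apply_apply x
    · ext x
      exact e.apply_symm_apply x
  have hh1 : ∀ (C : Alg κ) (g : P.G.H ⟶ C), α.h ≫ g = 1 → g = 1 := by
    intro C g hg
    have h1 : α.h ≫ (1 : P.G.H ⟶ C) = 1 := by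
      have h2 := α.h_mul (C := C) 1 1
      rw [mul_one] at h2
      exact (left_eq_mul.1 h2)
    have h3 : k ≫ α.h ≫ g = k ≫ α.h ≫ 1 := by rw [hg, h1]
    rw [← Category.assoc, ← Category.assoc, hk2] at h3
    simpa using h3
  have huniq : ∀ (C : Alg κ) (b b' : P.B.obj a ⟶ C), α.f.app a ≫ b = α.f.app a ≫ b' → b = b' := by
    intro C b b' hbb
    have h1 : P.s.app a ≫ b = P.s.app a ≫ b' := by
      rw [← α.s_f, Category.assoc, Category.assoc, hbb]
    obtain ⟨g, hg, -⟩ := P.trans b b' h1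
    have h2 : Q.act (α.f.app a ≫ b) (α.h ≫ g) = α.f.app a ≫ b := by
      rw [← α.f_act, hg, hbb]
    obtain ⟨g₀, -, hg₀⟩ := Q.trans (α.f.app a ≫ b) (α.f.app a ≫ b) rfl
    have h3 : α.h ≫ g = 1 := by
      rw [hg₀ _ h2, hg₀ 1 (Q.act_one _)]
    rw [hh1 _ _ h3, P.act_one] at hg
    exact hg
  apply bijective_of_points
  · exact huniq
  · intro C c
    -- base change to a faithfully flat extension where `P` has a point
    obtain ⟨C', i, j, hij, hi⟩ := Univ.exists_square (P.s.app a) (Q.s.app a ≫ c) hff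
    -- hij : (Q.s.app a ≫ c) ≫ i = P.s.app a ≫ j
    have h1 : Q.s.app a ≫ (α.f.app a ≫ j) = Q.s.app a ≫ (c ≫ i) := by
      rw [← Category.assoc, α.s_f, ← hij, Category.assoc]
    obtain ⟨g, hg, -⟩ := Q.trans _ _ h1
    have h2 : α.f.app a ≫ P.act j (k ≫ g) = c ≫ i := by
      rw [α.f_act, ← Category.assoc, hk1, Category.id_comp, hg]
    obtain ⟨d₀, hd₀⟩ := hom_descent_ff i hi (P.act j (k ≫ g)) (by
      intro D u w huw
      apply huniq
      rw [← Category.assoc, ← Category.assoc, h2, Category.assoc, Category.assoc, huw])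
    refine ⟨d₀, ?_⟩
    apply mono_of_ff' hi
    rw [Category.assoc, hd₀, h2]

/-! ### Equalizers -/

/-- The ideal of the equalizer of two maps. -/
def eqIdeal {A B : Alg κ} (f g : A ⟶ B) : Ideal B :=
  Ideal.span (Set.range fun x ↦ f.hom x - g.hom x)

theorem kills_eqIdeal {A B C : Alg κ} (f g : A ⟶ B) (b : B ⟶ C) :
    Kills (eqIdeal f g) b ↔ f ≫ b = g ≫ b := by
  constructor
  · intro h
    ext x
    have h1 := h (f.hom x - g.hom x) (Ideal.subset_span ⟨x, rfl⟩)
    rw [map_sub, sub_eq_zero] at h1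
    exact h1
  · intro h
    have h1 : eqIdeal f g ≤ RingHom.ker b.hom.toRingHom := by
      apply Ideal.span_le.2
      rintro _ ⟨x, rfl⟩
      have h2 : b.hom (f.hom x) = b.hom (g.hom x) := congrArg (fun k ↦ k.hom x) h
      show b.hom (f.hom x - g.hom x) = 0
      rw [map_sub, h2, sub_self]
    intro x hx
    exact h1 hx

theorem PHom.h_one {P Q : PTors v} (α : PHom P Q) (C : Alg κ) :
    α.h ≫ (1 : P.G.H ⟶ C) = 1 := by
  have h2 := α.h_mul (C := C) 1 1
  rw [mul_one] at h2
  exact (left_eq_mul.1 h2)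

theorem PHom.h_inv {P Q : PTors v} (α : PHom P Q) {C : Alg κ} (g : P.G.H ⟶ C) :
    α.h ≫ g⁻¹ = (α.h ≫ g)⁻¹ := by
  rw [eq_inv_iff_mul_eq_one, ← α.h_mul, inv_mul_cancel, α.h_one]

/-- The equalizer of two morphisms. -/
def SubData.eq {P Q : PTors v} (α β : PHom P Q) : SubData P where
  IH := eqIdeal α.h β.h
  I a := eqIdeal (α.f.app a) (β.f.app a)
  one_mem C := by
    rw [kills_eqIdeal, α.h_one, β.h_one]
  mul_mem {C} g g' hg hg' := by
    rw [kills_eqIdeal] at hg hg' ⊢
    rw [α.h_mul, β.h_mul, hg, hg']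
  inv_mem {C} g hg := by
    rw [kills_eqIdeal] at hg ⊢
    rw [α.h_inv, β.h_inv, hg]
  map_mem {a a'} ψ {C} b := by
    rw [kills_eqIdeal, kills_eqIdeal]
    constructor
    · intro h
      rw [← Category.assoc, ← Category.assoc, ← α.f.naturality, ← β.f.naturality, Category.assoc,
        Category.assoc, h]
    · intro h
      apply (Q.isPushout ψ).hom_ext
      · rw [← Category.assoc, ← Category.assoc, α.s_f, β.s_f]
      · rw [← Category.assoc, ← Category.assoc, α.f.naturality, β.f.naturality, Category.assoc,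
          Category.assoc, h]
  act_mem {a C} b g hb hg := by
    rw [kills_eqIdeal] at hb hg ⊢
    rw [α.f_act, β.f_act, hb, hg]
  trans_mem {a C} b g hb hbg := by
    rw [kills_eqIdeal] at hb hbg ⊢
    rw [α.f_act, β.f_act, hb] at hbg
    obtain ⟨g₀, -, hg₀⟩ := Q.trans (β.f.app a ≫ b) (Q.act (β.f.app a ≫ b) (β.h ≫ g))
      (Q.s_act _ _).symm
    rw [hg₀ _ hbg, hg₀ (β.h ≫ g) rfl]
  y_mem t := by
    rw [kills_eqIdeal, α.f_y, β.f_y]

/-- There is at most one morphism out of a reduced pointed torsor. -/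
theorem PTors.IsReduced.hom_ext (hX : IsCofiberedInGroupoids 𝒳) (Ch : Charts v) {P Q : PTors v}
    (hP : P.IsReduced) (α β : PHom P Q) : α = β := by
  let S := SubData.eq α β
  have hinj : Function.Injective S.incl.h.hom :=
    hP S.sub S.incl S.πH_surjective S.proj_surjective
  have hbij := PHom.bijective_of_bijective hX Ch S.incl ⟨hinj, S.πH_surjective⟩
  apply PHom.ext
  · ext x
    apply hinj
    have h1 : α.h ≫ S.πH = β.h ≫ S.πH := by
      rw [← kills_eqIdeal]
      exact quoπ_kills _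
    exact congrArg (fun k ↦ k.hom x) h1
  · ext a x
    apply (hbij a).1
    have h1 : α.f.app a ≫ S.proj.app a = β.f.app a ≫ S.proj.app a := by
      rw [← kills_eqIdeal]
      exact quoπ_kills _
    exact congrArg (fun k ↦ k.hom x) h1

/-! ### Products -/

/-- Pushouts of finite maps are finite. -/
theorem finite_inl_of_isPushout {A B C D : Alg κ} {f : A ⟶ B} {g : A ⟶ C} {i : B ⟶ D} {j : C ⟶ D}
    (h : IsPushout f g i j) (hg : g.hom.toRingHom.Finite) : i.hom.toRingHom.Finite := by
  letI : Algebra A B := f.hom.toRingHom.toAlgebra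
  letI : Algebra A C := g.hom.toRingHom.toAlgebra
  haveI : IsScalarTower κ A B := IsScalarTower.of_algebraMap_eq fun x => by
    rw [RingHom.algebraMap_toAlgebra]
    exact (f.hom.commutes x).symm
  haveI : IsScalarTower κ A C := IsScalarTower.of_algebraMap_eq fun x => by
    rw [RingHom.algebraMap_toAlgebra]
    exact (g.hom.commutes x).symm
  haveI : Module.Finite A C := hg
  let i' : B →ₐ[κ] (TensorProduct A B C) := Algebra.TensorProduct.includeLeft
  let j' : C →ₐ[κ] (TensorProduct A B C) :=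
    (Algebra.TensorProduct.includeRight : C →ₐ[A] TensorProduct A B C).restrictScalars κ
  let D' : Alg κ := CommAlgCat.of κ (TensorProduct A B C)
  have hw : f ≫ CommAlgCat.ofHom i' = g ≫ (CommAlgCat.ofHom j' : C ⟶ D') := by
    ext a
    show (algebraMap A B a) ⊗ₜ[A] (1 : C) = (1 : B) ⊗ₜ[A] (algebraMap A C a)
    rw [Algebra.algebraMap_eq_smul_one, Algebra.algebraMap_eq_smul_one, TensorProduct.smul_tmul]
  -- the map `D ⟶ D'` is surjective
  let q : D ⟶ D' := h.desc _ _ hw
  -- the map `D' ⟶ D`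
  letI : Algebra A D := (f ≫ i).hom.toRingHom.toAlgebra
  have hiA : ∀ a : A, i.hom.toRingHom (algebraMap A B a) = algebraMap A D a := fun a ↦ rfl
  have hjA : ∀ a : A, j.hom.toRingHom (algebraMap A C a) = algebraMap A D a := by
    intro a
    have h1 : (g ≫ j).hom a = (f ≫ i).hom a := by rw [h.w]
    exact h1
  let iA : B →ₐ[A] D := { i.hom.toRingHom with commutes' := hiA }
  let jA : C →ₐ[A] D := { j.hom.toRingHom with commutes' := hjA }
  let r : TensorProduct A B C →ₐ[A] D := Algebra.TensorProduct.productMap iA jA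
  have hfin' : (CommAlgCat.ofHom i' : B ⟶ D').hom.toRingHom.Finite := by
    show (algebraMap B (TensorProduct A B C)).Finite
    rw [RingHom.finite_algebraMap]
    infer_instance
  have hri : ∀ b : B, r (i' b) = i.hom b := by
    intro b
    show Algebra.TensorProduct.productMap iA jA (b ⊗ₜ[A] 1) = i.hom b
    rw [Algebra.TensorProduct.productMap_apply_tmul]
    rw [map_one, mul_one]
    rfl
  have hrj : ∀ c : C, r (j' c) = j.hom c := by
    intro c
    show Algebra.TensorProduct.productMap iA jA (1 ⊗ₜ[A] c) = j.hom c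
    rw [Algebra.TensorProduct.productMap_apply_tmul]
    rw [map_one, one_mul]
    rfl
  have hrκ : ∀ x : κ, r (algebraMap κ (TensorProduct A B C) x) = algebraMap κ D x := by
    intro x
    have h1 : algebraMap κ (TensorProduct A B C) x = i' (algebraMap κ B x) := (i'.commutes x).symm
    rw [h1, hri]
    exact i.hom.commutes x
  let r' : D' ⟶ D := CommAlgCat.ofHom { r.toRingHom with commutes' := hrκ }
  have hqr : q ≫ r' = 𝟙 D := by
    apply h.hom_ext
    · rw [← Category.assoc, h.inl_desc, Category.comp_id]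
      ext b
      exact hri b
    · rw [← Category.assoc, h.inr_desc, Category.comp_id]
      ext c
      exact hrj c
  have hr : Function.Surjective r'.hom := by
    intro d
    exact ⟨q.hom d, congrArg (fun k ↦ k.hom d) hqr⟩
  have hi : CommAlgCat.ofHom i' ≫ r' = i := by
    ext b
    exact hri b
  have h2 : r'.hom.toRingHom.Finite := RingHom.Finite.of_surjective _ hr
  have h3 := h2.comp hfin'
  rw [← hi]
  exact h3

section prod

/-- The group structure on the points of a product. -/
noncomputable def prodGrp (G G' : FinGrp κ) (C : Alg κ) : Group (tens G.H G'.H ⟶ C) where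
  mul a b := (isCoprod_tens G.H G'.H).desc ((tinl _ _ ≫ a) * (tinl _ _ ≫ b))
    ((tinr _ _ ≫ a) * (tinr _ _ ≫ b))
  one := (isCoprod_tens G.H G'.H).desc 1 1
  inv a := (isCoprod_tens G.H G'.H).desc (tinl _ _ ≫ a)⁻¹ (tinr _ _ ≫ a)⁻¹
  mul_assoc a b c := by
    apply (isCoprod_tens G.H G'.H).hom_ext
    · erw [IsCoprod.left_desc, IsCoprod.left_desc, IsCoprod.left_desc, IsCoprod.left_desc,
        mul_assoc]
    · erw [IsCoprod.right_desc, IsCoprod.right_desc, IsCoprod.right_desc, IsCoprod.right_desc,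
        mul_assoc]
  one_mul a := by
    apply (isCoprod_tens G.H G'.H).hom_ext
    · erw [IsCoprod.left_desc, IsCoprod.left_desc, one_mul]
    · erw [IsCoprod.right_desc, IsCoprod.right_desc, one_mul]
  mul_one a := by
    apply (isCoprod_tens G.H G'.H).hom_ext
    · erw [IsCoprod.left_desc, IsCoprod.left_desc, mul_one]
    · erw [IsCoprod.right_desc, IsCoprod.right_desc, mul_one]
  inv_mul_cancel a := by
    apply (isCoprod_tens G.H G'.H).hom_ext
    · erw [IsCoprod.left_desc, IsCoprod.left_desc, IsCoprod.left_desc, inv_mul_cancel]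
    · erw [IsCoprod.right_desc, IsCoprod.right_desc, IsCoprod.right_desc, inv_mul_cancel]

theorem prodGrp_left (G G' : FinGrp κ) {C : Alg κ} (a b : tens G.H G'.H ⟶ C) :
    tinl _ _ ≫ (prodGrp G G' C).mul a b = (tinl _ _ ≫ a) * (tinl _ _ ≫ b) :=
  IsCoprod.left_desc _ _ _

theorem prodGrp_right (G G' : FinGrp κ) {C : Alg κ} (a b : tens G.H G'.H ⟶ C) :
    tinr _ _ ≫ (prodGrp G G' C).mul a b = (tinr _ _ ≫ a) * (tinr _ _ ≫ b) :=
  IsCoprod.right_desc _ _ _

/-- The product of two finite group schemes. -/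
noncomputable def FinGrp.prod (G G' : FinGrp κ) : FinGrp κ where
  H := tens G.H G'.H
  grp := prodGrp G G'
  mul_comp {C D} a b f := by
    apply (isCoprod_tens G.H G'.H).hom_ext
    · have h1 : tinl _ _ ≫ (prodGrp G G' C).mul a b ≫ f =
          tinl _ _ ≫ (prodGrp G G' D).mul (a ≫ f) (b ≫ f) := by
        rw [← Category.assoc, prodGrp_left, prodGrp_left, G.mul_comp, Category.assoc,
          Category.assoc]
      exact h1
    · have h1 : tinr _ _ ≫ (prodGrp G G' C).mul a b ≫ f =
          tinr _ _ ≫ (prodGrp G G' D).mul (a ≫ f) (b ≫ f) := by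
        rw [← Category.assoc, prodGrp_right, prodGrp_right, G'.mul_comp, Category.assoc,
          Category.assoc]
      exact h1
  finite := by
    haveI := G.finite
    haveI := G'.finite
    show Module.Finite κ (TensorProduct κ G.H G'.H)
    infer_instance

variable (P Q : PTors v)

/-- The first projection. -/
noncomputable def pr1 (G G' : FinGrp κ) : G.H ⟶ (G.prod G').H := tinl _ _

/-- The second projection. -/
noncomputable def pr2 (G G' : FinGrp κ) : G'.H ⟶ (G.prod G').H := tinr _ _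

/-- The pair. -/
noncomputable def pair {G G' : FinGrp κ} {C : Alg κ} (g : G.H ⟶ C) (g' : G'.H ⟶ C) :
    (G.prod G').H ⟶ C := (isCoprod_tens G.H G'.H).desc g g'

@[reassoc (attr := simp)]
theorem pr1_pair {G G' : FinGrp κ} {C : Alg κ} (g : G.H ⟶ C) (g' : G'.H ⟶ C) :
    pr1 G G' ≫ pair g g' = g := IsCoprod.left_desc _ _ _

@[reassoc (attr := simp)]
theorem pr2_pair {G G' : FinGrp κ} {C : Alg κ} (g : G.H ⟶ C) (g' : G'.H ⟶ C) :
    pr2 G G' ≫ pair g g' = g' := IsCoprod.right_desc _ _ _

theorem pair_ext {G G' : FinGrp κ} {C : Alg κ} {g g' : (G.prod G').H ⟶ C}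
    (h1 : pr1 G G' ≫ g = pr1 G G' ≫ g') (h2 : pr2 G G' ≫ g = pr2 G G' ≫ g') : g = g' :=
  (isCoprod_tens G.H G'.H).hom_ext h1 h2

theorem pr1_mul {G G' : FinGrp κ} {C : Alg κ} (g g' : (G.prod G').H ⟶ C) :
    pr1 G G' ≫ (g * g') = (pr1 G G' ≫ g) * (pr1 G G' ≫ g') := prodGrp_left _ _ _ _

theorem pr2_mul {G G' : FinGrp κ} {C : Alg κ} (g g' : (G.prod G').H ⟶ C) :
    pr2 G G' ≫ (g * g') = (pr2 G G' ≫ g) * (pr2 G G' ≫ g') := prodGrp_right _ _ _ _

theorem pr1_one {G G' : FinGrp κ} {C : Alg κ} : pr1 G G' ≫ (1 : (G.prod G').H ⟶ C) = 1 :=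
  IsCoprod.left_desc _ _ _

theorem pr2_one {G G' : FinGrp κ} {C : Alg κ} : pr2 G G' ≫ (1 : (G.prod G').H ⟶ C) = 1 :=
  IsCoprod.right_desc _ _ _

/-- The fibre product of two torsors. -/
noncomputable def prodB : 𝒳.obj ⥤ Alg κ where
  obj a := pushout (P.s.app a) (Q.s.app a)
  map {a a'} ψ := pushout.desc (P.B.map ψ ≫ pushout.inl _ _) (Q.B.map ψ ≫ pushout.inr _ _) (by
    rw [← Category.assoc, ← Category.assoc, ← P.s.naturality, ← Q.s.naturality, Category.assoc,
      Category.assoc, pushout.condition])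
  map_id a := by
    apply pushout.hom_ext
    · rw [pushout.inl_desc, P.B.map_id, Category.id_comp, Category.comp_id]
    · rw [pushout.inr_desc, Q.B.map_id, Category.id_comp, Category.comp_id]
  map_comp ψ ψ' := by
    apply pushout.hom_ext
    · rw [pushout.inl_desc, pushout.inl_desc_assoc, Category.assoc, pushout.inl_desc,
        P.B.map_comp, Category.assoc]
    · rw [pushout.inr_desc, pushout.inr_desc_assoc, Category.assoc, pushout.inr_desc,
        Q.B.map_comp, Category.assoc]

/-- The first projection. -/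
noncomputable def prodB1 : P.B ⟶ prodB P Q where
  app a := pushout.inl (P.s.app a) (Q.s.app a)
  naturality a a' ψ := (pushout.inl_desc _ _ _).symm

/-- The second projection. -/
noncomputable def prodB2 : Q.B ⟶ prodB P Q where
  app a := pushout.inr (P.s.app a) (Q.s.app a)
  naturality a a' ψ := (pushout.inr_desc _ _ _).symm

theorem prodB_cond (a : 𝒳.obj) :
    P.s.app a ≫ (prodB1 P Q).app a = Q.s.app a ≫ (prodB2 P Q).app a := pushout.condition

variable {P Q}

/-- The pair. -/
noncomputable def prodDesc {a : 𝒳.obj} {C : Alg κ} (b : P.B.obj a ⟶ C) (b' : Q.B.obj a ⟶ C)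
    (h : P.s.app a ≫ b = Q.s.app a ≫ b') : (prodB P Q).obj a ⟶ C := pushout.desc b b' h

@[reassoc (attr := simp)]
theorem prodB1_desc {a : 𝒳.obj} {C : Alg κ} (b : P.B.obj a ⟶ C) (b' : Q.B.obj a ⟶ C)
    (h : P.s.app a ≫ b = Q.s.app a ≫ b') : (prodB1 P Q).app a ≫ prodDesc b b' h = b :=
  pushout.inl_desc _ _ _

@[reassoc (attr := simp)]
theorem prodB2_desc {a : 𝒳.obj} {C : Alg κ} (b : P.B.obj a ⟶ C) (b' : Q.B.obj a ⟶ C)
    (h : P.s.app a ≫ b = Q.s.app a ≫ b') : (prodB2 P Q).app a ≫ prodDesc b b' h = b' :=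
  pushout.inr_desc _ _ _

theorem prodB_ext {a : 𝒳.obj} {C : Alg κ} {b b' : (prodB P Q).obj a ⟶ C}
    (h1 : (prodB1 P Q).app a ≫ b = (prodB1 P Q).app a ≫ b')
    (h2 : (prodB2 P Q).app a ≫ b = (prodB2 P Q).app a ≫ b') : b = b' :=
  pushout.hom_ext h1 h2

theorem prod_cond {a : 𝒳.obj} {C : Alg κ} (b : (prodB P Q).obj a ⟶ C) :
    P.s.app a ≫ (prodB1 P Q).app a ≫ b = Q.s.app a ≫ (prodB2 P Q).app a ≫ b := by
  rw [← Category.assoc, prodB_cond, Category.assoc]

variable (P Q)

/-- The product of two pointed torsors. -/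
noncomputable def PTors.prod : PTors v where
  G := P.G.prod Q.G
  B := prodB P Q
  s := P.s ≫ prodB1 P Q
  isPushout ψ := by
    apply isPushout_of_existsUnique
    · exact (P.s ≫ prodB1 P Q).naturality ψ
    · intro E b c hbc
      rw [NatTrans.comp_app, Category.assoc] at hbc
      have hbc' := hbc
      rw [prod_cond] at hbc'
      refine ⟨prodDesc ((P.isPushout ψ).desc b _ hbc) ((Q.isPushout ψ).desc b _ hbc') (by
        rw [(P.isPushout ψ).inl_desc, (Q.isPushout ψ).inl_desc]), ?_, ?_⟩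
      · rw [NatTrans.comp_app, Category.assoc, prodB1_desc, (P.isPushout ψ).inl_desc]
      · apply prodB_ext
        · rw [← Category.assoc, ← (prodB1 P Q).naturality, Category.assoc, prodB1_desc,
            (P.isPushout ψ).inr_desc]
        · rw [← Category.assoc, ← (prodB2 P Q).naturality, Category.assoc, prodB2_desc,
            (Q.isPushout ψ).inr_desc]
    · intro E d d' h1 h2
      rw [NatTrans.comp_app, Category.assoc, Category.assoc] at h1
      apply prodB_ext
      · apply (P.isPushout ψ).hom_ext h1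
        rw [← Category.assoc, ← Category.assoc, (prodB1 P Q).naturality, Category.assoc,
          Category.assoc, h2]
      · apply (Q.isPushout ψ).hom_ext
        · rw [← prod_cond, ← prod_cond, h1]
        · rw [← Category.assoc, ← Category.assoc, (prodB2 P Q).naturality, Category.assoc,
            Category.assoc, h2]
  act {a C} b g := prodDesc (P.act ((prodB1 P Q).app a ≫ b) (pr1 P.G Q.G ≫ g))
    (Q.act ((prodB2 P Q).app a ≫ b) (pr2 P.G Q.G ≫ g)) (by
      rw [P.s_act, Q.s_act, prod_cond])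
  act_one b := by
    apply prodB_ext
    · rw [prodB1_desc, pr1_one, P.act_one]
    · rw [prodB2_desc, pr2_one, Q.act_one]
  act_mul b g g' := by
    apply prodB_ext
    · rw [prodB1_desc, prodB1_desc, prodB1_desc, pr1_mul, P.act_mul]
    · rw [prodB2_desc, prodB2_desc, prodB2_desc, pr2_mul, Q.act_mul]
  act_comp b g f := by
    apply prodB_ext
    · rw [prodB1_desc, prodB1_desc_assoc, P.act_comp, Category.assoc, Category.assoc]
    · rw [prodB2_desc, prodB2_desc_assoc, Q.act_comp, Category.assoc, Category.assoc]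
  map_act {_ _} ψ {C} b g := by
    apply prodB_ext
    · rw [← Category.assoc, ← (prodB1 P Q).naturality, Category.assoc, prodB1_desc, prodB1_desc,
        P.map_act, ← Category.assoc, ← Category.assoc, (prodB1 P Q).naturality]
    · rw [← Category.assoc, ← (prodB2 P Q).naturality, Category.assoc, prodB2_desc, prodB2_desc,
        Q.map_act, ← Category.assoc, ← Category.assoc, (prodB2 P Q).naturality]
  s_act b g := by
    rw [NatTrans.comp_app, Category.assoc, Category.assoc, prodB1_desc, P.s_act]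
  trans b b' hb := by
    rw [NatTrans.comp_app, Category.assoc, Category.assoc] at hb
    have hb' := hb
    rw [prod_cond, prod_cond] at hb'
    obtain ⟨g, hg, hgu⟩ := P.trans _ _ hb
    obtain ⟨g', hg', hgu'⟩ := Q.trans _ _ hb'
    refine ⟨pair g g', ?_, ?_⟩
    · apply prodB_ext
      · rw [prodB1_desc, pr1_pair, hg]
      · rw [prodB2_desc, pr2_pair, hg']
    · intro k hk
      apply pair_ext
      · rw [pr1_pair]
        apply hgu
        rw [← hk, prodB1_desc]
      · rw [pr2_pair]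
        apply hgu'
        rw [← hk, prodB2_desc]
  finite a := by
    have h1 : ((prodB1 P Q).app a).hom.toRingHom.Finite :=
      finite_inl_of_isPushout (IsPushout.of_hasPushout (P.s.app a) (Q.s.app a)) (Q.finite a)
    exact h1.comp (P.finite a)
  y t := prodDesc (P.y t) (Q.y t) (by rw [P.s_y, Q.s_y])
  s_y t := by
    rw [NatTrans.comp_app, Category.assoc, prodB1_desc, P.s_y]
  y_map τ := by
    apply prodB_ext
    · rw [prodB1_desc_assoc, P.y_map, ← Category.assoc, ← (prodB1 P Q).naturality,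
        Category.assoc, prodB1_desc]
    · rw [prodB2_desc_assoc, Q.y_map, ← Category.assoc, ← (prodB2 P Q).naturality,
        Category.assoc, prodB2_desc]

/-- Products. -/
theorem PTors.exists_prod (P Q : PTors v) : ∃ (R : PTors v), Nonempty (PHom R P) ∧
    Nonempty (PHom R Q) := by
  refine ⟨P.prod Q, ⟨?_⟩, ⟨?_⟩⟩
  · exact
      { h := pr1 P.G Q.G
        f := prodB1 P Q
        h_mul := fun g g' ↦ pr1_mul g g'
        s_f := fun a ↦ rfl
        f_act := fun b g ↦ prodB1_desc _ _ _
        f_y := fun t ↦ prodB1_desc _ _ _ }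
  · exact
      { h := pr2 P.G Q.G
        f := prodB2 P Q
        h_mul := fun g g' ↦ pr2_mul g g'
        s_f := fun a ↦ (prodB_cond P Q a).symm
        f_act := fun b g ↦ prodB2_desc _ _ _
        f_y := fun t ↦ prodB2_desc _ _ _ }

end prod

end Pool.Agent.H27
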