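import Pool.Agent.H27.Const
import Pool.Agent.H27.Limit

/-!
# Virtual points

A virtual point is a diagram `Y` of `κ`-algebras which behaves like a geometrically connected and
simply connected proper scheme over `κ` with `H⁰ = κ`.
-/

open CategoryTheory Limits Bicategory
open scoped TensorProduct

namespace Pool.Agent.H27

variable {κ : Type} [Field κ] {T : Type} [Category.{0} T]

/-- `Y` is nonempty and universally satisfies `H⁰ = κ`. -/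
structure IsConnectedDiagram (Y : T ⥤ Alg κ) : Prop where
  nonempty : Nonempty T
  nontrivial : ∀ t, Nontrivial (Y.obj t)
  const : ∀ (Y' : T ⥤ Alg κ) (k : Y ⟶ Y') (C : Alg κ) (e : ∀ t, C ⟶ Y'.obj t),
    (∀ (t t' : T) (τ : t ⟶ t'), e t ≫ Y'.map τ = e t') → (∀ t, IsCoprod (k.app t) (e t)) →
    ∀ (D : Alg κ) (d : ∀ t, D ⟶ Y'.obj t), (∀ (t t' : T) (τ : t ⟶ t'), d t ≫ Y'.map τ = d t') →
      ∃ d₀ : D ⟶ C, ∀ t, d₀ ≫ e t = d t

/-- Every family of objects of `Γ` over `Y` is constant. -/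
def IsConstOn (Y : T ⥤ Alg κ) (Γ : BasedCategory.{0, 1} (Alg κ)) : Prop :=
  ∀ (y : T ⥤ Γ.obj) (_ : y ⋙ Γ.p ≅ Y), ∃ (ξ : Γ.obj) (_ : Γ.p.obj ξ = CommAlgCat.of κ κ)
    (θ : ∀ t, ξ ⟶ y.obj t), ∀ (t t' : T) (τ : t ⟶ t'), θ t ≫ y.map τ = θ t'

/-- Coproducts exist in `Γ`. -/
def HasCoprods (Γ : BasedCategory.{0, 1} (Alg κ)) : Prop :=
  ∀ x y : Γ.obj, ∃ (z : Γ.obj) (i : x ⟶ z) (j : y ⟶ z), IsCoprod i j

lemma IsConnectedDiagram.of_iso {Y Y' : T ⥤ Alg κ} (hY : IsConnectedDiagram Y) (e : Y ≅ Y') :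
    IsConnectedDiagram Y' where
  nonempty := hY.nonempty
  nontrivial t := by
    have := hY.nontrivial t
    exact (CommAlgCat.algEquivOfIso (e.app t)).symm.toRingEquiv.toEquiv.nontrivial
  const Y'' k C e' he' hk D d hd := by
    refine hY.const Y'' (e.hom ≫ k) C e' he' (fun t ↦ ?_) D d hd
    intro D' a b
    refine ⟨(hk t).desc (e.inv.app t ≫ a) b, by simp, ?_⟩
    rintro c ⟨h₁, h₂⟩
    refine (hk t).hom_ext ?_ (by simpa using h₂)
    rw [IsCoprod.left_desc, ← h₁]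
    simp

lemma isCoprod_structMap (A : Alg κ) : IsCoprod (𝟙 A) (structMap A) := by
  intro D a b
  refine ⟨a, ⟨by simp, structMap_unique _ _⟩, ?_⟩
  rintro c ⟨h₁, -⟩
  simpa using h₁

lemma isIso_of_eq_of_eq {A B : Alg κ} (hA : A = CommAlgCat.of κ κ) (hB : Nonempty (B ≅ CommAlgCat.of κ κ))
    (f : A ⟶ B) : IsIso f := by
  subst hA
  obtain ⟨e⟩ := hB
  refine ⟨e.hom, structMap_unique _ _, ?_⟩
  rw [← cancel_epi e.inv]
  exact structMap_unique _ _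

variable {Γ : BasedCategory.{0, 1} (Alg κ)}

lemma ff_of_eq {A C : Alg κ} (h : A = CommAlgCat.of κ κ) (hC : Nontrivial C) (f : A ⟶ C) :
    f.hom.toRingHom.FaithfullyFlat := by
  subst h
  have : Module.FaithfullyFlat κ C := inferInstance
  have h := (RingHom.faithfullyFlat_algebraMap_iff (R := κ) (S := C)).2 this
  rwa [structMap_unique f (structMap C)]

/-- Arrows between constant families descend. -/
theorem IsConnectedDiagram.hom_descent (hΓ : IsStack Γ) (hΓc : HasCoprods Γ) {y : T ⥤ Γ.obj}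
    (hy : IsConnectedDiagram (y ⋙ Γ.p)) {ξ ξ' : Γ.obj} (hξ : Γ.p.obj ξ = CommAlgCat.of κ κ)
    (hξ' : Γ.p.obj ξ' = CommAlgCat.of κ κ) (θ : ∀ t, ξ ⟶ y.obj t) (θ' : ∀ t, ξ' ⟶ y.obj t)
    (hθ : ∀ (t t' : T) (τ : t ⟶ t'), θ t ≫ y.map τ = θ t')
    (hθ' : ∀ (t t' : T) (τ : t ⟶ t'), θ' t ≫ y.map τ = θ' t') :
    ∃! χ : ξ ⟶ ξ', ∀ t, χ ≫ θ' t = θ t := by
  have hc := hΓ.toIsCofiberedInGroupoids
  obtain ⟨t₀⟩ := hy.nonempty
  obtain ⟨z, i, j, hz⟩ := hΓc ξ ξ'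
  let r : ∀ t, z ⟶ y.obj t := fun t ↦ hz.desc (θ t) (θ' t)
  have hr : ∀ (t t' : T) (τ : t ⟶ t'), r t ≫ y.map τ = r t' := by
    intro t t' τ
    refine hz.hom_ext ?_ ?_
    · rw [← Category.assoc, hz.left_desc, hz.left_desc, hθ]
    · rw [← Category.assoc, hz.right_desc, hz.right_desc, hθ']
  obtain ⟨d₀, hd₀⟩ := hy.const (y ⋙ Γ.p) (𝟙 _) (CommAlgCat.of κ κ) (fun t ↦ structMap _)
    (fun _ _ _ ↦ structMap_unique _ _) (fun t ↦ isCoprod_structMap _) (Γ.p.obj z)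
    (fun t ↦ Γ.p.map (r t)) (fun t t' τ ↦ by
      dsimp
      rw [← Γ.p.map_comp, hr])
  obtain ⟨ρ, q, e, hqe⟩ := hc.exists_push' z d₀
  let r' : ∀ t, ρ ⟶ y.obj t := fun t ↦ hc.desc q (r t) (e.hom ≫ structMap _) (by
    rw [← Category.assoc, hqe]
    exact hd₀ t)
  have hqr' : ∀ t, q ≫ r' t = r t := fun t ↦ hc.fac_desc _ _ _ _
  have h₁ : IsIso (Γ.p.map (i ≫ q)) := isIso_of_eq_of_eq hξ ⟨e⟩ _
  have h₂ : IsIso (Γ.p.map (j ≫ q)) := isIso_of_eq_of_eq hξ' ⟨e⟩ _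
  have h₁' : IsIso (i ≫ q) := hc.isIso_of_isIso _
  have h₂' : IsIso (j ≫ q) := hc.isIso_of_isIso _
  refine ⟨(i ≫ q) ≫ inv (j ≫ q), fun t ↦ ?_, fun χ hχ ↦ ?_⟩
  · have e₁ : (i ≫ q) ≫ r' t = θ t := by
      rw [Category.assoc, hqr', hz.left_desc]
    have e₂ : (j ≫ q) ≫ r' t = θ' t := by
      rw [Category.assoc, hqr', hz.right_desc]
    rw [← e₁, ← e₂, Category.assoc, IsIso.inv_hom_id_assoc]
  · apply hΓ.mono_of_ff (θ' t₀) (ff_of_eq hξ' (hy.nontrivial t₀) _)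
    rw [hχ]
    have e₁ : (i ≫ q) ≫ r' t₀ = θ t₀ := by
      rw [Category.assoc, hqr', hz.left_desc]
    have e₂ : (j ≫ q) ≫ r' t₀ = θ' t₀ := by
      rw [Category.assoc, hqr', hz.right_desc]
    rw [← e₁, ← e₂, Category.assoc (i ≫ q), IsIso.inv_hom_id_assoc]

section PLim

variable {J : Type} [SmallCategory J]
  (F : LocallyDiscrete J ⥤ᵖ BasedCategory.{0, 1} (Alg κ))

/-- The `j`-th component of a family of objects of `PLim F`. -/
abbrev compAt (x : T ⥤ LimObj F) (j : J) : T ⥤ (F.obj ⟨j⟩).obj where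
  obj t := (x.obj t).obj j
  map τ := (x.map τ).hom j
  map_id t := by
    rw [x.map_id]
    rfl
  map_comp τ τ' := by
    rw [x.map_comp]
    rfl

/-- The base of the `j`-th component. -/
def compAtIso (x : T ⥤ LimObj F) (j : J) :
    compAt F x j ⋙ (F.obj ⟨j⟩).p ≅ x ⋙ (PLim F).p :=
  NatIso.ofComponents (fun t ↦ eqToIso ((x.obj t).obj_base j)) (by
    intro t t' τ
    have := (x.map τ).lift j
    have h := IsHomLift.commSq (F.obj ⟨j⟩).p (x.map τ).base ((x.map τ).hom j)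
    exact h.w)

lemma tr_comp_aux {𝒞 : Type*} [Category 𝒞] {a₀ a₁ a₂ a₃ b₀ b₁ b₂ b₃ : 𝒞} {A : a₀ ⟶ a₁}
    {u : a₁ ⟶ a₂} {v : a₂ ⟶ a₃} {A' : b₀ ⟶ b₁} {u' : b₁ ⟶ b₂} {v' : b₂ ⟶ b₃} {c : b₀ ⟶ b₃}
    {s₀ : a₀ ⟶ b₀} {s₁ : a₁ ⟶ b₁} {s₂ : a₂ ⟶ b₂} {s₃ : a₃ ⟶ b₃}
    (h₁ : c = A' ≫ u' ≫ v') (h₂ : s₀ ≫ A' = A ≫ s₁) (h₄ : v ≫ s₃ = s₂ ≫ v')
    (h₅ : u ≫ s₂ = s₁ ≫ u') : (A ≫ u ≫ v) ≫ s₃ = s₀ ≫ c := by
  rw [h₁, ← Category.assoc s₀, h₂, Category.assoc, Category.assoc, h₄, Category.assoc,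
    ← Category.assoc u, h₅, Category.assoc]

/-- A family of objects of `PLim F` over a virtual point gives rise to a `κ`-rational object. -/
theorem exists_limObj {Y : T ⥤ Alg κ} (hY : IsConnectedDiagram Y)
    (hF : ∀ j, IsStack (F.obj ⟨j⟩)) (hFc : ∀ j, HasCoprods (F.obj ⟨j⟩))
    (hFY : ∀ j, IsConstOn Y (F.obj ⟨j⟩))
    (x : T ⥤ LimObj F) (e : x ⋙ (PLim F).p ≅ Y) :
    ∃ x₀ : LimObj F, x₀.base = CommAlgCat.of κ κ := by
  have hY' : ∀ j, IsConnectedDiagram (compAt F x j ⋙ (F.obj ⟨j⟩).p) := fun j ↦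
    hY.of_iso ((compAtIso F x j) ≪≫ e).symm
  choose ξ hξ θ hθ using fun j ↦ hFY j (compAt F x j) ((compAtIso F x j) ≪≫ e)
  -- the transition maps
  have key : ∀ (i j : J) (f : i ⟶ j), ∃! χ : (trans F f).obj (ξ i) ⟶ ξ j,
      ∀ t, χ ≫ θ j t = (trans F f).map (θ i t) ≫ (x.obj t).tr f := by
    intro i j f
    refine (hY' j).hom_descent (hF j) (hFc j) ?_ (hξ j) _ (θ j) ?_ (hθ j)
    · rw [BasedFunctor.w_obj, hξ]
    · intro t t' τ
      have h₁ := (x.map τ).comm f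
      have h₂ : θ i t ≫ (x.map τ).hom i = θ i t' := hθ i t t' τ
      change (_ ≫ _) ≫ (x.map τ).hom j = _
      rw [Category.assoc, h₁, ← Category.assoc, ← Functor.map_comp, h₂]
  choose tr htr htr' using key
  refine ⟨{ base := CommAlgCat.of κ κ, obj := ξ, obj_base := hξ, tr := fun {i j} f ↦ tr i j f, tr_lift := ?_,
            tr_id := ?_, tr_comp := ?_ }, rfl⟩
  · intro i j f
    have h₁ : (F.obj ⟨j⟩).p.obj ((trans F f).obj (ξ i)) = CommAlgCat.of κ κ := by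
      rw [BasedFunctor.w_obj, hξ]
    exact IsHomLift.of_commsq _ _ _ h₁ (hξ j) (map_unique_of_eq h₁ _ _)
  · intro i
    symm
    apply htr'
    intro t
    dsimp only
    rw [(x.obj t).tr_id i]
    exact ((F.mapId ⟨i⟩).hom.toNatTrans.naturality (θ i t)).symm
  · intro i j k f g
    symm
    apply htr'
    intro t
    have h₁ := (x.obj t).tr_comp f g
    have h₂ := (F.mapComp f.toLoc g.toLoc).hom.toNatTrans.naturality (θ i t)
    have h₃ := htr i j f t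
    have h₄ := htr j k g t
    have h₅ : (trans F g).map (tr i j f) ≫ (trans F g).map (θ j t) =
        (trans F g).map ((trans F f).map (θ i t)) ≫ (trans F g).map ((x.obj t).tr f) := by
      rw [← Functor.map_comp, ← Functor.map_comp]
      exact congrArg _ h₃
    exact tr_comp_aux h₁ h₂ h₄ h₅

end PLim

end Pool.Agent.H27
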