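import Pool.Agent.H27.SubTors
import Pool.Agent.H27.Virtual
import Pool.Agent.H27.Sections

/-!
# Functions on a reduced pointed torsor are constant
-/

set_option linter.style.haveILetI false
set_option warn.classDefReducibility false
set_option linter.unusedVariables false

open CategoryTheory Limits

open scoped TensorProduct

namespace Pool.Agent.H27

variable {κ : Type} [Field κ] {𝒳 : BasedCategory.{0, 1} (Alg κ)} {T : Type} [Category.{0} T]
  {v : T ⥤ 𝒳.obj}

theorem FinGrp.one_comp (G : FinGrp κ) {C D : Alg κ} (f : C ⟶ D) :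
    (1 : G.H ⟶ C) ≫ f = 1 := by
  have h := G.mul_comp (1 : G.H ⟶ C) 1 f
  rw [mul_one] at h
  exact left_eq_mul.1 h

theorem FinGrp.inv_comp (G : FinGrp κ) {C D : Alg κ} (g : G.H ⟶ C) (f : C ⟶ D) :
    g⁻¹ ≫ f = (g ≫ f)⁻¹ := by
  rw [eq_inv_iff_mul_eq_one, ← G.mul_comp, inv_mul_cancel, G.one_comp]

namespace Sec

variable (hX : IsCofiberedInGroupoids 𝒳) (Ch : Charts v) (P : PTors v)

/-- The extension of a section on the atlas. -/
noncomputable def ext (f : Ch.sec P.B) (a : 𝒳.obj) : P.B.obj a :=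
  (Ch.existsUnique_section hX P.B P.s (fun ψ ↦ P.isPushout ψ) f).choose a

theorem ext_map (f : Ch.sec P.B) {a a' : 𝒳.obj} (ψ : a ⟶ a') :
    (P.B.map ψ).hom (ext hX Ch P f a) = ext hX Ch P f a' :=
  (Ch.existsUnique_section hX P.B P.s (fun ψ ↦ P.isPushout ψ) f).choose_spec.1.1 a a' ψ

theorem ext_u₀ (f : Ch.sec P.B) : ext hX Ch P f Ch.u₀ = f.1.1 :=
  (Ch.existsUnique_section hX P.B P.s (fun ψ ↦ P.isPushout ψ) f).choose_spec.1.2.1

theorem ext_u₁ (f : Ch.sec P.B) : ext hX Ch P f Ch.u₁ = f.1.2 :=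
  (Ch.existsUnique_section hX P.B P.s (fun ψ ↦ P.isPushout ψ) f).choose_spec.1.2.2

theorem ext_unique (f : Ch.sec P.B) (F : ∀ a, P.B.obj a)
    (h : ∀ (a a' : 𝒳.obj) (ψ : a ⟶ a'), (P.B.map ψ).hom (F a) = F a')
    (h0 : F Ch.u₀ = f.1.1) (h1 : F Ch.u₁ = f.1.2) (a : 𝒳.obj) : F a = ext hX Ch P f a :=
  congrFun ((Ch.existsUnique_section hX P.B P.s (fun ψ ↦ P.isPushout ψ) f).choose_spec.2 F
    ⟨h, h0, h1⟩) a

/-- The algebra of sections. -/
noncomputable def D : Alg κ := CommAlgCat.of κ (Ch.sec P.B)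

/-- Evaluation at `a`. -/
noncomputable def ev (a : 𝒳.obj) : D Ch P ⟶ P.B.obj a := CommAlgCat.ofHom
  { toFun := fun f : Ch.sec P.B ↦ ext hX Ch P f a
    map_one' := (ext_unique hX Ch P 1 (fun a ↦ 1) (fun a a' ψ ↦ map_one _) rfl rfl a).symm
    map_mul' := fun f g ↦ (ext_unique hX Ch P (f * g)
      (fun a ↦ ext hX Ch P f a * ext hX Ch P g a)
      (fun a a' ψ ↦ by rw [map_mul, ext_map, ext_map])
      (by rw [ext_u₀, ext_u₀]; rfl) (by rw [ext_u₁, ext_u₁]; rfl) a).symm
    map_zero' := (ext_unique hX Ch P 0 (fun a ↦ 0) (fun a a' ψ ↦ map_zero _) rfl rfl a).symm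
    map_add' := fun f g ↦ (ext_unique hX Ch P (f + g)
      (fun a ↦ ext hX Ch P f a + ext hX Ch P g a)
      (fun a a' ψ ↦ by rw [map_add, ext_map, ext_map])
      (by rw [ext_u₀, ext_u₀]; rfl) (by rw [ext_u₁, ext_u₁]; rfl) a).symm
    commutes' := fun r ↦ (ext_unique hX Ch P (algebraMap κ (Ch.sec P.B) r)
      (fun a ↦ algebraMap κ _ r) (fun a a' ψ ↦ (P.B.map ψ).hom.commutes r) rfl rfl a).symm }

theorem ev_map {a a' : 𝒳.obj} (ψ : a ⟶ a') : ev hX Ch P a ≫ P.B.map ψ = ev hX Ch P a' := by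
  ext f
  exact ext_map hX Ch P f ψ

theorem exists_of_natural (F : ∀ a, P.B.obj a)
    (h : ∀ (a a' : 𝒳.obj) (ψ : a ⟶ a'), (P.B.map ψ).hom (F a) = F a') :
    ∃ f : D Ch P, ∀ a, (ev hX Ch P a).hom f = F a := by
  refine ⟨(⟨(F Ch.u₀, F Ch.u₁), ?_⟩ : Ch.sec P.B), fun a ↦ ?_⟩
  · show (P.B.map Ch.j₀).hom (F Ch.u₀) = (P.B.map Ch.j₁).hom (F Ch.u₁)
    rw [h, h]
  · exact (ext_unique hX Ch P _ F h rfl rfl a).symm

/-- The universal translate. -/
noncomputable def U (a : 𝒳.obj) : P.B.obj a ⟶ tens (P.B.obj a) P.G.H :=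
  P.act (tinl _ _) (tinr _ _)

theorem act_eq {a : 𝒳.obj} {C : Alg κ} (b : P.B.obj a ⟶ C) (g : P.G.H ⟶ C) :
    P.act b g = U P a ≫ (isCoprod_tens _ _).desc b g := by
  rw [U, P.act_comp, IsCoprod.left_desc, IsCoprod.right_desc]

/-- A basis of the group algebra. -/
noncomputable def hb : Module.Basis (Fin (Module.finrank κ P.G.H)) κ P.G.H :=
  haveI := P.G.finite
  Module.finBasis κ P.G.H

/-- The coordinates of the translate of a function. -/
noncomputable def coord {a : 𝒳.obj} (x : tens (P.B.obj a) P.G.H)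
    (k : Fin (Module.finrank κ P.G.H)) : P.B.obj a :=
  (Algebra.TensorProduct.basis (P.B.obj a) (hb P)).repr x k

theorem tmul_aux {A B : Type} [CommRing A] [CommRing B] [Algebra κ A] [Algebra κ B] (x : A) (y : B) :
    (x ⊗ₜ[κ] (1 : B)) * ((1 : A) ⊗ₜ[κ] y) = x ⊗ₜ[κ] y := by
  rw [Algebra.TensorProduct.tmul_mul_tmul, one_mul, mul_one]

theorem basis_sum_aux {A B ι : Type} [Fintype ι] [CommRing A] [CommRing B] [Algebra κ A]
    [Algebra κ B] (b : Module.Basis ι κ B) (x : A ⊗[κ] B) :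
    ∑ k, (((Algebra.TensorProduct.basis A b).repr x k) ⊗ₜ[κ] (1 : B)) * ((1 : A) ⊗ₜ[κ] b k) =
      x := by
  have h := (Algebra.TensorProduct.basis A b).sum_repr x
  conv_rhs => rw [← h]
  apply Finset.sum_congr rfl
  intro k _
  rw [Algebra.TensorProduct.basis_apply, TensorProduct.smul_tmul', smul_eq_mul, mul_one, tmul_aux]

theorem basis_unique_aux {A B ι : Type} [Fintype ι] [CommRing A] [CommRing B] [Algebra κ A]
    [Algebra κ B] (b : Module.Basis ι κ B) (c c' : ι → A)
    (h : ∑ k, ((c k) ⊗ₜ[κ] (1 : B)) * ((1 : A) ⊗ₜ[κ] b k) =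
      ∑ k, ((c' k) ⊗ₜ[κ] (1 : B)) * ((1 : A) ⊗ₜ[κ] b k)) : c = c' := by
  classical
  have key : ∀ c : ι → A,
      ∑ k, ((c k) ⊗ₜ[κ] (1 : B)) * ((1 : A) ⊗ₜ[κ] b k) =
        ∑ k, c k • (Algebra.TensorProduct.basis A b) k := by
    intro c
    apply Finset.sum_congr rfl
    intro k _
    rw [Algebra.TensorProduct.basis_apply, TensorProduct.smul_tmul', smul_eq_mul, mul_one, tmul_aux]
  rw [key, key] at h
  have h2 := congrArg (Algebra.TensorProduct.basis A b).equivFun h
  have h3 : ∀ c : ι → A, (Algebra.TensorProduct.basis A b).equivFun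
        (∑ k, c k • (Algebra.TensorProduct.basis A b) k) = c := by
    intro c
    ext k
    rw [Module.Basis.equivFun_apply, Module.Basis.repr_sum_self]
  rw [h3, h3] at h2
  exact h2

theorem coord_sum {a : 𝒳.obj} (x : tens (P.B.obj a) P.G.H) :
    ∑ k, (tinl (P.B.obj a) P.G.H).hom (coord P x k) *
      (tinr (P.B.obj a) P.G.H).hom (hb P k) = x :=
  basis_sum_aux (A := P.B.obj a) (B := P.G.H) (hb P) x

theorem coord_unique {a : 𝒳.obj} (c c' : Fin (Module.finrank κ P.G.H) → P.B.obj a)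
    (h : ∑ k, (tinl (P.B.obj a) P.G.H).hom (c k) * (tinr (P.B.obj a) P.G.H).hom (hb P k) =
      ∑ k, (tinl (P.B.obj a) P.G.H).hom (c' k) * (tinr (P.B.obj a) P.G.H).hom (hb P k)) :
    c = c' :=
  basis_unique_aux (A := P.B.obj a) (B := P.G.H) (hb P) c c' h

variable {P}

/-- A section translated by the universal point: its coordinates are sections again. -/
theorem exists_co (f : D Ch P) : ∃ co : Fin (Module.finrank κ P.G.H) → D Ch P,
    ∀ a : 𝒳.obj, (U P a).hom ((ev hX Ch P a).hom f) =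
      ∑ k, (tinl (P.B.obj a) P.G.H).hom ((ev hX Ch P a).hom (co k)) *
        (tinr (P.B.obj a) P.G.H).hom (hb P k) := by
  -- the coordinates form natural families
  have hnat : ∀ (k : Fin (Module.finrank κ P.G.H)) (a a' : 𝒳.obj) (ψ : a ⟶ a'),
      (P.B.map ψ).hom (coord P ((U P a).hom ((ev hX Ch P a).hom f)) k) =
        coord P ((U P a').hom ((ev hX Ch P a').hom f)) k := by
    intro k a a' ψ
    let M : tens (P.B.obj a) P.G.H ⟶ tens (P.B.obj a') P.G.H :=
      (isCoprod_tens _ _).desc (P.B.map ψ ≫ tinl _ _) (tinr _ _)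
    have hM : U P a ≫ M = P.B.map ψ ≫ U P a' := by
      rw [U, P.act_comp, U, P.map_act, IsCoprod.left_desc, IsCoprod.right_desc]
    have hMl' : tinl (P.B.obj a) P.G.H ≫ M = P.B.map ψ ≫ tinl _ _ :=
      IsCoprod.left_desc (isCoprod_tens _ _) _ _
    have hMr' : tinr (P.B.obj a) P.G.H ≫ M = tinr _ _ :=
      IsCoprod.right_desc (isCoprod_tens _ _) _ _
    have hMl : ∀ x : P.B.obj a,
        M.hom ((tinl _ _).hom x) = (tinl _ _).hom ((P.B.map ψ).hom x) := fun x ↦
      congrArg (fun g ↦ g.hom x) hMl'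
    have hMr : ∀ y : P.G.H, M.hom ((tinr _ _).hom y) = (tinr (P.B.obj a') P.G.H).hom y := fun y ↦
      congrArg (fun g ↦ g.hom y) hMr'
    have h1 : M.hom ((U P a).hom ((ev hX Ch P a).hom f)) =
        (U P a').hom ((ev hX Ch P a').hom f) := by
      have e1 := congrArg (fun g ↦ g.hom ((ev hX Ch P a).hom f)) hM
      have e2 : (P.B.map ψ).hom ((ev hX Ch P a).hom f) = (ev hX Ch P a').hom f :=
        congrArg (fun g ↦ g.hom f) (ev_map hX Ch P ψ)
      have e3 : M.hom ((U P a).hom ((ev hX Ch P a).hom f)) =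
        (U P a').hom ((P.B.map ψ).hom ((ev hX Ch P a).hom f)) := e1
      rw [e3, e2]
    have h2 := coord_sum P ((U P a).hom ((ev hX Ch P a).hom f))
    have h3 := coord_sum P ((U P a').hom ((ev hX Ch P a').hom f))
    have h4 : (fun k ↦ (P.B.map ψ).hom (coord P ((U P a).hom ((ev hX Ch P a).hom f)) k)) =
        fun k ↦ coord P ((U P a').hom ((ev hX Ch P a').hom f)) k := by
      apply coord_unique
      rw [h3, ← h1]
      conv_rhs => rw [← h2]
      rw [map_sum]
      apply Finset.sum_congr rfl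
      intro k _
      rw [map_mul, hMl, hMr]
    exact congrFun h4 k
  choose co hco using fun k ↦ exists_of_natural hX Ch P _ (hnat k)
  refine ⟨co, fun a ↦ ?_⟩
  conv_lhs => rw [← coord_sum P ((U P a).hom ((ev hX Ch P a).hom f))]
  apply Finset.sum_congr rfl
  intro k _
  rw [hco]

/-- The coordinates of the translate of a section. -/
noncomputable def co (f : D Ch P) (k : Fin (Module.finrank κ P.G.H)) : D Ch P :=
  (exists_co hX Ch f).choose k

theorem act_ev (f : D Ch P) {a : 𝒳.obj} {C : Alg κ} (b : P.B.obj a ⟶ C) (g : P.G.H ⟶ C) :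
    (P.act b g).hom ((ev hX Ch P a).hom f) =
      ∑ k, b.hom ((ev hX Ch P a).hom (co hX Ch f k)) * g.hom (hb P k) := by
  rw [act_eq]
  show ((isCoprod_tens _ _).desc b g).hom ((U P a).hom ((ev hX Ch P a).hom f)) = _
  rw [(exists_co hX Ch f).choose_spec a, map_sum]
  apply Finset.sum_congr rfl
  intro k _
  have h2 : ∀ x, ((isCoprod_tens _ _).desc b g).hom ((tinl _ _).hom x) = b.hom x := fun x ↦
    congrArg (fun g ↦ g.hom x) (IsCoprod.left_desc (isCoprod_tens _ _) b g)
  have h3 : ∀ y, ((isCoprod_tens _ _).desc b g).hom ((tinr _ _).hom y) = g.hom y := fun y ↦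
    congrArg (fun g ↦ g.hom y) (IsCoprod.right_desc (isCoprod_tens _ _) b g)
  rw [map_mul, h2, h3]
  rfl

/-- The ideal of a family of conditions. -/
theorem kills_span {A C : Alg κ} {ι : Type} (x : ι → A) (b : A ⟶ C) :
    Kills (Ideal.span (Set.range x)) b ↔ ∀ i, b.hom (x i) = 0 := by
  constructor
  · intro h i
    exact h _ (Ideal.subset_span ⟨i, rfl⟩)
  · intro h
    have h1 : Ideal.span (Set.range x) ≤ RingHom.ker b.hom.toRingHom := by
      apply Ideal.span_le.2
      rintro _ ⟨i, rfl⟩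
      exact h i
    intro y hy
    exact h1 hy

section const

variable (c : D Ch P ⟶ CommAlgCat.of κ κ)

/-- The ideal of the closed subscheme where all sections are constant. -/
def constI (a : 𝒳.obj) : Ideal (P.B.obj a) :=
  Ideal.span (Set.range fun f : D Ch P ↦
    (ev hX Ch P a).hom f - algebraMap κ (P.B.obj a) (c.hom f))

/-- The ideal of its stabilizer. -/
noncomputable def constH : Ideal P.G.H :=
  Ideal.span (Set.range fun f : D Ch P ↦
    (∑ k, algebraMap κ P.G.H (c.hom (co hX Ch f k)) * hb P k) - algebraMap κ P.G.H (c.hom f))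

theorem kills_constI {a : 𝒳.obj} {C : Alg κ} (b : P.B.obj a ⟶ C) :
    Kills (constI hX Ch c a) b ↔
      ∀ f : D Ch P, b.hom ((ev hX Ch P a).hom f) = algebraMap κ C (c.hom f) := by
  rw [constI, kills_span]
  apply forall_congr'
  intro f
  rw [map_sub, sub_eq_zero, b.hom.commutes]

theorem kills_constH {C : Alg κ} (g : P.G.H ⟶ C) :
    Kills (constH hX Ch c) g ↔
      ∀ f : D Ch P, ∑ k, algebraMap κ C (c.hom (co hX Ch f k)) * g.hom (hb P k) =
        algebraMap κ C (c.hom f) := by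
  rw [constH, kills_span]
  apply forall_congr'
  intro f
  rw [map_sub, sub_eq_zero, g.hom.commutes, map_sum]
  simp only [map_mul, g.hom.commutes]

/-- The key equivalence. -/
theorem kills_act_iff {a : 𝒳.obj} {C : Alg κ} (b : P.B.obj a ⟶ C) (g : P.G.H ⟶ C)
    (hb : Kills (constI hX Ch c a) b) :
    Kills (constI hX Ch c a) (P.act b g) ↔ Kills (constH hX Ch c) g := by
  rw [kills_constI] at hb ⊢
  rw [kills_constH]
  apply forall_congr'
  intro f
  rw [act_ev]
  simp only [hb]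

variable (hy : ∀ t : T, ∀ f : D Ch P,
  (P.y t).hom ((ev hX Ch P (v.obj t)).hom f) = algebraMap κ _ (c.hom f))

include hy

/-- The base point with values in an extension of `C`. -/
theorem kills_base (t : T) (C : Alg κ) :
    Kills (constI hX Ch c (v.obj t)) (P.y t ≫ tinl (𝒳.p.obj (v.obj t)) C) := by
  rw [kills_constI]
  intro f
  show (tinl (𝒳.p.obj (v.obj t)) C).hom ((P.y t).hom ((ev hX Ch P (v.obj t)).hom f)) = _
  rw [hy]
  exact (tinl (𝒳.p.obj (v.obj t)) C).hom.commutes _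

omit hy in
theorem kills_ext (t : T) (ht : Nontrivial (𝒳.p.obj (v.obj t))) {C : Alg κ} (I : Ideal P.G.H)
    (g : P.G.H ⟶ C) : Kills I g ↔ Kills I (g ≫ tinr (𝒳.p.obj (v.obj t)) C) := by
  constructor
  · intro h
    exact h.comp _
  · intro h x hx
    have hinj : Function.Injective (tinr (𝒳.p.obj (v.obj t)) C).hom :=
      ((isCoprod_tens (𝒳.p.obj (v.obj t)) C).ff_right ht).injective
    apply hinj
    rw [map_zero]
    exact h x hx

/-- The closed sub-pretorsor where all sections are constant. -/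
noncomputable def constSub (t : T) (ht : Nontrivial (𝒳.p.obj (v.obj t))) : SubData P where
  IH := constH hX Ch c
  I := constI hX Ch c
  one_mem C := by
    rw [kills_ext t ht, P.G.one_comp, ← kills_act_iff hX Ch c _ _ (kills_base hX Ch c hy t C),
      P.act_one]
    exact kills_base hX Ch c hy t C
  mul_mem {C} g g' hg hg' := by
    rw [kills_ext t ht] at hg hg' ⊢
    rw [P.G.mul_comp, ← kills_act_iff hX Ch c _ _ (kills_base hX Ch c hy t C), P.act_mul]
    have h1 := (kills_act_iff hX Ch c _ _ (kills_base hX Ch c hy t C)).2 hg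
    exact (kills_act_iff hX Ch c _ _ h1).2 hg'
  inv_mem {C} g hg := by
    rw [kills_ext t ht] at hg ⊢
    have h1 := (kills_act_iff hX Ch c _ _ (kills_base hX Ch c hy t C)).2 hg
    rw [P.G.inv_comp, ← kills_act_iff hX Ch c _ _ h1, ← P.act_mul, mul_inv_cancel, P.act_one]
    exact kills_base hX Ch c hy t C
  map_mem {a a'} ψ {C} b := by
    rw [kills_constI, kills_constI]
    apply forall_congr'
    intro f
    have h1 : (P.B.map ψ).hom ((ev hX Ch P a).hom f) = (ev hX Ch P a').hom f :=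
      congrArg (fun g ↦ g.hom f) (ev_map hX Ch P ψ)
    rw [← h1]
    rfl
  act_mem b g hb hg := (kills_act_iff hX Ch c b g hb).2 hg
  trans_mem b g hb hbg := (kills_act_iff hX Ch c b g hb).1 hbg
  y_mem t := by
    rw [kills_constI]
    exact hy t

end const

end Sec

/-- On a reduced pointed torsor all functions are constant. -/
theorem PTors.IsReduced.exists_const (hX : IsCofiberedInGroupoids 𝒳) (Ch : Charts v)
    (hv : IsConnectedDiagram (v ⋙ 𝒳.p)) {P : PTors v} (hP : P.IsReduced) (f : Ch.sec P.B) :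
    ∃ c : κ, f = algebraMap κ _ c := by
  obtain ⟨c, hc⟩ := hv.const (v ⋙ 𝒳.p) (𝟙 _) (CommAlgCat.of κ κ) (fun t ↦ structMap _)
    (fun _ _ _ ↦ structMap_unique _ _) (fun t ↦ isCoprod_structMap _) (Sec.D Ch P)
    (fun t ↦ Sec.ev hX Ch P (v.obj t) ≫ P.y t) (by
      intro t t' τ
      show (Sec.ev hX Ch P (v.obj t) ≫ P.y t) ≫ 𝒳.p.map (v.map τ) = _
      rw [Category.assoc, P.y_map, ← Category.assoc, Sec.ev_map])
  have hy : ∀ t : T, ∀ f : Sec.D Ch P,
      (P.y t).hom ((Sec.ev hX Ch P (v.obj t)).hom f) = algebraMap κ _ (c.hom f) := by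
    intro t f
    have h1 := congrArg (fun g ↦ g.hom f) (hc t)
    exact h1.symm
  obtain ⟨t⟩ := hv.nonempty
  let S := Sec.constSub hX Ch c hy t (hv.nontrivial t)
  have hinj : Function.Injective S.incl.h.hom :=
    hP S.sub S.incl S.πH_surjective S.proj_surjective
  have hbij := PHom.bijective_of_bijective hX Ch S.incl ⟨hinj, S.πH_surjective⟩
  have key : ∀ a : 𝒳.obj, (Sec.ev hX Ch P a).hom f = algebraMap κ (P.B.obj a) (c.hom f) := by
    intro a
    apply (hbij a).1
    have h1 : Kills (S.I a) (S.proj.app a) := quoπ_kills _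
    have h2 : ∀ f : Sec.D Ch P,
        (S.proj.app a).hom ((Sec.ev hX Ch P a).hom f) = algebraMap κ _ (c.hom f) :=
      (Sec.kills_constI hX Ch c _).1 h1
    have h3 : (S.proj.app a).hom (algebraMap κ (P.B.obj a) (c.hom f)) =
      algebraMap κ _ (c.hom f) := (S.proj.app a).hom.commutes _
    exact (h2 f).trans h3.symm
  refine ⟨c.hom f, ?_⟩
  apply Subtype.ext
  apply Prod.ext
  · rw [← Sec.ext_u₀ hX Ch P f]
    exact key Ch.u₀
  · rw [← Sec.ext_u₁ hX Ch P f]
    exact key Ch.u₁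

end Pool.Agent.H27
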