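import Pool.Agent.H27.TorsorDefs
import Pool.Agent.H27.Const

/-!
# Trivial families of torsors
-/

open CategoryTheory Limits
open scoped TensorProduct

namespace Pool.Agent.H27

variable {κ : Type} [Field κ] {I : Type} [Preorder I]

/-- Descent of maps of algebras along a faithfully flat map. -/
lemma ff_descent {A B D : Alg κ} (f : A ⟶ B) (hf : f.hom.toRingHom.FaithfullyFlat) (d : D ⟶ B)
    (hd : ∀ (C : Alg κ) (a b : B ⟶ C), f ≫ a = f ≫ b → d ≫ a = d ≫ b) :
    ∃ d₀ : D ⟶ A, d₀ ≫ f = d := by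
  let _ : Algebra A B := f.hom.toRingHom.toAlgebra
  have _ : IsScalarTower κ A B := IsScalarTower.of_algebraMap_eq' (f.hom.comp_algebraMap).symm
  have _ : Module.FaithfullyFlat A B := hf
  let C : Alg κ := CommAlgCat.of κ (B ⊗[A] B)
  let a : B ⟶ C := CommAlgCat.ofHom
    ((Algebra.TensorProduct.includeLeft : B →ₐ[A] B ⊗[A] B).restrictScalars κ)
  let b : B ⟶ C := CommAlgCat.ofHom
    ((Algebra.TensorProduct.includeRight : B →ₐ[A] B ⊗[A] B).restrictScalars κ)
  have hab : f ≫ a = f ≫ b := by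
    ext x
    exact (Algebra.TensorProduct.includeLeft : B →ₐ[A] B ⊗[A] B).commutes x |>.trans
      ((Algebra.TensorProduct.includeRight : B →ₐ[A] B ⊗[A] B).commutes x).symm
  have h := hd C a b hab
  have hr : ∀ x : D, ∃ y : A, f.hom y = d.hom x := by
    intro x
    have h1 : (d.hom x : B) ⊗ₜ[A] (1 : B) = (1 : B) ⊗ₜ[A] (d.hom x : B) := congr(($h).hom x)
    have h2 := (Algebra.IsEffective.of_faithfullyFlat A B (d.hom x)).1 (by simp [h1])
    exact h2
  have hinj : Function.Injective f.hom := hf.injective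
  choose g hg using hr
  refine ⟨CommAlgCat.ofHom
    { toFun := g
      map_one' := by apply hinj; rw [hg]; simp
      map_mul' := fun x y ↦ by apply hinj; rw [hg]; simp [hg]
      map_zero' := by apply hinj; rw [hg]; simp
      map_add' := fun x y ↦ by apply hinj; rw [hg]; simp [hg]
      commutes' := fun r ↦ by apply hinj; rw [hg]; simp }, ?_⟩
  ext x
  exact hg x

section

variable (G : GrpDiag κ I)

lemma GrpDiag.one_comp' (i : I) {C D : Alg κ} (f : C ⟶ D) :
    (1 : G.H.obj i ⟶ C) ≫ f = 1 := by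
  have h := G.mul_comp i 1 1 f
  rw [mul_one] at h
  exact left_eq_mul.1 h

lemma GrpDiag.comp_one {i j : I} (t : i ⟶ j) (C : Alg κ) :
    G.H.map t ≫ (1 : G.H.obj j ⟶ C) = 1 := by
  have h := G.comp_mul t (C := C) 1 1
  rw [mul_one] at h
  exact left_eq_mul.1 h

lemma GrpDiag.inv_comp (i : I) {C D : Alg κ} (a : G.H.obj i ⟶ C) (f : C ⟶ D) :
    a⁻¹ ≫ f = (a ≫ f)⁻¹ := by
  rw [eq_inv_iff_mul_eq_one, ← G.mul_comp, inv_mul_cancel, G.one_comp']

lemma GrpDiag.nontrivial (i : I) : Nontrivial (G.H.obj i) :=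
  (1 : G.H.obj i ⟶ CommAlgCat.of κ κ).hom.toRingHom.domain_nontrivial

/-- The trivial family of torsors, over `κ` itself. -/
def trivTors : Tors G where
  base := CommAlgCat.of κ κ
  B := G.H
  s _ := structMap _
  s_comp _ := structMap_unique _ _
  act _ _ b g := b * g
  act_one _ _ b := mul_one b
  act_mul _ _ b g g' := (mul_assoc b g g').symm
  act_comp i _ _ b g f := G.mul_comp i b g f
  comp_act t _ b g := G.comp_mul t b g
  s_act _ _ _ _ := structMap_unique _ _
  trans _ _ b b' _ := ⟨b⁻¹ * b', by simp, by rintro g rfl; simp⟩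
  ff i := by
    have := G.nontrivial i
    have : Module.FaithfullyFlat κ (G.H.obj i) := inferInstance
    exact (RingHom.faithfullyFlat_algebraMap_iff (R := κ) (S := G.H.obj i)).2 this

end

variable {G : GrpDiag κ I}

/-- The coordinates attached to an arrow from `trivTors G`. -/
def coord {z : Tors G} (a : trivTors G ⟶ z) (i : I) : G.H.obj i ⟶ z.B.obj i :=
  (TorsHom.hom a).app i

lemma coord_equi {z : Tors G} (a : trivTors G ⟶ z) (i : I) {C : Alg κ} (b : z.B.obj i ⟶ C)
    (g : G.H.obj i ⟶ C) : coord a i ≫ z.act i b g = (coord a i ≫ b) * g :=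
  TorsHom.equi a i b g

lemma coord_nat {z : Tors G} (a : trivTors G ⟶ z) {i j : I} (t : i ⟶ j) :
    coord a i ≫ z.B.map t = G.H.map t ≫ coord a j :=
  ((TorsHom.hom a).naturality t).symm

lemma coord_comp {z z' : Tors G} (a : trivTors G ⟶ z) (f : z ⟶ z') (i : I) :
    coord (a ≫ f) i = coord a i ≫ (TorsHom.hom f).app i := rfl

/-- Two points of a trivialised torsor with the same image and the same coordinate are equal. -/
lemma pt_ext {z : Tors G} (a : trivTors G ⟶ z) (i : I) {C : Alg κ} {b b' : z.B.obj i ⟶ C}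
    (h : z.s i ≫ b = z.s i ≫ b') (h' : coord a i ≫ b = coord a i ≫ b') :
    b = b' := by
  obtain ⟨g, hg, -⟩ := z.trans i b b' h
  rw [← hg, coord_equi, left_eq_mul] at h'
  rw [← hg, h', z.act_one]

/-- The point with a given image and a given coordinate. -/
lemma exists_pt {z : Tors G} (a : trivTors G ⟶ z) (i : I) {C : Alg κ} (b : z.B.obj i ⟶ C)
    (g : G.H.obj i ⟶ C) : ∃ b' : z.B.obj i ⟶ C, z.s i ≫ b' = z.s i ≫ b ∧ coord a i ≫ b' = g :=
  ⟨z.act i b ((coord a i ≫ b)⁻¹ * g), z.s_act _ _ _, by rw [coord_equi]; simp⟩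

/-- An arrow from `trivTors G` to `z` gives a section of every torsor of the family. -/
lemma exists_section {z : Tors G} (a : trivTors G ⟶ z) (i : I) :
    ∃ e : z.B.obj i ⟶ z.base, z.s i ≫ e = 𝟙 _ ∧ coord a i ≫ e = 1 := by
  obtain ⟨b, hb, hb'⟩ := exists_pt a i (𝟙 _) 1
  obtain ⟨e, he⟩ := ff_descent (z.s i) (z.ff i) b (by
    intro C p q hpq
    apply pt_ext a i
    · rw [← Category.assoc, hb, ← Category.assoc, hb]
      simpa using hpq
    · rw [← Category.assoc, hb', ← Category.assoc, hb', G.one_comp', G.one_comp'])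
  refine ⟨e, ?_, ?_⟩
  · apply mono_of_ff' (z.ff i)
    rw [Category.assoc, he, hb]
    simp
  · apply mono_of_ff' (z.ff i)
    rw [Category.assoc, he, hb', G.one_comp']

/-- The section attached to a trivialisation. -/
noncomputable def unitPt {z : Tors G} (a : trivTors G ⟶ z) (i : I) : z.B.obj i ⟶ z.base :=
  (exists_section a i).choose

@[reassoc (attr := simp)]
lemma s_unitPt {z : Tors G} (a : trivTors G ⟶ z) (i : I) : z.s i ≫ unitPt a i = 𝟙 _ :=
  (exists_section a i).choose_spec.1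

lemma coord_unitPt {z : Tors G} (a : trivTors G ⟶ z) (i : I) : coord a i ≫ unitPt a i = 1 :=
  (exists_section a i).choose_spec.2

lemma map_unitPt {z : Tors G} (a : trivTors G ⟶ z) {i j : I} (t : i ⟶ j) :
    z.B.map t ≫ unitPt a j = unitPt a i := by
  apply pt_ext a i
  · rw [← Category.assoc, z.s_comp, s_unitPt, s_unitPt]
  · rw [← Category.assoc, coord_nat, Category.assoc, coord_unitPt, coord_unitPt, G.comp_one]

/-- The universal point of `z.B i`, in terms of the unit section and the coordinate. -/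
lemma act_unitPt {z : Tors G} (a : trivTors G ⟶ z) (i : I) :
    z.act i (unitPt a i ≫ z.s i) (coord a i) = 𝟙 _ := by
  apply pt_ext a i
  · rw [z.s_act, s_unitPt_assoc, Category.comp_id]
  · rw [coord_equi, ← Category.assoc, coord_unitPt, G.one_comp', one_mul, Category.comp_id]

/-- Two trivialisations differ by points of the group schemes. -/
lemma coord_eq {z : Tors G} (a b : trivTors G ⟶ z) (i : I) :
    coord b i = ((coord b i ≫ unitPt a i) ≫ z.s i) * coord a i := by
  conv_lhs => rw [← Category.comp_id (coord b i), ← act_unitPt a i, coord_equi]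
  rw [Category.assoc]

/-- An arrow from a family of torsors to a trivialised one, given by a compatible family of
points. -/
def homOfPts {x z : Tors G} (a : trivTors G ⟶ z) (f : x.base ⟶ z.base)
    (b : ∀ i, x.B.obj i ⟶ z.base) (hb : ∀ i, x.s i ≫ b i = f)
    (hb' : ∀ {i j : I} (t : i ⟶ j), x.B.map t ≫ b j = b i) : x ⟶ z :=
  TorsHom.mk (base := f)
    (hom :=
      { app := fun i ↦ x.act i (b i ≫ z.s i) (coord a i)
        naturality := by
          intro i j t
          rw [x.comp_act, x.act_comp, ← coord_nat, ← Category.assoc, hb', Category.assoc,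
            z.s_comp] })
    (comm := by
      intro i
      dsimp
      rw [x.s_act, ← Category.assoc, hb])
    (equi := by
      intro i C c g
      dsimp
      rw [x.act_comp, Category.assoc, z.s_act, coord_equi, x.act_mul, x.act_comp, Category.assoc])

@[simp]
lemma homOfPts_base {x z : Tors G} (a : trivTors G ⟶ z) (f : x.base ⟶ z.base)
    (b : ∀ i, x.B.obj i ⟶ z.base) (hb : ∀ i, x.s i ≫ b i = f)
    (hb' : ∀ {i j : I} (t : i ⟶ j), x.B.map t ≫ b j = b i) :
    TorsHom.base (homOfPts a f b hb hb') = f := rfl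

lemma homOfPts_app {x z : Tors G} (a : trivTors G ⟶ z) (f : x.base ⟶ z.base)
    (b : ∀ i, x.B.obj i ⟶ z.base) (hb : ∀ i, x.s i ≫ b i = f)
    (hb' : ∀ {i j : I} (t : i ⟶ j), x.B.map t ≫ b j = b i) (i : I) :
    (TorsHom.hom (homOfPts a f b hb hb')).app i = x.act i (b i ≫ z.s i) (coord a i) := rfl

/-- If `i₀` is a maximum of the index set, points of the torsor with index `i₀` give arrows to a
trivialised family. -/
def homOfPt {i₀ : I} (h : ∀ i, i ≤ i₀) {x z : Tors G} (a : trivTors G ⟶ z)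
    (b : x.B.obj i₀ ⟶ z.base) : x ⟶ z :=
  homOfPts a (x.s i₀ ≫ b) (fun i ↦ x.B.map (homOfLE (h i)) ≫ b)
    (fun i ↦ by rw [← Category.assoc, x.s_comp])
    (fun t ↦ by rw [← Category.assoc, ← x.B.map_comp]; rfl)

@[simp]
lemma homOfPt_base {i₀ : I} (h : ∀ i, i ≤ i₀) {x z : Tors G} (a : trivTors G ⟶ z)
    (b : x.B.obj i₀ ⟶ z.base) : TorsHom.base (homOfPt h a b) = x.s i₀ ≫ b := rfl

lemma coord_homOfPt {i₀ : I} (h : ∀ i, i ≤ i₀) {z : Tors G} (a : trivTors G ⟶ z)
    (b : G.H.obj i₀ ⟶ z.base) (i : I) : coord (homOfPt (x := trivTors G) h a b) i =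
      ((G.H.map (homOfLE (h i)) ≫ b) ≫ z.s i) * coord a i := rfl

lemma comm' {x y : Tors G} (φ : x ⟶ y) (i : I) :
    TorsHom.base φ ≫ y.s i = x.s i ≫ (TorsHom.hom φ).app i := TorsHom.comm φ i

lemma tors_exists_desc (hc : IsCofiberedInGroupoids (TorsCat G)) {x y z : Tors G} (φ : x ⟶ y)
    (ψ : x ⟶ z) (g : y.base ⟶ z.base) (hg : TorsHom.base φ ≫ g = TorsHom.base ψ) :
    ∃! χ : y ⟶ z, TorsHom.base χ = g ∧ φ ≫ χ = ψ :=
  hc.exists_desc (x := x) (y := y) (z := z) φ ψ g hg

lemma tors_exists_push (hc : IsCofiberedInGroupoids (TorsCat G)) (x : Tors G) {B : Alg κ}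
    (f : x.base ⟶ B) : ∃ (y : Tors G) (φ : x ⟶ y) (e : y.base ≅ B),
      TorsHom.base φ ≫ e.hom = f :=
  hc.exists_push' (x : (TorsCat G).obj) f

lemma tors_hom_ext (hc : IsCofiberedInGroupoids (TorsCat G)) {x y z : Tors G} (φ : x ⟶ y)
    {a b : y ⟶ z} (h₁ : TorsHom.base a = TorsHom.base b) (h₂ : φ ≫ a = φ ≫ b) : a = b :=
  hc.hom_ext (x := x) (y := y) (z := z) φ h₁ h₂

lemma isCoprod_triv (hc : IsCofiberedInGroupoids (TorsCat G)) {i₀ : I} (h : ∀ i, i ≤ i₀)
    {ρ : Tors G} (i₁ : trivTors G ⟶ ρ) (e : ρ.base ≅ G.H.obj i₀) :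
    IsCoprod i₁ (homOfPt (x := trivTors G) h i₁ e.inv) := by
  intro z a b
  let g : G.H.obj i₀ ⟶ z.base := coord b i₀ ≫ unitPt a i₀
  have hg : ∀ i, coord b i ≫ unitPt a i = G.H.map (homOfLE (h i)) ≫ g := by
    intro i
    rw [← map_unitPt a (homOfLE (h i)), ← Category.assoc, coord_nat, Category.assoc]
  obtain ⟨c, ⟨hc₁, hc₂⟩, -⟩ := tors_exists_desc hc i₁ a (e.hom ≫ g) (structMap_unique _ _)
  have key : ∀ c' : ρ ⟶ z, i₁ ≫ c' = a → ∀ i, coord (homOfPt (x := trivTors G) h i₁ e.inv ≫ c') i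
      = ((G.H.map (homOfLE (h i)) ≫ e.inv ≫ TorsHom.base c') ≫ z.s i) * coord a i := by
    intro c' hc' i
    rw [coord_comp, coord_homOfPt, G.mul_comp, ← coord_comp, hc']
    simp only [Category.assoc]
    rw [comm']
  refine ⟨c, ⟨hc₂, ?_⟩, ?_⟩
  · apply TorsHom.ext
    · exact structMap_unique _ _
    · ext i : 2
      change coord (homOfPt (x := trivTors G) h i₁ e.inv ≫ c) i = coord b i
      rw [key c hc₂, coord_eq a b, hg, hc₁]
      simp
  · rintro c' ⟨hc₁', hc₂'⟩
    refine tors_hom_ext hc i₁ ?_ (hc₁'.trans hc₂.symm)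
    have h1 := key c' hc₁' i₀
    rw [hc₂', coord_eq a b, mul_left_inj] at h1
    have h2 := mono_of_ff' (z.ff i₀) h1
    have h3 : G.H.map (homOfLE (h i₀)) = 𝟙 _ := G.H.map_id i₀
    rw [h3, Category.id_comp] at h2
    rw [hc₁, ← Iso.inv_comp_eq, ← h2]

lemma finitePresentation_s (η : Tors G) (i : I) (hfin : Module.Finite κ (G.H.obj i)) :
    (η.s i).hom.toRingHom.FinitePresentation := by
  let A : Alg κ := η.base
  let B : Alg κ := η.B.obj i
  let H : Alg κ := G.H.obj i
  let s : A ⟶ B := η.s i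
  let _ : Algebra A B := s.hom.toRingHom.toAlgebra
  have _ : IsScalarTower κ A B := IsScalarTower.of_algebraMap_eq' (s.hom.comp_algebraMap).symm
  have _ : Module.FaithfullyFlat A B := η.ff i
  have _ : Module.Finite κ H := hfin
  let T : Alg κ := CommAlgCat.of κ (B ⊗[A] B)
  let a : B ⟶ T := CommAlgCat.ofHom
    ((Algebra.TensorProduct.includeLeft : B →ₐ[A] B ⊗[A] B).restrictScalars κ)
  let b : B ⟶ T := CommAlgCat.ofHom
    ((Algebra.TensorProduct.includeRight : B →ₐ[A] B ⊗[A] B).restrictScalars κ)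
  have hab : s ≫ a = s ≫ b := by
    ext x
    exact (Algebra.TensorProduct.includeLeft : B →ₐ[A] B ⊗[A] B).commutes x |>.trans
      ((Algebra.TensorProduct.includeRight : B →ₐ[A] B ⊗[A] B).commutes x).symm
  obtain ⟨g, hg, hg'⟩ := η.trans i a b hab
  let m : B ⟶ tens B H := η.act i (tinl B H) (tinr B H)
  have hm : s ≫ m = s ≫ tinl B H := η.s_act _ _ _
  let Ψ : B ⊗[A] B →ₐ[B] B ⊗[κ] H := Algebra.TensorProduct.lift (Algebra.ofId B (B ⊗[κ] H))
    { m.hom.toRingHom with
      commutes' := fun r ↦ congr(($hm).hom r) } (fun _ _ ↦ .all _ _)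
  let Ψ' : T ⟶ tens B H := CommAlgCat.ofHom (Ψ.restrictScalars κ)
  have hΨa : a ≫ Ψ' = tinl B H := by
    ext x
    change Ψ (x ⊗ₜ 1) = x ⊗ₜ 1
    simp [Ψ]
  have hΨb : b ≫ Ψ' = m := by
    ext x
    change Ψ (1 ⊗ₜ x) = m x
    rw [Algebra.TensorProduct.lift_tmul, map_one, one_mul]
    rfl
  let Φ' : tens B H ⟶ T := (isCoprod_tens B H).desc a g
  have h1 : Φ' ≫ Ψ' = 𝟙 _ := by
    apply (isCoprod_tens B H).hom_ext
    · rw [← Category.assoc, (isCoprod_tens B H).left_desc, hΨa, Category.comp_id]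
    · rw [← Category.assoc, (isCoprod_tens B H).right_desc, Category.comp_id]
      obtain ⟨g₁, -, hg₁⟩ := η.trans i (tinl B H) m hm.symm
      rw [hg₁ (tinr B H) rfl, hg₁ (g ≫ Ψ')]
      dsimp
      rw [← hΨa, ← η.act_comp, hg, hΨb]
  have h2 : ∀ t : T, Φ'.hom (Ψ'.hom t) = t := by
    intro t
    change ((Φ'.hom.comp Ψ'.hom) : B ⊗[A] B →ₐ[κ] B ⊗[A] B) t = t
    induction t using TensorProduct.induction_on with
    | zero => simp
    | add x y hx hy => rw [map_add, hx, hy]
    | tmul x y =>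
      have e1 : ((Φ'.hom.comp Ψ'.hom) : B ⊗[A] B →ₐ[κ] B ⊗[A] B) (x ⊗ₜ 1) = x ⊗ₜ 1 := by
        have : a ≫ Ψ' ≫ Φ' = a := by
          rw [← Category.assoc, hΨa, (isCoprod_tens B H).left_desc]
        exact congr(($this).hom x)
      have e2 : ((Φ'.hom.comp Ψ'.hom) : B ⊗[A] B →ₐ[κ] B ⊗[A] B) (1 ⊗ₜ y) = 1 ⊗ₜ y := by
        have : b ≫ Ψ' ≫ Φ' = b := by
          rw [← Category.assoc, hΨb, η.act_comp, (isCoprod_tens B H).left_desc,
            (isCoprod_tens B H).right_desc]
          exact hg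
        exact congr(($this).hom y)
      have : (x : B) ⊗ₜ[A] (y : B) = (x ⊗ₜ 1) * (1 ⊗ₜ y) := by simp
      rw [this, map_mul, e1, e2]
  have hbij : Function.Bijective Ψ := by
    refine Function.bijective_iff_has_inverse.2 ⟨Φ'.hom, h2, fun t ↦ ?_⟩
    exact congr(($h1).hom t)
  have : Algebra.FinitePresentation κ H := Algebra.FinitePresentation.of_finiteType.1 inferInstance
  have : Algebra.FinitePresentation B (B ⊗[A] B) :=
    Algebra.FinitePresentation.equiv (AlgEquiv.ofBijective Ψ hbij).symm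
  have : Algebra.FinitePresentation A B :=
    Algebra.FinitePresentation.of_finitePresentation_tensorProduct_of_faithfullyFlat B
  exact this

lemma flat_of_field (C : Alg κ) (f : CommAlgCat.of κ κ ⟶ C) : f.hom.toRingHom.Flat := by
  rw [structMap_unique f (structMap C)]
  have : Module.Flat κ C := inferInstance
  exact (RingHom.flat_algebraMap_iff (R := κ) (S := C)).2 this

lemma ff_iso {A B : Alg κ} (e : A ≅ B) : e.hom.hom.toRingHom.FaithfullyFlat :=
  RingHom.FaithfullyFlat.of_bijective (CommAlgCat.algEquivOfIso e).bijective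

lemma fp_comp_iso {A B C : Alg κ} {f : A ⟶ B} (hf : f.hom.toRingHom.FinitePresentation)
    (e : B ≅ C) : (f ≫ e.hom).hom.toRingHom.FinitePresentation := by
  have h := RingHom.finitePresentation_respectsIso.1 f.hom.toRingHom
    (CommAlgCat.algEquivOfIso e).toRingEquiv hf
  exact h

lemma ff_comp {A B C : Alg κ} {f : A ⟶ B} {g : B ⟶ C} (hf : f.hom.toRingHom.FaithfullyFlat)
    (hg : g.hom.toRingHom.FaithfullyFlat) : (f ≫ g).hom.toRingHom.FaithfullyFlat :=
  RingHom.FaithfullyFlat.stableUnderComposition _ _ hf hg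

/-- Local triviality. -/
lemma exists_triv_of_max (hc : IsCofiberedInGroupoids (TorsCat G)) {i₀ : I} (h : ∀ i, i ≤ i₀)
    (x : Tors G) : ∃ (y : Tors G) (φ : x ⟶ y) (_ : trivTors G ⟶ y) (e : x.B.obj i₀ ≅ y.base),
      TorsHom.base φ = x.s i₀ ≫ e.hom := by
  obtain ⟨y, a, e, -⟩ := tors_exists_push hc (trivTors G) (structMap (x.B.obj i₀))
  exact ⟨y, homOfPt h a e.inv, a, e.symm, rfl⟩

theorem isFiniteGerbe_of_isStack (hS : IsStack (TorsCat G)) (i₀ : I) (h : ∀ i, i ≤ i₀)
    (hfin : Module.Finite κ (G.H.obj i₀)) : IsFiniteGerbe (TorsCat G) := by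
  have hc := hS.toIsCofiberedInGroupoids
  refine ⟨⟨hS, ?_⟩, ⟨hS, ?_, ?_⟩⟩
  · obtain ⟨ρ, i₁, e, -⟩ := tors_exists_push hc (trivTors G) (structMap (G.H.obj i₀))
    refine ⟨trivTors G, ρ, i₁, homOfPt (x := trivTors G) h i₁ e.inv,
      (isCoprod_triv hc h i₁ e).nonempty, ?_, ?_, flat_of_field _ _, flat_of_field _ _, ?_⟩
    · change Module.Finite κ κ
      infer_instance
    · exact Module.Finite.equiv (CommAlgCat.algEquivOfIso e.symm).toLinearEquiv
    · intro x
      obtain ⟨y, φ, a, e, he⟩ := exists_triv_of_max hc h x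
      refine ⟨y, φ, a, ?_, ?_⟩
      · change (TorsHom.base φ).hom.toRingHom.FaithfullyFlat
        rw [he]
        exact ff_comp_iso (x.ff i₀) e
      · change (TorsHom.base φ).hom.toRingHom.FinitePresentation
        rw [he]
        exact fp_comp_iso (finitePresentation_s x i₀ hfin) e
  · intro A
    obtain ⟨y, a, e, -⟩ := tors_exists_push hc (trivTors G) (structMap A)
    exact ⟨y, e.inv, ff_iso e.symm⟩
  · intro A x x'
    obtain ⟨x, rfl⟩ := x
    obtain ⟨x', hx'⟩ := x'
    obtain ⟨y, φ, a, e, he⟩ := exists_triv_of_max hc h x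
    let f : x'.base ⟶ y.base := eqToHom hx' ≫ TorsHom.base φ
    obtain ⟨z, ψ, e', he'⟩ := tors_exists_push hc x' f
    obtain ⟨w, χ, b, e'', he''⟩ := exists_triv_of_max hc h z
    obtain ⟨θ, ⟨hθ, -⟩, -⟩ := tors_exists_desc hc a b (e'.inv ≫ TorsHom.base χ)
      (structMap_unique _ _)
    refine ⟨w.base, TorsHom.base (φ ≫ θ), w, φ ≫ θ, ψ ≫ χ, ?_, ?_, ?_⟩
    · change (TorsHom.base φ ≫ TorsHom.base θ).hom.toRingHom.FaithfullyFlat
      rw [he, hθ, he'']
      exact ff_comp (ff_comp_iso (x.ff i₀) e) (ff_comp (ff_iso e'.symm)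
        (ff_comp_iso (z.ff i₀) e''))
    · exact IsHomLift.map (TorsCat G).p (φ ≫ θ : x ⟶ w)
    · refine IsHomLift.of_fac' (TorsCat G).p _ _ hx' rfl ?_
      change TorsHom.base ψ ≫ TorsHom.base χ =
        eqToHom hx' ≫ (TorsHom.base φ ≫ TorsHom.base θ) ≫ 𝟙 _
      rw [← Iso.eq_comp_inv] at he'
      rw [he', hθ]
      have hx'' : x'.base = x.base := hx'
      change ((eqToHom hx'' ≫ TorsHom.base φ) ≫ e'.inv) ≫ TorsHom.base χ =
        eqToHom hx'' ≫ (TorsHom.base φ ≫ e'.inv ≫ TorsHom.base χ) ≫ 𝟙 _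
      simp only [Category.assoc, Category.comp_id]

end Pool.Agent.H27
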