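import Pool.Agent.H27.Nori

/-!
# Diagrams of affine group schemes and their torsors

`GrpDiag I` is a contravariant diagram, indexed by a preorder `I`, of affine group schemes
`Spec (H i)` over `κ`, in functor of points form.  `TorsCat G` is the category (over `Alg κ`) of
compatible families of torsors under these group schemes.
-/

open CategoryTheory AlgebraicGeometry Limits Bicategory

namespace Pool.Agent.H27

variable {κ : Type} [Field κ]

/-- A diagram of affine group schemes `Spec (H i)`, with homomorphisms `Spec (H j) → Spec (H i)`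
for `i ≤ j`. -/
structure GrpDiag (κ : Type) [Field κ] (I : Type) [Preorder I] where
  H : I ⥤ Alg κ
  grp : ∀ (i : I) (C : Alg κ), Group (H.obj i ⟶ C)
  mul_comp : ∀ (i : I) {C D : Alg κ} (a b : H.obj i ⟶ C) (f : C ⟶ D),
    (a * b) ≫ f = (a ≫ f) * (b ≫ f)
  comp_mul : ∀ {i j : I} (t : i ⟶ j) {C : Alg κ} (a b : H.obj j ⟶ C),
    H.map t ≫ (a * b) = (H.map t ≫ a) * (H.map t ≫ b)

attribute [instance] GrpDiag.grp

variable {I : Type} [Preorder I] (G : GrpDiag κ I)

/-- A compatible family of torsors under the group schemes `Spec (H i)`, over `Spec base`: for each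
`i` an affine scheme `Spec (B i)`, faithfully flat over `Spec base`, with an action of `Spec (H i)`
which is simply transitive on the fibres. -/
structure Tors : Type 1 where
  base : Alg κ
  B : I ⥤ Alg κ
  s : ∀ i, base ⟶ B.obj i
  s_comp : ∀ {i j : I} (t : i ⟶ j), s i ≫ B.map t = s j
  act : ∀ (i : I) {C : Alg κ}, (B.obj i ⟶ C) → (G.H.obj i ⟶ C) → (B.obj i ⟶ C)
  act_one : ∀ (i : I) {C : Alg κ} (b : B.obj i ⟶ C), act i b 1 = b
  act_mul : ∀ (i : I) {C : Alg κ} (b : B.obj i ⟶ C) (g g' : G.H.obj i ⟶ C),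
    act i b (g * g') = act i (act i b g) g'
  act_comp : ∀ (i : I) {C D : Alg κ} (b : B.obj i ⟶ C) (g : G.H.obj i ⟶ C) (f : C ⟶ D),
    act i b g ≫ f = act i (b ≫ f) (g ≫ f)
  comp_act : ∀ {i j : I} (t : i ⟶ j) {C : Alg κ} (b : B.obj j ⟶ C) (g : G.H.obj j ⟶ C),
    B.map t ≫ act j b g = act i (B.map t ≫ b) (G.H.map t ≫ g)
  s_act : ∀ (i : I) {C : Alg κ} (b : B.obj i ⟶ C) (g : G.H.obj i ⟶ C), s i ≫ act i b g = s i ≫ b
  trans : ∀ (i : I) {C : Alg κ} (b b' : B.obj i ⟶ C), s i ≫ b = s i ≫ b' →
    ∃! g : G.H.obj i ⟶ C, act i b g = b'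
  ff : ∀ i, (s i).hom.toRingHom.FaithfullyFlat

/-- Morphisms of families of torsors. -/
@[ext]
structure TorsHom {G : GrpDiag κ I} (x y : Tors G) : Type where
  base : x.base ⟶ y.base
  hom : x.B ⟶ y.B
  comm : ∀ i, base ≫ y.s i = x.s i ≫ hom.app i
  equi : ∀ (i : I) {C : Alg κ} (b : y.B.obj i ⟶ C) (g : G.H.obj i ⟶ C),
    hom.app i ≫ y.act i b g = x.act i (hom.app i ≫ b) g

instance : Category (Tors G) where
  Hom := TorsHom
  id x := { base := 𝟙 _, hom := 𝟙 _, comm := by simp, equi := by simp }
  comp f g :=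
    { base := f.base ≫ g.base
      hom := f.hom ≫ g.hom
      comm := by
        intro i
        rw [Category.assoc, g.comm, ← Category.assoc, f.comm]
        simp
      equi := by
        intro i C b h
        simp only [NatTrans.comp_app, Category.assoc]
        rw [g.equi, f.equi] }
  id_comp f := by apply TorsHom.ext <;> simp
  comp_id f := by apply TorsHom.ext <;> simp
  assoc f g h := by apply TorsHom.ext <;> simp

/-- The category over `Alg κ` of compatible families of torsors. -/
def TorsCat : BasedCategory.{0, 1} (Alg κ) where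
  obj := Tors G
  p :=
    { obj := fun x ↦ x.base
      map := fun a ↦ TorsHom.base a }

end Pool.Agent.H27
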