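import Pool.Agent.H27.VConst

/-!
# Families over virtual points are constant: the general statement
-/

open CategoryTheory Limits Bicategory
open scoped TensorProduct

namespace Pool.Agent.H27

variable {κ : Type} [Field κ] {T : Type} [Category.{0} T]

/-- The data of an embedding of a base change of a diagram in a field. -/
structure FieldPoint (Y : T ⥤ Alg κ) (Ω M : Type) [Field Ω] [Algebra κ Ω] [Field M]
    [Algebra κ M] where
  Y' : T ⥤ Alg κ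
  n : Y ⟶ Y'
  e : ∀ t, CommAlgCat.of κ Ω ⟶ Y'.obj t
  e_comp : ∀ (t t' : T) (τ : t ⟶ t'), e t ≫ Y'.map τ = e t'
  coprod : ∀ t, IsCoprod (n.app t) (e t)
  g : ∀ t, Y'.obj t ⟶ CommAlgCat.of κ M
  comp_g : ∀ (t t' : T) (τ : t ⟶ t'), Y'.map τ ≫ g t' = g t
  inj : ∀ t, Function.Injective (g t).hom

variable {Y : T ⥤ Alg κ} {Ω M : Type} [Field Ω] [Algebra κ Ω] [Field M] [Algebra κ M]

/-- The condition on `Γ` which ensures that families over `Y` are constant. -/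
def FieldPoint.RangeCondition (S : FieldPoint Y Ω M) (Γ : BasedCategory.{0, 1} (Alg κ)) : Prop :=
  ∀ (y' : T ⥤ Γ.obj) (ey : y' ⋙ Γ.p ≅ S.Y') (ξ : Γ.obj) (eξ : Γ.p.obj ξ ≅ CommAlgCat.of κ Ω)
    (yM : Γ.obj) (eM : Γ.p.obj yM ≅ CommAlgCat.of κ M) (h : ∀ t, y'.obj t ⟶ yM)
    (_ : ∀ (t t' : T) (τ : t ⟶ t'), y'.map τ ≫ h t' = h t)
    (_ : ∀ t, Γ.p.map (h t) ≫ eM.hom = ey.hom.app t ≫ S.g t)
    (s : ξ ⟶ yM) (_ : ∀ t, Γ.p.map s ≫ eM.hom = eξ.hom ≫ S.e t ≫ S.g t)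
    (t : T) (z : Γ.obj) (i : ξ ⟶ z) (j : y'.obj t ⟶ z) (hz : IsCoprod i j) (a : Γ.p.obj z),
    ∃ b : Γ.p.obj (y'.obj t), (Γ.p.map (h t)).hom b = (Γ.p.map (hz.desc s (h t))).hom a

theorem isConstOn_of_rangeCondition [IsAlgClosed Ω] [IsAlgClosed M] (hY : IsConnectedDiagram Y)
    {t₁ : T} (ht₁ : IsTerminal t₁) (S : FieldPoint Y Ω M) {Γ : BasedCategory.{0, 1} (Alg κ)}
    (hΓ : IsFiniteStack Γ) (hΓc : HasCoprods Γ) (hS : S.RangeCondition Γ) : IsConstOn Y Γ := by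
  intro y ey₀
  have hc := hΓ.isStack.toIsCofiberedInGroupoids
  let σ : CommAlgCat.of κ Ω ⟶ CommAlgCat.of κ M := S.e t₁ ≫ S.g t₁
  have hσ : ∀ t, S.e t ≫ S.g t = σ := by
    intro t
    rw [← S.comp_g t t₁ (ht₁.from t), ← Category.assoc, S.e_comp]
  -- the object over `M`
  obtain ⟨yM, ψ, eM, hψ⟩ := hc.exists_push' (y.obj t₁) (ey₀.hom.app t₁ ≫ S.n.app t₁ ≫ S.g t₁)
  -- the object over `Ω`
  obtain ⟨u, hu, ⟨w⟩⟩ := hΓ.exists_arrow (CommAlgCat.algEquivOfIso eM).toRingEquiv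
  obtain ⟨v, hv⟩ : ∃ v : Γ.p.obj u ⟶ CommAlgCat.of κ Ω, v ≫ σ = Γ.p.map w ≫ eM.hom := by
    apply factor_of_range
    · exact RingHom.injective σ.hom.toRingHom
    · intro a
      have : IsIntegral κ a := Algebra.IsIntegral.isIntegral a
      exact exists_of_isIntegral σ.hom (this.map (Γ.p.map w ≫ eM.hom).hom)
  obtain ⟨ξ, q, eξ, hq⟩ := hc.exists_push' u v
  let s : ξ ⟶ yM := hc.desc q w (eξ.hom ≫ σ ≫ eM.inv) (by
    rw [← Category.assoc, hq, ← Category.assoc, hv]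
    simp)
  have hs : Γ.p.map s ≫ eM.hom = eξ.hom ≫ σ := by
    simp only [s, hc.map_desc]
    simp
  -- the base change of the family to `p ξ`
  obtain ⟨y', n', c, hcy', hcop⟩ := hc.exists_baseChange_functor y (Γ.p.obj ξ)
  let E : ∀ t, Γ.p.obj (y'.obj t) ≅ S.Y'.obj t := fun t ↦
    (hcop t).isoOf (S.coprod t) (ey₀.app t) eξ
  have hE₁ : ∀ t, Γ.p.map (n'.app t) ≫ (E t).hom = ey₀.hom.app t ≫ S.n.app t := by
    intro t
    simp [E, IsCoprod.isoOf]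
  have hE₂ : ∀ t, c t ≫ (E t).hom = eξ.hom ≫ S.e t := by
    intro t
    simp [E, IsCoprod.isoOf]
  let ey : y' ⋙ Γ.p ≅ S.Y' := NatIso.ofComponents E (by
    intro t t' τ
    refine (hcop t).hom_ext ?_ ?_
    · have h₁ : Γ.p.map (n'.app t) ≫ Γ.p.map (y'.map τ) =
          Γ.p.map (y.map τ) ≫ Γ.p.map (n'.app t') := by
        rw [← Γ.p.map_comp, ← n'.naturality, Γ.p.map_comp]
      have h₂ := ey₀.hom.naturality τ
      dsimp at h₂ ⊢
      rw [← Category.assoc, h₁, Category.assoc, hE₁, ← Category.assoc, h₂, ← Category.assoc, hE₁,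
        Category.assoc, Category.assoc, S.n.naturality]
    · dsimp
      rw [← Category.assoc, hcy', hE₂, ← Category.assoc, hE₂, Category.assoc, S.e_comp])
  have hey : ∀ t, ey.hom.app t = (E t).hom := fun t ↦ rfl
  -- the arrows from `y'` to `yM`
  have hn'y : ∀ t, Γ.p.map (n'.app t) ≫ (E t).hom ≫ S.g t ≫ eM.inv =
      Γ.p.map (y.map (ht₁.from t) ≫ ψ) := by
    intro t
    have h₁ : Γ.p.map ψ = (ey₀.hom.app t₁ ≫ S.n.app t₁ ≫ S.g t₁) ≫ eM.inv := by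
      rw [← hψ]
      simp
    have h₂ := ey₀.hom.naturality (ht₁.from t)
    have h₃ := S.n.naturality (ht₁.from t)
    dsimp at h₂
    rw [Γ.p.map_comp, h₁, ← Category.assoc, hE₁, ← S.comp_g t t₁ (ht₁.from t)]
    simp only [Category.assoc]
    rw [reassoc_of% h₂, reassoc_of% h₃]
  let h : ∀ t, y'.obj t ⟶ yM := fun t ↦ hc.desc (n'.app t) (y.map (ht₁.from t) ≫ ψ)
    ((E t).hom ≫ S.g t ≫ eM.inv) (hn'y t)
  have hn'h : ∀ t, n'.app t ≫ h t = y.map (ht₁.from t) ≫ ψ := fun t ↦ hc.fac_desc _ _ _ _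
  have hhp : ∀ t, Γ.p.map (h t) = (E t).hom ≫ S.g t ≫ eM.inv := fun t ↦ hc.map_desc _ _ _ _
  have hhp' : ∀ t, Γ.p.map (h t) ≫ eM.hom = ey.hom.app t ≫ S.g t := by
    intro t
    rw [hhp, hey]
    simp
  have hinj : ∀ t, Function.Injective (Γ.p.map (h t)).hom := by
    intro t a b hab
    have : ((Γ.p.map (h t)) ≫ eM.hom).hom a = ((Γ.p.map (h t)) ≫ eM.hom).hom b := by
      simp [hab]
    rw [hhp'] at this
    have h₁ := S.inj t (a₁ := (E t).hom.hom a) (a₂ := (E t).hom.hom b) this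
    have h₂ := congr((E t).inv.hom $h₁)
    simpa using h₂
  have hh : ∀ (t t' : T) (τ : t ⟶ t'), y'.map τ ≫ h t' = h t := by
    intro t t' τ
    refine hc.hom_ext (n'.app t) ?_ ?_
    · rw [Γ.p.map_comp, hhp, hhp]
      have := ey.hom.naturality τ
      dsimp at this
      rw [hey, hey] at this
      rw [reassoc_of% this, reassoc_of% (S.comp_g t t' τ)]
    · rw [← n'.naturality_assoc, hn'h, hn'h, ← Category.assoc, ← y.map_comp]
      congr 2
      exact ht₁.hom_ext _ _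
  -- the arrows from `ξ` to `y'`
  have hm : ∀ t, ∃ m : ξ ⟶ y'.obj t, m ≫ h t = s := by
    intro t
    obtain ⟨z, i, j, hz⟩ := hΓc ξ (y'.obj t)
    have hr := hS y' ey ξ eξ yM eM h hh hhp' s (by
      intro t
      rw [hs, hσ]) t z i j hz
    obtain ⟨d, hd⟩ := factor_of_range (Γ.p.map (hz.desc s (h t))) (Γ.p.map (h t)) (hinj t) hr
    obtain ⟨w', q', e', hqe'⟩ := hc.exists_push' z d
    let r' : w' ⟶ yM := hc.desc q' (hz.desc s (h t)) (e'.hom ≫ Γ.p.map (h t)) (by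
      rw [← Category.assoc, hqe', hd])
    have hr' : q' ≫ r' = hz.desc s (h t) := hc.fac_desc _ _ _ _
    have hjd : Γ.p.map j ≫ d = 𝟙 _ := by
      ext a
      apply hinj t
      have h₁ : Γ.p.map j ≫ Γ.p.map (hz.desc s (h t)) = Γ.p.map (h t) := by
        rw [← Γ.p.map_comp, hz.right_desc]
      rw [← hd, ← Category.assoc] at h₁
      exact congr(($h₁).hom a)
    have : IsIso (Γ.p.map (j ≫ q')) := by
      have h₁ : Γ.p.map (j ≫ q') = e'.inv := by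
        rw [Γ.p.map_comp, ← cancel_mono e'.hom, Category.assoc, hqe', hjd]
        simp
      rw [h₁]
      infer_instance
    have : IsIso (j ≫ q') := hc.isIso_of_isIso _
    refine ⟨i ≫ q' ≫ inv (j ≫ q'), ?_⟩
    have h₁ : (j ≫ q') ≫ r' = h t := by
      rw [Category.assoc, hr', hz.right_desc]
    calc (i ≫ q' ≫ inv (j ≫ q')) ≫ h t = (i ≫ q') ≫ inv (j ≫ q') ≫ (j ≫ q') ≫ r' := by
          rw [h₁]
          simp only [Category.assoc]
      _ = (i ≫ q') ≫ r' := by rw [IsIso.inv_hom_id_assoc]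
      _ = s := by rw [Category.assoc, hr', hz.left_desc]
  choose m hm using hm
  have hmc : ∀ t, Γ.p.map (m t) = c t := by
    intro t
    ext a
    apply hinj t
    have h₁ : Γ.p.map (m t) ≫ Γ.p.map (h t) = c t ≫ Γ.p.map (h t) := by
      rw [← Γ.p.map_comp, hm, ← cancel_mono eM.hom, hs, Category.assoc, hhp', hey, ← hσ t,
        reassoc_of% (hE₂ t)]
    exact congr(($h₁).hom a)
  have hm' : ∀ (t t' : T) (τ : t ⟶ t'), m t ≫ y'.map τ = m t' := by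
    intro t t' τ
    apply mono_of_injective hc hΓc (h t') (hinj t')
    rw [Category.assoc, hh, hm, hm]
  obtain ⟨z, i₁, i₂, hz⟩ := hΓc ξ ξ
  have hnt : Nontrivial (Γ.p.obj ξ) :=
    (CommAlgCat.algEquivOfIso eξ).toEquiv.nontrivial
  have hY₀ : IsConnectedDiagram (y ⋙ Γ.p) := hY.of_iso ey₀.symm
  obtain ⟨z₀, hz₀, ζ, θ, hθ, -⟩ := descend_const hΓ.isStack t₁ y y' n' m hm'
    (fun t ↦ by rw [hmc]; exact hcop t) hY₀.nontrivial hnt i₁ i₂ hz
    (fun C c₁ c₂ hC Y'' k e he hk d hd ↦ hY₀.const Y'' k C e he hk (Γ.p.obj z) d hd)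
  exact ⟨z₀, hz₀, θ, hθ⟩

end Pool.Agent.H27
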